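import Pool.Agent.MP_94fa45_ag.Mg.C73_PA

attribute [-instance] Complex.instModule Subalgebra.algebra'
  ContinuousSemilinearMapClass.toSemilinearMapClass IsAffineAddMonoid.toIsCancelAdd instSMulZeroClass
  Action.FintypeCat.instMulActionObjFiniteOf AlgEquiv.instCoeOutRingEquiv RightPreLieAlgebra.toModule
  LeftPreLieAlgebra.toModule LieAlgebra.toModule CoalgHomClass.toSemilinearMapClass
  Complex.instAlgebraOfReal SubfieldClass.toSubringClass instCharZeroOfIsSemireal
  GradedMonoid.GradeZero.smul Complex.instDistribMulActionOfReal SubringClass.toCommRing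
  RingHomClass.toLinearMapClassRat NormedSpace.toModule RKHS.instFunLike
  SemilinearIsometryClass.toSemilinearMapClass instNonUnitalAlgHomClassOfNonUnitalAlgEquivClass
  RingConeClass.toSubsemiringClass BialgHomClass.toAlgHomClass
  MulRingSeminormClass.toMonoidWithZeroHomClass AddCommGroup.toAddGroup AlgHomClass.linearMapClass
  NonUnitalAlgHomClass.instSemilinearMapClassOfNonUnitalAlgSemiHomClassToMonoidHomRingHom
  IsStrictOrderedRing.toCharZero instCoeTCOfCoe NonUnitalSubsemiringClass.toAddSubmonoidClass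
  RCLike.charZero_rclike NumberField.to_charZero instIsFractionRing MonTypeEquivalenceMon.monMonoid
  Nontrivial.to_nonempty MulSemiringAction.toDistribMulAction Unique.instSubsingleton
  Algebra.Generators.instIsScalarTowerRing Bialgebra.toAlgebra FloorSemiring.instCharZero
  CommMonTypeEquivalenceCommMon.commMonCommMonoid SubringClass.toRing
  AddSubmonoidWithOneClass.toAddSubmonoidClass BialgHomClass.toMonoidHomClass littleWedderburn
  AddGroupConeClass.toAddSubmonoidClass SemilinearEquivClass.instSemilinearMapClass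
  TestFunctionClass.toDFunLike Localization.partialOrder AddSubgroupClass.toAddGroup
  ContDiffMapSupportedInClass.toDFunLike ValuationClass.toMonoidWithZeroHomClass
  NonUnitalAlgHomClass.toNonUnitalRingHomClass SubalgebraClass.toAlgebra MonoidHomClass.toMulHomClass
  Subsingleton.to_isCancelMulZero MulSemiringActionSemiHomClass.toRingHomClass
  MulCharClass.toMonoidHomClass CentroidHomClass.toAddMonoidHomClass
  NonUnitalSubringClass.toNegMemClass MulSemiringActionSemiHomClass.toDistribMulActionSemiHomClass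
  MulDistribMulActionSemiHomClass.toMonoidHomClass SubringClass.toSubsemiringClass
  RightPreLieRing.instLieAdmissibleRing NonUnitalNormedRing.toNormedAddCommGroup
  FractionRing.instIsScalarTower ContinuousMonoidHom.instCoeOutOfMonoidHomClassOfContinuousMapClass
  SemilatticeInf.toPartialOrder NeZero.of_gt' NonarchimedeanAddGroup.toIsTopologicalAddGroup
  instCoeTOfCoeDep LinearOrder.toDecidableEq RingEquivClass.toRingHomClass
  AddCommGroupWithOne.toAddGroupWithOne NormedField.toField SetLike.GradeZero.instCommRing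
  MulEquivClass.toMonoidWithZeroHomClass NonarchimedeanRing.toIsTopologicalRing
  IsometryClass.instCoeOutIsometryEquiv

/-! Algebra of the Coulomb branch, part 1. -/

section
/-! Block A0 (owner helper13): derivations, bracket on `LL I`, Weyl group action. -/

open Set Filter Topology TopologicalSpace

noncomputable section
namespace C73

variable {I ι : Type} [Fintype I] [DecidableEq I] {nd : I → ι} {ar : ι → ι → ℕ} {fr : ι → ℕ}

/-- Weyl group action on rational functions -/
def actK (σ : Equiv.Perm I) : KK I ≃ₐ[ℂ] KK I :=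
  IsFractionRing.algEquivOfAlgEquiv (MvPolynomial.renameEquiv ℂ σ)
/-- Weyl group action on `LL I` -/
def actL (σ : Equiv.Perm I) : LL I ≃ₐ[ℂ] LL I :=
  (AddMonoidAlgebra.mapAlgEquiv ℂ (I → ℤ) (actK σ)).trans
    (AddMonoidAlgebra.domCongr ℂ (KK I) (AddEquiv.arrowCongr σ (AddEquiv.refl ℤ)))
theorem actK_poly (σ : Equiv.Perm I) (p : PP I) :
    actK σ (algebraMap (PP I) (KK I) p) = algebraMap (PP I) (KK I) (MvPolynomial.rename σ p) :=
  IsFractionRing.algEquivOfAlgEquiv_algebraMap _ p
omit [Fintype I] [DecidableEq I] in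
theorem ia0_frac (x : KK I) : ∃ p q : PP I, algebraMap (PP I) (KK I) q ≠ 0 ∧
    x * algebraMap (PP I) (KK I) q = algebraMap (PP I) (KK I) p :=
  ⟨_, _, (map_ne_zero_iff _ (IsFractionRing.injective _ _)).2
    (nonZeroDivisors.ne_zero (IsLocalization.sec (nonZeroDivisors (PP I)) x).2.2),
    IsLocalization.sec_spec _ x⟩
theorem actK_mul (σ τ : Equiv.Perm I) (x : KK I) : actK (σ * τ) x = actK σ (actK τ x) := by
  obtain ⟨p, q, hq, h⟩ := ia0_frac x
  rw [eq_div_of_mul_eq hq h]
  simp only [map_div₀, actK_poly, MvPolynomial.rename_rename, Equiv.Perm.coe_mul]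
theorem actK_one (x : KK I) : actK (1 : Equiv.Perm I) x = x := by
  obtain ⟨p, q, hq, h⟩ := ia0_frac x
  rw [eq_div_of_mul_eq hq h]
  simp only [map_div₀, actK_poly, Equiv.Perm.coe_one, MvPolynomial.rename_id_apply]
theorem actL_single (σ : Equiv.Perm I) (l : I → ℤ) (c : KK I) :
    actL σ (AddMonoidAlgebra.single l c) = AddMonoidAlgebra.single (l ∘ σ.symm) (actK σ c) := by
  show AddMonoidAlgebra.domCongr ℂ (KK I) _ (AddMonoidAlgebra.mapAlgHom (I → ℤ)
    (actK σ : KK I →ₐ[ℂ] KK I) _) = _
  rw [AddMonoidAlgebra.mapAlgHom_single, AddMonoidAlgebra.domCongr_single]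
  rfl
theorem actL_coeff (σ : Equiv.Perm I) (x : LL I) (l : I → ℤ) :
    (actL σ x).coeff (l ∘ σ.symm) = actK σ (x.coeff l) := by
  show (AddMonoidAlgebra.domCongr ℂ (KK I) _ (AddMonoidAlgebra.mapAlgHom (I → ℤ)
    (actK σ : KK I →ₐ[ℂ] KK I) _)).coeff _ = _
  rw [AddMonoidAlgebra.coeff_domCongr, AddMonoidAlgebra.coeff_mapAlgHom]
  refine congrArg (fun m => actK σ (x.coeff m)) (funext fun a => ?_)
  simp [AddEquiv.arrowCongr]
theorem actL_mul (σ τ : Equiv.Perm I) (x : LL I) : actL (σ * τ) x = actL σ (actL τ x) := by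
  induction x using AddMonoidAlgebra.induction_linear with
  | zero => simp
  | add x y hx hy => simp only [map_add, hx, hy]
  | single l c => simp only [actL_single, actK_mul]; rfl
theorem actL_one (x : LL I) : actL (1 : Equiv.Perm I) x = x := by
  induction x using AddMonoidAlgebra.induction_linear with
  | zero => simp
  | add x y hx hy => simp only [map_add, hx, hy]
  | single l c => simp only [actL_single, actK_one]; rfl
theorem ia0_ww (σ : Equiv.Perm I) (a : I) : actK σ (ww a) = ww (σ a) := by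
  rw [ww, actK_poly, MvPolynomial.rename_X, ww]
omit [Fintype I] [DecidableEq I] in
theorem ia0_ww_ne (a : I) : ww a ≠ 0 :=
  (map_ne_zero_iff _ (IsFractionRing.injective _ _)).2 (MvPolynomial.X_ne_zero a)
omit [Fintype I] [DecidableEq I] in
theorem ia0_ww_sub {a b : I} (h : a ≠ b) : ww a - ww b ≠ 0 :=
  sub_ne_zero.2 fun e => h (MvPolynomial.X_injective (IsFractionRing.injective _ _ e))
theorem actK_EE {σ : Equiv.Perm I} (h : InW nd σ) (l : I → ℤ) :
    actK σ (EE nd ar fr l) = EE nd ar fr (l ∘ σ.symm) := by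
  simp only [EE, map_div₀, map_mul, map_prod, map_pow, map_sub, ia0_ww, Finset.prod_filter,
    apply_ite (actK σ), map_one]
  refine congrArg₂ (· / ·) (congrArg₂ (· * ·) ?_ ?_) ?_
  · exact Fintype.prod_equiv σ _ _ fun a => Fintype.prod_equiv σ _ _ fun b => by simp [h a, h b]
  · exact Fintype.prod_equiv σ _ _ fun a => by simp [h a]
  · exact Fintype.prod_equiv σ _ _ fun a => Fintype.prod_equiv σ _ _ fun b => by
      rw [h a, h b]; simp
theorem EE_ne_zero (har : ∀ j, ar j j = 0) (l : I → ℤ) : EE nd ar fr l ≠ 0 := by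
  have key : ∀ (a b : I) (n : ℕ), (a = b → n = 0) → (ww a - ww b) ^ n ≠ 0 := fun a b n h => by
    by_cases e : a = b
    · rw [h e, pow_zero]; exact one_ne_zero
    · exact pow_ne_zero _ (ia0_ww_sub e)
  refine div_ne_zero (mul_ne_zero ?_ ?_) ?_ <;> refine Finset.prod_ne_zero_iff.2 fun a _ => ?_
  · exact Finset.prod_ne_zero_iff.2 fun b _ => key _ _ _ fun e => by simp [e]
  · exact pow_ne_zero _ (ia0_ww_ne a)
  · exact Finset.prod_ne_zero_iff.2 fun b _ => key _ _ _ fun e => by simp [e]
theorem EE_zero : EE nd ar fr 0 = 1 := by simp only [EE, Pi.zero_apply, sub_self, Int.toNat_zero, mul_zero, pow_zero, Finset.prod_const_one, neg_zero, mul_one, ne_eq, one_ne_zero, not_false_eq_true, div_self]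
open Classical in
theorem mono_eq (l : I → ℤ) (f : PP I) : mono nd ar fr l f =
    ∑ σ : Equiv.Perm I with InW nd σ,
      actL σ (AddMonoidAlgebra.single l (algebraMap (PP I) (KK I) f * EE nd ar fr l)) := by
  refine Finset.sum_congr (by ext; rw [Finset.mem_filter, Finset.mem_filter]; rfl) fun σ hσ => ?_
  rw [actL_single, map_mul, actK_poly, actK_EE (Finset.mem_filter.1 hσ).2]
theorem pL_eq (p : PP I) : pL p = algebraMap (KK I) (LL I) (algebraMap (PP I) (KK I) p) := rfl
theorem pL_inj : Function.Injective (pL : PP I → LL I) := fun _ _ h =>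
  IsFractionRing.injective (PP I) (KK I) (AddMonoidAlgebra.single_right_injective h)
omit [Fintype I] [DecidableEq I] in
theorem ia0_pd (a : I) {x : KK I} {p q : PP I}
    (h : x * algebraMap (PP I) (KK I) q = algebraMap (PP I) (KK I) p) :
    pd a x * algebraMap (PP I) (KK I) q = algebraMap (PP I) (KK I) (MvPolynomial.pderiv a p) -
      x * algebraMap (PP I) (KK I) (MvPolynomial.pderiv a q) := by
  have h1 := IsLocalization.sec_spec (nonZeroDivisors (PP I)) x
  have h0 := (map_ne_zero_iff _ (IsFractionRing.injective (PP I) (KK I))).2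
    (nonZeroDivisors.ne_zero (IsLocalization.sec (nonZeroDivisors (PP I)) x).2.2)
  simp only [pd]
  generalize (IsLocalization.sec (nonZeroDivisors (PP I)) x).1 = s at *
  generalize ((IsLocalization.sec (nonZeroDivisors (PP I)) x).2 : PP I) = t at *
  have h2 : p * t = s * q := IsFractionRing.injective (PP I) (KK I) (by
    rw [map_mul, map_mul, ← h, ← h1]; ring)
  have h3 := congrArg (fun z => algebraMap (PP I) (KK I) (MvPolynomial.pderiv a z)) h2
  simp only [MvPolynomial.pderiv_mul, map_add, map_mul, map_sub, map_pow] at h3 ⊢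
  rw [div_mul_eq_mul_div, div_eq_iff (pow_ne_zero 2 h0), ← h1]
  rw [← h, ← h1] at h3
  linear_combination (-algebraMap (PP I) (KK I) t) * h3
theorem pd_add (a : I) (x y : KK I) : pd a (x + y) = pd a x + pd a y := by
  obtain ⟨p, q, hq, h⟩ := ia0_frac x
  obtain ⟨p', q', hq', h'⟩ := ia0_frac y
  have h1 := ia0_pd a (x := x + y) (p := p * q' + p' * q) (q := q * q') (by
    rw [map_add, map_mul, map_mul, map_mul, ← h, ← h']; ring)
  simp only [MvPolynomial.pderiv_mul, map_add, map_mul, ← h, ← h'] at h1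
  refine mul_right_cancel₀ (mul_ne_zero hq hq') ?_
  linear_combination h1 - algebraMap (PP I) (KK I) q' * ia0_pd a h -
    algebraMap (PP I) (KK I) q * ia0_pd a h'
theorem pd_mul (a : I) (x y : KK I) : pd a (x * y) = pd a x * y + x * pd a y := by
  obtain ⟨p, q, hq, h⟩ := ia0_frac x
  obtain ⟨p', q', hq', h'⟩ := ia0_frac y
  have h1 := ia0_pd a (x := x * y) (p := p * p') (q := q * q') (by
    rw [map_mul, map_mul, ← h, ← h']; ring)
  simp only [MvPolynomial.pderiv_mul, map_add, map_mul, ← h, ← h'] at h1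
  refine mul_right_cancel₀ (mul_ne_zero hq hq') ?_
  linear_combination h1 - y * algebraMap (PP I) (KK I) q' * ia0_pd a h -
    x * algebraMap (PP I) (KK I) q * ia0_pd a h'
omit [Fintype I] [DecidableEq I] in
theorem ia0_poly (a : I) (p : PP I) :
    pd a (algebraMap (PP I) (KK I) p) = algebraMap (PP I) (KK I) (MvPolynomial.pderiv a p) := by
  simpa only [map_one, mul_one, Derivation.map_one_eq_zero, map_zero, mul_zero, sub_zero] using ia0_pd a (x := algebraMap (PP I) (KK I) p) (p := p) (q := 1) (by simp only [map_one, mul_one])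
theorem pd_smul (a : I) (c : ℂ) (x : KK I) : pd a (c • x) = c • pd a x := by
  rw [Algebra.smul_def, Algebra.smul_def, IsScalarTower.algebraMap_apply ℂ (PP I) (KK I), pd_mul,
    ia0_poly]
  simp only [MvPolynomial.algebraMap_eq, MvPolynomial.derivation_C, map_zero, zero_mul, zero_add]
theorem pd_poly (a : I) (p : PP I) :
    pd a (algebraMap (PP I) (KK I) p) = algebraMap (PP I) (KK I) (MvPolynomial.pderiv a p) :=
  ia0_poly a p
omit [Fintype I] in
theorem ia0_pderiv_comm (a b : I) (p : PP I) : MvPolynomial.pderiv a (MvPolynomial.pderiv b p) =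
    MvPolynomial.pderiv b (MvPolynomial.pderiv a p) := by
  induction p using MvPolynomial.induction_on with
  | C c => simp
  | add p q hp hq => simp only [map_add, hp, hq]
  | mul_X p c hp =>
    have h0 : ∀ a b : I, MvPolynomial.pderiv a (MvPolynomial.pderiv b (MvPolynomial.X c : PP I)) = 0 :=
      fun a b => by
        by_cases e : c = b
        · rw [e, MvPolynomial.pderiv_X_self, MvPolynomial.pderiv_one]
        · rw [MvPolynomial.pderiv_X_of_ne e, map_zero]
    simp only [MvPolynomial.pderiv_mul, map_add, hp, h0]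
    ring
theorem pd_comm (a b : I) (x : KK I) : pd a (pd b x) = pd b (pd a x) := by
  obtain ⟨p, q, hq, h⟩ := ia0_frac x
  have h1 := congrArg (fun z => pd a (pd b z)) h
  have h2 := congrArg (fun z => pd b (pd a z)) h
  simp only [pd_mul, pd_add, pd_poly] at h1 h2
  rw [ia0_pderiv_comm b a, ia0_pderiv_comm b a] at h2
  refine mul_right_cancel₀ hq ?_
  linear_combination h1 - h2
theorem pd_actK (σ : Equiv.Perm I) (a : I) (x : KK I) : pd (σ a) (actK σ x) = actK σ (pd a x) := by
  obtain ⟨p, q, hq, h⟩ := ia0_frac x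
  have h1 := congrArg (actK σ) h
  have h2 := congrArg (actK σ) (ia0_pd a h)
  simp only [map_mul, map_sub, actK_poly] at h1 h2
  have h3 := ia0_pd (σ a) h1
  rw [MvPolynomial.pderiv_rename σ.injective, MvPolynomial.pderiv_rename σ.injective, ← h2] at h3
  exact mul_right_cancel₀ (by rw [← actK_poly]; exact (map_ne_zero _).2 hq) h3
/-- `pd a` as an additive map -/
def ia0_pdA (a : I) : KK I →+ KK I := AddMonoidHom.mk' (pd a) (pd_add a)
theorem ia0_pd_zero (a : I) : pd a (0 : KK I) = 0 := (ia0_pdA a).map_zero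
/-- the derivation `∑ l a • ∂ a` -/
def ia0_dd (l : I → ℤ) : KK I →+ KK I := ∑ a, l a • ia0_pdA a
theorem ia0_dd_apply (l : I → ℤ) (c : KK I) : ia0_dd l c = ∑ a, (l a : KK I) * pd a c := by
  simp only [ia0_dd, ia0_pdA, AddMonoidHom.finsetSum_apply, AddMonoidHom.smul_apply, AddMonoidHom.mk'_apply, zsmul_eq_mul]
theorem ia0_dd_add (l m : I → ℤ) (c : KK I) : ia0_dd (l + m) c = ia0_dd l c + ia0_dd m c := by
  simp only [ia0_dd_apply, Pi.add_apply, Int.cast_add, add_mul, Finset.sum_add_distrib]
theorem ia0_dd_mul (l : I → ℤ) (c d : KK I) :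
    ia0_dd l (c * d) = ia0_dd l c * d + c * ia0_dd l d := by
  simp only [ia0_dd_apply, pd_mul, Finset.sum_mul, Finset.mul_sum, ← Finset.sum_add_distrib]
  exact Finset.sum_congr rfl fun a _ => by ring
theorem ia0_dd_smul (l : I → ℤ) (z : ℂ) (c : KK I) : ia0_dd l (z • c) = z • ia0_dd l c := by
  simp only [ia0_dd_apply, pd_smul, Finset.smul_sum, mul_smul_comm]
theorem ia0_dd_comm (l m : I → ℤ) (c : KK I) : ia0_dd l (ia0_dd m c) = ia0_dd m (ia0_dd l c) := by
  have : ∀ l m : I → ℤ, ia0_dd l (ia0_dd m c) = ∑ a, ∑ b, (l a * m b) • pd a (pd b c) := fun l m => by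
    rw [ia0_dd_apply l]
    refine Finset.sum_congr rfl fun a _ => ?_
    change _ * ia0_pdA a _ = _
    simp only [ia0_dd, AddMonoidHom.finsetSum_apply, map_sum, AddMonoidHom.smul_apply, map_zsmul,
      Finset.mul_sum, mul_smul, ← zsmul_eq_mul]
    rfl
  rw [this, this, Finset.sum_comm]
  exact Finset.sum_congr rfl fun a _ => Finset.sum_congr rfl fun b _ => by rw [mul_comm, pd_comm]
theorem ia0_sum (l l' : I → ℤ) (c c' : KK I) :
    ∑ a, ((l a : KK I) * c * pd a c' - (l' a : KK I) * pd a c * c') =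
      c * ia0_dd l c' - ia0_dd l' c * c' := by
  simp only [ia0_dd_apply, Finset.sum_mul, Finset.mul_sum, ← Finset.sum_sub_distrib]
  exact Finset.sum_congr rfl fun a _ => by ring
theorem ia0_br (x y : LL I) : br x y = x.coeff.sum fun l c => y.coeff.sum fun l' c' =>
    AddMonoidAlgebra.single (l + l') (c * ia0_dd l c' - ia0_dd l' c * c') := by
  simp only [br, ia0_sum]
theorem ia0_single (l l' : I → ℤ) (c c' : KK I) :
    br (AddMonoidAlgebra.single l c) (AddMonoidAlgebra.single l' c') =
      AddMonoidAlgebra.single (l + l') (c * ia0_dd l c' - ia0_dd l' c * c') := by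
  rw [ia0_br, AddMonoidAlgebra.coeff_single, AddMonoidAlgebra.coeff_single,
    Finsupp.sum_single_index, Finsupp.sum_single_index] <;> simp
theorem ia0_zero_left (y : LL I) : br 0 y = 0 := by simp only [br, AddMonoidAlgebra.coeff_zero, Finset.sum_sub_distrib, AddMonoidAlgebra.single_sub, Finsupp.sum_sub, Finsupp.sum_zero_index, sub_self]
theorem ia0_zero_right (y : LL I) : br y 0 = 0 := by simp only [br, AddMonoidAlgebra.coeff_zero, Finset.sum_sub_distrib, AddMonoidAlgebra.single_sub, Finsupp.sum_sub, Finsupp.sum_zero_index, sub_self, Finsupp.sum_fun_zero]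
theorem ia0_add_left (x x' y : LL I) : br (x + x') y = br x y + br x' y := by
  simp only [ia0_br, AddMonoidAlgebra.coeff_add]
  refine Finsupp.sum_add_index' (fun l => by simp) fun l c d => ?_
  rw [← Finsupp.sum_add]
  refine Finsupp.sum_congr fun l' _ => ?_
  rw [← AddMonoidAlgebra.single_add, map_add]
  congr 1; ring
theorem ia0_add_right (x y y' : LL I) : br x (y + y') = br x y + br x y' := by
  simp only [ia0_br, AddMonoidAlgebra.coeff_add]
  rw [← Finsupp.sum_add]
  refine Finsupp.sum_congr fun l _ => Finsupp.sum_add_index' (fun l => by simp) fun l' c d => ?_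
  rw [← AddMonoidAlgebra.single_add, map_add]
  congr 1; ring
theorem br_single (l l' : I → ℤ) (c c' : KK I) :
    br (AddMonoidAlgebra.single l c) (AddMonoidAlgebra.single l' c') =
      AddMonoidAlgebra.single (l + l')
        (∑ a, ((l a : KK I) * c * pd a c' - (l' a : KK I) * pd a c * c')) := by
  rw [ia0_single, ia0_sum]
theorem br_poi : IsPoi (br : LL I → LL I → LL I) where
  add := ia0_add_left
  smul z f g := by
    induction f using AddMonoidAlgebra.induction_linear with
    | zero => simp [ia0_zero_left]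
    | add x y hx hy => simp only [smul_add, ia0_add_left, hx, hy]
    | single l c =>
      induction g using AddMonoidAlgebra.induction_linear with
      | zero => simp [ia0_zero_right]
      | add x y hx hy => simp only [smul_add, ia0_add_right, hx, hy]
      | single m d =>
        simp only [AddMonoidAlgebra.smul_single, ia0_single, ia0_dd_smul, smul_sub, smul_mul_assoc]
  anti f g := by
    induction f using AddMonoidAlgebra.induction_linear with
    | zero => simp [ia0_zero_left, ia0_zero_right]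
    | add x y hx hy => rw [ia0_add_left, ia0_add_right, hx, hy, neg_add]
    | single l c =>
      induction g using AddMonoidAlgebra.induction_linear with
      | zero => simp [ia0_zero_left, ia0_zero_right]
      | add x y hx hy => rw [ia0_add_left, ia0_add_right, hx, hy, neg_add]
      | single m d =>
        rw [ia0_single, ia0_single, ← AddMonoidAlgebra.single_neg, add_comm]
        congr 1; ring
  mul f g h := by
    induction f using AddMonoidAlgebra.induction_linear with
    | zero => simp [ia0_zero_left]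
    | add x y hx hy => simp only [ia0_add_left, hx, hy]; ring
    | single l c =>
      induction g using AddMonoidAlgebra.induction_linear with
      | zero => simp [ia0_zero_right]
      | add x y hx hy => simp only [add_mul, ia0_add_right, hx, hy]; ring
      | single m d =>
        induction h using AddMonoidAlgebra.induction_linear with
        | zero => simp [ia0_zero_right]
        | add x y hx hy => simp only [mul_add, ia0_add_right, hx, hy]; ring
        | single n e =>
          simp only [ia0_single, AddMonoidAlgebra.single_mul_single, ia0_dd_add, ia0_dd_mul]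
          rw [add_left_comm m, add_assoc, ← AddMonoidAlgebra.single_add]
          congr 1; ring
  jac f g h := by
    induction f using AddMonoidAlgebra.induction_linear with
    | zero => simp [ia0_zero_left, ia0_zero_right]
    | add x y hx hy => simp only [ia0_add_left, ia0_add_right, hx, hy]; ring
    | single l c =>
      induction g using AddMonoidAlgebra.induction_linear with
      | zero => simp [ia0_zero_left, ia0_zero_right]
      | add x y hx hy => simp only [ia0_add_left, ia0_add_right, hx, hy]; ring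
      | single m d =>
        induction h using AddMonoidAlgebra.induction_linear with
        | zero => simp [ia0_zero_right]
        | add x y hx hy => simp only [ia0_add_right, hx, hy]; ring
        | single n e =>
          simp only [ia0_single, ia0_dd_add, ia0_dd_mul, map_sub]
          rw [add_left_comm m, add_assoc, ← AddMonoidAlgebra.single_add, ia0_dd_comm m l e,
            ia0_dd_comm n l d, ia0_dd_comm n m c]
          congr 1; ring
theorem ia0_dd_actK (σ : Equiv.Perm I) (l : I → ℤ) (c : KK I) :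
    ia0_dd (l ∘ σ.symm) (actK σ c) = actK σ (ia0_dd l c) := by
  simp only [ia0_dd_apply, map_sum, map_mul, map_intCast, ← pd_actK]
  exact (Fintype.sum_equiv σ _ _ fun a => by simp).symm
theorem br_actL (σ : Equiv.Perm I) (x y : LL I) : br (actL σ x) (actL σ y) = actL σ (br x y) := by
  induction x using AddMonoidAlgebra.induction_linear with
  | zero => simp [ia0_zero_left]
  | add x y hx hy => simp only [map_add, ia0_add_left, hx, hy]
  | single l c =>
    induction y using AddMonoidAlgebra.induction_linear with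
    | zero => simp [ia0_zero_right]
    | add x y hx hy => simp only [map_add, ia0_add_right, hx, hy]
    | single m d =>
      simp only [actL_single, ia0_single, ia0_dd_actK, map_sub, map_mul]
      rfl
/-- bracket with a linear form measures the weight -/
theorem br_lin (c : I → ℤ) (x : LL I) (l : I → ℤ) :
    (br x (pL (∑ a, (c a : ℂ) • MvPolynomial.X a))).coeff l =
      ((∑ a, c a * l a : ℤ) : KK I) * x.coeff l := by
  induction x using AddMonoidAlgebra.induction_linear with
  | zero => simp only [ia0_zero_left, AddMonoidAlgebra.coeff_zero, Finsupp.coe_zero, Pi.zero_apply, Int.cast_sum, Int.cast_mul, mul_zero]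
  | add x y hx hy =>
    simp only [ia0_add_left, AddMonoidAlgebra.coeff_add, Finsupp.add_apply, hx, hy, mul_add]
  | single m d =>
    have h0 : ia0_dd 0 d = 0 := by simp only [ia0_dd_apply, Pi.zero_apply, Int.cast_zero, zero_mul, Finset.sum_const_zero]
    have h1 : ia0_dd m (algebraMap (PP I) (KK I) (∑ a, (c a : ℂ) • MvPolynomial.X a)) =
        ((∑ a, c a * m a : ℤ) : KK I) := by
      simp only [ia0_dd_apply, pd_poly, map_sum, Derivation.map_smul, MvPolynomial.pderiv_X]
      push_cast
      refine Finset.sum_congr rfl fun a _ => ?_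
      rw [Finset.sum_eq_single a (fun b _ hb => by simp [hb]) (by simp only [Finset.mem_univ, not_true_eq_false, Pi.single_eq_same, map_one, Algebra.mul_smul_comm, mul_one, smul_eq_zero, Int.cast_eq_zero, IsEmpty.forall_iff])]
      simp only [Pi.single_eq_same, map_one, Algebra.smul_def, map_intCast, mul_one, mul_comm]
    rw [pL, ia0_single, h0, h1, add_zero]
    simp only [AddMonoidAlgebra.coeff_single, Finsupp.single_apply]
    split_ifs with e
    · rw [e]; ring
    · simp only [Int.cast_sum, Int.cast_mul, mul_zero]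
theorem toSub_coe {A : Subalgebra ℂ (LL I)} {x : LL I} (h : x ∈ A) : (toSub A x : LL I) = x := by
  rw [toSub, dif_pos h]

end C73
end
end

section
/-! Block A1, first part: membership and invariance. -/

open Set Filter Topology TopologicalSpace

noncomputable section
namespace C73

variable {I ι : Type} [Fintype I] [DecidableEq I] {nd : I → ι} {ar : ι → ι → ℕ} {fr : ι → ℕ}

omit [Fintype I] [DecidableEq I] in
theorem InW.h46_mul {σ τ : Equiv.Perm I} (h : InW nd σ) (h' : InW nd τ) : InW nd (σ * τ) :=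
  fun a => (h (τ a)).trans (h' a)
omit [Fintype I] [DecidableEq I] in
theorem InW.h46_inv {σ : Equiv.Perm I} (h : InW nd σ) : InW nd σ⁻¹ :=
  fun a => (h (σ⁻¹ a)).symm.trans (congrArg nd (σ.apply_symm_apply a))
omit [Fintype I] [DecidableEq I] in
theorem h46_inW_one : InW nd (1 : Equiv.Perm I) := fun _ => rfl
theorem h46_actL_pL (σ : Equiv.Perm I) (p : PP I) : actL σ (pL p) = pL (MvPolynomial.rename σ p) := by
  rw [pL, actL_single, actK_poly]; rfl
theorem h46_actL_mono {σ : Equiv.Perm I} (h : InW nd σ) (l : I → ℤ) (f : PP I) :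
    actL σ (mono nd ar fr l f) = mono nd ar fr l f := by
  rw [mono_eq, map_sum]
  refine Finset.sum_equiv (Equiv.mulLeft σ) (fun τ => ?_) fun τ _ => (actL_mul σ τ _).symm
  simp only [Finset.mem_filter, Finset.mem_univ, true_and, Equiv.coe_mulLeft]
  exact ⟨h.h46_mul, fun h' => by simpa using h.h46_inv.h46_mul h'⟩

theorem h46_mono_mem {l : I → ℤ} (hl : Minu l) (f : PP I) : mono nd ar fr l f ∈ Cou nd ar fr :=
  Algebra.subset_adjoin ⟨l, f, hl, rfl⟩
theorem h46_cou_inv {x : LL I} (hx : x ∈ Cou nd ar fr) {σ : Equiv.Perm I} (h : InW nd σ) :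
    actL σ x = x := by
  refine Algebra.adjoin_induction (p := fun x _ => actL σ x = x) ?_ (fun c => (actL σ).commutes c)
    (fun x y _ _ hx hy => by rw [map_add, hx, hy]) (fun x y _ _ hx hy => by rw [map_mul, hx, hy]) hx
  rintro _ ⟨l, f, -, rfl⟩
  exact h46_actL_mono h l f
theorem h46_pL_mem {p : PP I} (h : ∀ σ, InW nd σ → MvPolynomial.rename σ p = p) :
    pL p ∈ Cou nd ar fr := by
  classical
  have h1 := h46_mono_mem (nd := nd) (ar := ar) (fr := fr) (l := 0) (Or.inl fun _ => Or.inl rfl) p
  rw [mono_eq, EE_zero, mul_one, ← pL, Finset.sum_congr rfl fun σ hσ =>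
    (h46_actL_pL σ p).trans (congrArg pL (h σ (Finset.mem_filter.1 hσ).2)), Finset.sum_const,
    ← Nat.cast_smul_eq_nsmul ℂ] at h1
  exact ((Cou nd ar fr).toSubmodule.smul_mem_iff (Nat.cast_ne_zero.2 (Finset.card_ne_zero.2
    ⟨1, Finset.mem_filter.2 ⟨Finset.mem_univ _, h46_inW_one⟩⟩))).1 h1
theorem h46_pL_inv {p : PP I} (h : pL p ∈ Cou nd ar fr) {σ : Equiv.Perm I} (hσ : InW nd σ) :
    MvPolynomial.rename σ p = p := pL_inj ((h46_actL_pL σ p).symm.trans (h46_cou_inv h hσ))
theorem h46_mono_supp {l l' : I → ℤ} {f : PP I} (h : (mono nd ar fr l f).coeff l' ≠ 0) :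
    ∃ σ, InW nd σ ∧ l' = l ∘ σ := by
  classical
  rw [mono, AddMonoidAlgebra.coeff_sum, Finsupp.finsetSum_apply] at h
  obtain ⟨σ, hσ, h1⟩ := Finset.exists_ne_zero_of_sum_ne_zero h
  exact ⟨σ⁻¹, InW.h46_inv (Finset.mem_filter.1 hσ).2, (Finsupp.single_apply_ne_zero.1 h1).1⟩

end C73
end
end

section
/-! Block A1, part of helper13: invariant theory of block groups, finite generation of `Cou`. -/

open Set Filter Topology TopologicalSpace

noncomputable section
namespace C73
open MvPolynomial

variable {I ι : Type} [Fintype I] [DecidableEq I] {nd : I → ι} {ar : ι → ι → ℕ} {fr : ι → ℕ}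

/-- invariants of a block group -/
def h13_inv {κ : Type} (β : I → κ) : Subalgebra ℂ (PP I) where
  carrier := {f | ∀ σ : Equiv.Perm I, InW β σ → rename σ f = f}
  mul_mem' := fun ha hb σ h => by rw [map_mul, ha σ h, hb σ h]
  add_mem' := fun ha hb σ h => by rw [map_add, ha σ h, hb σ h]
  algebraMap_mem' := fun c σ _ => AlgHom.commutes _ c

omit [DecidableEq I] in
theorem h13_int {κ : Type} (β : I → κ) (a : I) : IsIntegral (h13_inv β) (X a : PP I) := by
  let q : Polynomial (PP I) := ∏ b, (Polynomial.X - Polynomial.C (X b))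
  have hm : q.Monic := Polynomial.monic_prod_of_monic _ _ fun b _ => Polynomial.monic_X_sub_C _
  have hq : q ∈ Polynomial.lifts (algebraMap (h13_inv β) (PP I)) := by
    rw [Polynomial.lifts_iff_coeff_lifts]
    intro n
    refine ⟨⟨q.coeff n, fun σ _ => ?_⟩, rfl⟩
    have h1 : q.map (rename σ : PP I →ₐ[ℂ] PP I).toRingHom = q := by
      simp only [q, Polynomial.map_prod, Polynomial.map_sub, Polynomial.map_X, Polynomial.map_C]
      simpa only [AlgHom.toRingHom_eq_coe, RingHom.coe_coe, rename_X] using Equiv.prod_comp σ fun b => (Polynomial.X - Polynomial.C (X b : PP I))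
    have h2 := congrArg (fun p => p.coeff n) h1
    simpa using h2
  obtain ⟨p, hp, -, hpm⟩ := Polynomial.lifts_and_degree_eq_and_monic hq hm
  refine ⟨p, hpm, ?_⟩
  rw [Polynomial.eval₂_eq_eval_map, hp]
  simp only [q, Polynomial.eval_prod]
  exact Finset.prod_eq_zero (Finset.mem_univ a) (by simp)

theorem h13_fin {κ : Type} (β : I → κ) : Module.Finite (h13_inv β) (PP I) := by
  have : Algebra.IsIntegral (h13_inv β) (PP I) := ⟨fun f => by
    induction f using MvPolynomial.induction_on with
    | C c => exact isIntegral_algebraMap (x := (⟨C c, (h13_inv β).algebraMap_mem c⟩ : h13_inv β))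
    | add p q hp hq => exact hp.add hq
    | mul_X p a hp => exact hp.mul (h13_int β a)⟩
  have : Algebra.FiniteType (h13_inv β) (PP I) :=
    Algebra.FiniteType.of_restrictScalars_finiteType ℂ _ _
  exact Algebra.IsIntegral.finite

theorem h13_inv_finite {κ : Type} (β : I → κ) : ∃ Φ : Finset (PP I), ∀ f : PP I, ∃ c : PP I → PP I,
    (∀ g σ, InW β σ → MvPolynomial.rename σ (c g) = c g) ∧ f = ∑ g ∈ Φ, c g * g := by
  obtain ⟨Φ, hΦ⟩ := (h13_fin β).fg_top
  refine ⟨Φ, fun f => ?_⟩
  have hf : f ∈ Submodule.span (h13_inv β) (Φ : Set (PP I)) := hΦ ▸ Submodule.mem_top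
  obtain ⟨c, -, hc⟩ := Submodule.mem_span_finset.1 hf
  exact ⟨fun g => c g, fun g => (c g).2, hc.symm⟩

theorem h13_unsmul {R : Type} [CommRing R] [Algebra ℂ R] {A : Subalgebra ℂ R} {x : R} {c : ℂ}
    (hc : c ≠ 0) (h : c • x ∈ A) : x ∈ A := by
  have h5 := A.smul_mem h c⁻¹
  rwa [smul_smul, inv_mul_cancel₀ hc, one_smul] at h5

open Classical in
/-- sum over a block group -/
def h13_R {κ : Type} (β : I → κ) : PP I →ₗ[ℂ] PP I :=
  ∑ σ : Equiv.Perm I with InW β σ, (rename σ : PP I →ₐ[ℂ] PP I).toLinearMap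

open Classical in
theorem h13_R_apply {κ : Type} (β : I → κ) (f : PP I) :
    h13_R β f = ∑ σ : Equiv.Perm I with InW β σ, rename σ f := by
  simp only [h13_R, LinearMap.sum_apply, AlgHom.toLinearMap_apply]

theorem h13_R_mul {κ : Type} (β : I → κ) {p : PP I} (hp : p ∈ h13_inv β) (f : PP I) :
    h13_R β (p * f) = p * h13_R β f := by
  classical
  rw [h13_R_apply, h13_R_apply, Finset.mul_sum]
  refine Finset.sum_congr rfl fun σ hσ => ?_
  rw [map_mul, hp σ (Finset.mem_filter.1 hσ).2]

theorem h13_R_ren {κ : Type} (β : I → κ) {τ : Equiv.Perm I} (hτ : InW β τ) (f : PP I) :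
    h13_R β (rename τ f) = h13_R β f := by
  classical
  rw [h13_R_apply, h13_R_apply]
  refine Finset.sum_bijective (fun σ => σ * τ) (Group.mulRight_bijective τ) (fun σ => ?_)
    fun σ _ => ?_
  · simp only [Finset.mem_filter, Finset.mem_univ, true_and]
    refine ⟨fun h a => (h (τ a)).trans (hτ a), fun h a => ?_⟩
    have h1 := h (τ.symm a)
    have h2 := hτ (τ.symm a)
    simp only [Equiv.Perm.mul_apply, Equiv.apply_symm_apply] at h1 h2
    exact h1.trans h2.symm
  · rw [rename_rename]; rfl

omit [DecidableEq I] in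
open Classical in
theorem h13_ps_inv {κ : Type} (β : I → κ) (b : κ) (n : ℕ) :
    (∑ a with β a = b, X a ^ n : PP I) ∈ h13_inv β := by
  intro σ hσ
  simp only [map_sum, map_pow, rename_X]
  refine Finset.sum_bijective σ σ.bijective (fun a => ?_) fun a _ => rfl
  simp only [Finset.mem_filter, Finset.mem_univ, true_and, hσ a]

open Classical in
theorem h13_R_mem {κ : Type} (β : I → κ) (S : Finset I) (e : I → ℕ) :
    h13_R β (∏ a ∈ S, X a ^ e a) ∈
      Algebra.adjoin ℂ {g : PP I | ∃ (b : κ) (n : ℕ), g = ∑ a with β a = b, MvPolynomial.X a ^ n} := by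
  set A := Algebra.adjoin ℂ
    {g : PP I | ∃ (b : κ) (n : ℕ), g = ∑ a with β a = b, MvPolynomial.X a ^ n} with hA
  induction S using Finset.induction_on generalizing e with
  | empty =>
    rw [h13_R_apply]
    exact sum_mem fun σ _ => by simp
  | insert a0 S h0 ih =>
    rw [Finset.prod_insert h0]
    set g : PP I := ∏ a ∈ S, X a ^ e a with hg
    have h1 : h13_R β ((∑ c with β c = β a0, X c ^ e a0) * g) ∈ A := by
      rw [h13_R_mul β (h13_ps_inv β _ _)]
      exact A.mul_mem (Algebra.subset_adjoin ⟨_, _, rfl⟩) (ih e)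
    rw [Finset.sum_mul, map_sum, ← Finset.sum_filter_add_sum_filter_not _ (fun c => c ∈ S)] at h1
    have h2 : ∑ c ∈ (Finset.univ.filter fun c => β c = β a0) with c ∈ S,
        h13_R β (X c ^ e a0 * g) ∈ A := by
      refine sum_mem fun c hc => ?_
      have hc' := (Finset.mem_filter.1 hc).2
      have : X c ^ e a0 * g = ∏ a ∈ S, X a ^ (Function.update e c (e a0 + e c)) a := by
        rw [hg, ← Finset.mul_prod_erase _ _ hc', ← Finset.mul_prod_erase _ _ hc',
          Function.update_self, pow_add, mul_assoc]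
        congr 2
        exact Finset.prod_congr rfl fun a ha => by
          rw [Function.update_of_ne (Finset.ne_of_mem_erase ha)]
      rw [this]
      exact ih _
    have h3 := A.sub_mem h1 h2
    rw [add_sub_cancel_left] at h3
    have h4 : ∀ c ∈ (Finset.univ.filter fun c => β c = β a0).filter (fun c => c ∉ S),
        h13_R β (X c ^ e a0 * g) = h13_R β (X a0 ^ e a0 * g) := by
      intro c hc
      simp only [Finset.mem_filter, Finset.mem_univ, true_and] at hc
      have hw : InW β (Equiv.swap a0 c) := fun a => by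
        rw [Equiv.swap_apply_def]
        split_ifs with h h'
        · rw [h, hc.1]
        · rw [h', hc.1]
        · rfl
      rw [← h13_R_ren β hw (X a0 ^ e a0 * g)]
      congr 1
      simp only [hg, map_mul, map_pow, map_prod, rename_X, Equiv.swap_apply_left]
      congr 1
      refine Finset.prod_congr rfl fun a ha => ?_
      rw [Equiv.swap_apply_of_ne_of_ne (a := a0) (b := c) (x := a) (fun h => h0 (h ▸ ha))
        (fun h => hc.2 (h ▸ ha))]
    rw [Finset.sum_congr rfl h4, Finset.sum_const, ← Nat.cast_smul_eq_nsmul ℂ] at h3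
    have hN : ((((Finset.univ.filter fun c => β c = β a0).filter (fun c => c ∉ S)).card : ℕ) : ℂ)
        ≠ 0 := Nat.cast_ne_zero.2 (Finset.card_ne_zero.2 ⟨a0, by simp only [Finset.mem_filter, Finset.mem_univ, and_self, h0, not_false_eq_true]⟩)
    exact h13_unsmul hN h3

open Classical in
theorem h13_card {κ : Type} (β : I → κ) :
    (((Finset.univ.filter fun σ : Equiv.Perm I => InW β σ).card : ℕ) : ℂ) ≠ 0 :=
  Nat.cast_ne_zero.2 (Finset.card_ne_zero.2 ⟨1, by simp only [InW, Finset.mem_filter, Finset.mem_univ, Equiv.Perm.coe_one, id_eq, implies_true, and_self]⟩)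

open Classical in
theorem h13_inv_adjoin {κ : Type} (β : I → κ) {f : PP I}
    (h : ∀ σ, InW β σ → MvPolynomial.rename σ f = f) :
    f ∈ Algebra.adjoin ℂ {g | ∃ (b : κ) (n : ℕ), g = ∑ a with β a = b, MvPolynomial.X a ^ n} := by
  set A := Algebra.adjoin ℂ
    {g : PP I | ∃ (b : κ) (n : ℕ), g = ∑ a with β a = b, MvPolynomial.X a ^ n} with hA
  have h1 : ∀ g : PP I, h13_R β g ∈ A := fun g => by
    induction g using MvPolynomial.induction_on' with
    | monomial m c =>
      have : (monomial m c : PP I) = c • ∏ a, X a ^ m a := by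
        rw [monomial_eq, Finsupp.prod_fintype _ _ (by simp), smul_eq_C_mul]
      rw [this, map_smul]
      exact A.smul_mem (h13_R_mem β _ _) c
    | add p q hp hq => rw [map_add]; exact A.add_mem hp hq
  have h2 := h1 f
  rw [h13_R_apply, Finset.sum_congr rfl fun σ hσ => h σ (Finset.mem_filter.1 hσ).2,
    Finset.sum_const, ← Nat.cast_smul_eq_nsmul ℂ] at h2
  exact h13_unsmul (h13_card β) h2

/-- `pL` as an algebra map -/
def h13_pA : PP I →ₐ[ℂ] LL I :=
  (IsScalarTower.toAlgHom ℂ (KK I) (LL I)).comp (IsScalarTower.toAlgHom ℂ (PP I) (KK I))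

theorem h13_mono_mul (l : I → ℤ) {c : PP I} (hc : c ∈ h13_inv nd) (g : PP I) :
    mono nd ar fr l (c * g) = pL c * mono nd ar fr l g := by
  classical
  simp only [mono, Finset.mul_sum]
  refine Finset.sum_congr rfl fun σ hσ => ?_
  rw [pL, AddMonoidAlgebra.single_mul_single, zero_add, map_mul, hc σ (Finset.mem_filter.1 hσ).2,
    map_mul, mul_assoc]

theorem h13_mono_sum (l : I → ℤ) (Φ : Finset (PP I)) (F : PP I → PP I) :
    mono nd ar fr l (∑ g ∈ Φ, F g) = ∑ g ∈ Φ, mono nd ar fr l (F g) := by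
  classical
  simp only [mono]
  rw [Finset.sum_comm]
  refine Finset.sum_congr rfl fun σ _ => ?_
  rw [map_sum, map_sum, Finset.sum_mul]
  exact map_sum (AddMonoidAlgebra.singleAddHom (l ∘ σ.symm)) _ _

theorem h13_pL_mem {c : PP I} (hc : c ∈ h13_inv nd) : pL c ∈ Cou nd ar fr := by
  classical
  have h1 : mono nd ar fr 0 c ∈ Cou nd ar fr :=
    Algebra.subset_adjoin ⟨0, c, Or.inl fun _ => Or.inl rfl, rfl⟩
  have h2 : mono nd ar fr 0 c = ∑ σ : Equiv.Perm I with InW nd σ, pL c := by
    refine Finset.sum_congr (by ext; simp only [Finset.mem_filter, Finset.mem_univ, true_and, InW]) fun σ hσ => ?_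
    have h0 : (0 : I → ℤ) ∘ σ.symm = 0 := rfl
    rw [h0, EE_zero, mul_one, hc σ (Finset.mem_filter.1 hσ).2, pL]
  rw [h2, Finset.sum_const, ← Nat.cast_smul_eq_nsmul ℂ] at h1
  exact h13_unsmul (by convert h13_card nd) h1

theorem h13_cou_fg : Algebra.FiniteType ℂ (Cou nd ar fr) := by
  classical
  obtain ⟨Φ, hΦ⟩ := h13_inv_finite nd
  have hB : (⊤ : Subalgebra ℂ (h13_inv nd)).FG :=
    fg_of_fg_of_fg ℂ (h13_inv nd) (PP I) Algebra.FiniteType.out (h13_fin nd).fg_top
      Subtype.val_injective
  obtain ⟨G, hG⟩ := hB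
  have hM : {l : I → ℤ | Minu l}.Finite := by
    refine (Set.Finite.pi' (t := fun _ : I => ({0, 1, -1} : Set ℤ)) fun _ => Set.toFinite _).subset ?_
    rintro l (h | h) a <;> rcases h a with h | h <;> simp [h]
  let S : Set (LL I) := (fun c : h13_inv nd => pL (c : PP I)) '' G ∪
    (fun z : (I → ℤ) × PP I => mono nd ar fr z.1 z.2) '' ({l | Minu l} ×ˢ (Φ : Set (PP I)))
  have hS : S.Finite := (G.finite_toSet.image _).union ((hM.prod Φ.finite_toSet).image _)
  have hp : ∀ c : h13_inv nd, pL (c : PP I) ∈ Algebra.adjoin ℂ S := fun c => by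
    have hc : c ∈ Algebra.adjoin ℂ (G : Set (h13_inv nd)) := hG ▸ Algebra.mem_top
    have : Algebra.adjoin ℂ (G : Set (h13_inv nd)) ≤
        (Algebra.adjoin ℂ S).comap (h13_pA.comp (h13_inv nd).val) :=
      Algebra.adjoin_le fun x hx => Algebra.subset_adjoin (Or.inl ⟨x, hx, rfl⟩)
    exact this hc
  have hE : Algebra.adjoin ℂ S = Cou nd ar fr := by
    refine le_antisymm (Algebra.adjoin_le ?_) (Algebra.adjoin_le ?_)
    · rintro x (⟨c, -, rfl⟩ | ⟨z, hz, rfl⟩)
      · exact h13_pL_mem c.2
      · exact Algebra.subset_adjoin ⟨z.1, z.2, hz.1, rfl⟩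
    · rintro x ⟨l, f, hl, rfl⟩
      obtain ⟨c, hc, rfl⟩ := hΦ f
      rw [h13_mono_sum]
      refine sum_mem fun g hg => ?_
      rw [h13_mono_mul l (hc g)]
      exact mul_mem (hp ⟨c g, hc g⟩) (Algebra.subset_adjoin (Or.inr ⟨(l, g), ⟨hl, hg⟩, rfl⟩))
  rw [← Subalgebra.fg_iff_finiteType]
  exact Subalgebra.fg_def.2 ⟨S, hS, hE⟩

end C73
end
end

section
/-! Block A1, part of helper13: the grading of `Cou`. -/

open Set Filter Topology TopologicalSpace

noncomputable section
namespace C73

variable {I ι : Type} [Fintype I] [DecidableEq I] {nd : I → ι} {ar : ι → ι → ℕ} {fr : ι → ℕ}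

theorem h13_mono_grC {m : I → ℤ} (hm : ∀ a b, nd a = nd b → m a = m b) {l : I → ℤ} (hl : Minu l)
    (f : PP I) : (⟨_, h46_mono_mem hl f⟩ : Cou nd ar fr) ∈ grC (Cou nd ar fr) m (∑ a, m a * l a) := by
  intro l' h
  obtain ⟨σ, hσ, rfl⟩ := h46_mono_supp h
  rw [← Equiv.sum_comp σ fun a => m a * l a]
  exact Finset.sum_congr rfl fun a _ => by rw [hm _ _ (hσ a)]; rfl

theorem h13_gr_mul {A : Subalgebra ℂ (LL I)} {m : I → ℤ} {i j : ℤ} {x y : A}
    (hx : x ∈ grC A m i) (hy : y ∈ grC A m j) : x * y ∈ grC A m (i + j) := by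
  intro l h
  have h1 := AddMonoidAlgebra.support_coeff_mul_subset (x : LL I) (y : LL I)
    (Finsupp.mem_support_iff.2 h)
  obtain ⟨a, ha, b, hb, rfl⟩ := Finset.mem_add.1 h1
  rw [← hx a (Finsupp.mem_support_iff.1 ha), ← hy b (Finsupp.mem_support_iff.1 hb),
    ← Finset.sum_add_distrib]
  exact Finset.sum_congr rfl fun c _ => mul_add _ _ _

theorem h13_gr_one {A : Subalgebra ℂ (LL I)} {m : I → ℤ} : (1 : A) ∈ grC A m 0 := by
  intro l h
  have h1 : ((1 : A) : LL I) = AddMonoidAlgebra.single 0 1 := rfl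
  rw [h1, AddMonoidAlgebra.coeff_single] at h
  rw [(Finsupp.single_apply_ne_zero.1 h).1]
  simp only [Pi.zero_apply, mul_zero, Finset.sum_const_zero]

theorem h13_sup_mul {A : Subalgebra ℂ (LL I)} {m : I → ℤ} {u v : A} (h : u ∈ ⨆ n, grC A m n)
    (h' : v ∈ ⨆ n, grC A m n) : u * v ∈ ⨆ n, grC A m n := by
  refine Submodule.iSup_induction _ (motive := fun u => u * v ∈ ⨆ n, grC A m n) h
    (fun i u hu => ?_) (by simp only [zero_mul, zero_mem]) fun a b ha hb => by rw [add_mul]; exact add_mem ha hb
  exact Submodule.iSup_induction _ (motive := fun v => u * v ∈ ⨆ n, grC A m n) h'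
    (fun j v hv => Submodule.mem_iSup_of_mem _ (h13_gr_mul hu hv)) (by simp only [mul_zero, zero_mem])
    fun a b ha hb => by rw [mul_add]; exact add_mem ha hb

theorem h13_gr_top {m : I → ℤ} (hm : ∀ a b, nd a = nd b → m a = m b) :
    ⨆ n, grC (Cou nd ar fr) m n = ⊤ := by
  rw [eq_top_iff]
  intro x _
  have h : ∃ u : Cou nd ar fr, (u : LL I) = x ∧ u ∈ ⨆ n, grC (Cou nd ar fr) m n := by
    refine Algebra.adjoin_induction
      (p := fun x _ => ∃ u : Cou nd ar fr, (u : LL I) = x ∧ u ∈ ⨆ n, grC (Cou nd ar fr) m n)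
      ?_ ?_ ?_ ?_ x.2
    · rintro _ ⟨l, f, hl, rfl⟩
      exact ⟨_, rfl, Submodule.mem_iSup_of_mem _ (h13_mono_grC hm hl f)⟩
    · intro c
      refine ⟨c • 1, ?_, Submodule.mem_iSup_of_mem _ (Submodule.smul_mem _ c h13_gr_one)⟩
      rw [Subalgebra.coe_smul, Subalgebra.coe_one, Algebra.algebraMap_eq_smul_one]
    · rintro _ _ _ _ ⟨u, rfl, hu⟩ ⟨v, rfl, hv⟩
      exact ⟨u + v, Subalgebra.coe_add _ _ _, add_mem hu hv⟩
    · rintro _ _ _ _ ⟨u, rfl, hu⟩ ⟨v, rfl, hv⟩
      exact ⟨u * v, Subalgebra.coe_mul _ _ _, h13_sup_mul hu hv⟩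
  obtain ⟨u, hu, h⟩ := h
  rwa [← Subtype.ext hu]

theorem h13_gr_ind {A : Subalgebra ℂ (LL I)} {m : I → ℤ} : iSupIndep (grC A m) := by
  intro n
  rw [Submodule.disjoint_def]
  intro x hx h
  have h1 : ∀ l, ∑ c, m c * l c = n → (x : LL I).coeff l = 0 := fun l hl => by
    refine Submodule.iSup_induction _ (motive := fun x : A => (x : LL I).coeff l = 0) h
      (fun j y hy => ?_) rfl fun a b ha hb => by simp only [AddMemClass.coe_add, AddMonoidAlgebra.coeff_add, Finsupp.coe_add, Pi.add_apply, ha, hb, add_zero]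
    by_cases hj : j = n
    · have : y = 0 := by simpa only [hj, ne_eq, not_true_eq_false, not_false_eq_true, iSup_neg, Submodule.mem_bot] using hy
      rw [this]; rfl
    · have hy' : y ∈ grC A m j := by simpa [hj] using hy
      exact by_contra fun h0 => hj ((hy' l h0).symm.trans hl)
  refine Subtype.ext (AddMonoidAlgebra.ext (Finsupp.ext fun l => ?_))
  exact by_contra fun h0 => h0 (h1 l (hx l h0))

omit [DecidableEq I] in
theorem h13_br_supp (f g : LL I) {l : I → ℤ} (hl : (br f g).coeff l ≠ 0) :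
    ∃ a b, f.coeff a ≠ 0 ∧ g.coeff b ≠ 0 ∧ l = a + b := by
  rw [br, Finsupp.sum, AddMonoidAlgebra.coeff_sum, Finsupp.finsetSum_apply] at hl
  obtain ⟨a, ha, h1⟩ := Finset.exists_ne_zero_of_sum_ne_zero hl
  rw [Finsupp.sum, AddMonoidAlgebra.coeff_sum, Finsupp.finsetSum_apply] at h1
  obtain ⟨b, hb, h2⟩ := Finset.exists_ne_zero_of_sum_ne_zero h1
  rw [AddMonoidAlgebra.coeff_single] at h2
  exact ⟨a, b, Finsupp.mem_support_iff.1 ha, Finsupp.mem_support_iff.1 hb,
    (Finsupp.single_apply_ne_zero.1 h2).1⟩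

theorem h13_gr_br {A : Subalgebra ℂ (LL I)} {m : I → ℤ} {i j : ℤ} {f g : A}
    (hf : f ∈ grC A m i) (hg : g ∈ grC A m j) : brA A f g ∈ grC A m (i + j) := by
  by_cases h : br (f : LL I) g ∈ A
  · intro l hl
    rw [brA, toSub_coe h] at hl
    obtain ⟨a, b, ha, hb, rfl⟩ := h13_br_supp _ _ hl
    rw [← hf a ha, ← hg b hb, ← Finset.sum_add_distrib]
    exact Finset.sum_congr rfl fun c _ => mul_add _ _ _
  · rw [brA, toSub, dif_neg h]
    exact zero_mem _

theorem h13_gr_mon {A : Subalgebra ℂ (LL I)} {m : I → ℤ} : SetLike.GradedMonoid (grC A m) where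
  one_mem := h13_gr_one
  mul_mem := fun _ _ _ _ => h13_gr_mul

theorem h13_mkGr {R : Type} [CommRing R] [Algebra ℂ R] {b : R → R → R} {𝒜 : ℤ → Submodule ℂ R}
    (h1 : SetLike.GradedMonoid 𝒜) (h2 : iSupIndep 𝒜) (h3 : ⨆ n, 𝒜 n = ⊤)
    (h4 : ∀ m n f g, f ∈ 𝒜 m → g ∈ 𝒜 n → b f g ∈ 𝒜 (m + n)) : IsGr b 𝒜 :=
  ⟨h1, (DirectSum.isInternal_submodule_iff_iSupIndep_and_iSup_eq_top _).2 ⟨h2, h3⟩, h4⟩

theorem h13_isGr {A : Subalgebra ℂ (LL I)} {m : I → ℤ} (h : ⨆ n, grC A m n = ⊤) :
    IsGr (brA A) (grC A m) := h13_mkGr h13_gr_mon h13_gr_ind h fun _ _ _ _ => h13_gr_br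

theorem h13_cou_gr (_har : ∀ j, ar j j = 0) {m : I → ℤ} (hm : ∀ a b, nd a = nd b → m a = m b) :
    IsGr (brA (Cou nd ar fr)) (grC (Cou nd ar fr) m) := h13_isGr (h13_gr_top hm)

theorem h13_scale {A : Subalgebra ℂ (LL I)} {m : I → ℤ} {n : ℤ} {a : A} (ha : a ∈ grC A m n)
    (s : ℂˣ) : scale m s a = ((s ^ n : ℂˣ) : ℂ) • (a : LL I) := by
  conv_rhs => rw [← AddMonoidAlgebra.sum_coeff_single (a : LL I)]
  rw [scale, Finsupp.sum, Finsupp.sum, Finset.smul_sum]
  refine Finset.sum_congr rfl fun l hl => ?_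
  rw [ha l (Finsupp.mem_support_iff.1 hl), AddMonoidAlgebra.smul_single]

theorem h13_scale_grC {m : I → ℤ} {n : ℤ} {a : Cou nd ar fr} (ha : a ∈ grC (Cou nd ar fr) m n)
    (s : ℂˣ) : toSub (Cou nd ar fr) (scale m s a) = ((s ^ n : ℂˣ) : ℂ) • a := by
  rw [h13_scale ha]
  exact Subtype.ext (toSub_coe (Subalgebra.smul_mem _ a.2 _))

omit [DecidableEq I] in
theorem h13_scale_addL (m : I → ℤ) (s : ℂˣ) (x y : LL I) :
    scale m s (x + y) = scale m s x + scale m s y := by
  simp only [scale, AddMonoidAlgebra.coeff_add]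
  exact Finsupp.sum_add_index' (fun l => by simp) fun l c d => by
    rw [smul_add, AddMonoidAlgebra.single_add]

theorem h13_scale_mem {m : I → ℤ} (hm : ∀ a b, nd a = nd b → m a = m b) (s : ℂˣ)
    (a : Cou nd ar fr) : scale m s a ∈ Cou nd ar fr := by
  have h : a ∈ ⨆ n, grC (Cou nd ar fr) m n := h13_gr_top hm ▸ Submodule.mem_top
  refine Submodule.iSup_induction _
    (motive := fun a : Cou nd ar fr => scale m s a ∈ Cou nd ar fr) h (fun n a ha => ?_) ?_
    fun a b ha hb => ?_
  · rw [h13_scale ha]; exact Subalgebra.smul_mem _ a.2 _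
  · simp only [scale, ZeroMemClass.coe_zero, AddMonoidAlgebra.coeff_zero, Units.val_zpow_eq_zpow_val, Finsupp.sum_zero_index, zero_mem]
  · rw [Subalgebra.coe_add, h13_scale_addL]; exact add_mem ha hb

theorem h13_scale_add {m : I → ℤ} (hm : ∀ a b, nd a = nd b → m a = m b) (s : ℂˣ)
    (a b : Cou nd ar fr) : toSub (Cou nd ar fr) (scale m s (a + b : Cou nd ar fr)) =
      toSub (Cou nd ar fr) (scale m s a) + toSub (Cou nd ar fr) (scale m s b) := by
  refine Subtype.ext ?_
  rw [toSub_coe (h13_scale_mem hm s _), Subalgebra.coe_add, Subalgebra.coe_add,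
    toSub_coe (h13_scale_mem hm s _), toSub_coe (h13_scale_mem hm s _), h13_scale_addL]

end C73
end
end

section
/-! Points of the Coulomb branch and their eigenvalues (part of block A1). -/

open Set Filter Topology TopologicalSpace MvPolynomial

noncomputable section
namespace C73

variable {I ι : Type} [Fintype I] [DecidableEq I] {nd : I → ι} {ar : ι → ι → ℕ} {fr : ι → ℕ}

/-- the Weyl group -/
def h53W (nd : I → ι) : Subgroup (Equiv.Perm I) where
  carrier := {σ | InW nd σ}
  one_mem' := fun _ => rfl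
  mul_mem' := fun {σ τ} hσ hτ a => (hσ (τ a)).trans (hτ a)
  inv_mem' := fun {σ} hσ a => by simpa using (hσ (σ⁻¹ a)).symm

instance : Fintype (h53W nd) := Fintype.ofFinite _

theorem h53_sum {M : Type} [AddCommMonoid M] [DecidablePred (InW nd)] (F : Equiv.Perm I → M) :
    ∑ σ with InW nd σ, F σ = ∑ σ : h53W nd, F σ :=
  Finset.sum_subtype _ (fun _ => (Finset.mem_filter_univ _).trans Iff.rfl) F

omit [Fintype I] [DecidableEq I] in
theorem h53_ren (τ σ : h53W nd) (p : PP I) :
    rename (τ : Equiv.Perm I) (rename (σ : Equiv.Perm I) p) =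
      rename ((τ * σ : h53W nd) : Equiv.Perm I) p := by
  rw [rename_rename]; rfl

theorem h53_cou_inv {x : LL I} (hx : x ∈ Cou nd ar fr) {σ : Equiv.Perm I} (h : InW nd σ) :
    actL σ x = x := by
  classical
  refine (Algebra.adjoin_le (S := AlgHom.equalizer (actL σ).toAlgHom (AlgHom.id ℂ _)) ?_) hx
  rintro _ ⟨l, f, -, rfl⟩
  show actL σ _ = mono nd ar fr l f
  rw [mono_eq, h53_sum, map_sum]
  exact Fintype.sum_equiv (Equiv.mulLeft (⟨σ, h⟩ : h53W nd)) _ _ fun τ => (actL_mul _ _ _).symm

theorem h53_actL_pL (σ : Equiv.Perm I) (p : PP I) : actL σ (pL p) = pL (rename σ p) := by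
  rw [pL, actL_single, actK_poly]; rfl

theorem h53_pL_inv {p : PP I} (h : pL p ∈ Cou nd ar fr) {σ : Equiv.Perm I} (hσ : InW nd σ) :
    rename σ p = p := pL_inj ((h53_actL_pL σ p).symm.trans (h53_cou_inv h hσ))

theorem h53_pL_mem {p : PP I} (h : ∀ σ, InW nd σ → rename σ p = p) : pL p ∈ Cou nd ar fr := by
  classical
  have h1 : mono nd ar fr 0 p ∈ Cou nd ar fr :=
    Algebra.subset_adjoin ⟨0, p, .inl fun _ => .inl rfl, rfl⟩
  have h2 : mono nd ar fr 0 p = (Fintype.card (h53W nd) : ℂ) • pL p := by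
    rw [mono_eq, h53_sum, EE_zero, mul_one, Nat.cast_smul_eq_nsmul, ← Finset.card_univ,
      ← Finset.sum_const]
    exact Finset.sum_congr rfl fun σ _ => (h53_actL_pL _ p).trans (by rw [h σ σ.2])
  have := Subalgebra.smul_mem _ h1 (Fintype.card (h53W nd) : ℂ)⁻¹
  rwa [h2, inv_smul_smul₀ (by simp)] at this

/-- the invariant polynomials -/
def h53R (nd : I → ι) : Subalgebra ℂ (PP I) where
  carrier := {p | ∀ σ, InW nd σ → rename σ p = p}
  mul_mem' := fun ha hb σ h => by rw [map_mul, ha σ h, hb σ h]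
  add_mem' := fun ha hb σ h => by rw [map_add, ha σ h, hb σ h]
  algebraMap_mem' := fun c σ _ => AlgHom.commutes _ c

/-- invariant polynomials as functions on the Coulomb branch -/
def h53φ (nd : I → ι) (ar : ι → ι → ℕ) (fr : ι → ℕ) : h53R nd →ₐ[ℂ] Cou nd ar fr :=
  (((IsScalarTower.toAlgHom ℂ (KK I) (LL I)).comp (IsScalarTower.toAlgHom ℂ (PP I) (KK I))).comp
    (h53R nd).val).codRestrict _ fun p => (pL_eq p.1) ▸ h53_pL_mem p.2

theorem h53_φ (p : h53R nd) : (h53φ nd ar fr p : LL I) = pL p.1 := (pL_eq p.1).symm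

theorem h53_fib {x : Pt (Cou nd ar fr)} {t : I → ℂ} :
    x ∈ Fib (Cou nd ar fr) t ↔ ∀ p : h53R nd, x (h53φ nd ar fr p) = eval t p.1 :=
  ⟨fun h p => h _ _ (h53_φ p), fun h p a e => by
    have hp : p ∈ h53R nd := fun σ hσ => h53_pL_inv (e ▸ a.2) hσ
    rw [← h ⟨p, hp⟩, show a = h53φ nd ar fr ⟨p, hp⟩ from Subtype.ext (e.trans (h53_φ ⟨p, hp⟩).symm)]⟩

omit [DecidableEq I] in
theorem h53_sum_mem (f : PP I) : ∑ σ : h53W nd, rename (σ : Equiv.Perm I) f ∈ h53R nd :=
  fun τ h => by
    rw [map_sum]
    exact Fintype.sum_equiv (Equiv.mulLeft (⟨τ, h⟩ : h53W nd)) _ _ fun σ => h53_ren ⟨τ, h⟩ σ f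

omit [DecidableEq I] in
theorem h53_prod_mem (f : PP I) : ∏ σ : h53W nd, rename (σ : Equiv.Perm I) f ∈ h53R nd :=
  fun τ h => by
    rw [map_prod]
    exact Fintype.prod_equiv (Equiv.mulLeft (⟨τ, h⟩ : h53W nd)) _ _ fun σ => h53_ren ⟨τ, h⟩ σ f

theorem h53_exists_fib (x : Pt (Cou nd ar fr)) : ∃ t, x ∈ Fib (Cou nd ar fr) t := by
  let ρ : PP I → ℂ := fun f => x (h53φ nd ar fr ⟨_, h53_sum_mem f⟩)
  have hadd : ∀ f g, ρ (f + g) = ρ f + ρ g := fun f g => by
    simp only [ρ, ← map_add x, ← map_add (h53φ nd ar fr)]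
    congr 2
    exact Subtype.ext (by simp only [map_add, Finset.sum_add_distrib, AddMemClass.mk_add_mk])
  have hmul : ∀ f (p : h53R nd), ρ (f * p) = ρ f * x (h53φ nd ar fr p) := fun f p => by
    simp only [ρ, ← map_mul x, ← map_mul (h53φ nd ar fr)]
    congr 2
    refine Subtype.ext ?_
    simp only [map_mul, MulMemClass.coe_mul, Finset.sum_mul]
    exact Finset.sum_congr rfl fun σ _ => by rw [p.2 σ σ.2]
  let J : Ideal (PP I) :=
    { carrier := {j | ∀ f, ρ (f * j) = 0}
      zero_mem' := fun f => by simpa using hmul f 0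
      add_mem' := fun ha hb f => by rw [mul_add, hadd, ha, hb, add_zero]
      smul_mem' := fun c j hj f => by rw [smul_eq_mul, ← mul_assoc, hj] }
  have hJ : J ≠ ⊤ := fun h => by
    have h1 : ρ (1 * 1) = 0 := (J.eq_top_iff_one.1 h) 1
    have h2 : (⟨_, h53_sum_mem (1 * 1)⟩ : h53R nd) = (Fintype.card (h53W nd) : h53R nd) :=
      Subtype.ext (by simp only [mul_one, map_one, Finset.sum_const, Finset.card_univ, nsmul_eq_mul, SubringClass.coe_natCast])
    simp only [ρ, h2, map_natCast] at h1
    exact Fintype.card_ne_zero (Nat.cast_eq_zero.1 h1)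
  obtain ⟨Q, hQ, hJQ⟩ := J.exists_le_maximal hJ
  obtain ⟨t, rfl⟩ := isMaximal_iff_eq_vanishingIdeal_singleton.1 hQ
  refine ⟨t, h53_fib.2 fun p => ?_⟩
  have h1 : (p - algebraMap ℂ _ (x (h53φ nd ar fr p)) : h53R nd).1 ∈ J := fun f => by
    rw [hmul, map_sub, map_sub, AlgHom.commutes, AlgHomClass.commutes]; simp
  have h2 := (mem_vanishingIdeal_singleton_iff _ _).1 (hJQ h1)
  rw [AddSubgroupClass.coe_sub, map_sub, Subalgebra.coe_algebraMap, AlgHom.commutes] at h2
  exact (sub_eq_zero.1 h2).symm

theorem h53_fib_comp {x : Pt (Cou nd ar fr)} {t : I → ℂ} (h : x ∈ Fib (Cou nd ar fr) t)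
    {σ : Equiv.Perm I} (hσ : InW nd σ) : x ∈ Fib (Cou nd ar fr) (t ∘ σ) :=
  h53_fib.2 fun p => by rw [h53_fib.1 h p, ← eval_rename, p.2 σ hσ]

/-- convergence of all invariants along an ultrafilter gives convergence of a translate -/
theorem h53_key {Y : Type} (𝔘 : Ultrafilter Y) (s : Y → I → ℂ) (t : I → ℂ)
    (h : ∀ p : h53R nd, Tendsto (fun y => eval (s y) p.1) 𝔘 (𝓝 (eval t p.1))) :
    ∃ σ, InW nd σ ∧ Tendsto (fun y => s y ∘ σ) 𝔘 (𝓝 t) := by
  let V : h53W nd → Subspace ℂ (I → ℂ) := fun σ =>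
    { carrier := {c | Tendsto (fun y => ∑ a, c a * (s y (σ.1 a) - t a)) 𝔘 (𝓝 0)}
      zero_mem' := by simp only [mem_ofPred_eq, Pi.zero_apply, zero_mul, Finset.sum_const_zero, tendsto_const_nhds_iff]
      add_mem' := fun ha hb => by simpa only [mem_ofPred_eq, Pi.add_apply, add_mul, Finset.sum_add_distrib, add_zero] using Tendsto.add ha hb
      smul_mem' := fun c v hv => by
        simpa only [mem_ofPred_eq, Pi.smul_apply, smul_eq_mul, mul_assoc, Finset.mul_sum, mul_zero] using Tendsto.const_mul c hv }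
  have hV : ⋃ σ, (V σ : Set (I → ℂ)) = univ := eq_univ_of_forall fun c => by
    by_contra hc
    have h1 : ∀ σ : h53W nd, ∃ ε > 0, ∀ᶠ y in 𝔘, ε ≤ ‖∑ a, c a * (s y (σ.1 a) - t a)‖ := fun σ => by
      by_contra h2
      refine hc (mem_iUnion.2 ⟨σ, Metric.tendsto_nhds.2 fun ε hε => ?_⟩)
      have := Ultrafilter.eventually_not.2 fun h3 => h2 ⟨ε, hε, h3⟩
      exact this.mono fun y hy => by simpa only [dist_zero_right, not_le] using hy
    choose ε hε h2 using h1
    have h3 := h ⟨_, h53_prod_mem (∑ a, C (c a) * (X a - C (t a)))⟩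
    have h4 : ∀ u : I → ℂ, eval u (∏ σ : h53W nd, rename (σ : Equiv.Perm I)
        (∑ a, C (c a) * (X a - C (t a)) : PP I)) = ∏ σ : h53W nd, ∑ a, c a * (u (σ.1 a) - t a) :=
      fun u => by simp only [map_sum, map_mul, algHom_C, algebraMap_eq, map_sub, rename_X, map_prod, eval_C, eval_X]
    simp only [h4] at h3
    rw [Finset.prod_eq_zero (Finset.mem_univ (1 : h53W nd)) (by simp only [OneMemClass.coe_one, Equiv.Perm.coe_one, id_eq, sub_self, mul_zero, Finset.sum_const_zero])] at h3
    obtain ⟨y, h5, h6⟩ := ((Metric.tendsto_nhds.1 h3 _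
      (Finset.prod_pos fun σ _ => hε σ)).and (eventually_all.2 h2)).exists
    rw [dist_zero_right, norm_prod] at h5
    exact h5.not_ge (Finset.prod_le_prod (fun σ _ => (hε σ).le) fun σ _ => h6 σ)
  obtain ⟨σ, hσ⟩ := Subspace.exists_eq_top_of_iUnion_eq_univ hV
  refine ⟨σ, σ.2, tendsto_pi_nhds.2 fun a => tendsto_sub_nhds_zero_iff.1 ?_⟩
  have : Pi.single a 1 ∈ V σ := hσ ▸ Submodule.mem_top
  simpa only [Function.comp_apply, V, Submodule.mem_mk, AddSubmonoid.mem_mk, AddSubsemigroup.mem_mk, mem_ofPred_eq, Pi.single_apply, ite_mul, one_mul, zero_mul, Finset.sum_ite_eq', Finset.mem_univ, ↓ reduceIte] using this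

theorem h53_fib_unique {x : Pt (Cou nd ar fr)} {t t' : I → ℂ} (h : x ∈ Fib (Cou nd ar fr) t) :
    x ∈ Fib (Cou nd ar fr) t' ↔ ∃ σ, InW nd σ ∧ t' = t ∘ σ := by
  refine ⟨fun h' => ?_, fun ⟨σ, hσ, e⟩ => e ▸ h53_fib_comp h hσ⟩
  obtain ⟨σ, hσ, h1⟩ := h53_key (nd := nd) (pure ()) (fun _ => t) t' fun p => by
    rw [← h53_fib.1 h p, h53_fib.1 h' p]; exact tendsto_const_nhds
  exact ⟨σ, hσ, (tendsto_const_nhds_iff.1 h1).symm⟩

theorem h53_fib_near {x : Pt (Cou nd ar fr)} {t : I → ℂ} (h : x ∈ Fib (Cou nd ar fr) t)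
    {U : Set (I → ℂ)} (hU : U ∈ 𝓝 t) : FibS (Cou nd ar fr) U ∈ 𝓝 x := by
  choose s hs using h53_exists_fib (nd := nd) (ar := ar) (fr := fr)
  refine mem_iff_ultrafilter.2 fun 𝔘 h𝔘 => ?_
  obtain ⟨σ, hσ, h1⟩ := h53_key (nd := nd) 𝔘 s t fun p => by
    simp only [← h53_fib.1 (hs _) p, ← h53_fib.1 h p]
    exact (((continuous_apply _).comp continuous_induced_dom).tendsto x).mono_left h𝔘
  exact mem_of_superset (h1 hU) fun y hy => mem_biUnion hy (h53_fib_comp (hs y) hσ)

end C73
end
end

section
/-! Block A1, part a (helper34): coefficientwise operators on `LL I`, localisation at a root. -/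

open Set AddMonoidAlgebra

noncomputable section
namespace C73.H34

variable {I : Type} [Fintype I] [DecidableEq I]

/-- coefficientwise operator -/
def cw (φ : (I → ℤ) → KK I →+ KK I) : LL I →+ LL I where
  toFun x := ofCoeff (Finsupp.onFinset x.coeff.support (fun l => φ l (x.coeff l)) fun l h => by
    rw [Finsupp.mem_support_iff]
    intro h0
    exact h (by rw [h0, map_zero]))
  map_zero' := by ext; simp
  map_add' x y := by ext; simp

omit [Fintype I] [DecidableEq I] in
@[simp] theorem cw_coeff (φ : (I → ℤ) → KK I →+ KK I) (x : LL I) (l : I → ℤ) :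
    (cw φ x).coeff l = φ l (x.coeff l) := rfl

omit [DecidableEq I] in
theorem cw_single (φ : (I → ℤ) → KK I →+ KK I) (l : I → ℤ) (c : KK I) :
    cw φ (single l c) = single l (φ l c) := by
  classical
  ext m
  simp only [cw_coeff, coeff_single, Finsupp.single_apply]
  split_ifs with h
  · rw [h]
  · exact map_zero _

/-- `pd` as an additive map -/
def pdH (a : I) : KK I →+ KK I := AddMonoidHom.mk' (pd a) (pd_add a)

/-- `u_a ∂/∂u_a` -/
def DU (a : I) : LL I →+ LL I := cw fun l => AddMonoidHom.mulLeft (l a : KK I)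

/-- `∂/∂w_a` -/
def DW (a : I) : LL I →+ LL I := cw fun _ => pdH a

omit [Fintype I] [DecidableEq I] in
@[simp] theorem DU_coeff (a : I) (x : LL I) (l : I → ℤ) :
    (DU a x).coeff l = (l a : KK I) * x.coeff l := rfl

@[simp] theorem DW_coeff (a : I) (x : LL I) (l : I → ℤ) :
    (DW a x).coeff l = pd a (x.coeff l) := rfl

omit [DecidableEq I] in
theorem DU_single (a : I) (l : I → ℤ) (c : KK I) :
    DU a (single l c) = single l ((l a : KK I) * c) := cw_single _ _ _

theorem DW_single (a : I) (l : I → ℤ) (c : KK I) : DW a (single l c) = single l (pd a c) :=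
  cw_single _ _ _

omit [Fintype I] [DecidableEq I] in
theorem biadd {f g : LL I → LL I → LL I} (hf : ∀ x y z, f (x + y) z = f x z + f y z)
    (hf' : ∀ x y z, f x (y + z) = f x y + f x z) (hg : ∀ x y z, g (x + y) z = g x z + g y z)
    (hg' : ∀ x y z, g x (y + z) = g x y + g x z)
    (h : ∀ l c l' c', f (single l c) (single l' c') = g (single l c) (single l' c')) (x y : LL I) :
    f x y = g x y := by
  have f0 : ∀ z, f 0 z = 0 := fun z => by simpa using hf 0 0 z
  have f0' : ∀ z, f z 0 = 0 := fun z => by simpa using hf' z 0 0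
  have g0 : ∀ z, g 0 z = 0 := fun z => by simpa using hg 0 0 z
  have g0' : ∀ z, g z 0 = 0 := fun z => by simpa using hg' z 0 0
  induction x using induction_linear with
  | zero => rw [f0, g0]
  | add x x' h1 h2 => rw [hf, hg, h1, h2]
  | single l c =>
    induction y using induction_linear with
    | zero => rw [f0', g0']
    | add y y' h1 h2 => rw [hf', hg', h1, h2]
    | single l' c' => exact h _ _ _ _

omit [DecidableEq I] in
theorem DU_mul (a : I) (x y : LL I) : DU a (x * y) = DU a x * y + x * DU a y := by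
  refine biadd (f := fun x y => DU a (x * y)) (g := fun x y => DU a x * y + x * DU a y)
    (fun x y z => by simp only [add_mul, map_add]) (fun x y z => by simp only [mul_add, map_add])
    (fun x y z => by simp only [map_add]; ring) (fun x y z => by simp only [map_add]; ring)
    (fun l c l' c' => ?_) x y
  simp only [single_mul_single, DU_single, ← single_add, Pi.add_apply]
  congr 1
  push_cast
  ring

theorem DW_mul (a : I) (x y : LL I) : DW a (x * y) = DW a x * y + x * DW a y := by
  refine biadd (f := fun x y => DW a (x * y)) (g := fun x y => DW a x * y + x * DW a y)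
    (fun x y z => by simp only [add_mul, map_add]) (fun x y z => by simp only [mul_add, map_add])
    (fun x y z => by simp only [map_add]; ring) (fun x y z => by simp only [map_add]; ring)
    (fun l c l' c' => ?_) x y
  simp only [single_mul_single, DW_single, ← single_add, pd_mul]

theorem br_add_right (x y z : LL I) : br x (y + z) = br x y + br x z := by
  rw [br_poi.anti, br_poi.add, br_poi.anti y, br_poi.anti z]
  ring

omit [Fintype I] [DecidableEq I] in
theorem single_sum {κ : Type} (s : Finset κ) (l : I → ℤ) (f : κ → KK I) :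
    (single l (∑ a ∈ s, f a) : LL I) = ∑ a ∈ s, single l (f a) :=
  map_sum (singleAddHom l) f s

theorem br_eq (x y : LL I) : br x y = ∑ a, (DU a x * DW a y - DW a x * DU a y) := by
  refine biadd (f := br) (g := fun x y => ∑ a, (DU a x * DW a y - DW a x * DU a y))
    br_poi.add br_add_right
    (fun x y z => by
      simp only [map_add, ← Finset.sum_add_distrib]
      exact Finset.sum_congr rfl fun a _ => by ring)
    (fun x y z => by
      simp only [map_add, ← Finset.sum_add_distrib]
      exact Finset.sum_congr rfl fun a _ => by ring)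
    (fun l c l' c' => ?_) x y
  simp only [br_single, DU_single, DW_single, single_mul_single, ← single_sub, single_sum]
  refine Finset.sum_congr rfl fun a _ => ?_
  congr 1
  ring

omit [Fintype I] [DecidableEq I] in
theorem DU_smul (a : I) (k : KK I) (x : LL I) : DU a (k • x) = k • DU a x := by
  ext l
  simp only [DU_coeff, coeff_smul_apply, smul_eq_mul]
  ring

theorem DW_smul (a : I) (k : KK I) (x : LL I) : DW a (k • x) = pd a k • x + k • DW a x := by
  ext l
  simp only [DW_coeff, coeff_smul_apply, smul_eq_mul, pd_mul, coeff_add, Finsupp.add_apply]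

omit [Fintype I] [DecidableEq I] in
theorem DU_DU (a b : I) (x : LL I) : DU a (DU b x) = DU b (DU a x) := by
  ext l
  simp only [DU_coeff]
  ring

theorem pd_int (a : I) (n : ℤ) (c : KK I) : pd a ((n : KK I) * c) = (n : KK I) * pd a c := by
  have := map_zsmul (pdH a) n c
  simp only [zsmul_eq_mul] at this
  exact this

theorem DU_DW (a b : I) (x : LL I) : DU a (DW b x) = DW b (DU a x) := by
  ext l
  simp only [DU_coeff, DW_coeff, pd_int]

/-- elements whose `l`-th coefficient lies in `M l` -/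
def Gr (M : (I → ℤ) → AddSubgroup (KK I)) : AddSubgroup (LL I) where
  carrier := {x | ∀ l, x.coeff l ∈ M l}
  zero_mem' l := by simp
  add_mem' hx hy l := by simpa only [coeff_add, Finsupp.coe_add, Pi.add_apply] using (M l).add_mem (hx l) (hy l)
  neg_mem' hx l := by simpa only [coeff_neg, Finsupp.coe_neg, Pi.neg_apply, neg_mem_iff] using (M l).neg_mem (hx l)

omit [DecidableEq I] in
theorem gr_single {M : (I → ℤ) → AddSubgroup (KK I)} {l : I → ℤ} {c : KK I} (h : c ∈ M l) :
    single l c ∈ Gr M := fun m => by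
  classical
  simp only [coeff_single, Finsupp.single_apply]
  split_ifs with h'
  · exact h' ▸ h
  · exact (M m).zero_mem

omit [Fintype I] [DecidableEq I] in
theorem gr_ind {M : (I → ℤ) → AddSubgroup (KK I)} {p : LL I → Prop} (h0 : p 0)
    (ha : ∀ x y, p x → p y → p (x + y)) (hs : ∀ l c, c ∈ M l → p (single l c)) {x : LL I}
    (hx : x ∈ Gr M) : p x := by
  rw [← sum_coeff_single x]
  exact Finset.sum_induction _ p ha h0 fun l _ => hs l _ (hx l)

omit [Fintype I] [DecidableEq I] in
theorem gr_bi {M : (I → ℤ) → AddSubgroup (KK I)} {N : AddSubgroup (LL I)} {f : LL I → LL I → LL I}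
    (hf : ∀ x y z, f (x + y) z = f x z + f y z) (hf' : ∀ x y z, f x (y + z) = f x y + f x z)
    (h : ∀ l c l' c', c ∈ M l → c' ∈ M l' → f (single l c) (single l' c') ∈ N) {x y : LL I}
    (hx : x ∈ Gr M) (hy : y ∈ Gr M) : f x y ∈ N := by
  have f0 : ∀ z, f 0 z = 0 := fun z => by simpa using hf 0 0 z
  have f0' : ∀ z, f z 0 = 0 := fun z => by simpa using hf' z 0 0
  refine gr_ind (p := fun x => f x y ∈ N) (by simp only [f0]; exact N.zero_mem)
    (fun x x' h1 h2 => by simp only [hf]; exact N.add_mem h1 h2) (fun l c hc => ?_) hx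
  exact gr_ind (p := fun y => f (single l c) y ∈ N) (by simp only [f0']; exact N.zero_mem)
    (fun y y' h1 h2 => by simp only [hf']; exact N.add_mem h1 h2) (fun l' c' hc' => h l c l' c' hc hc') hy

/-! ### localisation at a root -/

/-- the root `w_a - w_b` -/
def rt (a b : I) : PP I := MvPolynomial.X a - MvPolynomial.X b

omit [Fintype I] [DecidableEq I] in
theorem rt_dvd_sub {a b : I} (f : I → I) (hf : ∀ c, f c = c ∨ (f c = a ∧ c = b) ∨ (f c = b ∧ c = a))
    (p : PP I) : rt a b ∣ p - MvPolynomial.rename f p := by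
  induction p using MvPolynomial.induction_on with
  | C c => simp
  | add p q hp hq =>
    rw [map_add, add_sub_add_comm]
    exact dvd_add hp hq
  | mul_X p c hp =>
    have h1 : rt a b ∣ MvPolynomial.X c - MvPolynomial.X (f c) := by
      rcases hf c with h | ⟨h, rfl⟩ | ⟨h, rfl⟩
      · simp [h]
      · rw [h, ← neg_sub, dvd_neg]; rfl
      · rw [h]; rfl
    have : p * MvPolynomial.X c - MvPolynomial.rename f (p * MvPolynomial.X c) =
        (p - MvPolynomial.rename f p) * MvPolynomial.X c +
          MvPolynomial.rename f p * (MvPolynomial.X c - MvPolynomial.X (f c)) := by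
      rw [map_mul, MvPolynomial.rename_X]; ring
    rw [this]
    exact dvd_add (hp.mul_right _) (h1.mul_left _)

omit [Fintype I] in
theorem rt_dvd_iff (a b : I) (p : PP I) :
    rt a b ∣ p ↔ MvPolynomial.rename (fun c => if c = a then b else c) p = 0 := by
  constructor
  · rintro ⟨q, rfl⟩
    by_cases h : b = a <;> simp [rt, h]
  · intro h
    have := rt_dvd_sub (a := a) (b := b) (fun c => if c = a then b else c)
      (fun c => by by_cases h : c = a <;> simp [h]) p
    rwa [h, sub_zero] at this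

omit [Fintype I] [DecidableEq I] in
theorem rt_ne {a b : I} (h : a ≠ b) : rt a b ≠ 0 := fun h' =>
  h (MvPolynomial.X_injective (sub_eq_zero.1 h'))

omit [Fintype I] in
theorem rt_mul {a b : I} {p q : PP I} (hp : ¬ rt a b ∣ p) (hq : ¬ rt a b ∣ q) : ¬ rt a b ∣ p * q := by
  rw [rt_dvd_iff] at *
  rw [map_mul]
  exact mul_ne_zero hp hq

omit [Fintype I] in
theorem rt_one {a b : I} : ¬ rt a b ∣ 1 := by
  rw [rt_dvd_iff, map_one]
  exact one_ne_zero

/-- shorthand for the inclusion of polynomials -/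
abbrev ip (p : PP I) : KK I := algebraMap (PP I) (KK I) p

omit [Fintype I] [DecidableEq I] in
theorem ip_inj : Function.Injective (ip : PP I → KK I) := IsFractionRing.injective _ _

/-- the local ring at the root `w_a - w_b` -/
def OO (a b : I) : Subalgebra ℂ (KK I) where
  carrier := {c | ∃ p q, ¬ rt a b ∣ q ∧ c * ip q = ip p}
  mul_mem' := by
    rintro c c' ⟨p, q, h, e⟩ ⟨p', q', h', e'⟩
    refine ⟨p * p', q * q', rt_mul h h', ?_⟩
    simp only [ip, map_mul] at *
    rw [← e, ← e']; ring
  add_mem' := by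
    rintro c c' ⟨p, q, h, e⟩ ⟨p', q', h', e'⟩
    refine ⟨p * q' + p' * q, q * q', rt_mul h h', ?_⟩
    simp only [ip, map_mul, map_add] at *
    rw [← e, ← e']; ring
  algebraMap_mem' r := ⟨algebraMap ℂ _ r, 1, rt_one, by
    simp only [ip, map_one, mul_one]
    exact IsScalarTower.algebraMap_apply ℂ (PP I) (KK I) r⟩

omit [Fintype I] in
theorem ip_mem (a b : I) (p : PP I) : ip p ∈ OO a b := ⟨p, 1, rt_one, by simp only [ip, map_one, mul_one]⟩

omit [Fintype I] in
theorem OO_div {a b : I} {c : KK I} {q : PP I} (hq : ¬ rt a b ∣ q) (h : c * ip q ∈ OO a b) :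
    c ∈ OO a b := by
  obtain ⟨p, q', h', e⟩ := h
  exact ⟨p, q * q', rt_mul hq h', by rw [← e]; simp only [ip, map_mul]; ring⟩

omit [Fintype I] in
theorem OO_symm {a b : I} {c : KK I} (h : c ∈ OO a b) : c ∈ OO b a := by
  obtain ⟨p, q, h', e⟩ := h
  refine ⟨p, q, fun h => h' ?_, e⟩
  rwa [rt, ← neg_sub, neg_dvd] at h

theorem OO_pd {a b : I} (d : I) {c : KK I} (h : c ∈ OO a b) : pd d c ∈ OO a b := by
  obtain ⟨p, q, h', e⟩ := h
  refine OO_div h' ?_
  have h1 := congrArg (pd d) e
  rw [pd_mul, pd_poly, pd_poly] at h1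
  rw [eq_sub_of_add_eq h1]
  exact sub_mem (ip_mem _ _ _) (mul_mem ⟨p, q, h', e⟩ (ip_mem _ _ _))

omit [Fintype I] in
theorem rt_swap (a b : I) (p : PP I) : rt a b ∣ p - MvPolynomial.rename (Equiv.swap a b) p :=
  rt_dvd_sub _ (fun c => by
    by_cases h : c = a
    · simp [h]
    · by_cases h' : c = b
      · simp [h']
      · simp [Equiv.swap_apply_of_ne_of_ne h h']) p

theorem OO_swap {a b : I} (hab : a ≠ b) {c : KK I} (h : c ∈ OO a b) :
    actK (Equiv.swap a b) c ∈ OO a b ∧ (ip (rt a b))⁻¹ * (c - actK (Equiv.swap a b) c) ∈ OO a b := by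
  obtain ⟨p, q, h', e⟩ := h
  have e' := congrArg (actK (Equiv.swap a b)) e
  rw [map_mul, actK_poly, actK_poly] at e'
  have hq : ¬ rt a b ∣ MvPolynomial.rename (Equiv.swap a b) q := fun h =>
    h' (by simpa only [sub_add_cancel] using dvd_add (rt_swap a b q) h)
  refine ⟨⟨_, _, hq, e'⟩, ?_⟩
  obtain ⟨p1, hp1⟩ := rt_swap a b p
  obtain ⟨q1, hq1⟩ := rt_swap a b q
  refine ⟨p1 * q - p * q1, _, rt_mul h' hq, ?_⟩
  have hα : ip (rt a b) ≠ 0 := fun h => rt_ne hab (ip_inj (h.trans (map_zero _).symm))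
  have hp2 := congrArg ip hp1
  have hq2 := congrArg ip hq1
  simp only [ip, map_mul, map_sub] at *
  field_simp
  linear_combination (algebraMap (PP I) (KK I) (MvPolynomial.rename (Equiv.swap a b) q)) * e -
    (algebraMap (PP I) (KK I) q) * e' + (algebraMap (PP I) (KK I) q) * hp2 -
    (algebraMap (PP I) (KK I) p) * hq2

end C73.H34
end
end

section
/-! Block A1, part b (helper34): the blow-up ring `BB a b` at a root. -/

open Set AddMonoidAlgebra

noncomputable section
namespace C73.H34

variable {I : Type} [Fintype I] [DecidableEq I]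

/-- the coroot -/
def cor (a b : I) : I → ℤ := Pi.single a 1 - Pi.single b 1

/-- projection along the coroot -/
def pj (a b : I) : (I → ℤ) →+ (I → ℤ) :=
  AddMonoidHom.mk' (fun l => l - l a • cor a b) fun l m => by
    rw [Pi.add_apply, add_smul]; abel

omit [Fintype I] in
theorem pj_apply (a b : I) (l : I → ℤ) : pj a b l = l - l a • cor a b := rfl

/-- `u_a := u_b` -/
def pr (a b : I) : LL I →ₐ[KK I] LL I := mapDomainAlgHom (KK I) (KK I) (pj a b)

omit [Fintype I] in
theorem pr_single (a b : I) (l : I → ℤ) (c : KK I) : pr a b (single l c) = single (pj a b l) c :=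
  mapDomain_single

/-- the root as a rational function -/
def al (a b : I) : KK I := ip (rt a b)

omit [Fintype I] [DecidableEq I] in
theorem al_ne {a b : I} (h : a ≠ b) : al a b ≠ 0 := fun h' =>
  rt_ne h (ip_inj (h'.trans (map_zero _).symm))

/-- `α u_a ∂/∂u_a` -/
def de (a b : I) (x : LL I) : LL I := al a b • DU a x

/-- Laurent polynomials with coefficients in the local ring -/
def GO (a b : I) : AddSubgroup (LL I) := Gr fun _ => (OO a b).toSubring.toAddSubgroup

omit [Fintype I] in
theorem mem_GO {a b : I} {x : LL I} : x ∈ GO a b ↔ ∀ l, x.coeff l ∈ OO a b := Iff.rfl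

theorem GO_single {a b : I} (l : I → ℤ) {c : KK I} (h : c ∈ OO a b) : single l c ∈ GO a b :=
  gr_single (M := fun _ => (OO a b).toSubring.toAddSubgroup) h

theorem GO_mul {a b : I} {x y : LL I} (hx : x ∈ GO a b) (hy : y ∈ GO a b) : x * y ∈ GO a b :=
  gr_bi (f := fun x y => x * y) add_mul mul_add (fun l c l' c' h h' => by
    simp only [single_mul_single]
    exact GO_single _ (mul_mem (s := OO a b) h h')) hx hy

omit [Fintype I] in
theorem GO_smul {a b : I} {c : KK I} (hc : c ∈ OO a b) {x : LL I} (hx : x ∈ GO a b) :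
    c • x ∈ GO a b := fun l => mul_mem (s := OO a b) hc (hx l)

theorem GO_pr {a b : I} {x : LL I} (hx : x ∈ GO a b) : pr a b x ∈ GO a b :=
  gr_ind (p := fun x => pr a b x ∈ GO a b) (by simp) (fun x y h h' => by
    simp only [map_add]; exact add_mem h h') (fun l c h => by
    simp only [pr_single]; exact GO_single _ h) hx

omit [Fintype I] in
theorem GO_DU {a b : I} (d : I) {x : LL I} (hx : x ∈ GO a b) : DU d x ∈ GO a b := fun l =>
  mul_mem (s := OO a b) (intCast_mem _ _) (hx l)

theorem GO_DW {a b : I} (d : I) {x : LL I} (hx : x ∈ GO a b) : DW d x ∈ GO a b := fun l =>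
  OO_pd d (hx l)

omit [Fintype I] [DecidableEq I] in
theorem de_add (a b : I) (x y : LL I) : de a b (x + y) = de a b x + de a b y := by
  simp only [de, map_add, smul_add]

omit [Fintype I] [DecidableEq I] in
theorem de_smul (a b : I) (c : KK I) (x : LL I) : de a b (c • x) = c • de a b x := by
  simp only [de, DU_smul, smul_comm c]

omit [DecidableEq I] in
theorem de_mul (a b : I) (x y : LL I) : de a b (x * y) = de a b x * y + x * de a b y := by
  simp only [de, DU_mul, smul_add, smul_mul_assoc, mul_smul_comm]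

omit [Fintype I] [DecidableEq I] in
theorem it_add (a b : I) (k : ℕ) (x y : LL I) :
    (de a b)^[k] (x + y) = (de a b)^[k] x + (de a b)^[k] y := by
  induction k generalizing x y with
  | zero => rfl
  | succ k ih => simp only [Function.iterate_succ_apply, de_add, ih]

omit [Fintype I] [DecidableEq I] in
theorem it_smul (a b : I) (k : ℕ) (c : KK I) (x : LL I) :
    (de a b)^[k] (c • x) = c • (de a b)^[k] x := by
  induction k generalizing x with
  | zero => rfl
  | succ k ih => simp only [Function.iterate_succ_apply, de_smul, ih]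

/-- the blow-up ring -/
def BB (a b : I) : AddSubgroup (LL I) where
  carrier := {x | ∀ k, pr a b ((de a b)^[k] x) ∈ GO a b}
  zero_mem' k := by
    rw [← zero_smul (KK I) (0 : LL I), it_smul, zero_smul, map_zero]
    exact zero_mem _
  add_mem' hx hy k := by
    rw [it_add, map_add]
    exact add_mem (hx k) (hy k)
  neg_mem' {x} hx k := by
    rw [← neg_one_smul (KK I) x, it_smul, neg_one_smul, map_neg]
    exact neg_mem (hx k)

variable {a b : I}

omit [Fintype I] in
theorem BB_pr {x : LL I} (h : x ∈ BB a b) : pr a b x ∈ GO a b := h 0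

omit [Fintype I] in
theorem BB_de {x : LL I} (h : x ∈ BB a b) : de a b x ∈ BB a b := fun k => h (k + 1)

omit [Fintype I] in
theorem BB_smul {c : KK I} (hc : c ∈ OO a b) {x : LL I} (h : x ∈ BB a b) : c • x ∈ BB a b :=
  fun k => by
    rw [it_smul, map_smul]
    exact GO_smul hc (h k)

omit [Fintype I] in
/-- coinduction principle -/
theorem BB_co {κ : Type} (S : κ → Prop) (T : κ → LL I) (h0 : ∀ x, S x → pr a b (T x) ∈ GO a b)
    (h1 : ∀ x, S x → ∃ y z w, S y ∧ S z ∧ w ∈ BB a b ∧ de a b (T x) = T y + T z + w)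
    {x : κ} (hx : S x) : T x ∈ BB a b := by
  intro k
  induction k generalizing x with
  | zero => exact h0 x hx
  | succ k ih =>
    obtain ⟨y, z, w, hy, hz, hw, e⟩ := h1 x hx
    rw [Function.iterate_succ_apply, e, it_add, it_add, map_add, map_add]
    exact add_mem (add_mem (ih hy) (ih hz)) (hw k)

theorem BB_mul {x y : LL I} (hx : x ∈ BB a b) (hy : y ∈ BB a b) : x * y ∈ BB a b :=
  BB_co (fun p : LL I × LL I => p.1 ∈ BB a b ∧ p.2 ∈ BB a b) (fun p => p.1 * p.2)
    (fun p h => by rw [map_mul]; exact GO_mul (BB_pr h.1) (BB_pr h.2))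
    (fun p h => ⟨(de a b p.1, p.2), (p.1, de a b p.2), 0, ⟨BB_de h.1, h.2⟩, ⟨h.1, BB_de h.2⟩,
      zero_mem _, by rw [de_mul, add_zero]⟩) (x := (x, y)) ⟨hx, hy⟩

omit [Fintype I] in
theorem BB_op (T : LL I →+ LL I) (h0 : ∀ x ∈ BB a b, pr a b (T x) ∈ GO a b)
    (h1 : ∀ x ∈ BB a b, de a b (T x) - T (de a b x) ∈ BB a b) {x : LL I} (hx : x ∈ BB a b) :
    T x ∈ BB a b :=
  BB_co (fun x => x ∈ BB a b) T h0 (fun x h => ⟨de a b x, 0, _, BB_de h, zero_mem _, h1 x h, by
    rw [map_zero]; ring⟩) hx

omit [Fintype I] in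
theorem al_mem : al a b ∈ OO a b := ip_mem _ _ _

theorem GO_BB {x : LL I} (hx : x ∈ GO a b) : x ∈ BB a b :=
  BB_co (fun x => x ∈ GO a b) id (fun _ h => GO_pr h) (fun x h =>
    ⟨de a b x, 0, 0, GO_smul al_mem (GO_DU a h), zero_mem _, zero_mem _, by simp⟩) hx

theorem pr_DW (d : I) (x : LL I) : pr a b (DW d x) = DW d (pr a b x) := by
  induction x using induction_linear with
  | zero => simp only [map_zero]
  | add x y h h' => simp only [map_add, h, h']
  | single l c => simp only [DW_single, pr_single]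

theorem pr_DU {d : I} (h1 : d ≠ a) (h2 : d ≠ b) (x : LL I) : pr a b (DU d x) = DU d (pr a b x) := by
  induction x using induction_linear with
  | zero => simp only [map_zero]
  | add x y h h' => simp only [map_add, h, h']
  | single l c => simp [DU_single, pr_single, pj_apply, cor, h1, h2]

theorem pr_DU2 (hab : a ≠ b) (x : LL I) :
    pr a b (DU a x + DU b x) = DU b (pr a b x) := by
  induction x using induction_linear with
  | zero => simp only [map_zero, add_zero]
  | add x y h h' =>
    rw [map_add (pr a b) x, map_add (DU b) (pr a b x), ← h, ← h', ← map_add, map_add (DU a),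
      map_add (DU b)]
    congr 1; ring
  | single l c =>
    simp only [DU_single, pr_single, ← single_add]
    congr 1
    simp only [pj_apply, cor, zsmul_eq_mul, Pi.sub_apply, Pi.mul_apply, Pi.intCast_apply, Int.cast_eq, ne_eq, hab.symm, not_false_eq_true, Pi.single_eq_of_ne, Pi.single_eq_same, zero_sub, Int.reduceNeg, mul_neg, mul_one, sub_neg_eq_add, Int.cast_add]
    ring

theorem pd_al (d : I) : pd d (al a b) =
    (if a = d then 1 else 0) - (if b = d then 1 else 0) := by
  rw [al, pd_poly, rt, map_sub, MvPolynomial.pderiv_X, MvPolynomial.pderiv_X]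
  simp only [Pi.single_apply, map_sub, apply_ite (algebraMap (PP I) (KK I)), map_one, map_zero]

theorem BB_DU {d : I} (h1 : d ≠ a) (h2 : d ≠ b) {x : LL I} (hx : x ∈ BB a b) : DU d x ∈ BB a b :=
  BB_op (DU d) (fun x h => by rw [pr_DU h1 h2]; exact GO_DU _ (BB_pr h))
    (fun x _ => by simp only [de, DU_smul, DU_DU a d, sub_self]; exact zero_mem _) hx

theorem BB_DU2 (hab : a ≠ b) {x : LL I} (hx : x ∈ BB a b) : DU a x + DU b x ∈ BB a b :=
  BB_op (DU a + DU b) (fun x h => by
      rw [AddMonoidHom.add_apply, pr_DU2 hab]; exact GO_DU _ (BB_pr h))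
    (fun x _ => by
      simp only [AddMonoidHom.add_apply, de, DU_smul, map_add, DU_DU a b, smul_add, sub_self]
      exact zero_mem _) hx

theorem BB_DW {d : I} (h1 : d ≠ a) (h2 : d ≠ b) {x : LL I} (hx : x ∈ BB a b) : DW d x ∈ BB a b :=
  BB_op (DW d) (fun x h => by rw [pr_DW]; exact GO_DW _ (BB_pr h))
    (fun x _ => by
      simp only [de, DW_smul, DU_DW, pd_al, if_neg h1.symm, if_neg h2.symm, sub_self, zero_smul,
        zero_add]
      exact zero_mem _) hx

theorem BB_DW2 (hab : a ≠ b) {x : LL I} (hx : x ∈ BB a b) : DW a x + DW b x ∈ BB a b :=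
  BB_op (DW a + DW b) (fun x h => by
      rw [AddMonoidHom.add_apply, map_add, pr_DW, pr_DW]
      exact add_mem (GO_DW _ (BB_pr h)) (GO_DW _ (BB_pr h)))
    (fun x _ => by
      simp only [AddMonoidHom.add_apply, de, DW_smul, map_add, DU_DW, pd_al, if_neg hab,
        if_neg hab.symm, if_true]
      convert zero_mem (BB a b) using 1
      simp only [Algebra.smul_def, map_sub, map_zero, map_one]
      ring) hx

/-- the blow-up coordinate `(u_a / u_b - 1) / α` -/
def zz (a b : I) : LL I := (al a b)⁻¹ • (single (cor a b) 1 - 1)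

omit [Fintype I] in
theorem pr_zz (hab : a ≠ b) : pr a b (zz a b) = 0 := by
  have : pj a b (cor a b) = 0 := by simp [pj_apply, cor, hab]
  rw [zz, map_smul, map_sub, pr_single, this, map_one, ← one_def, sub_self, smul_zero]

theorem de_zz (hab : a ≠ b) : de a b (zz a b) = single (cor a b) 1 := by
  rw [zz, de_smul, de, smul_smul, inv_mul_cancel₀ (al_ne hab), one_smul, map_sub, one_def, DU_single,
    DU_single]
  simp [cor, hab]

theorem zz_mem (hab : a ≠ b) : zz a b ∈ BB a b := by
  rintro (_ | k)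
  · rw [Function.iterate_zero_apply, pr_zz hab]
    exact zero_mem _
  · rw [Function.iterate_succ_apply, de_zz hab]
    exact GO_BB (GO_single _ (one_mem _)) k

theorem BB_eta (hab : a ≠ b) {x : LL I} (hx : x ∈ BB a b) : DW b x - zz a b * DU a x ∈ BB a b :=
  BB_op (DW b - (AddMonoidHom.mulLeft (zz a b)).comp (DU a))
    (fun x h => by
      change pr a b (DW b x - zz a b * DU a x) ∈ _
      rw [map_sub, map_mul, pr_zz hab, zero_mul, sub_zero, pr_DW]
      exact GO_DW _ (BB_pr h))
    (fun x h => by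
      change de a b (DW b x - zz a b * DU a x) - (DW b (de a b x) - zz a b * DU a (de a b x)) ∈ _
      have h1 := de_zz hab
      have h2 : al a b • zz a b = single (cor a b) 1 - 1 := by
        rw [zz, smul_smul, mul_inv_cancel₀ (al_ne hab), one_smul]
      convert neg_mem (BB_mul (zz_mem hab) (BB_de h)) using 1
      simp only [de, map_sub, DU_mul, DU_smul, DW_smul, pd_al, if_neg hab, if_true, DU_DW] at h1 ⊢
      simp only [Algebra.smul_def, map_sub, map_zero, map_one] at h1 h2 ⊢
      linear_combination (-DU a x) * h1 + (DU a x) * h2) hx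

theorem BB_br (hab : a ≠ b) {x y : LL I} (hx : x ∈ BB a b) (hy : y ∈ BB a b) :
    al a b • br x y ∈ BB a b := by
  rw [br_eq, ← Finset.add_sum_erase _ _ (Finset.mem_univ a),
    ← Finset.add_sum_erase _ _ (Finset.mem_erase.2 ⟨hab.symm, Finset.mem_univ b⟩), ← add_assoc,
    smul_add]
  refine add_mem ?_ (BB_smul al_mem (sum_mem fun d hd => ?_))
  · have key : ∀ {x y : LL I}, x ∈ BB a b → y ∈ BB a b →
        de a b x * (DW a y + DW b y) + (DU a x + DU b x) *
          (al a b • (DW b y - zz a b * DU a y) + zz a b * de a b y) -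
          de a b x * (DW b y - zz a b * DU a y) - de a b x * (DW b y - zz a b * DU a y) ∈ BB a b :=
      fun hx hy => sub_mem (sub_mem (add_mem (BB_mul (BB_de hx) (BB_DW2 hab hy))
        (BB_mul (BB_DU2 hab hx) (add_mem (BB_smul al_mem (BB_eta hab hy))
          (BB_mul (zz_mem hab) (BB_de hy))))) (BB_mul (BB_de hx) (BB_eta hab hy)))
        (BB_mul (BB_de hx) (BB_eta hab hy))
    convert sub_mem (key hx hy) (key hy hx) using 1
    simp only [de, Algebra.smul_def]
    ring
  · simp only [Finset.mem_erase] at hd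
    exact sub_mem (BB_mul (BB_DU hd.2.1 hd.1 hx) (BB_DW hd.2.1 hd.1 hy))
      (BB_mul (BB_DW hd.2.1 hd.1 hx) (BB_DU hd.2.1 hd.1 hy))

/-! ### the reflection -/

theorem actK_al : actK (Equiv.swap a b) (al a b) = -al a b := by
  rw [al, actK_poly, ← map_neg]
  simp [rt]

theorem actL_smul (σ : Equiv.Perm I) (c : KK I) (x : LL I) :
    actL σ (c • x) = actK σ c • actL σ x := by
  induction x using induction_linear with
  | zero => simp
  | add x y h h' => simp only [smul_add, map_add, h, h']
  | single l c' => simp only [smul_single, actL_single, smul_eq_mul, map_mul]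

theorem actL_DU (σ : Equiv.Perm I) (d : I) (x : LL I) : actL σ (DU d x) = DU (σ d) (actL σ x) := by
  induction x using induction_linear with
  | zero => simp only [map_zero]
  | add x y h h' => simp only [map_add, h, h']
  | single l c' => simp [DU_single, actL_single]

omit [Fintype I] in
theorem comp_swap (hab : a ≠ b) (l : I → ℤ) : l ∘ Equiv.swap a b = l - (l a - l b) • cor a b := by
  funext d
  by_cases h : d = a
  · simp [h, cor, hab]
  · by_cases h' : d = b
    · simp [h', cor, hab.symm]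
    · simp [Equiv.swap_apply_of_ne_of_ne h h', cor, h, h']

omit [Fintype I] in
theorem pj_cor (hab : a ≠ b) : pj a b (cor a b) = 0 := by simp [pj_apply, cor, hab]

/-- coefficientwise reflection -/
def sK (a b : I) : LL I →+ LL I := cw fun _ => (actK (Equiv.swap a b)).toAddMonoidHom

theorem pr_swap (hab : a ≠ b) (x : LL I) :
    pr a b (actL (Equiv.swap a b) x) = sK a b (pr a b x) := by
  induction x using induction_linear with
  | zero => simp only [map_zero]
  | add x y h h' => simp only [map_add, h, h']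
  | single l c' =>
    rw [actL_single, pr_single, pr_single, sK, cw_single, Equiv.symm_swap, comp_swap hab, map_sub,
      map_zsmul, pj_cor hab, smul_zero, sub_zero]
    rfl

theorem it_swap (hab : a ≠ b) {x : LL I} (hx : x ∈ BB a b) (k : ℕ) : ∃ y ∈ BB a b,
    (de a b)^[k] (actL (Equiv.swap a b) x) = actL (Equiv.swap a b) ((de a b)^[k] x + al a b • y) := by
  induction k with
  | zero => exact ⟨0, zero_mem _, by simp⟩
  | succ k ih =>
    obtain ⟨y, hy, e⟩ := ih
    have hk : (de a b)^[k] x ∈ BB a b := fun j => by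
      rw [← Function.iterate_add_apply]; exact hx _
    refine ⟨de a b y - al a b • (DU a y + DU b y) - (DU a ((de a b)^[k] x) + DU b ((de a b)^[k] x)),
      sub_mem (sub_mem (BB_de hy) (BB_smul al_mem (BB_DU2 hab hy))) (BB_DU2 hab hk), ?_⟩
    rw [Function.iterate_succ_apply', Function.iterate_succ_apply', e]
    have h1 : ∀ v, de a b (actL (Equiv.swap a b) v) = actL (Equiv.swap a b) (-(al a b • DU b v)) := by
      intro v
      rw [map_neg, actL_smul, actK_al, actL_DU, Equiv.swap_apply_right, de, neg_smul, neg_neg]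
    rw [h1]
    congr 1
    simp only [de, map_add, DU_smul]
    simp only [Algebra.smul_def]
    ring

theorem BB_swap (hab : a ≠ b) {x : LL I} (hx : x ∈ BB a b) :
    (al a b)⁻¹ • (x - actL (Equiv.swap a b) x) ∈ BB a b := fun k => by
  obtain ⟨y, hy, e⟩ := it_swap hab hx k
  rw [it_smul, sub_eq_add_neg, ← neg_one_smul (KK I) (actL _ x), it_add, it_smul, e, map_smul,
    map_add (pr a b), map_smul, pr_swap hab, map_add, map_smul]
  intro l
  have h1 := OO_swap hab (hx k l)
  have h2 := OO_swap hab (BB_pr hy l)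
  have h3 := add_mem h1.2 h2.1
  have h4 := al_ne hab
  change _ ∈ OO a b
  convert h3 using 1
  simp only [coeff_smul_apply, coeff_add, Finsupp.add_apply, map_add, sK, cw_coeff, smul_eq_mul]
  change _ * (_ + _ * (actK _ _ + actK _ (_ * _))) = (al a b)⁻¹ * _ + _
  rw [map_mul, actK_al]
  field_simp
  ring

theorem BB_of_inv (hab : a ≠ b) {x : LL I} (hx : al a b • x ∈ BB a b) :
    x + actL (Equiv.swap a b) x ∈ BB a b := by
  convert BB_swap hab hx using 1
  rw [actL_smul, actK_al, neg_smul, sub_neg_eq_add, ← smul_add, smul_smul,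
    inv_mul_cancel₀ (al_ne hab), one_smul]

omit [Fintype I] in
theorem BB_csmul (c : ℂ) {x : LL I} (h : x ∈ BB a b) : c • x ∈ BB a b := by
  rw [← algebraMap_smul (KK I) c x]
  exact BB_smul (algebraMap_mem _ c) h

omit [Fintype I] in
theorem BB_half {x : LL I} (h : x + x ∈ BB a b) : x ∈ BB a b := by
  convert BB_csmul (1 / 2) h using 1
  rw [← two_smul ℂ x, smul_smul]
  norm_num

omit [Fintype I] in
/-- the top coefficient of a bounded string -/
theorem BB_top (hab : a ≠ b) (l : I → ℤ) (N : ℕ) {x : LL I} (hx : x ∈ BB a b)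
    (h : ∀ n : ℤ, x.coeff (l + n • cor a b) ≠ 0 → -(N : ℤ) ≤ n ∧ n ≤ 0) :
    al a b ^ N * x.coeff l ∈ OO a b := by
  induction N generalizing x with
  | zero =>
    have h1 := BB_pr hx (pj a b l)
    have h2 : (pr a b x).coeff (pj a b l) = x.coeff l := by
      change Finsupp.mapDomain (pj a b) x.coeff (pj a b l) = _
      rw [Finsupp.mapDomain, Finsupp.sum_apply, Finsupp.sum, Finset.sum_eq_single l]
      · simp
      · intro m hm hml
        refine Finsupp.single_eq_of_ne fun e => hml ?_
        have e2 : m = l + (m a - l a) • cor a b := by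
          rw [pj_apply, pj_apply] at e
          rw [sub_smul]
          linear_combination -e
        have := h (m a - l a) (e2 ▸ Finsupp.mem_support_iff.1 hm)
        rw [e2, show m a - l a = 0 by omega, zero_smul, add_zero]
      · intro hl
        rw [Finsupp.notMem_support_iff.1 hl, Finsupp.single_zero, Finsupp.zero_apply]
    rw [pow_zero, one_mul, ← h2]
    exact h1
  | succ N ih =>
    have hy : de a b x - ((l a - (N + 1) : ℤ) : KK I) • al a b • x ∈ BB a b :=
      sub_mem (BB_de hx) (BB_smul (intCast_mem _ _) (BB_smul al_mem hx))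
    have hc : ∀ n : ℤ, (de a b x - ((l a - (N + 1) : ℤ) : KK I) • al a b • x).coeff (l + n • cor a b) =
        ((n + N + 1 : ℤ) : KK I) * (al a b * x.coeff (l + n • cor a b)) := fun n => by
      simp only [de, Int.cast_sub, Int.cast_add, Int.cast_natCast, Int.cast_one, coeff_sub, coeff_smul, cor, zsmul_eq_mul, Finsupp.coe_sub, Finsupp.coe_smul, Pi.sub_apply, Pi.smul_apply, DU_coeff, Pi.add_apply, Pi.mul_apply, Pi.intCast_apply, Int.cast_eq, Pi.single_eq_same, ne_eq, hab, not_false_eq_true, Pi.single_eq_of_ne, sub_zero, mul_one, smul_eq_mul]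
      ring
    have h1 := ih hy fun n hn => by
      rw [hc] at hn
      have h2 := h n fun h0 => hn (by rw [h0, mul_zero, mul_zero])
      have h3 : n + N + 1 ≠ 0 := fun h0 => hn (by rw [h0, Int.cast_zero, zero_mul])
      push_cast at h2
      omega
    have h2 := hc 0
    rw [zero_smul, add_zero] at h2
    rw [h2] at h1
    have h3 := Subalgebra.smul_mem _ h1 ((N + 1 : ℂ)⁻¹)
    convert h3 using 1
    have h4 : ((N : KK I) + 1) ≠ 0 := by exact_mod_cast N.succ_ne_zero
    rw [Algebra.smul_def, map_inv₀]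
    simp only [map_add, map_natCast, map_one]
    push_cast
    field_simp
    ring

end C73.H34
end
end
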