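import Pool.Agent.MP_94fa45_ag.C73.Stmt
import Pool.Agent.MP_94fa45_ag.C73.Mod

attribute [-instance] CoalgHomClass.toSemilinearMapClass ContinuousMap.instCommCStarAlgebra
  littleWedderburn RightPreLieAlgebra.toModule NonarchimedeanRing.toIsTopologicalRing
  LeftPreLieAlgebra.toModule RingHomClass.toLinearMapClassRat TotallySeparatedSpace.t2Space
  PositiveLinearMap.instContinuousLinearMapClassComplexOfLinearMapClassOfOrderHomClass
  RingHomClass.toLinearMapClassNNRat IsTopologicalTorsor.toContinuousSMul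
  SemilinearIsometryClass.toSemilinearMapClass LieAlgebra.toModule ProperSMul.toContinuousSMul
  AlgHom.instContinuousLinearMapClassOfAlgHomClass NonarchimedeanAddGroup.toIsTopologicalAddGroup
  instNonUnitalAlgHomClassOfNonUnitalAlgEquivClass
  SemilinearIsometryClass.toContinuousSemilinearMapClass MonTypeEquivalenceMon.monMonoid
  instSMulZeroClass Valued.isTopologicalDivisionRing IdemSemiring.toSemiring
  ContinuousLinearMap.toNormedAddCommGroup Valued.toUniformSpace
  TopologicalSpace.NoetherianSpace.compactSpace LieRinehartAlgebra.toIsScalarTower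
  NormedRing.toNonUnitalNormedRing instCoeOutOfCoeFun AddQuantale.instAddLeftMono
  CStarAlgebra.toNonUnitalCStarAlgebra MulRingSeminormClass.toMonoidWithZeroHomClass
  IdemSemiring.toCanonicallyOrderedAdd IdemCommSemiring.toCommSemiring DivisionRing.toRing
  Group.IsPerfect.subsingleton_of_isMulCommutative CommMonTypeEquivalenceCommMon.commMonCommMonoid
  GaussianInt.instCoeComplex TensorProduct.isScalarTower_right BialgHomClass.toAlgHomClass
  NonUnitalNonAssocRing.toAddCommGroup instDiscreteTopologyOfAlexandrovDiscreteOfT1Space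
  TestFunctionClass.toDFunLike NonUnitalNormedCommRing.toNonUnitalSeminormedCommRing
  Torsor.toMulAction instCharZeroOfIsSemireal ContDiffMapSupportedInClass.toDFunLike
  IsometryClass.instCoeOutIsometryEquiv ValuationClass.toMonoidWithZeroHomClass
  DiscreteUniformity.instDiscreteTopology LieAdmissibleRing.toNonUnitalNonAssocRing instCoeTOfCoeDep
  NumberField.instFiniteDimensional Pi.module Nontrivial.to_nonempty AddQuantale.instAddRightMono
  MulSemiringAction.toDistribMulAction HomeomorphClass.instCoeOutHomeomorph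
  Module.FaithfullyFlat.toFlat ContinuousMap.instNonUnitalCommCStarAlgebra
  MulSemiringActionSemiHomClass.toDistribMulActionSemiHomClass
  TopologicalSpace.IsCompletelyMetrizableSpace.MetrizableSpace Algebra.Generators.instRing
  IsValuativeTopology.instIsTopologicalAddGroup SeminormedRing.toNonUnitalSeminormedRing
  WithTop.LinearOrderedAddCommGroup.instLinearOrderedAddCommGroupWithTopOfIsOrderedAddMonoid
  BooleanRing.toRing
  NonUnitalAlgHomClass.instSemilinearMapClassOfNonUnitalAlgSemiHomClassToMonoidHomRingHom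
  IsNonarchimedeanLocalField.instIsTopologicalDivisionRing AlgHomClass.linearMapClass
  Zero.instNonempty CentroidHomClass.toAddMonoidHomClass BialgEquivClass.instCoeToBialgEquiv
  compactSpace_of_completeLinearOrder LinearOrderedAddCommMonoidWithTop.toAddCommMonoid
  ContinuousAddMonoidHom.instCoeOutOfAddMonoidHomClassOfContinuousMapClass
  BialgHomClass.toMonoidHomClass ContinuousMap.instNonAssocSemiringOfIsTopologicalSemiring
  NumberField.to_charZero CoalgEquivClass.instCoeToCoalgEquiv StarAlgEquivClass.instCoeHead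
  LieRing.toAddCommGroup StarRingEquivClass.instCoeHead SemilinearMapClass.instCoeToSemilinearMap
  instIsModuleTopology LinearMapClass.instCoeToLinearMap UpgradedStandardBorel.toTopologicalSpace
  bot_nonempty CompletelyPositiveMapClass.instCoeToCompletelyPositiveMap
  MulSemiringActionSemiHomClass.toRingHomClass
  TopologicalSpace.UpgradedIsCompletelyPseudoMetrizableSpace.toPseudoMetricSpace
  MulEquivClass.toMonoidWithZeroHomClass CoalgHomClass.instCoeToCoalgHom
  CStarAlgebra.instOrderClosedTopology Finite.instDiscreteTopology BialgHomClass.instCoeToBialgHom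
  NonUnitalRing.toNonUnitalNonAssocRing RingEquivClass.toRingHomClass
  LinearOrderedAddCommGroupWithTop.toAddCommMonoid RightPreLieRing.instLieAdmissibleRing
  NonUnitalCommCStarAlgebra.toNonUnitalNormedCommRing Quantale.instMulRightMono instCoeHTCT
  instCoeHTC SemilinearEquivClass.instSemilinearMapClass instCoeTC
  AlexandrovDiscrete.toLocallyCompactSpace NonUnitalStarRingHomClass.instCoeHeadNonUnitalStarRingHom

-- part MP_94fa45_ag.C73.Geo
section

/-! Shared algebraic / geometric definitions of campaign h73c. -/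

open Set Filter Topology Polynomial

noncomputable section
namespace C73

section
variable {A : Type} [CommRing A] [Algebra ℂ A]

/-- Poisson brackets -/
structure IsPoi (b : A → A → A) : Prop where
  add : ∀ f g h, b (f + g) h = b f h + b g h
  smul : ∀ (c : ℂ) f g, b (c • f) g = c • b f g
  anti : ∀ f g, b f g = -b g f
  mul : ∀ f g h, b f (g * h) = b f g * h + g * b f h
  jac : ∀ f g h, b f (b g h) = b (b f g) h + b g (b f h)

/-- common zeros -/
def VV (S : Set A) : Set (Pt A) := {x | ∀ a ∈ S, x a = 0}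

/-- vanishing ideal -/
def II (Y : Set (Pt A)) : Ideal A where
  carrier := {a | ∀ y ∈ Y, y a = 0}
  zero_mem' := fun y _ => map_zero y
  add_mem' := fun ha hb y hy => by rw [map_add, ha y hy, hb y hy, add_zero]
  smul_mem' := fun c a ha y hy => by rw [smul_eq_mul, map_mul, ha y hy, mul_zero]

/-- Zariski closed -/
def ZCl (Y : Set (Pt A)) : Prop := ∃ S, Y = VV S

/-- dimension `≤ e`: more than `e` functions are algebraically dependent on `Y` -/
def TD (Y : Set (Pt A)) (e : ℤ) : Prop :=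
  ∀ (s : ℕ) (a : Fin s → A), e < s → ∃ P : MvPolynomial (Fin s) ℂ, P ≠ 0 ∧
    ∀ y ∈ Y, y (MvPolynomial.aeval a P) = 0

/-- a `ℤ`-grading compatible with the bracket -/
structure IsGr (b : A → A → A) (𝒜 : ℤ → Submodule ℂ A) : Prop where
  mon : SetLike.GradedMonoid 𝒜
  int : DirectSum.IsInternal 𝒜
  br : ∀ m n f g, f ∈ 𝒜 m → g ∈ 𝒜 n → b f g ∈ 𝒜 (m + n)

/-- points where all elements of positive weight vanish -/
def PosG (𝒜 : ℤ → Submodule ℂ A) : Set (Pt A) := VV {a | ∃ n, 0 < n ∧ a ∈ 𝒜 n}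

/-- points where all elements of negative weight vanish -/
def NegG (𝒜 : ℤ → Submodule ℂ A) : Set (Pt A) := VV {a | ∃ n, n < 0 ∧ a ∈ 𝒜 n}

/-- fixed points -/
def FixG (𝒜 : ℤ → Submodule ℂ A) : Set (Pt A) := PosG 𝒜 ∩ NegG 𝒜

/-- same values on weight zero elements -/
def Same0 (𝒜 : ℤ → Submodule ℂ A) (x y : Pt A) : Prop := ∀ a ∈ 𝒜 0, x a = y a

/-- holonomicity: the locus of rank `≤ r` has dimension `≤ r` -/
def Hol (b : A → A → A) : Prop := ∀ r : ℕ, TD {x | rk b x ≤ r} r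
end

section
variable {I ι : Type} [Fintype I] [DecidableEq I]

/-- node preserving permutations (Weyl group) -/
def InW (nd : I → ι) (σ : Equiv.Perm I) : Prop := ∀ a, nd (σ a) = nd a

/-- a polynomial in the `w`'s as an element of `LL I` -/
def pL (p : PP I) : LL I := AddMonoidAlgebra.single 0 (algebraMap (PP I) (KK I) p)

/-- `u^l` -/
def uL' (l : I → ℤ) : LL I := AddMonoidAlgebra.single l 1

/-- grading by the cocharacter with exponents `m` -/
def grC (A : Subalgebra ℂ (LL I)) (m : I → ℤ) (n : ℤ) : Submodule ℂ A where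
  carrier := {a | ∀ l, (a : LL I).coeff l ≠ 0 → ∑ c, m c * l c = n}
  zero_mem' := fun l h => absurd rfl h
  add_mem' := fun {a b} ha hb l h => by
    by_cases h1 : (a : LL I).coeff l = 0
    · exact hb l fun h2 => h (by simp only [AddMemClass.coe_add, AddMonoidAlgebra.coeff_add, Finsupp.coe_add, Pi.add_apply, h1, h2, add_zero])
    · exact ha l h1
  smul_mem' := fun c a ha l h => ha l fun h1 => h (by simp [h1])

/-- points of `Spec A` over the image of `t ∈ 𝔱` in `𝔱/W` -/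
def Fib (A : Subalgebra ℂ (LL I)) (t : I → ℂ) : Set (Pt A) :=
  {x | ∀ (p : PP I) (a : A), (a : LL I) = pL p → x a = MvPolynomial.eval t p}

/-- points over a subset of `𝔱` -/
def FibS (A : Subalgebra ℂ (LL I)) (S : Set (I → ℂ)) : Set (Pt A) := ⋃ t ∈ S, Fib A t

/-- dominance with respect to an enumeration `ord` -/
def Dom (nd : I → ι) (ord : I → ℕ) (l : I → ℤ) : Prop :=
  ∀ a b, nd a = nd b → ord a < ord b → l b ≤ l a

/-- minuscule coweights used as generators -/
def Minu (l : I → ℤ) : Prop := (∀ a, l a = 0 ∨ l a = 1) ∨ (∀ a, l a = 0 ∨ l a = -1)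

/-- invariance under the stabiliser of `l` in the Weyl group -/
def InvL (nd : I → ι) (l : I → ℤ) (f : PP I) : Prop :=
  ∀ σ, InW nd σ → l ∘ σ = l → MvPolynomial.rename σ f = f

/-- the cocharacter `m` vanishes only at node `i` and has constant sign -/
def Coch (nd : I → ι) (i : ι) (m : I → ℤ) : Prop :=
  (∀ a b, nd a = nd b → m a = m b) ∧ (∀ a, m a = 0 → nd a = i) ∧
    ((∀ a, 0 ≤ m a) ∨ ∀ a, m a ≤ 0)

open Classical in
/-- Levi theory of the grouping `g` -/
def Lev (nd : I → ι) (ar : ι → ι → ℕ) (fr : ι → ℕ) (g : I → ℂ) : Subalgebra ℂ (LL I) :=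
  Cou (fun a => (nd a, g a)) (fun x y => if x.2 = y.2 then ar x.1 y.1 else 0)
    (fun x => if x.2 = 0 then fr x.1 else 0)

open Classical in
/-- product of the linear forms inverted in the Levi theory -/
def dlt (g : I → ℂ) : PP I :=
  (∏ a, ∏ b with g a ≠ g b, (MvPolynomial.X a - MvPolynomial.X b)) *
    ∏ a with g a ≠ 0, MvPolynomial.X a

/-- `dlt g` does not vanish at `t` -/
def Ok (g t : I → ℂ) : Prop := (∀ a b, g a ≠ g b → t a ≠ t b) ∧ ∀ a, g a ≠ 0 → t a ≠ 0

/-- at most `k` nonzero eigenvalues -/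
def KapLE (A : Subalgebra ℂ (LL I)) (k : ℕ) : Set (Pt A) := FibS A {t | {a | t a ≠ 0}.ncard ≤ k}

/-- exactly `k` nonzero eigenvalues, pairwise distinct -/
def Gen (A : Subalgebra ℂ (LL I)) (k : ℕ) : Set (Pt A) :=
  FibS A {t | {a | t a ≠ 0}.ncard = k ∧ InjOn t {a | t a ≠ 0}}
end

/-- matrix model of the `A₁` Coulomb branch -/
def FM (N k : ℕ) : Type :=
  {M : Matrix (Fin 2) (Fin 2) ℂ[X] // (M 0 0).Monic ∧ (M 0 0).natDegree = k ∧
    (M 0 1).degree < k ∧ (M 1 0).degree < k ∧ M.det = X ^ N}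

instance (N k : ℕ) : TopologicalSpace (FM N k) :=
  TopologicalSpace.induced (fun M i j n => (M.1 i j).coeff n : FM N k → Fin 2 → Fin 2 → ℕ → ℂ)
    inferInstance

/-- order of vanishing at `0` -/
def FM.val {N k : ℕ} (M : FM N k) : ℕ := sSup {c | ∀ i j, X ^ c ∣ M.1 i j}

/-- dimension of the stratum -/
def FM.st {N k : ℕ} (M : FM N k) : ℕ := 2 * (k - M.val)

end C73

end
end

-- part MP_94fa45_ag.C73.PA
section

/-! Poisson geometry, part 1. -/

section
/-! Trajectories preserve invariant ideals; the rank is constant on leaves. -/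

open Set Filter Topology

noncomputable section
namespace C73

variable {A : Type} [CommRing A] [Algebra ℂ A] {b : A → A → A}

theorem Traj.contOn {f : A} {γ : ℝ → Pt A} (h : Traj b f γ) (g : A) :
    ContinuousOn (fun s => γ s g) (Icc 0 1) := fun t ht => (h g t ht).continuousWithinAt

theorem Traj.rev {f : A} {γ : ℝ → Pt A} (h : Traj b f γ) :
    Traj (fun f g => -b f g) f fun s => γ (1 - s) := fun g t ht => by
  have h1 : HasDerivWithinAt (fun s : ℝ => 1 - s) (-1) (Icc 0 1) t :=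
    ((hasDerivAt_id t).const_sub 1).hasDerivWithinAt
  have := (h g (1 - t) ⟨by linarith [ht.2], by linarith [ht.1]⟩).scomp t h1
    fun s hs => ⟨by linarith [hs.2], by linarith [hs.1]⟩
  simpa only [map_neg, Function.comp_def, neg_smul, one_smul] using this

/-- a trajectory that starts in the zero set of an invariant ideal stays there -/
theorem Traj.vv {f : A} {γ : ℝ → Pt A} (h : Traj b f γ) {J : Ideal A} (hJ : J.FG)
    (hb : ∀ g ∈ J, b f g ∈ J) (h0 : γ 0 ∈ VV (J : Set A)) : ∀ t ∈ Icc (0 : ℝ) 1, γ t ∈ VV (J : Set A) := by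
  obtain ⟨n, g, hg⟩ := Submodule.fg_iff_exists_fin_generating_family.1 hJ
  have hgJ : ∀ i, g i ∈ J := fun i => hg ▸ Submodule.subset_span ⟨i, rfl⟩
  have hc : ∀ x ∈ J, ∃ c : Fin n → A, ∑ j, c j • g j = x := fun x hx =>
    (Submodule.mem_span_range_iff_exists_fun A).1 (hg ▸ hx)
  choose c hc' using fun i => hc _ (hb _ (hgJ i))
  have hbd : ∀ i j, ∃ K, ∀ s ∈ Icc (0 : ℝ) 1, ‖γ s (c i j)‖ ≤ K := fun i j =>
    isCompact_Icc.exists_bound_of_continuousOn (h.contOn _)
  choose K hK using hbd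
  have key := eq_zero_of_abs_deriv_le_mul_abs_self_of_eq_zero_right (a := 0) (b := 1)
    (f := fun s i => γ s (g i)) (f' := fun s i => γ s (b f (g i))) (K := ∑ i, ∑ j, |K i j|)
    (continuousOn_pi.2 fun i => h.contOn _)
    (fun s hs => hasDerivWithinAt_pi.2 fun i =>
      (h _ s (Ico_subset_Icc_self hs)).mono_of_mem_nhdsWithin (Icc_mem_nhdsGE_of_mem hs))
    (funext fun i => h0 _ (hgJ i)) fun s hs => by
      refine (pi_norm_le_iff_of_nonneg (by positivity)).2 fun i => ?_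
      rw [← hc' i, map_sum]
      refine (norm_sum_le _ _).trans (le_trans ?_ (mul_le_mul_of_nonneg_right
        (Finset.single_le_sum (f := fun i => ∑ j, |K i j|) (fun _ _ => by positivity)
          (Finset.mem_univ i)) (norm_nonneg _)))
      rw [Finset.sum_mul]
      refine Finset.sum_le_sum fun j _ => ?_
      rw [smul_eq_mul, map_mul, norm_mul]
      exact mul_le_mul ((hK i j s (Ico_subset_Icc_self hs)).trans (le_abs_self _))
        (norm_le_pi_norm (fun i => γ s (g i)) j) (norm_nonneg _) (abs_nonneg _)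
  intro t ht x hx
  obtain ⟨d, rfl⟩ := hc x hx
  rw [map_sum]
  exact Finset.sum_eq_zero fun j _ => by
    rw [smul_eq_mul, map_mul, show γ t (g j) = 0 from congrFun (key t ht) j, mul_zero]

/-- backwards version -/
theorem Traj.vv' {f : A} {γ : ℝ → Pt A} (h : Traj b f γ) {J : Ideal A} (hJ : J.FG)
    (hb : ∀ g ∈ J, b f g ∈ J) (h1 : γ 1 ∈ VV (J : Set A)) :
    ∀ t ∈ Icc (0 : ℝ) 1, γ t ∈ VV (J : Set A) := fun t ht => by
  have := h.rev.vv hJ (fun g hg => neg_mem (hb g hg)) (by simpa using h1) (1 - t)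
    ⟨by linarith [ht.2], by linarith [ht.1]⟩
  simpa using this

namespace IsPoi
variable (hb : IsPoi b)
include hb

theorem zero_left (g : A) : b 0 g = 0 := by simpa using hb.smul 0 0 g
theorem zero_right (g : A) : b g 0 = 0 := by rw [hb.anti, hb.zero_left, neg_zero]
theorem neg_left (f g : A) : b (-f) g = -b f g := by simpa using hb.smul (-1) f g
theorem add_right (f g h : A) : b f (g + h) = b f g + b f h := by
  rw [hb.anti, hb.add, hb.anti g, hb.anti h]; ring
theorem smul_right (c : ℂ) (f g : A) : b f (c • g) = c • b f g := by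
  rw [hb.anti, hb.smul, hb.anti g, smul_neg, neg_neg]
theorem one_right (f : A) : b f 1 = 0 := by
  have := hb.mul f 1 1
  simpa using this
theorem mul_left (f g h : A) : b (f * g) h = b f h * g + f * b g h := by
  rw [hb.anti, hb.mul, hb.anti h f, hb.anti h g]; ring

/-- the Hamiltonian derivation of `f` -/
def der (f : A) : Derivation ℂ A A where
  toFun := b f
  map_add' := hb.add_right f
  map_smul' c := hb.smul_right c f
  map_one_eq_zero' := hb.one_right f
  leibniz' g h := by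
    show b f (g * h) = g • b f h + h • b f g
    rw [hb.mul, smul_eq_mul, smul_eq_mul]; ring

theorem der_apply (f g : A) : hb.der f g = b f g := rfl

theorem sum_left {κ : Type} (s : Finset κ) (f : κ → A) (g : A) :
    b (∑ i ∈ s, f i) g = ∑ i ∈ s, b (f i) g := by
  classical
  induction s using Finset.induction_on with
  | empty => simp [hb.zero_left]
  | insert i s hi ih => rw [Finset.sum_insert hi, Finset.sum_insert hi, hb.add, ih]

theorem traj_rev {f : A} {γ : ℝ → Pt A} (h : Traj b f γ) : Traj b (-f) fun s => γ (1 - s) :=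
  fun g t ht => by rw [hb.neg_left]; exact h.rev g t ht

theorem traj_scale {f : A} {γ : ℝ → Pt A} (h : Traj b f γ) {τ : ℝ} (hτ : τ ∈ Icc (0 : ℝ) 1) :
    Traj b ((τ : ℂ) • f) fun s => γ (τ * s) := fun g t ht => by
  have hm : MapsTo (fun s => τ * s) (Icc (0 : ℝ) 1) (Icc 0 1) := fun s hs =>
    ⟨mul_nonneg hτ.1 hs.1, mul_le_one₀ hτ.2 hs.1 hs.2⟩
  have := (h g _ (hm ht)).scomp t ((hasDerivAt_id t).const_mul τ).hasDerivWithinAt hm
  rw [hb.smul, map_smul]
  simpa only [smul_eq_mul, Function.comp_def, mul_one, Complex.real_smul] using this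

theorem leaf_traj {f : A} {γ : ℝ → Pt A} (h : Traj b f γ) {τ : ℝ} (hτ : τ ∈ Icc (0 : ℝ) 1) :
    Leaf b (γ 0) (γ τ) :=
  Relation.EqvGen.rel _ _ ⟨_, _, hb.traj_scale h hτ, by simp, by simp⟩

end IsPoi

theorem der_prod (D : Derivation ℂ A A) {κ : Type} [DecidableEq κ] (s : Finset κ) (g : κ → A) :
    D (∏ i ∈ s, g i) = ∑ i ∈ s, D (g i) * ∏ j ∈ s.erase i, g j := by
  induction s using Finset.induction_on with
  | empty => simp
  | insert i s hi ih =>
    rw [Finset.prod_insert hi, Finset.sum_insert hi, Derivation.leibniz, ih, Finset.erase_insert hi,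
      smul_eq_mul, smul_eq_mul, Finset.mul_sum, add_comm, mul_comm]
    congr 1
    refine Finset.sum_congr rfl fun j hj => ?_
    rw [Finset.erase_insert_of_ne (by rintro rfl; exact hi hj),
      Finset.prod_insert fun h => hi (Finset.mem_of_mem_erase h)]
    ring

theorem der_det (D : Derivation ℂ A A) {κ : Type} [Fintype κ] [DecidableEq κ] (M : Matrix κ κ A) :
    D M.det = ∑ j, (M.updateCol j fun i => D (M i j)).det := by
  simp only [Matrix.det_apply, map_sum]
  rw [Finset.sum_comm]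
  refine Finset.sum_congr rfl fun σ _ => ?_
  rw [Units.smul_def, map_zsmul, der_prod, Finset.smul_sum]
  refine Finset.sum_congr rfl fun j _ => ?_
  rw [Units.smul_def, ← Finset.mul_prod_erase _ _ (Finset.mem_univ j), Matrix.updateCol_self]
  congr 2
  exact Finset.prod_congr rfl fun k hk => (Matrix.updateCol_ne (Finset.ne_of_mem_erase hk)).symm

omit [Algebra ℂ A] in
theorem sum_det_col_row {κ : Type} [Fintype κ] [DecidableEq κ] (M P : Matrix κ κ A) :
    ∑ j, (M.updateCol j fun i => P i j).det = ∑ i, (M.updateRow i (P i)).det := by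
  simp only [← Matrix.cramer_apply, ← Matrix.cramer_transpose_apply,
    Matrix.cramer_eq_adjugate_mulVec, ← Matrix.adjugate_transpose, Matrix.mulVec, dotProduct,
    Matrix.transpose_apply]
  exact Finset.sum_comm

/-- the ideal of `r`-minors of the bracket -/
def minI (b : A → A → A) (r : ℕ) : Ideal A :=
  Ideal.span {a | ∃ f g : Fin r → A, a = (Matrix.of fun i j => b (f i) (g j)).det}

theorem IsPoi.minI_mem (hb : IsPoi b) (r : ℕ) (h : A) : ∀ a ∈ minI b r, b h a ∈ minI b r := by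
  intro a ha
  induction ha using Submodule.span_induction with
  | zero => rw [hb.zero_right]; exact zero_mem _
  | add x y _ _ hx hy => rw [hb.add_right]; exact add_mem hx hy
  | smul c x hx' hx =>
    rw [smul_eq_mul, hb.mul]
    exact add_mem (Ideal.mul_mem_left _ _ hx') (Ideal.mul_mem_left _ _ hx)
  | mem x hx =>
    obtain ⟨f, g, rfl⟩ := hx
    rw [← hb.der_apply, der_det]
    have e : ∀ j, ((Matrix.of fun i j => b (f i) (g j)).updateCol j fun i =>
        hb.der h ((Matrix.of fun i j => b (f i) (g j)) i j)).det =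
        ((Matrix.of fun i j => b (f i) (g j)).updateCol j fun i =>
          (Matrix.of fun i j => b (b h (f i)) (g j)) i j).det +
        ((Matrix.of fun i j => b (f i) (g j)).updateCol j fun i => b (f i) (b h (g j))).det := by
      intro j
      rw [← Matrix.det_updateCol_add]
      congr 2
      funext i
      exact hb.jac h (f i) (g j)
    simp only [e, Finset.sum_add_distrib]
    rw [sum_det_col_row]
    refine add_mem (sum_mem fun i _ => Ideal.subset_span ⟨Function.update f i (b h (f i)), g, ?_⟩)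
      (sum_mem fun j _ => Ideal.subset_span ⟨f, Function.update g j (b h (g j)), ?_⟩)
    · congr 1; ext k l
      by_cases hk : k = i
      · subst hk; simp
      · simp [Matrix.updateRow_ne hk, Function.update_of_ne hk]
    · congr 1; ext k l
      by_cases hl : l = j
      · subst hl; simp
      · simp [Matrix.updateCol_ne hl, Function.update_of_ne hl]

/-- the set whose supremum is the rank -/
def rkS (b : A → A → A) (x : Pt A) : Set ℕ :=
  {r | ∃ f g : Fin r → A, (Matrix.of fun i j => x (b (f i) (g j))).det ≠ 0}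

theorem rk_eq (x : Pt A) : rk b x = sSup (rkS b x) := rfl

theorem zero_mem_rkS (x : Pt A) : 0 ∈ rkS b x := ⟨0, 0, by simp⟩

theorem rkS_pred {x : Pt A} {r : ℕ} (h : r + 1 ∈ rkS b x) : r ∈ rkS b x := by
  obtain ⟨f, g, h⟩ := h
  rw [Matrix.det_succ_row_zero] at h
  obtain ⟨j, -, hj⟩ := Finset.exists_ne_zero_of_sum_ne_zero h
  exact ⟨fun i => f i.succ, fun i => g (j.succAbove i), right_ne_zero_of_mul hj⟩

theorem rkS_le {x : Pt A} {r s : ℕ} (h : s ∈ rkS b x) (hr : r ≤ s) : r ∈ rkS b x := by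
  induction hr with
  | refl => exact h
  | step _ ih => exact ih (rkS_pred h)

theorem IsPoi.rkS_bdd (hb : IsPoi b) [Algebra.FiniteType ℂ A] :
    ∃ n, ∀ x : Pt A, ∀ r ∈ rkS b x, r ≤ n := by
  obtain ⟨s, hs⟩ := Algebra.FiniteType.out (R := ℂ) (A := A)
  refine ⟨s.card, fun x r ⟨f, g, h⟩ => ?_⟩
  have key : ∀ f : A, ∃ c : s → ℂ, ∀ g, x (b f g) = ∑ k, c k * x (b k g) := by
    classical
    intro f
    have hf : f ∈ Algebra.adjoin ℂ (s : Set A) := hs ▸ Algebra.mem_top
    induction hf using Algebra.adjoin_induction with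
    | mem y hy => exact ⟨Pi.single ⟨y, hy⟩ 1, fun g => by simp only [Finset.univ_eq_attach, Pi.single_apply, ite_mul, one_mul, zero_mul, Finset.sum_ite_eq', Finset.mem_attach, ↓ reduceIte]⟩
    | algebraMap r => exact ⟨0, fun g => by
        rw [Algebra.algebraMap_eq_smul_one, hb.smul, hb.anti, hb.one_right]; simp only [neg_zero, smul_zero, map_zero, Finset.univ_eq_attach, Pi.zero_apply, zero_mul, Finset.sum_const_zero]⟩
    | add y z _ _ hy hz =>
      obtain ⟨c, hc⟩ := hy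
      obtain ⟨d, hd⟩ := hz
      exact ⟨c + d, fun g => by simp only [hb.add, map_add, hc, Finset.univ_eq_attach, hd, Pi.add_apply, add_mul, Finset.sum_add_distrib]⟩
    | mul y z _ _ hy hz =>
      obtain ⟨c, hc⟩ := hy
      obtain ⟨d, hd⟩ := hz
      refine ⟨fun k => c k * x z + x y * d k, fun g => ?_⟩
      simp only [hb.mul_left, map_add, map_mul, hc, hd, Finset.sum_mul, Finset.mul_sum,
        ← Finset.sum_add_distrib]
      exact Finset.sum_congr rfl fun k _ => by ring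
  choose c hc using key
  have e : (Matrix.of fun i j => x (b (f i) (g j))) =
      (Matrix.of fun i k => c (f i) k) * (Matrix.of fun (k : s) j => x (b k (g j))) := by
    ext i j; simp only [Matrix.of_apply, hc (f i), Finset.univ_eq_attach, Matrix.mul_apply]
  have h1 := Matrix.rank_of_isUnit _ ((Matrix.isUnit_iff_isUnit_det _).2 (Ne.isUnit h))
  rw [e] at h1
  have h2 := (Matrix.rank_mul_le_left (Matrix.of fun i k => c (f i) k)
    (Matrix.of fun (k : s) j => x (b k (g j)))).trans (Matrix.rank_le_card_width _)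
  simpa only [ge_iff_le, h1, Fintype.card_fin, Fintype.card_coe] using h2

section
variable (hb : IsPoi b) [Algebra.FiniteType ℂ A]
include hb

theorem IsPoi.le_rk {x : Pt A} {r : ℕ} : r ≤ rk b x ↔ r ∈ rkS b x := by
  obtain ⟨n, hn⟩ := hb.rkS_bdd
  exact ⟨fun h => rkS_le (Nat.sSup_mem ⟨0, zero_mem_rkS x⟩ ⟨n, hn x⟩) h,
    fun h => le_csSup ⟨n, hn x⟩ h⟩

theorem IsPoi.rk_bdd : ∃ n, ∀ x : Pt A, rk b x ≤ n :=
  let ⟨n, hn⟩ := hb.rkS_bdd; ⟨n, fun x => hn x _ (hb.le_rk.1 le_rfl)⟩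

theorem IsPoi.rk_lt {x : Pt A} {r : ℕ} : rk b x < r ↔ x ∈ VV (minI b r : Set A) := by
  rw [← not_le, hb.le_rk]
  have e : ∀ f g : Fin r → A, (Matrix.of fun i j => x (b (f i) (g j))).det =
      x (Matrix.of fun i j => b (f i) (g j)).det := fun f g =>
    (RingHom.map_det (x : A →+* ℂ) (Matrix.of fun i j => b (f i) (g j))).symm
  refine ⟨fun h a ha => ?_, fun h ⟨f, g, hfg⟩ => hfg ?_⟩
  · have : minI b r ≤ RingHom.ker (x : A →+* ℂ) := Ideal.span_le.2 <| by
      rintro _ ⟨f, g, rfl⟩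
      by_contra h0
      exact h ⟨f, g, fun h1 => h0 ((e f g).symm.trans h1)⟩
    exact this ha
  · rw [e]; exact h _ (Ideal.subset_span ⟨f, g, rfl⟩)

theorem IsPoi.rk_leaf {x y : Pt A} (h : Leaf b x y) : rk b x = rk b y := by
  have : IsNoetherianRing A := Algebra.FiniteType.isNoetherianRing ℂ A
  induction h with
  | rel x y h =>
    obtain ⟨f, γ, h, rfl, rfl⟩ := h
    refine eq_of_forall_gt_iff fun r => ?_
    rw [hb.rk_lt, hb.rk_lt]
    exact ⟨fun h0 => h.vv (IsNoetherian.noetherian _) (hb.minI_mem r f) h0 1 ⟨zero_le_one, le_rfl⟩,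
      fun h1 => h.vv' (IsNoetherian.noetherian _) (hb.minI_mem r f) h1 0 ⟨le_rfl, zero_le_one⟩⟩
  | refl => rfl
  | symm _ _ _ ih => exact ih.symm
  | trans _ _ _ _ _ h1 h2 => exact h1.trans h2
end

theorem Pt.cont (a : A) : Continuous fun x : Pt A => x a :=
  (continuous_apply a).comp continuous_induced_dom

theorem isClosed_VV (S : Set A) : IsClosed (VV S : Set (Pt A)) := by
  have : VV S = ⋂ a ∈ S, {x : Pt A | x a = 0} := by ext; simp only [VV, mem_ofPred_eq, mem_iInter]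
  rw [this]
  exact isClosed_biInter fun a _ => isClosed_eq (Pt.cont a) continuous_const

theorem IsPoi.lsc (hb : IsPoi b) [Algebra.FiniteType ℂ A] (d : ℕ) :
    IsOpen {x : Pt A | d ≤ rk b x} := by
  convert (isClosed_VV (minI b d : Set A)).isOpen_compl using 1
  ext x; simp [← hb.rk_lt]

end C73
end
end

section
/-! The time-one flow of `∑ t_a V_a` is holomorphic in `(t, y)`. -/

open Set Filter Topology MvPolynomial
open scoped ContDiff

noncomputable section
namespace C73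

abbrev CI := C(Icc (0 : ℝ) 1, ℂ)

/-- extension of a path to `ℝ` -/
def CI.ext (g : CI) (s : ℝ) : ℂ := g (projIcc 0 1 zero_le_one s)

theorem CI.ext_cont (g : CI) : Continuous g.ext := g.continuous.comp continuous_projIcc

theorem CI.prim_deriv (g : CI) (s : ℝ) : HasDerivAt (fun s => ∫ τ in (0 : ℝ)..s, g.ext τ) (g.ext s) s :=
  (g.ext_cont.integral_hasStrictDerivAt 0 s).hasDerivAt

/-- the primitive vanishing at `0` -/
def primL : CI →L[ℂ] CI :=
  LinearMap.mkContinuous
    { toFun := fun g => ⟨fun s => ∫ τ in (0 : ℝ)..s, g.ext τ,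
        (continuous_iff_continuousAt.2 fun s => (g.prim_deriv s).continuousAt).comp
          continuous_subtype_val⟩
      map_add' := fun g h => ContinuousMap.ext fun s =>
        intervalIntegral.integral_add (g.ext_cont.intervalIntegrable _ _)
          (h.ext_cont.intervalIntegrable _ _)
      map_smul' := fun c g => ContinuousMap.ext fun s =>
        intervalIntegral.integral_smul c g.ext } 1 fun g => by
    refine (ContinuousMap.norm_le _ (by positivity)).2 fun s => ?_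
    refine (intervalIntegral.norm_integral_le_of_norm_le_const (C := ‖g‖)
      fun τ _ => g.norm_coe_le_norm _).trans ?_
    rw [sub_zero, abs_of_nonneg s.2.1, mul_comm]
    exact mul_le_mul_of_nonneg_right s.2.2 (norm_nonneg _)

theorem primL_apply (g : CI) (s : Icc (0 : ℝ) 1) : primL g s = ∫ τ in (0 : ℝ)..s, g.ext τ := rfl

theorem contDiff_aeval {σ R : Type} [Fintype σ] [NormedCommRing R] [NormedAlgebra ℂ R]
    (P : MvPolynomial σ ℂ) : ContDiff ℂ ω fun z : σ → R => aeval z P := by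
  induction P using MvPolynomial.induction_on with
  | C c => simpa using contDiff_const
  | add P Q hP hQ => simpa using hP.add hQ
  | mul_X P k hP => simpa using hP.mul (contDiff_apply ℂ R k)

theorem contDiff_eval {σ : Type} [Fintype σ] (P : MvPolynomial σ ℂ) :
    ContDiff ℂ ω fun z : σ → ℂ => eval z P := by
  simpa using contDiff_aeval (R := ℂ) P

theorem CI.aeval_apply {σ : Type} (z : σ → CI) (P : MvPolynomial σ ℂ) (s : Icc (0 : ℝ) 1) :
    (aeval z P : CI) s = eval (fun k => z k s) P := by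
  induction P using MvPolynomial.induction_on with
  | C c => simp
  | add P Q hP hQ => simp [hP, hQ]
  | mul_X P k hP => simp only [map_mul, aeval_X, ContinuousMap.mul_apply, hP, eval_X]

/-- holomorphic dependence of the flow of `∑ t_a V_a` on `(t, y)` -/
theorem exists_polyFlow {σ τ : Type} [Fintype σ] [Fintype τ] (V : τ → σ → MvPolynomial σ ℂ)
    (x0 : σ → ℂ) :
    ∃ Γ : (τ → ℂ) × (σ → ℂ) → ℝ → σ → ℂ,
      (∀ s, ContDiffAt ℂ ω (fun p => Γ p s) (0, x0)) ∧
      (∀ dt dy k, fderiv ℂ (fun p => Γ p 1) (0, x0) (dt, dy) k =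
        dy k + ∑ a, dt a * eval x0 (V a k)) ∧
      ∀ᶠ p in 𝓝 ((0, x0) : (τ → ℂ) × (σ → ℂ)), Γ p 0 = p.2 ∧ (p.1 = 0 → ∀ s, Γ p s = p.2) ∧
        ∀ s ∈ Icc (0 : ℝ) 1, HasDerivWithinAt (Γ p) (fun k => ∑ a, p.1 a * eval (Γ p s) (V a k))
          (Icc 0 1) s := by
  let cL : ℂ →L[ℂ] CI := ContinuousLinearMap.const ℂ (Icc (0 : ℝ) 1)
  let F : ((τ → ℂ) × (σ → ℂ)) × (σ → CI) → σ → CI := fun q k =>
    q.2 k - cL (q.1.2 k) - primL (∑ a, q.1.1 a • aeval q.2 (V a k))
  have hF : ContDiff ℂ ω F := contDiff_pi.2 fun k => by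
    refine (ContDiff.sub (by fun_prop) (cL.contDiff.comp (by fun_prop))).sub
      (primL.contDiff.comp (ContDiff.sum fun a _ => ?_))
    exact ContDiff.smul (f := fun q : ((τ → ℂ) × (σ → ℂ)) × (σ → CI) => q.1.1 a) (by fun_prop)
      ((contDiff_aeval (V a k)).comp contDiff_snd)
  let u : ((τ → ℂ) × (σ → ℂ)) × (σ → CI) := ((0, x0), fun k => cL (x0 k))
  have hz : ∀ (z : σ → CI) k, ∑ a, (0 : τ → ℂ) a • aeval z (V a k) = (0 : CI) := fun z k =>
    Finset.sum_eq_zero fun a _ => by ext; simp only [Pi.zero_apply, ContinuousMap.coe_smul, Pi.smul_apply, smul_eq_mul, zero_mul, ContinuousMap.zero_apply]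
  have hFu : F u = 0 := by funext k; simp only [F, u, hz]; simp
  have hd := (hF.differentiable (by simp) u).hasFDerivAt
  have h2 : fderiv ℂ F u ∘L .inr ℂ _ _ = ContinuousLinearMap.id ℂ _ := by
    have e1 := hd.comp u.2 (hasFDerivAt_prodMk_right u.1 u.2)
    have e2 : F ∘ (fun z => (u.1, z)) = fun z => z - u.2 := by
      funext z k; simp only [F, u, hz, Function.comp]; simp
    rw [e2] at e1
    exact e1.unique ((hasFDerivAt_id _).sub_const _)
  have hi : (fderiv ℂ F u ∘L .inr ℂ _ _).IsInvertible := by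
    rw [h2]; exact ⟨ContinuousLinearEquiv.refl ℂ _, rfl⟩
  let G := hF.contDiffAt.implicitFunction (by simp) hi
  have hG : ContDiffAt ℂ ω G (0, x0) := hF.contDiffAt.contDiffAt_implicitFunction (by simp) hi
  have hG0 : G (0, x0) = u.2 := hF.contDiffAt.implicitFunction_apply_self (by simp) hi
  have hE : ∀ᶠ p in 𝓝 ((0, x0) : (τ → ℂ) × (σ → ℂ)), ∀ k, G p k =
      cL (p.2 k) + primL (∑ a, p.1 a • aeval (G p) (V a k)) := by
    filter_upwards [hF.contDiffAt.eventually_apply_implicitFunction (by simp) hi] with p hp k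
    have := congrFun (hp.trans hFu) k
    simp only [F, Pi.zero_apply] at this
    rw [sub_sub, sub_eq_zero] at this
    exact this
  have hs : ∀ s, ContDiffAt ℂ ω (fun p k => (G p k).ext s) (0, x0) := fun s =>
    contDiffAt_pi.2 fun k => (ContinuousMap.evalCLM (M := ℂ) ℂ
      (projIcc (0 : ℝ) 1 zero_le_one s)).contDiff.contDiffAt.comp _ (contDiffAt_pi.1 hG k)
  refine ⟨fun p s k => (G p k).ext s, hs, fun dt dy k => ?_, ?_⟩
  · let Φ : τ → (τ → ℂ) × (σ → ℂ) → ℂ := fun a p =>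
      primL (aeval (G p) (V a k)) (projIcc (0 : ℝ) 1 zero_le_one 1)
    have hΦ : ∀ a, DifferentiableAt ℂ (Φ a) (0, x0) := fun a =>
      (((ContinuousMap.evalCLM (M := ℂ) ℂ (projIcc (0 : ℝ) 1 zero_le_one 1)).contDiff.comp
        (primL.contDiff.comp (contDiff_aeval (V a k)))).contDiffAt.comp _ hG).differentiableAt
        (by simp)
    have hΦ0 : ∀ a, Φ a (0, x0) = eval x0 (V a k) := fun a => by
      simp only [Φ, primL_apply, CI.ext, CI.aeval_apply, hG0]
      simp only [cL, ContinuousLinearMap.const_apply_apply, projIcc_right, Icc.mk_one, Icc.coe_one, intervalIntegral.integral_const, sub_zero, one_smul, u]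
    have e : (fun p => (G p k).ext 1) =ᶠ[𝓝 (0, x0)] fun p => p.2 k + ∑ a, p.1 a * Φ a p := by
      filter_upwards [hE] with p hp
      rw [hp k]
      simp only [CI.ext, cL, map_sum, map_smul, projIcc_right, Icc.mk_one, ContinuousMap.add_apply, ContinuousLinearMap.const_apply_apply, ContinuousMap.coe_sum, ContinuousMap.coe_smul, Finset.sum_apply, Pi.smul_apply, smul_eq_mul, Φ]
    have d1 : ∀ a, HasFDerivAt (fun p : (τ → ℂ) × (σ → ℂ) => p.1 a)
        (.proj a ∘L .fst ℂ (τ → ℂ) (σ → ℂ)) (0, x0) := fun a =>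
      (ContinuousLinearMap.proj a ∘L .fst ℂ (τ → ℂ) (σ → ℂ)).hasFDerivAt
    have d2 : HasFDerivAt (fun p : (τ → ℂ) × (σ → ℂ) => p.2 k)
        (.proj k ∘L .snd ℂ (τ → ℂ) (σ → ℂ)) (0, x0) :=
      (ContinuousLinearMap.proj k ∘L .snd ℂ (τ → ℂ) (σ → ℂ)).hasFDerivAt
    have d3 := (d2.fun_add (HasFDerivAt.fun_sum (u := Finset.univ) fun a _ =>
      (d1 a).fun_mul (hΦ a).hasFDerivAt)).congr_of_eventuallyEq e
    have d4 := (hasFDerivAt_pi'.1 ((hs 1).differentiableAt (by simp)).hasFDerivAt k).unique d3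
    have := congrArg (fun L => L (dt, dy)) d4
    simpa only [ContinuousLinearMap.comp_apply, ContinuousLinearMap.proj_apply, Pi.zero_apply, hΦ0, add_apply, ContinuousLinearMap.coe_snd', sum_apply, smul_apply, smul_eq_mul, zero_mul, ContinuousLinearMap.coe_fst', mul_comm, zero_add] using this
  · filter_upwards [hE] with p hp
    have hv : ∀ s k, (G p k).ext s = p.2 k + ∫ τ in (0 : ℝ)..(projIcc 0 1 zero_le_one s : ℝ),
        ∑ a, p.1 a * eval (fun k => (G p k).ext τ) (V a k) := fun s k => by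
      conv_lhs => rw [hp k]
      simp only [CI.ext, ContinuousMap.add_apply, primL_apply, ContinuousMap.sum_apply,
        ContinuousMap.smul_apply, CI.aeval_apply, smul_eq_mul]
      rfl
    refine ⟨funext fun k => by simpa only [projIcc_left, Icc.mk_zero, Icc.coe_zero, intervalIntegral.integral_same, add_zero] using hv 0 k, fun h0 s => funext fun k => by
      simpa [h0] using hv s k, fun s hs => hasDerivWithinAt_pi.2 fun k => ?_⟩
    have hc : Continuous fun τ => ∑ a, p.1 a * eval (fun k => (G p k).ext τ) (V a k) :=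
      continuous_finsetSum _ fun a _ => continuous_const.mul
        ((contDiff_eval (V a k)).continuous.comp (continuous_pi fun k => (G p k).ext_cont))
    refine (((hc.integral_hasStrictDerivAt 0 s).hasDerivAt.const_add (p.2 k)).hasDerivWithinAt).congr
      (fun s' hs' => ?_) ?_
    · rw [hv, projIcc_of_mem _ hs']
    · rw [hv, projIcc_of_mem _ hs]

end C73
end
end

section
/-! Coordinates on `Pt A`, the holomorphic flow on `Pt A`, uniqueness of trajectories. -/

open Set Filter Topology MvPolynomial TensorProduct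
open scoped ContDiff

noncomputable section
namespace C73

variable {A : Type} [CommRing A] [Algebra ℂ A] {b : A → A → A} {σ τ : Type}

/-- coordinates of a point with respect to a family `a` -/
def crd (a : σ → A) (x : Pt A) : σ → ℂ := fun k => x (a k)

theorem crd_eval (a : σ → A) (x : Pt A) (P : MvPolynomial σ ℂ) :
    x (aeval a P) = eval (crd a x) P := by
  induction P using MvPolynomial.induction_on with
  | C c => simpa using AlgHomClass.commutes x c
  | add P Q hP hQ => simp [hP, hQ]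
  | mul_X P k hP => simp [hP, crd]

theorem crd_cont (a : σ → A) : Continuous (crd a) := continuous_pi fun k => Pt.cont (a k)

section
variable {a : σ → A} (ha : Function.Surjective (aeval a : MvPolynomial σ ℂ →ₐ[ℂ] A))
include ha

theorem crd_inj : Function.Injective (crd a) := fun x y h => DFunLike.ext _ _ fun g => by
  obtain ⟨P, rfl⟩ := ha g
  rw [crd_eval, crd_eval, h]

theorem mem_range_crd {z : σ → ℂ} :
    z ∈ range (crd a) ↔ ∀ P : MvPolynomial σ ℂ, aeval a P = 0 → eval z P = 0 := by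
  refine ⟨?_, fun h => ?_⟩
  · rintro ⟨x, rfl⟩ P hP
    rw [← crd_eval, hP, map_zero]
  · let e := Ideal.quotientKerAlgEquivOfSurjective ha
    let x : A →ₐ[ℂ] ℂ := (Ideal.Quotient.liftₐ _ (aeval z) fun P hP => by
      simpa using h P hP).comp e.symm.toAlgHom
    refine ⟨x, funext fun k => ?_⟩
    have : e.symm (a k) = Ideal.Quotient.mk _ (X k) := by
      rw [AlgEquiv.symm_apply_eq]; simp [e]
    show x (a k) = _
    simp only [x, AlgHom.coe_comp, AlgEquiv.coe_toAlgHom, Function.comp_apply, this, Ideal.Quotient.liftₐ_apply, coe_aeval_eq_eval, Ideal.Quotient.lift_mk, eval_X]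

theorem isClosedEmbedding_crd : IsClosedEmbedding (crd a) := by
  refine ⟨⟨⟨le_antisymm (crd_cont a).le_induced ?_⟩, crd_inj ha⟩, ?_⟩
  · refine continuous_iff_le_induced.1 (@continuous_pi _ _ _ (.induced (crd a) _) _ _ fun g => ?_)
    obtain ⟨P, rfl⟩ := ha g
    rw [funext fun x => crd_eval a x P]
    exact @Continuous.comp _ _ _ (.induced (crd a) _) _ _ (crd a) (fun z => eval z P)
      (MvPolynomial.continuous_eval P) continuous_induced_dom
  · have : range (crd a) = ⋂ P ∈ {P : MvPolynomial σ ℂ | aeval a P = 0}, {z | eval z P = 0} := by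
      ext z; simp only [mem_range_crd ha, mem_ofPred_eq, mem_iInter]
    rw [this]
    exact isClosed_biInter fun P _ => isClosed_eq (MvPolynomial.continuous_eval P) continuous_const
end

theorem aeval_mkDer (a : σ → A) (D : Derivation ℂ A A) (V : σ → MvPolynomial σ ℂ)
    (hV : ∀ k, aeval a (V k) = D (a k)) (P : MvPolynomial σ ℂ) :
    aeval a (mkDerivation ℂ V P) = D (aeval a P) := by
  induction P using MvPolynomial.induction_on with
  | C c => simp
  | add P Q hP hQ => simp only [map_add, hP, hQ]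
  | mul_X P k hP => simp [hP, hV]

theorem traj_poly {z : ℝ → σ → ℂ} (V : σ → MvPolynomial σ ℂ)
    (hz : ∀ s ∈ Icc (0 : ℝ) 1, ∀ k, HasDerivWithinAt (fun s => z s k) (eval (z s) (V k)) (Icc 0 1) s) :
    Traj (fun _ P => mkDerivation ℂ V P) 0 fun s => (aeval (z s) : MvPolynomial σ ℂ →ₐ[ℂ] ℂ) := by
  intro P s hs
  show HasDerivWithinAt (fun s => aeval (z s) P) (aeval (z s) (mkDerivation ℂ V P)) _ _
  induction P using MvPolynomial.induction_on with
  | C c => simpa only [algHom_C, Algebra.algebraMap_self, RingHom.id_apply, derivation_C, aeval_eq_eval, map_zero] using hasDerivWithinAt_const _ _ _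
  | add P Q hP hQ => simpa only [aeval_eq_eval, map_add] using hP.fun_add hQ
  | mul_X P k hP => simpa only [aeval_eq_eval, map_mul, eval_X, mul_comm, Derivation.leibniz, mkDerivation_X, smul_eq_mul, map_add, add_comm] using hP.fun_mul (hz s hs k)

/-- a solution of the lifted equation that meets `Pt A` at an end point is a trajectory -/
theorem IsPoi.traj_of_lift (hb : IsPoi b) [Finite σ] {a : σ → A}
    (ha : Function.Surjective (aeval a : MvPolynomial σ ℂ →ₐ[ℂ] A)) {f : A}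
    {V : σ → MvPolynomial σ ℂ} (hV : ∀ k, aeval a (V k) = b f (a k)) {z : ℝ → σ → ℂ}
    (hz : ∀ s ∈ Icc (0 : ℝ) 1, ∀ k, HasDerivWithinAt (fun s => z s k) (eval (z s) (V k)) (Icc 0 1) s)
    (h : z 0 ∈ range (crd a) ∨ z 1 ∈ range (crd a)) :
    ∃ γ, Traj b f γ ∧ ∀ s ∈ Icc (0 : ℝ) 1, crd a (γ s) = z s := by
  have hT := traj_poly V hz
  have hD := aeval_mkDer a (hb.der f) V hV
  let J : Ideal (MvPolynomial σ ℂ) := RingHom.ker (aeval a : MvPolynomial σ ℂ →ₐ[ℂ] A)
  have hJ : ∀ P ∈ J, mkDerivation ℂ V P ∈ J := fun P hP => by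
    rw [RingHom.mem_ker] at hP ⊢
    rw [hD, hP, map_zero]
  have hr : ∀ s, z s ∈ range (crd a) ↔
      (aeval (z s) : MvPolynomial σ ℂ →ₐ[ℂ] ℂ) ∈ VV (J : Set (MvPolynomial σ ℂ)) := fun s =>
    mem_range_crd ha
  have key : ∀ s ∈ Icc (0 : ℝ) 1, ∃ x, crd a x = z s := fun s hs => (hr s).2 <| h.elim
    (fun h => hT.vv (IsNoetherian.noetherian _) hJ ((hr 0).1 h) s hs)
    fun h => hT.vv' (IsNoetherian.noetherian _) hJ ((hr 1).1 h) s hs
  have : Nonempty (Pt A) := h.elim (fun ⟨x, _⟩ => ⟨x⟩) fun ⟨x, _⟩ => ⟨x⟩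
  choose! γ hγ using key
  refine ⟨γ, fun g s hs => ?_, hγ⟩
  obtain ⟨P, rfl⟩ := ha g
  rw [← hb.der_apply, ← hD, crd_eval, hγ s hs]
  exact (hT P s hs).congr (fun s' hs' => by rw [crd_eval, hγ s' hs']; rfl)
    (by rw [crd_eval, hγ s hs]; rfl)

/-- the holomorphic family of flows of `∑ t_j f_j` near `x0`, in coordinates -/
theorem IsPoi.exists_flow' (hb : IsPoi b) [Fintype σ] [Fintype τ] {a : σ → A}
    (ha : Function.Surjective (aeval a : MvPolynomial σ ℂ →ₐ[ℂ] A)) (f : τ → A) (x0 : Pt A) :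
    ∃ Γ : (τ → ℂ) × (σ → ℂ) → ℝ → σ → ℂ,
      (∀ s, ContDiffAt ℂ ω (fun p => Γ p s) (0, crd a x0)) ∧
      (∀ dt dy k, fderiv ℂ (fun p => Γ p 1) (0, crd a x0) (dt, dy) k =
        dy k + ∑ j, dt j * x0 (b (f j) (a k))) ∧
      ∀ᶠ p in 𝓝 ((0, crd a x0) : (τ → ℂ) × (σ → ℂ)), Γ p 0 = p.2 ∧ (p.1 = 0 → ∀ s, Γ p s = p.2) ∧
        (p.2 ∈ range (crd a) ∨ Γ p 1 ∈ range (crd a) →
          ∃ γ, Traj b (∑ j, p.1 j • f j) γ ∧ ∀ s ∈ Icc (0 : ℝ) 1, crd a (γ s) = Γ p s) := by
  choose V hV using fun j k => ha (b (f j) (a k))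
  obtain ⟨Γ, h1, h2, h3⟩ := exists_polyFlow V (crd a x0)
  refine ⟨Γ, h1, fun dt dy k => by simp only [h2, ← crd_eval, hV], h3.mono fun p hp =>
    ⟨hp.1, hp.2.1, fun h => hb.traj_of_lift ha (V := fun k => ∑ j, p.1 j • V j k)
      (fun k => by simp only [map_sum, map_smul, hV, hb.sum_left, hb.smul]) (fun s hs k => ?_) (by rwa [hp.1])⟩⟩
  simpa only [map_sum, smul_eval] using hasDerivWithinAt_pi.1 (hp.2.2 s hs) k

section
variable {n : ℕ}

/-- the closed embedding given by a presentation -/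
def emb (π : MvPolynomial (Fin n) ℂ →ₐ[ℂ] A) (x : Pt A) : Fin n → ℂ := fun k => x (π (X k))

theorem aeval_gen (π : MvPolynomial (Fin n) ℂ →ₐ[ℂ] A) : aeval (fun k => π (X k)) = π :=
  (aeval_unique π).symm

theorem emb_eval (π : MvPolynomial (Fin n) ℂ →ₐ[ℂ] A) (x : Pt A) (P : MvPolynomial (Fin n) ℂ) :
    eval (emb π x) P = x (π P) := by
  have := crd_eval (fun k => π (X k)) x P
  rw [aeval_gen] at this
  exact this.symm

variable {π : MvPolynomial (Fin n) ℂ →ₐ[ℂ] A}

theorem emb_closed (hπ : Function.Surjective π) : IsClosedEmbedding (emb π) :=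
  isClosedEmbedding_crd (a := fun k => π (X k)) (by rwa [aeval_gen])

theorem IsPoi.exists_flow (hb : IsPoi b) {κ : Type} [Fintype κ] (hπ : Function.Surjective π)
    (f : κ → A) (x : Pt A) :
    ∃ Φ : (κ → ℂ) × (Fin n → ℂ) → Fin n → ℂ, ContDiffAt ℂ ω Φ (0, emb π x) ∧
      (∀ dt dy k, fderiv ℂ Φ (0, emb π x) (dt, dy) k =
        dy k + ∑ a, dt a * x (b (f a) (π (X k)))) ∧
      ∀ᶠ p in 𝓝 ((0, emb π x) : (κ → ℂ) × (Fin n → ℂ)), (p.1 = 0 → Φ p = p.2) ∧
        (Φ p ∈ range (emb π) → p.2 ∈ range (emb π)) ∧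
        ∀ y, emb π y = p.2 → ∃ γ, Traj b (∑ a, p.1 a • f a) γ ∧ γ 0 = y ∧ emb π (γ 1) = Φ p := by
  obtain ⟨Γ, h1, h2, h3⟩ := hb.exists_flow' (a := fun k => π (X k)) (by rwa [aeval_gen]) f x
  refine ⟨fun p => Γ p 1, h1 1, h2, h3.mono fun p hp => ⟨fun h => hp.2.1 h 1, fun h => ?_,
    fun y hy => ?_⟩⟩
  · obtain ⟨γ, -, hγ⟩ := hp.2.2 (Or.inr h)
    exact ⟨γ 0, (hγ 0 ⟨le_rfl, zero_le_one⟩).trans hp.1⟩
  · obtain ⟨γ, hγ, hγ'⟩ := hp.2.2 (Or.inl ⟨y, hy⟩)
    exact ⟨γ, hγ, (emb_closed hπ).injective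
      (((hγ' 0 ⟨le_rfl, zero_le_one⟩).trans hp.1).trans hy.symm), hγ' 1 ⟨zero_le_one, le_rfl⟩⟩
end

/-- uniqueness of trajectories -/
theorem IsPoi.traj_unique (hb : IsPoi b) [Algebra.FiniteType ℂ A] {f : A} {γ γ' : ℝ → Pt A}
    (h : Traj b f γ) (h' : Traj b f γ') (h0 : γ 0 = γ' 0) : ∀ s ∈ Icc (0 : ℝ) 1, γ s = γ' s := by
  let D : A ⊗[ℂ] A →ₗ[ℂ] A ⊗[ℂ] A :=
    (hb.der f).toLinearMap.rTensor A + (hb.der f).toLinearMap.lTensor A
  let δ : ℝ → Pt (A ⊗[ℂ] A) := fun s =>
    Algebra.TensorProduct.lift (γ s) (γ' s) fun _ _ => Commute.all _ _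
  have hδ : ∀ s x y, δ s (x ⊗ₜ y) = γ s x * γ' s y := fun s x y => rfl
  have hT : Traj (fun _ z => D z) 0 δ := fun z s hs => by
    induction z with
    | zero => simpa using hasDerivWithinAt_const _ _ _
    | add x y hx hy => simpa only [map_add] using hx.fun_add hy
    | tmul x y => simpa only [hδ, D, LinearMap.add_apply, LinearMap.rTensor_tmul, Derivation.coeFn_coe, hb.der_apply, LinearMap.lTensor_tmul, map_add] using (h x s hs).fun_mul (h' y s hs)
  have : Algebra.FiniteType ℂ (A ⊗[ℂ] A) := .trans (S := A) inferInstance inferInstance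
  have : IsNoetherianRing (A ⊗[ℂ] A) := Algebra.FiniteType.isNoetherianRing ℂ _
  let m := Algebra.TensorProduct.lmul' ℂ (S := A)
  have hm : ∀ z, m (D z) = b f (m z) := fun z => by
    induction z with
    | zero => simp only [map_zero, hb.zero_right]
    | add x y hx hy => simp only [map_add, hx, hy, hb.add_right]
    | tmul x y => simp [D, m, hb.der_apply, hb.mul]
  have h0' : ∀ z, δ 0 z = γ 0 (m z) := fun z => by
    induction z with
    | zero => simp only [map_zero]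
    | add x y hx hy => simp only [map_add, hx, hy]
    | tmul x y => simp [hδ, m, h0]
  have key := hT.vv (J := RingHom.ker m) (IsNoetherian.noetherian _)
    (fun z hz => by rw [RingHom.mem_ker] at hz ⊢; rw [hm, hz, hb.zero_right])
    fun z hz => by rw [h0', show m z = 0 from hz, map_zero]
  intro s hs
  refine DFunLike.ext _ _ fun g => sub_eq_zero.1 ?_
  have := key s hs (g ⊗ₜ 1 - 1 ⊗ₜ g) (by simp [RingHom.mem_ker, m])
  simpa only [map_sub, hδ, map_one, mul_one, one_mul] using this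

end C73
end
end

section
/-! Flow-box charts. -/

open Set Filter Topology MvPolynomial Function Metric
open scoped ContDiff

noncomputable section
namespace C73
variable {A : Type} [CommRing A] [Algebra ℂ A] {b : A → A → A}

/-- a flow-box chart at `x`: flows of the `f a`, coordinates `g j`, transversal slice `N` -/
structure Box (b : A → A → A) {κ : Type} [Fintype κ] (f g : κ → A) (x : Pt A) where
  O : Set (Pt A)
  ε : ℝ
  e : Pt A → (κ → ℂ) → Pt A
  pos : 0 < ε
  opn : IsOpen O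
  mem : x ∈ O
  zero : ∀ ν ∈ O, (∀ j, ν (g j) = x (g j)) → e ν 0 = ν
  val : ∀ ν ∈ O, ∀ v ∈ ball (0 : κ → ℂ) ε, ∀ j, e ν v (g j) = x (g j) + v j
  traj : ∀ ν ∈ O, ∀ v ∈ ball (0 : κ → ℂ) ε,
    ∃ (t : κ → ℂ) (γ : ℝ → Pt A), Traj b (∑ a, t a • f a) γ ∧ γ 0 = ν ∧ γ 1 = e ν v
  emb : IsOpenEmbedding fun p : ↥(O ∩ {ν | ∀ j, ν (g j) = x (g j)}) × ball (0 : κ → ℂ) ε =>
    e p.1 p.2
  hol : ∀ ν ∈ O, ∀ a, DifferentiableOn ℂ (fun v => e ν v a) (ball 0 ε)

theorem IsPoi.fderiv_eval (hb : IsPoi b) {n : ℕ} (π : MvPolynomial (Fin n) ℂ →ₐ[ℂ] A) (x : Pt A)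
    (f : A) (P : MvPolynomial (Fin n) ℂ) :
    fderiv ℂ (fun z => eval z P) (emb π x) (fun k => x (b f (π (X k)))) = x (b f (π P)) := by
  have d := fun P : MvPolynomial (Fin n) ℂ =>
    ((contDiff_eval P).differentiable (by simp) (emb π x)).hasFDerivAt
  induction P using MvPolynomial.induction_on with
  | C c =>
    rw [algHom_C, Algebra.algebraMap_eq_smul_one, hb.smul_right, hb.one_right]; simp
  | add P Q hP hQ =>
    simp only [map_add, hb.add_right, ← hP, ← hQ]
    rw [((d P).fun_add (d Q)).fderiv]; rfl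
  | mul_X P k hP =>
    simp only [map_mul, hb.mul, map_add, ← hP, eval_X]
    rw [((d P).fun_mul (hasFDerivAt_apply k _)).fderiv]
    simp only [emb_eval, emb, add_apply, smul_apply, ContinuousLinearMap.proj_apply, smul_eq_mul]; ring

theorem exists_lh {E : Type} [NormedAddCommGroup E] [NormedSpace ℂ E] [FiniteDimensional ℂ E]
    {Θ : E → E} {a : E} (h : ContDiffAt ℂ ω Θ a) (hi : Injective (fderiv ℂ Θ a)) :
    ∃ H : OpenPartialHomeomorph E E, ⇑H = Θ ∧ a ∈ H.source ∧ ContDiffAt ℂ ω H.symm (Θ a) := by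
  have := FiniteDimensional.complete ℂ E
  let L : E ≃L[ℂ] E := (LinearEquiv.ofInjectiveEndo (fderiv ℂ Θ a).toLinearMap hi).toContinuousLinearEquiv
  have hd : HasFDerivAt Θ (L : E →L[ℂ] E) a := (h.differentiableAt (by simp)).hasFDerivAt
  exact ⟨h.toOpenPartialHomeomorph Θ hd (by simp), rfl,
    h.mem_toOpenPartialHomeomorph_source hd (by simp), h.to_localInverse hd (by simp)⟩

theorem IsPoi.exists_box (hb : IsPoi b) [Algebra.FiniteType ℂ A] {κ : Type} [Fintype κ]
    [DecidableEq κ] {f g : κ → A} {x : Pt A} (hd : (Matrix.of fun i j => x (b (f i) (g j))).det ≠ 0)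
    {U : Set (Pt A)} (hU : U ∈ 𝓝 x) :
    ∃ B : Box b f g x, ∀ ν ∈ B.O, ∀ v ∈ ball (0 : κ → ℂ) B.ε, B.e ν v ∈ U := by
  obtain ⟨n, π, hπ⟩ := Algebra.FiniteType.iff_quotient_mvPolynomial''.1 ‹_›
  have hc := emb_closed hπ
  choose P hP using fun j => hπ (g j)
  obtain ⟨Φ, Φ1, Φ2, Φ3⟩ := hb.exists_flow hπ f x
  set z0 := emb π x
  let G : (Fin n → ℂ) → κ → ℂ := fun z j => eval z (P j) - x (g j)
  have G1 : ContDiff ℂ ω G := contDiff_pi.2 fun j => (contDiff_eval _).sub contDiff_const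
  have G2 : ∀ y j, G (emb π y) j = y (g j) - x (g j) := fun y j => by simp [G, emb_eval, hP]
  have G0 : G z0 = 0 := funext fun j => by simp [z0, G2]
  have Φ0 : Φ (0, z0) = z0 := Φ3.self_of_nhds.1 rfl
  have dG := (G1.differentiable (by simp) z0).hasFDerivAt
  have dΦ := (Φ1.differentiableAt (by simp)).hasFDerivAt
  have key : ∀ dt : κ → ℂ, fderiv ℂ G z0 (fun k => ∑ a, dt a * x (b (f a) (π (X k)))) = 0 →
      dt = 0 := fun dt h => Matrix.eq_zero_of_vecMul_eq_zero hd (funext fun j => by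
    have e1 := (hasFDerivAt_pi'.1 dG j).unique
      (((contDiff_eval (P j)).differentiable (by simp) z0).hasFDerivAt.sub_const (x (g j)))
    have e2 := hb.fderiv_eval π x (∑ a, dt a • f a) (P j)
    simp only [hb.sum_left, hb.smul, map_sum, map_smul, smul_eq_mul, hP] at e2
    have e3 := congrArg (fun L => L fun k => ∑ a, dt a * x (b (f a) (π (X k)))) e1
    simp only [ContinuousLinearMap.comp_apply, h] at e3
    exact e2.symm.trans e3.symm)
  have Φ2' : ∀ dt dy, fderiv ℂ Φ (0, z0) (dt, dy) =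
      dy + fun k => ∑ a, dt a * x (b (f a) (π (X k))) := fun dt dy => funext (Φ2 dt dy)
  obtain ⟨H, H1, H2, H3⟩ := exists_lh (Θ := fun p => (G (Φ p), p.2)) (a := (0, z0))
    ((G1.contDiffAt.comp _ Φ1).prodMk contDiffAt_snd) (by
      have dG' : HasFDerivAt G (fderiv ℂ G z0) (Φ (0, z0)) := Φ0.symm ▸ dG
      rw [HasFDerivAt.fderiv (f := fun p => (G (Φ p), p.2))
        ((dG'.comp (0, z0) dΦ).prodMk hasFDerivAt_snd)]
      refine (injective_iff_map_eq_zero _).2 fun ⟨dt, dy⟩ h => ?_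
      obtain rfl : dy = 0 := congrArg Prod.snd h
      have h1 : fderiv ℂ G z0 (fderiv ℂ Φ (0, z0) (dt, 0)) = 0 := congrArg Prod.fst h
      rw [Φ2', zero_add] at h1
      rw [key dt h1]; rfl)
  obtain ⟨K, K1, K2, -⟩ := exists_lh (Θ := fun p => (G p.2, Φ p)) (a := (0, z0))
    ((G1.contDiffAt.comp _ contDiffAt_snd).prodMk Φ1) (by
      rw [HasFDerivAt.fderiv (f := fun p : (κ → ℂ) × (Fin n → ℂ) => (G p.2, Φ p))
        ((HasFDerivAt.comp (f := Prod.snd) (0, z0) dG hasFDerivAt_snd).prodMk dΦ)]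
      refine (injective_iff_map_eq_zero _).2 fun ⟨dt, dy⟩ h => ?_
      have h1 : fderiv ℂ G z0 dy = 0 := congrArg Prod.fst h
      have h2 : fderiv ℂ Φ (0, z0) (dt, dy) = 0 := congrArg Prod.snd h
      rw [Φ2', add_eq_zero_iff_neg_eq] at h2
      obtain rfl := key dt (by rw [← h2, map_neg, h1, neg_zero])
      have : dy = 0 := neg_eq_zero.1 (h2.trans (by ext; simp only [Pi.zero_apply, zero_mul, Finset.sum_const_zero]))
      rw [this]; rfl)
  simp only [Φ0, G0] at H3
  have H0 : H (0, z0) = (0, z0) := by rw [H1]; simp only [Φ0, G0]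
  have S0 : H.symm (0, z0) = (0, z0) := by rw [← H0, H.left_inv H2, H0]
  obtain ⟨U', U1, U2⟩ := hc.isInducing.nhds_eq_comap x ▸ hU |> mem_comap.1
  have T : Tendsto H.symm (𝓝 (0, z0)) (𝓝 (0, z0)) := by simpa only [ContinuousAt, S0] using H3.continuousAt
  have T2 : Tendsto (fun q : (κ → ℂ) × (Fin n → ℂ) => ((0 : κ → ℂ), q.2)) (𝓝 (0, z0)) (𝓝 (0, z0)) :=
    (continuous_const.prodMk continuous_snd).continuousAt
  have TΦ : Tendsto Φ (𝓝 (0, z0)) (𝓝 z0) := by simpa only [ContinuousAt, Φ0] using Φ1.continuousAt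
  obtain ⟨ε, e0, e1⟩ := Metric.eventually_nhds_iff_ball.1
    ((T.eventually (Φ3.and ((Φ1.eventually (by simp)).and ((K.open_source.eventually_mem K2).and
      (TΦ.eventually U1))))).and
      ((H3.eventually (by simp)).and ((H.open_target.eventually_mem (H0 ▸ H.map_source H2)).and
        (T2.eventually ((H.open_source.eventually_mem H2).and Φ3)))))
  have : Nonempty (Pt A) := ⟨x⟩
  let e : Pt A → (κ → ℂ) → Pt A := fun ν v => invFun (emb π) (Φ (H.symm (v, emb π ν)))
  have m : ∀ {v z}, z ∈ ball z0 ε → v ∈ ball 0 ε → (v, z) ∈ ball ((0 : κ → ℂ), z0) ε :=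
    fun h h' => by rw [← ball_prod_same]; exact ⟨h', h⟩
  have r : ∀ q ∈ ball ((0 : κ → ℂ), z0) ε, G (Φ (H.symm q)) = q.1 ∧ (H.symm q).2 = q.2 :=
    fun q hq => by have := H.right_inv (e1 q hq).2.2.1; rw [H1] at this; exact Prod.ext_iff.1 this
  have tr : ∀ ν, emb π ν ∈ ball z0 ε → ∀ v ∈ ball (0 : κ → ℂ) ε, ∃ γ,
      Traj b (∑ a, (H.symm (v, emb π ν)).1 a • f a) γ ∧ γ 0 = ν ∧
        emb π (γ 1) = Φ (H.symm (v, emb π ν)) := fun ν h v h' =>
    (e1 _ (m h h')).1.1.2.2 ν (r _ (m h h')).2.symm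
  have ee : ∀ ν, emb π ν ∈ ball z0 ε → ∀ v ∈ ball (0 : κ → ℂ) ε,
      emb π (e ν v) = Φ (H.symm (v, emb π ν)) := fun ν h v h' =>
    invFun_eq (let ⟨γ, _, _, h⟩ := tr ν h v h'; ⟨_, h⟩)
  have val : ∀ ν, emb π ν ∈ ball z0 ε → ∀ v ∈ ball (0 : κ → ℂ) ε, ∀ j,
      e ν v (g j) = x (g j) + v j := fun ν h v h' j => by
    have := congrFun (r _ (m h h')).1 j
    rw [← ee ν h v h', G2] at this
    exact eq_add_of_sub_eq' this
  have Gs : ∀ ν : Pt A, (∀ j, ν (g j) = x (g j)) ↔ G (emb π ν) = 0 := fun ν => by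
    simp [_root_.funext_iff, G2, sub_eq_zero]
  let L := H.symm.trans K
  have Ls : ball ((0 : κ → ℂ), z0) ε ⊆ L.source := fun q hq => ⟨(e1 q hq).2.2.1, (e1 q hq).1.2.2.1⟩
  have Lq : ∀ q ∈ ball ((0 : κ → ℂ), z0) ε, L q = (G q.2, Φ (H.symm q)) := fun q hq => by
    show K (H.symm q) = _
    rw [K1, ← (r q hq).2]
  let N := emb π ⁻¹' ball z0 ε ∩ {ν | ∀ j, ν (g j) = x (g j)}
  let j : N × ball (0 : κ → ℂ) ε → (κ → ℂ) × (Fin n → ℂ) := fun p => (p.2, emb π p.1)
  have jb : ∀ p, j p ∈ ball ((0 : κ → ℂ), z0) ε := fun p => m p.1.2.1 p.2.2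
  have ji : IsEmbedding j := (Homeomorph.prodComm _ _).isEmbedding.comp
    ((hc.isEmbedding.comp .subtypeVal).prodMap .subtypeVal)
  have Lj : ∀ p, L (j p) = (0, emb π (e p.1 p.2)) := fun p => by
    rw [Lq _ (jb p), ee _ p.1.2.1 _ p.2.2, (Gs _).1 p.1.2.2]
  refine ⟨⟨emb π ⁻¹' ball z0 ε, ε, e, e0, isOpen_ball.preimage hc.continuous, mem_ball_self e0,
    fun ν h h' => hc.injective ?_, val, fun ν h v h' => ?_, ?_, fun ν h a v h' => ?_⟩,
    fun ν h v h' => U2 ?_⟩
  · have h1 := (e1 _ (m h (mem_ball_self e0))).2.2.2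
    have h2 : H (0, emb π ν) = (0, emb π ν) := by rw [H1]; simp only [h1.2.1 rfl, (Gs ν).1 h']
    rw [ee ν h 0 (mem_ball_self e0), ← h2, H.left_inv h1.1, h1.2.1 rfl]
  · obtain ⟨γ, a, b, c⟩ := tr ν h v h'
    exact ⟨_, γ, a, b, hc.injective (c.trans (ee ν h v h').symm)⟩
  · refine .of_continuous_injective_isOpenMap (hc.isInducing.continuous_iff.2 ?_)
      (fun p q h => ji.injective (L.injOn (Ls (jb p)) (Ls (jb q)) (by rw [Lj, Lj, h]))) fun O hO => ?_
    · exact (continuous_snd.comp (L.continuousOn.comp_continuous ji.continuous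
        fun p => Ls (jb p))).congr fun p => congrArg Prod.snd (Lj p)
    · obtain ⟨O', o1, rfl⟩ := ji.isInducing.isOpen_iff.1 hO
      convert ((L.isOpen_image_of_subset_source (o1.inter isOpen_ball)
        (inter_subset_right.trans Ls)).preimage (continuous_const.prodMk hc.continuous :
          Continuous fun y => ((0 : κ → ℂ), emb π y))) using 1
      ext y
      refine ⟨fun ⟨p, hp, h⟩ => ⟨j p, ⟨hp, jb p⟩, by rw [Lj, ← h]⟩, fun ⟨q, hq, h⟩ => ?_⟩
      rw [Lq q hq.2, Prod.mk.injEq] at h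
      obtain ⟨ν, hν⟩ := (e1 q hq.2).1.1.2.1 ⟨y, h.2.symm⟩
      rw [(r q hq.2).2] at hν
      have hq' := hq.2
      rw [← ball_prod_same] at hq'
      have e2 : j (⟨ν, by rw [mem_preimage, hν]; exact hq'.2, (Gs ν).2 (hν ▸ h.1)⟩, ⟨q.1, hq'.1⟩) = q :=
        Prod.ext rfl hν
      refine ⟨_, by rw [mem_preimage, e2]; exact hq.1, hc.injective ?_⟩
      exact (congrArg Prod.snd (Lj _)).symm.trans (by rw [e2, Lq q hq.2]; exact h.2)
  · obtain ⟨Q, rfl⟩ := hπ a
    have h1 := e1 _ (m h h')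
    refine (DifferentiableAt.differentiableWithinAt (f := fun v => eval (Φ (H.symm (v, emb π ν))) Q)
      ?_).congr (fun w hw => ?_) ?_
    · exact ((contDiff_eval Q).differentiable (by simp) _).comp v
        ((h1.1.2.1.differentiableAt (by simp)).comp v ((h1.2.1.differentiableAt (by simp)).comp v
          (differentiableAt_id.prodMk (differentiableAt_const _))))
    · rw [← ee ν h w hw, emb_eval]
    · rw [← ee ν h v h', emb_eval]
  · rw [mem_preimage]; exact ee ν h v h' ▸ (e1 _ (m h h')).1.2.2.2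

end C73
end
end

section
/-! The torus action of a grading and the hyperbolic flow on `Pt A`. -/

open Set Filter Topology MvPolynomial

noncomputable section
namespace C73

variable {A : Type} [CommRing A] [Algebra ℂ A] {b : A → A → A} {𝒜 : ℤ → Submodule ℂ A}

namespace IsGr
variable (hg : IsGr b 𝒜)
include hg

theorem ind {P : A → Prop} (h0 : P 0) (hh : ∀ n, ∀ a ∈ 𝒜 n, P a)
    (ha : ∀ x y, P x → P y → P (x + y)) (a : A) : P a :=
  Submodule.iSup_induction 𝒜 (motive := P) (hg.int.submodule_iSup_eq_top ▸ Submodule.mem_top)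
    hh h0 ha

theorem one_mem : (1 : A) ∈ 𝒜 0 := hg.mon.one_mem

theorem mul_mem {m n : ℤ} {f g : A} (hf : f ∈ 𝒜 m) (hg' : g ∈ 𝒜 n) : f * g ∈ 𝒜 (m + n) :=
  hg.mon.mul_mem hf hg'

/-- a linear map that is `c n` on the part of weight `n` -/
theorem exists_lin (c : ℤ → ℂ) : ∃ L : A →ₗ[ℂ] A, ∀ n, ∀ a ∈ 𝒜 n, L a = c n • a := by
  let := hg.int.chooseDecomposition
  refine ⟨DirectSum.toModule ℂ ℤ A (fun n => c n • (𝒜 n).subtype) ∘ₗ
    (DirectSum.decomposeLinearEquiv 𝒜).toLinearMap, fun n a ha => ?_⟩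
  show DirectSum.toModule ℂ ℤ A (fun n => c n • (𝒜 n).subtype) (DirectSum.decompose 𝒜 a) = _
  rw [DirectSum.decompose_of_mem 𝒜 ha]
  exact DirectSum.toModule_lof ℂ (φ := fun n => c n • (𝒜 n).subtype) n ⟨a, ha⟩

theorem exists_act : ∃ act : ℂˣ → A →ₐ[ℂ] A,
    ∀ s n, ∀ a ∈ 𝒜 n, act s a = ((s ^ n : ℂˣ) : ℂ) • a := by
  choose L hL using fun s : ℂˣ => hg.exists_lin fun n => ((s ^ n : ℂˣ) : ℂ)
  refine ⟨fun s => AlgHom.ofLinearMap (L s) (by simp [hL s 0 1 hg.one_mem]) fun x y => ?_, hL⟩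
  induction x using hg.ind with
  | h0 => simp
  | ha x x' hx hx' => simp only [add_mul, map_add, hx, hx']
  | hh m x hx =>
    induction y using hg.ind with
    | h0 => simp only [mul_zero, map_zero]
    | ha y y' hy hy' => simp only [mul_add, map_add, hy, hy']
    | hh n y hy =>
      rw [hL s _ _ (hg.mul_mem hx hy), hL s _ _ hx, hL s _ _ hy, zpow_add, Units.val_mul,
        smul_mul_smul_comm]

/-- the action of `ℂˣ` on `A` -/
def act (s : ℂˣ) : A →ₐ[ℂ] A := hg.exists_act.choose s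

theorem act_of (s : ℂˣ) {n : ℤ} {a : A} (ha : a ∈ 𝒜 n) :
    hg.act s a = ((s ^ n : ℂˣ) : ℂ) • a := hg.exists_act.choose_spec s n a ha

theorem act_one (a : A) : hg.act 1 a = a := by
  induction a using hg.ind with
  | h0 => simp
  | ha x y hx hy => rw [map_add, hx, hy]
  | hh n a ha => simp [hg.act_of _ ha]

theorem act_mul (s s' : ℂˣ) (a : A) : hg.act (s * s') a = hg.act s (hg.act s' a) := by
  induction a using hg.ind with
  | h0 => simp
  | ha x y hx hy => simp only [map_add, hx, hy]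
  | hh n a ha => simp only [hg.act_of _ ha, map_smul, smul_smul, mul_zpow, Units.val_mul, mul_comm]

theorem act_br (hb : IsPoi b) (s : ℂˣ) (f g : A) :
    hg.act s (b f g) = b (hg.act s f) (hg.act s g) := by
  induction f using hg.ind with
  | h0 => simp [hb.zero_left]
  | ha x x' hx hx' => simp only [hb.add, map_add, hx, hx']
  | hh m x hx =>
    induction g using hg.ind with
    | h0 => simp [hb.zero_right]
    | ha y y' hy hy' => simp only [hb.add_right, map_add, hy, hy']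
    | hh n y hy =>
      rw [hg.act_of s (hg.br _ _ _ _ hx hy), hg.act_of s hx, hg.act_of s hy, hb.smul,
        hb.smul_right, zpow_add, Units.val_mul, smul_smul]

/-- the action of `ℂˣ` on points -/
def actP (s : ℂˣ) (x : Pt A) : Pt A := AlgHom.comp x (hg.act s)

theorem actP_apply (s : ℂˣ) (x : Pt A) (a : A) : hg.actP s x a = x (hg.act s a) := rfl

theorem actP_of (s : ℂˣ) (x : Pt A) {n : ℤ} {a : A} (ha : a ∈ 𝒜 n) :
    hg.actP s x a = ((s ^ n : ℂˣ) : ℂ) * x a := by
  rw [actP_apply, hg.act_of s ha, map_smul, smul_eq_mul]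

theorem actP_one (x : Pt A) : hg.actP 1 x = x :=
  DFunLike.ext _ _ fun a => by rw [actP_apply, act_one]

theorem actP_mul (s s' : ℂˣ) (x : Pt A) : hg.actP (s * s') x = hg.actP s (hg.actP s' x) :=
  DFunLike.ext _ _ fun a => by rw [actP_apply, actP_apply, actP_apply, mul_comm, act_mul]

theorem actP_cont : Continuous fun p : ℂˣ × Pt A => hg.actP p.1 p.2 := by
  refine continuous_induced_rng.2 (continuous_pi fun a => ?_)
  show Continuous fun p : ℂˣ × Pt A => hg.actP p.1 p.2 a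
  induction a using hg.ind with
  | h0 => simpa using continuous_const
  | ha x y hx hy => simpa only [map_add] using hx.fun_add hy
  | hh n a ha =>
    simp only [hg.actP_of _ _ ha]
    exact (Units.continuous_val.comp (continuous_fst.zpow n)).mul ((Pt.cont a).comp continuous_snd)

theorem rk_actP (hb : IsPoi b) (s : ℂˣ) (x : Pt A) : rk b (hg.actP s x) = rk b x := by
  have key : ∀ (s : ℂˣ) (x : Pt A), rkS b (hg.actP s x) ⊆ rkS b x := by
    rintro s x r ⟨f, g, h⟩
    exact ⟨fun i => hg.act s (f i), fun i => hg.act s (g i), by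
      simpa only [actP_apply, hg.act_br hb] using h⟩
  rw [rk_eq, rk_eq]
  congr 1
  refine (key s x).antisymm ?_
  simpa only [← actP_mul, inv_mul_cancel, actP_one] using key s⁻¹ (hg.actP s x)

theorem traj_actP (hb : IsPoi b) (s : ℂˣ) {f : A} {γ : ℝ → Pt A} (h : Traj b (hg.act s f) γ) :
    Traj b f fun t => hg.actP s (γ t) := fun g t ht => by
  simpa only [actP_apply, hg.act_br hb] using h (hg.act s g) t ht

/-- homogeneous generators -/
theorem exists_gen [Algebra.FiniteType ℂ A] : ∃ (n : ℕ) (a : Fin n → A) (w : Fin n → ℤ),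
    (∀ k, a k ∈ 𝒜 (w k)) ∧ Function.Surjective (aeval a : MvPolynomial (Fin n) ℂ →ₐ[ℂ] A) := by
  obtain ⟨s, hs⟩ := Algebra.FiniteType.out (R := ℂ) (A := A)
  have key : ∀ x : A, ∃ T : Set A, T.Finite ∧ (∀ a ∈ T, ∃ n, a ∈ 𝒜 n) ∧ x ∈ Algebra.adjoin ℂ T := by
    intro x
    induction x using hg.ind with
    | h0 => exact ⟨∅, finite_empty, by simp, zero_mem _⟩
    | hh n a ha => exact ⟨{a}, finite_singleton a, by simpa using ⟨n, ha⟩,
        Algebra.subset_adjoin rfl⟩
    | ha x y hx hy =>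
      obtain ⟨T, h1, h2, h3⟩ := hx
      obtain ⟨T', h1', h2', h3'⟩ := hy
      exact ⟨T ∪ T', h1.union h1', fun a ha => ha.elim (h2 a) (h2' a),
        add_mem (Algebra.adjoin_mono subset_union_left h3)
          (Algebra.adjoin_mono subset_union_right h3')⟩
  choose T h1 h2 h3 using key
  obtain ⟨n, a, ha, hr⟩ := (s.finite_toSet.biUnion fun x _ => h1 x).fin_param
  have hw : ∀ k, ∃ m, a k ∈ 𝒜 m := fun k => by
    obtain ⟨x, -, hx⟩ := mem_iUnion₂.1 (hr ▸ mem_range_self k : a k ∈ ⋃ x ∈ (s : Set A), T x)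
    exact h2 x _ hx
  choose w hw using hw
  refine ⟨n, a, w, hw, ?_⟩
  rw [← AlgHom.range_eq_top, ← Algebra.adjoin_range_eq_range_aeval, eq_top_iff, ← hs, hr]
  exact Algebra.adjoin_le fun x hx =>
    Algebra.adjoin_mono (subset_biUnion_of_mem (u := T) hx) (h3 x)

/-- a point-wise identity on homogeneous elements can be checked on monomials in homogeneous
generators -/
theorem mono_ind {σ : Type} {a : σ → A} {w : σ → ℤ} (hw : ∀ k, a k ∈ 𝒜 (w k))
    (ha : Function.Surjective (aeval a : MvPolynomial σ ℂ →ₐ[ℂ] A)) {M : Submodule ℂ A} {n : ℤ}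
    (h : ∀ e : σ →₀ ℕ, (e.sum fun k i => (i : ℤ) * w k) = n → (e.prod fun k i => a k ^ i) ∈ M) :
    𝒜 n ≤ M := by
  obtain ⟨L, hL⟩ := hg.exists_lin (Pi.single n 1)
  have hm : ∀ e : σ →₀ ℕ, (e.prod fun k i => a k ^ i) ∈ 𝒜 (e.sum fun k i => (i : ℤ) * w k) := by
    intro e
    have := hg.mon
    exact SetLike.prod_mem_graded 𝒜 _ _ fun k _ => by
      simpa using SetLike.pow_mem_graded (e k) (hw k)
  have key : ∀ P : MvPolynomial σ ℂ, L (aeval a P) ∈ M := fun P => by
    induction P using MvPolynomial.induction_on' with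
    | add P Q hP hQ => simpa using add_mem hP hQ
    | monomial e c =>
      rw [aeval_monomial, ← Algebra.smul_def, map_smul, hL _ _ (hm e)]
      by_cases he : (e.sum fun k i => (i : ℤ) * w k) = n
      · exact M.smul_mem _ (M.smul_mem _ (h e he))
      · simp [Pi.single_eq_of_ne he]
  intro x hx
  obtain ⟨P, rfl⟩ := ha x
  simpa [hL _ _ hx] using key P

section
variable {σ : Type} {a : σ → A} {w : σ → ℤ} (hw : ∀ k, a k ∈ 𝒜 (w k))
  (ha : Function.Surjective (aeval a : MvPolynomial σ ℂ →ₐ[ℂ] A))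
include hw ha

theorem vanish_iff (ε : ℤ) (x : Pt A) : (∀ n, 0 < ε * n → ∀ g ∈ 𝒜 n, x g = 0) ↔
    ∀ k, 0 < ε * w k → x (a k) = 0 := by
  refine ⟨fun h k hk => h _ hk _ (hw k), fun h n hn => ?_⟩
  refine hg.mono_ind hw ha (M := LinearMap.ker (AlgHom.toLinearMap x)) fun e he => ?_
  by_contra h0
  refine hn.not_ge ?_
  rw [← he, Finsupp.mul_sum]
  refine Finset.sum_nonpos fun k hk => ?_
  by_contra hk'
  refine h0 ?_
  show x (∏ k ∈ e.support, a k ^ e k) = 0
  rw [map_prod]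
  refine Finset.prod_eq_zero hk ?_
  rw [map_pow, h k ?_, zero_pow (Finsupp.mem_support_iff.1 hk)]
  by_contra h1
  exact hk' (by have : (0 : ℤ) ≤ e k := Int.natCast_nonneg _; nlinarith)

theorem posG_iff (x : Pt A) : x ∈ PosG 𝒜 ↔ ∀ k, 0 < w k → x (a k) = 0 := by
  have := hg.vanish_iff hw ha 1 x
  simp only [one_mul] at this
  rw [← this]
  exact ⟨fun h n hn g hg' => h g ⟨n, hn, hg'⟩, fun h g ⟨n, hn, hg'⟩ => h n hn g hg'⟩

theorem negG_iff (x : Pt A) : x ∈ NegG 𝒜 ↔ ∀ k, w k < 0 → x (a k) = 0 := by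
  have := hg.vanish_iff hw ha (-1) x
  simp only [neg_one_mul, neg_pos] at this
  rw [← this]
  exact ⟨fun h n hn g hg' => h g ⟨n, hn, hg'⟩, fun h g ⟨n, hn, hg'⟩ => h n hn g hg'⟩

/-- finitely many weight zero elements detect `Same0` -/
theorem exists_gen0 [Finite σ] : ∃ (m : ℕ) (c : Fin m → A), (∀ j, c j ∈ 𝒜 0) ∧
    ∀ M : Subalgebra ℂ A, (∀ j, c j ∈ M) → ∀ g ∈ 𝒜 0, g ∈ M := by
  let φ : (σ →₀ ℕ) →+ ℤ := Finsupp.liftAddHom fun k => (AddMonoidHom.mulRight (w k)).comp
    (Nat.castAddMonoidHom ℤ)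
  have hφ : ∀ e, φ e = e.sum fun k i => (i : ℤ) * w k := fun e => rfl
  obtain ⟨S, hS⟩ := AddSubmonoid.fg_eqLocusM φ 0
  obtain ⟨m, e, -, hr⟩ := S.finite_toSet.fin_param
  refine ⟨m, fun j => (e j).prod fun k i => a k ^ i, fun j => ?_, fun M hM => ?_⟩
  · have h1 : e j ∈ φ.eqLocusM 0 := hS ▸ AddSubmonoid.subset_closure (hr ▸ mem_range_self j)
    have := hg.mon
    have h2 : ((e j).prod fun k i => a k ^ i) ∈ 𝒜 (φ (e j)) :=
      SetLike.prod_mem_graded 𝒜 _ _ fun k _ => by simpa using SetLike.pow_mem_graded (e j k) (hw k)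
    rwa [show φ (e j) = 0 from h1] at h2
  · refine hg.mono_ind hw ha (M := M.toSubmodule) fun d hd => ?_
    have h1 : d ∈ AddSubmonoid.closure (S : Set (σ →₀ ℕ)) := hS ▸ hd
    clear hd
    induction h1 using AddSubmonoid.closure_induction with
    | mem x hx =>
      obtain ⟨j, rfl⟩ := hr ▸ hx
      exact hM j
    | zero => simp
    | add x y _ _ hx hy =>
      rw [Finsupp.prod_add_index' (by simp) fun _ _ _ => pow_add _ _ _]
      exact M.mul_mem hx hy
end

/-- `t ↦ e^t` as a unit -/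
def expU (t : ℝ) : ℂˣ := Units.mk0 (Complex.exp t) (Complex.exp_ne_zero _)

omit hg in
theorem expU_zpow (t : ℝ) (n : ℤ) : ((expU t ^ n : ℂˣ) : ℂ) = Complex.exp (n * t) := by
  simp [expU, Complex.exp_int_mul]

omit hg in
theorem expU_cont : Continuous expU :=
  Units.continuous_iff.2 ⟨by show Continuous fun t : ℝ => Complex.exp t; fun_prop, by
    show Continuous fun t : ℝ => (Complex.exp t)⁻¹
    exact Continuous.inv₀ (by fun_prop) fun _ => Complex.exp_ne_zero _⟩

/-- the real flow of the grading -/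
def flow : Flow ℝ (Pt A) where
  toFun t x := hg.actP (expU t) x
  cont' := hg.actP_cont.comp ((expU_cont.comp continuous_fst).prodMk continuous_snd)
  map_add' s t x := by
    rw [← actP_mul]; congr 1; ext; simp [expU, Complex.exp_add]
  map_zero' x := by
    rw [show expU 0 = 1 by ext; simp [expU], actP_one]

theorem flow_of (t : ℝ) (x : Pt A) {n : ℤ} {a : A} (ha : a ∈ 𝒜 n) :
    hg.flow t x a = Complex.exp (n * t) * x a := by
  rw [← expU_zpow]; exact hg.actP_of _ x ha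

omit hg in
theorem rpow_aux (n : ℤ) (t : ℝ) (z : ℂ) :
    ‖Complex.exp (n * t) * z‖ ^ |(n : ℝ)|⁻¹ = Real.exp (n * t * |(n : ℝ)|⁻¹) * ‖z‖ ^ |(n : ℝ)|⁻¹ := by
  rw [norm_mul, Real.mul_rpow (norm_nonneg _) (norm_nonneg _), Complex.norm_exp, ← Real.exp_mul]
  simp

/-- the hyperbolic structure of a grading -/
theorem exists_hyp [Algebra.FiniteType ℂ A] : ∃ (m : ℕ) (H : Hyp (Pt A) (Fin m → ℂ)),
    H.ρ = hg.flow ∧ (∀ x, H.rp x = 0 ↔ x ∈ PosG 𝒜) ∧ (∀ x, H.rm x = 0 ↔ x ∈ NegG 𝒜) ∧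
      ∀ x y, H.v x = H.v y ↔ Same0 𝒜 x y := by
  obtain ⟨n, a, w, hw, ha⟩ := hg.exists_gen
  obtain ⟨m, c, hc, hc'⟩ := hg.exists_gen0 hw ha
  let r : Finset (Fin n) → Pt A → ℝ := fun S x => ∑ k ∈ S, ‖x (a k)‖ ^ |(w k : ℝ)|⁻¹
  have r0 : ∀ S x, 0 ≤ r S x := fun S x => Finset.sum_nonneg fun k _ => by positivity
  have rc : ∀ S, Continuous (r S) := fun S => continuous_finsetSum _ fun k _ =>
    (Pt.cont (a k)).norm.rpow_const fun _ => Or.inr (by positivity)
  have rz : ∀ (S : Finset (Fin n)) x, (∀ k ∈ S, w k ≠ 0) → (r S x = 0 ↔ ∀ k ∈ S, x (a k) = 0) :=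
    fun S x hS => by
      rw [Finset.sum_eq_zero_iff_of_nonneg fun k _ => by positivity]
      refine forall₂_congr fun k hk => ?_
      rw [Real.rpow_eq_zero_iff_of_nonneg (norm_nonneg _), norm_eq_zero]
      simp [hS k hk]
  have hp : ∀ x, r {k | 0 < w k} x = 0 ↔ x ∈ PosG 𝒜 := fun x => by
    rw [rz _ x fun k hk => (Finset.mem_filter.1 hk).2.ne', hg.posG_iff hw ha]; simp only [Finset.mem_filter, Finset.mem_univ, true_and]
  have hm : ∀ x, r {k | w k < 0} x = 0 ↔ x ∈ NegG 𝒜 := fun x => by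
    rw [rz _ x fun k hk => (Finset.mem_filter.1 hk).2.ne, hg.negG_iff hw ha]; simp only [Finset.mem_filter, Finset.mem_univ, true_and]
  have hv : ∀ x y : Pt A, crd c x = crd c y ↔ Same0 𝒜 x y := fun x y =>
    ⟨fun h => hc' (AlgHom.equalizer x y) fun j => congrFun h j, fun h => funext fun j => h _ (hc j)⟩
  refine ⟨m, ⟨hg.flow, r {k | 0 < w k}, r {k | w k < 0}, crd c, rc _, rc _, crd_cont c, r0 _, r0 _,
    fun t x => ?_, fun t x => ?_, fun t x => (hv _ _).2 fun g hg' => by simp [hg.flow_of t x hg'],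
    fun R K hK => ?_, fun x y h1 h2 h3 h4 h => DFunLike.ext _ _ fun g => ?_⟩, rfl, hp, hm, hv⟩
  · rw [Finset.mul_sum]
    refine Finset.sum_congr rfl fun k hk => ?_
    have h : (0 : ℝ) < w k := by exact_mod_cast (Finset.mem_filter.1 hk).2
    rw [hg.flow_of t x (hw k), rpow_aux, abs_of_pos h]
    congr 2; field_simp
  · rw [Finset.mul_sum]
    refine Finset.sum_congr rfl fun k hk => ?_
    have h : (w k : ℝ) < 0 := by exact_mod_cast (Finset.mem_filter.1 hk).2
    rw [hg.flow_of t x (hw k), rpow_aux, abs_of_neg h]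
    congr 2; field_simp [h.ne]
  · have hb : ∀ k, ∃ C, ∀ x : Pt A, r {k | 0 < w k} x ≤ R ∧ r {k | w k < 0} x ≤ R ∧ crd c x ∈ K →
        ‖x (a k)‖ ≤ C := fun k => by
      by_cases h0 : w k = 0
      · obtain ⟨P, hP⟩ : a k ∈ (aeval c : MvPolynomial (Fin m) ℂ →ₐ[ℂ] A).range :=
          hc' (aeval c).range (fun j => (AlgHom.mem_range _).2 ⟨X j, aeval_X _ _⟩) _ (h0 ▸ hw k)
        obtain ⟨C, hC⟩ := hK.exists_bound_of_continuousOn
          (MvPolynomial.continuous_eval P).continuousOn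
        exact ⟨C, fun x hx => by
          rw [← show aeval c P = a k from hP, crd_eval]; exact hC _ hx.2.2⟩
      · refine ⟨R ^ |(w k : ℝ)|, fun x hx => ?_⟩
        have h1 : ‖x (a k)‖ ^ |(w k : ℝ)|⁻¹ ≤ R := by
          rcases lt_or_gt_of_ne h0 with h | h
          · exact (Finset.single_le_sum (f := fun k => ‖x (a k)‖ ^ |(w k : ℝ)|⁻¹)
              (fun _ _ => by positivity) (by simpa only [Finset.mem_filter, Finset.mem_univ, true_and] using h)).trans hx.2.1
          · exact (Finset.single_le_sum (f := fun k => ‖x (a k)‖ ^ |(w k : ℝ)|⁻¹)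
              (fun _ _ => by positivity) (by simpa only [Finset.mem_filter, Finset.mem_univ, true_and] using h)).trans hx.1
        have h2 := Real.rpow_le_rpow (by positivity) h1 (abs_nonneg (w k : ℝ))
        rwa [Real.rpow_inv_rpow (norm_nonneg _) (by simpa using h0)] at h2
    choose C hC using hb
    refine ((isClosedEmbedding_crd ha).isCompact_preimage (isCompact_univ_pi fun k =>
      isCompact_closedBall (0 : ℂ) (C k))).of_isClosed_subset
      ((isClosed_le (rc _) continuous_const).inter ((isClosed_le (rc _) continuous_const).inter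
        (hK.isClosed.preimage (crd_cont c)))) fun x hx k _ => ?_
    simpa only [crd, Metric.mem_closedBall, dist_zero_right] using hC k x hx
  · induction g using hg.ind with
    | h0 => simp
    | ha g g' h1 h2 => simp only [map_add, h1, h2]
    | hh n g hg' =>
      rcases lt_trichotomy n 0 with h0 | rfl | h0
      · rw [(hm x).1 h2 g ⟨n, h0, hg'⟩, (hm y).1 h4 g ⟨n, h0, hg'⟩]
      · exact (hv x y).1 h g hg'
      · rw [(hp x).1 h1 g ⟨n, h0, hg'⟩, (hp y).1 h3 g ⟨n, h0, hg'⟩]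

end IsGr

theorem hyp_exists [Algebra.FiniteType ℂ A] (hb : IsPoi b) (hg : IsGr b 𝒜) :
    ∃ (n : ℕ) (H : Hyp (Pt A) (Fin n → ℂ)), (∀ x, H.rp x = 0 ↔ x ∈ PosG 𝒜) ∧
      (∀ x, H.rm x = 0 ↔ x ∈ NegG 𝒜) ∧ (∀ t x, rk b (H.ρ t x) = rk b x) ∧
      ∀ x y, x ∈ PosG 𝒜 ∪ NegG 𝒜 → y ∈ PosG 𝒜 ∪ NegG 𝒜 → (H.v x = H.v y ↔ Same0 𝒜 x y) := by
  obtain ⟨n, H, h1, h2, h3, h4⟩ := hg.exists_hyp
  exact ⟨n, H, h2, h3, fun t x => h1 ▸ hg.rk_actP hb _ x, fun x y _ _ => h4 x y⟩

/-- the trivial grading -/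
theorem exists_trivGr (hb : IsPoi b) :
    ∃ 𝒜 : ℤ → Submodule ℂ A, IsGr b 𝒜 ∧ ∀ n, n ≠ 0 → 𝒜 n = ⊥ := by
  let 𝒜 : ℤ → Submodule ℂ A := fun n => if n = 0 then ⊤ else ⊥
  have h0 : ∀ a, a ∈ 𝒜 0 := fun a => by simp [𝒜]
  have h1 : ∀ n a, a ∈ 𝒜 n → n = 0 ∨ a = 0 := fun n a h => by
    by_cases hn : n = 0
    · exact Or.inl hn
    · exact Or.inr (by simpa [𝒜, hn] using h)
  have h2 : ∀ (c : A → A → A), (∀ g, c 0 g = 0) → (∀ g, c g 0 = 0) →
      ∀ m n f g, f ∈ 𝒜 m → g ∈ 𝒜 n → c f g ∈ 𝒜 (m + n) := fun c c1 c2 m n f g hf hg => by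
    rcases h1 _ _ hf with rfl | rfl
    · rcases h1 _ _ hg with rfl | rfl
      · exact h0 _
      · rw [c2]; exact zero_mem _
    · rw [c1]; exact zero_mem _
  refine ⟨𝒜, ⟨{ one_mem := h0 1, mul_mem := fun m n f g => h2 (· * ·) zero_mul mul_zero m n f g },
    ?_, h2 b hb.zero_left hb.zero_right⟩, fun n hn => if_neg hn⟩
  refine DirectSum.isInternal_submodule_of_iSupIndep_of_iSup_eq_top (fun n => ?_)
    (eq_top_iff.2 (le_iSup_of_le 0 fun a _ => h0 a))
  by_cases hn : n = 0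
  · subst hn
    have : ⨆ j, ⨆ (_ : j ≠ 0), 𝒜 j = ⊥ := by
      simp only [iSup_eq_bot]; exact fun j hj => if_neg hj
    rw [this]; exact disjoint_bot_right
  · rw [show 𝒜 n = ⊥ from if_neg hn]; exact disjoint_bot_left

theorem h79_tendsto_zpow {n : ℤ} (hn : 0 < n) :
    Tendsto (fun s : ℂˣ => ((s ^ n : ℂˣ) : ℂ)) (comap Units.val (𝓝 0)) (𝓝 0) := by
  lift n to ℕ using hn.le
  have : Tendsto (fun s : ℂˣ => (s : ℂ) ^ n) (comap Units.val (𝓝 0)) (𝓝 (0 ^ n)) :=
    tendsto_comap.pow n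
  simpa [zero_pow (show n ≠ 0 by omega)] using this

instance h79_neBot : (comap (Units.val : ℂˣ → ℂ) (𝓝 0)).NeBot := by
  refine comap_neBot fun t ht => ?_
  obtain ⟨z, h1, h2⟩ := ((show ∀ᶠ z in 𝓝[≠] (0 : ℂ), z ∈ t from nhdsWithin_le_nhds ht).and
    self_mem_nhdsWithin).exists
  exact ⟨Units.mk0 z h2, h1⟩

/-- fixed points, attracting set and limit map of the action `sc` with `sc s a = s^{-n} a` on `𝒜 n` -/
theorem attr (hg : IsGr b 𝒜) (sc : ℂˣ → A → A) (hadd : ∀ s a a', sc s (a + a') = sc s a + sc s a')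
    (hsc : ∀ s n, ∀ a ∈ 𝒜 n, sc s a = ((s ^ (-n) : ℂˣ) : ℂ) • a) :
    (∀ x : Pt A, (∀ s a, x (sc s a) = x a) ↔ x ∈ FixG 𝒜) ∧
    (∀ x y : Pt A, (∀ a, Tendsto (fun s : ℂˣ => x (sc s a)) (comap Units.val (𝓝 0)) (𝓝 (y a))) ↔
      x ∈ PosG 𝒜 ∧ y ∈ FixG 𝒜 ∧ Same0 𝒜 x y) ∧
    ∃ q : PosG 𝒜 → Pt A, Continuous q ∧ ∀ x, q x ∈ FixG 𝒜 ∧ Same0 𝒜 x (q x) := by
  have hz : ∀ s, sc s 0 = 0 := fun s => by simpa using hsc s 0 0 (zero_mem _)
  have hx : ∀ (x : Pt A) s n, ∀ a ∈ 𝒜 n, x (sc s a) = ((s ^ (-n) : ℂˣ) : ℂ) * x a :=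
    fun x s n a ha => by rw [hsc s n a ha, map_smul, smul_eq_mul]
  have hF : ∀ x : Pt A, x ∈ FixG 𝒜 ↔ ∀ n, n ≠ 0 → ∀ a ∈ 𝒜 n, x a = 0 := fun x =>
    ⟨fun h n hn a ha => (lt_or_gt_of_ne hn).elim (fun hn => h.2 a ⟨n, hn, ha⟩)
      fun hn => h.1 a ⟨n, hn, ha⟩, fun h => ⟨fun a ⟨n, hn, ha⟩ => h n hn.ne' a ha,
        fun a ⟨n, hn, ha⟩ => h n hn.ne a ha⟩⟩
  refine ⟨fun x => ⟨fun h => (hF x).2 fun n hn a ha => ?_, fun h s a => ?_⟩,
    fun x y => ⟨fun h => ?_, fun h a => ?_⟩, ?_⟩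
  · have h1 := h (Units.mk0 2 two_ne_zero) a
    rw [hx x _ n a ha, mul_left_eq_self₀] at h1
    refine h1.resolve_left fun h2 => hn ?_
    have h3 := congrArg norm h2
    simp only [Units.val_zpow_eq_zpow_val, Units.val_mk0, norm_zpow, Complex.norm_ofNat,
      norm_one] at h3
    have := (zpow_eq_one_iff_right₀ (by norm_num) (by norm_num)).1 h3
    omega
  · induction a using hg.ind with
    | h0 => rw [hz]
    | ha a a' h1 h2 => rw [hadd, map_add, map_add, h1, h2]
    | hh n a ha =>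
      rw [hx x s n a ha]
      by_cases hn : n = 0
      · simp [hn]
      · simp [(hF x).1 h n hn a ha]
  · have hp : x ∈ PosG 𝒜 := fun a ⟨n, hn, ha⟩ => by
      have h1 := (h79_tendsto_zpow hn).mul (h a)
      simp only [hx x _ n a ha, ← mul_assoc, ← Units.val_mul, ← zpow_add, add_neg_cancel,
        zpow_zero, Units.val_one, one_mul, zero_mul] at h1
      exact tendsto_nhds_unique tendsto_const_nhds h1
    refine ⟨hp, ⟨fun a ⟨n, hn, ha⟩ => ?_, fun a ⟨n, hn, ha⟩ => ?_⟩, fun a ha => ?_⟩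
    · have h1 := h a
      simp only [hx x _ n a ha, hp a ⟨n, hn, ha⟩, mul_zero] at h1
      exact tendsto_nhds_unique h1 tendsto_const_nhds
    · have h1 := h a
      simp only [hx x _ n a ha] at h1
      simpa only [zero_mul] using tendsto_nhds_unique h1 ((h79_tendsto_zpow (neg_pos.2 hn)).mul_const _)
    · have h1 := h a
      simp only [hx x _ 0 a ha, neg_zero, zpow_zero, Units.val_one, one_mul] at h1
      exact tendsto_nhds_unique tendsto_const_nhds h1
  · induction a using hg.ind with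
    | h0 => simp [hz]
    | ha a a' h1 h2 => simpa only [hadd, map_add] using h1.add h2
    | hh n a ha =>
      simp only [hx x _ n a ha]
      rcases lt_trichotomy n 0 with hn | rfl | hn
      · simpa only [zpow_neg, Units.val_inv_eq_inv_val, Units.val_zpow_eq_zpow_val, h.2.1.2 a ⟨n, hn, ha⟩, zero_mul] using (h79_tendsto_zpow (neg_pos.2 hn)).mul_const (x a)
      · simp [h.2.2 a ha]
      · simp [h.1 a ⟨n, hn, ha⟩, h.2.1.1 a ⟨n, hn, ha⟩]
  · obtain ⟨L, hL⟩ := hg.exists_lin (Pi.single 0 1)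
    have hm : ∀ x : PosG 𝒜, ∀ f g, x.1 (L (f * g)) = x.1 (L f) * x.1 (L g) := fun x f g => by
      induction f using hg.ind with
      | h0 => simp only [zero_mul, map_zero]
      | ha f f' h1 h2 => simp only [add_mul, map_add, h1, h2]
      | hh m f hf =>
        induction g using hg.ind with
        | h0 => simp only [mul_zero, map_zero]
        | ha g g' h1 h2 => simp only [mul_add, map_add, h1, h2]
        | hh n g hg' =>
          rw [hL _ _ (hg.mul_mem hf hg'), hL _ _ hf, hL _ _ hg']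
          simp only [map_smul, map_mul, smul_eq_mul, Pi.single_apply]
          rcases lt_trichotomy m 0 with hm | rfl | hm
          · by_cases h : m + n = 0
            · simp only [x.2 g ⟨n, by omega, hg'⟩, mul_zero, ite_mul, one_mul, zero_mul]
            · simp [h, hm.ne]
          · simp
          · simp only [x.2 f ⟨m, hm, hf⟩, zero_mul, mul_zero, ite_mul, one_mul, mul_ite, ite_self]
    refine ⟨fun x => AlgHom.ofLinearMap (AlgHom.toLinearMap x.1 ∘ₗ L)
      (show x.1 (L 1) = 1 by simp only [hL 0 1 hg.one_mem, Pi.single_eq_same, one_smul, map_one]) (hm x),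
      continuous_induced_rng.2 (continuous_pi fun a => (Pt.cont (L a)).comp continuous_subtype_val),
      fun x => ⟨(hF _).2 fun n hn a ha => ?_, fun a ha => ?_⟩⟩
    · show x.1 (L a) = 0
      simp [hL n a ha, hn]
    · show x.1 a = x.1 (L a)
      simp [hL 0 a ha]

end C73
end
end

section
/-! Rank of the bracket: linear algebra, derivative tests, gradings. -/

open Set Filter Topology Function

noncomputable section
namespace C73
variable {A : Type} [CommRing A] [Algebra ℂ A] {b : A → A → A}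

/-- reduction modulo a maximal invertible minor inside a subspace -/
theorem IsPoi.reduce (hb : IsPoi b) {x : Pt A} (S : Submodule ℂ A) {d : ℕ} {f g : Fin d → A}
    (hf : ∀ i, f i ∈ S) (hg : ∀ i, g i ∈ S)
    (hd : (Matrix.of fun i j => x (b (f i) (g j))).det ≠ 0)
    (hm : ∀ f' g' : Fin (d + 1) → A, (∀ i, f' i ∈ S) → (∀ i, g' i ∈ S) →
      (Matrix.of fun i j => x (b (f' i) (g' j))).det = 0) {p : A} (hp : p ∈ S) :
    ∃ c : Fin d → ℂ, ∀ q ∈ S, x (b q (p - ∑ j, c j • g j)) = 0 := by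
  obtain ⟨c, hc⟩ := (Matrix.mulVec_surjective_iff_isUnit.2
    ((Matrix.isUnit_iff_isUnit_det _).2 hd.isUnit)) fun i => x (b (f i) p)
  refine ⟨c, fun q hq => ?_⟩
  have h0 : ∀ i, x (b (f i) (p - ∑ j, c j • g j)) = 0 := fun i => by
    rw [← hb.der_apply, map_sub, map_sum, map_sub, map_sum, sub_eq_zero]
    simpa only [hb.der_apply, hb.smul_right, map_smul, smul_eq_mul, Matrix.mulVec, dotProduct, Matrix.of_apply, mul_comm] using (congrFun hc i).symm
  have := hm (Fin.cons q f) (Fin.cons (p - ∑ j, c j • g j) g) (Fin.cases hq hf)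
    (Fin.cases (sub_mem hp (sum_mem fun j _ => S.smul_mem _ (hg j))) hg)
  rw [Matrix.det_succ_column_zero, Fin.sum_univ_succ] at this
  simp only [Matrix.of_apply, Fin.cons_succ, Fin.cons_zero, h0, mul_zero, zero_mul,
    Finset.sum_const_zero, add_zero, Fin.val_zero, pow_zero, one_mul] at this
  exact (mul_eq_zero.1 this).resolve_right hd

section
variable [Algebra.FiniteType ℂ A] (hb : IsPoi b)
include hb

theorem IsPoi.exists_max (x : Pt A) (S : Submodule ℂ A) : ∃ (d : ℕ) (f g : Fin d → A),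
    (∀ i, f i ∈ S) ∧ (∀ i, g i ∈ S) ∧ (Matrix.of fun i j => x (b (f i) (g j))).det ≠ 0 ∧
    (S = ⊤ → d = rk b x) ∧
    ∀ p ∈ S, ∃ c : Fin d → ℂ, ∀ q ∈ S, x (b q (p - ∑ j, c j • g j)) = 0 := by
  let T := {d : ℕ | ∃ f g : Fin d → A, (∀ i, f i ∈ S) ∧ (∀ i, g i ∈ S) ∧
    (Matrix.of fun i j => x (b (f i) (g j))).det ≠ 0}
  have bd : BddAbove T := ⟨rk b x, fun d ⟨f, g, _, _, h⟩ => hb.le_rk.2 ⟨f, g, h⟩⟩
  obtain ⟨f, g, h1, h2, h3⟩ := Nat.sSup_mem (s := T) ⟨0, 0, 0, by simp⟩ bd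
  refine ⟨_, f, g, h1, h2, h3, ?_, fun p => hb.reduce S h1 h2 h3 fun f' g' a a' => ?_⟩
  · rintro rfl; simp only [T, Submodule.mem_top, implies_true, ne_eq, true_and, rk]
  · by_contra h
    exact (Nat.lt_succ_self _).not_ge (le_csSup bd ⟨f', g', a, a', h⟩)

theorem IsPoi.exists_rk (x : Pt A) : ∃ f g : Fin (rk b x) → A,
    (Matrix.of fun i j => x (b (f i) (g j))).det ≠ 0 ∧
    ∀ p, ∃ c : Fin (rk b x) → ℂ, ∀ q, x (b p q) = ∑ j, c j * x (b (g j) q) := by
  obtain ⟨d, f, g, -, -, h1, h2, h3⟩ := hb.exists_max x ⊤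
  obtain rfl := h2 rfl
  refine ⟨f, g, h1, fun p => (h3 p trivial).imp fun c hc q => ?_⟩
  have := hc q trivial
  rw [hb.anti, map_neg, neg_eq_zero, sub_eq_add_neg, hb.add, hb.neg_left, hb.sum_left] at this
  simpa only [hb.smul, ← sub_eq_add_neg, map_sub, map_sum, map_smul, smul_eq_mul, sub_eq_zero] using this

theorem IsPoi.rk_finrank (x : Pt A) :
    rk b x = Module.finrank ℂ (Submodule.span ℂ (range fun f g => x (b f g) : Set (A → ℂ))) := by
  obtain ⟨f, g, h1, h2⟩ := hb.exists_rk x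
  have e : Submodule.span ℂ (range fun f g => x (b f g) : Set (A → ℂ)) =
      Submodule.span ℂ (range fun j q => x (b (g j) q)) := by
    refine le_antisymm (Submodule.span_le.2 ?_) (Submodule.span_mono ?_)
    · rintro _ ⟨p, rfl⟩
      obtain ⟨c, hc⟩ := h2 p
      exact (Submodule.mem_span_range_iff_exists_fun ℂ).2 ⟨c, funext fun q => by simp only [Finset.sum_apply, Pi.smul_apply, smul_eq_mul, hc]⟩
    · rintro _ ⟨j, rfl⟩; exact ⟨g j, rfl⟩
  rw [e, finrank_span_eq_card, Fintype.card_fin]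
  refine Fintype.linearIndependent_iff.2 fun c hc => congrFun
    (Matrix.eq_zero_of_mulVec_eq_zero h1 (funext fun i => ?_))
  have := congrFun hc (f i)
  simp only [Finset.sum_apply, Pi.smul_apply, smul_eq_mul, hb.anti (g _), map_neg, mul_neg,
    Finset.sum_neg_distrib, Pi.zero_apply, neg_eq_zero] at this
  simpa only [Matrix.mulVec, dotProduct, Matrix.of_apply, mul_comm, Pi.zero_apply] using this

theorem IsPoi.even_rk (x : Pt A) : Even (rk b x) := by
  obtain ⟨f, g, h1, h2⟩ := hb.exists_rk x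
  choose c hc using h2
  let N := Matrix.of fun i j => x (b (g i) (g j))
  have e : (Matrix.of fun i j => x (b (f i) (g j))) = (Matrix.of fun i k => c (f i) k) * N := by
    ext i j; simp only [Matrix.of_apply, hc (f i), N, Matrix.mul_apply]
  rw [e, Matrix.det_mul] at h1
  have e2 : N.transpose = -N := by ext i j; simp only [N, Matrix.transpose_apply, Matrix.of_apply, hb.anti (g j), map_neg, Matrix.neg_apply]
  have := N.det_transpose
  rw [e2, Matrix.det_neg, Fintype.card_fin] at this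
  exact (neg_one_pow_eq_one_iff_even (by norm_num)).1
    (mul_right_cancel₀ (right_ne_zero_of_mul h1) (this.trans (one_mul _).symm))

/-- derivative test along short trajectories -/
theorem IsPoi.der_zero {x : Pt A} {f p : A} {S : Set (Pt A)}
    (hS : ∀ (c : ℂ) γ, Traj b (c • f) γ → γ 0 = x → ∀ s ∈ Icc (0 : ℝ) 1, γ s ∈ S)
    (hp : ∀ᶠ y in 𝓝 x, y ∈ S → y p = x p) : x (b f p) = 0 := by
  obtain ⟨n, π, hπ⟩ := Algebra.FiniteType.iff_quotient_mvPolynomial''.1 ‹_›
  obtain ⟨Φ, -, -, h⟩ := hb.exists_flow hπ (fun _ : Unit => f) x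
  have t : Tendsto (fun c : ℂ => ((fun _ => c, emb π x) : (Unit → ℂ) × (Fin n → ℂ))) (𝓝[≠] 0)
      (𝓝 (0, emb π x)) := (Continuous.continuousAt (by fun_prop)).tendsto.mono_left nhdsWithin_le_nhds
  obtain ⟨c, h1, h2⟩ := ((t.eventually h).and self_mem_nhdsWithin).exists
  obtain ⟨γ, g1, rfl, -⟩ := h1.2.2 x rfl
  simp only [Finset.univ_unique, Finset.sum_singleton] at g1
  have m : (0 : ℝ) ∈ Icc (0 : ℝ) 1 := ⟨le_rfl, zero_le_one⟩
  have c1 : ContinuousWithinAt γ (Icc 0 1) 0 :=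
    (IsInducing.continuousWithinAt_iff ⟨rfl⟩).2 (continuousWithinAt_pi.2 fun a => g1.contOn a 0 m)
  have := (uniqueDiffOn_Icc zero_lt_one 0 m).eq_deriv _ (g1 p 0 m)
    ((hasDerivWithinAt_const _ _ (γ 0 p)).congr_of_eventuallyEq (by
      filter_upwards [c1.eventually hp, self_mem_nhdsWithin] with s a a' using
        a (hS c γ g1 rfl s a')) rfl)
  rw [hb.smul, map_smul] at this
  exact (mul_eq_zero.1 this).resolve_left h2

theorem IsPoi.traj_vv {f : A} {γ : ℝ → Pt A} (h : Traj b f γ) {S : Set A}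
    (hS : ∀ a ∈ S, b f a ∈ S) {s : ℝ} (hs : s ∈ Icc (0 : ℝ) 1) :
    (γ 0 ∈ VV S → γ s ∈ VV S) ∧ (γ 1 ∈ VV S → γ s ∈ VV S) := by
  have : IsNoetherianRing A := Algebra.FiniteType.isNoetherianRing ℂ A
  have e : ∀ y : Pt A, y ∈ VV S ↔ y ∈ VV (Ideal.span S : Set A) := fun y =>
    ⟨fun hy _ ha => (Ideal.span_le (I := RingHom.ker (y : A →+* ℂ))).2 hy ha,
      fun hy a ha => hy a (Ideal.subset_span ha)⟩
  have hJ : ∀ a ∈ Ideal.span S, b f a ∈ Ideal.span S := fun a ha => by
    induction ha using Submodule.span_induction with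
    | mem a ha => exact Ideal.subset_span (hS a ha)
    | zero => rw [hb.zero_right]; exact zero_mem _
    | add _ _ _ _ h h' => rw [hb.add_right]; exact add_mem h h'
    | smul c a h h' =>
      rw [smul_eq_mul, hb.mul]; exact add_mem (Ideal.mul_mem_left _ _ h) (Ideal.mul_mem_left _ _ h')
  simp only [e]
  exact ⟨fun h0 => h.vv (IsNoetherian.noetherian _) hJ h0 s hs,
    fun h0 => h.vv' (IsNoetherian.noetherian _) hJ h0 s hs⟩

variable {𝒜 : ℤ → Submodule ℂ A}

theorem IsPoi.traj_pos (hg : IsGr b 𝒜) {f : A} (hf : f ∈ 𝒜 0) {γ : ℝ → Pt A} (h : Traj b f γ)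
    {s : ℝ} (hs : s ∈ Icc (0 : ℝ) 1) :
    (γ 0 ∈ PosG 𝒜 → γ s ∈ PosG 𝒜) ∧ (γ 1 ∈ PosG 𝒜 → γ s ∈ PosG 𝒜) :=
  hb.traj_vv h (by rintro a ⟨n, h1, h2⟩; exact ⟨n, h1, by simpa using hg.br 0 n f a hf h2⟩) hs

theorem IsPoi.traj_neg (hg : IsGr b 𝒜) {f : A} (hf : f ∈ 𝒜 0) {γ : ℝ → Pt A} (h : Traj b f γ)
    {s : ℝ} (hs : s ∈ Icc (0 : ℝ) 1) :
    (γ 0 ∈ NegG 𝒜 → γ s ∈ NegG 𝒜) ∧ (γ 1 ∈ NegG 𝒜 → γ s ∈ NegG 𝒜) :=
  hb.traj_vv h (by rintro a ⟨n, h1, h2⟩; exact ⟨n, h1, by simpa using hg.br 0 n f a hf h2⟩) hs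
end

variable {𝒜 : ℤ → Submodule ℂ A}

theorem fix_zero {x : Pt A} (hx : x ∈ FixG 𝒜) {n : ℤ} (hn : n ≠ 0) {a : A} (ha : a ∈ 𝒜 n) :
    x a = 0 := hn.lt_or_gt.elim (fun h => hx.2 a ⟨n, h, ha⟩) fun h => hx.1 a ⟨n, h, ha⟩

/-- at a fixed point brackets with a weight zero element only see weight zero -/
theorem IsPoi.br_zero (hb : IsPoi b) (hg : IsGr b 𝒜) {x : Pt A} (hx : x ∈ FixG 𝒜) {p : A}
    (h0 : p ∈ 𝒜 0) (h : ∀ f ∈ 𝒜 0, x (b f p) = 0) (f : A) : x (b f p) = 0 := by
  refine hg.ind (P := fun f => x (b f p) = 0) (by simp [hb.zero_left]) (fun n a ha => ?_)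
    (fun a a' h h' => by simp only [hb.add, map_add, h, h', add_zero]) f
  rcases eq_or_ne n 0 with rfl | hn
  exacts [h a ha, fix_zero hx hn (by simpa using hg.br n 0 a p ha h0)]

/-- the weight zero part of a function, as seen by fixed points and by brackets at a fixed point -/
theorem IsGr.split (hg : IsGr b 𝒜) (a : A) : ∃ a0 ∈ 𝒜 0, ∀ y ∈ FixG 𝒜, y (a - a0) = 0 := by
  refine hg.ind (P := fun a => ∃ a0 ∈ 𝒜 0, ∀ y ∈ FixG 𝒜, y (a - a0) = 0)
    ⟨0, zero_mem _, by simp⟩ (fun n a ha => ?_) (fun a a' ⟨u, u1, u2⟩ ⟨v, v1, v2⟩ =>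
      ⟨u + v, add_mem u1 v1, fun y hy => by rw [← sub_add_sub_comm, map_add, u2 y hy, v2 y hy, add_zero]⟩) a
  rcases eq_or_ne n 0 with rfl | hn
  exacts [⟨a, ha, by simp⟩, ⟨0, zero_mem _, fun y hy => by simpa using fix_zero hy hn ha⟩]

end C73
end
end

section
/-! Holonomicity isolates the plaque; zero sets on a plaque. -/

open Set Filter Topology Function Metric MvPolynomial

noncomputable section
namespace C73
variable {A : Type} [CommRing A] [Algebra ℂ A] {b : A → A → A}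

theorem h88_fibre [Algebra.FiniteType ℂ A] {Y : Set (Pt A)} {r : ℕ} (h : TD Y r) (g : Fin r → A) :
    ∃ c : MvPolynomial (Fin r) ℂ, c ≠ 0 ∧
      ∀ w, eval w c ≠ 0 → {y ∈ Y | ∀ j, y (g j) = w j}.Finite := by
  obtain ⟨n, π, hπ⟩ := Algebra.FiniteType.iff_quotient_mvPolynomial''.1 ‹_›
  choose P P1 P2 using fun k => h (r + 1) (Fin.cons (π (X k)) g) (by simp)
  refine ⟨∏ k, (finSuccEquiv ℂ r (P k)).leadingCoeff, Finset.prod_ne_zero_iff.2 fun k _ => by
    simpa using P1 k, fun w hw => ?_⟩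
  rw [map_prod, Finset.prod_ne_zero_iff] at hw
  refine ((Finite.pi' fun k => Polynomial.finite_setOfPred_isRoot
    (p := (finSuccEquiv ℂ r (P k)).map (eval w)) fun h0 => hw k (Finset.mem_univ _) (by
      simpa using congrArg (Polynomial.coeff · (finSuccEquiv ℂ r (P k)).natDegree) h0)).preimage
    (emb_closed hπ).injective.injOn).subset fun y hy k => ?_
  have := P2 k y hy.1
  rw [crd_eval] at this
  rw [mem_ofPred_eq, Polynomial.IsRoot, ← eval_eq_eval_mv_eval', ← this]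
  congr 2
  exact _root_.funext (Fin.cases rfl fun j => (hy.2 j).symm)

namespace Box
variable {κ : Type} [Fintype κ] {f g : κ → A} {x : Pt A} (B : Box b f g x)

theorem leaf {ν : Pt A} (h : ν ∈ B.O) {v : κ → ℂ} (hv : v ∈ ball 0 B.ε) : Leaf b ν (B.e ν v) :=
  let ⟨_, γ, h⟩ := B.traj ν h v hv; Relation.EqvGen.rel _ _ ⟨_, γ, h⟩

/-- the open set covered by the chart -/
def R : Set (Pt A) :=
  range fun p : ↥(B.O ∩ {ν | ∀ j, ν (g j) = x (g j)}) × ball (0 : κ → ℂ) B.ε => B.e p.1 p.2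

theorem R_nhds : B.R ∈ 𝓝 x := B.emb.isOpen_range.mem_nhds
  ⟨(⟨x, B.mem, fun _ => rfl⟩, ⟨0, mem_ball_self B.pos⟩), B.zero x B.mem fun _ => rfl⟩
end Box

variable [Algebra.FiniteType ℂ A]

/-- the coordinates `g` are injective on the low rank locus near `x` -/
theorem IsPoi.iso (hb : IsPoi b) {r : ℕ} {f g : Fin r → A} {x : Pt A} (hx : rk b x ≤ r)
    (hd : (Matrix.of fun i j => x (b (f i) (g j))).det ≠ 0) (hH : TD {y | rk b y ≤ r} r) :
    ∃ U ∈ 𝓝 x, ∀ y ∈ U, ∀ y' ∈ U, rk b y ≤ r → rk b y' ≤ r → (∀ j, y (g j) = y' (g j)) → y = y' := by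
  obtain ⟨n, π, hπ⟩ := Algebra.FiniteType.iff_quotient_mvPolynomial''.1 ‹_›
  have : T2Space (Pt A) := (emb_closed hπ).isEmbedding.t2Space
  obtain ⟨c, c1, c2⟩ := h88_fibre hH g
  obtain ⟨B, -⟩ := hb.exists_box hd univ_mem
  obtain ⟨v, v1, v2⟩ : ∃ v ∈ ball (0 : Fin r → ℂ) B.ε, eval (fun j => x (g j) + v j) c ≠ 0 := by
    by_contra! h
    refine c1 (funext_set (fun j => ball (x (g j)) B.ε)
      (fun j => infinite_of_mem_nhds _ (ball_mem_nhds _ B.pos)) fun w hw => ?_)
    simpa only [map_zero, add_sub_cancel] using h (fun j => w j - x (g j)) (by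
      rw [ball_pi _ B.pos]; exact fun j _ => by simpa [dist_eq_norm] using hw j trivial)
  let T := {ν ∈ B.O ∩ {ν | ∀ j, ν (g j) = x (g j)} | rk b ν ≤ r}
  have T1 : T.Finite := Finite.of_finite_image (f := fun ν => B.e ν v) ((c2 _ v2).subset (by
      rintro _ ⟨ν, h, rfl⟩
      exact ⟨(hb.rk_leaf (B.leaf h.1.1 v1)).symm.trans_le h.2, B.val ν h.1.1 v v1⟩))
    fun ν h ν' h' e => congrArg (·.1.1)
      (B.emb.injective (a₁ := (⟨ν, h.1⟩, ⟨v, v1⟩)) (a₂ := (⟨ν', h'.1⟩, ⟨v, v1⟩)) e)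
  obtain ⟨D, hD⟩ := hb.exists_box hd (inter_mem (B.opn.mem_nhds B.mem)
    ((T1.subset sdiff_subset).isClosed.isOpen_compl.mem_nhds (show x ∉ T \ {x} by simp)))
  have key : ∀ y ∈ D.R, rk b y ≤ r → y = D.e x fun j => y (g j) - x (g j) := by
    rintro _ ⟨⟨⟨ν, h⟩, v, hv⟩, rfl⟩ hr
    have := hD ν h.1 0 (mem_ball_self D.pos)
    rw [D.zero ν h.1 h.2] at this
    obtain rfl : ν = x := by_contra fun hn =>
      this.2 ⟨⟨⟨this.1, h.2⟩, (hb.rk_leaf (D.leaf h.1 hv)).trans_le hr⟩, hn⟩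
    simp [D.val ν h.1 v hv]
  exact ⟨D.R, D.R_nhds, fun y hy y' hy' h h' e => by rw [key y hy h, key y' hy' h']; simp [e]⟩

/-- zeros of a holomorphic function on the lines in one direction -/
theorem h88_zero {E : Type} [NormedAddCommGroup E] [NormedSpace ℂ E] {h : E → ℂ} {ε : ℝ}
    (hh : DifferentiableOn ℂ h (ball 0 ε)) {v : E} (hv : v ∈ ball 0 ε)
    (hf : ∃ᶠ v' in 𝓝 v, h v' ≠ 0) (h0 : h v = 0) : ∃ w ≠ (0 : E), ∃ η > 0, ∀ u,
      {s : ℂ | u + s • w ∈ closedBall v η ∧ h (u + s • w) = 0}.Finite := by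
  obtain ⟨v', h1, h2⟩ := (hf.and_eventually (isOpen_ball.mem_nhds hv)).exists
  have w0 : v' - v ≠ 0 := fun e => h1 (sub_eq_zero.1 e ▸ h0)
  have t : Tendsto (fun u => u + (v' - v)) (𝓝 v) (𝓝 v') := by
    simpa using (continuous_add_const (v' - v)).tendsto v
  obtain ⟨η, η1, η2⟩ := nhds_basis_closedBall.eventually_iff.1 ((t.eventually
    (((hh.continuousOn.continuousAt (isOpen_ball.mem_nhds h2)).eventually_ne h1).and
      (isOpen_ball.mem_nhds h2))).and (isOpen_ball.mem_nhds hv))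
  refine ⟨_, w0, η, η1, fun u => by_contra fun hi => ?_⟩
  have ce : IsClosedEmbedding fun s : ℂ => u + s • (v' - v) :=
    (Homeomorph.addLeft u).isClosedEmbedding.comp (isClosedEmbedding_smul_left w0)
  have bd : Bornology.IsBounded ((fun s : ℂ => u + s • (v' - v)) ⁻¹' closedBall v η) := by
    refine (isBounded_closedBall (x := (0 : ℂ)) (r := (η + ‖v - u‖) / ‖v' - v‖)).subset fun s hs => ?_
    rw [mem_closedBall_zero_iff, le_div_iff₀ (norm_pos_iff.2 w0), ← norm_smul]
    have := norm_add_le (u + s • (v' - v) - v) (v - u)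
    rw [mem_preimage, mem_closedBall, dist_eq_norm] at hs
    rw [show u + s • (v' - v) - v + (v - u) = s • (v' - v) by abel] at this
    linarith
  obtain ⟨s, s1, s2⟩ := Infinite.exists_accPt_of_subset_isCompact hi
    (isCompact_of_isClosed_isBounded (isClosed_closedBall.preimage ce.continuous) bd) fun s hs => hs.1
  have an : AnalyticOnNhd ℂ (fun s : ℂ => h (u + s • (v' - v)))
      ((fun s : ℂ => u + s • (v' - v)) ⁻¹' ball 0 ε) :=
    (hh.comp (by fun_prop) (mapsTo_preimage _ _)).analyticOnNhd (isOpen_ball.preimage ce.continuous)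
  have cv : Convex ℝ ((fun s : ℂ => u + s • (v' - v)) ⁻¹' ball 0 ε) :=
    ((convex_ball (0 : E) ε).translate_preimage_right u).linear_preimage
      ((LinearMap.toSpanSingleton ℂ E (v' - v)).restrictScalars ℝ)
  have e : u + (s + 1) • (v' - v) = u + s • (v' - v) + (v' - v) := by rw [add_smul, one_smul, add_assoc]
  exact (η2 s1).1.1 (e ▸ an.eqOn_zero_of_preconnected_of_frequently_eq_zero cv.isPreconnected
    (η2 s1).2 ((accPt_iff_frequently_nhdsNE.1 s2).mono fun _ h => h.2)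
    (x := s + 1) (by rw [mem_preimage, e]; exact (η2 s1).1.2))

theorem h88_proj {d : ℕ} {w : Fin d → ℂ} (hw : w ≠ 0) : ∃ (m : ℕ) (ℓ : (Fin d → ℂ) →L[ℝ] Fin m → ℝ),
    (m : ℤ) = 2 * d - 2 ∧ ∀ u u', ℓ u = ℓ u' → ∃ s : ℂ, u' + s • w = u := by
  let S := Submodule.span ℂ {w}
  have h1 := S.finrank_quotient_add_finrank
  rw [finrank_span_singleton hw, Module.finrank_fin_fun] at h1
  let e := LinearEquiv.ofFinrankEq (R := ℝ) ((Fin d → ℂ) ⧸ S) (Fin _ → ℝ)
    (Module.finrank_fin_fun ℝ).symm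
  refine ⟨_, LinearMap.toContinuousLinearMap (e.toLinearMap ∘ₗ S.mkQ.restrictScalars ℝ), by
    rw [finrank_real_of_complex]; push_cast; omega, fun u u' h => ?_⟩
  obtain ⟨s, hs⟩ := Submodule.mem_span_singleton.1 ((Submodule.Quotient.eq S).1 (e.injective h))
  exact ⟨s, by rw [hs, add_sub_cancel]⟩

theorem h88_ball (d : ℕ) {ε : ℝ} (hε : 0 < ε) :
    ∃ j : (Fin (2 * d) → ℝ) ≃ₜ ball (0 : Fin d → ℂ) ε, (j 0).1 = 0 := by
  let e : (Fin (2 * d) → ℝ) ≃L[ℝ] Fin d → ℂ :=
    .ofFinrankEq (by rw [finrank_real_of_complex]; simp only [Module.finrank_fintype_fun_eq_card, Fintype.card_fin])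
  let u := OpenPartialHomeomorph.univBall (E := Fin d → ℂ) (0 : Fin d → ℂ) ε
  exact ⟨e.toHomeomorph.trans ((Homeomorph.Set.univ _).symm.trans
    ((Homeomorph.setCongr (OpenPartialHomeomorph.univBall_source _ _).symm).trans
      (u.toHomeomorphSourceTarget.trans
        (Homeomorph.setCongr (OpenPartialHomeomorph.univBall_target _ hε))))), by
    show u (e 0) = 0
    rw [map_zero, OpenPartialHomeomorph.univBall_apply_zero]⟩

end C73
end
end

end
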