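import Pool.Agent.MP_94fa45_ag.Mg.C73_AA
import Pool.Agent.MP_94fa45_ag.Mg.C73_PA

attribute [-instance] Complex.instModule ContinuousSemilinearMapClass.toSemilinearMapClass
  Algebra.Generators.instRing instSMulZeroClass LieAdmissibleAlgebra.toModule
  RightPreLieAlgebra.toModule LeftPreLieAlgebra.toModule LieAlgebra.toModule RKHS.instFunLike
  CoalgHomClass.toSemilinearMapClass instNonemptyOfMonad Complex.instDistribMulActionOfReal
  IsAffineAddMonoid.toIsCancelAdd NormedSpace.toModule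
  instNonUnitalAlgHomClassOfNonUnitalAlgEquivClass
  NonUnitalAlgHomClass.instSemilinearMapClassOfNonUnitalAlgSemiHomClassToMonoidHomRingHom
  Action.FintypeCat.instMulActionObjFiniteOf AddQuantale.instAddLeftMono
  MonTypeEquivalenceMon.monMonoid SemilinearIsometryClass.toSemilinearMapClass
  SubringClass.toCommRing BialgHomClass.toAlgHomClass AlgHomClass.linearMapClass
  Nontrivial.to_nonempty CommMonTypeEquivalenceCommMon.commMonCommMonoid
  RingHomClass.toLinearMapClassRat instCoeTCOfCoe NonUnitalAlgHomClass.toNonUnitalRingHomClass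
  SubfieldClass.toSubringClass NonUnitalNonAssocRing.toAddCommGroup
  Algebra.Generators.instIsScalarTowerRing AddQuantale.instAddRightMono TestFunctionClass.toDFunLike
  OreLocalization.instAddMonoid Group.IsPerfect.subsingleton_of_isMulCommutative
  CompletePartialOrder.toPartialOrder littleWedderburn bot_nonempty
  ContDiffMapSupportedInClass.toDFunLike MulSemiringAction.toDistribMulAction
  RingConeClass.toSubsemiringClass Localization.partialOrder instCoeTOfCoeDep
  LinearOrder.toDecidableEq Zero.instNonempty SemilinearEquivClass.instSemilinearMapClass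
  AddGroupConeClass.toAddSubmonoidClass BialgHomClass.toMonoidHomClass Unique.instSubsingleton
  forall_prop_decidable Quantale.instMulRightMono nonempty_equiv_of_countable AddTorsor.nonempty
  SubringClass.toSubsemiringClass One.instNonempty ValuationClass.toMonoidWithZeroHomClass
  MulSemiringActionSemiHomClass.toDistribMulActionSemiHomClass NumberField.to_charZero
  IdemSemiring.toCanonicallyOrderedAdd FunLike.toDecidableEq
  Topology.IsScott.instClosedIicTopologyOfUnivSet MulCharClass.toMonoidHomClass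
  CentroidHomClass.toAddMonoidHomClass MulDistribMulActionSemiHomClass.toMonoidHomClass
  OmegaCompletePartialOrder.toPartialOrder instCoeHTCTOfCoeTailOfCoeHTC
  NonUnitalSubsemiringClass.toAddSubmonoidClass top_nonempty
  ContinuousMonoidHom.instCoeOutOfMonoidHomClassOfContinuousMapClass NormedAlgebra.toAlgebra
  FirstOrder.Language.instDecidableEqRelations LieAdmissibleRing.toNonUnitalNonAssocRing
  RingEquivClass.toNonUnitalRingHomClass NeZero.of_gt' ConnectedSpace.toNonempty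
  CategoryTheory.Limits.Concrete.instUniqueToTypeTerminal AddGroup.existsAddOfLE
  FirstOrder.Language.instDecidableEqFunctions CompTriple.instId_comp GrpTypeEquivalenceGrp.grpGroup
  MvPolynomial.instFaithfulSMul Subsingleton.to_isCancelMulZero HomeomorphClass.instCoeOutHomeomorph
  FinEnum.decEq CategoryTheory.IsConnected.is_nonempty Finset.decidableDforallFinset
  IsometryClass.instCoeOutIsometryEquiv instCoeHTC Finsupp.instNonUnitalNonAssocSemiring

-- part MP_94fa45_ag.C73.AB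
section

/-! Algebra of the Coulomb branch, part 2. -/

section
/-! Block A1, part c (helper34): the ring `AH ⊇ Cou`, leading coefficients, closure under `br`. -/

open Set AddMonoidAlgebra

noncomputable section
namespace C73.H34

variable {I ι : Type} [Fintype I] [DecidableEq I] {nd : I → ι} {ar : ι → ι → ℕ} {fr : ι → ℕ}

/-- derivative in the direction `l` -/
def dP (l : I → ℤ) (p : PP I) : PP I := ∑ a, (l a : PP I) * MvPolynomial.pderiv a p

/-- derivative in the direction `l` -/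
def dK (l : I → ℤ) (c : KK I) : KK I := ∑ a, (l a : KK I) * pd a c

theorem dK_ip (l : I → ℤ) (p : PP I) : dK l (ip p) = ip (dP l p) := by
  simp only [dK, dP, ip, pd_poly, map_sum, map_mul, map_intCast]

theorem dK_mul (l : I → ℤ) (c c' : KK I) : dK l (c * c') = dK l c * c' + c * dK l c' := by
  simp only [dK, pd_mul, Finset.sum_mul, Finset.mul_sum, ← Finset.sum_add_distrib]
  exact Finset.sum_congr rfl fun a _ => by ring

theorem dP_mul (l : I → ℤ) (p q : PP I) : dP l (p * q) = dP l p * q + p * dP l q :=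
  ip_inj (by simp only [← dK_ip, ip, map_mul, map_add, dK_mul])

omit [DecidableEq I] in
theorem dP_one (l : I → ℤ) : dP l 1 = 0 := by simp only [dP, Derivation.map_one_eq_zero, mul_zero, Finset.sum_const_zero]

theorem dP_pow (l : I → ℤ) (p : PP I) (n : ℕ) : dP l (p ^ (n + 1)) = (n + 1) * p ^ n * dP l p := by
  induction n with
  | zero => simp
  | succ n ih => rw [pow_succ, dP_mul, ih]; push_cast; ring

theorem dP_X (l : I → ℤ) (a : I) : dP l (MvPolynomial.X a) = l a := by
  simp only [dP, MvPolynomial.pderiv_X, Pi.single_apply, mul_ite, mul_one, mul_zero, Finset.sum_ite_eq, Finset.mem_univ, ↓ reduceIte]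

omit [DecidableEq I] in
theorem dP_sub (l : I → ℤ) (p q : PP I) : dP l (p - q) = dP l p - dP l q := by
  simp only [dP, map_sub, mul_sub, Finset.sum_sub_distrib]

theorem br_single' (l l' : I → ℤ) (c c' : KK I) :
    br (single l c) (single l' c') = single (l + l') (c * dK l c' - c' * dK l' c) := by
  rw [br_single]
  congr 1
  simp only [dK, Finset.mul_sum, ← Finset.sum_sub_distrib]
  exact Finset.sum_congr rfl fun a _ => by ring

/-- families of numerators compatible with products and brackets -/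
def Good (r : (I → ℤ) → PP I) : Prop :=
  ∀ l m, r (l + m) ∣ r l * r m ∧ r (l + m) ∣ r l * dP l (r m) - r m * dP m (r l)

omit [DecidableEq I] in
theorem good_one : Good fun _ : I → ℤ => 1 := fun _ _ => ⟨one_dvd _, one_dvd _⟩

theorem Good.mul {r s : (I → ℤ) → PP I} (hr : Good r) (hs : Good s) : Good fun l => r l * s l := by
  intro l m
  refine ⟨by rw [mul_mul_mul_comm]; exact mul_dvd_mul (hr l m).1 (hs l m).1, ?_⟩
  convert dvd_add (mul_dvd_mul (hr l m).2 (hs l m).1) (mul_dvd_mul (hr l m).1 (hs l m).2) using 1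
  simp only [dP_mul]
  ring

theorem good_prod {κ : Type} (s : Finset κ) {r : κ → (I → ℤ) → PP I} (h : ∀ i, Good (r i)) :
    Good fun l => ∏ i ∈ s, r i l := by
  classical
  induction s using Finset.induction_on with
  | empty => simpa using good_one
  | insert i s hi ih => simpa only [Finset.prod_insert hi] using (h i).mul ih

theorem Good.pow {r : (I → ℤ) → PP I} (hr : Good r) (n : ℕ) : Good fun l => r l ^ n := by
  simpa using good_prod (Finset.range n) fun _ => hr

theorem good_lin {β : PP I} {φ : (I → ℤ) → ℤ} (h1 : ∀ l m, φ (l + m) = φ l + φ m)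
    (h2 : ∀ l, dP l β = -(φ l : PP I)) (n : ℕ) : Good fun l => β ^ (n * (φ l).toNat) := by
  suffices h : Good fun l => β ^ (φ l).toNat by
    simpa only [← pow_mul, mul_comm n] using h.pow n
  intro l m
  simp only [h1]
  refine ⟨by rw [← pow_add]; exact pow_dvd_pow _ (by omega), ?_⟩
  rcases hp : (φ l).toNat with _ | p <;> rcases hq : (φ m).toNat with _ | q
  · simp only [pow_zero, dP_one, mul_zero, sub_self, dvd_zero]
  · rw [pow_zero, dP_one, dP_pow, mul_zero, sub_zero, one_mul, h2]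
    by_cases h0 : φ l = 0
    · simp only [h0, zero_add, Int.cast_zero, neg_zero, mul_zero, dvd_zero]
    · exact ((pow_dvd_pow _ (by omega)).mul_left _).mul_right _
  · rw [pow_zero, dP_one, dP_pow, mul_zero, zero_sub, one_mul, h2, dvd_neg]
    by_cases h0 : φ m = 0
    · simp only [h0, add_zero, Int.cast_zero, neg_zero, mul_zero, dvd_zero]
    · exact ((pow_dvd_pow _ (by omega)).mul_left _).mul_right _
  · rw [dP_pow, dP_pow, h2, h2, show φ l = p + 1 by omega, show φ m = q + 1 by omega]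
    convert dvd_zero _
    push_cast
    ring

/-- numerator of `EE` -/
def RR (nd : I → ι) (ar : ι → ι → ℕ) (fr : ι → ℕ) (l : I → ℤ) : PP I :=
  (∏ a, ∏ b, rt b a ^ (ar (nd a) (nd b) * (l a - l b).toNat)) *
    ∏ a, MvPolynomial.X a ^ (fr (nd a) * (-l a).toNat)

open Classical in
/-- denominator of `EE` -/
def DL (nd : I → ι) (l : I → ℤ) : PP I := ∏ a, ∏ b with nd a = nd b, rt a b ^ (l a - l b).toNat

omit [DecidableEq I] in
theorem EE_eq (l : I → ℤ) : EE nd ar fr l = ip (RR nd ar fr l) / ip (DL nd l) := by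
  simp only [EE, RR, DL, ip, rt, ww, map_mul, map_prod, map_pow, map_sub]

theorem good_RR : Good (RR nd ar fr) :=
  (good_prod _ fun a => good_prod _ fun b => good_lin (φ := fun l => l a - l b)
    (fun l m => by simp only [Pi.add_apply]; ring)
    (fun l => by rw [rt, dP_sub, dP_X, dP_X]; push_cast; ring) _).mul
  (good_prod _ fun a => good_lin (φ := fun l => -l a) (fun l m => by simp only [Pi.add_apply]; ring)
    (fun l => by rw [dP_X]; push_cast; ring) _)

/-- products of roots -/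
def SR (nd : I → ι) : Submonoid (PP I) := Submonoid.closure {p | ∃ a b, nd a = nd b ∧ a ≠ b ∧ p = rt a b}

open Classical in
theorem DL_mem (l : I → ℤ) : DL nd l ∈ SR nd :=
  prod_mem fun a _ => prod_mem fun b hb => by
    by_cases h : a = b
    · simp [h]
    · refine pow_mem (Submonoid.subset_closure ?_) _
      exact ⟨a, b, (Finset.mem_filter.1 hb).2, h, rfl⟩

omit [Fintype I] [DecidableEq I] in
theorem SR_ne {d : PP I} (h : d ∈ SR nd) : ip d ≠ 0 := by
  induction h using Submonoid.closure_induction with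
  | mem p hp => obtain ⟨a, b, -, h, rfl⟩ := hp; exact al_ne h
  | one => simp only [ip, map_one, ne_eq, one_ne_zero, not_false_eq_true]
  | mul p q _ _ hp hq => rw [ip, map_mul]; exact mul_ne_zero hp hq

/-- polynomials with the roots inverted -/
def PD (nd : I → ι) : Subalgebra ℂ (KK I) where
  carrier := {c | ∃ p, ∃ q ∈ SR nd, c * ip q = ip p}
  mul_mem' := by
    rintro c c' ⟨p, q, h, e⟩ ⟨p', q', h', e'⟩
    refine ⟨p * p', q * q', mul_mem h h', ?_⟩
    simp only [ip, map_mul] at *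
    rw [← e, ← e']; ring
  add_mem' := by
    rintro c c' ⟨p, q, h, e⟩ ⟨p', q', h', e'⟩
    refine ⟨p * q' + p' * q, q * q', mul_mem h h', ?_⟩
    simp only [ip, map_mul, map_add] at *
    rw [← e, ← e']; ring
  algebraMap_mem' r := ⟨algebraMap ℂ _ r, 1, one_mem _, by
    simp only [ip, map_one, mul_one]
    exact IsScalarTower.algebraMap_apply ℂ (PP I) (KK I) r⟩

omit [Fintype I] [DecidableEq I] in
theorem ip_PD (p : PP I) : ip p ∈ PD nd := ⟨p, 1, one_mem _, by simp only [ip, map_one, mul_one]⟩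

theorem PD_pd (d : I) {c : KK I} (h : c ∈ PD nd) : pd d c ∈ PD nd := by
  obtain ⟨p, q, h', e⟩ := h
  have h1 := congrArg (pd d) e
  rw [pd_mul, pd_poly, pd_poly] at h1
  refine ⟨MvPolynomial.pderiv d p * q - p * MvPolynomial.pderiv d q, q * q, mul_mem h' h', ?_⟩
  simp only [ip, map_mul, map_sub] at *
  rw [← e, ← h1]
  ring

theorem PD_dK (l : I → ℤ) {c : KK I} (h : c ∈ PD nd) : dK l c ∈ PD nd :=
  sum_mem fun a _ => mul_mem (intCast_mem _ _) (PD_pd a h)

omit [Fintype I] in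
theorem PD_poly {c : KK I} (h : c ∈ PD nd) (hc : ∀ a b, nd a = nd b → a ≠ b → c ∈ OO a b) :
    ∃ p, c = ip p := by
  obtain ⟨p, q, hq, e⟩ := h
  induction hq using Submonoid.closure_induction_left generalizing p with
  | one => exact ⟨p, by simpa only [ip, map_one, mul_one] using e⟩
  | mul_left α hα d hd ih =>
    obtain ⟨a, b, hn, hab, rfl⟩ := hα
    obtain ⟨p', q, hq, e'⟩ := mul_mem (hc a b hn hab) (ip_mem a b d)
    have h1 : p * q = rt a b * p' := ip_inj (by
      simp only [ip, map_mul] at *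
      rw [← e, ← e']; ring)
    obtain ⟨p2, rfl⟩ : rt a b ∣ p := by
      by_contra h
      exact rt_mul h hq ⟨_, h1⟩
    refine ih p2 (mul_left_cancel₀ (al_ne hab) ?_)
    simp only [al, ip, map_mul] at *
    rw [← e]; ring

/-- the weight condition -/
def MR (nd : I → ι) (ar : ι → ι → ℕ) (fr : ι → ℕ) (l : I → ℤ) : AddSubgroup (KK I) where
  carrier := {x | ∃ c ∈ PD nd, x = ip (RR nd ar fr l) * c}
  zero_mem' := ⟨0, zero_mem _, by simp⟩
  add_mem' := by
    rintro _ _ ⟨c, h, rfl⟩ ⟨c', h', rfl⟩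
    exact ⟨c + c', add_mem h h', by ring⟩
  neg_mem' := by
    rintro _ ⟨c, h, rfl⟩
    exact ⟨-c, neg_mem h, by ring⟩

theorem MR_mul {x y : LL I} (hx : x ∈ Gr (MR nd ar fr)) (hy : y ∈ Gr (MR nd ar fr)) :
    x * y ∈ Gr (MR nd ar fr) :=
  gr_bi (f := fun x y => x * y) add_mul mul_add (by
    rintro l _ m _ ⟨c, h, rfl⟩ ⟨c', h', rfl⟩
    obtain ⟨q, e⟩ := (good_RR (nd := nd) (ar := ar) (fr := fr) l m).1
    have e' := congrArg ip e
    simp only [single_mul_single]
    refine gr_single ⟨ip q * (c * c'), mul_mem (ip_PD _) (mul_mem h h'), ?_⟩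
    simp only [ip, map_mul] at *
    linear_combination c * c' * e') hx hy

theorem MR_br {x y : LL I} (hx : x ∈ Gr (MR nd ar fr)) (hy : y ∈ Gr (MR nd ar fr)) :
    br x y ∈ Gr (MR nd ar fr) :=
  gr_bi (f := br) br_poi.add br_add_right (by
    rintro l _ m _ ⟨c, h, rfl⟩ ⟨c', h', rfl⟩
    obtain ⟨⟨q, e⟩, q', e'⟩ := good_RR (nd := nd) (ar := ar) (fr := fr) l m
    have e1 := congrArg ip e
    have e2 := congrArg ip e'
    rw [br_single']
    refine gr_single ⟨ip q' * (c * c') + ip q * (c * dK l c' - c' * dK m c),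
      add_mem (mul_mem (ip_PD _) (mul_mem h h')) (mul_mem (ip_PD _)
        (sub_mem (mul_mem h (PD_dK l h')) (mul_mem h' (PD_dK m h)))), ?_⟩
    rw [dK_mul, dK_mul, dK_ip, dK_ip]
    simp only [ip, map_mul, map_sub] at *
    linear_combination c * c' * e2 + (c * dK l c' - c' * dK m c) * e1) hx hy

omit [DecidableEq I] in
theorem EE_MR (l : I → ℤ) (f : PP I) : ip f * EE nd ar fr l ∈ MR nd ar fr l := by
  classical
  refine ⟨ip f / ip (DL nd l), ⟨f, _, DL_mem l, div_mul_cancel₀ _ (SR_ne (DL_mem l))⟩, ?_⟩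
  rw [EE_eq]; ring

/-- the weight and root conditions -/
def AH (nd : I → ι) (ar : ι → ι → ℕ) (fr : ι → ℕ) : Subalgebra ℂ (LL I) where
  carrier := {x | x ∈ Gr (MR nd ar fr) ∧ ∀ a b, nd a = nd b → a ≠ b → x ∈ BB a b}
  mul_mem' hx hy := ⟨MR_mul hx.1 hy.1, fun a b h h' => BB_mul (hx.2 a b h h') (hy.2 a b h h')⟩
  add_mem' hx hy := ⟨add_mem hx.1 hy.1, fun a b h h' => add_mem (hx.2 a b h h') (hy.2 a b h h')⟩
  algebraMap_mem' r := by
    have : algebraMap ℂ (LL I) r = single 0 (algebraMap ℂ (KK I) r) := by simp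
    rw [this]
    exact ⟨gr_single ⟨_, algebraMap_mem _ r, by simp only [ip, RR, Pi.zero_apply, sub_self, Int.toNat_zero, mul_zero, pow_zero, Finset.prod_const_one, neg_zero, mul_one, map_one, one_mul]⟩,
      fun a b _ _ => GO_BB (GO_single _ (algebraMap_mem _ r))⟩

omit [Fintype I] in
theorem rt_rt {a b c d : I} (h : c ≠ d) (h1 : ¬(c = a ∧ d = b)) (h2 : ¬(c = b ∧ d = a)) :
    ¬ rt a b ∣ rt c d := by
  rw [rt_dvd_iff, rt, map_sub, MvPolynomial.rename_X, MvPolynomial.rename_X, sub_eq_zero,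
    MvPolynomial.X_injective.eq_iff]
  grind

omit [Fintype I] in
theorem rt_prod {a b : I} {κ : Type} {s : Finset κ} {f : κ → PP I} (h : ∀ i ∈ s, ¬ rt a b ∣ f i) :
    ¬ rt a b ∣ ∏ i ∈ s, f i :=
  Finset.prod_induction f (fun p => ¬ rt a b ∣ p) (fun _ _ => rt_mul) rt_one h

omit [Fintype I] in
theorem rt_pow {a b : I} {p : PP I} (n : ℕ) (h : n ≠ 0 → ¬ rt a b ∣ p) : ¬ rt a b ∣ p ^ n := by
  simpa only [Finset.prod_const, Finset.card_range] using rt_prod (s := Finset.range n) (f := fun _ => p) fun i hi =>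
    h (by rintro rfl; simp at hi)

theorem DL_eq {a b : I} (hn : nd a = nd b) (hab : a ≠ b) (l : I → ℤ) :
    ∃ q, ¬ rt a b ∣ q ∧ DL nd l = rt a b ^ (l a - l b).natAbs * q := by
  classical
  have h1 : DL nd l = ∏ p : I × I, if nd p.1 = nd p.2 then rt p.1 p.2 ^ (l p.1 - l p.2).toNat else 1 := by
    rw [DL, Fintype.prod_prod_type]
    simp only [Finset.prod_filter]
  have h2 : (b, a) ∈ Finset.univ.erase (a, b) := by simp only [Finset.mem_erase, ne_eq, Prod.mk.injEq, hab, and_false, not_false_eq_true, Finset.mem_univ, and_self]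
  rw [h1, ← Finset.mul_prod_erase _ _ (Finset.mem_univ (a, b)), ← Finset.mul_prod_erase _ _ h2]
  refine ⟨(-1) ^ (l b - l a).toNat * _, rt_mul (rt_pow _ fun _ => by simpa only [dvd_neg] using rt_one)
    (rt_prod (s := (Finset.univ.erase (a, b)).erase (b, a)) (f := fun p : I × I =>
      if nd p.1 = nd p.2 then rt p.1 p.2 ^ (l p.1 - l p.2).toNat else 1) fun p hp => ?_), ?_⟩
  · obtain ⟨c, d⟩ := p
    simp only [Finset.mem_erase, ne_eq, Prod.mk.injEq] at hp ⊢
    split_ifs
    · exact rt_pow _ fun h0 => rt_rt (by rintro rfl; simp at h0) hp.2.1 hp.1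
    · exact rt_one
  · simp only [hn, if_true]
    rw [show rt b a = -1 * rt a b by simp [rt], mul_pow,
      show (l a - l b).natAbs = (l a - l b).toNat + (l b - l a).toNat by omega, pow_add]
    ring

theorem RR_unit (har : ∀ j, ar j j = 0) {a b : I} (hn : nd a = nd b) (l : I → ℤ) :
    ¬ rt a b ∣ RR nd ar fr l := by
  refine rt_mul (rt_prod fun c _ => rt_prod fun d _ => rt_pow _ fun h0 => ?_)
    (rt_prod fun c _ => rt_pow _ fun _ => ?_)
  · have h : nd c ≠ nd d := fun h => h0 (by rw [h, har, zero_mul])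
    refine rt_rt (by rintro rfl; exact h rfl) ?_ ?_
    · rintro ⟨rfl, rfl⟩; exact h hn.symm
    · rintro ⟨rfl, rfl⟩; exact h hn
  · rw [rt_dvd_iff, MvPolynomial.rename_X]
    exact MvPolynomial.X_ne_zero _

omit [Fintype I] in
theorem inW_swap {a b : I} (hn : nd a = nd b) : InW nd (Equiv.swap a b) := fun c => by
  by_cases h : c = a
  · simp [h, hn]
  · by_cases h' : c = b
    · simp [h', hn]
    · rw [Equiv.swap_apply_of_ne_of_ne h h']

theorem mono_AH {l : I → ℤ} (hl : Minu l) (f : PP I) : mono nd ar fr l f ∈ AH nd ar fr := by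
  refine ⟨sum_mem fun σ _ => gr_single (EE_MR _ _), fun a b hn hab => BB_half ?_⟩
  nth_rw 2 [← h46_cou_inv (h46_mono_mem hl f) (inW_swap hn)]
  rw [mono, map_sum, ← Finset.sum_add_distrib]
  refine sum_mem fun σ _ => BB_of_inv hab (GO_BB ?_)
  rw [smul_single]
  refine GO_single _ ?_
  obtain ⟨q, hq, e⟩ := DL_eq hn hab (l ∘ σ.symm)
  refine OO_div hq ?_
  have h0 := SR_ne (DL_mem (nd := nd) (l ∘ σ.symm))
  have h1 : ((l ∘ σ.symm) a - (l ∘ σ.symm) b).natAbs ≤ 1 := by
    simp only [Function.comp]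
    rcases hl with hl | hl <;> have := hl (σ.symm a) <;> have := hl (σ.symm b) <;> omega
  convert ip_mem a b (rt a b ^ (1 - ((l ∘ σ.symm) a - (l ∘ σ.symm) b).natAbs) *
    MvPolynomial.rename σ f * RR nd ar fr (l ∘ σ.symm)) using 1
  rw [EE_eq, smul_eq_mul]
  field_simp
  rw [e, al]
  nth_rw 1 [← pow_one (rt a b), ← Nat.sub_add_cancel h1]
  simp only [ip, map_mul, map_pow]
  ring

theorem cou_AH {x : LL I} (hx : x ∈ Cou nd ar fr) : x ∈ AH nd ar fr :=
  Algebra.adjoin_le (S := AH nd ar fr) (by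
    rintro _ ⟨l, f, hl, rfl⟩
    exact mono_AH hl f) hx

theorem AH_br {x y : LL I} (hx : x ∈ AH nd ar fr) (hy : y ∈ AH nd ar fr)
    (h : ∀ σ, InW nd σ → actL σ (br x y) = br x y) : br x y ∈ AH nd ar fr :=
  ⟨MR_br hx.1 hy.1, fun a b hn hab => BB_half (by
    nth_rw 2 [← h _ (inW_swap hn)]
    exact BB_of_inv hab (BB_br hab (hx.2 a b hn hab) (hy.2 a b hn hab)))⟩

theorem AH_lead (har : ∀ j, ar j j = 0) {ord : I → ℕ} (ho : Function.Injective ord) {x : LL I}
    (hx : x ∈ AH nd ar fr) (hi : ∀ σ, InW nd σ → actL σ x = x) {l : I → ℤ} (hl : Dom nd ord l)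
    (h : ∀ a b, nd a = nd b → ord a < ord b → ∀ n : ℤ, 0 < n → x.coeff (l + n • cor a b) = 0) :
    ∃ f, InvL nd l f ∧ x.coeff l = ip f * EE nd ar fr l := by
  obtain ⟨c, hc, e⟩ := hx.1 l
  have key : ∀ a b, nd a = nd b → ord a < ord b → c * ip (DL nd l) ∈ OO a b := by
    intro a b hn hlt
    have hab : a ≠ b := by rintro rfl; exact lt_irrefl _ hlt
    have h1 := BB_top hab l (l a - l b).natAbs (hx.2 a b hn hab) fun n hn' => by
      refine ⟨?_, by_contra fun h0 => hn' (h a b hn hlt n (by omega))⟩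
      by_contra h0
      have h2 := actL_coeff (Equiv.swap a b) x (l + n • cor a b)
      have h3 : (l + n • cor a b) ∘ Equiv.swap a b = l + (-n - (l a - l b)) • cor a b := by
        rw [comp_swap hab, add_sub_assoc, ← sub_smul]
        congr 2
        simp only [cor, zsmul_eq_mul, Pi.add_apply, Pi.mul_apply, Pi.intCast_apply, Int.cast_eq, Pi.sub_apply, Pi.single_eq_same, ne_eq, hab, not_false_eq_true, Pi.single_eq_of_ne, sub_zero, mul_one, hab.symm, zero_sub, Int.reduceNeg, mul_neg]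
        ring
      have h4 := hl a b hn hlt
      rw [hi _ (inW_swap hn), Equiv.symm_swap, h3, h a b hn hlt _ (by omega)] at h2
      exact hn' ((map_eq_zero_iff _ (AlgEquiv.injective _)).1 h2.symm)
    obtain ⟨q, -, e'⟩ := DL_eq hn hab l
    refine OO_div (RR_unit (fr := fr) har hn l) ?_
    convert mul_mem h1 (ip_mem a b q) using 1
    rw [e, e', al]
    simp only [ip, map_mul, map_pow]
    ring
  obtain ⟨f, hf⟩ := PD_poly (mul_mem hc (ip_PD (DL nd l))) fun a b hn hab => by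
    rcases lt_or_gt_of_ne (ho.ne hab) with h | h
    · exact key a b hn h
    · exact OO_symm (key b a hn.symm h)
  have e2 : x.coeff l = ip f * EE nd ar fr l := by
    have := SR_ne (DL_mem (nd := nd) l)
    rw [e, ← hf, EE_eq]
    field_simp
  refine ⟨f, fun σ hσ hl' => ?_, e2⟩
  have h1 : l ∘ σ.symm = l := by
    nth_rw 1 [← hl']
    funext a
    simp
  have h2 := actL_coeff σ x l
  rw [hi σ hσ, h1, e2, map_mul, actK_poly, actK_EE hσ, h1] at h2
  exact ip_inj (mul_right_cancel₀ (EE_ne_zero har l) h2).symm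

end C73.H34

namespace C73
variable {I ι : Type} [Fintype I] [DecidableEq I] {nd : I → ι} {ar : ι → ι → ℕ} {fr : ι → ℕ}

theorem h34_lead (har : ∀ j, ar j j = 0) {ord : I → ℕ} (ho : Function.Injective ord) {x : LL I}
    (hx : x ∈ Cou nd ar fr) {l : I → ℤ} (hl : Dom nd ord l)
    (h : ∀ a b, nd a = nd b → ord a < ord b → ∀ n : ℤ, 0 < n →
      x.coeff (l + n • (Pi.single a 1 - Pi.single b 1)) = 0) :
    ∃ f, InvL nd l f ∧ x.coeff l = algebraMap (PP I) (KK I) f * EE nd ar fr l :=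
  H34.AH_lead har ho (H34.cou_AH hx) (fun _ hσ => h46_cou_inv hx hσ) hl h

end C73
end
end

section
/-! Block A1, part d (helper34): generators of the algebra of leading terms. -/

open Set AddMonoidAlgebra

noncomputable section
namespace C73.H34

variable {I ι : Type} [Fintype I] [DecidableEq I] {nd : I → ι} {ar : ι → ι → ℕ} {fr : ι → ℕ}

omit [Fintype I] [DecidableEq I] in
theorem inW_pair {l : I → ℤ} {σ : Equiv.Perm I} :
    InW (fun a => (nd a, l a)) σ ↔ InW nd σ ∧ l ∘ σ = l := by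
  simp only [InW, Prod.mk.injEq, funext_iff, Function.comp, forall_and]

omit [Fintype I] [DecidableEq I] in
theorem comp_symm_iff {l : I → ℤ} {σ : Equiv.Perm I} : l ∘ σ.symm = l ↔ l ∘ σ = l :=
  ⟨fun h => by nth_rw 1 [← h]; funext a; simp, fun h => by nth_rw 1 [← h]; funext a; simp⟩

theorem mono_top (l : I → ℤ) (f : PP I) : (mono nd ar fr l f).coeff l =
    ip (h13_R (fun a => (nd a, l a)) f) * EE nd ar fr l := by
  classical
  rw [mono, h13_R_apply, coeff_sum, Finsupp.finsetSum_apply, ip, map_sum, Finset.sum_mul,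
    Finset.sum_filter, Finset.sum_filter]
  refine Finset.sum_congr rfl fun σ _ => ?_
  simp only [coeff_single, Finsupp.single_apply, inW_pair, comp_symm_iff]
  by_cases h : ∀ a, nd (σ a) = nd a
  · by_cases h' : l ∘ σ = l
    · rw [if_pos h, if_pos h', if_pos ⟨h, h'⟩, comp_symm_iff.2 h']
    · rw [if_pos h, if_neg h', if_neg fun h => h' h.2]
  · rw [if_neg h, if_neg fun h' => h h'.1]

omit [Fintype I] [DecidableEq I] in
theorem inv_le {l : I → ℤ} {c : PP I} (h : c ∈ h13_inv nd) : c ∈ h13_inv fun a => (nd a, l a) :=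
  fun σ hσ => h σ (inW_pair.1 hσ).1

theorem inv_span {Φ : Finset (PP I)} (hΦ : ∀ f : PP I, ∃ c : PP I → PP I,
    (∀ g σ, InW nd σ → MvPolynomial.rename σ (c g) = c g) ∧ f = ∑ g ∈ Φ, c g * g) {l : I → ℤ}
    {h : PP I} (hh : h ∈ h13_inv fun a => (nd a, l a)) : ∃ c : PP I → PP I, (∀ g, c g ∈ h13_inv nd) ∧
      ip h * EE nd ar fr l = ∑ g ∈ Φ, ip (c g) * (mono nd ar fr l g).coeff l := by
  classical
  obtain ⟨c, hc, e⟩ := hΦ h
  obtain ⟨N, h0, h1⟩ : ∃ N : ℂ, N ≠ 0 ∧ h13_R (fun a => (nd a, l a)) h = N • h :=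
    ⟨_, h13_card fun a => (nd a, l a), by
      rw [h13_R_apply, Finset.sum_congr rfl fun σ hσ => hh σ (Finset.mem_filter.1 hσ).2,
        Finset.sum_const, ← Nat.cast_smul_eq_nsmul ℂ]⟩
  refine ⟨fun g => N⁻¹ • c g, fun g => (h13_inv nd).smul_mem (hc g) _, ?_⟩
  have h2 : h = ∑ g ∈ Φ, N⁻¹ • c g * h13_R (fun a => (nd a, l a)) g := by
    have : h = N⁻¹ • h13_R (fun a => (nd a, l a)) h := by
      rw [h1, smul_smul, inv_mul_cancel₀ h0, one_smul]
    rw [this]
    nth_rw 1 [e]
    rw [map_sum, Finset.smul_sum]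
    exact Finset.sum_congr rfl fun g _ => by rw [h13_R_mul _ (inv_le (hc g)), smul_mul_assoc]
  nth_rw 1 [h2]
  simp only [mono_top, ip, map_sum, map_mul, Finset.sum_mul, mul_assoc]

/-- step functions -/
def st (t : Bool × ℕ) (v : ℤ) : ℤ :=
  if t.1 then (if (t.2 : ℤ) < v then 1 else 0) else if v < -(t.2 : ℤ) then -1 else 0

/-- the layers -/
def TT (B : ℕ) : Finset (Bool × ℕ) := Finset.univ ×ˢ Finset.range B

theorem st_mono (t : Bool × ℕ) {v w : ℤ} (h : v ≤ w) : st t v ≤ st t w := by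
  unfold st; split_ifs <;> omega

theorem st_sign (t : Bool × ℕ) (v : ℤ) : 0 ≤ st t v * v ∧ |st t v| ≤ |v| := by
  unfold st; split_ifs <;> simp only [one_mul, abs_one, le_abs, zero_mul, Std.le_refl, abs_zero, Int.neg_nonneg, true_and, Int.reduceNeg, neg_mul, abs_neg] <;> omega

theorem st_zero (t : Bool × ℕ) : st t 0 = 0 := by
  unfold st; split_ifs <;> omega

theorem st_sum {B : ℕ} {v : ℤ} (h : v.natAbs ≤ B) : ∑ t ∈ TT B, st t v = v := by
  have : ∀ B : ℕ, ∑ t ∈ TT B, st t v = max (-(B : ℤ)) (min v B) := fun B => by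
    rw [TT, Finset.sum_product_right]
    induction B with
    | zero => simp only [Finset.range_zero, Fintype.univ_bool, Finset.mem_singleton, Bool.true_eq_false, not_false_eq_true, Finset.sum_insert, Finset.sum_singleton, Finset.sum_empty, CharP.cast_eq_zero, neg_zero, inf_le_right, sup_of_le_left]
    | succ B ih =>
      rw [Finset.sum_range_succ, ih]
      simp only [Fintype.sum_bool, st, if_true, Bool.false_eq_true, if_false]
      split_ifs <;> omega
  rw [this]; omega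

theorem st_nat {B : ℕ} {v w : ℤ} (h : v.natAbs ≤ B) (h' : w.natAbs ≤ B) :
    (v - w).toNat = ∑ t ∈ TT B, (st t v - st t w).toNat := by
  rcases le_total w v with h1 | h1
  · zify
    rw [Finset.sum_congr rfl fun t _ => Int.toNat_of_nonneg (sub_nonneg.2 (st_mono t h1)),
      Finset.sum_sub_distrib, st_sum h, st_sum h', Int.toNat_of_nonneg (sub_nonneg.2 h1)]
  · rw [Finset.sum_eq_zero fun t _ => by have := st_mono t h1; omega]
    omega

omit [DecidableEq I] in
theorem EE_layers {l : I → ℤ} {B : ℕ} (h : ∀ a, (l a).natAbs ≤ B) :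
    EE nd ar fr l = ∏ t ∈ TT B, EE nd ar fr (st t ∘ l) := by
  simp only [EE, Finset.prod_div_distrib, Finset.prod_mul_distrib, Function.comp]
  congr 1
  · congr 1
    · rw [Finset.prod_comm (s := TT B)]
      refine Finset.prod_congr rfl fun a _ => ?_
      rw [Finset.prod_comm]
      refine Finset.prod_congr rfl fun b _ => ?_
      rw [Finset.prod_pow_eq_pow_sum, ← Finset.mul_sum, st_nat (h a) (h b)]
    · rw [Finset.prod_comm]
      refine Finset.prod_congr rfl fun a _ => ?_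
      have := st_nat (v := 0) (by simp) (h a)
      simp only [st_zero, zero_sub] at this
      rw [Finset.prod_pow_eq_pow_sum, ← Finset.mul_sum, this]
  · rw [Finset.prod_comm (s := TT B)]
    refine Finset.prod_congr rfl fun a _ => ?_
    rw [Finset.prod_comm]
    refine Finset.prod_congr rfl fun b _ => ?_
    rw [Finset.prod_pow_eq_pow_sum, st_nat (h a) (h b)]

/-- span of the products over the layers -/
def W0 (nd : I → ι) (l : I → ℤ) (B : ℕ) : Submodule ℂ (PP I) :=
  Submodule.span ℂ {f | ∃ c ∈ h13_inv nd, ∃ h : Bool × ℕ → PP I,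
    (∀ t, h t ∈ h13_inv fun a => (nd a, (st t ∘ l) a)) ∧ f = c * ∏ t ∈ TT B, h t}

/-- multipliers of a subspace -/
def Mul0 (W : Submodule ℂ (PP I)) : Subalgebra ℂ (PP I) where
  carrier := {f | ∀ w ∈ W, f * w ∈ W}
  mul_mem' hf hg w hw := by rw [mul_assoc]; exact hf _ (hg w hw)
  add_mem' hf hg w hw := by rw [add_mul]; exact add_mem (hf w hw) (hg w hw)
  algebraMap_mem' r w hw := by rw [← Algebra.smul_def]; exact W.smul_mem r hw

omit [Fintype I] [DecidableEq I] in
theorem mul0_span {R : Type} [CommRing R] [Algebra ℂ R] {S : Set R} {W : Submodule ℂ R} {p : R}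
    (h : ∀ w ∈ S, p * w ∈ W) : ∀ w ∈ Submodule.span ℂ S, p * w ∈ W := fun w hw => by
  induction hw using Submodule.span_induction with
  | mem w hw => exact h w hw
  | zero => simp
  | add x y _ _ h1 h2 => rw [mul_add]; exact add_mem h1 h2
  | smul r x _ h1 => rw [mul_smul_comm]; exact W.smul_mem r h1

omit [Fintype I] [DecidableEq I] in
theorem mul0_inv {l : I → ℤ} {B : ℕ} {p : PP I} (hp : p ∈ h13_inv nd) : p ∈ Mul0 (W0 nd l B) :=
  mul0_span (by
    rintro _ ⟨c, hc, h, hh, rfl⟩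
    exact Submodule.subset_span ⟨p * c, mul_mem hp hc, h, hh, by rw [mul_assoc]⟩)

omit [Fintype I] [DecidableEq I] in
theorem mul0_lay {l : I → ℤ} {B : ℕ} {p : PP I} {t : Bool × ℕ} (ht : t ∈ TT B)
    (hp : p ∈ h13_inv fun a => (nd a, (st t ∘ l) a)) : p ∈ Mul0 (W0 nd l B) :=
  mul0_span (by
    rintro _ ⟨c, hc, h, hh, rfl⟩
    refine Submodule.subset_span ⟨c, hc, fun s => (if s = t then p else 1) * h s, fun s => ?_, ?_⟩
    · refine mul_mem ?_ (hh s)
      split_ifs with h'
      · exact h' ▸ hp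
      · exact one_mem _
    · rw [Finset.prod_mul_distrib, Finset.prod_ite_eq', if_pos ht]; ring)

omit [DecidableEq I] in
open Classical in
theorem ps_inv {κ : Type} {β : I → κ} (p : I → Prop) (hp : ∀ a b, β a = β b → (p a ↔ p b)) (n : ℕ) :
    (∑ a, if p a then MvPolynomial.X a ^ n else 0 : PP I) ∈ h13_inv β := fun σ hσ => by
  rw [map_sum, ← Equiv.sum_comp σ (fun a => if p a then MvPolynomial.X a ^ n else 0)]
  refine Finset.sum_congr rfl fun a _ => ?_
  simp only [hp _ _ (hσ a)]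
  split_ifs <;> simp

theorem invL_W0 {l : I → ℤ} {B : ℕ} (hB : ∀ a, (l a).natAbs ≤ B) {f : PP I} (hf : InvL nd l f) :
    f ∈ W0 nd l B := by
  classical
  suffices h : f ∈ Mul0 (W0 nd l B) by
    simpa using h 1 (Submodule.subset_span ⟨1, one_mem _, fun _ => 1, fun _ => one_mem _, by simp⟩)
  refine Algebra.adjoin_le (S := Mul0 (W0 nd l B)) ?_ (h13_inv_adjoin (fun a => (nd a, l a))
    fun σ hσ => hf σ (inW_pair.1 hσ).1 (inW_pair.1 hσ).2)
  rintro _ ⟨⟨j, v⟩, n, rfl⟩
  have h1 : ∀ m : ℕ, (∑ a, if nd a = j ∧ (m : ℤ) < l a then MvPolynomial.X a ^ n else 0 : PP I) ∈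
      Mul0 (W0 nd l B) := fun m => by
    by_cases hm : m < B
    · refine mul0_lay (t := (true, m)) (by simp [TT, hm]) ?_
      convert ps_inv (fun a => nd a = j ∧ (m : ℤ) < l a) (fun a b h => ?_) n
      simp only [Prod.mk.injEq, Function.comp, st, if_true] at h
      grind
    · rw [Finset.sum_eq_zero fun a _ => if_neg (by have := hB a; omega)]
      exact zero_mem _
  have h2 : ∀ m : ℕ, (∑ a, if nd a = j ∧ l a < -(m : ℤ) then MvPolynomial.X a ^ n else 0 : PP I) ∈
      Mul0 (W0 nd l B) := fun m => by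
    by_cases hm : m < B
    · refine mul0_lay (t := (false, m)) (by simp [TT, hm]) ?_
      convert ps_inv (fun a => nd a = j ∧ l a < -(m : ℤ)) (fun a b h => ?_) n
      simp only [Prod.mk.injEq, Function.comp, st, Bool.false_eq_true, if_false] at h
      grind
    · rw [Finset.sum_eq_zero fun a _ => if_neg (by have := hB a; omega)]
      exact zero_mem _
  have h3 : (∑ a, if nd a = j then MvPolynomial.X a ^ n else 0 : PP I) ∈ Mul0 (W0 nd l B) :=
    mul0_inv (by convert ps_inv (β := nd) (fun a => nd a = j) (fun a b h => by rw [h]) n)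
  rw [SetLike.mem_coe, Finset.sum_filter]
  simp only [Prod.mk.injEq]
  rcases lt_trichotomy v 0 with hv | hv | hv
  · convert sub_mem (h2 (-v - 1).toNat) (h2 (-v).toNat) using 1
    rw [← Finset.sum_sub_distrib]
    refine Finset.sum_congr rfl fun a _ => ?_
    by_cases h : nd a = j <;> simp only [h, true_and, false_and] <;> split_ifs <;>
      first | omega | contradiction | simp
  · convert sub_mem (sub_mem h3 (h1 0)) (h2 0) using 1
    rw [← Finset.sum_sub_distrib, ← Finset.sum_sub_distrib]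
    refine Finset.sum_congr rfl fun a _ => ?_
    by_cases h : nd a = j <;> simp only [h, true_and, false_and] <;> split_ifs <;>
      first | omega | contradiction | simp
  · convert sub_mem (h1 (v - 1).toNat) (h1 v.toNat) using 1
    rw [← Finset.sum_sub_distrib]
    refine Finset.sum_congr rfl fun a _ => ?_
    by_cases h : nd a = j <;> simp only [h, true_and, false_and] <;> split_ifs <;>
      first | omega | contradiction | simp

/-- span of monomials in the leading coefficients -/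
def UU (nd : I → ι) {n : ℕ} (lg : Fin n → I → ℤ) (G : Fin n → KK I) (l μ : I → ℤ) (k : ℕ) :
    Submodule ℂ (KK I) :=
  Submodule.span ℂ {y | ∃ c ∈ h13_inv nd, ∃ e : Fin n → ℕ, ∑ g, (e g : ℤ) • lg g = μ ∧
    (∀ g a, e g ≠ 0 → 0 ≤ lg g a * l a ∧ |lg g a| ≤ |l a|) ∧ ∑ g, e g = k ∧
    y = ip c * ∏ g, G g ^ e g}

omit [Fintype I] [DecidableEq I] in
theorem UU_step {n : ℕ} {lg : Fin n → I → ℤ} {G : Fin n → KK I} {l μ : I → ℤ} {k : ℕ} (g : Fin n)
    (hg : ∀ a, 0 ≤ lg g a * l a ∧ |lg g a| ≤ |l a|) {c : PP I} (hc : c ∈ h13_inv nd) :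
    ∀ y ∈ UU nd lg G l μ k, ip c * G g * y ∈ UU nd lg G l (lg g + μ) (k + 1) :=
  mul0_span (by
    rintro _ ⟨c', hc', e, h1, h2, h3, rfl⟩
    refine Submodule.subset_span ⟨c * c', mul_mem hc hc', Pi.single g 1 + e, ?_, fun g' a h => ?_,
      ?_, ?_⟩
    · simp only [Pi.add_apply, Nat.cast_add, add_smul, Finset.sum_add_distrib, h1]
      congr 1
      rw [Finset.sum_eq_single g] <;> simp +contextual only [Pi.single_eq_same, Nat.cast_one, one_smul, Finset.mem_univ, ne_eq, not_false_eq_true, Pi.single_eq_of_ne, CharP.cast_eq_zero, zero_smul, implies_true, imp_self, not_true_eq_false, IsEmpty.forall_iff]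
    · by_cases h' : g' = g
      · exact h' ▸ hg a
      · exact h2 g' a (by simpa [Pi.single_apply, h'] using h)
    · simp only [Pi.add_apply, add_comm, Finset.sum_add_distrib, h3, Finset.sum_pi_single', Finset.mem_univ, ↓ reduceIte, Nat.add_left_cancel_iff]
    · simp only [Pi.add_apply, pow_add, Finset.prod_mul_distrib, ip, map_mul]
      rw [Finset.prod_eq_single g (f := fun x => G x ^ (Pi.single g 1 : Fin n → ℕ) x)]
      · simp only [Pi.single_eq_same, pow_one]; ring
      · simp +contextual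
      · simp)

end C73.H34

namespace C73
open H34
variable {I ι : Type} [Fintype I] [DecidableEq I] {nd : I → ι} {ar : ι → ι → ℕ} {fr : ι → ℕ}

theorem h34_lead_gen {ord : I → ℕ} (_ho : Function.Injective ord) :
    ∃ (n : ℕ) (lg : Fin n → I → ℤ) (fg : Fin n → PP I), (∀ g, Minu (lg g) ∧ Dom nd ord (lg g)) ∧
      ∀ l f, Dom nd ord l → InvL nd l f → ∃ (m : ℕ) (c : Fin m → PP I) (e : Fin m → Fin n → ℕ),
        (∀ j σ, InW nd σ → MvPolynomial.rename σ (c j) = c j) ∧
        (∀ j, ∑ g, (e j g : ℤ) • lg g = l) ∧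
        (∀ j g a, e j g ≠ 0 → 0 ≤ lg g a * l a ∧ |lg g a| ≤ |l a|) ∧
        (∀ j (B : ℕ), (∀ a, |l a| ≤ B) → ∑ g, e j g ≤ 2 * B) ∧
        algebraMap (PP I) (KK I) f * EE nd ar fr l = ∑ j, algebraMap (PP I) (KK I) (c j) *
          ∏ g, (mono nd ar fr (lg g) (fg g)).coeff (lg g) ^ e j g := by
  obtain ⟨Φ, hΦ⟩ := h13_inv_finite nd
  have hfin : {l : I → ℤ | Minu l ∧ Dom nd ord l}.Finite :=
    (Set.finite_Icc (fun _ => -1) (fun _ => 1)).subset fun l hl =>
      ⟨fun a => by rcases hl.1 with h | h <;> have := h a <;> dsimp only <;> omega,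
        fun a => by rcases hl.1 with h | h <;> have := h a <;> dsimp only <;> omega⟩
  have := hfin.to_subtype
  obtain ⟨n, ⟨φ⟩⟩ := Finite.exists_equiv_fin ({l : I → ℤ | Minu l ∧ Dom nd ord l} × Φ)
  refine ⟨n, fun g => (φ.symm g).1, fun g => (φ.symm g).2, fun g => (φ.symm g).1.2,
    fun l f hl hf => ?_⟩
  set B := Finset.univ.sup fun a => (l a).natAbs with hB
  have hB1 : ∀ a, (l a).natAbs ≤ B := fun a =>
    Finset.le_sup (f := fun a => (l a).natAbs) (Finset.mem_univ a)
  set lg : Fin n → I → ℤ := fun g => (φ.symm g).1 with hlg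
  set G : Fin n → KK I := fun g => (mono nd ar fr (lg g) (φ.symm g).2).coeff (lg g) with hG
  have key : ∀ c ∈ h13_inv nd, ∀ h : Bool × ℕ → PP I,
      (∀ t, h t ∈ h13_inv fun a => (nd a, (st t ∘ l) a)) → ∀ S : Finset (Bool × ℕ),
      ip c * ∏ t ∈ S, (ip (h t) * EE nd ar fr (st t ∘ l)) ∈
        UU nd lg G l (∑ t ∈ S, st t ∘ l) S.card := by
    intro c hc h hh S
    induction S using Finset.induction_on with
    | empty => exact Submodule.subset_span ⟨c, hc, 0, by simp only [Pi.zero_apply, CharP.cast_eq_zero, zero_smul, Finset.sum_const_zero, Finset.sum_empty], by simp only [Pi.zero_apply, ne_eq, not_true_eq_false, IsEmpty.forall_iff, implies_true], by simp only [Pi.zero_apply, Finset.sum_const_zero, Finset.card_empty], by simp only [Finset.prod_empty, mul_one, Pi.zero_apply, pow_zero, Finset.prod_const_one]⟩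
    | insert t S ht ih =>
      obtain ⟨c', hc', e⟩ := inv_span (ar := ar) (fr := fr) hΦ (hh t)
      rw [Finset.prod_insert ht, Finset.sum_insert ht, Finset.card_insert_of_notMem ht,
        mul_left_comm, e, Finset.sum_mul]
      refine sum_mem fun g hg => ?_
      have hm : st t ∘ l ∈ {l : I → ℤ | Minu l ∧ Dom nd ord l} :=
        ⟨by
          obtain ⟨_ | _, m⟩ := t
          · exact Or.inr fun a => by simp only [Function.comp, st]; split_ifs <;> simp_all
          · exact Or.inl fun a => by simp only [Function.comp, st]; split_ifs <;> simp_all,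
        fun a b h1 h2 => st_mono t (hl a b h1 h2)⟩
      have := UU_step (φ (⟨_, hm⟩, ⟨g, hg⟩)) (lg := lg) (G := G) (l := l)
        (fun a => by simpa only [hlg, mem_ofPred_eq, Equiv.symm_apply_apply, Function.comp_apply] using st_sign t (l a)) (hc' g) _ ih
      simpa only [hlg, hG, Equiv.symm_apply_apply] using this
  have h1 : ip f * EE nd ar fr l ∈ UU nd lg G l l (2 * B) := by
    have h2 := invL_W0 hB1 hf
    clear hf
    induction h2 using Submodule.span_induction with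
    | mem w hw =>
      obtain ⟨c, hc, h, hh, rfl⟩ := hw
      have h3 := key c hc h hh (TT B)
      have h4 : ∑ t ∈ TT B, st t ∘ l = l := by
        funext a
        rw [Finset.sum_apply]
        exact st_sum (hB1 a)
      have h5 : (TT B).card = 2 * B := by simp [TT]
      rw [h4, h5, Finset.prod_mul_distrib, ← EE_layers hB1] at h3
      simpa only [ip, map_mul, map_prod, mul_assoc] using h3
    | zero => simp [ip]
    | add x y _ _ h1 h2 => rw [ip, map_add, add_mul]; exact add_mem h1 h2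
    | smul r x _ h1 =>
      rw [ip, Algebra.smul_def, map_mul, ← IsScalarTower.algebraMap_apply, mul_assoc,
        ← Algebra.smul_def]
      exact Submodule.smul_mem _ r h1
  obtain ⟨m, r, y, hy⟩ := Submodule.mem_span_set'.1 h1
  choose c hc e h2 h3 h4 h5 using fun j => (y j).2
  refine ⟨m, fun j => r j • c j, e, fun j => Subalgebra.smul_mem _ (hc j) _, h2, h3,
    fun j B' hB' => ?_, ?_⟩
  · rw [h4]
    have : B ≤ B' := Finset.sup_le fun a _ => by have := hB' a; rw [Int.abs_eq_natAbs] at this; omega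
    omega
  · refine hy.symm.trans (Finset.sum_congr rfl fun j _ => ?_)
    dsimp only
    rw [h5, Algebra.smul_def, Algebra.smul_def, map_mul, ← IsScalarTower.algebraMap_apply, mul_assoc]

end C73
end
end

section
/-! Block A1 (helper22): subduction, closure of `Cou` under the bracket. -/

set_option linter.unusedSectionVars false

open AddMonoidAlgebra

noncomputable section
namespace C73.H22

variable {I ι : Type} [Fintype I] [DecidableEq I] {nd : I → ι} {ar : ι → ι → ℕ} {fr : ι → ℕ}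
  {ord : I → ℕ}

/-- the statement of `lead_gen` -/
def LeadGen (nd : I → ι) (ar : ι → ι → ℕ) (fr : ι → ℕ) (ord : I → ℕ) : Prop :=
    ∃ (n : ℕ) (lg : Fin n → I → ℤ) (fg : Fin n → PP I), (∀ g, Minu (lg g) ∧ Dom nd ord (lg g)) ∧
      ∀ l f, Dom nd ord l → InvL nd l f → ∃ (m : ℕ) (c : Fin m → PP I) (e : Fin m → Fin n → ℕ),
        (∀ j σ, InW nd σ → MvPolynomial.rename σ (c j) = c j) ∧
        (∀ j, ∑ g, (e j g : ℤ) • lg g = l) ∧
        (∀ j g a, e j g ≠ 0 → 0 ≤ lg g a * l a ∧ |lg g a| ≤ |l a|) ∧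
        (∀ j (B : ℕ), (∀ a, |l a| ≤ B) → ∑ g, e j g ≤ 2 * B) ∧
        algebraMap (PP I) (KK I) f * EE nd ar fr l = ∑ j, algebraMap (PP I) (KK I) (c j) *
          ∏ g, (mono nd ar fr (lg g) (fg g)).coeff (lg g) ^ e j g

/-- a linear form that is minimised by the dominant element of an orbit -/
def wt (ord : I → ℕ) (μ : I → ℤ) : ℤ := ∑ a, (ord a : ℤ) * μ a

theorem wt_add (μ ν : I → ℤ) : wt ord (μ + ν) = wt ord μ + wt ord ν := by
  simp only [wt, Pi.add_apply, mul_add, Finset.sum_add_distrib]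

theorem wt_lt {a b : I} (h : ord a < ord b) (l : I → ℤ) {n : ℤ} (hn : 0 < n) :
    wt ord (l + n • (Pi.single a 1 - Pi.single b 1)) < wt ord l := by
  have : wt ord (n • (Pi.single a 1 - Pi.single b 1)) = n * (ord a - ord b) := by
    simp only [wt, Pi.smul_apply, Pi.sub_apply, Pi.single_apply, Int.zsmul_eq_mul, mul_sub, mul_ite, mul_one, mul_zero, mul_comm, Finset.sum_sub_distrib, Finset.sum_ite_eq', Finset.mem_univ, ↓ reduceIte]
  rw [wt_add, this]
  have : (ord a : ℤ) < ord b := by exact_mod_cast h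
  nlinarith only [h, hn]

theorem dom_of_min {l : I → ℤ} (h : ∀ σ, InW nd σ → wt ord l ≤ wt ord (l ∘ σ)) : Dom nd ord l := by
  intro a b hn hab
  by_contra! h1
  have h2 : l ∘ Equiv.swap a b = l + (l b - l a) • (Pi.single a 1 - Pi.single b 1) := by
    funext c
    simp only [Function.comp, Equiv.swap_apply_def, Pi.add_apply, Pi.smul_apply, Pi.sub_apply,
      Pi.single_apply, smul_eq_mul]
    split_ifs <;> subst_vars <;> omega
  exact (h _ (H34.inW_swap hn)).not_gt (h2 ▸ wt_lt hab l (sub_pos.2 h1))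

theorem dom_unique (ho : Function.Injective ord) {l : I → ℤ} {σ : Equiv.Perm I} (hσ : InW nd σ)
    (h : Dom nd ord l) (h' : Dom nd ord (l ∘ σ)) : l ∘ σ = l := by
  classical
  have key : ∀ a, l (σ a) ≤ l a := fun a => by
    by_contra! h1
    have h2 : (Finset.univ.filter fun c => nd c = nd a ∧ l (σ a) ≤ l (σ c)).card =
        (Finset.univ.filter fun c => nd c = nd a ∧ l (σ a) ≤ l c).card :=
      Finset.card_equiv σ fun c => by simp only [Finset.mem_filter, Finset.mem_univ, true_and, hσ c]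
    refine (Finset.card_lt_card ⟨fun c hc => ?_, fun h3 => ?_⟩).ne' h2
    · simp only [Finset.mem_filter, Finset.mem_univ, true_and] at hc ⊢
      refine ⟨hc.1, ?_⟩
      rcases lt_trichotomy (ord c) (ord a) with h3 | h3 | h3
      · exact h' c a hc.1 h3
      · rw [ho h3]
      · exact absurd (hc.2.trans (h a c hc.1.symm h3)) h1.not_ge
    · have := h3 (Finset.mem_filter.2 ⟨Finset.mem_univ a, rfl, le_rfl⟩)
      exact h1.not_ge (Finset.mem_filter.1 this).2.2
  funext a
  exact (Finset.sum_eq_sum_iff_of_le fun a _ => key a).1 (Equiv.sum_comp σ l) a (Finset.mem_univ a)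

theorem dom_orbit (ho : Function.Injective ord) {l : I → ℤ} (h : Dom nd ord l) {σ : Equiv.Perm I}
    (hσ : InW nd σ) : l ∘ σ = l ∨ wt ord l < wt ord (l ∘ σ) := by
  classical
  obtain ⟨τ, hτ, h1⟩ := (Finset.univ.filter (InW nd)).exists_min_image (fun τ => wt ord (l ∘ τ))
    ⟨1, Finset.mem_filter.2 ⟨Finset.mem_univ _, h46_inW_one⟩⟩
  have key : ∀ ς, InW nd ς → wt ord (l ∘ ς) ≤ wt ord (l ∘ τ) → l ∘ ς = l := fun ς hς h2 =>
    dom_unique ho hς h (dom_of_min fun υ hυ => h2.trans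
      (h1 (ς * υ) (Finset.mem_filter.2 ⟨Finset.mem_univ _, hς.h46_mul hυ⟩)))
  refine (le_or_gt _ _).imp (fun h2 => key σ hσ ?_) id
  rwa [key τ (Finset.mem_filter.1 hτ).2 le_rfl]

/-- bounds by the extreme entries on each node -/
def Bx (nd : I → ι) (ord : I → ℕ) (μ l : I → ℤ) : Prop := ∀ a b, nd a = nd b →
  ((∀ c, nd c = nd a → ord b ≤ ord c) → μ a ≤ l b) ∧ ((∀ c, nd c = nd a → ord c ≤ ord b) → l b ≤ μ a)

/-- `x` has leading term `c u^l` -/
def Lo (nd : I → ι) (ord : I → ℕ) (l : I → ℤ) (c : KK I) (x : LL I) : Prop :=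
  (∀ μ, x.coeff μ ≠ 0 → (μ = l ∨ wt ord l < wt ord μ) ∧ Bx nd ord μ l) ∧ x.coeff l = c

theorem Lo.mul {l l' : I → ℤ} {c c' : KK I} {x y : LL I} (h : Lo nd ord l c x) (h' : Lo nd ord l' c' y) :
    Lo nd ord (l + l') (c * c') (x * y) := by
  classical
  refine ⟨fun μ hμ => ?_, ?_⟩
  · obtain ⟨p, hp, q, hq, rfl⟩ := Finset.mem_add.1
      (support_coeff_mul_subset x y (Finsupp.mem_support_iff.2 hμ))
    obtain ⟨h1, h2⟩ := h.1 p (Finsupp.mem_support_iff.1 hp)
    obtain ⟨h3, h4⟩ := h'.1 q (Finsupp.mem_support_iff.1 hq)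
    refine ⟨?_, fun a b hn => ⟨fun h5 => add_le_add ((h2 a b hn).1 h5) ((h4 a b hn).1 h5),
      fun h5 => add_le_add ((h2 a b hn).2 h5) ((h4 a b hn).2 h5)⟩⟩
    rw [wt_add, wt_add]
    rcases h1 with rfl | h1 <;> rcases h3 with rfl | h3
    exacts [.inl rfl, .inr (by omega), .inr (by omega), .inr (by omega)]
  · rw [← h.2, ← h'.2]
    refine coeff_mul_add_of_uniqueAdd fun p q hp hq e => ?_
    have e' := congrArg (wt ord) e
    rw [wt_add, wt_add] at e'
    rcases (h.1 p (Finsupp.mem_support_iff.1 hp)).1 with rfl | h1 <;>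
      rcases (h'.1 q (Finsupp.mem_support_iff.1 hq)).1 with rfl | h3
    exacts [⟨rfl, rfl⟩, by omega, by omega, by omega]

theorem lo_zero (c : KK I) : Lo nd ord 0 c (single 0 c) :=
  ⟨fun μ h => by
    obtain rfl := (Finsupp.single_apply_ne_zero.1 h).1
    exact ⟨.inl rfl, fun _ _ _ => ⟨fun _ => le_rfl, fun _ => le_rfl⟩⟩, Finsupp.single_eq_same⟩

theorem Lo.pow {l : I → ℤ} {c : KK I} {x : LL I} (h : Lo nd ord l c x) (n : ℕ) :
    Lo nd ord ((n : ℤ) • l) (c ^ n) (x ^ n) := by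
  induction n with
  | zero => simpa [one_def] using lo_zero 1
  | succ n ih => rw [Nat.cast_succ, add_smul, one_smul, pow_succ, pow_succ]; exact ih.mul h

theorem Lo.prod {κ : Type} (s : Finset κ) {l : κ → I → ℤ} {c : κ → KK I} {x : κ → LL I}
    (h : ∀ j, Lo nd ord (l j) (c j) (x j)) : Lo nd ord (∑ j ∈ s, l j) (∏ j ∈ s, c j) (∏ j ∈ s, x j) := by
  classical
  induction s using Finset.induction_on with
  | empty => simpa [one_def] using lo_zero 1
  | insert j s hj ih =>
    rw [Finset.sum_insert hj, Finset.prod_insert hj, Finset.prod_insert hj]; exact (h j).mul ih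

theorem lo_mono (ho : Function.Injective ord) {l : I → ℤ} (h : Dom nd ord l) (f : PP I) :
    Lo nd ord l ((mono nd ar fr l f).coeff l) (mono nd ar fr l f) := by
  refine ⟨fun μ hμ => ?_, rfl⟩
  obtain ⟨σ, hσ, rfl⟩ := h46_mono_supp hμ
  refine ⟨dom_orbit ho h hσ, fun a b hn => ⟨fun h1 => ?_, fun h1 => ?_⟩⟩
  · rcases (h1 _ (hσ a)).eq_or_lt with h2 | h2
    exacts [(congrArg l (ho h2)).ge, h _ _ (hn.symm.trans (hσ a).symm) h2]
  · rcases (h1 _ (hσ a)).eq_or_lt with h2 | h2
    exacts [(congrArg l (ho h2)).ge, h _ _ ((hσ a).trans hn) h2]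

theorem Bx.abs {μ l : I → ℤ} (h : Bx nd ord μ l) {B : ℤ} (hl : ∀ a, |l a| ≤ B) (a : I) : |μ a| ≤ B := by
  classical
  have hne : (Finset.univ.filter (nd · = nd a)).Nonempty := ⟨a, by simp only [Finset.mem_filter, Finset.mem_univ, and_self]⟩
  obtain ⟨b, hb, h1⟩ := Finset.exists_min_image _ ord hne
  obtain ⟨b', hb', h2⟩ := Finset.exists_max_image _ ord hne
  have h3 := (h a b (Finset.mem_filter.1 hb).2.symm).1 fun c hc => h1 c (by simpa only [Finset.mem_filter, Finset.mem_univ, true_and] using hc)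
  have h4 := (h a b' (Finset.mem_filter.1 hb').2.symm).2 fun c hc => h2 c (by simpa only [Finset.mem_filter, Finset.mem_univ, true_and] using hc)
  exact abs_le.2 ⟨(abs_le.1 (hl b')).1.trans h4, h3.trans (abs_le.1 (hl b)).2⟩

theorem AH_sub (har : ∀ j, ar j j = 0) (ho : Function.Injective ord) (hg : LeadGen nd ar fr ord)
    {x : LL I} (hx : x ∈ H34.AH nd ar fr) (hi : ∀ σ, InW nd σ → actL σ x = x) : x ∈ Cou nd ar fr := by
  classical
  obtain ⟨n, lg, fg, hlg, hg⟩ := hg
  have key : ∀ (B : ℤ) (S : Finset (I → ℤ)), (∀ μ ∈ S, ∀ a, |μ a| ≤ B) →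
      (∀ μ, (∀ a, |μ a| ≤ B) → ∀ l ∈ S, wt ord l < wt ord μ → μ ∈ S) →
      ∀ x ∈ H34.AH nd ar fr, (∀ σ, InW nd σ → actL σ x = x) → (∀ μ, x.coeff μ ≠ 0 → μ ∈ S) →
        x ∈ Cou nd ar fr := by
    intro B S
    induction S using Finset.induction_on_min_value (wt ord) with
    | empty =>
      intro _ _ x _ _ h
      obtain rfl : x = 0 := coeff_eq_zero.1 (Finsupp.ext fun μ => by_contra fun h1 => by
        simpa using h μ h1)
      exact zero_mem _
    | insert l s hl hmin ih =>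
      intro hB hS x hx hi h
      replace ih := ih (fun μ hμ => hB μ (Finset.mem_insert_of_mem hμ)) fun μ hμ l' hl' h1 =>
        Finset.mem_of_mem_insert_of_ne (hS μ hμ l' (Finset.mem_insert_of_mem hl') h1) (by
          rintro rfl; exact (hmin l' hl').not_gt h1)
      have hle : ∀ μ, x.coeff μ ≠ 0 → wt ord l ≤ wt ord μ := fun μ hμ => by
        rcases Finset.mem_insert.1 (h μ hμ) with rfl | h1
        exacts [le_rfl, hmin μ h1]
      by_cases h0 : x.coeff l = 0
      · exact ih x hx hi fun μ hμ => Finset.mem_of_mem_insert_of_ne (h μ hμ) (by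
          rintro rfl; exact hμ h0)
      have hd : Dom nd ord l := dom_of_min fun σ hσ => hle _ (by
        have h1 := actL_coeff σ⁻¹ x l
        rw [hi _ hσ.h46_inv] at h1
        exact h1.trans_ne ((map_ne_zero _).2 h0))
      obtain ⟨f, hf, e⟩ := H34.AH_lead har ho hx hi hd fun a b _ hab k hk =>
        by_contra fun h1 => (hle _ h1).not_gt (wt_lt hab l hk)
      obtain ⟨m, c, ex, hc, hsum, -, -, e'⟩ := hg l f hd hf
      have hy : ∑ j, pL (c j) * ∏ g, mono nd ar fr (lg g) (fg g) ^ ex j g ∈ Cou nd ar fr :=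
        sum_mem fun j _ => mul_mem (h46_pL_mem (hc j))
          (prod_mem fun g _ => pow_mem (h46_mono_mem (hlg g).1 _) _)
      have hlo := fun j => (lo_zero (algebraMap (PP I) (KK I) (c j))).mul
        (Lo.prod Finset.univ fun g => (lo_mono (ar := ar) (fr := fr) ho (hlg g).2 (fg g)).pow (ex j g))
      simp only [zero_add, hsum] at hlo
      rw [← sub_add_cancel x (∑ j, pL (c j) * ∏ g, mono nd ar fr (lg g) (fg g) ^ ex j g)]
      refine add_mem (ih _ (sub_mem hx (H34.cou_AH hy)) (fun σ hσ => by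
        rw [map_sub, hi σ hσ, h46_cou_inv hy hσ]) fun μ hμ => ?_) hy
      rw [coeff_sub, Finsupp.sub_apply, coeff_sum, Finsupp.finsetSum_apply] at hμ
      have hne : μ ≠ l := by
        rintro rfl
        exact hμ (sub_eq_zero.2 (e.trans (e'.trans (Finset.sum_congr rfl fun j _ => (hlo j).2.symm))))
      refine Finset.mem_of_mem_insert_of_ne ?_ hne
      by_cases h1 : x.coeff μ = 0
      · rw [h1, zero_sub, neg_ne_zero] at hμ
        obtain ⟨j, -, h2⟩ := Finset.exists_ne_zero_of_sum_ne_zero hμ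
        obtain ⟨h3, h4⟩ := (hlo j).1 μ h2
        exact hS μ (h4.abs (hB l (Finset.mem_insert_self _ _))) l (Finset.mem_insert_self _ _)
          (h3.resolve_left hne)
      · exact h μ h1
  obtain ⟨B, hB⟩ := ((x.coeff.support ×ˢ Finset.univ).image fun p => |p.1 p.2|).bddAbove
  refine key B (Fintype.piFinset fun _ => Finset.Icc (-B) B) (fun μ hμ a => abs_le.2
    (Finset.mem_Icc.1 (Fintype.mem_piFinset.1 hμ a))) (fun μ hμ _ _ _ => Fintype.mem_piFinset.2
      fun a => Finset.mem_Icc.2 (abs_le.1 (hμ a))) x hx hi fun μ hμ => Fintype.mem_piFinset.2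
      fun a => Finset.mem_Icc.2 (abs_le.1 (hB (Finset.mem_coe.2 (Finset.mem_image.2
        ⟨(μ, a), by simpa only [Finset.mem_product, Finsupp.mem_support_iff, ne_eq, Finset.mem_univ, and_true] using hμ, rfl⟩))))

variable (hg : ∀ {ord : I → ℕ}, Function.Injective ord → LeadGen nd ar fr ord)
include hg

theorem cou_br (har : ∀ j, ar j j = 0) {x y : LL I} (hx : x ∈ Cou nd ar fr) (hy : y ∈ Cou nd ar fr) :
    br x y ∈ Cou nd ar fr := by
  have ho : Function.Injective fun a => (Fintype.equivFin I a : ℕ) :=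
    Fin.val_injective.comp (Fintype.equivFin I).injective
  have hi : ∀ σ, InW nd σ → actL σ (br x y) = br x y := fun σ hσ => by
    rw [← br_actL, h46_cou_inv hx hσ, h46_cou_inv hy hσ]
  exact AH_sub har ho (hg ho) (H34.AH_br (H34.cou_AH hx) (H34.cou_AH hy) hi) hi

theorem brA_coe (har : ∀ j, ar j j = 0) (x y : Cou nd ar fr) :
    (brA (Cou nd ar fr) x y : LL I) = br x y := toSub_coe (cou_br hg har x.2 y.2)

theorem cou_poi (har : ∀ j, ar j j = 0) : IsPoi (brA (Cou nd ar fr)) where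
  add f g h := Subtype.ext (by simpa only [brA_coe hg har, Subalgebra.coe_add] using br_poi.add _ _ _)
  smul c f g := Subtype.ext (by simpa only [brA_coe hg har, Subalgebra.coe_smul] using br_poi.smul _ _ _)
  anti f g := Subtype.ext (by simpa only [brA_coe hg har, Subalgebra.coe_neg] using br_poi.anti _ _)
  mul f g h := Subtype.ext (by
    simpa only [brA_coe hg har, Subalgebra.coe_add, Subalgebra.coe_mul] using br_poi.mul _ _ _)
  jac f g h := Subtype.ext (by simpa only [brA_coe hg har, Subalgebra.coe_add] using br_poi.jac _ _ _)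

end C73.H22
end
end

section
/-! Block A1 (owner helper13): structure of `Cou`. -/

open Set Filter Topology TopologicalSpace

noncomputable section
namespace C73

variable {I ι : Type} [Fintype I] [DecidableEq I] {nd : I → ι} {ar : ι → ι → ℕ} {fr : ι → ℕ}

theorem mono_mem {l : I → ℤ} (hl : Minu l) (f : PP I) : mono nd ar fr l f ∈ Cou nd ar fr :=
  h46_mono_mem hl f
theorem cou_inv {x : LL I} (hx : x ∈ Cou nd ar fr) {σ : Equiv.Perm I} (h : InW nd σ) :
    actL σ x = x :=
  h46_cou_inv hx h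
theorem pL_mem {p : PP I} (h : ∀ σ, InW nd σ → MvPolynomial.rename σ p = p) :
    pL p ∈ Cou nd ar fr :=
  h46_pL_mem h
theorem pL_inv {p : PP I} (h : pL p ∈ Cou nd ar fr) {σ : Equiv.Perm I} (hσ : InW nd σ) :
    MvPolynomial.rename σ p = p :=
  h46_pL_inv h hσ
theorem cou_fg : Algebra.FiniteType ℂ (Cou nd ar fr) :=
  h13_cou_fg
/-- `P` is generated by finitely many elements over the invariants of any block group -/
theorem inv_finite {κ : Type} (β : I → κ) : ∃ Φ : Finset (PP I), ∀ f : PP I, ∃ c : PP I → PP I,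
    (∀ g σ, InW β σ → MvPolynomial.rename σ (c g) = c g) ∧ f = ∑ g ∈ Φ, c g * g :=
  h13_inv_finite β
open Classical in
/-- SYM: invariants of a block group are generated by the block power sums -/
theorem inv_adjoin {κ : Type} (β : I → κ) {f : PP I}
    (h : ∀ σ, InW β σ → MvPolynomial.rename σ f = f) :
    f ∈ Algebra.adjoin ℂ {g | ∃ (b : κ) (n : ℕ), g = ∑ a with β a = b, MvPolynomial.X a ^ n} :=
  h13_inv_adjoin β h
/-- leading coefficients -/
theorem lead (har : ∀ j, ar j j = 0) {ord : I → ℕ} (ho : Function.Injective ord) {x : LL I}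
    (hx : x ∈ Cou nd ar fr) {l : I → ℤ} (hl : Dom nd ord l)
    (h : ∀ a b, nd a = nd b → ord a < ord b → ∀ n : ℤ, 0 < n →
      x.coeff (l + n • (Pi.single a 1 - Pi.single b 1)) = 0) :
    ∃ f, InvL nd l f ∧ x.coeff l = algebraMap (PP I) (KK I) f * EE nd ar fr l :=
  h34_lead har ho hx hl h
theorem mono_supp {l l' : I → ℤ} {f : PP I} (h : (mono nd ar fr l f).coeff l' ≠ 0) :
    ∃ σ, InW nd σ ∧ l' = l ∘ σ :=
  h46_mono_supp h
/-- finitely many generators of the algebra of leading terms -/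
theorem lead_gen {ord : I → ℕ} (ho : Function.Injective ord) :
    ∃ (n : ℕ) (lg : Fin n → I → ℤ) (fg : Fin n → PP I), (∀ g, Minu (lg g) ∧ Dom nd ord (lg g)) ∧
      ∀ l f, Dom nd ord l → InvL nd l f → ∃ (m : ℕ) (c : Fin m → PP I) (e : Fin m → Fin n → ℕ),
        (∀ j σ, InW nd σ → MvPolynomial.rename σ (c j) = c j) ∧
        (∀ j, ∑ g, (e j g : ℤ) • lg g = l) ∧
        (∀ j g a, e j g ≠ 0 → 0 ≤ lg g a * l a ∧ |lg g a| ≤ |l a|) ∧
        (∀ j (B : ℕ), (∀ a, |l a| ≤ B) → ∑ g, e j g ≤ 2 * B) ∧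
        algebraMap (PP I) (KK I) f * EE nd ar fr l = ∑ j, algebraMap (PP I) (KK I) (c j) *
          ∏ g, (mono nd ar fr (lg g) (fg g)).coeff (lg g) ^ e j g :=
  h34_lead_gen ho
theorem cou_br (har : ∀ j, ar j j = 0) {x y : LL I} (hx : x ∈ Cou nd ar fr) (hy : y ∈ Cou nd ar fr) :
    br x y ∈ Cou nd ar fr :=
  H22.cou_br (fun ho => lead_gen ho) har hx hy
theorem brA_coe (har : ∀ j, ar j j = 0) (x y : Cou nd ar fr) :
    (brA (Cou nd ar fr) x y : LL I) = br x y :=
  H22.brA_coe (fun ho => lead_gen ho) har x y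
theorem cou_poi (har : ∀ j, ar j j = 0) : IsPoi (brA (Cou nd ar fr)) :=
  H22.cou_poi (fun ho => lead_gen ho) har
theorem cou_gr (har : ∀ j, ar j j = 0) {m : I → ℤ} (hm : ∀ a b, nd a = nd b → m a = m b) :
    IsGr (brA (Cou nd ar fr)) (grC (Cou nd ar fr) m) :=
  h13_cou_gr har hm
theorem mono_grC {m : I → ℤ} (hm : ∀ a b, nd a = nd b → m a = m b) {l : I → ℤ} (hl : Minu l)
    (f : PP I) : (⟨_, mono_mem hl f⟩ : Cou nd ar fr) ∈ grC (Cou nd ar fr) m (∑ a, m a * l a) :=
  h13_mono_grC hm hl f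
/-- the statement-side action on homogeneous elements -/
theorem scale_grC {m : I → ℤ} {n : ℤ} {a : Cou nd ar fr} (ha : a ∈ grC (Cou nd ar fr) m n) (s : ℂˣ) :
    toSub (Cou nd ar fr) (scale m s a) = ((s ^ n : ℂˣ) : ℂ) • a :=
  h13_scale_grC ha s
theorem scale_add {m : I → ℤ} (hm : ∀ a b, nd a = nd b → m a = m b) (s : ℂˣ) (a b : Cou nd ar fr) :
    toSub (Cou nd ar fr) (scale m s (a + b : Cou nd ar fr)) =
      toSub (Cou nd ar fr) (scale m s a) + toSub (Cou nd ar fr) (scale m s b) :=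
  h13_scale_add hm s a b
/-- points and eigenvalues -/
theorem exists_fib (x : Pt (Cou nd ar fr)) : ∃ t, x ∈ Fib (Cou nd ar fr) t :=
  h53_exists_fib x
theorem fib_unique {x : Pt (Cou nd ar fr)} {t t' : I → ℂ} (h : x ∈ Fib (Cou nd ar fr) t) :
    x ∈ Fib (Cou nd ar fr) t' ↔ ∃ σ, InW nd σ ∧ t' = t ∘ σ :=
  h53_fib_unique h
theorem fib_near {x : Pt (Cou nd ar fr)} {t : I → ℂ} (h : x ∈ Fib (Cou nd ar fr) t) {U : Set (I → ℂ)}
    (hU : U ∈ 𝓝 t) : FibS (Cou nd ar fr) U ∈ 𝓝 x :=
  h53_fib_near h hU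

end C73
end
end

section
/-! Block A2, part 1: counting lattice points of a down-closed set of exponents. -/

open Set

noncomputable section
namespace C73

lemma ik1_coord {I : Type} [Fintype I] (U : Submodule ℂ (I → ℂ)) :
    ∃ J : Finset I, J.card ≤ Module.finrank ℂ U ∧ ∀ u ∈ U, (∀ a ∈ J, u a = 0) → u = 0 := by
  classical
  obtain ⟨κ, a, inj, hsp, li⟩ := exists_linearIndependent' ℂ
    fun i : I => ((LinearMap.proj i).comp U.subtype : Module.Dual ℂ U)
  have : Fintype κ := Fintype.ofInjective a inj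
  refine ⟨Finset.univ.image a, Finset.card_image_le.trans
    (li.fintype_card_le_finrank.trans_eq Subspace.dual_finrank_eq), fun u hu h => funext fun i => ?_⟩
  have h1 : Submodule.span ℂ (range fun i : I =>
      ((LinearMap.proj i).comp U.subtype : Module.Dual ℂ U)) ≤
      LinearMap.ker (Module.Dual.eval ℂ U ⟨u, hu⟩) := by
    rw [← hsp, Submodule.span_le]
    rintro _ ⟨k, rfl⟩
    exact h _ (Finset.mem_image_of_mem a (Finset.mem_univ k))
  exact h1 (Submodule.subset_span ⟨i, rfl⟩)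

open scoped Classical in
lemma ik1_card {I : Type} [Fintype I] (U : Submodule ℂ (I → ℂ)) {s : ℕ}
    (hU : Module.finrank ℂ U ≤ s) (f : I → ℤ) (M : ℕ) :
    ((Fintype.piFinset fun _ : I => Finset.Icc (-(M : ℤ)) M).filter
      fun μ => (fun a => ((μ a - f a : ℤ) : ℂ)) ∈ U).card ≤ (2 * M + 1) ^ s := by
  obtain ⟨J, h1, h2⟩ := ik1_coord U
  refine (Finset.card_le_card_of_injOn (t := Fintype.piFinset fun _ : J => Finset.Icc (-(M : ℤ)) M)
    (fun μ a => μ a) (fun μ hμ => ?_) fun μ hμ ν hν e => ?_).trans ?_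
  · exact Fintype.mem_piFinset.2 fun a => Fintype.mem_piFinset.1 (Finset.mem_filter.1 hμ).1 a
  · have := h2 _ (U.sub_mem (Finset.mem_filter.1 hμ).2 (Finset.mem_filter.1 hν).2) fun a ha => by
      have : μ a = ν a := congrFun e ⟨a, ha⟩
      simp only [Pi.sub_apply, this, sub_self]
    funext a
    have h3 := congrFun this a
    simp only [Pi.sub_apply, Pi.zero_apply, sub_eq_zero, Int.cast_inj, sub_left_inj] at h3
    exact h3
  · rw [Fintype.card_piFinset, Finset.prod_const, Finset.card_univ, Fintype.card_coe, Int.card_Icc,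
      show (M + 1 - -(M : ℤ)).toNat = 2 * M + 1 by omega]
    exact Nat.pow_le_pow_right (by omega) (h1.trans hU)

lemma ik1_indep {W : Type} [AddCommGroup W] [Module ℂ W] {n s : ℕ} (v : Fin n → W)
    (σ : Set (Fin n)) (h : s ≤ Module.finrank ℂ (Submodule.span ℂ (v '' σ))) :
    ∃ γ : Fin s → Fin n, LinearIndependent ℂ (fun i => v (γ i)) ∧ range γ ⊆ σ := by
  classical
  obtain ⟨κ, a, inj, hsp, li⟩ := exists_linearIndependent' ℂ fun g : σ => v g
  have : Fintype κ := Fintype.ofInjective a inj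
  rw [image_eq_range, ← hsp, finrank_span_eq_card li] at h
  obtain ⟨j⟩ := Function.Embedding.nonempty_of_card_le ((Fintype.card_fin s).trans_le h)
  refine ⟨fun i => a (j i), li.comp j j.injective, ?_⟩
  rintro _ ⟨i, rfl⟩
  exact (a (j i)).2

lemma ik1_good {n : ℕ} (E : Set (Fin n → ℕ)) (hE : ∀ e ∈ E, ∀ e', e' ≤ e → e' ∈ E) :
    ∃ L : ℕ, ∀ e ∈ E, ∀ e' : Fin n → ℕ, (∀ g, ¬ L ≤ e g → e' g = 0) → e' ∈ E := by
  have : ∀ σ : Set (Fin n), ∃ e₀ : Fin n → ℕ, (∀ g, g ∉ σ → e₀ g = 0) ∧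
      (e₀ ∈ E → ∀ e' : Fin n → ℕ, (∀ g, g ∉ σ → e' g = 0) → e' ∈ E) := fun σ => by
    by_cases h : ∀ e' : Fin n → ℕ, (∀ g, g ∉ σ → e' g = 0) → e' ∈ E
    · exact ⟨0, fun _ _ => rfl, fun _ => h⟩
    · push Not at h
      obtain ⟨e, h1, h2⟩ := h
      exact ⟨e, h1, fun h => absurd h h2⟩
  choose e₀ h1 h2 using this
  obtain ⟨L, hL⟩ := (finite_range fun x : Set (Fin n) × Fin n => e₀ x.1 x.2).bddAbove
  refine ⟨L, fun e he => h2 {g | L ≤ e g} (hE e he _ fun g => ?_)⟩
  by_cases hg : L ≤ e g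
  · exact (hL ⟨(_, g), rfl⟩).trans hg
  · exact (h1 {g | L ≤ e g} g hg).trans_le (Nat.zero_le _)

lemma ik1_mem {I : Type} {n : ℕ} (lg : Fin n → I → ℤ) (e : Fin n → ℕ) (σ : Finset (Fin n)) :
    (fun a => (((∑ g, (e g : ℤ) • lg g) a -
      (∑ g, ((if g ∈ σ then 0 else e g : ℕ) : ℤ) • lg g) a : ℤ) : ℂ)) ∈
      Submodule.span ℂ ((fun g a => (lg g a : ℂ)) '' σ) := by
  have : (fun a => (((∑ g, (e g : ℤ) • lg g) a -
      (∑ g, ((if g ∈ σ then 0 else e g : ℕ) : ℤ) • lg g) a : ℤ) : ℂ)) =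
      ∑ g, if g ∈ σ then (e g : ℂ) • fun a => (lg g a : ℂ) else 0 := by
    funext a
    rw [Finset.sum_apply, Finset.sum_apply, Finset.sum_apply, ← Finset.sum_sub_distrib,
      Int.cast_sum]
    refine Finset.sum_congr rfl fun g _ => ?_
    split_ifs <;> simp
  rw [this]
  refine Submodule.sum_mem _ fun g _ => ?_
  split_ifs with h
  · exact Submodule.smul_mem _ _ (Submodule.subset_span ⟨g, h, rfl⟩)
  · exact Submodule.zero_mem _

lemma ik1_cover {I ι : Type} [Fintype I] (P : Finset ι) (U : ι → Submodule ℂ (I → ℂ))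
    (f : ι → I → ℤ) {s : ℕ} (hU : ∀ x ∈ P, Module.finrank ℂ (U x) ≤ s) (M : ℕ) {S : Set (I → ℤ)}
    (hS : ∀ μ ∈ S, (∀ a, |μ a| ≤ M) ∧ ∃ x ∈ P, (fun a => ((μ a - f x a : ℤ) : ℂ)) ∈ U x) :
    S.ncard ≤ P.card * (2 * M + 1) ^ s := by
  classical
  refine le_trans ?_ (Finset.card_biUnion_le_card_mul P _ _ fun x hx =>
    ik1_card _ (hU x hx) (f x) M)
  rw [← ncard_coe_finset]
  refine ncard_le_ncard (fun μ hμ => ?_) (Finset.finite_toSet _)
  obtain ⟨h1, x, h2, h3⟩ := hS μ hμ
  rw [Finset.mem_coe, Finset.mem_biUnion]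
  exact ⟨x, h2, Finset.mem_filter.2
    ⟨Fintype.mem_piFinset.2 fun a => Finset.mem_Icc.2 (abs_le.1 (h1 a)), h3⟩⟩

/-- If the degrees `∑ e g • lg g` (`e` in a down-closed set `E`) inside the box of size `C m` are
at least `m ^ s / N` in number, then `s` of the `lg g` are independent and every exponent supported
on them is in `E`.
Hint: call `σ : Finset (Fin n)` good if all `e` supported in `σ` are in `E`.  For every bad `σ` some
`k • 1_σ ∉ E`; let `N1` bound these `k`.  For `e ∈ E` the set `{g | N1 ≤ e g}` is good, so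
`∑ e g • lg g` lies in `f + span {lg g | g ∈ σ}` with `f` in a finite set (`< N1` on the complement).
If the complex span `U` of `{lg g | g ∈ σ}` has dimension `r`, some `r` coordinates are injective on
`U` (the coordinate functionals span the dual), so a coset has at most `(2 C m + 1) ^ r` points in
the box.  If all good `σ` had `r < s` we get `m ^ s ≤ const * (2 C m + 1) ^ (s - 1)`, false for
large `m` (for `s = 0` use `m = 1` to see `0 ∈ E`). -/
theorem kb_count {I : Type} [Fintype I] {n s : ℕ} (lg : Fin n → I → ℤ) (E : Set (Fin n → ℕ))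
    (hE : ∀ e ∈ E, ∀ e', e' ≤ e → e' ∈ E) (N C : ℕ)
    (h : ∀ m : ℕ, m ^ s ≤
      N * {μ : I → ℤ | (∀ a, |μ a| ≤ C * m) ∧ ∃ e ∈ E, μ = ∑ g, (e g : ℤ) • lg g}.ncard) :
    ∃ γ : Fin s → Fin n, LinearIndependent ℂ (fun i a => (lg (γ i) a : ℂ)) ∧
      ∀ e : Fin n → ℕ, (∀ g, g ∉ range γ → e g = 0) → e ∈ E := by
  classical
  rcases s with _ | s
  · have h1 := h 1
    obtain ⟨μ, -, e, he, -⟩ := nonempty_of_ncard_ne_zero fun h0 => by
      rw [h0] at h1
      exact absurd h1 (by norm_num)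
    exact ⟨Fin.elim0, linearIndependent_empty_type, fun e' he' => hE e he e' fun g =>
      (he' g fun ⟨i, _⟩ => i.elim0).trans_le (Nat.zero_le _)⟩
  by_contra hc
  obtain ⟨L, hL⟩ := ik1_good E hE
  obtain ⟨K, hK⟩ : ∃ K : ℕ, ∀ m : ℕ, {μ : I → ℤ | (∀ a, |μ a| ≤ C * m) ∧
      ∃ e ∈ E, μ = ∑ g, (e g : ℤ) • lg g}.ncard ≤ K * (2 * (C * m) + 1) ^ s := by
    refine ⟨_, fun m => ik1_cover ((Finset.univ.filter fun σ : Finset (Fin n) => Module.finrank ℂ
      (Submodule.span ℂ ((fun g a => (lg g a : ℂ)) '' σ)) ≤ s) ×ˢ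
      Fintype.piFinset fun _ : Fin n => Finset.range (L + 1))
      (fun x => Submodule.span ℂ ((fun g a => (lg g a : ℂ)) '' x.1))
      (fun x => ∑ g, (x.2 g : ℤ) • lg g)
      (fun x hx => (Finset.mem_filter.1 (Finset.mem_product.1 hx).1).2) _ ?_⟩
    rintro μ ⟨h1, e, he, rfl⟩
    refine ⟨fun a => Nat.cast_mul (α := ℤ) C m ▸ h1 a, (Finset.univ.filter fun g => L ≤ e g,
      fun g => if g ∈ Finset.univ.filter fun g => L ≤ e g then 0 else e g), Finset.mem_product.2
      ⟨Finset.mem_filter.2 ⟨Finset.mem_univ _, ?_⟩, Fintype.mem_piFinset.2 fun g => ?_⟩,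
      ik1_mem lg e _⟩
    · by_contra h3
      obtain ⟨γ, h4, h5⟩ := ik1_indep (s := s + 1) _ _ (not_le.1 h3)
      exact hc ⟨γ, h4, fun e' he' => hL e he e' fun g hg => he' g fun k =>
        hg (Finset.mem_filter.1 (h5 k)).2⟩
    · simp only [Finset.mem_filter, Finset.mem_univ, true_and, Finset.mem_range]
      split_ifs <;> omega
  obtain ⟨m, hm⟩ : ∃ m, m = N * K * (2 * C + 1) ^ s + 1 := ⟨_, rfl⟩
  have h0 : 0 < m := by omega
  have h1 := (h m).trans (Nat.mul_le_mul_left N ((hK m).trans (Nat.mul_le_mul_left K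
    (Nat.pow_le_pow_left (show 2 * (C * m) + 1 ≤ (2 * C + 1) * m by
      rw [add_mul, mul_assoc]; omega) s))))
  rw [mul_pow, ← mul_assoc, ← mul_assoc, pow_succ'] at h1
  have := Nat.le_of_mul_le_mul_right h1 (pow_pos h0 s)
  omega

end C73
end
end

section
/-! Block A2, part 2: a generic linear functional on coweights. -/

open Set

noncomputable section
namespace C73
section

variable {I ι : Type} [Fintype I] [DecidableEq I] {nd : I → ι}

theorem kb_theta : ∃ (θ : I → ℝ) (ord : I → ℕ), Function.Injective ord ∧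
    (∀ a b, ord a < ord b ↔ θ b < θ a) ∧
    Function.Injective fun l : I → ℤ => ∑ a, θ a * (l a : ℝ) := by
  obtain ⟨τ, h1, h2⟩ := ((Algebraic.countable ℤ ℝ).dense_compl ℝ).exists_mem_open isOpen_Ioi
    (nonempty_Ioi (a := (1 : ℝ)))
  have ho : Function.Injective fun a => (Fintype.equivFin I a : ℕ) :=
    Fin.val_injective.comp (Fintype.equivFin I).injective
  refine ⟨fun a => -τ ^ (Fintype.equivFin I a : ℕ), _, ho, fun a b => ?_, fun l l' h => ?_⟩
  · rw [neg_lt_neg_iff, pow_lt_pow_iff_right₀ h2]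
  · have h3 : ∑ a, Polynomial.monomial (Fintype.equivFin I a : ℕ) (l a) =
        ∑ a, Polynomial.monomial (Fintype.equivFin I a : ℕ) (l' a) := by
      apply transcendental_iff_injective.1 h1
      simp only [neg_mul, Finset.sum_neg_distrib, neg_inj] at h
      simpa only [map_sum, Polynomial.aeval_monomial, eq_intCast, mul_comm] using h
    funext a
    simpa only [Polynomial.finsetSum_coeff, Polynomial.coeff_monomial, Fin.val_inj, EmbeddingLike.apply_eq_iff_eq, Finset.sum_ite_eq', Finset.mem_univ, ↓ reduceIte] using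
      congrArg (·.coeff (Fintype.equivFin I a : ℕ)) h3

/-- rearrangement inequality inside the nodes. -/
theorem kb_rearr {θ : I → ℝ} {ord : I → ℕ} (ho : Function.Injective ord)
    (h : ∀ a b, ord a < ord b ↔ θ b < θ a) {l : I → ℤ} (hl : Dom nd ord l) {σ : Equiv.Perm I}
    (hσ : InW nd σ) : ∑ a, θ a * (l (σ a) : ℝ) ≤ ∑ a, θ a * (l a : ℝ) := by
  classical
  rw [← Finset.sum_fiberwise_of_maps_to (fun a ha => Finset.mem_image_of_mem nd ha),
    ← Finset.sum_fiberwise_of_maps_to (fun a ha => Finset.mem_image_of_mem nd ha)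
      (fun a => θ a * (l a : ℝ))]
  refine Finset.sum_le_sum fun i _ => ?_
  have hp : ∀ a, nd (σ a) = i ↔ nd a = i := fun a => by rw [hσ a]
  have hm : MonovaryOn θ (fun a => (l a : ℝ)) (Finset.univ.filter (nd · = i) : Finset I) := by
    intro a ha b hb hab
    exact le_of_not_gt fun h' => hab.not_ge (Int.cast_le.2 (hl a b
      ((Finset.mem_filter.1 ha).2.trans (Finset.mem_filter.1 hb).2.symm) ((h a b).2 h')))
  refine le_of_eq_of_le (Finset.sum_congr rfl fun a ha => ?_) (hm.sum_mul_comp_perm_le_sum_mul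
    (σ := Equiv.Perm.ofSubtype (σ.subtypePerm (p := (nd · = i)) hp)) fun a ha => ?_)
  · rw [Equiv.Perm.ofSubtype_subtypePerm_of_mem (p := (nd · = i)) hp (Finset.mem_filter.1 ha).2]
  · by_contra h'
    exact ha (Equiv.Perm.ofSubtype_subtypePerm_of_not_mem (p := (nd · = i)) hp (by simpa only [Finset.coe_filter, Finset.mem_univ, true_and, mem_ofPred_eq] using h'))

end
section

variable {I ι : Type} [Fintype I] [DecidableEq I] {nd : I → ι}

open Classical in
/-- dominant coweights with bounded node sums and bounded `θ` are bounded. -/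
theorem kb_box {θ : I → ℝ} {ord : I → ℕ} (ho : Function.Injective ord)
    (h : ∀ a b, ord a < ord b ↔ θ b < θ a) : ∃ C : ℕ, ∀ (m : ℕ) (μ : I → ℤ), Dom nd ord μ →
      (∀ a, |∑ b with nd b = nd a, μ b| ≤ m) → ∑ a, θ a * (μ a : ℝ) ≤ m →
      ∀ a, |μ a| ≤ C * m := by
  obtain ⟨k, hk⟩ : ∃ k : I → ℝ, ∀ a, k a = (Finset.univ.filter (nd · = nd a)).card := ⟨_, fun _ => rfl⟩
  have k1 : ∀ a, 1 ≤ k a := fun a => by
    rw [hk]
    exact_mod_cast Finset.card_pos.2 ⟨a, by simp only [Finset.mem_filter, Finset.mem_univ, and_self]⟩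
  have k2 : ∀ a, k a ≤ Fintype.card I := fun a => by
    rw [hk]
    exact_mod_cast Finset.card_le_univ _
  obtain ⟨D, hD0, hD⟩ : ∃ D : ℝ, 0 ≤ D ∧ ∀ a b, |θ a - θ b|⁻¹ ≤ D :=
    ⟨∑ p : I × I, |θ p.1 - θ p.2|⁻¹, by positivity, fun a b =>
      Finset.single_le_sum (f := fun p : I × I => |θ p.1 - θ p.2|⁻¹) (fun _ _ => by positivity)
        (Finset.mem_univ (a, b))⟩
  refine ⟨⌈1 + Fintype.card I * (Fintype.card I * (2 + 2 * ∑ a, |θ a|) * D)⌉₊,
    fun m μ hμ hν hθ a => ?_⟩
  have hν' : ∀ a, |∑ b with nd b = nd a, (μ b : ℝ)| ≤ m := fun a => by exact_mod_cast hν a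
  have p : ∀ a b, nd b = nd a → 0 ≤ (θ a - θ b) * (μ a - μ b) := by
    intro a b hab
    rcases lt_trichotomy (θ a) (θ b) with h1 | h1 | h1
    · have : (μ a : ℝ) ≤ μ b := by exact_mod_cast hμ b a hab ((h b a).2 h1)
      exact mul_nonneg_of_nonpos_of_nonpos (by linarith) (by linarith only [this])
    · rw [h1, sub_self, zero_mul]
    · have : (μ b : ℝ) ≤ μ a := by exact_mod_cast hμ a b hab.symm ((h a b).2 h1)
      exact mul_nonneg (by linarith) (by linarith)
  have e1 : ∑ a, ∑ b with nd b = nd a, θ b * (μ b - μ a) / k a =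
      ∑ a, ∑ b with nd b = nd a, θ a * (μ a - μ b) / k a := by
    rw [Finset.sum_comm' (t' := Finset.univ) (s' := fun b => Finset.univ.filter (nd · = nd b))
      (by simp only [Finset.mem_univ, eq_comm, Finset.mem_filter, true_and, and_true, implies_true])]
    refine Finset.sum_congr rfl fun a _ => Finset.sum_congr rfl fun b hb => ?_
    rw [hk, hk, (Finset.mem_filter.1 hb).2]
  have e2 : ∀ a, k a * μ a - ∑ b with nd b = nd a, (μ b : ℝ) =
      ∑ b with nd b = nd a, (μ a - μ b : ℝ) := fun a => by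
    rw [Finset.sum_sub_distrib, Finset.sum_const, nsmul_eq_mul, hk]
  have e3 : ∑ a, ∑ b with nd b = nd a, θ a * (μ a - μ b) / k a ≤ m + (∑ a, |θ a|) * m := by
    refine le_trans ?_ (add_le_add_left hθ _)
    rw [Finset.sum_mul, ← Finset.sum_add_distrib]
    refine Finset.sum_le_sum fun a _ => ?_
    have := k1 a
    rw [← Finset.sum_div, ← Finset.mul_sum, ← e2, div_le_iff₀ (by linarith only [this])]
    have h1 := neg_abs_le (θ a * ∑ b with nd b = nd a, (μ b : ℝ))
    rw [abs_mul] at h1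
    have h2 := mul_le_mul_of_nonneg_left (hν' a) (abs_nonneg (θ a))
    have h3 := le_mul_of_one_le_right (show 0 ≤ |θ a| * m by positivity) this
    linarith only [h1, h2, h3]
  have e4 : ∀ b, nd b = nd a → (θ a - θ b) * (μ a - μ b) / k a ≤ (2 + 2 * ∑ a, |θ a|) * m := by
    intro b hb
    have q : ∀ a b, b ∈ Finset.univ.filter (nd · = nd a) →
        0 ≤ (θ a - θ b) * (μ a - μ b) / k a := fun a b hb =>
      div_nonneg (p a b (Finset.mem_filter.1 hb).2) (zero_le_one.trans (k1 a))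
    refine (Finset.single_le_sum (q a) (by simpa only [Finset.mem_filter, Finset.mem_univ, true_and] using hb)).trans
      ((Finset.single_le_sum (f := fun a => ∑ b with nd b = nd a, (θ a - θ b) * (μ a - μ b) / k a)
        (fun a _ => Finset.sum_nonneg (q a)) (Finset.mem_univ a)).trans ?_)
    have : ∑ a, ∑ b with nd b = nd a, (θ a - θ b) * (μ a - μ b) / k a =
        ∑ a, ∑ b with nd b = nd a, θ b * (μ b - μ a) / k a +
          ∑ a, ∑ b with nd b = nd a, θ a * (μ a - μ b) / k a := by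
      simp only [← Finset.sum_add_distrib]
      exact Finset.sum_congr rfl fun a _ => Finset.sum_congr rfl fun b _ => by ring
    linarith
  have e5 : ∀ b, nd b = nd a →
      |(μ a - μ b : ℝ)| ≤ Fintype.card I * (2 + 2 * ∑ a, |θ a|) * D * m := by
    intro b hb
    by_cases hab : a = b
    · rw [hab, sub_self, abs_zero]
      positivity
    have h1 : 0 < |θ a - θ b| := abs_pos.2 (sub_ne_zero.2 fun h' => hab (ho (le_antisymm
      (not_lt.1 fun h2 => ((h b a).1 h2).ne h') (not_lt.1 fun h2 => ((h a b).1 h2).ne' h'))))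
    have h2 := e4 b hb
    rw [div_le_iff₀ (zero_lt_one.trans_le (k1 a)), ← abs_of_nonneg (p a b hb), abs_mul,
      ← le_div_iff₀' h1, div_eq_mul_inv] at h2
    refine h2.trans ((mul_le_mul (mul_le_mul_of_nonneg_left (k2 a) (by positivity)) (hD a b)
      (by positivity) (by positivity)).trans (le_of_eq (by ring)))
  have e6 := (Finset.abs_sum_le_sum_abs _ _).trans (Finset.sum_le_card_nsmul _ _ _
    fun b (hb : b ∈ Finset.univ.filter (nd · = nd a)) => e5 b (Finset.mem_filter.1 hb).2)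
  rw [← e2, nsmul_eq_mul, ← hk] at e6
  have e7 := abs_sub_abs_le_abs_sub (k a * μ a) (∑ b with nd b = nd a, (μ b : ℝ))
  rw [abs_mul, abs_of_nonneg (zero_le_one.trans (k1 a))] at e7
  have e8 := le_mul_of_one_le_left (abs_nonneg (μ a : ℝ)) (k1 a)
  have e9 := mul_le_mul_of_nonneg_right (k2 a)
    (show 0 ≤ Fintype.card I * (2 + 2 * ∑ a, |θ a|) * D * m by positivity)
  have e0 := mul_le_mul_of_nonneg_right
    (Nat.le_ceil (1 + Fintype.card I * (Fintype.card I * (2 + 2 * ∑ a, |θ a|) * D)))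
    (Nat.cast_nonneg (α := ℝ) m)
  have := hν' a
  exact_mod_cast (show |(μ a : ℝ)| ≤ _ * (m : ℝ) from le_trans (by linarith only [e6, e7, e8, e9, this]) e0)

end
section

variable {I ι : Type} [Fintype I] [DecidableEq I] {nd : I → ι}

omit [DecidableEq I] in
/-- the Gram matrix of independent integer vectors is injective over `ℂ` -/
theorem h2_gram_inj {s : ℕ} (v : Fin s → I → ℤ)
    (hv : LinearIndependent ℂ fun i a => (v i a : ℂ)) (c : Fin s → ℂ)
    (hc : ∀ i, ∑ j, ((∑ a, v i a * v j a : ℤ) : ℂ) * c j = 0) (j : Fin s) : c j = 0 := by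
  have hu : ∀ i, ∑ a, (v i a : ℂ) * ∑ j, c j * v j a = 0 := fun i => by
    rw [← hc i]
    push_cast
    simp only [Finset.mul_sum, Finset.sum_mul]
    rw [Finset.sum_comm]
    exact Finset.sum_congr rfl fun j _ => Finset.sum_congr rfl fun a _ => by ring
  have h1 : ∑ a, (Complex.normSq (∑ j, c j * v j a) : ℂ) = 0 := by
    have : ∑ i, ∑ a, (starRingEnd ℂ) (c i) * ((v i a : ℂ) * ∑ j, c j * v j a) = 0 := by
      simp only [← Finset.mul_sum _ _ ((starRingEnd ℂ) _), hu, mul_zero, Finset.sum_const_zero]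
    rw [← this, Finset.sum_comm]
    refine Finset.sum_congr rfl fun a _ => ?_
    rw [Complex.normSq_eq_conj_mul_self, map_sum, Finset.sum_mul]
    exact Finset.sum_congr rfl fun i _ => by rw [map_mul, map_intCast, mul_assoc]
  have h2 : ∑ a, Complex.normSq (∑ j, c j * v j a) = 0 := by exact_mod_cast h1
  rw [Finset.sum_eq_zero_iff_of_nonneg fun a _ => Complex.normSq_nonneg _] at h2
  refine Fintype.linearIndependent_iff.1 hv c (funext fun a => ?_) j
  simpa only [Finset.sum_apply, Pi.smul_apply, smul_eq_mul, Pi.zero_apply] using Complex.normSq_eq_zero.1 (h2 a (Finset.mem_univ a))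

/-- a space of polynomials stable under the Gram combinations of the partial derivatives.
Hint: take `q ≠ 0` in `Q` of least total degree; the combinations have smaller degree or vanish, so
they vanish unless `q` is constant; the Gram matrix is injective over `ℂ` (`u = ∑ c j • v j`,
`∑ conj (u a) * u a = 0`), so all `pderiv j q = 0` and `q` is a nonzero constant. -/
theorem kb_gram {s : ℕ} (v : Fin s → I → ℤ) (hv : LinearIndependent ℂ fun i a => (v i a : ℂ))
    (Q : Submodule ℂ (MvPolynomial (Fin s) ℂ))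
    (hQ : ∀ q ∈ Q, ∀ i, ∑ j, ((∑ a, v i a * v j a : ℤ) : ℂ) • MvPolynomial.pderiv j q ∈ Q)
    {q : MvPolynomial (Fin s) ℂ} (hq : q ∈ Q) (h0 : q ≠ 0) : 1 ∈ Q := by
  have key : ∀ n : ℕ, ∀ q ∈ Q, q ≠ 0 → (∀ d, q.coeff d ≠ 0 → d.degree < n) → 1 ∈ Q := by
    intro n
    induction n with
    | zero =>
      intro q _ h0 hd
      obtain ⟨d, hd'⟩ := MvPolynomial.exists_coeff_ne_zero h0
      exact absurd (hd d hd') (Nat.not_lt_zero _)
    | succ n ih =>
      intro q hq h0 hd
      by_cases h : ∀ i, ∑ j, ((∑ a, v i a * v j a : ℤ) : ℂ) • MvPolynomial.pderiv j q = 0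
      · have hz : ∀ d j, (MvPolynomial.pderiv j q).coeff d = 0 := fun d =>
          h2_gram_inj v hv _ fun i => by
            simpa only [Int.cast_sum, Int.cast_mul, MvPolynomial.coeff_sum, MvPolynomial.coeff_smul, smul_eq_mul, MvPolynomial.coeff_zero] using congrArg (MvPolynomial.coeff d) (h i)
        have hc : q = MvPolynomial.C (q.coeff 0) := by
          ext d
          rw [MvPolynomial.coeff_C]
          split_ifs with hd0
          · rw [← hd0]
          · obtain ⟨j, hj⟩ : ∃ j, d j ≠ 0 := by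
              by_contra hn
              exact hd0 (Finsupp.ext fun j => by simpa using (not_not.1 (not_exists.1 hn j)).symm)
            have := hz (d - Finsupp.single j 1) j
            rw [MvPolynomial.coeff_pderiv, tsub_add_cancel_of_le
              (Finsupp.single_le_iff.2 (Nat.one_le_iff_ne_zero.2 hj))] at this
            exact (mul_eq_zero.1 this).resolve_right (Nat.cast_add_one_ne_zero _)
        have hc0 : q.coeff 0 ≠ 0 := fun e => h0 (by rw [hc, e, map_zero])
        have := Q.smul_mem (q.coeff 0)⁻¹ hq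
        rwa [hc, MvPolynomial.coeff_zero_C, MvPolynomial.smul_eq_C_mul, ← map_mul,
          inv_mul_cancel₀ hc0, map_one] at this
      · obtain ⟨i, hi⟩ := not_forall.1 h
        refine ih _ (hQ q hq i) hi fun d hd' => ?_
        rw [MvPolynomial.coeff_sum] at hd'
        obtain ⟨j, -, hj⟩ := Finset.exists_ne_zero_of_sum_ne_zero hd'
        rw [MvPolynomial.coeff_smul, MvPolynomial.coeff_pderiv] at hj
        have := hd _ (left_ne_zero_of_mul (right_ne_zero_of_smul hj))
        simpa using this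
  refine key (q.totalDegree + 1) q hq h0 fun d hd => Nat.lt_succ_of_le ?_
  exact MvPolynomial.le_totalDegree (MvPolynomial.mem_support_iff.2 hd)

end

end C73
end
end

end

-- part MP_94fa45_ag.C73.AK
section

/-! The half dimension bound for fibres. -/

section
/-! Block A2, part 3: calculus of leading terms. -/

open Set

noncomputable section
namespace C73

variable {I ι : Type} [Fintype I] [DecidableEq I] {nd : I → ι} {ar : ι → ι → ℕ} {fr : ι → ℕ}

/-- all exponents of `x` satisfy `p` -/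
def kbSp (x : LL I) (p : (I → ℤ) → Prop) : Prop := ∀ μ, x.coeff μ ≠ 0 → p μ

/-- `x` has exponents of `φ`-degree at most that of `l`, and coefficient `c` at `l` -/
def kbTop (φ : (I → ℤ) →+ ℝ) (x : LL I) (l : I → ℤ) (c : KK I) : Prop :=
  kbSp x (fun μ => φ μ ≤ φ l) ∧ x.coeff l = c

/-- a bilinear convolution -/
def kbConv (F : (I → ℤ) → KK I → (I → ℤ) → KK I → KK I) (x y : LL I) : LL I :=
  x.coeff.sum fun l c => y.coeff.sum fun l' c' => AddMonoidAlgebra.single (l + l') (F l c l' c')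

open Classical in
theorem kb_conv_coeff (F : (I → ℤ) → KK I → (I → ℤ) → KK I → KK I) (x y : LL I) (μ : I → ℤ) :
    (kbConv F x y).coeff μ = ∑ l ∈ x.coeff.support, ∑ l' ∈ y.coeff.support,
      if l + l' = μ then F l (x.coeff l) l' (y.coeff l') else 0 := by
  simp only [kbConv, Finsupp.sum, AddMonoidAlgebra.coeff_sum, AddMonoidAlgebra.coeff_single, Finsupp.finset_sum_apply, Finsupp.single_apply]

theorem kbSp.conv (F : (I → ℤ) → KK I → (I → ℤ) → KK I → KK I) {x y : LL I}
    {p q r : (I → ℤ) → Prop} (hx : kbSp x p) (hy : kbSp y q)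
    (h : ∀ l m, p l → q m → r (l + m)) : kbSp (kbConv F x y) r := by
  classical
  intro μ hμ
  rw [kb_conv_coeff] at hμ
  obtain ⟨l, hl, h1⟩ := Finset.exists_ne_zero_of_sum_ne_zero hμ
  obtain ⟨m, hm, h2⟩ := Finset.exists_ne_zero_of_sum_ne_zero h1
  by_cases e : l + m = μ
  · exact e ▸ h l m (hx l (Finsupp.mem_support_iff.1 hl)) (hy m (Finsupp.mem_support_iff.1 hm))
  · simp [e] at h2

theorem kbSp.mul {x y : LL I} {p q r : (I → ℤ) → Prop} (hx : kbSp x p) (hy : kbSp y q)
    (h : ∀ l m, p l → q m → r (l + m)) : kbSp (x * y) r := by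
  rw [AddMonoidAlgebra.mul_def]
  exact kbSp.conv (fun _ c _ c' => c * c') hx hy h

theorem kbSp.add {x y : LL I} {p : (I → ℤ) → Prop} (hx : kbSp x p) (hy : kbSp y p) :
    kbSp (x + y) p := fun μ hμ => by
  by_cases h : x.coeff μ = 0
  · exact hy μ fun h' => hμ (by simp only [AddMonoidAlgebra.coeff_add, Finsupp.coe_add, Pi.add_apply, h, h', add_zero])
  · exact hx μ h

theorem kbSp.smul {x : LL I} {p : (I → ℤ) → Prop} (hx : kbSp x p) (c : ℂ) : kbSp (c • x) p :=
  fun μ hμ => hx μ fun h => hμ (by simp [h])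

theorem kbSp.sub {x y : LL I} {p : (I → ℤ) → Prop} (hx : kbSp x p) (hy : kbSp y p) :
    kbSp (x - y) p := fun μ hμ => by
  by_cases h : x.coeff μ = 0
  · exact hy μ fun h' => hμ (by simp only [AddMonoidAlgebra.coeff_sub, Finsupp.coe_sub, Pi.sub_apply, h, h', sub_self])
  · exact hx μ h

theorem kbSp.sum {κ : Type} (s : Finset κ) {x : κ → LL I} {p : (I → ℤ) → Prop}
    (hx : ∀ i ∈ s, kbSp (x i) p) : kbSp (∑ i ∈ s, x i) p :=
  Finset.sum_induction x (fun y => kbSp y p) (fun _ _ => kbSp.add) (fun μ h => absurd rfl h) hx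

theorem kbSp.mono {x : LL I} {p q : (I → ℤ) → Prop} (hx : kbSp x p) (h : ∀ l, p l → q l) :
    kbSp x q := fun μ hμ => h μ (hx μ hμ)

theorem kbSp_single (l : I → ℤ) (c : KK I) : kbSp (AddMonoidAlgebra.single l c) (· = l) := by
  classical
  intro μ hμ
  by_contra h
  exact hμ (by simp [Finsupp.single_apply, Ne.symm h])

variable {φ : (I → ℤ) →+ ℝ}

theorem kbTop.conv (hφ : Function.Injective φ) (F : (I → ℤ) → KK I → (I → ℤ) → KK I → KK I)
    (h1 : ∀ l l' c, F l 0 l' c = 0) (h2 : ∀ l l' c, F l c l' 0 = 0) {x y : LL I} {l m : I → ℤ}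
    {c d : KK I} (hx : kbTop φ x l c) (hy : kbTop φ y m d) :
    kbTop φ (kbConv F x y) (l + m) (F l c m d) := by
  classical
  refine ⟨hx.1.conv F hy.1 fun a b ha hb => by rw [map_add, map_add]; linarith, ?_⟩
  rw [kb_conv_coeff, ← hx.2, ← hy.2, Finset.sum_eq_single l, Finset.sum_eq_single m]
  · simp
  · intro b _ hb
    rw [if_neg fun e => hb (add_left_cancel e)]
  · intro hm
    simp [Finsupp.notMem_support_iff.1 hm, h2]
  · intro a ha hal
    refine Finset.sum_eq_zero fun b hb => if_neg fun e => hal (hφ ?_)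
    have e1 := hx.1 a (Finsupp.mem_support_iff.1 ha)
    have e2 := hy.1 b (Finsupp.mem_support_iff.1 hb)
    have e3 := congrArg φ e
    rw [map_add, map_add] at e3
    linarith
  · intro hl
    simp [Finsupp.notMem_support_iff.1 hl, h1]

theorem kbTop.mul (hφ : Function.Injective φ) {x y : LL I} {l m : I → ℤ}
    {c d : KK I} (hx : kbTop φ x l c) (hy : kbTop φ y m d) : kbTop φ (x * y) (l + m) (c * d) := by
  rw [AddMonoidAlgebra.mul_def]
  exact kbTop.conv hφ (fun _ c _ c' => c * c') (by simp) (by simp) hx hy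

theorem kb_pd_zero (a : I) : pd a (0 : KK I) = 0 := by
  classical
  have := pd_add a (0 : KK I) 0
  simpa using this

theorem kbTop.br (hφ : Function.Injective φ) {x y : LL I} {l m : I → ℤ}
    {c d : KK I} (hx : kbTop φ x l c) (hy : kbTop φ y m d) : kbTop φ (br x y) (l + m)
      (∑ a, ((l a : KK I) * c * pd a d - (m a : KK I) * pd a c * d)) :=
  kbTop.conv hφ (fun l c m d => ∑ a, ((l a : KK I) * c * pd a d - (m a : KK I) * pd a c * d))
    (by simp only [mul_zero, zero_mul, kb_pd_zero, sub_self, Finset.sum_const_zero, implies_true]) (by simp only [kb_pd_zero, mul_zero, sub_self, Finset.sum_const_zero, implies_true]) hx hy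

theorem kbTop.add {x y : LL I} {l : I → ℤ} {c d : KK I} (hx : kbTop φ x l c)
    (hy : kbTop φ y l d) : kbTop φ (x + y) l (c + d) :=
  ⟨hx.1.add hy.1, by simp only [AddMonoidAlgebra.coeff_add, Finsupp.coe_add, Pi.add_apply, hx.2, hy.2]⟩

theorem kbTop.smul {x : LL I} {l : I → ℤ} {c : KK I} (hx : kbTop φ x l c) (a : ℂ) :
    kbTop φ (a • x) l (a • c) := ⟨hx.1.smul a, by simp only [AddMonoidAlgebra.coeff_smul, Finsupp.coe_smul, Pi.smul_apply, hx.2]⟩

theorem kbTop_single (l : I → ℤ) (c : KK I) : kbTop φ (AddMonoidAlgebra.single l c) l c :=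
  ⟨(kbSp_single l c).mono fun _ h => h ▸ le_rfl, by simp⟩

theorem kbTop_one : kbTop φ (1 : LL I) 0 1 := kbTop_single 0 1

theorem kbTop.pow (hφ : Function.Injective φ) {x : LL I} {l : I → ℤ} {c : KK I}
    (hx : kbTop φ x l c) (k : ℕ) : kbTop φ (x ^ k) ((k : ℤ) • l) (c ^ k) := by
  induction k with
  | zero => simpa using kbTop_one
  | succ k ih =>
    have := ih.mul hφ hx
    rwa [← pow_succ, ← pow_succ, show (k : ℤ) • l + l = ((k + 1 : ℕ) : ℤ) • l by
      rw [Nat.cast_succ, add_smul, one_smul]] at this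

theorem kbTop.prod (hφ : Function.Injective φ) {κ : Type} (s : Finset κ) {x : κ → LL I}
    {l : κ → I → ℤ} {c : κ → KK I} (hx : ∀ i ∈ s, kbTop φ (x i) (l i) (c i)) :
    kbTop φ (∏ i ∈ s, x i) (∑ i ∈ s, l i) (∏ i ∈ s, c i) := by
  classical
  induction s using Finset.induction_on with
  | empty => simpa using kbTop_one
  | insert i s hi ih =>
    rw [Finset.prod_insert hi, Finset.sum_insert hi, Finset.prod_insert hi]
    exact (hx i (Finset.mem_insert_self _ _)).mul hφ
      (ih fun j hj => hx j (Finset.mem_insert_of_mem hj))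

/-- leading coefficients at `l` of the elements of a subspace -/
def kbIn (φ : (I → ℤ) →+ ℝ) (J : Submodule ℂ (LL I)) (l : I → ℤ) : Submodule ℂ (KK I) where
  carrier := {c | ∃ x ∈ J, kbTop φ x l c}
  zero_mem' := ⟨0, zero_mem _, fun _ h => absurd rfl h, rfl⟩
  add_mem' := fun ⟨x, hx, h⟩ ⟨y, hy, h'⟩ => ⟨x + y, add_mem hx hy, h.add h'⟩
  smul_mem' := fun a _ ⟨x, hx, h⟩ => ⟨a • x, J.smul_mem a hx, h.smul a⟩

/-- Poisson ideals of `A`, as subspaces of `LL I` -/
structure kbId (A : Subalgebra ℂ (LL I)) (J : Submodule ℂ (LL I)) : Prop where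
  le : ∀ x ∈ J, x ∈ A
  mul : ∀ a ∈ A, ∀ x ∈ J, a * x ∈ J
  br : ∀ a ∈ A, ∀ x ∈ J, br a x ∈ J

theorem kbId_top (har : ∀ j, ar j j = 0) : kbId (Cou nd ar fr) (Cou nd ar fr).toSubmodule :=
  ⟨fun _ h => h, fun _ ha _ hx => (Cou nd ar fr).mul_mem ha hx, fun _ ha _ hx => cou_br har ha hx⟩

theorem kbIn_mul (hφ : Function.Injective φ) {A : Subalgebra ℂ (LL I)} {J : Submodule ℂ (LL I)}
    (hJ : kbId A J) {l m n : I → ℤ} {c d : KK I} (hc : c ∈ kbIn φ A.toSubmodule l)
    (hd : d ∈ kbIn φ J m) (h : l + m = n) : c * d ∈ kbIn φ J n :=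
  let ⟨x, hx', hx⟩ := hc
  let ⟨y, hy, hy'⟩ := hd
  ⟨x * y, hJ.mul x hx' y hy, h ▸ hx.mul hφ hy'⟩

theorem kbIn_inv {c : PP I} (h : ∀ σ, InW nd σ → MvPolynomial.rename σ c = c) :
    algebraMap (PP I) (KK I) c ∈ kbIn φ (Cou nd ar fr).toSubmodule 0 :=
  ⟨pL c, pL_mem h, kbTop_single 0 _⟩

open Classical in
/-- node sums -/
def kbNu (nd : I → ι) (l : I → ℤ) (a : I) : ℤ := ∑ b with nd b = nd a, l b

/-- a Poisson ideal contains the homogeneous components (for the node sums) of its elements -/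
theorem kb_proj {J : Submodule ℂ (LL I)} (hJ : kbId (Cou nd ar fr) J) (v : I → ℤ) {x : LL I}
    (hx : x ∈ J) : ∃ y ∈ J, ∀ μ, y.coeff μ = if kbNu nd μ = v then x.coeff μ else 0 := by
  classical
  induction hk : (x.coeff.support.filter fun μ => kbNu nd μ ≠ v).card
    using Nat.strong_induction_on generalizing x with
  | _ k ih =>
  by_cases h0 : ∃ μ0, x.coeff μ0 ≠ 0 ∧ kbNu nd μ0 ≠ v
  · obtain ⟨μ0, h1, h2⟩ := h0
    obtain ⟨a, ha⟩ := Function.ne_iff.1 h2
    obtain ⟨c, hc0⟩ : ∃ c : I → ℤ, ∀ b, c b = if nd b = nd a then 1 else 0 := ⟨_, fun _ => rfl⟩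
    have hh : pL (∑ b, (c b : ℂ) • MvPolynomial.X b) ∈ Cou nd ar fr := pL_mem fun σ hσ => by
      rw [map_sum, ← Equiv.sum_comp σ fun b => (c b : ℂ) • (MvPolynomial.X b : PP I)]
      refine Finset.sum_congr rfl fun b _ => ?_
      rw [map_smul, MvPolynomial.rename_X, hc0, hc0, hσ b]
    have hc : ∀ μ : I → ℤ, ∑ b, c b * μ b = kbNu nd μ a := fun μ => by
      simp only [hc0, ite_mul, one_mul, zero_mul, kbNu, Finset.sum_filter]
    obtain ⟨r, hr0⟩ : ∃ r : ℂ, r = ((v a - kbNu nd μ0 a : ℤ) : ℂ) := ⟨_, rfl⟩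
    have hr : r ≠ 0 := hr0 ▸ Int.cast_ne_zero.2 (sub_ne_zero.2 ha.symm)
    obtain ⟨x', hx', hco⟩ : ∃ x' ∈ J, ∀ μ, x'.coeff μ =
        (r⁻¹ * ((kbNu nd μ a - kbNu nd μ0 a : ℤ) : ℂ)) • x.coeff μ := by
      refine ⟨r⁻¹ • (-br (pL (∑ b, (c b : ℂ) • MvPolynomial.X b)) x - (kbNu nd μ0 a : ℂ) • x),
        J.smul_mem _ (sub_mem (neg_mem (hJ.br _ hh _ hx)) (J.smul_mem _ hx)), fun μ => ?_⟩
      have e2 := br_lin c x μ
      rw [hc] at e2
      rw [← br_poi.anti]
      simp only [AddMonoidAlgebra.coeff_smul, AddMonoidAlgebra.coeff_sub, Finsupp.smul_apply,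
        Finsupp.sub_apply, e2, mul_smul, Int.cast_sub, sub_smul]
      congr 2
      rw [Int.cast_smul_eq_zsmul, zsmul_eq_mul]
    obtain ⟨y, hy, hy'⟩ := ih _ (by
      rw [← hk]
      refine Finset.card_lt_card ⟨fun μ hμ => ?_, fun hs => ?_⟩
      · simp only [Finset.mem_filter, Finsupp.mem_support_iff] at hμ ⊢
        exact ⟨fun h => hμ.1 (by rw [hco, h, smul_zero]), hμ.2⟩
      · have := hs (Finset.mem_filter.2 ⟨Finsupp.mem_support_iff.2 h1, h2⟩)
        simp only [Finset.mem_filter, Finsupp.mem_support_iff] at this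
        exact this.1 (by rw [hco]; simp)) hx' rfl
    refine ⟨y, hy, fun μ => ?_⟩
    rw [hy']
    split_ifs with h
    · rw [hco, h, ← hr0, inv_mul_cancel₀ hr, one_smul]
    · rfl
  · push Not at h0
    refine ⟨x, hx, fun μ => ?_⟩
    split_ifs with h
    · rfl
    · by_contra h'
      exact h (h0 μ h')

theorem kbIn_hom {J : Submodule ℂ (LL I)} (hJ : kbId (Cou nd ar fr) J) {l : I → ℤ} {c : KK I}
    (hc : c ∈ kbIn φ J l) :
    ∃ y ∈ J, kbTop φ y l c ∧ kbSp y fun μ => kbNu nd μ = kbNu nd l := by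
  obtain ⟨x, hx, h⟩ := hc
  obtain ⟨y, hy, h'⟩ := kb_proj hJ (kbNu nd l) hx
  refine ⟨y, hy, ⟨fun μ hμ => h.1 μ fun e => hμ ?_, by rw [h', if_pos rfl, h.2]⟩, fun μ hμ => ?_⟩
  · rw [h', e, ite_self]
  · by_contra e
    exact hμ (by rw [h', if_neg e])

/-- the data of a generic functional -/
structure kbGen (φ : (I → ℤ) →+ ℝ) (θ : I → ℝ) (ord : I → ℕ) : Prop where
  inj : Function.Injective φ
  eq : ∀ l, φ l = ∑ a, θ a * (l a : ℝ)
  ho : Function.Injective ord
  lt : ∀ a b, ord a < ord b ↔ θ b < θ a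

theorem kb_exists_gen : ∃ (φ : (I → ℤ) →+ ℝ) (θ : I → ℝ) (ord : I → ℕ), kbGen φ θ ord := by
  obtain ⟨θ, ord, h1, h2, h3⟩ := kb_theta (I := I)
  exact ⟨⟨⟨fun l => ∑ a, θ a * (l a : ℝ), by simp only [Pi.zero_apply, Int.cast_zero, mul_zero, Finset.sum_const_zero]⟩, fun l m => by
    simp only [Pi.add_apply, Int.cast_add, mul_add, Finset.sum_add_distrib]⟩, θ, ord, h3, fun _ => rfl, h1, h2⟩

variable {θ : I → ℝ} {ord : I → ℕ}

theorem kbGen.single (hG : kbGen φ θ ord) (a : I) : φ (Pi.single a 1) = θ a := by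
  rw [hG.eq, Finset.sum_eq_single a] <;> simp +contextual only [Pi.single_eq_same, Int.cast_one, mul_one, Finset.mem_univ, ne_eq, not_false_eq_true, Pi.single_eq_of_ne, Int.cast_zero, mul_zero, implies_true, imp_self, not_true_eq_false, IsEmpty.forall_iff]

/-- the top exponent of an element of `Cou` is dominant -/
theorem kb_dom (hG : kbGen φ θ ord) {x : LL I} (hx : x ∈ Cou nd ar fr) {l : I → ℤ} {c : KK I}
    (h : kbTop φ x l c) (hc : c ≠ 0) : Dom nd ord l := by
  intro a b hab hlt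
  by_contra hba
  push Not at hba
  have hσ : InW nd (Equiv.swap a b) := fun d => by
    rw [Equiv.swap_apply_def]; split_ifs with h1 h2 <;> simp [*]
  have h1 := actL_coeff (Equiv.swap a b) x l
  rw [cou_inv hx hσ, h.2] at h1
  have h2 : φ _ ≤ φ l := h.1 _ (by rw [h1]; exact (map_ne_zero_iff _ (actK _).injective).2 hc)
  have hne : a ≠ b := fun e => by simp [e] at hlt
  have h3 : l ∘ (Equiv.swap a b).symm =
      l + (l b - l a) • ((Pi.single a 1 : I → ℤ) - Pi.single b 1) := by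
    funext d
    by_cases hda : d = a
    · simp [hda, hne]
    · by_cases hdb : d = b
      · simp [hdb, hne.symm]
      · simp [Equiv.swap_apply_of_ne_of_ne hda hdb, hda, hdb]
  rw [h3, map_add, map_zsmul, map_sub, hG.single, hG.single, zsmul_eq_mul] at h2
  have h4 := (hG.lt a b).1 hlt
  have h5 : (0 : ℝ) < ((l b - l a : ℤ) : ℝ) := by exact_mod_cast sub_pos.2 hba
  nlinarith only [h2, h4, h5]

theorem kb_lead (har : ∀ j, ar j j = 0) (hG : kbGen φ θ ord) {l : I → ℤ} (hl : Dom nd ord l)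
    {c : KK I} (hc : c ∈ kbIn φ (Cou nd ar fr).toSubmodule l) :
    ∃ f, InvL nd l f ∧ c = algebraMap (PP I) (KK I) f * EE nd ar fr l := by
  obtain ⟨x, hx, h⟩ := hc
  rw [← h.2]
  refine lead har hG.ho hx hl fun a b _ hlt n hn => ?_
  by_contra h1
  have h2 : φ _ ≤ φ l := h.1 _ h1
  rw [map_add, map_zsmul, map_sub, hG.single, hG.single, zsmul_eq_mul] at h2
  have h4 := (hG.lt a b).1 hlt
  have h5 : (0 : ℝ) < (n : ℝ) := by exact_mod_cast hn
  nlinarith only [h2, h4, h5]

theorem kb_orb (hG : kbGen φ θ ord) {l : I → ℤ} (hl : Dom nd ord l) {σ : Equiv.Perm I}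
    (hσ : InW nd σ) : φ (l ∘ σ) ≤ φ l := by
  rw [hG.eq, hG.eq]
  exact kb_rearr hG.ho hG.lt hl hσ

theorem kb_mono (hG : kbGen φ θ ord) {l : I → ℤ} (hm : Minu l) (hl : Dom nd ord l) (f : PP I) :
    (mono nd ar fr l f).coeff l ∈ kbIn φ (Cou nd ar fr).toSubmodule l :=
  ⟨_, mono_mem hm f, fun μ hμ => by
    obtain ⟨σ, hσ, rfl⟩ := mono_supp hμ
    exact kb_orb hG hl hσ, rfl⟩

theorem kbIn_prod (hφ : Function.Injective φ) {A : Subalgebra ℂ (LL I)} {κ : Type} (s : Finset κ)
    {l : κ → I → ℤ} {c : κ → KK I} (h : ∀ i, c i ∈ kbIn φ A.toSubmodule (l i)) (e : κ → ℕ) :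
    ∏ i ∈ s, c i ^ e i ∈ kbIn φ A.toSubmodule (∑ i ∈ s, (e i : ℤ) • l i) := by
  choose x hx hx' using h
  exact ⟨∏ i ∈ s, x i ^ e i, A.prod_mem fun i _ => A.pow_mem (hx i) _,
    kbTop.prod hφ s fun i _ => (hx' i).pow hφ _⟩

/-- averaging over the stabiliser of `l` -/
theorem kb_reyn (nd : I → ι) : ∃ Φ : Finset (PP I), ∀ l : I → ℤ, ∃ av : PP I → PP I,
    (∀ g, InvL nd l (av g)) ∧ ∀ f, InvL nd l f → ∃ c : PP I → PP I,
      (∀ g σ, InW nd σ → MvPolynomial.rename σ (c g) = c g) ∧ f = ∑ g ∈ Φ, c g * av g := by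
  classical
  obtain ⟨Φ, hΦ⟩ := inv_finite nd
  refine ⟨Φ, fun l => ?_⟩
  let H : Subgroup (Equiv.Perm I) :=
    { carrier := {σ | InW nd σ ∧ l ∘ σ = l}
      one_mem' := ⟨fun _ => rfl, rfl⟩
      mul_mem' := fun {σ τ} hσ hτ => ⟨fun a => (hσ.1 _).trans (hτ.1 a), by
        rw [Equiv.Perm.coe_mul, ← Function.comp_assoc, hσ.2, hτ.2]⟩
      inv_mem' := fun {σ} hσ => ⟨fun a => by simpa using (hσ.1 (σ⁻¹ a)).symm, by
        funext a; simpa using (congrFun hσ.2 (σ⁻¹ a)).symm⟩ }
  have hc : (Fintype.card H : ℂ) ≠ 0 := Nat.cast_ne_zero.2 Fintype.card_ne_zero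
  refine ⟨fun g => (Fintype.card H : ℂ)⁻¹ • ∑ σ : H, MvPolynomial.rename σ.1 g,
    fun g τ h1 h2 => ?_, fun f hf => ?_⟩
  · beta_reduce
    rw [map_smul, map_sum, ← Equiv.sum_comp (Equiv.mulLeft (⟨τ, h1, h2⟩ : H))
      fun σ : H => MvPolynomial.rename σ.1 g]
    simp only [MvPolynomial.rename_rename, Equiv.coe_mulLeft, Subgroup.coe_mul, Equiv.Perm.coe_mul]
  · obtain ⟨c, h1, h2⟩ := hΦ f
    refine ⟨c, h1, ?_⟩
    have h3 : ∑ σ : H, MvPolynomial.rename σ.1 f = (Fintype.card H : ℂ) • f := by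
      rw [Finset.sum_congr rfl fun (σ : H) _ => hf σ.1 σ.2.1 σ.2.2]
      simp only [Finset.sum_const, Finset.card_univ, nsmul_eq_mul, Nat.cast_smul_eq_nsmul]
    calc f = (Fintype.card H : ℂ)⁻¹ • ∑ σ : H, MvPolynomial.rename σ.1 f := by
          rw [h3, smul_smul, inv_mul_cancel₀ hc, one_smul]
      _ = _ := by
          conv_lhs => rw [h2]
          simp only [map_sum, map_mul]
          rw [Finset.sum_comm, Finset.smul_sum]
          refine Finset.sum_congr rfl fun g _ => ?_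
          rw [mul_smul_comm, Finset.mul_sum]
          congr 1
          exact Finset.sum_congr rfl fun σ _ => by rw [h1 g σ.1 σ.2.1]

end C73
end
end

section
/-! Block A2 (owner helper68): the key bound. -/

open Set Filter Topology TopologicalSpace

noncomputable section
namespace C73

variable {I ι : Type} [Fintype I] [DecidableEq I] {nd : I → ι} {ar : ι → ι → ℕ} {fr : ι → ℕ}
variable {φ : (I → ℤ) →+ ℝ} {θ : I → ℝ} {ord : I → ℕ}

/-- generators of the algebra of leading terms -/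
structure kbGens (nd : I → ι) (ar : ι → ι → ℕ) (fr : ι → ℕ) (φ : (I → ℤ) →+ ℝ) (ord : I → ℕ) {n : ℕ}
    (lg : Fin n → I → ℤ) (T : Fin n → KK I) : Prop where
  dom : ∀ g, Dom nd ord (lg g)
  mem : ∀ g, T g ∈ kbIn φ (Cou nd ar fr).toSubmodule (lg g)
  gen : ∀ J, kbId (Cou nd ar fr) J → ∀ l f, Dom nd ord l → InvL nd l f →
    (∀ e : Fin n → ℕ, l = ∑ g, (e g : ℤ) • lg g → ∏ g, T g ^ e g ∈ kbIn φ J l) →
    algebraMap (PP I) (KK I) f * EE nd ar fr l ∈ kbIn φ J l

theorem kb_gens (hG : kbGen φ θ ord) :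
    ∃ (n : ℕ) (lg : Fin n → I → ℤ) (T : Fin n → KK I), kbGens nd ar fr φ ord lg T := by
  obtain ⟨n, lg, fg, h1, h2⟩ := lead_gen (nd := nd) (ar := ar) (fr := fr) hG.ho
  refine ⟨n, lg, fun g => (mono nd ar fr (lg g) (fg g)).coeff (lg g), fun g => (h1 g).2,
    fun g => kb_mono hG (h1 g).1 (h1 g).2 _, fun J hJ l f hl hf h => ?_⟩
  obtain ⟨m, c, e, hc, he, -, -, h3⟩ := h2 l f hl hf
  rw [h3]
  exact Submodule.sum_mem _ fun j _ =>
    kbIn_mul hG.inj hJ (kbIn_inv (hc j)) (h _ (he j).symm) (zero_add _)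

theorem kbGens.lift (har : ∀ j, ar j j = 0) (hG : kbGen φ θ ord) {n : ℕ} {lg : Fin n → I → ℤ}
    {T : Fin n → KK I} (h : kbGens nd ar fr φ ord lg T) {l : I → ℤ} {f : PP I} (hl : Dom nd ord l)
    (hf : InvL nd l f) :
    algebraMap (PP I) (KK I) f * EE nd ar fr l ∈ kbIn φ (Cou nd ar fr).toSubmodule l :=
  h.gen _ (kbId_top har) l f hl hf fun e he => he ▸ kbIn_prod hG.inj _ h.mem e

/-- bounded node sums and bounded degree -/
def kbBd (nd : I → ι) (φ : (I → ℤ) →+ ℝ) (k : ℕ) (μ : I → ℤ) : Prop :=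
  (∀ b, |kbNu nd μ b| ≤ k) ∧ φ μ ≤ k

theorem kbBd.add {k k' : ℕ} {l m : I → ℤ} (h : kbBd nd φ k l) (h' : kbBd nd φ k' m) :
    kbBd nd φ (k + k') (l + m) := by
  refine ⟨fun b => ?_, by rw [map_add]; push_cast; linarith [h.2, h'.2]⟩
  have : kbNu nd (l + m) b = kbNu nd l b + kbNu nd m b := by simp only [kbNu, Pi.add_apply, Finset.sum_add_distrib]
  rw [this]
  push_cast
  linarith only [h.1 b, h'.1 b, abs_add_le (kbNu nd l b) (kbNu nd m b)]

theorem kbBd.mono {k k' : ℕ} {l : I → ℤ} (h : kbBd nd φ k l) (hk : k ≤ k') : kbBd nd φ k' l :=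
  ⟨fun b => (h.1 b).trans (by exact_mod_cast hk), h.2.trans (by exact_mod_cast hk)⟩

theorem kb_bd_one : kbSp (1 : LL I) (kbBd nd φ 0) :=
  (kbSp_single 0 1).mono fun _ h => h ▸ ⟨fun b => by simp only [kbNu, Pi.zero_apply, Finset.sum_const_zero, abs_zero, CharP.cast_eq_zero, Std.le_refl], by simp⟩

theorem kb_bd_pow {x : LL I} {k : ℕ} (h : kbSp x (kbBd nd φ k)) (e : ℕ) :
    kbSp (x ^ e) (kbBd nd φ (k * e)) := by
  induction e with
  | zero => simpa using kb_bd_one
  | succ e ih => rw [pow_succ, mul_add_one]; exact ih.mul h fun _ _ => kbBd.add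

theorem kb_bd_prod {κ : Type} (s : Finset κ) {x : κ → LL I} {k : ℕ}
    (h : ∀ i, kbSp (x i) (kbBd nd φ k)) : kbSp (∏ i ∈ s, x i) (kbBd nd φ (k * s.card)) := by
  classical
  induction s using Finset.induction_on with
  | empty => simpa using kb_bd_one
  | insert i s hi ih =>
    rw [Finset.prod_insert hi, Finset.card_insert_of_notMem hi, mul_add_one, add_comm]
    exact (h i).mul ih fun _ _ => kbBd.add

theorem kb_bd_exists {s : ℕ} (a : Fin s → LL I) : ∃ B : ℕ, ∀ i, kbSp (a i) (kbBd nd φ B) := by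
  classical
  refine ⟨(Finset.univ.biUnion fun i => (a i).coeff.support).sup fun μ =>
    ∑ b, (kbNu nd μ b).natAbs + ⌈φ μ⌉₊, fun i μ hμ => kbBd.mono (k := ∑ b, (kbNu nd μ b).natAbs +
      ⌈φ μ⌉₊) ⟨fun b => ?_, ?_⟩ (Finset.le_sup (f := fun μ => ∑ b, (kbNu nd μ b).natAbs + ⌈φ μ⌉₊)
      (Finset.mem_biUnion.2 ⟨i, Finset.mem_univ _, Finsupp.mem_support_iff.2 hμ⟩))⟩
  · rw [← Int.natCast_natAbs]
    exact_mod_cast (Finset.single_le_sum (f := fun b => (kbNu nd μ b).natAbs)
      (fun _ _ => Nat.zero_le _) (Finset.mem_univ b)).trans (Nat.le_add_right _ _)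
  · exact (Nat.le_ceil _).trans (by exact_mod_cast Nat.le_add_left _ _)

/-- growth estimate -/
theorem kb_grow (har : ∀ j, ar j j = 0) (hG : kbGen φ θ ord) {n : ℕ} {lg : Fin n → I → ℤ}
    {T : Fin n → KK I} (hT : kbGens nd ar fr φ ord lg T) {J V : Submodule ℂ (LL I)}
    (hJ : kbId (Cou nd ar fr) J) (hJV : J ≤ V)
    (hV : ∀ c : PP I, (∀ σ, InW nd σ → MvPolynomial.rename σ c = c) → ∀ x ∈ Cou nd ar fr,
      ∃ r : ℂ, pL c * x - r • x ∈ V)
    {s : ℕ} (a : Fin s → LL I) (ha : ∀ i, a i ∈ Cou nd ar fr)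
    (hind : ∀ P : MvPolynomial (Fin s) ℂ, MvPolynomial.aeval a P ∈ V → P = 0) :
    ∃ N C : ℕ, ∀ m : ℕ, m ^ s ≤ N * {μ : I → ℤ | (∀ b, |μ b| ≤ C * m) ∧
      ∃ e ∈ {e : Fin n → ℕ | ∏ g, T g ^ e g ∉ kbIn φ J (∑ g, (e g : ℤ) • lg g)},
        μ = ∑ g, (e g : ℤ) • lg g}.ncard := by
  classical
  obtain ⟨Φ, hΦ⟩ := kb_reyn nd
  choose av hav hΦ using hΦ
  have hlift : ∀ (l : I → ℤ) (g : PP I), ∃ x ∈ Cou nd ar fr, Dom nd ord l →
      kbTop φ x l (algebraMap (PP I) (KK I) (av l g) * EE nd ar fr l) ∧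
        kbSp x fun μ => kbNu nd μ = kbNu nd l := fun l g => by
    by_cases hl : Dom nd ord l
    · obtain ⟨x, hx, h⟩ := kbIn_hom (kbId_top har) (hT.lift har hG hl (hav l g))
      exact ⟨x, hx, fun _ => h⟩
    · exact ⟨0, zero_mem _, fun h => absurd h hl⟩
  choose u hu hu' using hlift
  obtain ⟨C, hC⟩ := kb_box (nd := nd) hG.ho hG.lt
  obtain ⟨B, hB⟩ := kb_bd_exists (nd := nd) (φ := φ) a
  refine ⟨Φ.card, C * (B * s), fun m => ?_⟩
  set M : ℕ := B * m * s with hM
  set LV := {μ : I → ℤ | (∀ b, |μ b| ≤ (C * (B * s) : ℕ) * m) ∧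
      ∃ e ∈ {e : Fin n → ℕ | ∏ g, T g ^ e g ∉ kbIn φ J (∑ g, (e g : ℤ) • lg g)},
        μ = ∑ g, (e g : ℤ) • lg g} with hLV
  have hCM : ((C * (B * s) : ℕ) : ℤ) * m = C * M := by rw [hM]; push_cast; ring
  obtain ⟨Bx, hBx⟩ : ∃ Bx : Finset (I → ℤ), ∀ μ : I → ℤ, (∀ b, |μ b| ≤ C * M) → μ ∈ Bx :=
    ⟨Fintype.piFinset fun _ => Finset.Icc (-(C * M : ℤ)) (C * M), fun μ h =>
      Fintype.mem_piFinset.2 fun b => Finset.mem_Icc.2 (abs_le.1 (h b))⟩
  have hfin : LV.Finite := Bx.finite_toSet.subset fun μ hμ => hBx μ (hCM ▸ hμ.1)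
  obtain ⟨W, hW⟩ : ∃ W : Finset (LL I), W = (hfin.toFinset ×ˢ Φ).image fun q => u q.1 q.2 :=
    ⟨_, rfl⟩
  have red : ∀ (k : ℕ) (c : ℝ), (Bx.filter fun μ => φ μ < c).card = k → ∀ x ∈ Cou nd ar fr,
      kbSp x (kbBd nd φ M) → kbSp x (fun μ => φ μ < c) → x ∈ V ⊔ Submodule.span ℂ (W : Set (LL I)) := by
    intro k
    induction k using Nat.strong_induction_on with
    | _ k ih =>
    intro c hk x hx h1 h2
    rcases x.coeff.support.eq_empty_or_nonempty with h0 | h0
    · have : x = 0 := AddMonoidAlgebra.ext (Finsupp.support_eq_empty.1 h0)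
      rw [this]
      exact zero_mem _
    obtain ⟨l, hl, hmax⟩ := x.coeff.support.exists_max_image φ h0
    have hl0 := Finsupp.mem_support_iff.1 hl
    have htop : kbTop φ x l (x.coeff l) := ⟨fun μ hμ => hmax μ (Finsupp.mem_support_iff.2 hμ), rfl⟩
    have hdom : Dom nd ord l := kb_dom hG hx htop hl0
    have hbox := hC M l hdom (h1 l hl0).1 (hG.eq l ▸ (h1 l hl0).2)
    obtain ⟨f, hf, hf'⟩ := kb_lead har hG hdom (c := x.coeff l) ⟨x, hx, htop⟩
    obtain ⟨y, hy, hyA, hy1, hy2⟩ : ∃ y ∈ V ⊔ Submodule.span ℂ (W : Set (LL I)),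
        y ∈ Cou nd ar fr ∧ kbTop φ y l (x.coeff l) ∧ kbSp y fun μ => kbNu nd μ = kbNu nd l := by
      by_cases hlv : l ∈ LV
      · obtain ⟨d, hd, hd'⟩ := hΦ l f hf
        refine ⟨∑ g ∈ Φ, pL (d g) * u l g, Submodule.sum_mem _ fun g hg => ?_,
          Subalgebra.sum_mem _ fun g _ => mul_mem (pL_mem (hd g)) (hu l g), ⟨?_, ?_⟩, ?_⟩
        · obtain ⟨r, hr⟩ := hV (d g) (hd g) _ (hu l g)
          rw [← sub_add_cancel (pL (d g) * u l g) (r • u l g)]
          refine Submodule.add_mem_sup hr (Submodule.smul_mem _ _ (Submodule.subset_span ?_))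
          rw [hW]
          exact Finset.mem_coe.2 (Finset.mem_image.2
            ⟨(l, g), Finset.mem_product.2 ⟨hfin.mem_toFinset.2 hlv, hg⟩, rfl⟩)
        · exact kbSp.sum _ fun g _ => (kbSp_single 0 _).mul (hu' l g hdom).1.1 fun _ _ e h => by
            rw [e, zero_add]; exact h
        · rw [hf', hd', map_sum, Finset.sum_mul, AddMonoidAlgebra.coeff_sum,
            Finsupp.finset_sum_apply]
          refine Finset.sum_congr rfl fun g _ => ?_
          have := ((kbTop_single (φ := φ) 0 (algebraMap (PP I) (KK I) (d g))).mul hG.inj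
            (hu' l g hdom).1).2
          rw [zero_add] at this
          rw [map_mul, mul_assoc]
          exact this
        · exact kbSp.sum _ fun g _ => (kbSp_single 0 _).mul (hu' l g hdom).2 fun _ _ e h => by
            rw [e, zero_add]; exact h
      · obtain ⟨y, hy, h⟩ := kbIn_hom hJ (hT.gen J hJ l f hdom hf fun e he => by
          by_contra hn
          exact hlv ⟨hCM ▸ hbox, e, fun h' => hn (by rw [he]; exact h'), he⟩)
        exact ⟨y, Submodule.mem_sup_left (hJV hy), hJ.le y hy, hf' ▸ h.1, h.2⟩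
    rw [← sub_add_cancel x y]
    refine add_mem (ih _ ?_ (φ l) rfl _ (sub_mem hx hyA) (h1.sub fun μ hμ =>
      ⟨hy2 μ hμ ▸ (h1 l hl0).1, (hy1.1 μ hμ).trans (h1 l hl0).2⟩) fun μ hμ => ?_) hy
    · rw [← hk]
      refine Finset.card_lt_card ⟨fun μ hμ => ?_, fun hs => ?_⟩
      · rw [Finset.mem_filter] at hμ ⊢
        exact ⟨hμ.1, hμ.2.trans (h2 l hl0)⟩
      · exact lt_irrefl _ (Finset.mem_filter.1
          (hs (Finset.mem_filter.2 ⟨hBx l hbox, h2 l hl0⟩))).2
    · refine lt_of_le_of_ne (htop.1.sub hy1.1 μ hμ) fun e => hμ ?_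
      rw [hG.inj e, AddMonoidAlgebra.coeff_sub, Finsupp.sub_apply, hy1.2, sub_self]
  have hli : LinearIndependent ℂ fun e : Fin s → Fin m => V.mkQ (∏ i, a i ^ (e i : ℕ)) := by
    rw [Fintype.linearIndependent_iff]
    intro g hg e
    have h1 := hind (∑ e : Fin s → Fin m,
        MvPolynomial.monomial (Finsupp.equivFunOnFinite.symm fun i => (e i : ℕ)) (g e)) (by
      rw [← Submodule.Quotient.mk_eq_zero, ← Submodule.mkQ_apply, ← hg, map_sum, map_sum]
      refine Finset.sum_congr rfl fun e _ => ?_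
      rw [MvPolynomial.aeval_monomial, ← Algebra.smul_def, map_smul, Finsupp.prod_fintype _ _
        (by simp)]
      simp only [Finsupp.equivFunOnFinite_symm_apply_apply, Submodule.mkQ_apply])
    have h2 := congrArg (MvPolynomial.coeff (Finsupp.equivFunOnFinite.symm fun i => (e i : ℕ))) h1
    rw [MvPolynomial.coeff_sum, Finset.sum_eq_single e] at h2
    · simpa using h2
    · intro e' _ he
      rw [MvPolynomial.coeff_monomial, if_neg]
      intro h
      exact he (funext fun i => Fin.ext (congrFun (Finsupp.equivFunOnFinite.symm.injective h) i))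
    · simp only [Finset.mem_univ, not_true_eq_false, MvPolynomial.coeff_monomial, ↓ reduceIte, IsEmpty.forall_iff]
  have h3 := linearIndependent_le_span_aux' _ hli ((W.image V.mkQ : Finset _) : Set _) (by
    rintro _ ⟨e, rfl⟩
    have h4 : kbSp (∏ i, a i ^ (e i : ℕ)) (kbBd nd φ M) := by
      have := kb_bd_prod (nd := nd) (φ := φ) Finset.univ (x := fun i => a i ^ (e i : ℕ))
        (k := B * m) fun i => (kb_bd_pow (hB i) _).mono fun _ h =>
          h.mono (Nat.mul_le_mul_left _ (e i).2.le)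
      simpa only [Finset.card_univ, Fintype.card_fin] using this
    obtain ⟨v, hv, w, hw, h5⟩ := Submodule.mem_sup.1 (red _ (M + 1) rfl _
      (Subalgebra.prod_mem _ fun i _ => pow_mem (ha i) _) h4 (h4.mono fun μ h => by linarith only [h.2]))
    show V.mkQ _ ∈ _
    rw [← h5, map_add, Submodule.mkQ_apply, (Submodule.Quotient.mk_eq_zero V).2 hv, zero_add,
      Finset.coe_image, ← Submodule.map_span]
    exact Submodule.mem_map_of_mem hw)
  simp only [Fintype.card_fun, Fintype.card_fin, Finset.coe_sort_coe, Fintype.card_coe] at h3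
  refine h3.trans (Finset.card_image_le.trans ?_)
  rw [hW]
  refine Finset.card_image_le.trans ?_
  rw [Finset.card_product, Set.ncard_eq_toFinset_card _ hfin, mul_comm]

theorem kb_alg_smul (c : ℂ) (p : PP I) :
    algebraMap (PP I) (KK I) (c • p) = c • algebraMap (PP I) (KK I) p :=
  map_smul (IsScalarTower.toAlgHom ℂ (PP I) (KK I)) c p

theorem kb_chain {s : ℕ} (h : Fin s → PP I) (c : I → ℤ) (M : Fin s → ℂ)
    (hM : ∀ j, ∑ a, (c a : ℂ) • MvPolynomial.pderiv a (h j) = MvPolynomial.C (M j))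
    (q : MvPolynomial (Fin s) ℂ) :
    ∑ a, (c a : ℂ) • MvPolynomial.pderiv a (MvPolynomial.aeval h q) =
      MvPolynomial.aeval h (∑ j, M j • MvPolynomial.pderiv j q) := by
  induction q using MvPolynomial.induction_on with
  | C r => simp only [MvPolynomial.aeval_eq_bind₁, MvPolynomial.algHom_C, MvPolynomial.algebraMap_eq, MvPolynomial.derivation_C, smul_zero, Finset.sum_const_zero, map_zero]
  | add p q hp hq => simp only [map_add, smul_add, Finset.sum_add_distrib, hp, hq]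
  | mul_X p j hp =>
    have h1 : ∑ i, M i • MvPolynomial.pderiv i (p * MvPolynomial.X j) =
        M j • p + (∑ i, M i • MvPolynomial.pderiv i p) * MvPolynomial.X j := by
      simp only [Derivation.leibniz, smul_add, Finset.sum_add_distrib, Finset.sum_mul,
        MvPolynomial.pderiv_X, smul_eq_mul]
      congr 1
      · rw [Finset.sum_eq_single j] <;> simp +contextual only [Pi.single_eq_same, mul_one, Finset.mem_univ, ne_eq, not_false_eq_true, Pi.single_eq_of_ne', mul_zero, smul_zero, implies_true, imp_self, not_true_eq_false, smul_eq_zero, IsEmpty.forall_iff]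
      · exact Finset.sum_congr rfl fun i _ => by rw [mul_comm, smul_mul_assoc]
    rw [h1, map_add, map_mul, map_mul, ← hp, MvPolynomial.aeval_X, map_smul,
      MvPolynomial.smul_eq_C_mul, ← hM]
    simp only [Derivation.leibniz, smul_add, Finset.sum_add_distrib, Finset.sum_mul, smul_eq_mul]
    congr 1
    · exact Finset.sum_congr rfl fun i _ => by rw [mul_comm, smul_mul_assoc]
    · exact Finset.sum_congr rfl fun i _ => by rw [mul_comm, smul_mul_assoc]

/-- doubling the number of independent elements -/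
theorem kb_indep (har : ∀ j, ar j j = 0) (hG : kbGen φ θ ord) {J : Submodule ℂ (LL I)}
    (hJ : kbId (Cou nd ar fr) J) {s : ℕ} {l : Fin s → I → ℤ}
    (hl : LinearIndependent ℂ fun i a => (l i a : ℂ)) (hd : ∀ i, Dom nd ord (l i))
    {T : Fin s → KK I} (hT : ∀ i, T i ∈ kbIn φ (Cou nd ar fr).toSubmodule (l i))
    (hgen : ∀ l f, Dom nd ord l → InvL nd l f →
      algebraMap (PP I) (KK I) f * EE nd ar fr l ∈ kbIn φ (Cou nd ar fr).toSubmodule l)
    (hn : ∀ k : ℕ, ∏ i, T i ^ k ∉ kbIn φ J (∑ i, (k : ℤ) • l i)) :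
    ∃ z : Fin (s + s) → LL I, (∀ k, z k ∈ Cou nd ar fr) ∧
      ∀ P : MvPolynomial (Fin (s + s)) ℂ, MvPolynomial.aeval z P ∈ J → P = 0 := by
  classical
  have hA := kbId_top (nd := nd) (fr := fr) har
  have hP := fun w : Fin s → ℕ => kbIn_prod hG.inj Finset.univ hT w
  obtain ⟨h, hh⟩ : ∃ h : Fin s → PP I, ∀ j, h j = ∑ a, (l j a : ℂ) • MvPolynomial.X a :=
    ⟨_, fun _ => rfl⟩
  have hdom : Dom nd ord (∑ i, l i) := fun a b h1 h2 => by
    simp only [Finset.sum_apply]
    exact Finset.sum_le_sum fun i _ => hd i a b h1 h2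
  have hx : ∀ j, algebraMap (PP I) (KK I) (h j) * ∏ i, T i ∈
      kbIn φ (Cou nd ar fr).toSubmodule (∑ i, l i) := fun j => by
    obtain ⟨f, hf, hf'⟩ := kb_lead har hG hdom (c := ∏ i, T i) (by simpa only [Nat.cast_one, one_smul, pow_one] using hP fun _ => 1)
    rw [hf', ← mul_assoc, ← map_mul]
    refine hgen _ _ hdom fun σ h1 h2 => ?_
    rw [map_mul, hf σ h1 h2]
    congr 1
    have h3 : ∑ i, φ (l i ∘ σ) = ∑ i, φ (l i) := by
      rw [← map_sum, ← map_sum, ← h2]
      congr 1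
      funext a
      simp only [Finset.sum_apply, Function.comp_apply]
    have h4 := hG.inj ((Finset.sum_eq_sum_iff_of_le fun i _ => kb_orb hG (hd i) h1).1 h3 j
      (Finset.mem_univ _))
    rw [hh, map_sum, ← Equiv.sum_comp σ fun a => (l j a : ℂ) • (MvPolynomial.X a : PP I)]
    refine Finset.sum_congr rfl fun a _ => ?_
    rw [map_smul, MvPolynomial.rename_X, show l j (σ a) = l j a from congrFun h4 a]
  -- the space of polynomials in the linear forms
  have hmono : ∀ (c : KK I) (w w' : Fin s → ℕ), w ≤ w' →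
      c * ∏ i, T i ^ w i ∈ kbIn φ J (∑ i, (w i : ℤ) • l i) →
      c * ∏ i, T i ^ w' i ∈ kbIn φ J (∑ i, (w' i : ℤ) • l i) := fun c w w' hw hc => by
    have := kbIn_mul hG.inj hJ (hP (w' - w)) hc (n := ∑ i, (w' i : ℤ) • l i) (by
      rw [← Finset.sum_add_distrib]
      refine Finset.sum_congr rfl fun i _ => ?_
      rw [← add_smul, Pi.sub_apply, Nat.cast_sub (hw i), sub_add_cancel])
    rwa [mul_left_comm, ← Finset.prod_mul_distrib, Finset.prod_congr rfl fun i _ => by
      rw [← pow_add, Pi.sub_apply, Nat.sub_add_cancel (hw i)]] at this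
  let Q : Submodule ℂ (MvPolynomial (Fin s) ℂ) :=
    { carrier := {q | ∃ w : Fin s → ℕ, algebraMap (PP I) (KK I) (MvPolynomial.aeval h q) *
        ∏ i, T i ^ w i ∈ kbIn φ J (∑ i, (w i : ℤ) • l i)}
      zero_mem' := ⟨0, by simp only [Pi.zero_apply, CharP.cast_eq_zero, zero_smul, Finset.sum_const_zero, MvPolynomial.aeval_eq_bind₁, map_zero, pow_zero, Finset.prod_const_one, mul_one, zero_mem]⟩
      add_mem' := fun {p q} ⟨w, hp⟩ ⟨w', hq⟩ => ⟨w + w', by
        rw [map_add, map_add, add_mul]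
        exact add_mem (hmono _ _ _ le_self_add hp) (hmono _ _ _ le_add_self hq)⟩
      smul_mem' := fun c q ⟨w, hq⟩ => ⟨w, by
        rw [map_smul, kb_alg_smul, smul_mul_assoc]
        exact Submodule.smul_mem _ c hq⟩ }
  have hQ : ∀ q ∈ Q, ∀ i, ∑ j, ((∑ a, l i a * l j a : ℤ) : ℂ) • MvPolynomial.pderiv j q ∈ Q := by
    rintro q ⟨w, x, hx, htop⟩ i
    obtain ⟨y, hy, hy'⟩ := hT i
    obtain ⟨Y, hY, hY'⟩ := hP w
    have h1 := (kbIn φ J _).sub_mem
      (kbIn_mul hG.inj hJ (hP w) ⟨_, hJ.br y hy x hx, hy'.br hG.inj htop⟩ rfl)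
      (kbIn_mul hG.inj hJ ⟨_, hA.br y hy Y hY, hy'.br hG.inj hY'⟩ ⟨x, hx, htop⟩ (add_comm _ _))
    refine ⟨w + w + Pi.single i 1, ?_⟩
    rw [← kb_chain h (l i) _ (fun j => by
      rw [hh]
      simp only [MvPolynomial.smul_eq_C_mul, map_intCast, map_sum, Derivation.leibniz, MvPolynomial.pderiv_X, Pi.single_apply, smul_eq_mul, mul_ite, mul_one, mul_zero, Derivation.map_intCast, add_zero, Finset.sum_ite_eq', Finset.mem_univ, ↓ reduceIte, Int.cast_sum, Int.cast_mul, MvPolynomial.C_mul])]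
    convert h1 using 1
    · congr 1
      have h3 : ∑ j, (((Pi.single i 1 : Fin s → ℕ) j : ℕ) : ℤ) • l j = l i := by
        rw [Finset.sum_eq_single i] <;> simp +contextual only [Pi.single_eq_same, Nat.cast_one, one_smul, Finset.mem_univ, ne_eq, not_false_eq_true, Pi.single_eq_of_ne, CharP.cast_eq_zero, zero_smul, implies_true, imp_self, not_true_eq_false, IsEmpty.forall_iff]
      simp only [Pi.add_apply, Nat.cast_add, add_smul, Finset.sum_add_distrib, h3]
      abel
    · have h2 : ∏ j, T j ^ (w + w + Pi.single i 1 : Fin s → ℕ) j =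
          (∏ j, T j ^ w j) * (∏ j, T j ^ w j) * T i := by
        simp only [Pi.add_apply, pow_add, Finset.prod_mul_distrib]
        rw [Finset.prod_eq_single i (f := fun j => T j ^ (Pi.single i 1 : Fin s → ℕ) j)] <;>
          simp +contextual only [Pi.single_eq_same, pow_one, Finset.mem_univ, ne_eq, not_false_eq_true, Pi.single_eq_of_ne, pow_zero, implies_true, imp_self, not_true_eq_false, IsEmpty.forall_iff]
      rw [h2, map_sum, Finset.sum_mul, Finset.mul_sum, Finset.sum_mul, ← Finset.sum_sub_distrib]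
      refine Finset.sum_congr rfl fun a _ => ?_
      rw [pd_mul, pd_poly, kb_alg_smul, Int.cast_smul_eq_zsmul, zsmul_eq_mul]
      ring
  have hQ0 : ∀ q ∈ Q, q = 0 := fun q hq => by
    by_contra h0
    obtain ⟨w, hw⟩ := kb_gram l hl Q hQ hq h0
    refine hn (∑ i, w i) ?_
    simpa only [Nat.cast_sum, zsmul_eq_mul, Int.cast_sum, Int.cast_natCast, MvPolynomial.aeval_eq_bind₁, map_one, one_mul] using hmono _ w (fun _ => ∑ i, w i) (fun i => Finset.single_le_sum
      (fun _ _ => Nat.zero_le _) (Finset.mem_univ i)) hw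
  choose x hxA hx using hx
  choose y hyA hy using hT
  refine ⟨Fin.addCases x y, fun k => by
    refine Fin.addCases (fun i => ?_) (fun i => ?_) k
    · simp only [Fin.addCases_left]; exact hxA i
    · simp only [Fin.addCases_right]; exact hyA i, fun P hPJ => ?_⟩
  by_contra hP0
  obtain ⟨α, hα⟩ : ∃ α : (Fin (s + s) →₀ ℕ) → Fin s →₀ ℕ, ∀ d i, α d i = d (Fin.castAdd s i) :=
    ⟨fun d => Finsupp.equivFunOnFinite.symm fun i => d (Fin.castAdd s i), fun _ _ => rfl⟩
  obtain ⟨w, hw⟩ : ∃ w : (Fin (s + s) →₀ ℕ) → Fin s → ℕ,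
      ∀ d i, w d i = ∑ j, α d j + d (Fin.natAdd s i) := ⟨_, fun _ _ => rfl⟩
  have htop : ∀ d : Fin (s + s) →₀ ℕ, kbTop φ (∏ k, (Fin.addCases x y k : LL I) ^ d k)
      (∑ i, (w d i : ℤ) • l i)
      (algebraMap (PP I) (KK I) (∏ j, h j ^ α d j) * ∏ i, T i ^ w d i) := fun d => by
    rw [Fin.prod_univ_add]
    simp only [Fin.addCases_left, Fin.addCases_right, ← hα]
    convert (kbTop.prod hG.inj Finset.univ fun j _ => (hx j).pow hG.inj (α d j)).mul hG.inj
      (kbTop.prod hG.inj Finset.univ fun i _ => (hy i).pow hG.inj (d (Fin.natAdd s i))) using 1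
    · simp only [hw, Nat.cast_add, add_smul, Finset.sum_add_distrib, ← Finset.smul_sum,
        ← Finset.sum_smul, Nat.cast_sum]
    · simp only [hw, pow_add, mul_pow, Finset.prod_mul_distrib, map_prod, map_pow,
        Finset.prod_pow, Finset.prod_pow_eq_pow_sum, mul_assoc]
  have hinj : ∀ v v' : Fin s → ℕ, ∑ i, (v i : ℤ) • l i = ∑ i, (v' i : ℤ) • l i → v = v' :=
    fun v v' e => funext fun i => by
      have := Fintype.linearIndependent_iff.1 hl (fun i => (v i : ℂ) - v' i) (by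
        funext a
        have h1 := congrArg (fun μ : I → ℤ => (μ a : ℂ)) e
        simp only [Finset.sum_apply, Pi.smul_apply, smul_eq_mul, Int.cast_sum, Int.cast_mul,
          Int.cast_natCast] at h1
        simp only [Finset.sum_apply, Pi.smul_apply, smul_eq_mul, sub_mul, Finset.sum_sub_distrib, h1, sub_self, Pi.zero_apply]) i
      exact_mod_cast sub_eq_zero.1 this
  obtain ⟨d0, hd0, hmax⟩ := P.support.exists_max_image (fun d => φ (∑ i, (w d i : ℤ) • l i))
    (MvPolynomial.support_nonempty.2 hP0)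
  have hq := hQ0 (∑ d ∈ P.support with w d = w d0, MvPolynomial.monomial (α d) (P.coeff d))
    ⟨w d0, _, hPJ, by
      rw [MvPolynomial.aeval_def, MvPolynomial.eval₂_eq']
      exact kbSp.sum _ fun d hd => by
        rw [← Algebra.smul_def]
        exact ((htop d).1.mono fun μ hμ => hμ.trans (hmax d hd)).smul _, by
      rw [MvPolynomial.aeval_def, MvPolynomial.eval₂_eq', AddMonoidAlgebra.coeff_sum,
        Finsupp.finset_sum_apply, map_sum, map_sum, Finset.sum_mul, Finset.sum_filter]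
      refine Finset.sum_congr rfl fun d hd => ?_
      rw [← Algebra.smul_def, AddMonoidAlgebra.coeff_smul_apply]
      split_ifs with e
      · rw [← e, (htop d).2, MvPolynomial.aeval_monomial, ← Algebra.smul_def (A := PP I),
          kb_alg_smul, smul_mul_assoc, Finsupp.prod_fintype _ _ (by simp)]
      · rw [smul_eq_zero_of_right]
        by_contra h1
        exact e (hinj _ _ (hG.inj (le_antisymm (hmax d hd) ((htop d).1 _ h1))))⟩
  have h2 := congrArg (MvPolynomial.coeff (α d0)) hq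
  rw [MvPolynomial.coeff_sum, Finset.sum_eq_single d0] at h2
  · exact MvPolynomial.mem_support_iff.1 hd0 (by simpa using h2)
  · intro d hd he
    rw [MvPolynomial.coeff_monomial, if_neg]
    intro e
    refine he (Finsupp.ext fun k => Fin.addCases (fun i => ?_) (fun i => ?_) k)
    · rw [← hα, ← hα, e]
    · have := congrFun (Finset.mem_filter.1 hd).2 i
      rw [hw, hw, e] at this
      exact add_left_cancel this
  · intro h1
    exact (h1 (by simp [hd0])).elim

/-- the vanishing ideal as a subspace of `LL I` -/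
def kbVan (A : Subalgebra ℂ (LL I)) (Y : Set (Pt A)) : Submodule ℂ (LL I) where
  carrier := {x | ∃ a : A, (a : LL I) = x ∧ ∀ y ∈ Y, y a = 0}
  zero_mem' := ⟨0, rfl, fun y _ => map_zero y⟩
  add_mem' := fun ⟨a, ha, h⟩ ⟨b, hb, h'⟩ => ⟨a + b, by rw [← ha, ← hb]; rfl, fun y hy => by
    rw [map_add, h y hy, h' y hy, add_zero]⟩
  smul_mem' := fun c _ ⟨a, ha, h⟩ => ⟨c • a, by rw [← ha]; rfl, fun y hy => by
    rw [map_smul, h y hy, smul_zero]⟩

theorem kbVan_aeval {A : Subalgebra ℂ (LL I)} {Y : Set (Pt A)} {s : ℕ} (a : Fin s → A)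
    (P : MvPolynomial (Fin s) ℂ) : MvPolynomial.aeval (fun i => (a i : LL I)) P ∈ kbVan A Y ↔
      ∀ y ∈ Y, y (MvPolynomial.aeval a P) = 0 := by
  have h : ((MvPolynomial.aeval a P : A) : LL I) = MvPolynomial.aeval (fun i => (a i : LL I)) P :=
    DFunLike.congr_fun (MvPolynomial.comp_aeval a A.val) P
  exact ⟨fun ⟨b, hb, h'⟩ => Subtype.ext (hb.trans h.symm) ▸ h', fun h' => ⟨_, h, h'⟩⟩

theorem kbVan_id {A : Subalgebra ℂ (LL I)} {Y : Set (Pt A)}
    (h1 : ∀ x y : A, (brA A x y : LL I) = br x y) (hY : ∀ f p, p ∈ II Y → brA A f p ∈ II Y) :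
    kbId A (kbVan A Y) :=
  ⟨fun _ ⟨b, hb, _⟩ => hb ▸ b.2,
    fun c hc _ ⟨b, hb, h⟩ => ⟨⟨c, hc⟩ * b, by rw [← hb]; rfl, fun y hy => by
      rw [map_mul, h y hy, mul_zero]⟩,
    fun c hc _ ⟨b, hb, h⟩ => ⟨_, by rw [h1, hb], hY ⟨c, hc⟩ b h⟩⟩

theorem kbVan_fib {A : Subalgebra ℂ (LL I)} (Y : Set (Pt A)) (t : I → ℂ) {c : PP I} (hc : pL c ∈ A)
    {x : LL I} (hx : x ∈ A) : pL c * x - MvPolynomial.eval t c • x ∈ kbVan A (Y ∩ Fib A t) := by
  obtain ⟨a, ha⟩ : ∃ a : A, (a : LL I) = pL c := ⟨⟨_, hc⟩, rfl⟩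
  obtain ⟨b, rfl⟩ : ∃ b : A, (b : LL I) = x := ⟨⟨_, hx⟩, rfl⟩
  refine ⟨a * b + (-MvPolynomial.eval t c) • b, ?_, fun y hy => ?_⟩
  · rw [← ha, AddMemClass.coe_add, MulMemClass.coe_mul, SetLike.val_smul, neg_smul, sub_eq_add_neg]
  · rw [map_add, map_mul, map_smul, hy.2 c a ha, smul_eq_mul, neg_mul, add_neg_cancel]

theorem kb_up (hφ : Function.Injective φ) {A : Subalgebra ℂ (LL I)} {J : Submodule ℂ (LL I)}
    (hJ : kbId A J) {n : ℕ} {lg : Fin n → I → ℤ} {T : Fin n → KK I}
    (hT : ∀ g, T g ∈ kbIn φ A.toSubmodule (lg g)) {e e' : Fin n → ℕ} (hle : e' ≤ e)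
    (h : ∏ g, T g ^ e' g ∈ kbIn φ J (∑ g, (e' g : ℤ) • lg g)) :
    ∏ g, T g ^ e g ∈ kbIn φ J (∑ g, (e g : ℤ) • lg g) := by
  have := kbIn_mul hφ hJ (kbIn_prod hφ Finset.univ hT (e - e')) h
    (n := ∑ i, (e i : ℤ) • lg i) (by
    rw [← Finset.sum_add_distrib]
    refine Finset.sum_congr rfl fun i _ => ?_
    rw [← add_smul, Pi.sub_apply, Nat.cast_sub (hle i), sub_add_cancel])
  rwa [← Finset.prod_mul_distrib, Finset.prod_congr rfl fun i _ => by
    rw [← pow_add, Pi.sub_apply, Nat.sub_add_cancel (hle i)]] at this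

theorem kb_fib {n s : ℕ} (γ : Fin s → Fin n) (lg : Fin n → I → ℤ) (T : Fin n → KK I) (k : ℕ) :
    ∃ e : Fin n → ℕ, (∀ g, g ∉ Set.range γ → e g = 0) ∧ ∏ g, T g ^ e g = ∏ i, T (γ i) ^ k ∧
      ∑ g, (e g : ℤ) • lg g = ∑ i, (k : ℤ) • lg (γ i) := by
  refine ⟨fun g => ∑ i with γ i = g, k, fun g hg =>
    Finset.sum_eq_zero fun i hi => absurd ⟨i, (Finset.mem_filter.1 hi).2⟩ hg, ?_, ?_⟩
  · rw [← Finset.prod_fiberwise Finset.univ γ]
    refine Finset.prod_congr rfl fun g _ => ?_
    rw [← Finset.prod_pow_eq_pow_sum]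
    exact Finset.prod_congr rfl fun i hi => by rw [(Finset.mem_filter.1 hi).2]
  · rw [← Finset.sum_fiberwise Finset.univ γ]
    refine Finset.sum_congr rfl fun g _ => ?_
    rw [Nat.cast_sum, Finset.sum_smul]
    exact Finset.sum_congr rfl fun i hi => by rw [(Finset.mem_filter.1 hi).2]

theorem kb (har : ∀ j, ar j j = 0) {Y : Set (Pt (Cou nd ar fr))}
    (hY : ∀ f p, p ∈ II Y → brA (Cou nd ar fr) f p ∈ II Y) {D : ℕ} (hD : TD Y D) (t : I → ℂ) :
    TD (Y ∩ Fib (Cou nd ar fr) t) ((D / 2 : ℕ) : ℤ) := by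
  intro s a hs
  by_contra hn
  obtain ⟨φ, θ, ord, hG⟩ := kb_exists_gen (I := I)
  obtain ⟨n, lg, T, hT⟩ := kb_gens (nd := nd) (ar := ar) (fr := fr) hG
  have hJ := kbVan_id (brA_coe har) hY
  obtain ⟨N, C, hN⟩ := kb_grow har hG hT hJ (V := kbVan _ (Y ∩ Fib (Cou nd ar fr) t))
    (fun _ ⟨b, hb, h⟩ => ⟨b, hb, fun y hy => h y hy.1⟩)
    (fun c hc x hx => ⟨_, kbVan_fib Y t (pL_mem hc) hx⟩)
    (fun i => (a i : LL I)) (fun i => (a i).2) fun P hP => by
      by_contra h0
      exact hn ⟨P, h0, (kbVan_aeval a P).1 hP⟩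
  obtain ⟨γ, h1, h2⟩ := (fun H => kb_count lg _ H N C hN)
    fun e he e' hle h => he (kb_up hG.inj hJ hT.mem hle h)
  obtain ⟨z, hz, hz'⟩ := kb_indep har hG hJ h1 (fun i => hT.dom _) (fun i => hT.mem (γ i))
    (fun l f => hT.lift har hG) fun k hk => by
      obtain ⟨e, h3, h4, h5⟩ := kb_fib γ lg T k
      refine h2 e h3 ?_
      rw [h4, h5]
      exact hk
  obtain ⟨P, hP, hP'⟩ := hD (s + s) (fun k => ⟨z k, hz k⟩) (by omega)
  exact hP (hz' P ((kbVan_aeval (fun k => ⟨z k, hz k⟩) P).2 hP'))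

end C73
end
end

end
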