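import Pool.Agent.MP_94fa45_ag.Mg.C73_PA
import Pool.Agent.MP_94fa45_ag.C73.SB
import Pool.Agent.MP_94fa45_ag.Mg.C73_AK

attribute [-instance] isNoetherian_of_isNoetherianRing_of_finite
  SemilinearIsometryClass.toContinuousSemilinearMapClass SubringClass.toCommRing Subalgebra.algebra'
  AlgHom.instContinuousLinearMapClassOfAlgHomClass instIsIntegralQuotientIdeal
  NonAssocRing.toNonUnitalNonAssocRing instUniqueFactorizationMonoidLocalization
  MonTypeEquivalenceMon.monMonoid NonUnitalNormedRing.toNormedAddCommGroup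
  CoalgHomClass.toSemilinearMapClass instCharZeroOfIsSemireal RingHomClass.toLinearMapClassNNRat
  littleWedderburn instNonUnitalAlgHomClassOfNonUnitalAlgEquivClass
  PositiveLinearMap.instContinuousLinearMapClassComplexOfLinearMapClassOfOrderHomClass
  IsDedekindDomain.isDedekindDomainDvr SemilinearIsometryClass.toSemilinearMapClass
  RightPreLieAlgebra.toModule LeftPreLieAlgebra.toModule BialgEquivClass.toBialgHomClass
  NonUnitalSubringClass.toNonUnitalCommRing CommMonTypeEquivalenceCommMon.commMonCommMonoid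
  SubalgebraClass.toAlgebra Module.Finite.quotient Group.IsPerfect.subsingleton_of_isMulCommutative
  OreLocalization.instAddCommMonoidOreLocalization RingHomClass.toLinearMapClassRat
  LieAlgebra.toModule AddGroupConeClass.toAddSubmonoidClass RCLike.charZero_rclike bot_nonempty
  Field.instIsIntegrallyClosed NonarchimedeanRing.toIsTopologicalRing Unique.instSubsingleton
  NumberField.to_charZero TestFunctionClass.toDFunLike IdemSemiring.toSemiring Valued.toUniformSpace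
  NonUnitalSubringClass.toNonUnitalNonAssocRing IsTopologicalTorsor.toContinuousSMul
  ContDiffMapSupportedInClass.toDFunLike NonUnitalRing.toNonUnitalNonAssocRing
  ContinuousSemilinearEquivClass.continuousSemilinearMapClass
  MulRingSeminormClass.toMonoidWithZeroHomClass ValuationClass.toMonoidWithZeroHomClass
  SetLike.GradeZero.instMonoid IsAffineAddMonoid.toIsCancelAdd nonempty_equiv_of_countable
  NonUnitalAlgHomClass.instSemilinearMapClassOfNonUnitalAlgSemiHomClassToMonoidHomRingHom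
  instCoeTOfCoeDep BialgHomClass.toMonoidHomClass ProperSMul.toContinuousSMul
  BialgHomClass.toAlgHomClass MulCharClass.toMonoidHomClass
  NonarchimedeanAddGroup.toIsTopologicalAddGroup Complex.instModule
  Algebra.instEssFiniteTypeQuotientIdeal NonUnitalAlgHomClass.toNonUnitalRingHomClass
  FunLike.toDecidableEq Field.instIsLocalRing MulDistribMulActionSemiHomClass.toMonoidHomClass
  instZeroLEOneClass Valued.isTopologicalDivisionRing instCoeHTCT Complex.instAlgebraOfReal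
  instIsFractionRing instCoeHTC AlgHomClass.linearMapClass IdemCommSemiring.toCommSemiring
  Complex.instDistribMulActionOfReal Unique.fintype IsometryClass.instCoeOutIsometryEquiv instCoeTC
  instIsRightCancelAddOfAddRightReflectLE IsFormallyReal.instIsReduced
  instUCompactlyGeneratedSpaceOfDiscreteTopology NumberField.instFiniteDimensional
  Module.Invertible.instFaithfulSMul IsStrictOrderedRing.noZeroDivisors
  Algebra.Generators.instIsScalarTowerRing DenselyNormedField.toNormedField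
  CentroidHomClass.toAddMonoidHomClass GrpTypeEquivalenceGrp.grpGroup
  ContinuousAddMonoidHom.instCoeOutOfAddMonoidHomClassOfContinuousMapClass Nontrivial.to_nonempty
  HomeomorphClass.instCoeOutHomeomorph MulSemiringActionSemiHomClass.toDistribMulActionSemiHomClass
  TotallySeparatedSpace.t2Space GroupConeClass.toSubmonoidClass GeneralizedCoheytingAlgebra.toLattice
  SetLike.GradeZero.instCommRing Fintype.decidableExistsFintype
  DistribMulActionSemiHomClass.toMulActionSemiHomClass Bialgebra.toAlgebra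
  continuousSub_of_indiscreteTopology instNeZeroNatHMul MulOne.toOne IsAlgClosure.isAlgebraic
  FloorSemiring.instZeroLEOneClass SemilinearEquivClass.instSemilinearMapClass
  LieAdmissibleRing.toNonUnitalNonAssocRing Zero.instNonempty
  Algebra.instEtaleOfIsStandardSmoothOfRelativeDimensionOfNatNat MulSemiringAction.toDistribMulAction
  MonoidHomClass.toMulHomClass CommRing.Pic.instFreeOfSubsingleton instSMulZeroClass
  NormedDivisionRing.toDivisionRing instCoeHTCOfCoeHeadOfCoeOTC IsGalois.to_isSeparable boolToProp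
  RingConeClass.toSubsemiringClass HeytingAlgebra.toGeneralizedHeytingAlgebra
  ContinuousLinearMap.toNormedAddCommGroup ValuationRing.toPreValuationRing
  continuousSub_of_discreteTopology LinearOrder.toDecidableEq Localization.partialOrder
  IsStrictOrderedRing.toCharZero

-- part MP_94fa45_ag.C73.PB
section

/-! Dimension theory and Poisson geometry, part 2. -/

section
/-! Block C: dimension theory of subsets of `Pt A`. -/

open Set Filter Topology TopologicalSpace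

noncomputable section
namespace C73

variable {A : Type} [CommRing A] [Algebra ℂ A]

theorem pt_cont (a : A) : Continuous fun x : Pt A => x a :=
  (continuous_apply a).comp continuous_induced_dom

/-- continuity into `Pt A` can be checked on generators -/
theorem cont_pt {W : Type} [TopologicalSpace W] {S : Set A} (hS : Algebra.adjoin ℂ S = ⊤)
    {g : W → Pt A} {T : Set W} (h : ∀ a ∈ S, ContinuousOn (fun w => g w a) T) :
    ContinuousOn g T := by
  have key : ∀ a, ContinuousOn (fun w => g w a) T := by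
    intro a
    have ha : a ∈ Algebra.adjoin ℂ S := hS ▸ Algebra.mem_top
    induction ha using Algebra.adjoin_induction with
    | mem x hx => exact h x hx
    | algebraMap r => simpa only [AlgHomClass.commutes] using continuousOn_const
    | add x y _ _ hx hy => simp only [map_add]; exact hx.add hy
    | mul x y _ _ hx hy => simp only [map_mul]; exact hx.mul hy
  have hi : IsInducing (fun (x : Pt A) (a : A) => x a) := ⟨rfl⟩
  exact hi.continuousOn_iff.2 (continuousOn_pi.2 key)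

theorem ic_aeval {κ : Type} (y : Pt A) (a : κ → A) (P : MvPolynomial κ ℂ) :
    y (MvPolynomial.aeval a P) = MvPolynomial.eval (fun i => y (a i)) P :=
  MvPolynomial.comp_aeval_apply (f := a) (y : A →ₐ[ℂ] ℂ) P

theorem ic_ext {S : Set A} (hS : Algebra.adjoin ℂ S = ⊤) {x y : Pt A} (h : ∀ a ∈ S, x a = y a) :
    x = y := AlgHom.ext_of_adjoin_eq_top hS h

theorem ic_gen [Algebra.FiniteType ℂ A] :
    ∃ (n : ℕ) (a : Fin n → A), Function.Surjective (MvPolynomial.aeval (R := ℂ) a) := by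
  obtain ⟨n, f, hf⟩ := Algebra.FiniteType.iff_quotient_mvPolynomial''.1 ‹_›
  refine ⟨n, fun i => f (MvPolynomial.X i), ?_⟩
  rwa [MvPolynomial.aeval_unique f] at hf

theorem ic_adj {n : ℕ} {a : Fin n → A} (h : Function.Surjective (MvPolynomial.aeval (R := ℂ) a)) :
    Algebra.adjoin ℂ (range a) = ⊤ := by
  rw [Algebra.adjoin_range_eq_range_aeval]
  exact (AlgHom.range_eq_top _).2 h

theorem ic_emb {n : ℕ} {a : Fin n → A} (h : Function.Surjective (MvPolynomial.aeval (R := ℂ) a)) :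
    IsClosedEmbedding fun (y : Pt A) i => y (a i) := by
  have hc : Continuous fun (y : Pt A) i => y (a i) := continuous_pi fun i => pt_cont _
  refine ⟨⟨⟨le_antisymm (continuous_iff_le_induced.1 hc) ?_⟩, fun x y hxy => ?_⟩, ?_⟩
  · refine continuous_id_iff_le.1 ?_
    refine @continuous_induced_rng _ _ _ _ _ _ (_) |>.2 ?_
    refine @continuous_pi _ _ _ (_) _ _ fun b => ?_
    obtain ⟨P, rfl⟩ := h b
    simp only [Function.comp_def, id, ic_aeval]
    exact @Continuous.comp _ _ _ (_) _ _ (fun (y : Pt A) i => y (a i))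
      (fun x => MvPolynomial.eval x P) (MvPolynomial.continuous_eval P) continuous_induced_dom
  · refine ic_ext (ic_adj h) ?_
    rintro _ ⟨i, rfl⟩
    exact congrFun hxy i
  · have : range (fun (y : Pt A) i => y (a i)) =
        ⋂ P ∈ RingHom.ker (MvPolynomial.aeval (R := ℂ) a), {ζ | MvPolynomial.eval ζ P = 0} := by
      ext ζ
      simp only [mem_range, mem_iInter, mem_ofPred_eq, RingHom.mem_ker]
      constructor
      · rintro ⟨y, rfl⟩ P hP
        rw [← ic_aeval, hP, map_zero]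
      · intro hζ
        refine ⟨(Ideal.Quotient.liftₐ _ (MvPolynomial.aeval ζ) fun P hP => hζ P hP).comp
          (Ideal.quotientKerAlgEquivOfSurjective h).symm.toAlgHom, funext fun i => ?_⟩
        have : (Ideal.quotientKerAlgEquivOfSurjective h).symm (a i) =
            Ideal.Quotient.mk _ (MvPolynomial.X i) := by
          rw [AlgEquiv.symm_apply_eq]
          simp
        change (Ideal.Quotient.liftₐ _ (MvPolynomial.aeval ζ) fun P hP => hζ P hP)
          ((Ideal.quotientKerAlgEquivOfSurjective h).symm (a i)) = _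
        rw [this]
        exact MvPolynomial.aeval_X ζ i
    rw [this]
    exact isClosed_biInter fun P _ => isClosed_eq (MvPolynomial.continuous_eval P) continuous_const

theorem pt_nice [Algebra.FiniteType ℂ A] : Nice (Pt A) := by
  obtain ⟨n, a, h⟩ := ic_gen (A := A)
  exact nice_of_closedEmb (ic_emb h)

theorem ZCl.isClosed {Y : Set (Pt A)} (h : ZCl Y) : IsClosed Y := by
  obtain ⟨S, rfl⟩ := h
  have : VV S = ⋂ a ∈ S, {x : Pt A | x a = 0} := by ext x; simp only [VV, mem_ofPred_eq, mem_iInter]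
  rw [this]
  exact isClosed_biInter fun a _ => isClosed_eq (pt_cont a) continuous_const

theorem ZCl.inter {Y Y' : Set (Pt A)} (h : ZCl Y) (h' : ZCl Y') : ZCl (Y ∩ Y') := by
  obtain ⟨S, rfl⟩ := h
  obtain ⟨S', rfl⟩ := h'
  refine ⟨S ∪ S', ?_⟩
  ext x
  simp only [VV, mem_inter_iff, mem_ofPred_eq, mem_union, or_imp, forall_and]

theorem ZCl.union {Y Y' : Set (Pt A)} (h : ZCl Y) (h' : ZCl Y') : ZCl (Y ∪ Y') := by
  obtain ⟨S, rfl⟩ := h
  obtain ⟨S', rfl⟩ := h'
  refine ⟨image2 (· * ·) S S', ?_⟩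
  ext x
  simp only [VV, mem_union, mem_ofPred_eq, forall_mem_image2, map_mul, mul_eq_zero]
  constructor
  · rintro (h | h) a ha b hb
    exacts [Or.inl (h a ha), Or.inr (h b hb)]
  · intro h
    by_contra hc
    push Not at hc
    obtain ⟨⟨a, ha, h1⟩, b, hb, h2⟩ := hc
    exact (h a ha b hb).elim h1 h2

theorem ZCl.biUnion {κ : Type} [Finite κ] {Y : κ → Set (Pt A)} (h : ∀ j, ZCl (Y j)) :
    ZCl (⋃ j, Y j) := by
  have : ∀ s : Finset κ, ZCl (⋃ j ∈ s, Y j) := by
    classical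
    intro s
    induction s using Finset.induction_on with
    | empty => exact ⟨{1}, by ext x; simp only [Finset.notMem_empty, iUnion_of_empty, iUnion_empty, mem_empty_iff_false, VV, mem_singleton_iff, forall_eq, map_one, one_ne_zero, ofPred_false]⟩
    | insert j s _ ih => rw [Finset.set_biUnion_insert]; exact (h j).union ih
  cases nonempty_fintype κ
  simpa only [Finset.mem_univ, iUnion_true] using this Finset.univ

theorem ZCl.eq {Y : Set (Pt A)} (h : ZCl Y) : Y = VV (II Y : Set A) := by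
  refine Subset.antisymm (fun y hy a ha => ha y hy) ?_
  obtain ⟨S, rfl⟩ := h
  exact fun y hy a ha => hy a fun z hz => hz a ha

theorem TD.mono {Y Y' : Set (Pt A)} {e e' : ℤ} (h : TD Y e) (hY : Y' ⊆ Y) (he : e ≤ e') :
    TD Y' e' := fun s a hs =>
  let ⟨P, hP, h0⟩ := h s a (he.trans_lt hs)
  ⟨P, hP, fun y hy => h0 y (hY hy)⟩

theorem TD.iUnion {κ : Type} [Finite κ] {Y : κ → Set (Pt A)} {e : ℤ} (h : ∀ j, TD (Y j) e) :
    TD (⋃ j, Y j) e := by
  intro s a hs
  cases nonempty_fintype κ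
  choose P hP h0 using fun j => h j s a hs
  refine ⟨∏ j, P j, Finset.prod_ne_zero_iff.2 fun j _ => hP j, fun y hy => ?_⟩
  obtain ⟨j, hj⟩ := mem_iUnion.1 hy
  rw [map_prod, map_prod]
  exact Finset.prod_eq_zero (Finset.mem_univ j) (h0 j y hj)

theorem ic_empty (e : ℤ) : TD (∅ : Set (Pt A)) e := fun _ _ _ => ⟨1, one_ne_zero, fun _ h => h.elim⟩

theorem td_neg {Y : Set (Pt A)} {e : ℤ} (he : e < 0) : TD Y e ↔ Y = ∅ := by
  refine ⟨fun h => eq_empty_of_forall_notMem fun y hy => ?_, fun h => h ▸ ic_empty e⟩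
  obtain ⟨P, hP, h0⟩ := h 0 Fin.elim0 (by simpa using he)
  obtain ⟨c, rfl⟩ := MvPolynomial.C_surjective (Fin 0) P
  have := h0 y hy
  rw [ic_aeval, MvPolynomial.eval_C] at this
  exact hP (by rw [this, map_zero])

theorem td_of_succ {Y : Set (Pt A)} {e : ℕ} (h : ∀ a : Fin (e + 1) → A,
    ∃ P : MvPolynomial (Fin (e + 1)) ℂ, P ≠ 0 ∧ ∀ y ∈ Y, y (MvPolynomial.aeval a P) = 0) :
    TD Y e := by
  intro s a hs
  have hs' : e + 1 ≤ s := by omega
  obtain ⟨P, hP, h0⟩ := h (a ∘ Fin.castLE hs')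
  refine ⟨MvPolynomial.rename (Fin.castLE hs') P, fun h1 => hP ?_, fun y hy => ?_⟩
  · exact MvPolynomial.rename_injective _ (Fin.castLE_injective hs') (by rw [h1, map_zero])
  · rw [MvPolynomial.aeval_rename]
    exact h0 y hy

/-- a set parametrised by `c` parameters -/
theorem td_param {c : ℕ} (ψ : A →ₐ[ℂ] MvPolynomial (Fin c) ℂ) {Y : Set (Pt A)}
    (h : ∀ y ∈ Y, ∃ ζ : Fin c → ℂ, ∀ a, y a = MvPolynomial.eval ζ (ψ a)) : TD Y c := by
  intro s a hs
  have : ¬ AlgebraicIndependent ℂ (ψ ∘ a) := fun hi => by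
    have := hi.cardinalMk_le_trdeg
    rw [MvPolynomial.trdeg_of_isDomain] at this
    simp only [Cardinal.mk_fintype, Fintype.card_fin, Cardinal.lift_id, Nat.cast_le] at this
    omega
  rw [algebraicIndependent_iff] at this
  push Not at this
  obtain ⟨P, h0, hP⟩ := this
  refine ⟨P, hP, fun y hy => ?_⟩
  obtain ⟨ζ, hζ⟩ := h y hy
  rw [hζ, MvPolynomial.comp_aeval_apply]
  exact (congrArg _ h0).trans (map_zero _)

theorem td_univ [Algebra.FiniteType ℂ A] : ∃ e : ℕ, TD (univ : Set (Pt A)) e := by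
  obtain ⟨n, a, h⟩ := ic_gen (A := A)
  refine ⟨n, fun s b hs => ?_⟩
  choose q hq using fun j => h (b j)
  obtain ⟨P, hP, h0⟩ := td_param (AlgHom.id ℂ (MvPolynomial (Fin n) ℂ)) (Y := univ)
    (fun y _ => ⟨fun i => y (MvPolynomial.X i), fun p => by
      rw [← ic_aeval]; simp⟩) s q hs
  refine ⟨P, hP, fun y _ => ?_⟩
  have : y (MvPolynomial.aeval a (MvPolynomial.aeval q P)) = 0 :=
    h0 ((y : A →ₐ[ℂ] ℂ).comp (MvPolynomial.aeval a)) trivial
  rw [MvPolynomial.comp_aeval_apply] at this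
  simpa only [hq] using this

theorem ic_line {κ : Type} (δ : MvPolynomial κ ℂ) (ζ ξ : κ → ℂ)
    (h : MvPolynomial.eval ξ δ ≠ 0) :
    {t : ℂ | MvPolynomial.eval (fun i => ζ i + t * (ξ i - ζ i)) δ = 0}.Finite := by
  let q : Polynomial ℂ :=
    MvPolynomial.aeval (fun i => Polynomial.C (ζ i) + Polynomial.X * Polynomial.C (ξ i - ζ i)) δ
  have hq : ∀ t, q.eval t = MvPolynomial.eval (fun i => ζ i + t * (ξ i - ζ i)) δ := fun t => by
    have := MvPolynomial.comp_aeval_apply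
      (f := fun i => Polynomial.C (ζ i) + Polynomial.X * Polynomial.C (ξ i - ζ i))
      (Polynomial.aeval t : Polynomial ℂ →ₐ[ℂ] ℂ) δ
    simp only [map_add, map_mul, Polynomial.aeval_C, Polynomial.aeval_X] at this
    exact this
  have h0 : q ≠ 0 := fun h0 => h (by simpa [h0] using (hq 1).symm)
  refine (Polynomial.finite_setOfPred_isRoot h0).subset fun t ht => ?_
  simpa only [Polynomial.IsRoot.def, hq, mem_ofPred_eq] using ht

theorem ic_ex {κ : Type} {δ : MvPolynomial κ ℂ} (h : δ ≠ 0) : ∃ ζ, MvPolynomial.eval ζ δ ≠ 0 := by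
  by_contra hc
  push Not at hc
  exact h (MvPolynomial.funext fun x => by rw [hc, map_zero])

theorem conn_ne {κ : Type} [Fintype κ] {δ : MvPolynomial κ ℂ} (h : δ ≠ 0) :
    IsConnected {ζ : κ → ℂ | MvPolynomial.eval ζ δ ≠ 0} := by
  refine ⟨ic_ex h, isPreconnected_of_forall_pair fun ζ hζ ξ hξ => ?_⟩
  have hc := ((ic_line δ ζ ξ hξ).countable.isConnected_compl_of_one_lt_rank
    (by simp)).isPreconnected
  refine ⟨_, ?_, ?_, ?_, hc.image (fun t i => ζ i + t * (ξ i - ζ i)) (by fun_prop)⟩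
  · rintro _ ⟨t, ht, rfl⟩
    exact ht
  · exact ⟨0, by simpa only [mem_compl_iff, mem_ofPred_eq, zero_mul, add_zero, ne_eq] using hζ, by simp⟩
  · exact ⟨1, by simpa only [mem_compl_iff, mem_ofPred_eq, one_mul, add_sub_cancel, ne_eq] using hξ, by simp⟩

theorem dense_ne {κ : Type} [Fintype κ] {δ : MvPolynomial κ ℂ} (h : δ ≠ 0) :
    Dense {ζ : κ → ℂ | MvPolynomial.eval ζ δ ≠ 0} := by
  intro ζ
  obtain ⟨ξ, hξ⟩ := ic_ex h
  have hd := (ic_line δ ζ ξ hξ).countable.dense_compl ℂ 0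
  have := map_mem_closure (f := fun (t : ℂ) i => ζ i + t * (ξ i - ζ i)) (by fun_prop) hd
    (t := {ζ : κ → ℂ | MvPolynomial.eval ζ δ ≠ 0}) fun t ht => ht
  simpa only [ne_eq, zero_mul, add_zero] using this

section
/-- dimension is detected on the primes over the vanishing ideal -/
theorem ic_td_of_prime {Y : Set (Pt A)} {e : ℤ}
    (h : ∀ p : Ideal A, p.IsPrime → II Y ≤ p → ∀ (s : ℕ) (a : Fin s → A ⧸ p),
      AlgebraicIndependent ℂ a → (s : ℤ) ≤ e) : TD Y e := by
  intro s a hs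
  by_contra hc
  push Not at hc
  obtain ⟨p, hp, hle, hd⟩ := (II Y).exists_le_prime_disjoint
    ((nonZeroDivisors (MvPolynomial (Fin s) ℂ)).map (MvPolynomial.aeval a)) (by
      rw [Set.disjoint_left]
      rintro _ hb ⟨P, hP, rfl⟩
      obtain ⟨y, hy, h0⟩ := hc P (nonZeroDivisors.ne_zero hP)
      exact h0 (hb y hy))
  refine absurd (h p hp hle s (fun i => Ideal.Quotient.mkₐ ℂ p (a i)) ?_) (not_le.2 hs)
  rw [algebraicIndependent_iff]
  intro P hP
  by_contra h0
  rw [← MvPolynomial.comp_aeval_apply, Ideal.Quotient.mkₐ_eq_mk, Ideal.Quotient.eq_zero_iff_mem]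
    at hP
  exact Set.disjoint_left.1 hd hP ⟨P, mem_nonZeroDivisors_of_ne_zero h0, rfl⟩

/-- a monic polynomial and a generically separable one with the same roots -/
theorem ic_sep {B : Type} [CommRing B] [IsDomain B] [IsIntegrallyClosed B] [CharZero B]
    {f : Polynomial B} (hf : f.Monic) :
    ∃ (g U V : Polynomial B) (δ : B) (n : ℕ), g.Monic ∧ δ ≠ 0 ∧ f ∣ g ^ n ∧
      U * g + V * Polynomial.derivative g = Polynomial.C δ := by
  classical
  let K := FractionRing B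
  have hinj : Function.Injective (algebraMap B K) := IsFractionRing.injective B K
  have : CharZero K := charZero_of_injective_algebraMap hinj
  have hfK : (f.map (algebraMap B K)).Monic := hf.map _
  set r := UniqueFactorizationMonoid.radical (f.map (algebraMap B K)) with hr
  have hr0 : r ≠ 0 := UniqueFactorizationMonoid.radical_ne_zero
  obtain ⟨g, hg⟩ := IsIntegrallyClosed.eq_map_mul_C_of_dvd K hf
    (g := r) UniqueFactorizationMonoid.radical_dvd_self
  have hlc : r.leadingCoeff ≠ 0 := Polynomial.leadingCoeff_ne_zero.2 hr0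
  have hgm : g.Monic := by
    refine Polynomial.monic_of_injective hinj ?_
    have := congrArg Polynomial.leadingCoeff hg
    rw [Polynomial.leadingCoeff_mul, Polynomial.leadingCoeff_C] at this
    exact mul_right_cancel₀ hlc (this.trans (one_mul _).symm)
  have hu : IsUnit (Polynomial.C r.leadingCoeff) := Polynomial.isUnit_C.2 hlc.isUnit
  obtain ⟨n, hn⟩ := UniqueFactorizationMonoid.exists_dvd_radical_self_pow hfK.ne_zero
  have hsep : (g.map (algebraMap B K)).Separable := by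
    have : r.Separable := PerfectField.separable_iff_squarefree.2
      UniqueFactorizationMonoid.squarefree_radical
    exact this.of_dvd ⟨_, hg.symm⟩
  obtain ⟨u, v, huv⟩ := hsep
  obtain ⟨c, hc, hcu⟩ := IsLocalization.integerNormalization_spec (nonZeroDivisors B) u
  obtain ⟨d, hd, hdv⟩ := IsLocalization.integerNormalization_spec (nonZeroDivisors B) v
  refine ⟨g, Polynomial.C d * IsLocalization.integerNormalization (nonZeroDivisors B) u,
    Polynomial.C c * IsLocalization.integerNormalization (nonZeroDivisors B) v, c * d, n, hgm,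
    mul_ne_zero (nonZeroDivisors.ne_zero hc) (nonZeroDivisors.ne_zero hd), ?_, ?_⟩
  · rw [← Polynomial.map_dvd_map _ hinj hf, Polynomial.map_pow]
    rw [← hr, ← hg, mul_pow] at hn
    exact (hu.pow n).dvd_mul_right.1 hn
  · apply Polynomial.map_injective _ hinj
    rw [Polynomial.derivative_map] at huv
    simp only [Polynomial.map_add, Polynomial.map_mul, hcu, hdv, Polynomial.map_C, map_mul,
      Algebra.smul_def, Polynomial.algebraMap_apply]
    linear_combination Polynomial.C (algebraMap B K c) * Polynomial.C (algebraMap B K d) * huv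

/-- value at the point `ζ` of the coefficients and at `x` -/
def icEv {κ : Type} (g : Polynomial (MvPolynomial κ ℂ)) (ζ : κ → ℂ) (x : ℂ) : ℂ :=
  g.eval₂ (MvPolynomial.eval ζ) x

theorem ic_ev {κ : Type} (y : Pt A) (π : κ → A) (b : A) (g : Polynomial (MvPolynomial κ ℂ)) :
    y (g.eval₂ (MvPolynomial.aeval π : MvPolynomial κ ℂ →ₐ[ℂ] A) b) =
      icEv g (fun j => y (π j)) (y b) := by
  have := Polynomial.hom_eval₂ g
    ((MvPolynomial.aeval π : MvPolynomial κ ℂ →ₐ[ℂ] A) : MvPolynomial κ ℂ →+* A)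
    (y : A →+* ℂ) b
  refine this.trans ?_
  unfold icEv
  congr 1
  exact RingHom.ext fun P => ic_aeval y π P

/-- every function is integral over `π` on `Y` -/
def IcInt {e : ℕ} (Y : Set (Pt A)) (π : Fin e → A) : Prop :=
  ∀ b : A, ∃ f : Polynomial (MvPolynomial (Fin e) ℂ), f.Monic ∧
    ∀ y ∈ Y, icEv f (fun j => y (π j)) (y b) = 0

theorem ic_ns [Algebra.FiniteType ℂ A] {Y : Set (Pt A)} {e : ℕ} (h : TD Y e) :
    ∃ π : Fin e → A, IcInt Y π := by
  rcases eq_empty_or_nonempty Y with rfl | ⟨y0, hy0⟩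
  · exact ⟨0, fun b => ⟨1, Polynomial.monic_one, fun _ h => h.elim⟩⟩
  have : Nontrivial (A ⧸ II Y) := Ideal.Quotient.nontrivial_iff.2 fun h1 => by
    have : (1 : A) ∈ II Y := h1 ▸ Submodule.mem_top
    simpa using this y0 hy0
  obtain ⟨s, g, hg, hi⟩ := exists_integral_inj_algHom_of_fg ℂ (A ⧸ II Y)
  choose a ha using fun j => Ideal.Quotient.mk_surjective (g (MvPolynomial.X j))
  have hga : ∀ P, Ideal.Quotient.mkₐ ℂ (II Y) (MvPolynomial.aeval a P) = g P := fun P => by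
    rw [MvPolynomial.comp_aeval_apply, MvPolynomial.aeval_unique g]
    simp only [Ideal.Quotient.mkₐ_eq_mk, ha]
    rfl
  have hs : s ≤ e := by
    by_contra hs
    obtain ⟨P, hP, h0⟩ := h s a (by omega)
    refine hP (hg ?_)
    rw [← hga, map_zero]
    exact Ideal.Quotient.eq_zero_iff_mem.2 h0
  refine ⟨fun j => if hj : j.1 < s then a ⟨j, hj⟩ else 0, fun b => ?_⟩
  obtain ⟨f, hf, h0⟩ := hi (Ideal.Quotient.mk _ b)
  refine ⟨f.map (MvPolynomial.rename (Fin.castLE hs) :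
    MvPolynomial (Fin s) ℂ →ₐ[ℂ] MvPolynomial (Fin e) ℂ), hf.map _, fun y hy => ?_⟩
  have h1 : f.eval₂ (MvPolynomial.aeval a : MvPolynomial (Fin s) ℂ →ₐ[ℂ] A) b ∈ II Y := by
    rw [← Ideal.Quotient.eq_zero_iff_mem, Polynomial.hom_eval₂, ← h0]
    congr 1
    exact RingHom.ext hga
  have h2 := h1 y hy
  rw [ic_ev] at h2
  rw [← h2]
  unfold icEv
  rw [Polynomial.eval₂_map]
  congr 1
  refine RingHom.ext fun P => ?_
  simp only [RingHom.comp_apply, RingHom.coe_coe, MvPolynomial.eval_rename]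
  congr 2
  funext j
  simp

theorem IcInt.hyp {e : ℕ} {Y : Set (Pt A)} {π : Fin e → A} (h : IcInt Y π)
    {δ : MvPolynomial (Fin e) ℂ} (hδ : δ ≠ 0) :
    TD (Y ∩ {y | y (MvPolynomial.aeval π δ) = 0}) (e - 1) := by
  refine ic_td_of_prime fun p hp hle s a ha => ?_
  by_contra hs
  let x : Fin e → A ⧸ p := fun j => Ideal.Quotient.mkₐ ℂ p (π j)
  have : Algebra.IsAlgebraic (Algebra.adjoin ℂ (range x)) (A ⧸ p) := by
    refine ⟨fun b => IsIntegral.isAlgebraic ?_⟩
    obtain ⟨b, rfl⟩ := Ideal.Quotient.mk_surjective b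
    obtain ⟨f, hf, h0⟩ := h b
    let φ : MvPolynomial (Fin e) ℂ →ₐ[ℂ] Algebra.adjoin ℂ (range x) :=
      MvPolynomial.aeval fun j => ⟨x j, Algebra.subset_adjoin ⟨j, rfl⟩⟩
    refine ⟨f.map φ, hf.map _, ?_⟩
    have h1 : f.eval₂ (MvPolynomial.aeval π : MvPolynomial (Fin e) ℂ →ₐ[ℂ] A) b ∈ p :=
      hle fun y hy => (ic_ev y π b f).trans (h0 y hy.1)
    rw [← Ideal.Quotient.eq_zero_iff_mem, Polynomial.hom_eval₂] at h1
    rw [Polynomial.eval₂_map, ← h1]
    congr 1
    refine RingHom.ext fun P => ?_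
    exact (MvPolynomial.comp_aeval_apply _ (Algebra.adjoin ℂ (range x)).val P).trans
      (MvPolynomial.comp_aeval_apply _ (Ideal.Quotient.mkₐ ℂ p) P).symm
  have hb := Algebra.IsAlgebraic.isTranscendenceBasis_of_le_trdeg_of_finite ℂ x (by
    refine le_trans ?_ ha.cardinalMk_le_trdeg
    simp only [Cardinal.mk_fintype, Fintype.card_fin, Nat.cast_le]
    omega)
  refine hδ (algebraicIndependent_iff.1 hb.1 δ ?_)
  rw [← MvPolynomial.comp_aeval_apply]
  exact Ideal.Quotient.eq_zero_iff_mem.2 (hle fun y hy => hy.2)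

theorem IcInt.sep {e : ℕ} {Y : Set (Pt A)} {π : Fin e → A} (h : IcInt Y π) (b : A) :
    ∃ (g U V : Polynomial (MvPolynomial (Fin e) ℂ)) (δ : MvPolynomial (Fin e) ℂ),
      g.Monic ∧ δ ≠ 0 ∧ U * g + V * Polynomial.derivative g = Polynomial.C δ ∧
      ∀ y ∈ Y, icEv g (fun j => y (π j)) (y b) = 0 := by
  obtain ⟨f, hf, h0⟩ := h b
  obtain ⟨g, U, V, δ, n, hg, hδ, ⟨q, hq⟩, huv⟩ := ic_sep hf
  refine ⟨g, U, V, δ, hg, hδ, huv, fun y hy => (pow_eq_zero_iff n.succ_ne_zero).1 ?_⟩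
  have := h0 y hy
  unfold icEv at *
  rw [pow_succ, ← Polynomial.eval₂_pow, hq, Polynomial.eval₂_mul, this, zero_mul, zero_mul]

theorem ic_simple {κ : Type} {g U V : Polynomial (MvPolynomial κ ℂ)} {δ : MvPolynomial κ ℂ}
    (h : U * g + V * Polynomial.derivative g = Polynomial.C δ) {ζ : κ → ℂ} {x : ℂ}
    (h0 : icEv g ζ x = 0) (hδ : MvPolynomial.eval ζ δ ≠ 0) :
    icEv (Polynomial.derivative g) ζ x ≠ 0 := fun h1 => hδ <| by
  have := congrArg (Polynomial.eval₂ (MvPolynomial.eval ζ) x) h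
  unfold icEv at *
  rw [Polynomial.eval₂_add, Polynomial.eval₂_mul, Polynomial.eval₂_mul, h0, h1,
    Polynomial.eval₂_C] at this
  simpa only [mul_zero, add_zero] using this.symm

theorem IcInt.fin [Algebra.FiniteType ℂ A] {e : ℕ} {Y : Set (Pt A)} {π : Fin e → A}
    (h : IcInt Y π) (ζ : Fin e → ℂ) : {y ∈ Y | ∀ j, y (π j) = ζ j}.Finite := by
  obtain ⟨n, a, ha⟩ := ic_gen (A := A)
  choose f hf h0 using fun i => h (a i)
  refine Finite.of_finite_image ?_ (ic_emb ha).injective.injOn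
  refine (Finite.pi' fun i => Polynomial.finite_setOfPred_isRoot
    ((hf i).map (MvPolynomial.eval ζ)).ne_zero).subset ?_
  rintro _ ⟨y, hy, rfl⟩ i
  have := h0 i y hy.1
  rw [funext hy.2] at this
  simpa [Polynomial.eval_map, icEv] using this

theorem ic_der {y : Pt A} {D : A →ₗ[ℂ] ℂ}
    (hD : ∀ a b, D (a * b) = D a * y b + y a * D b) {S : Set A} (hS : ∀ a ∈ S, D a = 0) {a : A}
    (ha : a ∈ Algebra.adjoin ℂ S) : D a = 0 := by
  have h1 : D 1 = 0 := by simpa only [mul_one, map_one, one_mul, left_eq_add] using hD 1 1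
  induction ha using Algebra.adjoin_induction with
  | mem x hx => exact hS x hx
  | algebraMap r => rw [Algebra.algebraMap_eq_smul_one, map_smul, h1, smul_zero]
  | add x y _ _ hx hy => rw [map_add, hx, hy, add_zero]
  | mul x y _ _ hx hy => rw [hD, hx, hy, zero_mul, mul_zero, add_zero]

theorem ic_chain {κ : Type} {y : Pt A} {D : A →ₗ[ℂ] ℂ}
    (hD : ∀ a b, D (a * b) = D a * y b + y a * D b) {π : κ → A} (hπ : ∀ j, D (π j) = 0) (b : A)
    (g : Polynomial (MvPolynomial κ ℂ)) :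
    D (g.eval₂ (MvPolynomial.aeval π : MvPolynomial κ ℂ →ₐ[ℂ] A) b) =
      icEv (Polynomial.derivative g) (fun j => y (π j)) (y b) * D b := by
  have h0 : ∀ P : MvPolynomial κ ℂ, D (MvPolynomial.aeval π P) = 0 := fun P =>
    ic_der hD (S := range π) (by rintro _ ⟨j, rfl⟩; exact hπ j) (by
      rw [Algebra.adjoin_range_eq_range_aeval]; exact ⟨P, rfl⟩)
  induction g using Polynomial.induction_on with
  | C c => simp [icEv, h0]
  | add p q hp hq =>
    unfold icEv at *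
    rw [Polynomial.eval₂_add, map_add, hp, hq, map_add, Polynomial.eval₂_add, add_mul]
  | monomial n c ih =>
    rw [pow_succ, ← mul_assoc, Polynomial.eval₂_mul, Polynomial.eval₂_X, hD, ih, ic_ev,
      Polynomial.derivative_mul (f := Polynomial.C c * Polynomial.X ^ n)]
    unfold icEv
    simp only [Polynomial.eval₂_add, Polynomial.eval₂_mul, Polynomial.eval₂_X,
      Polynomial.derivative_X, Polynomial.eval₂_one]
    ring

variable [Algebra.FiniteType ℂ A]

/-- Noether normalisation with an unramified locus -/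
theorem noether {Y : Set (Pt A)} {e : ℕ} (h : TD Y e) :
    ∃ (π : Fin e → A) (δ : MvPolynomial (Fin e) ℂ), δ ≠ 0 ∧
      (∀ ζ : Fin e → ℂ, {y ∈ Y | ∀ j, y (π j) = ζ j}.Finite) ∧
      TD (Y ∩ {y | y (MvPolynomial.aeval π δ) = 0}) (e - 1) ∧
      ∀ y ∈ Y, y (MvPolynomial.aeval π δ) ≠ 0 → ∀ D : A →ₗ[ℂ] ℂ,
        (∀ a b, D (a * b) = D a * y b + y a * D b) → (∀ a ∈ II Y, D a = 0) →
        (∀ j, D (π j) = 0) → D = 0 := by
  obtain ⟨π, hπ⟩ := ic_ns h
  obtain ⟨n, a, ha⟩ := ic_gen (A := A)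
  choose g U V δ hg hδ huv h0 using fun i => hπ.sep (a i)
  have hd : ∏ i, δ i ≠ 0 := Finset.prod_ne_zero_iff.2 fun i _ => hδ i
  refine ⟨π, ∏ i, δ i, hd, hπ.fin, hπ.hyp hd, fun y hy hy0 D hD hI hD0 => ?_⟩
  rw [ic_aeval, map_prod, Finset.prod_ne_zero_iff] at hy0
  refine LinearMap.ext fun b => ic_der hD (S := range a) ?_
    (ic_adj ha ▸ Algebra.mem_top)
  rintro _ ⟨i, rfl⟩
  have h1 := ic_chain hD hD0 (a i) (g i)
  rw [hI _ fun z hz => (ic_ev z π (a i) (g i)).trans (h0 i z hz)] at h1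
  exact (mul_eq_zero.1 h1.symm).resolve_left
    (ic_simple (huv i) (h0 i y hy) (hy0 i (Finset.mem_univ i)))

/-- real coordinates -/
def icRe (e : ℕ) : (Fin e → ℂ) ≃L[ℝ] (Fin (2 * e) → ℝ) :=
  ContinuousLinearEquiv.ofFinrankEq (by simp [Module.finrank_pi_fintype, mul_comm])

theorem td_fto {Y : Set (Pt A)} {e : ℤ} (h : TD Y e) : FTO Y (2 * e) := by
  rcases lt_or_ge e 0 with he | he
  · exact Or.inl ((td_neg he).1 h)
  lift e to ℕ using he
  obtain ⟨π, hπ⟩ := ic_ns h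
  refine Or.inr ⟨2 * e, by push_cast; rfl, fun y => icRe e fun j => y (π j),
    ((icRe e).continuous.comp (continuous_pi fun j => pt_cont _)).continuousOn, fun z => ?_⟩
  refine (hπ.fin ((icRe e).symm z)).subset fun y hy => ⟨hy.1, fun j => ?_⟩
  rw [← (mem_singleton_iff.1 (mem_preimage.1 hy.2)), ContinuousLinearEquiv.symm_apply_apply]

end

section
variable [Algebra.FiniteType ℂ A]

/-- a proper ideal has a zero -/
theorem ic_max {J : Ideal A} (hJ : J ≠ ⊤) : ∃ y : Pt A, ∀ a ∈ J, y a = 0 := by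
  obtain ⟨M, hM, hle⟩ := J.exists_le_maximal hJ
  let := Ideal.Quotient.field M
  have := finite_of_finite_type_of_isJacobsonRing ℂ (A ⧸ M)
  let e := AlgEquiv.ofBijective (Algebra.ofId ℂ (A ⧸ M))
    (IsAlgClosed.algebraMap_bijective_of_isIntegral (k := ℂ))
  refine ⟨e.symm.toAlgHom.comp (Ideal.Quotient.mkₐ ℂ M), fun a ha => ?_⟩
  change e.symm (Ideal.Quotient.mk M a) = 0
  rw [Ideal.Quotient.eq_zero_iff_mem.2 (hle ha), map_zero]

/-- generic values on a transcendence basis are attained -/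
theorem ic_lift [IsDomain A] {ι : Type} {x : ι → A} (hx : IsTranscendenceBasis ℂ x) :
    ∃ δ : MvPolynomial ι ℂ, δ ≠ 0 ∧ ∀ ζ : ι → ℂ, MvPolynomial.eval ζ δ ≠ 0 →
      ∃ y : Pt A, ∀ i, y (x i) = ζ i := by
  classical
  obtain ⟨n, a, ha⟩ := ic_gen (A := A)
  have := hx.isAlgebraic
  set C := Algebra.adjoin ℂ (range x) with hC
  obtain ⟨d, hd, hint⟩ := Algebra.IsAlgebraic.exists_integral_multiples C (Finset.univ.image a)
  let φ := hx.1.aevalEquiv
  refine ⟨φ.symm d, by simpa using hd, fun ζ hζ => ?_⟩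
  let x0 : C →ₐ[ℂ] ℂ := (MvPolynomial.aeval ζ).comp φ.symm.toAlgHom
  have hdi : ∀ k, IsIntegral C ((d : A) ^ k) := fun k => (isIntegral_algebraMap (x := d)).pow k
  have K1 : ∀ r : A, ∃ k, IsIntegral C ((d : A) ^ k * r) := by
    intro r
    have hr : r ∈ Algebra.adjoin ℂ (range a) := ic_adj ha ▸ Algebra.mem_top
    induction hr using Algebra.adjoin_induction with
    | mem z hz =>
      obtain ⟨i, rfl⟩ := hz
      exact ⟨1, by simpa [Algebra.smul_def] using hint (a i) (by simp only [Finset.mem_image, Finset.mem_univ, true_and, exists_apply_eq_apply])⟩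
    | algebraMap c =>
      exact ⟨0, by simpa using isIntegral_algebraMap (R := C) (A := A) (x := algebraMap ℂ C c)⟩
    | add z w _ _ hz hw =>
      obtain ⟨k, hk⟩ := hz
      obtain ⟨l, hl⟩ := hw
      exact ⟨k + l, by convert ((hdi l).mul hk).add ((hdi k).mul hl) using 1; ring⟩
    | mul z w _ _ hz hw =>
      obtain ⟨k, hk⟩ := hz
      obtain ⟨l, hl⟩ := hw
      exact ⟨k + l, by convert hk.mul hl using 1; ring⟩
  have hm : (RingHom.ker x0).IsMaximal :=
    RingHom.ker_isMaximal_of_surjective _ fun c => ⟨algebraMap ℂ C c, x0.commutes c⟩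
  obtain ⟨Q, hQ, hQm⟩ := Ideal.exists_ideal_over_maximal_of_isIntegral
    (S := integralClosure C A) (RingHom.ker x0) (fun c hc => by
      have : (c : A) = 0 := congrArg Subtype.val (RingHom.mem_ker.1 hc)
      rw [show c = 0 from Subtype.ext this]
      exact zero_mem _)
  have K2 : ∀ r ∈ (RingHom.ker x0).map (algebraMap C A), ∃ k, ∃ q ∈ Q, (q : A) = (d : A) ^ k * r := by
    intro r hr
    induction hr using Submodule.span_induction with
    | mem z hz =>
      obtain ⟨c, hc, rfl⟩ := hz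
      rw [← hQm] at hc
      exact ⟨0, algebraMap _ _ c, hc, by simp⟩
    | zero => exact ⟨0, 0, zero_mem _, by simp only [ZeroMemClass.coe_zero, pow_zero, mul_zero]⟩
    | add z w _ _ hz hw =>
      obtain ⟨k, q, hq, hk⟩ := hz
      obtain ⟨l, q', hq', hl⟩ := hw
      refine ⟨k + l, ⟨_, hdi l⟩ * q + ⟨_, hdi k⟩ * q',
        add_mem (Q.mul_mem_left _ hq) (Q.mul_mem_left _ hq'), ?_⟩
      push_cast
      rw [hk, hl]
      ring
    | smul c z _ hz =>
      obtain ⟨k, q, hq, hk⟩ := hz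
      obtain ⟨l, hl⟩ := K1 c
      refine ⟨k + l, ⟨_, hl⟩ * q, Q.mul_mem_left _ hq, ?_⟩
      push_cast
      rw [hk, smul_eq_mul]
      ring
  obtain ⟨y, hy⟩ := ic_max (J := (RingHom.ker x0).map (algebraMap C A)) (fun h1 => by
    obtain ⟨k, q, hq, hk⟩ := K2 1 (h1 ▸ Submodule.mem_top)
    have : q = algebraMap C _ (d ^ k) := Subtype.ext (by simpa using hk)
    rw [this, ← Ideal.mem_comap, hQm, RingHom.mem_ker, map_pow] at hq
    exact hζ (eq_zero_of_pow_eq_zero hq))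
  refine ⟨y, fun i => ?_⟩
  have h1 : φ (MvPolynomial.X i) - algebraMap ℂ C (ζ i) ∈ RingHom.ker x0 := by
    rw [RingHom.mem_ker, map_sub, x0.commutes]
    simp [x0]
  have h2 := hy _ (Ideal.mem_map_of_mem (algebraMap C A) h1)
  rw [map_sub, map_sub, ← IsScalarTower.algebraMap_apply, hx.1.algebraMap_aevalEquiv,
    MvPolynomial.aeval_X, sub_eq_zero] at h2
  exact h2.trans (AlgHomClass.commutes y _)

theorem ic_fib1 {Y : Set (Pt A)} (hY : ZCl Y) (π : A) {s : ℤ}
    (h : ∀ ζ : ℂ, TD {y ∈ Y | y π = ζ} s) : TD Y (s + 1) := by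
  classical
  rcases lt_or_ge s 0 with hs | hs
  · rw [eq_empty_of_forall_notMem (s := Y) fun y hy =>
      ((td_neg hs).1 (h (y π))).subset ⟨hy, rfl⟩]
    exact ic_empty _
  lift s to ℕ using hs
  refine ic_td_of_prime fun p hp hle m a ha => ?_
  by_contra hm
  -- a transcendence basis, `s + 1` of its members, and many points in one fibre
  have key : ∃ (ι : Type) (x : ι → A ⧸ p) (em : Fin (s + 1) → ι) (δ : MvPolynomial ι ℂ) (ζ0 : ℂ),
      Function.Injective em ∧ δ ≠ 0 ∧ ∀ ζ : ι → ℂ, MvPolynomial.eval ζ δ ≠ 0 →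
        ∃ y : Pt (A ⧸ p), y (Ideal.Quotient.mk p π) = ζ0 ∧ ∀ j, y (x (em j)) = ζ (em j) := by
    by_cases hπ : IsAlgebraic ℂ (Ideal.Quotient.mk p π)
    · obtain ⟨t, ht, hb⟩ := exists_isTranscendenceBasis_superset ha.to_subtype_range
      obtain ⟨δ, hδ, hl⟩ := ic_lift hb
      obtain ⟨ζ0, h0⟩ : ∃ ζ0, algebraMap ℂ (A ⧸ p) ζ0 = Ideal.Quotient.mk p π :=
        minpoly.degree_eq_one_iff.1
          (IsAlgClosed.degree_eq_one_of_irreducible ℂ (minpoly.irreducible hπ.isIntegral))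
      have hs : s + 1 ≤ m := by omega
      refine ⟨t, (↑), fun j => ⟨a (Fin.castLE hs j), ht ⟨_, rfl⟩⟩, δ, ζ0, fun i j hij =>
        Fin.castLE_injective hs (ha.injective (congrArg Subtype.val hij)), hδ, fun ζ hζ => ?_⟩
      obtain ⟨y, hy⟩ := hl ζ hζ
      exact ⟨y, by rw [← h0, AlgHomClass.commutes]; rfl, fun j => hy _⟩
    · obtain ⟨t, ht, hb⟩ := exists_isTranscendenceBasis_superset (R := ℂ)
        (s := {Ideal.Quotient.mk p π}) (algebraicIndependent_unique_type_iff.2 hπ)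
      obtain ⟨δ, hδ, hl⟩ := ic_lift hb
      let i0 : t := ⟨_, ht rfl⟩
      have hc : Cardinal.mk (Fin (s + 2)) ≤ Cardinal.mk t := by
        rw [hb.cardinalMk_eq_trdeg]
        refine le_trans ?_ ha.cardinalMk_le_trdeg
        simp only [Cardinal.mk_fintype, Fintype.card_fin, Nat.cast_le]
        omega
      obtain ⟨f⟩ := hc
      let em : Fin (s + 1) → t := fun j => Equiv.swap i0 (f 0) (f j.succ)
      have hem : ∀ j, em j ≠ i0 := fun j hj => by
        rw [Equiv.swap_apply_eq_iff, Equiv.swap_apply_left] at hj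
        exact Fin.succ_ne_zero j (f.injective hj)
      obtain ⟨ξ, hξ⟩ := ic_ex hδ
      let σ : t → MvPolynomial t ℂ := fun i =>
        if i = i0 then MvPolynomial.C (ξ i0) else MvPolynomial.X i
      have hσ : ∀ ζ : t → ℂ, MvPolynomial.eval ζ (MvPolynomial.aeval σ δ) =
          MvPolynomial.eval (fun i => if i = i0 then ξ i0 else ζ i) δ := fun ζ => by
        refine (ic_aeval (A := MvPolynomial t ℂ) (MvPolynomial.aeval ζ) σ δ).trans ?_
        congr 2
        funext i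
        change MvPolynomial.aeval ζ (σ i) = _
        by_cases hi : i = i0 <;> simp [σ, hi]
      refine ⟨t, (↑), em, MvPolynomial.aeval σ δ, ξ i0, fun i j hij =>
        Fin.succ_injective _ (f.injective ((Equiv.swap _ _).injective hij)), fun h0 => hξ ?_,
        fun ζ hζ => ?_⟩
      · have := hσ ξ
        rw [h0, map_zero] at this
        rw [this]
        congr 2
        funext i
        by_cases hi : i = i0 <;> simp [hi]
      · obtain ⟨y, hy⟩ := hl _ (hσ ζ ▸ hζ)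
        exact ⟨y, by simpa using hy i0, fun j => by simpa [hem j] using hy (em j)⟩
  obtain ⟨ι, x, em, δ, ζ0, hem, hδ, hl⟩ := key
  choose b hb using fun j => Ideal.Quotient.mk_surjective (x (em j))
  obtain ⟨P, hP, h0⟩ := h ζ0 (s + 1) b (by push_cast; omega)
  obtain ⟨ζ, hζ⟩ := ic_ex (mul_ne_zero hδ (fun h1 => hP (MvPolynomial.rename_injective em hem
    (h1.trans (map_zero _).symm))))
  rw [map_mul, mul_ne_zero_iff, MvPolynomial.eval_rename] at hζ
  obtain ⟨y, hy0, hy⟩ := hl ζ hζ.1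
  let z : Pt A := (y : A ⧸ p →ₐ[ℂ] ℂ).comp (Ideal.Quotient.mkₐ ℂ p)
  have hz : ∀ c, z c = y (Ideal.Quotient.mk p c) := fun _ => rfl
  have hzY : z ∈ Y := by
    rw [hY.eq]
    intro c hc
    rw [hz, Ideal.Quotient.eq_zero_iff_mem.2 (hle hc), map_zero]
  have := h0 z ⟨hzY, hy0⟩
  rw [ic_aeval] at this
  simp only [hz, hb, hy] at this
  exact hζ.2 this

/-- fibre dimension -/
theorem td_fib {Y : Set (Pt A)} (hY : ZCl Y) {c : ℕ} (π : Fin c → A) {s : ℤ}
    (h : ∀ ζ : Fin c → ℂ, TD {y ∈ Y | ∀ j, y (π j) = ζ j} s) : TD Y (c + s) := by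
  induction c generalizing Y with
  | zero => simpa using h Fin.elim0
  | succ c ih =>
    refine (ic_fib1 hY (π 0) (s := c + s) fun ζ0 => ?_).mono subset_rfl (by push_cast; omega)
    have hZ : ZCl {y ∈ Y | y (π 0) = ζ0} := by
      convert hY.inter (Y' := VV {π 0 - algebraMap ℂ A ζ0}) ⟨_, rfl⟩ using 1
      ext y
      simp only [mem_ofPred_eq, VV, mem_singleton_iff, forall_eq, map_sub, AlgHomClass.commutes, Algebra.algebraMap_self, RingHom.id_apply, sub_eq_zero, mem_inter_iff]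
    refine ih hZ (fun j => π j.succ) fun ζ => (h (Fin.cons ζ0 ζ)).mono ?_ le_rfl
    exact fun y hy => ⟨hy.1.1, Fin.cases hy.1.2 hy.2⟩

end

section
/-- implicit function theorem, topological part -/
theorem ic_lh {E F : Type} [TopologicalSpace E] [TopologicalSpace F] {G : E × F → F} {c : F}
    {O : Set (E × F)} (hO : IsOpen O)
    (h : ∀ w ∈ O, G w = c → ∃ Φ : OpenPartialHomeomorph (E × F) (E × F), w ∈ Φ.source ∧
      ∀ v, Φ v = (v.1, G v)) :
    IsLocalHomeomorph fun w : ↥(O ∩ {w | G w = c}) => w.1.1 := by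
  have hc : Continuous fun w : ↥(O ∩ {w | G w = c}) => w.1.1 := by fun_prop
  have ho : IsOpenMap fun w : ↥(O ∩ {w | G w = c}) => w.1.1 := by
    refine isOpenMap_iff_nhds_le.2 fun w s hs => ?_
    obtain ⟨Φ, hw, hΦ⟩ := h w w.2.1 w.2.2
    obtain ⟨t, ht, hts⟩ := (mem_nhds_subtype _ _ _).1 (mem_map.1 hs)
    have h1 := Φ.image_mem_nhds hw (inter_mem ht (hO.mem_nhds w.2.1))
    rw [hΦ, show G w = c from w.2.2] at h1
    filter_upwards [(Continuous.prodMk_left c).continuousAt h1] with ζ ⟨v, hv, hvζ⟩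
    rw [hΦ, Prod.mk.injEq] at hvζ
    exact hvζ.1 ▸ hts (a := ⟨v, hv.2, hvζ.2⟩) hv.1
  refine isLocalHomeomorph_iff_isOpenEmbedding_restrict.2 fun w => ?_
  obtain ⟨Φ, hw, hΦ⟩ := h w w.2.1 w.2.2
  have hU := Φ.open_source.preimage (continuous_subtype_val (p := (· ∈ O ∩ {w | G w = c})))
  refine ⟨_, hU.mem_nhds hw, .of_continuous_injective_isOpenMap
    (hc.comp continuous_subtype_val) (fun x y hxy => ?_) (ho.domRestrict hU)⟩
  refine Subtype.ext (Subtype.ext (Φ.injOn x.2 y.2 ?_))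
  rw [hΦ, hΦ, show G x = c from x.1.2.2, show G y = c from y.1.2.2]
  exact congrArg (·, c) hxy

/-- a finite covering of a connected space has finitely many components -/
theorem ic_fc {W B : Type} [TopologicalSpace W] [TopologicalSpace B] [LocallyConnectedSpace B]
    {p : W → B} (hp : IsLocalHomeomorph p) {U : Set B} (hU : IsPreconnected U) (hr : ∀ w, p w ∈ U)
    (hc : ∀ C, IsClosed C → closure (p '' C) ∩ U ⊆ p '' C) {ζ : B} (hζ : ζ ∈ U)
    (hf : (p ⁻¹' {ζ}).Finite) : Finite (ConnectedComponents W) := by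
  have : LocallyConnectedSpace W := by
    choose Φ hΦ h using hp
    let _ : ChartedSpace B W := ⟨range Φ, Φ, hΦ, fun _ => ⟨_, rfl⟩⟩
    exact ChartedSpace.locallyConnectedSpace B W
  have := hf.to_subtype
  refine Finite.of_surjective (fun w : p ⁻¹' {ζ} => ConnectedComponents.mk w.1) fun C => ?_
  obtain ⟨w, rfl⟩ := ConnectedComponents.surjective_coe C
  obtain ⟨v, hv, hvζ⟩ := hU.subset_of_closure_inter_subset
    (hp.isOpenMap _ (isClopen_connectedComponent (x := w)).isOpen)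
    ⟨_, hr w, w, mem_connectedComponent, rfl⟩ (hc _ isClosed_connectedComponent) hζ
  exact ⟨⟨v, hvζ⟩, ConnectedComponents.coe_eq_coe'.2 hv⟩

theorem ic_cd {E κ : Type} [NormedAddCommGroup E] [NormedSpace ℂ E] [Fintype κ]
    (g : Polynomial (MvPolynomial κ ℂ)) {f : E → κ → ℂ} {x : E → ℂ} (hf : ContDiff ℂ 1 f)
    (hx : ContDiff ℂ 1 x) : ContDiff ℂ 1 fun w => icEv g (f w) (x w) := by
  simp only [icEv, Polynomial.eval₂_eq_sum_range]
  refine ContDiff.sum fun k _ => ContDiff.mul (ContDiff.comp (g := fun ζ =>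
    MvPolynomial.eval ζ (g.coeff k)) ?_ hf) (hx.pow k)
  exact contDiff_iff_contDiffAt.2 fun ζ =>
    (AnalyticOnNhd.eval_mvPolynomial (g.coeff k) ζ trivial).contDiffAt

theorem ic_bd {κ : Type} {g : Polynomial (MvPolynomial κ ℂ)} (hg : g.Monic) {K : Set (κ → ℂ)}
    (hK : IsCompact K) : ∃ R, ∀ ζ ∈ K, ∀ x, icEv g ζ x = 0 → ‖x‖ ≤ R := by
  obtain ⟨R, hR⟩ := hK.bddAbove_image (f := fun ζ =>
    ∑ k ∈ Finset.range g.natDegree, ‖MvPolynomial.eval ζ (g.coeff k)‖₊)
    (continuous_finsetSum _ fun k _ => (MvPolynomial.continuous_eval _).nnnorm).continuousOn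
  refine ⟨R + 1, fun ζ hζ x h0 => ?_⟩
  have hm := hg.map (MvPolynomial.eval ζ)
  have h1 := Polynomial.IsRoot.norm_lt_cauchyBound hm.ne_zero (a := x)
    (by simpa [Polynomial.eval_map, icEv] using h0)
  rw [Polynomial.cauchyBound, hm.leadingCoeff, nnnorm_one, div_one, hg.natDegree_map] at h1
  have h2 : (Finset.range g.natDegree).sup (‖(g.map (MvPolynomial.eval ζ)).coeff ·‖₊) ≤ R :=
    Finset.sup_le fun k hk => le_trans (by
      rw [Polynomial.coeff_map]
      exact Finset.single_le_sum (f := fun k => ‖MvPolynomial.eval ζ (g.coeff k)‖₊)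
        (fun _ _ => zero_le) hk) (hR ⟨ζ, hζ, rfl⟩)
  exact_mod_cast h1.le.trans (add_le_add_left h2 1)

/-- the map of the implicit function theorem is locally invertible -/
theorem ic_ift {e n : ℕ} (g : Fin n → Polynomial (MvPolynomial (Fin e) ℂ))
    {w : (Fin e → ℂ) × (Fin n → ℂ)}
    (h : ∀ i, icEv (Polynomial.derivative (g i)) w.1 (w.2 i) ≠ 0) :
    ∃ Φ : OpenPartialHomeomorph ((Fin e → ℂ) × (Fin n → ℂ)) ((Fin e → ℂ) × (Fin n → ℂ)),
      w ∈ Φ.source ∧ ∀ v, Φ v = (v.1, fun i => icEv (g i) v.1 (v.2 i)) := by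
  have hd : ContDiff ℂ 1 fun v : (Fin e → ℂ) × (Fin n → ℂ) =>
      (v.1, fun i => icEv (g i) v.1 (v.2 i)) :=
    contDiff_fst.prodMk (contDiff_pi.2 fun i => ic_cd _ contDiff_fst (by fun_prop))
  obtain ⟨L, h1⟩ := hd.differentiable one_ne_zero w
  have hi : Function.Injective L := by
    refine (injective_iff_map_eq_zero L).2 fun v hv => ?_
    have h2 := h1.comp_hasDerivAt_of_eq 0
      (((hasDerivAt_id (0 : ℂ)).smul_const v).const_add w) (by simp)
    rw [one_smul, hv] at h2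
    have h3 : v.1 = 0 := by
      have h3 := hasFDerivAt_fst.comp_hasDerivAt 0 h2
      simpa using (((hasDerivAt_id (0 : ℂ)).smul_const v.1).const_add w.1).unique h3
    refine Prod.ext h3 (funext fun i => ?_)
    have h4 := hasDerivAt_pi.1 (hasFDerivAt_snd.comp_hasDerivAt 0 h2) i
    have h5 := (((g i).map (MvPolynomial.eval w.1)).hasDerivAt (w.2 i)).comp_of_eq 0
      (((hasDerivAt_id (0 : ℂ)).mul_const (v.2 i)).const_add (w.2 i)) (by simp)
    have := h4.unique (h5.congr_of_eventuallyEq (.of_forall fun t => by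
      simp only [icEv, id_eq, Function.comp_apply, Prod.fst_add, Prod.smul_fst, h3, smul_zero, add_zero, Prod.snd_add, Prod.smul_snd, Pi.add_apply, Pi.smul_apply, smul_eq_mul, Polynomial.eval_map]))
    rw [Polynomial.derivative_map, Polynomial.eval_map] at this
    simpa using (mul_eq_zero.1 this.symm).resolve_left (h i)
  let L' := (LinearEquiv.ofInjectiveEndo L.toLinearMap hi).toContinuousLinearEquiv
  have h2 := h1.congr_fderiv (g' := L'.toContinuousLinearMap) rfl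
  exact ⟨hd.contDiffAt.toOpenPartialHomeomorph _ h2 one_ne_zero,
    hd.contDiffAt.mem_toOpenPartialHomeomorph_source h2 one_ne_zero, fun _ => rfl⟩

variable [Algebra.FiniteType ℂ A]

theorem td_cov {Y Y' : Set (Pt A)} (hY : ZCl Y) {e : ℕ} (h : TD Y e) (h' : TD Y' (e - 1)) :
    ∃ D, ZCl D ∧ Y' ⊆ D ∧ TD (D ∩ Y) (e - 1) ∧ Cov (Y \ D) (2 * e) := by
  obtain ⟨π, hπ⟩ := ic_ns h
  obtain ⟨n, a, ha⟩ := ic_gen (A := A)
  choose g U V δ hg hδ huv h0 using fun i => hπ.sep (a i)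
  obtain ⟨P, hP, hP0⟩ := h' e π (by omega)
  have hd : P * ∏ i, δ i ≠ 0 := mul_ne_zero hP (Finset.prod_ne_zero_iff.2 fun i _ => hδ i)
  have hδ' : ∀ ζ, MvPolynomial.eval ζ (P * ∏ i, δ i) ≠ 0 → ∀ i, MvPolynomial.eval ζ (δ i) ≠ 0 :=
    fun ζ hζ i => by
      rw [map_mul, map_prod] at hζ
      exact Finset.prod_ne_zero_iff.1 (right_ne_zero_of_mul hζ) i (Finset.mem_univ i)
  have hP1 : ∀ y ∈ Y', y (MvPolynomial.aeval π (P * ∏ i, δ i)) = 0 := fun y hy => by
    rw [map_mul, map_mul, hP0 y hy, zero_mul]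
  generalize P * ∏ i, δ i = d at hd hδ' hP1
  refine ⟨{y | y (MvPolynomial.aeval π d) = 0}, ⟨{MvPolynomial.aeval π d}, by ext; simp only [mem_ofPred_eq, VV, mem_singleton_iff, forall_eq]⟩,
    hP1, inter_comm Y _ ▸ hπ.hyp hd, ?_⟩
  let G : (Fin e → ℂ) × (Fin n → ℂ) → Fin n → ℂ := fun v i => icEv (g i) v.1 (v.2 i)
  have hG : Continuous G :=
    continuous_pi fun i => (ic_cd (g i) contDiff_fst (by fun_prop)).continuous
  have hZ : IsClosed {w | G w = 0} := isClosed_eq hG continuous_const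
  let O : Set ((Fin e → ℂ) × (Fin n → ℂ)) := {w | MvPolynomial.eval w.1 d ≠ 0}
  have hO : IsOpen O := isOpen_ne_fun ((MvPolynomial.continuous_eval d).comp continuous_fst)
    continuous_const
  have hl := ic_lh (G := G) (c := 0) hO fun w hw hw0 =>
    ic_ift g fun i => ic_simple (huv i) (congrFun hw0 i) (hδ' _ hw i)
  have hp : IsProperMap fun w : {w | G w = 0} => w.1.1 := by
    refine isProperMap_iff_isCompact_preimage.2 ⟨by fun_prop, fun K hK => ?_⟩
    choose R hR using fun i => ic_bd (hg i) hK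
    refine (hZ.isClosedEmbedding_subtypeVal.isCompact_preimage (hK.prod (isCompact_univ_pi
      fun i => isCompact_closedBall 0 (R i)))).of_isClosed_subset
      (hK.isClosed.preimage (by fun_prop)) fun w hw => ⟨hw, fun i _ => ?_⟩
    simpa only [mem_ofPred_eq, Metric.mem_closedBall, dist_zero_right] using hR i _ hw _ (congrFun w.2 i)
  obtain ⟨ζ, hζ⟩ := ic_ex hd
  refine ⟨↥(O ∩ {w | G w = 0}), inferInstance,
    nice_of_locClosed (hO.isLocallyClosed.inter hZ.isLocallyClosed),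
    fun y => ⟨(fun j => y.1 (π j), fun i => y.1 (a i)), fun h1 => y.2.2 ((ic_aeval _ _ _).trans h1),
      funext fun i => h0 i y y.2.1⟩, fun w => icRe e w.1.1, ?_,
    (icRe e).toHomeomorph.isLocalHomeomorph.comp hl,
    ic_fc hl (conn_ne hd).isPreconnected (fun w => w.2.1) (fun C hC ξ hξ => ?_) hζ ?_⟩
  · have hc : Continuous fun y : Pt A => ((fun j => y (π j), fun i => y (a i)) :
        (Fin e → ℂ) × (Fin n → ℂ)) :=
      (continuous_pi fun j => pt_cont _).prodMk (ic_emb ha).continuous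
    have he := IsEmbedding.of_comp hc continuous_snd (ic_emb ha).isEmbedding
    have hm := (isProperMap_of_comp_of_t2 hc continuous_snd (ic_emb ha).isProperMap).isClosedMap
    refine ⟨IsEmbedding.subtypeVal.of_comp_iff.1 (he.comp .subtypeVal), ?_⟩
    convert (hm _ hY.isClosed).preimage (continuous_subtype_val (p := (· ∈ O ∩ {w | G w = 0})))
      using 1
    ext w
    refine ⟨by rintro ⟨y, rfl⟩; exact ⟨y, y.2.1, rfl⟩, ?_⟩
    rintro ⟨y, hy, hw⟩
    refine ⟨⟨y, hy, fun h1 => w.2.1 ?_⟩, Subtype.ext hw⟩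
    rw [← hw]
    exact (ic_aeval _ _ _).symm.trans h1
  · obtain ⟨C', hC', rfl⟩ := isClosed_induced_iff.1 hC
    obtain ⟨w, hw, rfl⟩ := (hp.isClosedMap (Subtype.val ⁻¹' C')
      (hC'.preimage continuous_subtype_val)).closure_subset
      (closure_mono (by rintro _ ⟨v, hv, rfl⟩; exact ⟨⟨v.1, v.2.2⟩, hv, rfl⟩) hξ.1)
    exact ⟨⟨w.1, hξ.2, w.2⟩, hw, rfl⟩
  · refine Finite.of_finite_image (f := fun w => w.1.2) ((Finite.pi' fun i =>
      Polynomial.finite_setOfPred_isRoot ((hg i).map (MvPolynomial.eval ζ)).ne_zero).subset ?_)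
      fun v hv w hw hvw => Subtype.ext (Prod.ext (hv.trans hw.symm) hvw)
    rintro _ ⟨w, rfl, rfl⟩ i
    simpa only [G, icEv, Polynomial.IsRoot.def, Polynomial.eval_map, mem_ofPred_eq, Pi.zero_apply] using congrFun w.2.2 i

end

end C73
end
end

section
/-! Block P (owner helper88): Poisson geometry of a finitely generated Poisson algebra
(`hyp_exists`, `exists_trivGr`, `attr` are in `PoiH`). -/

open Set Filter Topology TopologicalSpace

noncomputable section
namespace C73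

variable {A : Type} [CommRing A] [Algebra ℂ A]

variable [Algebra.FiniteType ℂ A] {b : A → A → A}
theorem rk_bdd (hb : IsPoi b) : ∃ n, ∀ (x : Pt A) (r : ℕ) (f g : Fin r → A),
    (Matrix.of fun i j => x (b (f i) (g j))).det ≠ 0 → r ≤ n :=
  let ⟨n, h⟩ := hb.rkS_bdd; ⟨n, fun x r f g h' => h x r ⟨f, g, h'⟩⟩
theorem le_rk (hb : IsPoi b) {x : Pt A} {r : ℕ} {f g : Fin r → A}
    (h : (Matrix.of fun i j => x (b (f i) (g j))).det ≠ 0) : r ≤ rk b x := hb.le_rk.2 ⟨f, g, h⟩
theorem rk_spec (hb : IsPoi b) (x : Pt A) : ∃ f g : Fin (rk b x) → A,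
    (Matrix.of fun i j => x (b (f i) (g j))).det ≠ 0 := hb.le_rk.1 le_rfl
/-- the rank is the dimension of the space of Hamiltonian point derivations -/
theorem rk_eq_finrank (hb : IsPoi b) (x : Pt A) :
    rk b x = Module.finrank ℂ (Submodule.span ℂ (range fun f g => x (b f g) : Set (A → ℂ))) :=
  hb.rk_finrank x
theorem rk_lsc (hb : IsPoi b) : Lsc (rk b) (sSup (range (rk b))) :=
  let ⟨n, h⟩ := hb.rk_bdd; ⟨hb.lsc, fun x => le_csSup ⟨n, forall_mem_range.2 h⟩ ⟨x, rfl⟩⟩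
theorem rk_even (hb : IsPoi b) (x : Pt A) : Even (rk b x) := hb.even_rk x
theorem rk_zcl (hb : IsPoi b) (r : ℕ) : ZCl {x | rk b x ≤ r} :=
  ⟨minI b (r + 1), Set.ext fun _ => Nat.lt_succ_iff.symm.trans hb.rk_lt⟩
theorem rk_poi (hb : IsPoi b) (r : ℕ) (f p : A) (h : p ∈ II {x | rk b x ≤ r}) :
    b f p ∈ II {x | rk b x ≤ r} := fun y hy => hb.der_zero (S := {x | rk b x ≤ r})
  (fun _ _ h1 h2 _ hs => (hb.rk_leaf (hb.leaf_traj h1 hs)).symm.trans_le (h2 ▸ hy))
  (Eventually.of_forall fun z hz => (h z hz).trans (h y hy).symm)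
theorem rk_leaf (hb : IsPoi b) {x y : Pt A} (h : Leaf b x y) : rk b x = rk b y := hb.rk_leaf h
omit [Algebra.FiniteType ℂ A] in
/-- invariance under Poisson automorphisms -/
theorem rk_aut (θ : A ≃ₐ[ℂ] A) (hθ : ∀ f g, θ (b f g) = b (θ f) (θ g)) {x y : Pt A}
    (h : ∀ a, y a = x (θ a)) : rk b y = rk b x :=
  congrArg sSup (Set.ext fun _ => ⟨fun ⟨f, g, h'⟩ => ⟨fun i => θ (f i), fun i => θ (g i), by
    simpa only [h, hθ] using h'⟩, fun ⟨f, g, h'⟩ => ⟨fun i => θ.symm (f i), fun i => θ.symm (g i), by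
    simpa only [h, hθ, θ.apply_symm_apply] using h'⟩⟩)
variable {𝒜 : ℤ → Submodule ℂ A}
theorem der0 (hb : IsPoi b) (hg : IsGr b 𝒜) {x : Pt A} (hx : x ∈ FixG 𝒜) {p : A}
    (hp : ∀ᶠ y in 𝓝 x, y ∈ FixG 𝒜 → rk b y ≤ rk b x → y p = x p) (f : A) (h0 : p ∈ 𝒜 0) :
    x (b f p) = 0 := hb.br_zero hg hx h0 (fun _ hf =>
  hb.der_zero (S := FixG 𝒜 ∩ {y | rk b y ≤ rk b x}) (fun c _ h1 h2 _ hs =>
    ⟨⟨(hb.traj_pos hg ((𝒜 0).smul_mem c hf) h1 hs).1 (h2 ▸ hx.1),
      (hb.traj_neg hg ((𝒜 0).smul_mem c hf) h1 hs).1 (h2 ▸ hx.2)⟩,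
      (hb.rk_leaf (h2 ▸ hb.leaf_traj h1 hs)).ge⟩) (hp.mono fun _ h h' => h h'.1 h'.2)) f
theorem chart (hb : IsPoi b) (hg : IsGr b 𝒜) (hH : Hol b) {x : Pt A} (hx : x ∈ FixG 𝒜) :
    ∃ (d : ℕ) (N : Type) (_ : TopologicalSpace N) (_ : Nice N) (n0 : N)
      (e : N × (Fin (2 * d) → ℝ) → Pt A), IsOpenEmbedding e ∧ e (n0, 0) = x ∧
      (∀ ν t, Leaf b (e (ν, 0)) (e (ν, t))) ∧
      (∀ ν t, e (ν, t) ∈ PosG 𝒜 ↔ e (ν, 0) ∈ PosG 𝒜) ∧
      (∀ ν t, e (ν, t) ∈ NegG 𝒜 ↔ e (ν, 0) ∈ NegG 𝒜) ∧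
      (∀ ν t, e (ν, t) ∈ FixG 𝒜 → rk b (e (ν, t)) ≤ rk b x → ν = n0) ∧
      ((∀ n, n ≠ 0 → 𝒜 n = ⊥) → d = rk b x) ∧
      ∀ (δ : A) (t : Fin (2 * d) → ℝ), (∃ᶠ t' in 𝓝 t, e (n0, t') δ ≠ 0) →
        ∃ W ∈ 𝓝 (e (n0, t)), FTO (W ∩ e '' ({n0} ×ˢ univ) ∩ {y | y δ = 0}) (2 * d - 2) := by
  have := pt_nice (A := A)
  obtain ⟨d, f, g, f0, g0, hd, hT, hR⟩ := hb.exists_max x (𝒜 0)
  obtain ⟨F, G, hG⟩ := rk_spec hb x
  choose a a0 a1 using fun j => hg.split (G j)
  choose c hc using fun j => hR _ (a0 j)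
  obtain ⟨U, U1, U2⟩ := hb.iso (f := F) (g := fun j => G j - (a j - ∑ i, c j i • g i)) le_rfl (by
    convert hG using 5 with i j
    rw [← hb.der_apply, map_sub, map_sub, hb.der_apply, hb.der_apply,
      hb.br_zero hg hx (sub_mem (a0 j) (sum_mem fun i _ => (𝒜 0).smul_mem _ (g0 i))) (hc j),
      sub_zero]) (hH _)
  obtain ⟨B, hB⟩ := hb.exists_box hd U1
  obtain ⟨j, j0⟩ := h88_ball d B.pos
  let N := B.O ∩ {ν | ∀ j, ν (g j) = x (g j)}
  have : LocallyCompactSpace N := (B.opn.isLocallyClosed.inter (IsClosed.isLocallyClosed (by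
    rw [ofPred_forall]
    exact isClosed_iInter fun _ => isClosed_eq (Pt.cont _) continuous_const))).locallyCompactSpace
  let n0 : N := ⟨x, B.mem, fun _ => rfl⟩
  have he : IsOpenEmbedding fun p : N × (Fin (2 * d) → ℝ) => B.e p.1 (j p.2) :=
    B.emb.comp ((Homeomorph.refl _).prodCongr j).isOpenEmbedding
  have e0 : ∀ ν : N, B.e ν (j 0) = ν := fun ν => by rw [j0, B.zero ν ν.2.1 ν.2.2]
  have pn : ∀ (ν : N) t, (B.e ν (j t) ∈ PosG 𝒜 ↔ ν.1 ∈ PosG 𝒜) ∧
      (B.e ν (j t) ∈ NegG 𝒜 ↔ ν.1 ∈ NegG 𝒜) := fun ν t => by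
    obtain ⟨τ, γ, h1, h2, h3⟩ := B.traj ν ν.2.1 _ (j t).2
    have m : ∑ a, τ a • f a ∈ 𝒜 0 := sum_mem fun i _ => (𝒜 0).smul_mem _ (f0 i)
    rw [← h3, ← h2]
    exact ⟨⟨(hb.traj_pos hg m h1 ⟨le_rfl, zero_le_one⟩).2, (hb.traj_pos hg m h1 ⟨zero_le_one, le_rfl⟩).1⟩,
      (hb.traj_neg hg m h1 ⟨le_rfl, zero_le_one⟩).2, (hb.traj_neg hg m h1 ⟨zero_le_one, le_rfl⟩).1⟩
  refine ⟨d, N, inferInstance, {}, n0, _, he, e0 n0, fun ν t => ?_, fun ν t => ?_, fun ν t => ?_,
    fun ν t h1 h2 => ?_, fun h => hT ?_, fun δ t ht => ?_⟩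
  · simpa only [e0] using B.leaf ν.2.1 (j t).2
  · simpa only [e0] using (pn ν t).1
  · simpa only [e0] using (pn ν t).2
  · have h3 : B.e x (j t) ∈ FixG 𝒜 := ⟨(pn n0 t).1.2 hx.1, (pn n0 t).2.2 hx.2⟩
    refine congrArg Prod.fst (he.injective (a₁ := (ν, t)) (a₂ := (n0, t))
      (U2 _ (hB _ ν.2.1 _ (j t).2) _ (hB _ B.mem _ (j t).2) h2
        (hb.rk_leaf (B.leaf B.mem (j t).2)).ge fun k => ?_))
    simp only [n0, ← sub_add, map_add, a1 k _ h1, a1 k _ h3, map_sum, map_smul,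
      B.val _ ν.2.1 _ (j t).2, B.val _ B.mem _ (j t).2]
  · refine top_unique fun y _ => hg.ind (P := (· ∈ 𝒜 0)) (zero_mem _) (fun n a ha => ?_)
      (fun _ _ => add_mem) y
    rcases eq_or_ne n 0 with rfl | hn
    exacts [ha, by rw [h n hn, Submodule.mem_bot] at ha; rw [ha]; exact zero_mem _]
  · by_cases h0 : B.e x (j t) δ = 0
    swap
    · exact ⟨_, (isOpen_ne_fun (Pt.cont δ) continuous_const).mem_nhds h0,
        Or.inl (eq_empty_of_forall_notMem fun y hy => hy.1.1 hy.2)⟩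
    obtain ⟨w, w0, η, η0, hw⟩ := h88_zero (B.hol x B.mem δ) (j t).2
      (((continuous_subtype_val.comp j.continuous).tendsto t).frequently ht) h0
    obtain ⟨m, ℓ, hm, hℓ⟩ := h88_proj w0
    let Γ : Pt A → Fin d → ℂ := fun y i => y (g i) - x (g i)
    have Γc : Continuous Γ := continuous_pi fun i => (Pt.cont _).sub continuous_const
    have Γe : ∀ t, Γ (B.e x (j t)) = j t := fun t => funext fun i => by
      simp [Γ, B.val _ B.mem _ (j t).2]
    refine ⟨Γ ⁻¹' Metric.closedBall (j t) η, Γc.continuousAt.preimage_mem_nhds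
      (by rw [Γe]; exact Metric.closedBall_mem_nhds _ η0), Or.inr ⟨m, hm.le, fun y => ℓ (Γ y),
      (ℓ.continuous.comp Γc).continuousOn, fun z => ?_⟩⟩
    by_cases hz : ∃ u, ℓ u = z
    · obtain ⟨u, rfl⟩ := hz
      refine ((hw u).image fun s => B.e x (u + s • w)).subset ?_
      rintro _ ⟨⟨⟨h1, ⟨_, t'⟩, ⟨rfl, -⟩, rfl⟩, h2⟩, h3⟩
      obtain ⟨s, hs⟩ := hℓ _ _ h3
      rw [mem_preimage] at h1
      simp only [n0, Γe] at hs h1
      exact ⟨s, by rw [mem_ofPred_eq, hs]; exact ⟨h1, h2⟩, by simp only [hs, n0]⟩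
    · exact finite_empty.subset fun y hy => hz ⟨_, hy.2⟩
theorem h88_chart (hb : IsPoi b) (hH : Hol b) (x : Pt A) :
    ∃ (N : Type) (_ : TopologicalSpace N) (_ : Nice N) (n0 : N)
      (e : N × (Fin (2 * rk b x) → ℝ) → Pt A), IsOpenEmbedding e ∧ e (n0, 0) = x ∧
      (∀ ν t, Leaf b (e (ν, 0)) (e (ν, t))) ∧ ∀ ν t, rk b (e (ν, t)) ≤ rk b x → ν = n0 := by
  obtain ⟨𝒜, h1, h2⟩ := exists_trivGr hb
  have : ∀ y, y ∈ FixG 𝒜 := fun y => by
    constructor <;> rintro a ⟨n, h, ha⟩ <;> rw [h2 n (by omega), Submodule.mem_bot] at ha <;>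
      simp [ha]
  obtain ⟨d, N, _, _, n0, e, e1, e2, e3, -, -, e4, e5, -⟩ := chart hb h1 hH (this x)
  obtain rfl := e5 h2
  exact ⟨N, _, ‹_›, n0, e, e1, e2, e3, fun ν t => e4 ν t (this _)⟩
theorem chart_rk (hb : IsPoi b) (hH : Hol b) (x : Pt A) : Chart (rk b) x :=
  let ⟨N, _, h, n0, e, e1, e2, e3, e4⟩ := h88_chart hb hH x
  ⟨N, _, h, n0, e, e1, e2, fun ν t => (hb.rk_leaf (e3 ν t)).symm, fun ν => e4 ν 0⟩
theorem leaf_loc (hb : IsPoi b) (hH : Hol b) (x : Pt A) :
    ∀ᶠ y in 𝓝 x, rk b y ≤ rk b x → Leaf b x y := by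
  obtain ⟨N, _, _, n0, e, e1, e2, e3, e4⟩ := h88_chart hb hH x
  filter_upwards [e1.isOpen_range.mem_nhds ⟨_, e2⟩]
  rintro _ ⟨⟨ν, t⟩, rfl⟩ h
  obtain rfl := e4 ν t h
  simpa only [e2] using e3 ν t
theorem leaf_mfd (hb : IsPoi b) (hH : Hol b) (x : Pt A) :
    ∃ γ : (Fin (2 * rk b x) → ℝ) → Pt A, IsEmbedding γ ∧ γ 0 = x ∧ range γ ⊆ {y | Leaf b x y} ∧
      range γ ∈ 𝓝[{y | Leaf b x y}] x := by
  obtain ⟨N, _, _, n0, e, e1, e2, e3, e4⟩ := h88_chart hb hH x
  refine ⟨fun t => e (n0, t), e1.isEmbedding.comp (isEmbedding_prodMkRight n0), e2,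
    range_subset_iff.2 fun t => (e2 ▸ e3 n0 t :), ?_⟩
  filter_upwards [mem_nhdsWithin_of_mem_nhds (e1.isOpen_range.mem_nhds ⟨_, e2⟩), self_mem_nhdsWithin]
  rintro _ ⟨⟨ν, t⟩, rfl⟩ h
  obtain rfl := e4 ν t (hb.rk_leaf h).ge
  exact ⟨t, rfl⟩
/-- a preconnected set of constant rank lies in one leaf -/
theorem leaf_of_conn (hb : IsPoi b) (hH : Hol b) {S : Set (Pt A)} (hS : IsPreconnected S) {r : ℕ}
    (hr : ∀ y ∈ S, rk b y = r) {x y : Pt A} (hx : x ∈ S) (hy : y ∈ S) : Leaf b x y :=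
  hS.induction₂ (Leaf b) (fun z hz => by
    filter_upwards [mem_nhdsWithin_of_mem_nhds (leaf_loc hb hH z), self_mem_nhdsWithin] with w a a'
      using a ((hr w a').trans (hr z hz).symm).le)
    (fun _ _ _ _ _ _ => .trans _ _ _) (fun _ _ _ _ => .symm _ _) hx hy

end C73
end
end

end

-- part MP_94fa45_ag.C73.AL
section

/-! Levi theories, part 1. -/

section
/-! Block A3, part of helper99: rank and gradings under the Levi map. -/

open Set Filter Topology TopologicalSpace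

noncomputable section
namespace C73

theorem h99_det {U : Type} {r : ℕ} {φ : Fin r → U → ℂ}
    (h : ∀ c : Fin r → ℂ, (∀ u, ∑ i, c i * φ i u = 0) → c = 0) :
    ∃ g : Fin r → U, (Matrix.of fun i j => φ i (g j)).det ≠ 0 := by
  classical
  have hs : Submodule.span ℂ (range fun u i => φ i u) = ⊤ := by
    by_contra hn
    obtain ⟨f, f0, hf⟩ := Submodule.exists_le_ker_of_lt_top _ (lt_top_iff_ne_top.2 hn)
    have h1 := h (fun i => f fun j => if i = j then 1 else 0) fun u => by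
      have h2 : f (fun i => φ i u) = 0 := hf (Submodule.subset_span ⟨u, rfl⟩)
      rw [LinearMap.pi_apply_eq_sum_univ] at h2
      simpa only [smul_eq_mul, mul_comm] using h2
    refine f0 (LinearMap.ext fun w => ?_)
    rw [LinearMap.pi_apply_eq_sum_univ]
    exact Finset.sum_eq_zero fun i _ => by rw [congrFun h1 i]; simp
  obtain ⟨κ, a, -, h1, h2⟩ := exists_linearIndependent' ℂ (fun u i => φ i u)
  let e := (Module.Basis.mk h2 (h1.trans hs).ge).indexEquiv (Pi.basisFun ℂ (Fin r))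
  refine ⟨a ∘ e.symm, IsUnit.ne_zero ((Matrix.isUnit_iff_isUnit_det _).1 ?_)⟩
  exact Matrix.linearIndependent_cols_iff_isUnit.1 (h2.comp _ e.symm.injective)

section
variable {A T : Type} [CommRing A] [Algebra ℂ A] [CommRing T] [Algebra ℂ T] {b : T → T → T}

theorem h99_zero (hb : IsPoi b) (g : T) : b 0 g = 0 := by
  simpa using hb.smul 0 0 g

theorem h99_sum (hb : IsPoi b) {κ : Type} (s : Finset κ) (f : κ → T) (g : T) :
    b (∑ i ∈ s, f i) g = ∑ i ∈ s, b (f i) g := by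
  classical
  induction s using Finset.induction_on with
  | empty => simpa using h99_zero hb g
  | insert i s hi ih => rw [Finset.sum_insert hi, Finset.sum_insert hi, hb.add, ih]

theorem h99_addr (hb : IsPoi b) (f g h : T) : b f (g + h) = b f g + b f h := by
  rw [hb.anti, hb.add, hb.anti g, hb.anti h]; ring

theorem h99_smulr (hb : IsPoi b) (c : ℂ) (f g : T) : b f (c • g) = c • b f g := by
  rw [hb.anti, hb.smul, hb.anti g]; simp

theorem h99_one (hb : IsPoi b) (f : T) : b f 1 = 0 := by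
  simpa using hb.mul f 1 1

theorem h99_sumr (hb : IsPoi b) {κ : Type} (s : Finset κ) (f : κ → T) (g : T) :
    b g (∑ i ∈ s, f i) = ∑ i ∈ s, b g (f i) := by
  rw [hb.anti, h99_sum hb, ← Finset.sum_neg_distrib]
  exact Finset.sum_congr rfl fun i _ => (hb.anti _ _).symm

omit [CommRing A] [Algebra ℂ A] in
theorem h99_step (hb : IsPoi b) (X : Pt T) (j : A → T)
    (het : ∀ v, (∀ a, X (b v (j a)) = 0) → ∀ w, X (b v w) = 0) {r : ℕ} {f g : Fin r → T}
    (h : (Matrix.of fun i k => X (b (f i) (g k))).det ≠ 0) :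
    ∃ g' : Fin r → A, (Matrix.of fun i k => X (b (j (g' i)) (f k))).det ≠ 0 := by
  have hl : ∀ (c : Fin r → ℂ) w, X (b (∑ i, c i • f i) w) = ∑ i, c i * X (b (f i) w) := fun c w => by
    rw [h99_sum hb, map_sum]
    exact Finset.sum_congr rfl fun i _ => by rw [hb.smul, map_smul, smul_eq_mul]
  obtain ⟨g', hg⟩ := h99_det (φ := fun i a => X (b (f i) (j a))) fun c hc =>
    Matrix.eq_zero_of_vecMul_eq_zero h (funext fun k =>
      (hl c (g k)).symm.trans (het _ (fun a => (hl c _).trans (hc a)) _))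
  refine ⟨g', fun h0 => hg ?_⟩
  have : (Matrix.of fun i k => X (b (f i) (j (g' k)))) =
      -(Matrix.of fun i k => X (b (j (g' i)) (f k))).transpose := by
    ext i k
    simp only [Matrix.of_apply, Matrix.neg_apply, Matrix.transpose_apply]
    rw [hb.anti, map_neg]
  rw [this, Matrix.det_neg, Matrix.det_transpose, h0, mul_zero]

/-- the rank is unchanged along a map which is unramified for Hamiltonian point derivations -/
theorem h99_rk (hb : IsPoi b) (X : Pt T) (j : A → T) {bA : A → A → A} {z : Pt A}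
    (hz : ∀ a a', z (bA a a') = X (b (j a) (j a')))
    (het : ∀ v, (∀ a, X (b v (j a)) = 0) → ∀ w, X (b v w) = 0) : rk bA z = rk b X := by
  refine congrArg sSup (Set.ext fun r =>
    ⟨fun ⟨f, g, h⟩ => ⟨fun i => j (f i), fun i => j (g i), ?_⟩, fun ⟨f, g, h⟩ => ?_⟩)
  · simpa only [hz] using h
  · obtain ⟨g', h1⟩ := h99_step hb X j het h
    obtain ⟨f', h2⟩ := h99_step hb X j het h1
    exact ⟨f', g', by simpa only [hz] using h2⟩

/-- saturation of `B` by `D` -/
def h99T (B : Subalgebra ℂ T) (D : B) : Subalgebra ℂ T where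
  carrier := {y | ∃ N : ℕ, (D : T) ^ N * y ∈ B}
  mul_mem' := fun {y z} ⟨N, h⟩ ⟨M, h'⟩ => ⟨N + M, by
    convert B.mul_mem h h' using 1; ring⟩
  add_mem' := fun {y z} ⟨N, h⟩ ⟨M, h'⟩ => ⟨N + M, by
    convert B.add_mem (B.mul_mem (D ^ M).2 h) (B.mul_mem (D ^ N).2 h') using 1
    push_cast; ring⟩
  algebraMap_mem' := fun c => ⟨0, by simp⟩

theorem h99T_le (B : Subalgebra ℂ T) (D : B) : B ≤ h99T B D := fun y h => ⟨0, by simpa using h⟩

theorem h99T_sat {B : Subalgebra ℂ T} {D : B} {N : ℕ} {y : T} (h : (D : T) ^ N * y ∈ h99T B D) :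
    y ∈ h99T B D := let ⟨M, h⟩ := h; ⟨M + N, by rwa [pow_add, mul_assoc]⟩

theorem h99T_br (hb : IsPoi b) {B : Subalgebra ℂ T} (D : B) (hB : ∀ x ∈ B, ∀ y ∈ B, b x y ∈ B)
    {y z : T} (hy : y ∈ h99T B D) (hz : z ∈ h99T B D) : b y z ∈ h99T B D := by
  have key : ∀ v : T, (∀ x ∈ B, b v x ∈ h99T B D) → ∀ w ∈ h99T B D, b v w ∈ h99T B D := by
    rintro v hv w ⟨N, hN⟩
    refine h99T_sat (N := N) ?_
    have : (D : T) ^ N * b v w = b v ((D : T) ^ N * w) - b v ((D : T) ^ N) * w := by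
      rw [hb.mul]; ring
    rw [this]
    exact sub_mem (hv _ hN) (mul_mem (hv _ (pow_mem D.2 N)) ⟨N, hN⟩)
  refine key y (fun x hx => ?_) z hz
  rw [hb.anti]
  exact neg_mem (key x (fun x' hx' => h99T_le B D (hB x hx x' hx')) y hy)

theorem h99T_ext {B : Subalgebra ℂ T} (D : B) (x : Pt B) (hD : x D ≠ 0) :
    ∃ X : Pt (h99T B D), ∀ c : B, X ⟨c, h99T_le B D c.2⟩ = x c := by
  let F : h99T B D → ℂ := fun y => x ⟨_, y.2.choose_spec⟩ / x D ^ y.2.choose
  have hF : ∀ (y : h99T B D) (N : ℕ) (c : B), (c : T) = (D : T) ^ N * y → F y = x c / x D ^ N := by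
    intro y N c hc
    rw [div_eq_div_iff (pow_ne_zero _ hD) (pow_ne_zero _ hD), ← map_pow, ← map_pow, ← map_mul,
      ← map_mul]
    congr 1
    ext
    simp only [MulMemClass.coe_mul, SubmonoidClass.coe_pow, hc]
    ring
  have h1 : ∀ y : h99T B D, ∃ (N : ℕ) (c : B), (c : T) = (D : T) ^ N * y :=
    fun y => let ⟨N, h⟩ := y.2; ⟨N, ⟨_, h⟩, rfl⟩
  have h0 : ∀ c : B, F ⟨c, h99T_le B D c.2⟩ = x c := fun c => by simpa using hF _ 0 c (by simp)
  refine ⟨{ toFun := F
            map_one' := (h0 1).trans (map_one x)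
            map_zero' := (h0 0).trans (map_zero x)
            commutes' := fun c => (h0 (algebraMap ℂ B c)).trans (AlgHomClass.commutes x c)
            map_mul' := fun y z => ?_
            map_add' := fun y z => ?_ }, h0⟩
  · obtain ⟨N, c, hc⟩ := h1 y
    obtain ⟨M, c', hc'⟩ := h1 z
    rw [hF y N c hc, hF z M c' hc', hF (y * z) (N + M) (c * c') (by
      push_cast; rw [hc, hc']; ring), map_mul, pow_add, mul_div_mul_comm]
  · obtain ⟨N, c, hc⟩ := h1 y
    obtain ⟨M, c', hc'⟩ := h1 z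
    rw [hF y N c hc, hF z M c' hc', hF (y + z) (N + M) (D ^ M * c + D ^ N * c') (by
      push_cast; rw [hc, hc']; ring), map_add, map_mul, map_mul, map_pow, map_pow, pow_add]
    field_simp
end

open MvPolynomial

variable {I ι : Type} [Fintype I] [DecidableEq I] {nd : I → ι} {ar : ι → ι → ℕ} {fr : ι → ℕ}
  {g t : I → ℂ}

theorem h99_etale (ht : Ok g t) (R : Subalgebra ℂ (PP I))
    (hR : ∀ p, (∀ σ, InW (fun a => (nd a, g a)) σ → rename σ p = p) → p ∈ R) (d : R →ₗ[ℂ] ℂ)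
    (hm : ∀ p q, d (p * q) = d p * eval t q.1 + eval t p.1 * d q)
    (h0 : ∀ p : R, (∀ σ, InW nd σ → rename σ p.1 = p) → d p = 0) (p : R)
    (hp : ∀ σ, InW (fun a => (nd a, g a)) σ → rename σ p.1 = p) : d p = 0 := by
  classical
  have key : ∀ θ : R, (∀ σ, InW (fun a => (nd a, g a)) σ → rename σ θ.1 = θ) → eval t θ.1 = 0 →
      (∀ σ, InW nd σ → ¬ InW (fun a => (nd a, g a)) σ → eval t (rename σ θ.1) ≠ 0) → d θ = 0 := by
    intro θ h1 h2 h3
    by_cases hθ : θ = 0
    · rw [hθ, map_zero]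
    let O := (Finset.univ.filter (InW nd)).image fun σ : Equiv.Perm I => rename σ θ.1
    have hO : θ.1 ∈ O := Finset.mem_image.2 ⟨1, Finset.mem_filter.2 ⟨by simp, fun _ => rfl⟩, by simp⟩
    have hF : ∀ σ, InW nd σ → rename σ (∏ q ∈ O, q) = ∏ q ∈ O, q := fun σ hσ => by
      have hi : Function.Injective (rename σ : PP I → PP I) := rename_injective _ σ.injective
      rw [map_prod, ← Finset.prod_image (f := fun q => q) hi.injOn]
      congr 1
      refine Finset.eq_of_subset_of_card_le (fun q hq => ?_) (Finset.card_image_of_injective _ hi).ge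
      obtain ⟨_, hq', rfl⟩ := Finset.mem_image.1 hq
      obtain ⟨τ, hτ, rfl⟩ := Finset.mem_image.1 hq'
      exact Finset.mem_image.2 ⟨σ * τ, Finset.mem_filter.2 ⟨by simp, fun a =>
        (hσ _).trans ((Finset.mem_filter.1 hτ).2 a)⟩, by rw [rename_rename]; rfl⟩
    have hG := Finset.mul_prod_erase O (fun q => q) hO
    have hG' : ∏ q ∈ O.erase θ.1, q ∈ R := hR _ fun σ hσ => by
      refine mul_left_cancel₀ (fun h => hθ (Subtype.ext h) : θ.1 ≠ 0) ?_
      rw [hG, ← hF σ fun a => congrArg Prod.fst (hσ a), ← hG, map_mul, h1 σ hσ]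
    have h4 := h0 (θ * ⟨_, hG'⟩) fun σ hσ => by
      simp only [MulMemClass.coe_mul, hG, hF σ hσ]
    rw [hm, h2, zero_mul, add_zero] at h4
    refine (mul_eq_zero.1 h4).resolve_right ?_
    rw [map_prod]
    refine Finset.prod_ne_zero_iff.2 fun q hq => ?_
    obtain ⟨τ, hτ, rfl⟩ := Finset.mem_image.1 (Finset.mem_erase.1 hq).2
    exact h3 τ (Finset.mem_filter.1 hτ).2 fun h => (Finset.mem_erase.1 hq).1 (h1 τ h)
  let η : PP I := ∏ b, ∏ a with g a ≠ g b, (X b - C (t a))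
  have η1 : ∀ σ, InW (fun a => (nd a, g a)) σ → rename σ η = η := fun σ hσ => by
    simp only [η, map_prod, map_sub, rename_X, rename_C]
    refine Fintype.prod_equiv σ _ _ fun b => ?_
    rw [show g (σ b) = g b from congrArg Prod.snd (hσ b)]
  have η2 : eval t η ≠ 0 := by
    simp only [η, map_prod, map_sub, eval_X, eval_C]
    exact Finset.prod_ne_zero_iff.2 fun b _ => Finset.prod_ne_zero_iff.2 fun a ha =>
      sub_ne_zero.2 (ht.1 _ _ (Finset.mem_filter.1 ha).2).symm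
  have η3 : ∀ σ, InW nd σ → ¬ InW (fun a => (nd a, g a)) σ → eval t (rename σ η) = 0 := by
    intro σ hσ h
    obtain ⟨b, hb⟩ := not_forall.1 h
    simp only [η, map_prod, map_sub, rename_X, rename_C, eval_X, eval_C]
    exact Finset.prod_eq_zero (Finset.mem_univ b) (Finset.prod_eq_zero (i := σ b)
      (Finset.mem_filter.2 ⟨by simp only [Finset.mem_univ], fun h' => hb (Prod.ext (hσ b) h')⟩) (sub_self _))
  have h1 : d 1 = 0 := h0 1 fun σ _ => map_one _
  have h5 : ∀ s ∉ Finset.univ.image fun σ : Equiv.Perm I =>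
      (eval t (rename σ p.1) - eval t p.1) / eval t η, d p + s * d ⟨η, hR η η1⟩ = 0 := by
    intro s hs
    have := key (p - eval t p.1 • 1 + s • (⟨η, hR η η1⟩ - eval t η • 1)) (fun σ hσ => by
      simp only [AddMemClass.coe_add, AddSubgroupClass.coe_sub, SetLike.val_smul, OneMemClass.coe_one, map_add, map_sub, hp σ hσ, map_smul, map_one, η1 σ hσ]) (by simp only [AddMemClass.coe_add, AddSubgroupClass.coe_sub, SetLike.val_smul, OneMemClass.coe_one, map_add, map_sub, smul_eval, map_one, mul_one, sub_self, mul_zero, add_zero]) fun σ h h' h'' => hs (Finset.mem_image.2 ⟨σ, by simp, by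
        rw [div_eq_iff η2]
        simp [η3 σ h h'] at h''
        linear_combination h''⟩)
    simpa only [map_add, map_sub, map_smul, h1, smul_eq_mul, mul_zero, sub_zero] using this
  obtain ⟨s, hs⟩ := Infinite.exists_notMem_finset (insert 0 (Finset.univ.image fun σ : Equiv.Perm I =>
      (eval t (rename σ p.1) - eval t p.1) / eval t η))
  obtain ⟨s', hs'⟩ := Infinite.exists_notMem_finset (insert s (Finset.univ.image fun σ : Equiv.Perm I =>
      (eval t (rename σ p.1) - eval t p.1) / eval t η))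
  simp only [Finset.mem_insert, not_or] at hs hs'
  have h6 := h5 s hs.2
  have h7 := h5 s' hs'.2
  refine mul_left_cancel₀ (sub_ne_zero.2 hs'.1) ?_
  linear_combination s' * h6 - s * h7

/-- `pL` as an algebra map -/
def h99p : PP I →ₐ[ℂ] LL I :=
  (IsScalarTower.toAlgHom ℂ (KK I) (LL I)).comp (IsScalarTower.toAlgHom ℂ (PP I) (KK I))

theorem h99p_eq (p : PP I) : pL p = h99p p := pL_eq p

theorem h99_lev_mem {p : PP I} (h : ∀ σ, InW (fun a => (nd a, g a)) σ → rename σ p = p) :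
    pL p ∈ Lev nd ar fr g := pL_mem h

omit [DecidableEq I] in
theorem h99_dlt_inv (σ : Equiv.Perm I) (hσ : InW (fun a => (nd a, g a)) σ) :
    rename σ (dlt g) = dlt g := by
  classical
  have h : ∀ a, g (σ a) = g a := fun a => congrArg Prod.snd (hσ a)
  simp only [dlt, map_mul, map_prod, map_sub, rename_X]
  congr 1
  · refine Fintype.prod_equiv σ _ _ fun a => Finset.prod_equiv σ (fun b => ?_) fun b _ => rfl
    simp only [ne_eq, Finset.mem_filter, Finset.mem_univ, true_and, h]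
  · exact Finset.prod_equiv σ (fun b => by simp only [ne_eq, Finset.mem_filter, Finset.mem_univ, true_and, h]) fun b _ => rfl

omit [DecidableEq I] in
theorem h99_dlt_ne (ht : Ok g t) : eval t (dlt g) ≠ 0 := by
  simp only [dlt, map_mul, map_prod, map_sub, eval_X]
  exact mul_ne_zero (Finset.prod_ne_zero_iff.2 fun a _ => Finset.prod_ne_zero_iff.2 fun b hb =>
    sub_ne_zero.2 (ht.1 _ _ (Finset.mem_filter.1 hb).2))
    (Finset.prod_ne_zero_iff.2 fun a ha => ht.2 a (Finset.mem_filter.1 ha).2)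

/-- `dlt g` in the Levi theory -/
def h99D (nd : I → ι) (ar : ι → ι → ℕ) (fr : ι → ℕ) (g : I → ℂ) : Lev nd ar fr g :=
  ⟨pL (dlt g), h99_lev_mem h99_dlt_inv⟩

theorem h99_hom {A : Subalgebra ℂ (LL I)} {m : I → ℤ} (h : DirectSum.IsInternal (grC A m)) (n : ℤ)
    (a : A) : ∃ a' ∈ grC A m n, ∀ l, ∑ c, m c * l c = n → (a' : LL I).coeff l = (a : LL I).coeff l := by
  have ha : a ∈ iSup (grC A m) := h.submodule_iSup_eq_top ▸ Submodule.mem_top
  induction ha using Submodule.iSup_induction' with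
  | mem j a ha =>
    by_cases hj : j = n
    · exact ⟨a, hj ▸ ha, fun _ _ => rfl⟩
    · exact ⟨0, zero_mem _, fun l hl => (by_contra fun h' => hj ((ha l h').symm.trans hl) :
        (a : LL I).coeff l = 0).symm⟩
  | zero => exact ⟨0, zero_mem _, fun _ _ => rfl⟩
  | add a b _ _ ha hb =>
    obtain ⟨a', h1, h2⟩ := ha
    obtain ⟨b', h3, h4⟩ := hb
    exact ⟨a' + b', add_mem h1 h3, fun l hl => by simp only [AddMemClass.coe_add, AddMonoidAlgebra.coeff_add, Finsupp.coe_add, Pi.add_apply, h2 l hl, h4 l hl]⟩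

omit [Fintype I] [DecidableEq I] in
theorem h99_coeff (p : PP I) (y : LL I) (l : I → ℤ) :
    (pL p * y).coeff l = algebraMap (PP I) (KK I) p * y.coeff l :=
  AddMonoidAlgebra.coeff_single_zero_mul _ _ _

variable (har : ∀ j, ar j j = 0) {e : Pt (Lev nd ar fr g) → Pt (Cou nd ar fr)}
  (hsub : ∀ a : Cou nd ar fr, ∃ (N : ℕ) (b : Lev nd ar fr g), (b : LL I) = pL (dlt g ^ N) * a)
  (hval : ∀ t, Ok g t → ∀ x ∈ Fib (Lev nd ar fr g) t,
    ∀ (a : Cou nd ar fr) (b : Lev nd ar fr g) (N : ℕ),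
    (b : LL I) = pL (dlt g ^ N) * a → x b = MvPolynomial.eval t (dlt g) ^ N * e x a)
  (hgen : ∀ b : Lev nd ar fr g, ∃ (N n : ℕ) (p : Fin n → PP I) (a : Fin n → Cou nd ar fr),
    (∀ k σ, InW (fun a => (nd a, g a)) σ → rename σ (p k) = p k) ∧
      pL (dlt g ^ N) * (b : LL I) = ∑ k, pL (p k) * (a k : LL I))

include hsub in
theorem h99_le (a : Cou nd ar fr) : (a : LL I) ∈ h99T _ (h99D nd ar fr g) :=
  let ⟨N, b, h⟩ := hsub a
  ⟨N, by
    have := b.2
    rwa [h, h99p_eq, map_pow, ← h99p_eq] at this⟩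

include hval in
theorem h99_ext (ht : Ok g t) {x : Pt (Lev nd ar fr g)} (hx : x ∈ Fib (Lev nd ar fr g) t) :
    ∃ X : Pt (h99T _ (h99D nd ar fr g)), (∀ c : Lev nd ar fr g, X ⟨c, h99T_le _ _ c.2⟩ = x c) ∧
      ∀ a, X ⟨_, h99_le hsub a⟩ = e x a := by
  have hD : x (h99D nd ar fr g) = eval t (dlt g) := hx _ _ rfl
  obtain ⟨X, hX⟩ := h99T_ext (h99D nd ar fr g) x (hD ▸ h99_dlt_ne ht)
  refine ⟨X, hX, fun a => ?_⟩
  obtain ⟨N, b, h⟩ := hsub a
  refine mul_left_cancel₀ (pow_ne_zero N (h99_dlt_ne ht)) ?_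
  rw [← hval t ht x hx a b N h, ← hX, ← hD, ← hX, ← map_pow, ← map_mul]
  exact congrArg X (Subtype.ext (h.trans (by rw [h99p_eq, map_pow, ← h99p_eq]; rfl)).symm)

include har hsub hval hgen

theorem h99_levi_rk : ∀ x ∈ FibS (Lev nd ar fr g) {t | Ok g t},
    rk (brA (Cou nd ar fr)) (e x) = rk (brA (Lev nd ar fr g)) x := by
  intro x hx
  obtain ⟨t, ht, hx⟩ := mem_iUnion₂.1 hx
  obtain ⟨X, h1, h2⟩ := h99_ext hsub hval ht hx
  have hl : ∀ x : ι × ℂ, (fun x y : ι × ℂ => by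
      classical exact if x.2 = y.2 then ar x.1 y.1 else 0) x x = 0 := fun x => by simp [har]
  have hB : ∀ y ∈ Lev nd ar fr g, ∀ z ∈ Lev nd ar fr g, br y z ∈ Lev nd ar fr g :=
    fun y hy z hz => cou_br hl hy hz
  let T := h99T _ (h99D nd ar fr g)
  let b : T → T → T := fun v w => ⟨br v w, h99T_br br_poi _ hB v.2 w.2⟩
  have hb : IsPoi b := ⟨fun _ _ _ => Subtype.ext (br_poi.add _ _ _),
    fun _ _ _ => Subtype.ext (br_poi.smul _ _ _), fun _ _ => Subtype.ext (br_poi.anti _ _),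
    fun _ _ _ => Subtype.ext (br_poi.mul _ _ _), fun _ _ _ => Subtype.ext (br_poi.jac _ _ _)⟩
  let j : Lev nd ar fr g →ₐ[ℂ] T := Subalgebra.inclusion (h99T_le _ _)
  have hD : X (j (h99D nd ar fr g)) ≠ 0 := ((h1 _).trans (hx _ _ rfl)).trans_ne (h99_dlt_ne ht)
  have e1 : ∀ v, (∀ c, X (b v (j c)) = 0) → ∀ w, X (b v w) = 0 := by
    rintro v hv ⟨w, N, hN⟩
    have h3 := hv ⟨_, hN⟩
    rw [show j ⟨_, hN⟩ = j (h99D nd ar fr g ^ N) * ⟨w, N, hN⟩ from rfl, hb.mul, map_add, map_mul,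
      map_mul, hv, zero_mul, zero_add, map_pow, map_pow] at h3
    exact (mul_eq_zero.1 h3).resolve_left (pow_ne_zero _ hD)
  have e2 : ∀ v, (∀ a, X (b v ⟨_, h99_le hsub a⟩) = 0) → ∀ c, X (b v (j c)) = 0 := by
    intro v hv c
    let R := (Lev nd ar fr g).comap h99p
    let i : R →ₐ[ℂ] Lev nd ar fr g := (h99p.comp R.val).codRestrict _ fun p => p.2
    have hi : ∀ p, X (j (i p)) = eval t p.1 := fun p => (h1 _).trans (hx _ _ (h99p_eq _).symm)
    have hR : ∀ p, (∀ σ, InW (fun a => (nd a, g a)) σ → rename σ p = p) → p ∈ R :=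
      fun p hp => show h99p p ∈ _ from h99p_eq p ▸ h99_lev_mem hp
    have h3 := h99_etale ht R hR
      { toFun := fun p => X (b v (j (i p)))
        map_add' := fun p q => by rw [map_add, map_add, h99_addr hb, map_add]
        map_smul' := fun c p => by rw [map_smul, map_smul, h99_smulr hb, map_smul]; rfl }
      (fun p q => by
        simp only [LinearMap.coe_mk, AddHom.coe_mk, map_mul, hb.mul, map_add, hi])
      fun p hp => by
        have := hv ⟨_, pL_mem hp⟩
        simp only [h99p_eq] at this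
        exact this
    obtain ⟨N, n, p, a, hp, h4⟩ := hgen c
    have hN : ∀ σ, InW (fun a => (nd a, g a)) σ → rename σ (dlt g ^ N) = dlt g ^ N :=
      fun σ hσ => by rw [map_pow, h99_dlt_inv σ hσ]
    have h5 : j (i ⟨_, hR _ hN⟩) * j c = ∑ k, j (i ⟨_, hR _ (hp k)⟩) * ⟨_, h99_le hsub (a k)⟩ := by
      simp only [h99p_eq] at h4
      exact Subtype.ext (h4.trans (by rw [AddSubmonoidClass.coe_finsetSum]; rfl))
    have h6 := congrArg (fun w => X (b v w)) h5
    simp only [h99_sumr hb, hb.mul, map_add, map_mul, map_sum, hv, hi] at h6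
    rw [show X (b v (j (i ⟨_, hR _ hN⟩))) = 0 from h3 _ hN, Finset.sum_eq_zero fun k _ => by
      rw [show X (b v (j (i ⟨_, hR _ (hp k)⟩))) = 0 from h3 _ (hp k)]; simp] at h6
    simpa only [zero_mul, map_pow, zero_add, mul_eq_zero, pow_eq_zero_iff', h99_dlt_ne ht, ne_eq, false_and, false_or] using h6
  rw [h99_rk hb X (fun a => ⟨_, h99_le hsub a⟩) (fun a a' => ?_) fun v hv => e1 v (e2 v hv),
    h99_rk hb X j (fun a a' => ?_) e1]
  · exact (h1 _).symm.trans (congrArg X (Subtype.ext (brA_coe hl a a')))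
  · exact (h2 _).symm.trans (congrArg X (Subtype.ext (brA_coe har a a')))

omit har hgen in
theorem h99_up {m : I → ℤ} {n : ℤ} {a : Cou nd ar fr} (ha : a ∈ grC _ m n) :
    ∃ (N : ℕ), ∃ b ∈ grC (Lev nd ar fr g) m n, ∀ t, Ok g t → ∀ x ∈ Fib (Lev nd ar fr g) t,
      x b = eval t (dlt g) ^ N * e x a :=
  let ⟨N, b, h⟩ := hsub a
  ⟨N, b, fun l hl => ha l fun h' => hl (by rw [h, h99_coeff, h', mul_zero]),
    fun t ht x hx => hval t ht x hx a b N h⟩

theorem h99_down {m : I → ℤ} (hm : ∀ a b, nd a = nd b → m a = m b) {n : ℤ} {b : Lev nd ar fr g}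
    (hb : b ∈ grC _ m n) : ∃ (N r : ℕ) (p : Fin r → PP I) (a : Fin r → Cou nd ar fr),
      (∀ k, a k ∈ grC _ m n) ∧ ∀ t, Ok g t → ∀ x ∈ Fib (Lev nd ar fr g) t,
      eval t (dlt g) ^ N * x b = ∑ k, eval t (p k) * e x (a k) := by
  obtain ⟨N, r, p, a, hp, h⟩ := hgen b
  choose a' h1 h2 using fun k => h99_hom (cou_gr (fr := fr) har hm).int n (a k)
  refine ⟨N, r, p, a', h1, fun t ht x hx => ?_⟩
  obtain ⟨X, h3, h4⟩ := h99_ext hsub hval ht hx
  have h5 : pL (dlt g ^ N) * (b : LL I) = ∑ k, pL (p k) * (a' k : LL I) := by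
    ext l
    by_cases hl : ∑ c, m c * l c = n
    · simp only [h, AddMonoidAlgebra.coeff_sum, Finsupp.finsetSum_apply, h99_coeff, h2 _ l hl]
    · have h6 : ∀ k, (a' k : LL I).coeff l = 0 := fun k => by_contra fun h' => hl (h1 k l h')
      have h7 : (b : LL I).coeff l = 0 := by_contra fun h' => hl (hb l h')
      simp only [AddMonoidAlgebra.coeff_sum, Finsupp.finsetSum_apply, h99_coeff, h6, h7, mul_zero,
        Finset.sum_const_zero]
  have hN : ∀ σ, InW (fun a => (nd a, g a)) σ → rename σ (dlt g ^ N) = dlt g ^ N :=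
    fun σ hσ => by rw [map_pow, h99_dlt_inv σ hσ]
  have h8 : ∀ q hq, X ⟨pL q, h99T_le _ _ (h99_lev_mem hq)⟩ = eval t q :=
    fun q hq => (h3 ⟨_, h99_lev_mem hq⟩).trans (hx _ _ rfl)
  rw [← map_pow, ← h8 _ hN, ← h3, ← map_mul,
    Finset.sum_congr rfl fun k _ => by rw [← h8 _ (hp k), ← h4, ← map_mul], ← map_sum]
  exact congrArg X (Subtype.ext (h5.trans (by rw [AddSubmonoidClass.coe_finsetSum]; rfl)))

theorem h99_levi_vv {m : I → ℤ} (hm : ∀ a b, nd a = nd b → m a = m b) (S : ℤ → Prop)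
    {x : Pt (Lev nd ar fr g)} (hx : x ∈ FibS (Lev nd ar fr g) {t | Ok g t}) :
    e x ∈ VV {a | ∃ n, S n ∧ a ∈ grC (Cou nd ar fr) m n} ↔
      x ∈ VV {a | ∃ n, S n ∧ a ∈ grC (Lev nd ar fr g) m n} := by
  obtain ⟨t, ht, hx⟩ := mem_iUnion₂.1 hx
  refine ⟨fun h b ⟨n, hn, hb⟩ => ?_, fun h a ⟨n, hn, ha⟩ => ?_⟩
  · obtain ⟨N, r, p, a, h1, h2⟩ := h99_down har hsub hval hgen hm hb
    refine mul_left_cancel₀ (pow_ne_zero N (h99_dlt_ne ht)) ?_
    rw [h2 t ht x hx, mul_zero]
    exact Finset.sum_eq_zero fun k _ => by rw [h _ ⟨n, hn, h1 k⟩, mul_zero]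
  · obtain ⟨N, b, h1, h2⟩ := h99_up hsub hval ha
    refine mul_left_cancel₀ (pow_ne_zero N (h99_dlt_ne ht)) ?_
    rw [← h2 t ht x hx, mul_zero, h _ ⟨n, hn, h1⟩]

theorem h99_levi_pos : ∀ m : I → ℤ, (∀ a b, nd a = nd b → m a = m b) →
    ∀ x ∈ FibS (Lev nd ar fr g) {t | Ok g t},
    (e x ∈ PosG (grC (Cou nd ar fr) m) ↔ x ∈ PosG (grC (Lev nd ar fr g) m)) ∧
    (e x ∈ NegG (grC (Cou nd ar fr) m) ↔ x ∈ NegG (grC (Lev nd ar fr g) m)) :=
  fun _ hm _ hx => ⟨h99_levi_vv har hsub hval hgen hm _ hx, h99_levi_vv har hsub hval hgen hm _ hx⟩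

theorem h99_levi_same : ∀ m : I → ℤ, (∀ a b, nd a = nd b → m a = m b) → ∀ t, Ok g t →
    ∀ x ∈ Fib (Lev nd ar fr g) t, ∀ y ∈ Fib (Lev nd ar fr g) t,
    (Same0 (grC (Cou nd ar fr) m) (e x) (e y) ↔ Same0 (grC (Lev nd ar fr g) m) x y) := by
  intro m hm t ht x hx y hy
  refine ⟨fun h b hb => ?_, fun h a ha => ?_⟩
  · obtain ⟨N, r, p, a, h1, h2⟩ := h99_down har hsub hval hgen hm hb
    refine mul_left_cancel₀ (pow_ne_zero N (h99_dlt_ne ht)) ?_
    rw [h2 t ht x hx, h2 t ht y hy]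
    exact Finset.sum_congr rfl fun k _ => by rw [h _ (h1 k)]
  · obtain ⟨N, b, h1, h2⟩ := h99_up hsub hval ha
    refine mul_left_cancel₀ (pow_ne_zero N (h99_dlt_ne ht)) ?_
    rw [← h2 t ht x hx, ← h2 t ht y hy, h _ h1]

end C73
end
end

section
/-! Block A3, part of helper99: continuity and openness of the Levi map. -/

open Set Filter Topology TopologicalSpace MvPolynomial

noncomputable section
namespace C73

theorem h99_cont {A : Type} [CommRing A] [Algebra ℂ A] (a : A) : Continuous fun x : Pt A => x a :=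
  (continuous_apply a).comp continuous_induced_dom

theorem h99_ne (A : Type) [CommRing A] [Algebra ℂ A] [Nontrivial A] [Algebra.FiniteType ℂ A] :
    Nonempty (Pt A) := by
  obtain ⟨𝔪, _⟩ := Ideal.exists_maximal A
  let := Ideal.Quotient.field 𝔪
  have := finite_of_finite_type_of_isJacobsonRing ℂ (A ⧸ 𝔪)
  exact ⟨(IsAlgClosed.lift : (A ⧸ 𝔪) →ₐ[ℂ] ℂ).comp (Ideal.Quotient.mkₐ ℂ 𝔪)⟩

variable {I ι : Type} [Fintype I] [DecidableEq I] {nd : I → ι} {ar : ι → ι → ℕ} {fr : ι → ℕ}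
  {g : I → ℂ} (har : ∀ j, ar j j = 0) {e : Pt (Lev nd ar fr g) → Pt (Cou nd ar fr)}
  (hsub : ∀ a : Cou nd ar fr, ∃ (N : ℕ) (b : Lev nd ar fr g), (b : LL I) = pL (dlt g ^ N) * a)
  (hval : ∀ t, Ok g t → ∀ x ∈ Fib (Lev nd ar fr g) t,
    ∀ (a : Cou nd ar fr) (b : Lev nd ar fr g) (N : ℕ),
    (b : LL I) = pL (dlt g ^ N) * a → x b = MvPolynomial.eval t (dlt g) ^ N * e x a)
  (hgen : ∀ b : Lev nd ar fr g, ∃ (N n : ℕ) (p : Fin n → PP I) (a : Fin n → Cou nd ar fr),
    (∀ k σ, InW (fun a => (nd a, g a)) σ → rename σ (p k) = p k) ∧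
      pL (dlt g ^ N) * (b : LL I) = ∑ k, pL (p k) * (a k : LL I))

include hsub in
theorem h99_levi_ex : ∃ e : Pt (Lev nd ar fr g) → Pt (Cou nd ar fr),
    ∀ t, Ok g t → ∀ x ∈ Fib (Lev nd ar fr g) t,
    ∀ (a : Cou nd ar fr) (b : Lev nd ar fr g) (N : ℕ),
    (b : LL I) = pL (dlt g ^ N) * a → x b = MvPolynomial.eval t (dlt g) ^ N * e x a := by
  have := cou_fg (nd := nd) (ar := ar) (fr := fr)
  obtain ⟨z⟩ := h99_ne (Cou nd ar fr)
  have h : ∀ x : Pt (Lev nd ar fr g), ∃ y : Pt (Cou nd ar fr), x (h99D nd ar fr g) ≠ 0 →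
      ∀ (a : Cou nd ar fr) (b : Lev nd ar fr g) (N : ℕ),
      (b : LL I) = pL (dlt g ^ N) * a → x b = x (h99D nd ar fr g) ^ N * y a := fun x => by
    by_cases hD : x (h99D nd ar fr g) = 0
    · exact ⟨z, fun h => absurd hD h⟩
    obtain ⟨X, hX⟩ := h99T_ext _ x hD
    refine ⟨AlgHom.comp X (Subalgebra.inclusion fun a ha => h99_le hsub ⟨a, ha⟩), fun _ a b N h => ?_⟩
    rw [← hX, ← hX, ← map_pow]
    exact (congrArg X (Subtype.ext (h.trans (by rw [h99p_eq, map_pow, ← h99p_eq]; rfl)))).trans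
      (map_mul X _ ⟨_, h99_le hsub a⟩)
  choose e he using h
  refine ⟨e, fun t ht x hx => ?_⟩
  have hD : x (h99D nd ar fr g) = eval t (dlt g) := hx _ _ rfl
  exact hD ▸ he x (hD ▸ h99_dlt_ne ht)

include hsub hval

theorem h99_levi_cont : ContinuousOn e (FibS (Lev nd ar fr g) {t | Ok g t}) := by
  rw [continuousOn_iff_continuous_domRestrict]
  refine continuous_induced_rng.2 (continuous_pi fun a => ?_)
  obtain ⟨N, b, h⟩ := hsub a
  have h1 : ∀ x : FibS (Lev nd ar fr g) {t | Ok g t}, x.1 (h99D nd ar fr g) ^ N ≠ 0 ∧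
      x.1 b / x.1 (h99D nd ar fr g) ^ N = e x.1 a := fun x => by
    obtain ⟨t, ht, hx⟩ := mem_iUnion₂.1 x.2
    rw [hx _ (h99D nd ar fr g) rfl, hval t ht x hx a b N h]
    exact ⟨pow_ne_zero _ (h99_dlt_ne ht), mul_div_cancel_left₀ _ (pow_ne_zero _ (h99_dlt_ne ht))⟩
  exact (((h99_cont b).comp continuous_subtype_val).div
    (((h99_cont _).comp continuous_subtype_val).pow N) fun x => (h1 x).1).congr fun x => (h1 x).2

omit hsub in
theorem h99_levi_maps {t : I → ℂ} (ht : Ok g t) :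
    MapsTo e (Fib (Lev nd ar fr g) t) (Fib (Cou nd ar fr) t) := fun x hx p a h => by
  have h1 : pL p ∈ Lev nd ar fr g :=
    h99_lev_mem fun σ hσ => pL_inv (h ▸ a.2) fun c => congrArg Prod.fst (hσ c)
  simpa only [pow_zero, one_mul, hx p ⟨_, h1⟩ rfl] using (hval t ht x hx a ⟨_, h1⟩ 0 (by simp [h, h99p_eq])).symm

include hgen

theorem h99_gen (b : Lev nd ar fr g) : ∃ (N r : ℕ) (p : Fin r → PP I) (a : Fin r → Cou nd ar fr),
    ∀ t, Ok g t → ∀ x ∈ Fib (Lev nd ar fr g) t,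
      (∑ k, eval t (p k) * e x (a k)) / eval t (dlt g) ^ N = x b := by
  obtain ⟨N, r, p, a, hp, h⟩ := hgen b
  refine ⟨N, r, p, a, fun t ht x hx => ?_⟩
  obtain ⟨X, h3, h4⟩ := h99_ext hsub hval ht hx
  have hN : ∀ σ, InW (fun a => (nd a, g a)) σ → rename σ (dlt g ^ N) = dlt g ^ N :=
    fun σ hσ => by rw [map_pow, h99_dlt_inv σ hσ]
  have h8 : ∀ q hq, X ⟨pL q, h99T_le _ _ (h99_lev_mem hq)⟩ = eval t q :=
    fun q hq => (h3 ⟨_, h99_lev_mem hq⟩).trans (hx _ _ rfl)
  rw [div_eq_iff (pow_ne_zero _ (h99_dlt_ne ht)), mul_comm, ← map_pow, ← h8 _ hN, ← h3, ← map_mul,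
    Finset.sum_congr rfl fun k _ => by rw [← h8 _ (hp k), ← h4, ← map_mul], ← map_sum]
  exact congrArg X (Subtype.ext (h.trans (by rw [AddSubmonoidClass.coe_finsetSum]; rfl)).symm)

theorem h99_levi_inj {t : I → ℂ} (ht : Ok g t) : InjOn e (Fib (Lev nd ar fr g) t) := by
  intro x hx y hy h
  refine DFunLike.ext _ _ fun b => ?_
  obtain ⟨N, r, p, a, h1⟩ := h99_gen hsub hval hgen b
  rw [← h1 t ht x hx, ← h1 t ht y hy, h]

theorem h99_levi_emb
    (hsur : ∀ t, Ok g t → SurjOn e (Fib (Lev nd ar fr g) t) (Fib (Cou nd ar fr) t)) :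
    ∀ Ω : Set (I → ℂ), IsOpen Ω → (∀ t ∈ Ω, Ok g t) →
    (∀ σ, InW nd σ → ∀ t ∈ Ω, t ∘ σ ∈ Ω → InW g σ) →
    IsOpenEmbedding ((FibS (Lev nd ar fr g) Ω).domRestrict e) := by
  intro Ω hΩ hok hW
  refine .of_continuous_injective_isOpenMap (continuousOn_iff_continuous_domRestrict.1
    ((h99_levi_cont hsub hval).mono (biUnion_subset_biUnion_left hok))) ?_
    (isOpenMap_iff_nhds_le.2 fun x => ?_)
  · rintro ⟨x, hx⟩ ⟨y, hy⟩ (h : e x = e y)
    obtain ⟨t, ht, h1⟩ := mem_iUnion₂.1 hx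
    obtain ⟨t', ht', h2⟩ := mem_iUnion₂.1 hy
    obtain ⟨σ, hσ, rfl⟩ := (fib_unique (h99_levi_maps hval (hok t ht) h1)).1
      (h ▸ h99_levi_maps hval (hok t' ht') h2)
    exact Subtype.ext (h99_levi_inj hsub hval hgen (hok _ ht')
      ((fib_unique h1).2 ⟨σ, fun a => Prod.ext (hσ a) (hW σ hσ t ht ht' a), rfl⟩) h2 h)
  obtain ⟨t, ht, hx⟩ := mem_iUnion₂.1 x.2
  let Z := {q : (I → ℂ) × Pt (Lev nd ar fr g) // q.1 ∈ Ω ∧ q.2 ∈ Fib (Lev nd ar fr g) q.1}
  let ψ : Z → (I → ℂ) × Pt (Cou nd ar fr) := fun q => (q.1.1, e q.1.2)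
  let ρ : Z → FibS (Lev nd ar fr g) Ω := fun q => ⟨q.1.2, mem_biUnion q.2.1 q.2.2⟩
  have h1 : Tendsto ρ (comap ψ (𝓝 (t, e x))) (𝓝 x) := by
    rw [tendsto_subtype_rng, nhds_induced, tendsto_comap_iff, tendsto_pi_nhds]
    intro b
    obtain ⟨N, r, p, a, h⟩ := h99_gen hsub hval hgen b
    have h2 : ContinuousAt (fun q : (I → ℂ) × Pt (Cou nd ar fr) =>
        (∑ k, eval q.1 (p k) * q.2 (a k)) / eval q.1 (dlt g) ^ N) (t, e x) :=
      (continuous_finsetSum _ fun k _ => ((continuous_eval _).comp continuous_fst).mul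
        ((h99_cont _).comp continuous_snd)).continuousAt.div
        (((continuous_eval _).comp continuous_fst).pow N).continuousAt
        (pow_ne_zero _ (h99_dlt_ne (hok t ht)))
    have h3 := h2.tendsto.comp (tendsto_comap (f := ψ))
    simp only [h t (hok t ht) x hx] at h3
    refine h3.congr fun q => ?_
    exact h q.1.1 (hok _ q.2.1) q.1.2 q.2.2
  intro S hS
  obtain ⟨W, hW, h2⟩ := mem_comap.1 (h1 hS)
  obtain ⟨U, hU, V, hV, h3⟩ := mem_nhds_prod_iff.1 hW
  filter_upwards [hV, fib_near (h99_levi_maps hval (hok t ht) hx)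
    (inter_mem hU (hΩ.mem_nhds ht))] with y h4 h5
  obtain ⟨t', ht', h5⟩ := mem_iUnion₂.1 h5
  obtain ⟨x', h6, rfl⟩ := hsur t' (hok t' ht'.2) h5
  exact h2 (a := ⟨(t', x'), ht'.2, h6⟩) (h3 ⟨ht'.1, h4⟩)

end C73
end
end

section
/-! Block A3, part of helper99: points extend to the Levi theory. -/

open Set Filter Topology TopologicalSpace MvPolynomial TensorProduct

noncomputable section
namespace C73

theorem h99_lift {U L : Type} [CommRing U] [Algebra ℂ U] [CommRing L] [Algebra ℂ L] (Φ : U →ₐ[ℂ] L)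
    (Ψ : U →ₐ[ℂ] ℂ) (h : ∀ u, Φ u = 0 → Ψ u = 0) :
    ∃ Y : Pt Φ.range, ∀ u, Y (Φ.rangeRestrict u) = Ψ u :=
  ⟨AlgHom.liftOfSurjective _ Φ.rangeRestrict_surjective Ψ fun u hu => h u (congrArg Subtype.val hu),
    fun _ => AlgHom.liftOfSurjective_apply _ _ _ _ _⟩

variable {I ι : Type} [Fintype I] [DecidableEq I] {nd : I → ι} {ar : ι → ι → ℕ} {fr : ι → ℕ}
  {g t : I → ℂ}

omit [DecidableEq I] in
theorem h99_eta (nd : I → ι) (ht : Ok g t) : ∃ η : PP I,
    (∀ σ, InW (fun a => (nd a, g a)) σ → rename σ η = η) ∧ eval t η ≠ 0 ∧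
    ∀ σ, InW nd σ → ¬ InW (fun a => (nd a, g a)) σ → eval t (rename σ η) = 0 := by
  classical
  refine ⟨∏ b, ∏ a with g a ≠ g b, (X b - C (t a)), fun σ hσ => ?_, ?_, fun σ hσ h => ?_⟩
  · simp only [map_prod, map_sub, rename_X, rename_C]
    refine Fintype.prod_equiv σ _ _ fun b => ?_
    rw [show g (σ b) = g b from congrArg Prod.snd (hσ b)]
  · simp only [map_prod, map_sub, eval_X, eval_C]
    exact Finset.prod_ne_zero_iff.2 fun b _ => Finset.prod_ne_zero_iff.2 fun a ha =>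
      sub_ne_zero.2 (ht.1 _ _ (Finset.mem_filter.1 ha).2).symm
  · obtain ⟨b, hb⟩ := not_forall.1 h
    simp only [map_prod, map_sub, rename_X, rename_C, eval_X, eval_C]
    exact Finset.prod_eq_zero (Finset.mem_univ b) (Finset.prod_eq_zero (i := σ b)
      (Finset.mem_filter.2 ⟨by simp only [Finset.mem_univ], fun h' => hb (Prod.ext (hσ b) h')⟩) (sub_self _))

theorem h99_levi_sur
    (hgen : ∀ b : Lev nd ar fr g, ∃ (N n : ℕ) (p : Fin n → PP I) (a : Fin n → Cou nd ar fr),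
      (∀ k σ, InW (fun a => (nd a, g a)) σ → rename σ (p k) = p k) ∧
        pL (dlt g ^ N) * (b : LL I) = ∑ k, pL (p k) * (a k : LL I)) :
    ∀ t, Ok g t → ∀ y ∈ Fib (Cou nd ar fr) t, ∃ x ∈ Fib (Lev nd ar fr g) t,
      ∀ (a : Cou nd ar fr) (b : Lev nd ar fr g) (N : ℕ),
      (b : LL I) = pL (dlt g ^ N) * a → x b = MvPolynomial.eval t (dlt g) ^ N * y a := by
  classical
  intro t ht y hy
  obtain ⟨η, η1, η2, η3⟩ := h99_eta nd ht
  let R := (Lev nd ar fr g).comap h99p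
  have hR : ∀ p, (∀ σ, InW (fun a => (nd a, g a)) σ → rename σ p = p) → p ∈ R :=
    fun p hp => show h99p p ∈ _ from h99p_eq p ▸ h99_lev_mem hp
  let Φ : R ⊗[ℂ] Cou nd ar fr →ₐ[ℂ] LL I :=
    Algebra.TensorProduct.productMap (h99p.comp R.val) (Cou nd ar fr).val
  let Ψ : R ⊗[ℂ] Cou nd ar fr →ₐ[ℂ] ℂ := Algebra.TensorProduct.productMap ((aeval t).comp R.val) y
  have Φ1 : ∀ (p : R) (a : Cou nd ar fr), Φ (p ⊗ₜ a) = pL p.1 * a := fun p a => by
    rw [h99p_eq]; rfl
  have Ψ1 : ∀ (p : R) (a : Cou nd ar fr), Ψ (p ⊗ₜ a) = eval t p.1 * y a := fun p a => rfl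
  let W := Finset.univ.filter (InW nd)
  let W' := W.filter (InW fun a => (nd a, g a))
  have act : ∀ σ p, actL σ (pL p : LL I) = pL (rename σ p) := fun σ p => by
    rw [pL, actL_single, actK_poly]; rfl
  have key : ∀ u, ∃ a : Cou nd ar fr, (a : LL I) = ∑ σ ∈ W, actL σ (pL η * Φ u) ∧
      y a = (W'.card * eval t η) * Ψ u := by
    intro u
    induction u using TensorProduct.induction_on with
    | zero => exact ⟨0, by simp, by simp only [map_zero, mul_zero]⟩
    | add u v hu hv =>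
      obtain ⟨a, h1, h2⟩ := hu
      obtain ⟨b, h3, h4⟩ := hv
      exact ⟨a + b, by simp [h1, h3, mul_add, Finset.sum_add_distrib], by simp only [map_add, h2, h4, mul_add]⟩
    | tmul p a =>
      have hp : ∀ σ, InW (fun a => (nd a, g a)) σ → rename σ p.1 = p :=
        fun σ hσ => pL_inv (h99p_eq p.1 ▸ p.2 : pL p.1 ∈ Lev nd ar fr g) hσ
      have h1 : pL (∑ σ ∈ W, rename σ (η * p.1)) ∈ Cou nd ar fr := pL_mem fun τ hτ => by
        rw [map_sum]
        refine Finset.sum_equiv (Equiv.mulLeft τ) (fun σ => ?_) fun σ _ => by rw [rename_rename]; rfl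
        simp only [W, Finset.mem_filter, Finset.mem_univ, true_and]
        exact forall_congr' fun c => by rw [← hτ (σ c)]; rfl
      refine ⟨⟨_, h1⟩ * a, ?_, ?_⟩
      · change pL _ * _ = _
        rw [h99p_eq, map_sum, Finset.sum_mul]
        refine Finset.sum_congr rfl fun σ hσ => ?_
        rw [Φ1, ← mul_assoc, map_mul (actL σ), cou_inv a.2 (Finset.mem_filter.1 hσ).2, h99p_eq η, h99p_eq p.1,
          ← map_mul, ← h99p_eq, ← h99p_eq, act]
      · rw [map_mul, hy _ ⟨_, h1⟩ rfl, Ψ1, ← mul_assoc, map_sum, mul_assoc _ (eval t η),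
          ← Finset.sum_filter_of_ne (p := InW fun a => (nd a, g a)) fun σ hσ h => by_contra fun h' =>
            h (by rw [map_mul, map_mul, η3 σ (Finset.mem_filter.1 hσ).2 h', zero_mul]),
          Finset.sum_congr rfl fun σ hσ => by
            rw [map_mul, η1 σ (Finset.mem_filter.1 hσ).2, hp σ (Finset.mem_filter.1 hσ).2]]
        simp [W']
  have hc : (W'.card * eval t η : ℂ) ≠ 0 := mul_ne_zero (Nat.cast_ne_zero.2 (Finset.card_ne_zero.2
    ⟨1, Finset.mem_filter.2 ⟨Finset.mem_filter.2 ⟨by simp, fun _ => rfl⟩, fun _ => rfl⟩⟩)) η2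
  have hk : ∀ u, Φ u = 0 → Ψ u = 0 := fun u h3 => by
    obtain ⟨a, h1, h2⟩ := key u
    have h4 : a = 0 := Subtype.ext (by simp only [h1, h3, mul_zero, map_zero, Finset.sum_const_zero, ZeroMemClass.coe_zero])
    rw [h4, map_zero] at h2
    exact (mul_eq_zero.1 h2.symm).resolve_left hc
  obtain ⟨Y, hY⟩ := h99_lift (U := R ⊗[ℂ] Cou nd ar fr) Φ Ψ hk
  let D := Φ.rangeRestrict (⟨_, hR _ h99_dlt_inv⟩ ⊗ₜ 1)
  have hD : (D : LL I) = h99p (dlt g) := mul_one _
  obtain ⟨X, hX⟩ := h99T_ext D Y (by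
    rw [hY, Ψ1, map_one, mul_one]; exact h99_dlt_ne ht)
  have hle : Lev nd ar fr g ≤ h99T _ D := fun b hb => by
    obtain ⟨N, n, p, a, hp, h⟩ := hgen ⟨b, hb⟩
    refine ⟨N, ∑ k, ⟨_, hR _ (hp k)⟩ ⊗ₜ a k, ?_⟩
    rw [hD, ← map_pow, ← h99p_eq, h]
    exact (map_sum Φ _ _).trans (Finset.sum_congr rfl fun k _ => Φ1 _ _)
  have h1 : ∀ (p : R) (a : Cou nd ar fr) (b : Lev nd ar fr g), (b : LL I) = pL p.1 * a →
      X ⟨b, hle b.2⟩ = eval t p.1 * y a := fun p a b h => by
    rw [← Ψ1, ← hY, ← hX]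
    exact congrArg X (Subtype.ext (h.trans (Φ1 p a).symm))
  refine ⟨AlgHom.comp X (Subalgebra.inclusion hle), fun p b h => ?_, fun a b N h => ?_⟩
  · exact (h1 ⟨p, show h99p p ∈ _ from h99p_eq p ▸ h ▸ b.2⟩ 1 b (by simpa using h)).trans (by simp only [map_one, mul_one])
  · rw [← map_pow]
    exact h1 ⟨_, hR _ fun σ hσ => by rw [map_pow, h99_dlt_inv σ hσ]⟩ a b h

end C73
end
end

section
/-! Block A3, part of helper99: comparison of the two algebras after inverting `dlt g`. -/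

open Set Filter Topology TopologicalSpace MvPolynomial TensorProduct

noncomputable section
namespace C73

variable {I ι : Type} [Fintype I] [DecidableEq I] {nd : I → ι} {ar : ι → ι → ℕ} {fr : ι → ℕ}
  {g : I → ℂ}

/-- `x` and `y` differ by a unit of `P[1 / dlt g]` -/
def h99r (g : I → ℂ) (x y : KK I) : Prop :=
  ∃ (N : ℕ) (p q : PP I), p * q = dlt g ^ N ∧ ∃ r s : PP I, r * s = dlt g ^ N ∧
    algebraMap (PP I) (KK I) p * x = algebraMap (PP I) (KK I) r * y

omit [DecidableEq I] in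
theorem h99r_refl (x : KK I) : h99r g x x := ⟨0, 1, 1, by simp, 1, 1, by simp, rfl⟩

omit [DecidableEq I] in
theorem h99r_symm {x y : KK I} (h : h99r g x y) : h99r g y x :=
  let ⟨N, p, q, h1, r, s, h2, h3⟩ := h; ⟨N, r, s, h2, p, q, h1, h3.symm⟩

omit [DecidableEq I] in
theorem h99r_mul {x y x' y' : KK I} (h : h99r g x y) (h' : h99r g x' y') :
    h99r g (x * x') (y * y') := by
  obtain ⟨N, p, q, h1, r, s, h2, h3⟩ := h
  obtain ⟨N', p', q', h1', r', s', h2', h3'⟩ := h'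
  refine ⟨N + N', p * p', q * q', by rw [pow_add, ← h1, ← h1']; ring, r * r', s * s',
    by rw [pow_add, ← h2, ← h2']; ring, ?_⟩
  rw [map_mul, map_mul, mul_mul_mul_comm, h3, h3', mul_mul_mul_comm]

omit [DecidableEq I] in
theorem h99_dlt_ne0 : dlt g ≠ 0 := fun h =>
  h99_dlt_ne (g := g) (t := g) ⟨fun _ _ h => h, fun _ h => h⟩ (by rw [h, map_zero])

omit [DecidableEq I] in
theorem h99r_inv {x y : KK I} (h : h99r g x y) : h99r g x⁻¹ y⁻¹ := by
  obtain ⟨N, p, q, h1, r, s, h2, h3⟩ := h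
  have h0 : ∀ p q : PP I, p * q = dlt g ^ N → algebraMap (PP I) (KK I) p ≠ 0 := fun p q h h' =>
    pow_ne_zero N h99_dlt_ne0 (by rw [← h, (IsFractionRing.to_map_eq_zero_iff).1 h', zero_mul])
  refine ⟨N, r, s, h2, p, q, h1, ?_⟩
  have h4 := congrArg (·⁻¹) h3
  have h5 := h0 p q h1
  have h6 := h0 r s h2
  simp only [mul_inv] at h4
  field_simp at h4 ⊢
  linear_combination h4

omit [DecidableEq I] in
theorem h99r_prod {κ : Type} (s : Finset κ) {x y : κ → KK I} (h : ∀ i, h99r g (x i) (y i)) :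
    h99r g (∏ i ∈ s, x i) (∏ i ∈ s, y i) :=
  Finset.prod_hom_rel (r := h99r g) (h99r_refl 1) fun i _ _ h' => h99r_mul (h i) h'

omit [DecidableEq I] in
theorem h99r_lin {p : PP I} (h : p ∣ dlt g) (k : ℕ) : h99r g (algebraMap (PP I) (KK I) p ^ k) 1 :=
  let ⟨q, hq⟩ := h
  ⟨k, 1, _, one_mul _, p ^ k, q ^ k, by rw [hq, mul_pow], by simp only [map_one, one_mul, map_pow, mul_one]⟩

omit [DecidableEq I] in
theorem h99r_sub {a b : I} (h : g a ≠ g b) (k : ℕ) : h99r g ((ww a - ww b) ^ k) 1 := by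
  rw [ww, ww, ← map_sub]
  refine h99r_lin (Dvd.dvd.mul_right ?_ _) k
  refine dvd_trans ?_ (Finset.dvd_prod_of_mem _ (Finset.mem_univ a))
  exact Finset.dvd_prod_of_mem (fun b => (X a - X b : PP I)) (by simpa only [ne_eq, Finset.mem_filter, Finset.mem_univ, true_and] using h)

omit [DecidableEq I] in
open Classical in
theorem h99r_EE (l : I → ℤ) : h99r g (EE nd ar fr l) (EE (fun a => (nd a, g a))
    (fun x y => if x.2 = y.2 then ar x.1 y.1 else 0) (fun x => if x.2 = 0 then fr x.1 else 0) l) := by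
  simp only [EE, div_eq_mul_inv, Finset.prod_filter]
  refine h99r_mul (h99r_mul (h99r_prod _ fun a => h99r_prod _ fun b => ?_) (h99r_prod _ fun a => ?_))
    (h99r_inv (h99r_prod _ fun a => h99r_prod _ fun b => ?_))
  · split_ifs with h
    · exact h99r_refl _
    · simpa using h99r_sub (Ne.symm h) _
  · split_ifs with h
    · exact h99r_refl _
    · simpa only [ww, zero_mul, pow_zero] using h99r_lin ((Finset.dvd_prod_of_mem (fun a => (X a : PP I))
        (Finset.mem_filter.2 ⟨Finset.mem_univ a, h⟩)).mul_left _) _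
  · by_cases h : g a = g b
    · simp only [Prod.mk.injEq, h, and_true]
      exact h99r_refl _
    · simp only [Prod.mk.injEq, h, and_false, if_false]
      split_ifs
      exacts [h99r_sub h _, h99r_refl _]

omit [DecidableEq I] in
theorem h99r_out {x y : KK I} (h : h99r g x y) : ∃ (N : ℕ) (p : PP I),
    algebraMap (PP I) (KK I) (dlt g ^ N) * x = algebraMap (PP I) (KK I) p * y :=
  let ⟨N, p, q, h1, r, _, _, h3⟩ := h
  ⟨N, q * r, by rw [← h1, mul_comm p, map_mul, map_mul, mul_assoc, h3, mul_assoc]⟩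

theorem h99_act (σ : Equiv.Perm I) (p : PP I) : actL σ (pL p : LL I) = pL (rename σ p) := by
  rw [pL, actL_single, actK_poly]; rfl

omit [Fintype I] [DecidableEq I] in
theorem h99_single (h : PP I) (l : I → ℤ) (c : KK I) : pL h * AddMonoidAlgebra.single l c =
    AddMonoidAlgebra.single l (algebraMap (PP I) (KK I) h * c) := by
  rw [pL, AddMonoidAlgebra.single_mul_single, zero_add]

theorem h99_levi_sub (a : Cou nd ar fr) :
    ∃ (N : ℕ) (b : Lev nd ar fr g), (b : LL I) = pL (dlt g ^ N) * a := by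
  classical
  have key : Cou nd ar fr ≤ h99T _ (h99D nd ar fr g) := Algebra.adjoin_le <| by
    rintro _ ⟨l, f, hl, rfl⟩
    let W := Finset.univ.filter (InW nd)
    let W' := Finset.univ.filter (InW fun a => (nd a, g a))
    have hc : (W'.card : ℂ) ≠ 0 := Nat.cast_ne_zero.2 (Finset.card_ne_zero.2
      ⟨1, Finset.mem_filter.2 ⟨by simp, fun _ => rfl⟩⟩)
    have h0 : ∀ τ ∈ W', InW nd τ := fun τ hτ a => congrArg Prod.fst ((Finset.mem_filter.1 hτ).2 a)
    have h1 : mono nd ar fr l f = (W'.card : ℂ)⁻¹ • ∑ τ ∈ W', actL τ (mono nd ar fr l f) := by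
      rw [Finset.sum_congr rfl fun τ hτ => cou_inv (mono_mem hl f) (h0 τ hτ), Finset.sum_const,
        ← Nat.cast_smul_eq_nsmul ℂ, inv_smul_smul₀ hc]
    rw [h1, mono_eq]
    simp only [map_sum]
    rw [Finset.sum_comm]
    refine Subalgebra.smul_mem _ (Subalgebra.sum_mem _ fun σ hσ => ?_) _
    obtain ⟨N, p, h⟩ := h99r_out (h99r_EE (nd := nd) (ar := ar) (fr := fr) (g := g) (l ∘ σ.symm))
    refine ⟨N, ?_⟩
    refine Eq.subst (motive := (· ∈ Lev nd ar fr g)) (Eq.symm ?_)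
      (mono_mem (l := l ∘ σ.symm) (hl.imp (fun h a => h (σ.symm a)) fun h a => h (σ.symm a))
        (rename σ f * p))
    rw [mono_eq, Finset.mul_sum]
    refine Finset.sum_congr (by congr) fun τ hτ => ?_
    rw [actL_single σ, map_mul (actK σ), actK_poly, actK_EE (Finset.mem_filter.1 hσ).2, map_mul,
      mul_assoc, ← h, mul_left_comm, ← h99_single (dlt g ^ N), map_mul (actL τ), h99_act, map_pow,
      h99_dlt_inv τ (by simpa using hτ), h99p_eq, map_pow, ← h99p_eq]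
    rfl
  obtain ⟨N, h⟩ := key a.2
  exact ⟨N, ⟨_, h⟩, by rw [h99p_eq, map_pow, ← h99p_eq]; rfl⟩

theorem h99_levi_gen (b : Lev nd ar fr g) :
    ∃ (N n : ℕ) (p : Fin n → PP I) (a : Fin n → Cou nd ar fr),
      (∀ k σ, InW (fun a => (nd a, g a)) σ → rename σ (p k) = p k) ∧
        pL (dlt g ^ N) * (b : LL I) = ∑ k, pL (p k) * (a k : LL I) := by
  classical
  let R := (Lev nd ar fr g).comap h99p
  have hR : ∀ p, (∀ σ, InW (fun a => (nd a, g a)) σ → rename σ p = p) → p ∈ R :=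
    fun p hp => show h99p p ∈ _ from h99p_eq p ▸ h99_lev_mem hp
  let Φ : R ⊗[ℂ] Cou nd ar fr →ₐ[ℂ] LL I :=
    Algebra.TensorProduct.productMap (h99p.comp R.val) (Cou nd ar fr).val
  have Φ1 : ∀ (p : R) (a : Cou nd ar fr), Φ (p ⊗ₜ a) = pL p.1 * a := fun p a => by
    rw [h99p_eq]; rfl
  have hP : ∀ p, (∀ σ, InW (fun a => (nd a, g a)) σ → rename σ p = p) → pL p ∈ Φ.range :=
    fun p hp => ⟨⟨p, hR p hp⟩ ⊗ₜ 1, (Φ1 _ _).trans (mul_one _)⟩
  let W := Finset.univ.filter (InW nd)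
  have h2 : ∀ (l : I → ℤ) (_ : Minu l) (s : Finset I) (f : PP I),
      ∑ σ ∈ W, pL (∏ b ∈ s, ∏ a with g a ≠ g b, (X a - X (σ b))) *
        actL σ (AddMonoidAlgebra.single l (algebraMap (PP I) (KK I) f * EE nd ar fr l)) ∈ Φ.range := by
    intro l hl s
    induction s using Finset.induction_on with
    | empty =>
      intro f
      refine ⟨1 ⊗ₜ ⟨_, mono_mem hl f⟩, (Φ1 _ _).trans ?_⟩
      simp only [mono_eq, h99p_eq, Finset.prod_empty, OneMemClass.coe_one, map_one, one_mul]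
      rfl
    | insert b s hb ih =>
      intro f
      let q : Polynomial (PP I) := ∏ a with g a ≠ g b, (Polynomial.C (X a) - Polynomial.X)
      have hq : ∀ i σ, InW (fun a => (nd a, g a)) σ → rename σ (q.coeff i) = q.coeff i := by
        intro i σ hσ
        have h : ∀ a, g (σ a) = g a := fun a => congrArg Prod.snd (hσ a)
        have : q.map (rename σ : PP I →ₐ[ℂ] PP I) = q := by
          simp only [q, Polynomial.map_prod, Polynomial.map_sub, Polynomial.map_C, Polynomial.map_X]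
          exact Finset.prod_equiv σ (fun a => by simp only [ne_eq, Finset.mem_filter, Finset.mem_univ, true_and, h]) fun a _ => by simp
        conv_rhs => rw [← this, Polynomial.coeff_map]
        rfl
      have h3 : ∀ σ : Equiv.Perm I, ∏ a with g a ≠ g b, (X a - X (σ b) : PP I) =
          ∑ i ∈ Finset.range (q.natDegree + 1), q.coeff i * rename σ (X b ^ i) := fun σ => by
        simp only [map_pow, rename_X]
        rw [← Polynomial.eval_eq_sum_range]
        simp only [ne_eq, q, Polynomial.eval_prod, Polynomial.eval_sub, Polynomial.eval_C, Polynomial.eval_X]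
      have h4 := Subalgebra.sum_mem _ fun i (_ : i ∈ Finset.range (q.natDegree + 1)) =>
        mul_mem (hP _ (hq i)) (ih (X b ^ i * f))
      simp only [Finset.mul_sum] at h4
      rw [Finset.sum_comm] at h4
      refine Eq.subst (motive := (· ∈ Φ.range)) (Finset.sum_congr rfl fun σ _ => ?_) h4
      rw [Finset.prod_insert hb, h3, Finset.sum_mul, h99p_eq (∑ _ ∈ _, _), map_sum, Finset.sum_mul]
      refine Finset.sum_congr rfl fun i _ => ?_
      rw [map_mul (algebraMap (PP I) (KK I)), mul_assoc, ← h99_single, map_mul (actL σ), h99_act]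
      simp only [h99p_eq, map_mul]
      ring
  let D : Φ.range := ⟨_, hP _ h99_dlt_inv⟩
  have key : Lev nd ar fr g ≤ h99T _ D := Algebra.adjoin_le <| by
    rintro _ ⟨l, f, hl, rfl⟩
    obtain ⟨N, p, h⟩ := h99r_out (h99r_symm (h99r_EE (nd := nd) (ar := ar) (fr := fr) (g := g) l))
    have h5 := mul_mem (hP (∏ a with g a ≠ 0, X a) fun σ hσ => by
      simp only [map_prod, rename_X]
      exact Finset.prod_equiv σ (fun a => by simp only [ne_eq, Finset.mem_filter, Finset.mem_univ, true_and, show g (σ a) = g a from congrArg Prod.snd (hσ a)])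
        fun a _ => rfl) (h2 l hl Finset.univ (f * p))
    refine ⟨N + 1, Eq.subst (motive := (· ∈ Φ.range)) ?_ h5⟩
    rw [mono_eq, Finset.mul_sum, Finset.mul_sum]
    refine (Finset.sum_subset (fun σ hσ => ?_) fun σ hσ h' => ?_).symm.trans
      (Finset.sum_congr rfl fun σ hσ => ?_)
    · exact Finset.mem_filter.2 ⟨by simp, fun a => congrArg Prod.fst ((Finset.mem_filter.1 hσ).2 a)⟩
    · obtain ⟨b, hb⟩ := not_forall.1 fun h => h' (Finset.mem_filter.2 ⟨by simp, h⟩)
      rw [Finset.prod_eq_zero (Finset.mem_univ b) (Finset.prod_eq_zero (i := σ b)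
        (Finset.mem_filter.2 ⟨by simp only [Finset.mem_univ], fun h' => hb (Prod.ext ((Finset.mem_filter.1 hσ).2 b) h')⟩)
        (sub_self _)), h99p_eq 0, map_zero, zero_mul, mul_zero]
    · have hσ' := (Finset.mem_filter.1 hσ).2
      have h6 : (∏ a with g a ≠ 0, X a) * ∏ b, ∏ a with g a ≠ g b, (X a - X (σ b) : PP I) = dlt g := by
        rw [mul_comm, dlt]
        congr 1
        · refine (Fintype.prod_equiv σ _ (fun b => ∏ a with g a ≠ g b, (X a - X b : PP I)) fun b => by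
            rw [show g (σ b) = g b from congrArg Prod.snd (hσ' b)]).trans ?_
          simp only [Finset.prod_filter]
          exact Finset.prod_comm
      rw [← mul_assoc, h99p_eq (∏ _ ∈ _, _), h99p_eq (∏ _ ∈ _, _), ← map_mul, h6, ← h99p_eq,
        map_mul (algebraMap (PP I) (KK I)), mul_assoc, ← h, mul_left_comm (algebraMap _ _ f), ← h99_single (dlt g ^ N), map_mul (actL σ), h99_act, map_pow,
        h99_dlt_inv σ hσ', h99p_eq (_ ^ N), map_pow, ← h99p_eq, ← mul_assoc, ← pow_succ']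
  obtain ⟨N, u, hu⟩ := key b.2
  obtain ⟨S, rfl⟩ := TensorProduct.exists_finset u
  refine ⟨N, S.card, fun k => (S.equivFin.symm k).1.1, fun k => (S.equivFin.symm k).1.2,
    fun k σ hσ => pL_inv (h99p_eq (S.equivFin.symm k).1.1.1 ▸ (S.equivFin.symm k).1.1.2 :
      pL _ ∈ Lev nd ar fr g) hσ, ?_⟩
  rw [h99p_eq, map_pow, ← h99p_eq]
  refine hu.symm.trans ((map_sum Φ _ _).trans ?_)
  rw [← S.sum_coe_sort, ← S.equivFin.symm.sum_comp]
  exact Finset.sum_congr rfl fun k _ => Φ1 _ _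

end C73
end
end

end
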