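import Pool.Agent.MP_94fa45_ag.Mg.C73_AK
import Pool.Agent.MP_94fa45_ag.Mg.C73_AL

attribute [-instance] AlgEquiv.instCoeOutRingEquiv instCoeTCOfCoe SubringClass.toCommRing
  ContinuousSemilinearMapClass.toSemilinearMapClass Action.FintypeCat.instMulActionObjFiniteOf
  instSMulZeroClass Algebra.Generators.instRing SemilinearMapClass.distribMulActionSemiHomClass
  SubringClass.toRing LieAdmissibleAlgebra.toModule RightPreLieAlgebra.toModule
  AddCommGroup.toAddGroup LeftPreLieAlgebra.toModule CoalgHomClass.toSemilinearMapClass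
  LieAlgebra.toModule RKHS.instFunLike MonTypeEquivalenceMon.monMonoid
  instNonUnitalAlgHomClassOfNonUnitalAlgEquivClass NormedSpace.toModule BialgHomClass.toAlgHomClass
  MulZeroClass.negZeroClass NonUnitalNonAssocRing.toAddCommGroup IsAffineAddMonoid.toIsCancelAdd
  AddSubgroupClass.toAddGroup SemilinearIsometryClass.toSemilinearMapClass instIsFractionRing
  Subalgebra.toRing CommMonTypeEquivalenceCommMon.commMonCommMonoid
  Complex.instDistribMulActionOfReal Nontrivial.to_nonempty AddSubgroupClass.toAddCommGroup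
  ContinuousMonoidHom.instCoeOutOfMonoidHomClassOfContinuousMapClass
  OreLocalization.instAddGroupOreLocalization Algebra.Generators.instIsScalarTowerRing
  BialgHomClass.toMonoidHomClass littleWedderburn RingHomClass.toLinearMapClassRat
  NonUnitalAlgHomClass.toNonUnitalRingHomClass OreLocalization.instAddMonoid
  AddMonoidAlgebra.nonAssocRing TestFunctionClass.toDFunLike Zero.instNonempty
  ContDiffMapSupportedInClass.toDFunLike ValuationClass.toMonoidWithZeroHomClass bot_nonempty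
  Subsingleton.to_isCancelMulZero Nat.instAtLeastTwoHAddOfNat AlgHomClass.linearMapClass
  Algebra.FiniteType.instMvPolynomialOfFinite MulSemiringAction.toDistribMulAction
  RingHomInvPair.triples₂ AddGroupConeClass.toAddSubmonoidClass AddTorsor.nonempty instCoeTOfCoeDep
  Valued.toUniformSpace One.instNonempty IsometryClass.instCoeOutIsometryEquiv
  NonarchimedeanRing.toIsTopologicalRing
  NonUnitalAlgHomClass.instSemilinearMapClassOfNonUnitalAlgSemiHomClassToMonoidHomRingHom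
  MulCharClass.toMonoidHomClass HomeomorphClass.instCoeOutHomeomorph FractionRing.instIsScalarTower
  MulSemiringAction.toMulDistribMulAction Localization.partialOrder MonoidHomClass.toMulHomClass
  RingHomInvPair.triples instCoeTCOfCoe_1 CentroidHomClass.toAddMonoidHomClass
  MulDistribMulActionSemiHomClass.toMonoidHomClass instCoeHTCT CoheytingAlgebra.toOrderTop
  ContinuousAddMonoidHom.instCoeOutOfAddMonoidHomClassOfContinuousMapClass

/-! Levi theories, part 2. -/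

section
/-! Block A3, part 0: definitions and basic lemmas. -/

open Set Filter Topology TopologicalSpace

noncomputable section
namespace C73

variable {I ι : Type} [Fintype I] [DecidableEq I] {nd : I → ι} {ar : ι → ι → ℕ} {fr : ι → ℕ}

open Classical in
theorem lev_loop (har : ∀ j, ar j j = 0) (x : ι × ℂ) :
    (fun x y : ι × ℂ => if x.2 = y.2 then ar x.1 y.1 else 0) x x = 0 := by simp [har]
/-- domain of the Levi map -/
def LevDom (nd : I → ι) (ar : ι → ι → ℕ) (fr : ι → ℕ) (g : I → ℂ) : Set (Pt (Lev nd ar fr g)) :=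
  FibS (Lev nd ar fr g) {t | Ok g t}
/-- properties of the Levi map -/
structure IsLevi (nd : I → ι) (ar : ι → ι → ℕ) (fr : ι → ℕ) (g : I → ℂ)
    (e : Pt (Lev nd ar fr g) → Pt (Cou nd ar fr)) : Prop where
  cont : ContinuousOn e (LevDom nd ar fr g)
  /-- every element of `Cou` becomes an element of `Lev` after multiplication by a power of `dlt` -/
  sub : ∀ a : Cou nd ar fr, ∃ (N : ℕ) (b : Lev nd ar fr g), (b : LL I) = pL (dlt g ^ N) * a
  val : ∀ t, Ok g t → ∀ x ∈ Fib (Lev nd ar fr g) t, ∀ (a : Cou nd ar fr) (b : Lev nd ar fr g) (N : ℕ),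
    (b : LL I) = pL (dlt g ^ N) * a → x b = MvPolynomial.eval t (dlt g) ^ N * e x a
  bij : ∀ t, Ok g t → BijOn e (Fib (Lev nd ar fr g) t) (Fib (Cou nd ar fr) t)
  emb : ∀ Ω : Set (I → ℂ), IsOpen Ω → (∀ t ∈ Ω, Ok g t) →
    (∀ σ, InW nd σ → ∀ t ∈ Ω, t ∘ σ ∈ Ω → InW g σ) →
    IsOpenEmbedding ((FibS (Lev nd ar fr g) Ω).domRestrict e)
  rk : ∀ x ∈ LevDom nd ar fr g, rk (brA (Cou nd ar fr)) (e x) = rk (brA (Lev nd ar fr g)) x
  pos : ∀ m : I → ℤ, (∀ a b, nd a = nd b → m a = m b) → ∀ x ∈ LevDom nd ar fr g,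
    (e x ∈ PosG (grC (Cou nd ar fr) m) ↔ x ∈ PosG (grC (Lev nd ar fr g) m)) ∧
    (e x ∈ NegG (grC (Cou nd ar fr) m) ↔ x ∈ NegG (grC (Lev nd ar fr g) m))
  same : ∀ m : I → ℤ, (∀ a b, nd a = nd b → m a = m b) → ∀ t, Ok g t →
    ∀ x ∈ Fib (Lev nd ar fr g) t, ∀ y ∈ Fib (Lev nd ar fr g) t,
    (Same0 (grC (Cou nd ar fr) m) (e x) (e y) ↔ Same0 (grC (Lev nd ar fr g) m) x y)
/-- the slice `w_a = 0`, `u_a = 1` for `g a ≠ 0` -/
def LevY (nd : I → ι) (ar : ι → ι → ℕ) (fr : ι → ℕ) (g : I → ℂ) : Set (Pt (Lev nd ar fr g)) :=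
  {x | ∀ a, g a ≠ 0 → ∀ b : Lev nd ar fr g,
    ((b : LL I) = pL (MvPolynomial.X a) → x b = 0) ∧ ((b : LL I) = uL' (Pi.single a 1) → x b = 1)}
open Classical in
/-- product structure when `g` is injective on its support `J = {g ≠ 0}` -/
structure IsFree (nd : I → ι) (ar : ι → ι → ℕ) (fr : ι → ℕ) (g : I → ℂ)
    (Θ : LevY nd ar fr g × (({a // g a ≠ 0} → ℂ) × ({a // g a ≠ 0} → ℂˣ)) ≃ₜ Pt (Lev nd ar fr g)) :
    Prop where
  mem : ∀ a, g a ≠ 0 → pL (MvPolynomial.X a) ∈ Lev nd ar fr g ∧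
    uL' (Pi.single a 1) ∈ Lev nd ar fr g ∧ uL' (Pi.single a (-1)) ∈ Lev nd ar fr g
  fib : ∀ (y : LevY nd ar fr g) ζ u t, y.1 ∈ Fib (Lev nd ar fr g) t → Θ (y, ζ, u) ∈
    Fib (Lev nd ar fr g) (fun a => if h : g a ≠ 0 then ζ ⟨a, h⟩ else t a)
  uval : ∀ y ζ u (a : {a // g a ≠ 0}) (b : Lev nd ar fr g), (b : LL I) = uL' (Pi.single a.1 1) →
    Θ (y, ζ, u) b = u a
  /-- on monopoles whose polynomial does not involve the free variables -/
  mono : ∀ (y : LevY nd ar fr g) ζ u l (_ : Minu l) (f : PP I) (b : Lev nd ar fr g), (∀ a, g a ≠ 0 → l a = 0) →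
    (∀ a ∈ f.vars, g a = 0) →
    (b : LL I) = C73.mono (fun a => (nd a, g a)) (fun x y => if x.2 = y.2 then ar x.1 y.1 else 0)
      (fun x => if x.2 = 0 then fr x.1 else 0) l f → Θ (y, ζ, u) b = y.1 b
  /-- every element is a Laurent polynomial in the free variables over the others -/
  gen : Algebra.adjoin ℂ ({b : Lev nd ar fr g | ∃ a, g a ≠ 0 ∧ ((b : LL I) = pL (MvPolynomial.X a) ∨
      (b : LL I) = uL' (Pi.single a 1) ∨ (b : LL I) = uL' (Pi.single a (-1)))} ∪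
    {b | ∃ l f, Minu l ∧ (∀ a, g a ≠ 0 → l a = 0) ∧ (∀ a ∈ f.vars, g a = 0) ∧
      (b : LL I) = C73.mono (fun a => (nd a, g a)) (fun x y => if x.2 = y.2 then ar x.1 y.1 else 0)
        (fun x => if x.2 = 0 then fr x.1 else 0) l f}) = ⊤
  rk : ∀ (y : LevY nd ar fr g) q, rk (brA (Lev nd ar fr g)) (Θ (y, q)) = rk (brA (Lev nd ar fr g)) y.1
  pos : ∀ m : I → ℤ, (∀ a b, nd a = nd b → m a = m b) → ∀ (y : LevY nd ar fr g) q,
    (Θ (y, q) ∈ PosG (grC (Lev nd ar fr g) m) ↔ y.1 ∈ PosG (grC (Lev nd ar fr g) m)) ∧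
    (Θ (y, q) ∈ NegG (grC (Lev nd ar fr g) m) ↔ y.1 ∈ NegG (grC (Lev nd ar fr g) m))
  /-- equivariance: the first component only depends on the image point -/
  eqv : ∀ e, IsLevi nd ar fr g e → ∀ y y' q q' t (σ : Equiv.Perm I), InW nd σ →
    (∀ a, g (σ a) = 0 ↔ g a = 0) → Ok g t → Ok g (t ∘ σ) → Θ (y, q) ∈ Fib (Lev nd ar fr g) t →
    Θ (y', q') ∈ Fib (Lev nd ar fr g) (t ∘ σ) → e (Θ (y, q)) = e (Θ (y', q')) → y = y'

/-- nodes, arrows and framing of the Levi theory -/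
abbrev ndL (nd : I → ι) (g : I → ℂ) : I → ι × ℂ := fun a => (nd a, g a)
open Classical in
abbrev arL (ar : ι → ι → ℕ) : ι × ℂ → ι × ℂ → ℕ := fun x y => if x.2 = y.2 then ar x.1 y.1 else 0
open Classical in
abbrev frL (fr : ι → ℕ) : ι × ℂ → ℕ := fun x => if x.2 = 0 then fr x.1 else 0

theorem lev_eq (g : I → ℂ) : Lev nd ar fr g = Cou (ndL nd g) (arL ar) (frL fr) := rfl

theorem arL_loop (har : ∀ j, ar j j = 0) (x : ι × ℂ) : arL ar x x = 0 := lev_loop har x

omit [Fintype I] [DecidableEq I] in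
theorem inW_ndL {g : I → ℂ} {σ : Equiv.Perm I} : InW (ndL nd g) σ ↔ InW nd σ ∧ InW g σ := by
  simp only [InW, Prod.mk.injEq, forall_and]

omit [Fintype I] [DecidableEq I] in
theorem il_inW_one {κ : Type} (β : I → κ) : InW β 1 := fun _ => rfl

omit [Fintype I] [DecidableEq I] in
theorem il_inW_mul {κ : Type} {β : I → κ} {σ τ : Equiv.Perm I} (h : InW β σ) (h' : InW β τ) :
    InW β (σ * τ) := fun a => by rw [Equiv.Perm.mul_apply, h, h']

omit [Fintype I] [DecidableEq I] in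
theorem il_inW_inv {κ : Type} {β : I → κ} {σ : Equiv.Perm I} (h : InW β σ) : InW β σ⁻¹ := fun a => by
  rw [← h (σ⁻¹ a)]; simp

/-- `pL` as an algebra homomorphism -/
def pLh : PP I →ₐ[ℂ] LL I :=
  (IsScalarTower.toAlgHom ℂ (KK I) (LL I)).comp (IsScalarTower.toAlgHom ℂ (PP I) (KK I))

theorem pLh_apply (p : PP I) : pLh p = pL p := (pL_eq p).symm

theorem il_pL_mul (p q : PP I) : pL (p * q) = pL p * pL q := by
  simp only [← pLh_apply, map_mul]
theorem il_pL_add (p q : PP I) : pL (p + q) = pL p + pL q := by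
  simp only [← pLh_apply, map_add]
theorem il_pL_pow (p : PP I) (n : ℕ) : pL (p ^ n) = pL p ^ n := by
  simp only [← pLh_apply, map_pow]
theorem il_pL_one : pL (1 : PP I) = 1 := by
  simp only [← pLh_apply, map_one]
theorem il_pL_zero : pL (0 : PP I) = 0 := by
  simp only [← pLh_apply, map_zero]
theorem il_pL_smul (c : ℂ) (p : PP I) : pL (c • p) = c • pL p := by
  simp only [← pLh_apply, map_smul]
theorem il_pL_C (c : ℂ) : pL (MvPolynomial.C c : PP I) = algebraMap ℂ (LL I) c := by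
  rw [← pLh_apply, ← MvPolynomial.algebraMap_eq, AlgHom.commutes]
theorem il_pL_sum {κ : Type} (s : Finset κ) (p : κ → PP I) : pL (∑ k ∈ s, p k) = ∑ k ∈ s, pL (p k) := by
  simp only [← pLh_apply, map_sum]

omit [Fintype I] [DecidableEq I] in
theorem il_pL_single (h : PP I) (l : I → ℤ) (c : KK I) :
    pL h * AddMonoidAlgebra.single l c =
      AddMonoidAlgebra.single l (algebraMap (PP I) (KK I) h * c) := by
  rw [pL, AddMonoidAlgebra.single_mul_single, zero_add]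

omit [Fintype I] [DecidableEq I] in
theorem il_pL_coeff (h : PP I) (x : LL I) (l : I → ℤ) :
    (pL h * x).coeff l = algebraMap (PP I) (KK I) h * x.coeff l := by
  rw [pL, AddMonoidAlgebra.coeff_single_zero_mul]

omit [Fintype I] [DecidableEq I] in
theorem il_uL_mul (l l' : I → ℤ) : uL' (l + l') = uL' l * uL' l' := by
  rw [uL', uL', uL', AddMonoidAlgebra.single_mul_single, mul_one]

omit [Fintype I] [DecidableEq I] in
theorem il_uL_zero : uL' (0 : I → ℤ) = 1 := rfl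

theorem il_actL_pL (σ : Equiv.Perm I) (p : PP I) : actL σ (pL p) = pL (MvPolynomial.rename σ p) := by
  rw [pL, actL_single, actK_poly]; rfl

theorem il_actL_uL (σ : Equiv.Perm I) (l : I → ℤ) : actL σ (uL' l) = uL' (l ∘ σ.symm) := by
  rw [uL', actL_single, map_one]; rfl

theorem il_mono_add (l : I → ℤ) (f f' : PP I) :
    mono nd ar fr l (f + f') = mono nd ar fr l f + mono nd ar fr l f' := by
  simp only [mono_eq, map_add, add_mul, AddMonoidAlgebra.single_add, Finset.sum_add_distrib]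

/-- invariant polynomials can be pulled out of a monopole operator -/
theorem il_mono_mul (l : I → ℤ) {h : PP I} (hh : ∀ σ, InW nd σ → MvPolynomial.rename σ h = h)
    (f : PP I) : mono nd ar fr l (h * f) = pL h * mono nd ar fr l f := by
  classical
  simp only [mono_eq, Finset.mul_sum]
  refine Finset.sum_congr rfl fun σ hσ => ?_
  have h1 : actL σ (pL h) = pL h := by rw [il_actL_pL, hh σ (Finset.mem_filter.1 hσ).2]
  rw [← h1, ← map_mul, il_pL_single, map_mul, mul_assoc]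

theorem il_mono_C (l : I → ℤ) (c : ℂ) (f : PP I) :
    mono nd ar fr l (MvPolynomial.C c * f) = c • mono nd ar fr l f := by
  rw [il_mono_mul l (fun σ _ => MvPolynomial.rename_C σ c), il_pL_C, Algebra.smul_def]

open Classical in
theorem il_card_ne {κ : Type} (β : I → κ) :
    ((Finset.univ.filter fun σ : Equiv.Perm I => InW β σ).card : ℂ) ≠ 0 :=
  Nat.cast_ne_zero.2 (Finset.card_ne_zero.2 ⟨1, Finset.mem_filter.2 ⟨Finset.mem_univ _, il_inW_one β⟩⟩)

omit [DecidableEq I] in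
theorem il_dlt_inv {g : I → ℂ} {σ : Equiv.Perm I} (h : ∀ a b, g (σ a) = g (σ b) ↔ g a = g b)
    (h0 : ∀ a, g (σ a) = 0 ↔ g a = 0) : MvPolynomial.rename σ (dlt g) = dlt g := by
  classical
  simp only [dlt, map_mul, map_prod, map_sub, MvPolynomial.rename_X]
  congr 1
  · refine Finset.prod_equiv σ (by simp only [Finset.mem_univ, implies_true]) fun a _ => Finset.prod_equiv σ (by simp only [ne_eq, Finset.mem_filter, Finset.mem_univ, true_and, h, implies_true]) fun b _ => rfl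
  · exact Finset.prod_equiv σ (by simp only [ne_eq, Finset.mem_filter, Finset.mem_univ, true_and, h0, implies_true]) fun b _ => rfl

omit [DecidableEq I] in
theorem il_dlt_inv' {g : I → ℂ} (σ : Equiv.Perm I) (h : InW (ndL nd g) σ) :
    MvPolynomial.rename σ (dlt g) = dlt g :=
  il_dlt_inv (fun a b => by rw [(inW_ndL.1 h).2, (inW_ndL.1 h).2]) fun a => by rw [(inW_ndL.1 h).2]

theorem il_dlt_mem (g : I → ℂ) : pL (dlt g) ∈ Lev nd ar fr g := pL_mem il_dlt_inv'

omit [DecidableEq I] in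
theorem il_dlt_ne {g t : I → ℂ} (h : Ok g t) : MvPolynomial.eval t (dlt g) ≠ 0 := by
  classical
  simp only [dlt, map_mul, map_prod, map_sub, MvPolynomial.eval_X]
  refine mul_ne_zero (Finset.prod_ne_zero_iff.2 fun a _ => Finset.prod_ne_zero_iff.2 fun b hb => ?_)
    (Finset.prod_ne_zero_iff.2 fun a ha => h.2 a (Finset.mem_filter.1 ha).2)
  exact sub_ne_zero.2 (h.1 a b (Finset.mem_filter.1 hb).2)

omit [DecidableEq I] in
/-- the Euler factor of a coweight that is constant on groups and vanishes on the zero group -/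
theorem il_EE_one {g : I → ℂ} {l : I → ℤ} (h : ∀ a b, g a = g b → l a = l b)
    (h0 : ∀ a, g a = 0 → l a = 0) : EE (ndL nd g) (arL ar) (frL fr) l = 1 := by
  classical
  have h1 : ∀ a b, arL ar (ndL nd g a) (ndL nd g b) * (l a - l b).toNat = 0 := fun a b => by
    by_cases hg : g a = g b
    · simp [h a b hg]
    · simp [hg]
  have h2 : ∀ a, frL fr (ndL nd g a) * (-l a).toNat = 0 := fun a => by
    by_cases hg : g a = 0
    · simp [h0 a hg]
    · simp [hg]
  unfold EE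
  simp only [h1, h2, pow_zero, Finset.prod_const_one, one_mul]
  rw [Finset.prod_eq_one, div_one]
  intro a _
  refine Finset.prod_eq_one fun b hb => ?_
  simp only [Finset.mem_filter] at hb
  rw [h a b (congrArg Prod.snd hb.2), sub_self]; rfl

theorem il_uL_mem {g : I → ℂ} {l : I → ℤ} (hl : Minu l) (h : ∀ a b, g a = g b → l a = l b)
    (h0 : ∀ a, g a = 0 → l a = 0) : uL' l ∈ Lev nd ar fr g := by
  classical
  have h1 := mono_mem (nd := ndL nd g) (ar := arL ar) (fr := frL fr) hl 1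
  rw [mono_eq, il_EE_one h h0, map_one, mul_one] at h1
  have h2 : ∀ σ ∈ Finset.univ.filter fun σ : Equiv.Perm I => InW (ndL nd g) σ,
      actL σ (AddMonoidAlgebra.single l (1 : KK I)) = uL' l := fun σ hσ => by
    refine (il_actL_uL σ l).trans (congrArg uL' (funext fun a => h _ _ ?_))
    exact (inW_ndL.1 (il_inW_inv (Finset.mem_filter.1 hσ).2)).2 a
  rw [Finset.sum_congr rfl h2, Finset.sum_const, ← Nat.cast_smul_eq_nsmul ℂ] at h1
  have h3 := Subalgebra.smul_mem _ h1 (((Finset.univ.filter fun σ : Equiv.Perm I =>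
    InW (ndL nd g) σ).card : ℂ))⁻¹
  rwa [smul_smul, inv_mul_cancel₀ (il_card_ne _), one_smul] at h3

omit [Fintype I] [DecidableEq I] in
theorem il_ok_self (t : I → ℂ) : Ok t t := ⟨fun _ _ h => h, fun _ h => h⟩

omit [DecidableEq I] in
theorem il_exists_omega {g t : I → ℂ} (h : Ok g t) {U : Set (I → ℂ)} (hU : U ∈ 𝓝 t) :
    ∃ Ω, IsOpen Ω ∧ t ∈ Ω ∧ Ω ⊆ U ∧ (∀ t' ∈ Ω, Ok g t') ∧
      ∀ σ, InW nd σ → ∀ t' ∈ Ω, t' ∘ σ ∈ Ω → InW g σ := by
  have h1 : ∀ᶠ p : (I → ℂ) × (I → ℂ) in 𝓝 (t, t), ∀ a b, g a ≠ g b → p.1 a ≠ p.2 b := by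
    refine eventually_all.2 fun a => eventually_all.2 fun b => ?_
    by_cases hg : g a = g b
    · exact Eventually.of_forall fun p hp => absurd hg hp
    · have : IsOpen {p : (I → ℂ) × (I → ℂ) | p.1 a ≠ p.2 b} :=
        isOpen_ne_fun (by fun_prop) (by fun_prop)
      exact (this.eventually_mem (h.1 a b hg)).mono fun p hp _ => hp
  have h2 : ∀ᶠ s in 𝓝 t, ∀ a, g a ≠ 0 → s a ≠ 0 := by
    refine eventually_all.2 fun a => ?_
    by_cases hg : g a = 0
    · exact Eventually.of_forall fun p hp => absurd hg hp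
    · have : IsOpen {s : I → ℂ | s a ≠ 0} := isOpen_ne_fun (by fun_prop) (by fun_prop)
      exact (this.eventually_mem (h.2 a hg)).mono fun p hp _ => hp
  rw [nhds_prod_eq] at h1
  obtain ⟨V, hV, hVV⟩ := mem_prod_self_iff.1 h1
  obtain ⟨Ω, hΩ, ho, ht⟩ := mem_nhds_iff.1 (inter_mem hU (inter_mem hV h2))
  refine ⟨Ω, ho, ht, fun s hs => (hΩ hs).1, fun s hs =>
    ⟨hVV (mk_mem_prod (hΩ hs).2.1 (hΩ hs).2.1), (hΩ hs).2.2⟩, fun σ _ s hs hs' a => ?_⟩
  by_contra hne
  exact hVV (mk_mem_prod (hΩ hs).2.1 (hΩ hs').2.1) (σ a) a hne rfl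

open Classical in
theorem il_lev_unit (g : I → ℂ) {ζ : ℂ} (hζ : ζ ≠ 0) :
    uL' (fun a => if g a = ζ then 1 else 0) ∈ Lev nd ar fr g ∧
    uL' (fun a => if g a = ζ then -1 else 0) ∈ Lev nd ar fr g := by
  refine ⟨il_uL_mem (Or.inl fun a => ?_) (fun a b h => by rw [h]) fun a h => by simp [h, hζ.symm],
    il_uL_mem (Or.inr fun a => ?_) (fun a b h => by rw [h]) fun a h => by simp [h, hζ.symm]⟩ <;>
  by_cases h : g a = ζ <;> simp [h]

end C73
end
end

section
/-! Block A3: the rank lower bound. -/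

open Set Filter Topology TopologicalSpace

noncomputable section
namespace C73

variable {I ι : Type} [Fintype I] [DecidableEq I] {nd : I → ι} {ar : ι → ι → ℕ} {fr : ι → ℕ}

theorem h79_pd_one (a : I) : pd a (1 : KK I) = 0 := by
  simpa only [map_one, Derivation.map_one_eq_zero, map_zero] using pd_poly a (1 : PP I)

open Classical in
theorem h79_rk_lev (har : ∀ j, ar j j = 0) (g : I → ℂ) (z : Pt (Lev nd ar fr g)) :
    2 * (range g \ {0}).ncard ≤ rk (brA (Lev nd ar fr g)) z := by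
  have har' : ∀ x : ι × ℂ, (fun x y : ι × ℂ => if x.2 = y.2 then ar x.1 y.1 else 0) x x = 0 :=
    fun x => by simp [har]
  have : Algebra.FiniteType ℂ (Lev nd ar fr g) := cou_fg
  have hb : IsPoi (brA (Lev nd ar fr g)) := cou_poi har'
  have hc : ∀ x y : Lev nd ar fr g, (brA (Lev nd ar fr g) x y : LL I) = br x y := brA_coe har'
  let S := (range g \ {0} : Set ℂ)
  have : Fintype S := (finite_range g).sdiff.fintype
  let l : S → I → ℤ := fun ζ a => if g a = ζ then 1 else 0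
  let U : S → Lev nd ar fr g := fun ζ => ⟨uL' (l ζ), (il_lev_unit g ζ.2.2).1⟩
  let p : S → Lev nd ar fr g := fun ζ => ⟨pL (∑ a, (l ζ a : ℂ) • MvPolynomial.X a),
    pL_mem fun σ hσ => by
      simp only [map_sum, map_smul, MvPolynomial.rename_X]
      exact Fintype.sum_equiv σ _ _ fun a => by
        simp only [l, show g (σ a) = g a from congrArg Prod.snd (hσ a)]⟩
  have hU : ∀ ζ, z (U ζ) ≠ 0 := fun ζ => by
    have : U ζ * ⟨_, (il_lev_unit g ζ.2.2).2⟩ = 1 := Subtype.ext <| by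
      show uL' _ * uL' _ = 1
      rw [uL', uL', AddMonoidAlgebra.single_mul_single, mul_one, AddMonoidAlgebra.one_def]
      congr 1
      funext a
      by_cases h : g a = ζ <;> simp [l, h]
    exact left_ne_zero_of_mul_eq_one ((map_mul z _ _).symm.trans (by rw [this, map_one]))
  have h1 : ∀ ζ ξ, brA _ (U ζ) (p ξ) = ((∑ a, l ξ a * l ζ a : ℤ) : ℂ) • U ζ := fun ζ ξ =>
    Subtype.ext <| by
      rw [hc]
      ext m
      rw [br_lin]
      show _ = (((∑ a, l ξ a * l ζ a : ℤ) : ℂ) • uL' (l ζ)).coeff m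
      by_cases h : l ζ = m
      · simp [U, uL', h, Algebra.smul_def]
      · simp only [Int.cast_sum, Int.cast_mul, uL', AddMonoidAlgebra.coeff_single, ne_eq, h, not_false_eq_true, Finsupp.single_eq_of_ne', mul_zero, AddMonoidAlgebra.smul_single, U]
  have h2 : ∀ ζ ξ, brA _ (U ζ) (U ξ) = 0 := fun ζ ξ => Subtype.ext <| by
    rw [hc]
    show br (uL' _) (uL' _) = 0
    simp only [uL', br_single, mul_one, h79_pd_one, mul_zero, sub_self, Finset.sum_const_zero, AddMonoidAlgebra.single_zero]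
  have h3 : ∀ ζ ξ, brA _ (p ζ) (p ξ) = 0 := fun ζ ξ => Subtype.ext <| by
    rw [hc]
    show br (pL _) (pL _) = 0
    simp only [pL, map_sum, br_single, add_zero, Pi.zero_apply, Int.cast_zero, zero_mul, sub_self, Finset.sum_const_zero, AddMonoidAlgebra.single_zero]
  have h4 : ∀ ζ ξ, ζ ≠ ξ → ∑ a, l ξ a * l ζ a = 0 := fun ζ ξ h => Finset.sum_eq_zero fun a _ => by
    by_cases e : g a = ζ
    · simp [l, e, Subtype.coe_ne_coe.2 h]
    · simp [l, e]
  have h5 : ∀ ζ, ((∑ a, l ζ a * l ζ a : ℤ) : ℂ) ≠ 0 := fun ζ => by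
    obtain ⟨a, ha⟩ := ζ.2.1
    exact Int.cast_ne_zero.2 (Finset.sum_pos' (fun _ _ => mul_self_nonneg _)
      ⟨a, Finset.mem_univ _, by simp [l, ha]⟩).ne'
  obtain ⟨e⟩ : Nonempty (Fin (2 * S.ncard) ≃ S ⊕ S) := Fintype.card_eq.1 (by
    rw [Fintype.card_fin, Fintype.card_sum, Set.ncard_eq_toFinset_card', Set.toFinset_card, two_mul])
  refine le_rk hb (f := Sum.elim U p ∘ e) (g := Sum.elim p U ∘ e) ?_
  rw [show (Matrix.of fun i j => z (brA _ ((Sum.elim U p ∘ e) i) ((Sum.elim p U ∘ e) j))) =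
    (Matrix.of fun i j => z (brA _ (Sum.elim U p i) (Sum.elim p U j))).submatrix e e from rfl,
    Matrix.det_submatrix_equiv_self,
    show (Matrix.of fun i j => z (brA _ (Sum.elim U p i) (Sum.elim p U j))) = Matrix.diagonal
      (Sum.elim (fun ζ => ((∑ a, l ζ a * l ζ a : ℤ) : ℂ) * z (U ζ))
        fun ζ => -(((∑ a, l ζ a * l ζ a : ℤ) : ℂ) * z (U ζ))) from ?_, Matrix.det_diagonal]
  · refine Finset.prod_ne_zero_iff.2 ?_
    rintro (ζ | ζ) -
    · exact mul_ne_zero (h5 ζ) (hU ζ)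
    · exact neg_ne_zero.2 (mul_ne_zero (h5 ζ) (hU ζ))
  · ext (ζ | ζ) (ξ | ξ)
    · by_cases h : ζ = ξ
      · subst h
        simp only [Matrix.of_apply, Sum.elim_inl, h1, map_smul, smul_eq_mul, Matrix.diagonal_apply_eq]
      · rw [Matrix.diagonal_apply_ne _ (by simpa using h)]
        simp only [Matrix.of_apply, Sum.elim_inl, h1, h4 ζ ξ h, Int.cast_zero, zero_smul, map_zero]
    · rw [Matrix.diagonal_apply_ne _ (by simp)]
      simp only [Matrix.of_apply, Sum.elim_inl, Sum.elim_inr, h2, map_zero]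
    · rw [Matrix.diagonal_apply_ne _ (by simp)]
      simp only [Matrix.of_apply, Sum.elim_inl, Sum.elim_inr, h3, map_zero]
    · simp only [Matrix.of_apply, Sum.elim_inr]
      rw [hb.anti, h1]
      by_cases h : ζ = ξ
      · subst h
        simp only [Sum.elim_inr, map_neg, map_smul, smul_eq_mul, Matrix.diagonal_apply_eq]
      · rw [Matrix.diagonal_apply_ne _ (by simpa using h), h4 ξ ζ (Ne.symm h)]
        simp only [Int.cast_zero, zero_smul, map_neg, map_zero, neg_zero]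

/-- `rk_ge` of block A3, from `levi` -/
theorem h79_rk_ge (har : ∀ j, ar j j = 0) (hL : ∀ g : I → ℂ, ∃ e, IsLevi nd ar fr g e)
    {x : Pt (Cou nd ar fr)} {t : I → ℂ} (h : x ∈ Fib (Cou nd ar fr) t) :
    2 * (range t \ {0}).ncard ≤ rk (brA (Cou nd ar fr)) x := by
  obtain ⟨e, he⟩ := hL t
  obtain ⟨z, hz, rfl⟩ := (he.bij t (il_ok_self t)).surjOn h
  rw [he.rk z (mem_iUnion₂.2 ⟨t, il_ok_self t, hz⟩)]
  exact h79_rk_lev har t z

end C73
end
end

section
/-! Block A3, free part: translations and scalings. -/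

open Set Filter Topology TopologicalSpace

noncomputable section
namespace C73

variable {I ι : Type} [Fintype I] [DecidableEq I] {nd : I → ι} {ar : ι → ι → ℕ} {fr : ι → ℕ}

/-- translation of polynomials -/
def ilf1_trH (z : I → ℂ) : PP I →ₐ[ℂ] PP I :=
  MvPolynomial.aeval fun a => MvPolynomial.X a + MvPolynomial.C (z a)

omit [Fintype I] [DecidableEq I] in
theorem ilf1_trH_comp (z z' : I → ℂ) : (ilf1_trH z).comp (ilf1_trH z') = ilf1_trH (z + z') :=
  MvPolynomial.algHom_ext fun a => by simp [ilf1_trH, add_assoc]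

omit [Fintype I] [DecidableEq I] in
theorem ilf1_trH_zero : ilf1_trH (0 : I → ℂ) = AlgHom.id ℂ (PP I) :=
  MvPolynomial.algHom_ext fun a => by simp [ilf1_trH]

omit [Fintype I] in
theorem ilf1_pderiv (z : I → ℂ) (a : I) (p : PP I) :
    MvPolynomial.pderiv a (ilf1_trH z p) = ilf1_trH z (MvPolynomial.pderiv a p) := by
  induction p using MvPolynomial.induction_on with
  | C c => simp [ilf1_trH]
  | add p q hp hq => simp only [map_add, hp, hq]
  | mul_X p b hp =>
    simp only [map_mul, Derivation.leibniz, smul_eq_mul, map_add, hp]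
    by_cases h : b = a <;> simp [ilf1_trH, MvPolynomial.pderiv_X, h]

/-- translation of rational functions -/
def ilf1_phi (z : I → ℂ) : KK I ≃ₐ[ℂ] KK I :=
  IsFractionRing.algEquivOfAlgEquiv (AlgEquiv.ofAlgHom (ilf1_trH z) (ilf1_trH (-z))
    (by rw [ilf1_trH_comp, add_neg_cancel, ilf1_trH_zero])
    (by rw [ilf1_trH_comp, neg_add_cancel, ilf1_trH_zero]))

omit [Fintype I] [DecidableEq I] in
theorem ilf1_phi_poly (z : I → ℂ) (p : PP I) :
    ilf1_phi z (algebraMap (PP I) (KK I) p) = algebraMap (PP I) (KK I) (ilf1_trH z p) :=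
  IsFractionRing.algEquivOfAlgEquiv_algebraMap _ p

omit [Fintype I] [DecidableEq I] in
theorem ilf1_phi_comp (z z' : I → ℂ) (x : KK I) :
    ilf1_phi z (ilf1_phi z' x) = ilf1_phi (z + z') x := by
  obtain ⟨p, q, -, rfl⟩ := IsFractionRing.div_surjective (A := PP I) x
  simp only [map_div₀, ilf1_phi_poly, ← ilf1_trH_comp, AlgHom.comp_apply]

omit [Fintype I] [DecidableEq I] in
theorem ilf1_phi_zero (x : KK I) : ilf1_phi 0 x = x := by
  obtain ⟨p, q, -, rfl⟩ := IsFractionRing.div_surjective (A := PP I) x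
  simp only [map_div₀, ilf1_phi_poly, ilf1_trH_zero, AlgHom.id_apply]

omit [Fintype I] [DecidableEq I] in
theorem ilf1_phi_smul (z : I → ℂ) (c : ℂ) (x : KK I) : ilf1_phi z (c • x) = c • ilf1_phi z x := by
  rw [Algebra.smul_def, Algebra.smul_def, map_mul, AlgEquiv.commutes]

theorem ilf1_pd (z : I → ℂ) (a : I) (x : KK I) : pd a (ilf1_phi z x) = ilf1_phi z (pd a x) := by
  obtain ⟨⟨p, q⟩, h⟩ := IsLocalization.surj (nonZeroDivisors (PP I)) x
  have hq : ilf1_phi z (algebraMap (PP I) (KK I) q) ≠ 0 := (map_ne_zero _).2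
    (IsFractionRing.to_map_ne_zero_of_mem_nonZeroDivisors q.2)
  have h0 : ∀ p, pd a (ilf1_phi z (algebraMap (PP I) (KK I) p)) =
      ilf1_phi z (pd a (algebraMap (PP I) (KK I) p)) := fun p => by
    rw [ilf1_phi_poly, pd_poly, pd_poly, ilf1_phi_poly, ilf1_pderiv]
  have h1 := h0 p
  dsimp only at h
  rw [← h, map_mul, pd_mul, pd_mul, map_add, map_mul, map_mul, h0] at h1
  exact mul_right_cancel₀ hq (add_right_cancel h1)

/-- the character of the coweight lattice given by `u` -/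
def ilf1_chi (u : I → ℂˣ) : Multiplicative (I → ℤ) →* LL I where
  toFun l := AddMonoidAlgebra.single l.toAdd (((∏ a, u a ^ l.toAdd a : ℂˣ) : ℂ) • (1 : KK I))
  map_one' := by simp only [toAdd_one, Pi.zero_apply, zpow_ofNat, pow_zero, Finset.prod_const_one, Units.val_one, one_smul, AddMonoidAlgebra.one_def]
  map_mul' l l' := by
    simp [AddMonoidAlgebra.single_mul_single, zpow_add, Finset.prod_mul_distrib, smul_smul,
      mul_comm]

/-- translation and scaling on `LL I` -/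
def ilf1_TH (z : I → ℂ) (u : I → ℂˣ) : LL I →ₐ[ℂ] LL I :=
  AddMonoidAlgebra.liftNCAlgHom ((IsScalarTower.toAlgHom ℂ (KK I) (LL I)).comp (ilf1_phi z))
    (ilf1_chi u) fun _ _ => Commute.all _ _

theorem ilf1_TH_single (z : I → ℂ) (u : I → ℂˣ) (l : I → ℤ) (c : KK I) :
    ilf1_TH z u (AddMonoidAlgebra.single l c) =
      AddMonoidAlgebra.single l (((∏ a, u a ^ l a : ℂˣ) : ℂ) • ilf1_phi z c) := by
  rw [ilf1_TH, AddMonoidAlgebra.coe_liftNCAlgHom, AddMonoidAlgebra.liftNC_single]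
  show AddMonoidAlgebra.single 0 (ilf1_phi z c) * AddMonoidAlgebra.single l _ = _
  rw [AddMonoidAlgebra.single_mul_single, zero_add, mul_smul_comm, mul_one]
  rfl

theorem ilf1_TH_comp (z : I → ℂ) (u : I → ℂˣ) (z' : I → ℂ) (u' : I → ℂˣ) (x : LL I) :
    ilf1_TH z u (ilf1_TH z' u' x) = ilf1_TH (z + z') (u * u') x := by
  induction x using AddMonoidAlgebra.induction_linear with
  | zero => simp only [map_zero]
  | add x y hx hy => simp only [map_add, hx, hy]
  | single l c =>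
    simp only [ilf1_TH_single, ilf1_phi_smul, ilf1_phi_comp, smul_smul, Pi.mul_apply, mul_zpow,
      Finset.prod_mul_distrib, Units.val_mul]

theorem ilf1_TH_one (x : LL I) : ilf1_TH 0 1 x = x := by
  induction x using AddMonoidAlgebra.induction_linear with
  | zero => simp only [map_zero]
  | add x y hx hy => simp only [map_add, hx, hy]
  | single l c => simp only [ilf1_TH_single, Pi.one_apply, one_zpow, Finset.prod_const_one, Units.val_one, ilf1_phi_zero, one_smul]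

theorem ilf1_TH_coeff (z : I → ℂ) (u : I → ℂˣ) (x : LL I) (l : I → ℤ) :
    (ilf1_TH z u x).coeff l = ((∏ a, u a ^ l a : ℂˣ) : ℂ) • ilf1_phi z (x.coeff l) := by
  induction x using AddMonoidAlgebra.induction_linear with
  | zero => simp
  | add x y hx hy => simp [hx, hy]
  | single l' c =>
    rw [ilf1_TH_single, AddMonoidAlgebra.coeff_single, AddMonoidAlgebra.coeff_single,
      Finsupp.single_apply, Finsupp.single_apply]
    split_ifs with h
    · rw [h]
    · simp only [Units.coe_prod, Units.val_zpow_eq_zpow_val, map_zero, smul_zero]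

theorem ilf1_br (z : I → ℂ) (u : I → ℂˣ) (x y : LL I) :
    ilf1_TH z u (br x y) = br (ilf1_TH z u x) (ilf1_TH z u y) := by
  have h0 : ∀ y : LL I, br 0 y = 0 := fun y => by simpa using br_poi.smul 0 0 y
  induction x using AddMonoidAlgebra.induction_linear with
  | zero => simp only [h0, map_zero]
  | add x x' hx hx' => simp only [br_poi.add, map_add, hx, hx']
  | single l c =>
    induction y using AddMonoidAlgebra.induction_linear with
    | zero => rw [map_zero, br_poi.anti, h0, br_poi.anti, h0, neg_zero, map_zero]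
    | add y y' hy hy' =>
      rw [map_add, br_poi.anti, br_poi.add, br_poi.anti _ (_ + _), br_poi.add, neg_add, neg_add,
        ← br_poi.anti, ← br_poi.anti, ← br_poi.anti, ← br_poi.anti, map_add, hy, hy']
    | single l' c' =>
      rw [br_single, ilf1_TH_single, ilf1_TH_single, ilf1_TH_single, br_single]
      congr 1
      simp only [map_sum, map_sub, map_mul, map_intCast, Finset.smul_sum, pd_smul, ilf1_pd,
        Pi.add_apply, zpow_add, Finset.prod_mul_distrib, Units.val_mul]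
      refine Finset.sum_congr rfl fun a _ => ?_
      simp only [Algebra.smul_def, map_mul]
      ring

/-- F1: translations of the `w` and scalings of the `u` are Poisson automorphisms of `LL I` -/
theorem ilf_exists_tr : ∃ (T : (I → ℂ) → (I → ℂˣ) → LL I ≃ₐ[ℂ] LL I)
    (φ : (I → ℂ) → KK I →ₐ[ℂ] KK I),
    (∀ ζ u l c, T ζ u (AddMonoidAlgebra.single l c) =
      AddMonoidAlgebra.single l (((∏ a, u a ^ l a : ℂˣ) : ℂ) • φ ζ c)) ∧
    (∀ ζ p, φ ζ (algebraMap (PP I) (KK I) p) = algebraMap (PP I) (KK I)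
      (MvPolynomial.aeval (fun a => MvPolynomial.X a + MvPolynomial.C (ζ a)) p)) ∧
    (∀ ζ u ζ' u' x, T ζ u (T ζ' u' x) = T (ζ + ζ') (u * u') x) ∧ (∀ x, T 0 1 x = x) ∧
    (∀ ζ u x l, (T ζ u x).coeff l ≠ 0 ↔ x.coeff l ≠ 0) ∧
    ∀ ζ u x y, T ζ u (br x y) = br (T ζ u x) (T ζ u y) :=
  ⟨fun z u => AlgEquiv.ofAlgHom (ilf1_TH z u) (ilf1_TH (-z) u⁻¹)
    (AlgHom.ext fun x => by
      rw [AlgHom.comp_apply, ilf1_TH_comp, add_neg_cancel, mul_inv_cancel, ilf1_TH_one]; rfl)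
    (AlgHom.ext fun x => by
      rw [AlgHom.comp_apply, ilf1_TH_comp, neg_add_cancel, inv_mul_cancel, ilf1_TH_one]; rfl),
    fun z => ilf1_phi z, ilf1_TH_single, ilf1_phi_poly, ilf1_TH_comp, ilf1_TH_one,
    fun z u x l => by
      show (ilf1_TH z u x).coeff l ≠ 0 ↔ _
      rw [ilf1_TH_coeff, smul_ne_zero_iff, and_iff_right (Units.ne_zero _), map_ne_zero],
    ilf1_br⟩

end C73
end
end

section
/-! Block A3, free part F2: Euler factors and generators of the Levi theory. -/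

open Set Filter Topology TopologicalSpace

noncomputable section
namespace C73

variable {I ι : Type} [Fintype I] [DecidableEq I] {nd : I → ι} {ar : ι → ι → ℕ} {fr : ι → ℕ}

/-- the indices in `J` are isolated nodes without arrows and framing -/
structure F2Iso (nd : I → ι) (ar : ι → ι → ℕ) (fr : ι → ℕ) (J : I → Prop) : Prop where
  nd_eq : ∀ a b, nd a = nd b → J a → a = b
  ar_eq : ∀ a b, a ≠ b → J a ∨ J b → ar (nd a) (nd b) = 0
  fr_eq : ∀ a, J a → fr (nd a) = 0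

variable {J : I → Prop}

theorem f2_EE_fix (h : F2Iso nd ar fr J) (φ : KK I →ₐ[ℂ] KK I)
    (hφ : ∀ a, ¬ J a → φ (ww a) = ww a) (l : I → ℤ) : φ (EE nd ar fr l) = EE nd ar fr l := by
  classical
  unfold EE
  simp only [map_div₀, map_mul, map_prod, map_pow, map_sub]
  congr 1
  · congr 1
    · refine Finset.prod_congr rfl fun a _ => Finset.prod_congr rfl fun b _ => ?_
      by_cases hab : a = b
      · subst hab; simp
      by_cases hJ : J a ∨ J b
      · rw [h.ar_eq a b hab hJ]; simp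
      · rw [not_or] at hJ
        rw [hφ a hJ.1, hφ b hJ.2]
    · refine Finset.prod_congr rfl fun a _ => ?_
      by_cases hJ : J a
      · rw [h.fr_eq a hJ]; simp
      · rw [hφ a hJ]
  · refine Finset.prod_congr rfl fun a _ => Finset.prod_congr rfl fun b hb => ?_
    have hb' : nd a = nd b := (Finset.mem_filter.1 hb).2
    by_cases hab : a = b
    · subst hab; simp
    rw [hφ a fun hJ => hab (h.nd_eq a b hb' hJ), hφ b fun hJ => hab (h.nd_eq b a hb'.symm hJ).symm]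

theorem f2_EE_congr (h : F2Iso nd ar fr J) {l l' : I → ℤ} (hl : ∀ a, ¬ J a → l a = l' a) :
    EE nd ar fr l = EE nd ar fr l' := by
  classical
  unfold EE
  congr 1
  · congr 1
    · refine Finset.prod_congr rfl fun a _ => Finset.prod_congr rfl fun b _ => ?_
      by_cases hab : a = b
      · subst hab; simp
      by_cases hJ : J a ∨ J b
      · rw [h.ar_eq a b hab hJ]; simp
      · rw [not_or] at hJ
        rw [hl a hJ.1, hl b hJ.2]
    · refine Finset.prod_congr rfl fun a _ => ?_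
      by_cases hJ : J a
      · rw [h.fr_eq a hJ]; simp
      · rw [hl a hJ]
  · refine Finset.prod_congr rfl fun a _ => Finset.prod_congr rfl fun b hb => ?_
    have hb' : nd a = nd b := (Finset.mem_filter.1 hb).2
    by_cases hab : a = b
    · subst hab; simp
    rw [hl a fun hJ => hab (h.nd_eq a b hb' hJ), hl b fun hJ => hab (h.nd_eq b a hb'.symm hJ).symm]

omit [Fintype I] [DecidableEq I] in
theorem f2_fix (h : F2Iso nd ar fr J) {σ : Equiv.Perm I} (hσ : ∀ a, nd (σ a) = nd a) {a : I}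
    (ha : J a) : σ a = a := (h.nd_eq a (σ a) (hσ a).symm ha).symm

omit [Fintype I] [DecidableEq I] in
theorem f2_fix' (h : F2Iso nd ar fr J) {σ : Equiv.Perm I} (hσ : ∀ a, nd (σ a) = nd a) {a : I}
    (ha : J a) : σ.symm a = a := by
  rw [Equiv.symm_apply_eq, f2_fix h hσ ha]

omit [Fintype I] [DecidableEq I] in
theorem f2_comp (h : F2Iso nd ar fr J) {σ : Equiv.Perm I} (hσ : ∀ a, nd (σ a) = nd a) {m : I → ℤ}
    (hm : ∀ a, ¬ J a → m a = 0) : m ∘ σ.symm = m := by
  funext a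
  by_cases ha : J a
  · simp [f2_fix' h hσ ha]
  · have : ¬ J (σ.symm a) := fun hJ => ha (by
      have := f2_fix h hσ hJ
      rw [Equiv.apply_symm_apply] at this
      rw [this]; exact hJ)
    simp [hm a ha, hm _ this]

theorem f2_mono_shift (h : F2Iso nd ar fr J) {m : I → ℤ} (hm : ∀ a, ¬ J a → m a = 0) (l : I → ℤ)
    (f : PP I) : mono nd ar fr (m + l) f = uL' m * mono nd ar fr l f := by
  classical
  unfold mono uL'
  rw [Finset.mul_sum]
  refine Finset.sum_congr rfl fun σ hσ => ?_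
  have hσ' : ∀ a, nd (σ a) = nd a := (Finset.mem_filter.1 hσ).2
  have e : (m + l) ∘ σ.symm = m + l ∘ σ.symm := by
    conv_rhs => rw [← f2_comp h hσ' hm]
    rfl
  rw [AddMonoidAlgebra.single_mul_single, one_mul, e,
    f2_EE_congr h (l := m + l ∘ σ.symm) (l' := l ∘ σ.symm) fun a ha => by simp [hm a ha]]

theorem f2_mono_X (h : F2Iso nd ar fr J) {a : I} (ha : J a) (l : I → ℤ) (f : PP I) :
    mono nd ar fr l (MvPolynomial.X a * f) = pL (MvPolynomial.X a) * mono nd ar fr l f := by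
  classical
  unfold mono pL
  rw [Finset.mul_sum]
  refine Finset.sum_congr rfl fun σ hσ => ?_
  have hσ' : ∀ a, nd (σ a) = nd a := (Finset.mem_filter.1 hσ).2
  rw [AddMonoidAlgebra.single_mul_single, zero_add, map_mul, MvPolynomial.rename_X,
    f2_fix h hσ' ha, map_mul, mul_assoc]

theorem f2_mono_add (l : I → ℤ) (f f' : PP I) :
    mono nd ar fr l (f + f') = mono nd ar fr l f + mono nd ar fr l f' := by
  classical
  unfold mono
  rw [← Finset.sum_add_distrib]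
  refine Finset.sum_congr rfl fun σ _ => ?_
  rw [map_add, map_add, add_mul, AddMonoidAlgebra.single_add]

theorem f2_mono_C (l : I → ℤ) (c : ℂ) (f : PP I) :
    mono nd ar fr l (MvPolynomial.C c * f) = c • mono nd ar fr l f := by
  classical
  unfold mono
  rw [Finset.smul_sum]
  refine Finset.sum_congr rfl fun σ _ => ?_
  rw [← MvPolynomial.smul_eq_C_mul, map_smul, AddMonoidAlgebra.smul_single, Algebra.smul_def,
    map_mul, ← IsScalarTower.algebraMap_apply, mul_assoc, ← Algebra.smul_def]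

omit [Fintype I] [DecidableEq I] in
theorem f2_uL_add (m m' : I → ℤ) : (uL' (m + m') : LL I) = uL' m * uL' m' := by
  unfold uL'
  rw [AddMonoidAlgebra.single_mul_single, one_mul]

omit [Fintype I] [DecidableEq I] in
theorem f2_uL_zero : (uL' 0 : LL I) = 1 := rfl

theorem f2_uL_mem (h : F2Iso nd ar fr J) {m : I → ℤ} (hm : ∀ a, ¬ J a → m a = 0) (hM : Minu m) :
    uL' m ∈ Cou nd ar fr := by
  classical
  have h1 := mono_mem (nd := nd) (ar := ar) (fr := fr) hM 1
  have h2 : mono nd ar fr 0 1 =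
      ((Finset.univ.filter fun σ : Equiv.Perm I => ∀ a, nd (σ a) = nd a).card : ℂ) • (1 : LL I) := by
    unfold mono
    rw [Nat.cast_smul_eq_nsmul, ← Finset.sum_const]
    refine Finset.sum_congr (by congr) fun σ _ => ?_
    have e : (0 : I → ℤ) ∘ σ.symm = 0 := rfl
    rw [e, EE_zero, map_one, map_one, one_mul]
    rfl
  have h3 := f2_mono_shift h hm 0 1
  rw [add_zero, h2, mul_smul_comm, mul_one] at h3
  have h4 : ((Finset.univ.filter fun σ : Equiv.Perm I => ∀ a, nd (σ a) = nd a).card : ℂ) ≠ 0 := by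
    rw [Nat.cast_ne_zero, Finset.card_ne_zero]
    exact ⟨1, by simp only [Finset.mem_filter, Finset.mem_univ, Equiv.Perm.coe_one, id_eq, implies_true, and_self]⟩
  have := (Cou nd ar fr).smul_mem h1
    ((Finset.univ.filter fun σ : Equiv.Perm I => ∀ a, nd (σ a) = nd a).card : ℂ)⁻¹
  rwa [h3, smul_smul, inv_mul_cancel₀ h4, one_smul] at this

theorem f2_gen (h : F2Iso nd ar fr J) :
    Algebra.adjoin ℂ ({b : Cou nd ar fr | ∃ a, J a ∧ ((b : LL I) = pL (MvPolynomial.X a) ∨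
      (b : LL I) = uL' (Pi.single a 1) ∨ (b : LL I) = uL' (Pi.single a (-1)))} ∪
    {b | ∃ l f, Minu l ∧ (∀ a, J a → l a = 0) ∧ (∀ a ∈ f.vars, ¬ J a) ∧
      (b : LL I) = mono nd ar fr l f}) = ⊤ := by
  classical
  set S : Set (Cou nd ar fr) := {b : Cou nd ar fr | ∃ a, J a ∧ ((b : LL I) = pL (MvPolynomial.X a) ∨
      (b : LL I) = uL' (Pi.single a 1) ∨ (b : LL I) = uL' (Pi.single a (-1)))} ∪
    {b | ∃ l f, Minu l ∧ (∀ a, J a → l a = 0) ∧ (∀ a ∈ f.vars, ¬ J a) ∧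
      (b : LL I) = mono nd ar fr l f} with hS
  set D : Subalgebra ℂ (LL I) := (Algebra.adjoin ℂ S).map (Cou nd ar fr).val with hD
  have hSD : ∀ b ∈ S, (b : LL I) ∈ D := fun b hb => ⟨b, Algebra.subset_adjoin hb, rfl⟩
  have hX : ∀ a, J a → pL (MvPolynomial.X a) ∈ D := fun a ha =>
    hSD ⟨pL (MvPolynomial.X a), pL_mem fun σ hσ => by rw [MvPolynomial.rename_X, f2_fix h hσ ha]⟩
      (Or.inl ⟨a, ha, Or.inl rfl⟩)
  have hsing : ∀ a, J a → ∀ (n : ℤ) b, ¬ J b → (Pi.single a n : I → ℤ) b = 0 := fun a ha n b hb => by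
    have e : b ≠ a := fun e => hb (e ▸ ha)
    simp [Pi.single_eq_of_ne e]
  have hU : ∀ a, J a → ∀ n : ℤ, n = 0 ∨ n = 1 ∨ n = -1 → uL' (Pi.single a n) ∈ D := by
    rintro a ha n (rfl | rfl | rfl)
    · rw [Pi.single_zero, f2_uL_zero]; exact D.one_mem
    · refine hSD ⟨uL' (Pi.single a 1), f2_uL_mem h (hsing a ha 1) (Or.inl fun b => ?_)⟩
        (Or.inl ⟨a, ha, Or.inr (Or.inl rfl)⟩)
      by_cases hb : b = a
      · subst hb; simp
      · simp [Pi.single_eq_of_ne hb]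
    · refine hSD ⟨uL' (Pi.single a (-1)), f2_uL_mem h (hsing a ha (-1)) (Or.inr fun b => ?_)⟩
        (Or.inl ⟨a, ha, Or.inr (Or.inr rfl)⟩)
      by_cases hb : b = a
      · subst hb; simp
      · simp [Pi.single_eq_of_ne hb]
  have hM : ∀ l, Minu l → (∀ a, J a → l a = 0) → ∀ f f0 : PP I, (∀ a ∈ f0.vars, ¬ J a) →
      mono nd ar fr l (f * f0) ∈ D := by
    intro l hl hl0 f
    induction f using MvPolynomial.induction_on with
    | C c =>
      intro f0 h0
      rw [f2_mono_C]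
      exact D.smul_mem (hSD ⟨_, mono_mem hl f0⟩ (Or.inr ⟨l, f0, hl, hl0, h0, rfl⟩)) c
    | add p q hp hq =>
      intro f0 h0
      rw [add_mul, f2_mono_add]
      exact D.add_mem (hp f0 h0) (hq f0 h0)
    | mul_X p a hp =>
      intro f0 h0
      by_cases ha : J a
      · rw [mul_comm p, mul_assoc, f2_mono_X h ha]
        exact D.mul_mem (hX a ha) (hp f0 h0)
      · rw [mul_assoc]
        refine hp _ fun b hb => ?_
        rcases Finset.mem_union.1 (MvPolynomial.vars_mul _ _ hb) with hb | hb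
        · rw [MvPolynomial.vars_X, Finset.mem_singleton] at hb
          rw [hb]; exact ha
        · exact h0 b hb
  have hle : Cou nd ar fr ≤ D := by
    refine Algebra.adjoin_le ?_
    rintro _ ⟨l, f, hl, rfl⟩
    have hl' : Minu l := hl
    have e : l = (∑ a with J a, (Pi.single a (l a) : I → ℤ)) + fun a => if J a then 0 else l a := by
      funext b
      simp only [Pi.add_apply, Finset.sum_apply, Pi.single_apply]
      by_cases hb : J b
      · simp only [Finset.sum_ite_eq, Finset.mem_filter, Finset.mem_univ, hb, and_self, ↓ reduceIte, add_zero]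
      · simp only [Finset.sum_ite_eq, Finset.mem_filter, Finset.mem_univ, hb, and_false, ↓ reduceIte, zero_add]
    have hm : ∀ b, ¬ J b → (∑ a with J a, (Pi.single a (l a) : I → ℤ)) b = 0 := fun b hb => by
      rw [Finset.sum_apply]
      exact Finset.sum_eq_zero fun a ha => hsing a (Finset.mem_filter.1 ha).2 _ b hb
    have hu : ∀ s : Finset I, (∀ a ∈ s, J a) → uL' (∑ a ∈ s, (Pi.single a (l a) : I → ℤ)) ∈ D := by
      intro s
      induction s using Finset.induction_on with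
      | empty => intro _; rw [Finset.sum_empty, f2_uL_zero]; exact D.one_mem
      | insert a s ha ih =>
        intro hs
        rw [Finset.sum_insert ha, f2_uL_add]
        refine D.mul_mem (hU a (hs a (Finset.mem_insert_self a s)) _ ?_)
          (ih fun b hb => hs b (Finset.mem_insert_of_mem hb))
        rcases hl' with h1 | h1 <;> rcases h1 a with h2 | h2 <;> simp [h2]
    rw [SetLike.mem_coe, e, f2_mono_shift h hm, ← mul_one f]
    refine D.mul_mem (hu _ fun a ha => (Finset.mem_filter.1 ha).2) (hM _ ?_ ?_ f 1 (by simp))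
    · rcases hl' with h1 | h1
      · refine Or.inl fun a => ?_
        by_cases ha : J a
        · simp [ha]
        · simpa [ha] using h1 a
      · refine Or.inr fun a => ?_
        by_cases ha : J a
        · simp [ha]
        · simpa [ha] using h1 a
    · intro a ha; simp [ha]
  rw [eq_top_iff]
  intro b _
  obtain ⟨b', hb', e⟩ := hle b.2
  rwa [← Subtype.ext e]

omit [Fintype I] [DecidableEq I] in
theorem f2_iso {g : I → ℂ} (hg : InjOn g {a | g a ≠ 0}) :
    F2Iso (ndL nd g) (arL ar) (frL fr) fun a => g a ≠ 0 where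
  nd_eq a b h ha := by
    have e : g a = g b := congrArg Prod.snd h
    exact hg ha (show g b ≠ 0 from e ▸ ha) e
  ar_eq a b h hJ := by
    refine if_neg fun e : g a = g b => h ?_
    rcases hJ with hJ | hJ
    · exact hg hJ (show g b ≠ 0 from e ▸ hJ) e
    · exact hg (show g a ≠ 0 from e ▸ hJ) hJ e
  fr_eq a ha := if_neg ha

/-- F2a: the Euler factors of the Levi theory only involve the variables of the zero group -/
theorem ilf_EE_fix {g : I → ℂ} (hg : InjOn g {a | g a ≠ 0}) (φ : KK I →ₐ[ℂ] KK I)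
    (hφ : ∀ a, g a = 0 → φ (ww a) = ww a) (l : I → ℤ) :
    φ (EE (ndL nd g) (arL ar) (frL fr) l) = EE (ndL nd g) (arL ar) (frL fr) l :=
  f2_EE_fix (f2_iso hg) φ (fun a ha => hφ a (not_not.1 ha)) l

/-- F2b: and only depend on the restriction of the coweight to the zero group -/
theorem ilf_EE_congr {g : I → ℂ} (hg : InjOn g {a | g a ≠ 0}) {l l' : I → ℤ}
    (h : ∀ a, g a = 0 → l a = l' a) :
    EE (ndL nd g) (arL ar) (frL fr) l = EE (ndL nd g) (arL ar) (frL fr) l' :=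
  f2_EE_congr (f2_iso hg) fun a ha => h a (not_not.1 ha)

/-- F2c: generators -/
theorem ilf_gen {g : I → ℂ} (hg : InjOn g {a | g a ≠ 0}) :
    Algebra.adjoin ℂ ({b : Lev nd ar fr g | ∃ a, g a ≠ 0 ∧ ((b : LL I) = pL (MvPolynomial.X a) ∨
      (b : LL I) = uL' (Pi.single a 1) ∨ (b : LL I) = uL' (Pi.single a (-1)))} ∪
    {b | ∃ l f, Minu l ∧ (∀ a, g a ≠ 0 → l a = 0) ∧ (∀ a ∈ f.vars, g a = 0) ∧
      (b : LL I) = mono (ndL nd g) (arL ar) (frL fr) l f}) = ⊤ := by
  have h := f2_gen (f2_iso (nd := nd) (ar := ar) (fr := fr) hg)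
  simp only [ne_eq, not_not] at h ⊢
  exact h

end C73
end
end

section
/-! Block A3, free part: equivariance. -/

open Set Filter Topology TopologicalSpace

noncomputable section
namespace C73

variable {I ι : Type} [Fintype I] [DecidableEq I] {nd : I → ι} {ar : ι → ι → ℕ} {fr : ι → ℕ}
  {g : I → ℂ}

omit [Fintype I] [DecidableEq I] in
theorem f3_zero {π : Equiv.Perm I} (hπ : ∀ a, g a = 0 → π a = a) (a : I) : g (π a) = 0 ↔ g a = 0 :=
  ⟨fun h => by rwa [π.injective (hπ _ h)] at h, fun h => by rwa [hπ a h]⟩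

omit [Fintype I] in
theorem f3_grp (hg : InjOn g {a | g a ≠ 0}) {π : Equiv.Perm I} (h0 : ∀ a, g (π a) = 0 ↔ g a = 0)
    (a b : I) : g (π a) = g (π b) ↔ g a = g b := by
  by_cases ha : g a = 0
  · rw [(h0 a).2 ha, ha, eq_comm, eq_comm (a := 0), h0]
  · exact ⟨fun h => by rw [π.injective (hg (mt (h0 a).1 ha) (h ▸ mt (h0 a).1 ha :) h)],
      fun h => by rw [hg ha (h ▸ ha :) h]⟩

omit [Fintype I] [DecidableEq I] in
theorem f3_fix (hg : InjOn g {a | g a ≠ 0}) {ρ : Equiv.Perm I} (hρ : InW (ndL nd g) ρ) {a : I}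
    (ha : g a ≠ 0) : ρ a = a :=
  have h := (inW_ndL.1 hρ).2 a
  hg (h ▸ ha :) ha h

theorem f3_mono (hg : InjOn g {a | g a ≠ 0}) {π : Equiv.Perm I} (hπ : ∀ a, g a = 0 → π a = a)
    {l : I → ℤ} {f : PP I} (hl : ∀ a, g a ≠ 0 → l a = 0) (hf : ∀ a ∈ f.vars, g a = 0) :
    actL π (mono (ndL nd g) (arL ar) (frL fr) l f) = mono (ndL nd g) (arL ar) (frL fr) l f := by
  classical
  have h1 : l ∘ π.symm = l := funext fun a => by
    obtain ⟨a, rfl⟩ := π.surjective a
    rw [Function.comp_apply, π.symm_apply_apply]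
    by_cases ha : g a = 0
    · rw [hπ a ha]
    · rw [hl a ha, hl _ (mt (f3_zero hπ a).1 ha)]
  have h2 : MvPolynomial.rename π f = f :=
    MvPolynomial.hom_congr_vars (f₁ := (MvPolynomial.rename π).toRingHom) (f₂ := RingHom.id _)
      (by ext; simp) (fun a ha _ => by simp [hπ a (hf a ha)]) rfl
  have h3 : actK π (EE (ndL nd g) (arL ar) (frL fr) l) = EE (ndL nd g) (arL ar) (frL fr) l :=
    ilf_EE_fix hg (actK π : KK I →ₐ[ℂ] KK I) (fun a ha => (ia0_ww π a).trans (by rw [hπ a ha])) l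
  rw [mono_eq, map_sum]
  refine Finset.sum_congr rfl fun ρ hρ => ?_
  have hρ' := (Finset.mem_filter.1 hρ).2
  have hc : π * ρ = ρ * π := Equiv.ext fun a => by
    by_cases ha : g a = 0
    · rw [Equiv.Perm.mul_apply, Equiv.Perm.mul_apply, hπ a ha,
        hπ _ (((inW_ndL.1 hρ').2 a).trans ha)]
    · rw [Equiv.Perm.mul_apply, Equiv.Perm.mul_apply, f3_fix hg hρ' ha,
        f3_fix hg hρ' (mt (f3_zero hπ a).1 ha)]
  rw [← actL_mul, hc, actL_mul, actL_single π, map_mul, actK_poly, h1, h2, h3]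

theorem f3_uL (hg : InjOn g {a | g a ≠ 0}) {π : Equiv.Perm I} (hπ : ∀ a, g a = 0 → π a = a) {a : I}
    (ha : g a ≠ 0) {ε : ℤ} (hε : ε = 1 ∨ ε = -1) :
    actL π (uL' (Pi.single a ε)) ∈ Lev nd ar fr g := by
  have h0 : ∀ b, g b = 0 → ((Pi.single a ε : I → ℤ) ∘ π.symm) b = 0 := fun b hb =>
    Pi.single_eq_of_ne (fun e => ha (by
      rw [← e, ← f3_zero hπ, π.apply_symm_apply]; exact hb)) _
  rw [il_actL_uL]
  refine il_uL_mem (hε.imp (fun h b => ?_) fun h b => ?_) (fun b c h => ?_) h0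
  · by_cases e : π.symm b = a <;> simp [e, h]
  · by_cases e : π.symm b = a <;> simp [e, h]
  · by_cases hb : g b = 0
    · rw [h0 b hb, h0 c (h ▸ hb)]
    · rw [hg hb (h ▸ hb :) h]

theorem f3_mem (hg : InjOn g {a | g a ≠ 0}) {π : Equiv.Perm I} (hπ : ∀ a, g a = 0 → π a = a)
    (b : Lev nd ar fr g) : actL π b ∈ Lev nd ar fr g := by
  have hb := (ilf_gen (nd := nd) (ar := ar) (fr := fr) hg).ge (Algebra.mem_top (x := b))
  refine Algebra.adjoin_induction
    (p := fun (b : Lev nd ar fr g) _ => actL π (b : LL I) ∈ Lev nd ar fr g) ?_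
    (fun c => ?_) (fun x y _ _ hx hy => ?_) (fun x y _ _ hx hy => ?_) hb
  · rintro b (⟨a, ha, h | h | h⟩ | ⟨l, f, -, hl, hf, h⟩)
    · rw [h, il_actL_pL, MvPolynomial.rename_X]
      exact pL_mem fun ρ hρ => by
        rw [MvPolynomial.rename_X, f3_fix hg hρ (mt (f3_zero hπ a).1 ha)]
    · exact h ▸ f3_uL hg hπ ha (Or.inl rfl)
    · exact h ▸ f3_uL hg hπ ha (Or.inr rfl)
    · rw [h, f3_mono hg hπ hl hf, ← h]; exact b.2
  · rw [Subalgebra.coe_algebraMap, AlgEquiv.commutes]; exact Subalgebra.algebraMap_mem _ c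
  · rw [Subalgebra.coe_add, map_add]; exact add_mem hx hy
  · rw [Subalgebra.coe_mul, map_mul]; exact mul_mem hx hy

/-- F3: equivariance; `x`, `x'` agree on the monopoles that do not involve the free variables -/
theorem ilf_eqv {g : I → ℂ} (hg : InjOn g {a | g a ≠ 0}) {e : Pt (Lev nd ar fr g) → Pt (Cou nd ar fr)}
    (he : IsLevi nd ar fr g e) {x x' : Pt (Lev nd ar fr g)} {t : I → ℂ} {σ : Equiv.Perm I}
    (hσ : InW nd σ) (h0 : ∀ a, g (σ a) = 0 ↔ g a = 0) (ht : Ok g t) (ht' : Ok g (t ∘ σ))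
    (hx : x ∈ Fib (Lev nd ar fr g) t) (hx' : x' ∈ Fib (Lev nd ar fr g) (t ∘ σ)) (h : e x = e x')
    {l : I → ℤ} {f : PP I} (hl : ∀ a, g a ≠ 0 → l a = 0) (hf : ∀ a ∈ f.vars, g a = 0)
    {b : Lev nd ar fr g} (hb : (b : LL I) = mono (ndL nd g) (arL ar) (frL fr) l f) : x b = x' b := by
  classical
  let σ0 : Equiv.Perm I := Equiv.Perm.ofSubtype (σ.subtypePerm (p := fun a => g a = 0) h0)
  have z1 : ∀ a, g a = 0 → σ0 a = σ a := fun a ha =>
    Equiv.Perm.ofSubtype_subtypePerm_of_mem (p := fun a => g a = 0) h0 ha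
  have z2 : ∀ a, g a ≠ 0 → σ0 a = a := fun a ha => Equiv.Perm.ofSubtype_apply_of_not_mem _ ha
  have hσ0 : InW (ndL nd g) σ0 := fun a => by
    by_cases ha : g a = 0
    · rw [z1 a ha]; exact Prod.ext (hσ a) (((h0 a).2 ha).trans ha.symm)
    · rw [z2 a ha]
  let π : Equiv.Perm I := σ0 * σ⁻¹
  have hπ : ∀ a, g a = 0 → π a = a := fun a ha => by
    obtain ⟨a, rfl⟩ := σ.surjective a
    exact (congrArg σ0 (σ.symm_apply_apply a)).trans (z1 a ((h0 a).1 ha))
  have hπW : InW nd π := il_inW_mul (inW_ndL.1 hσ0).1 (il_inW_inv hσ)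
  let θ : Lev nd ar fr g →ₐ[ℂ] Lev nd ar fr g :=
    ((actL π : LL I →ₐ[ℂ] LL I).comp (Lev nd ar fr g).val).codRestrict _ (f3_mem hg hπ)
  have hθ : ∀ c, (θ c : LL I) = actL π c := fun _ => rfl
  let y : Pt (Lev nd ar fr g) := AlgHom.comp x' θ
  have hy : ∀ c, y c = x' (θ c) := fun _ => rfl
  have hx2 := (fib_unique (t' := (t ∘ σ) ∘ ⇑σ0⁻¹) hx').2 ⟨_, il_inW_inv hσ0, rfl⟩
  have hyF : y ∈ Fib (Lev nd ar fr g) t := fun p a ha => by
    refine (hx2 (MvPolynomial.rename π p) (θ a) (by rw [hθ, ha, il_actL_pL])).trans ?_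
    rw [MvPolynomial.eval_rename]
    congr 2
    ext c
    simp only [Equiv.Perm.coe_inv, π, Equiv.Perm.coe_mul, Function.comp_apply, Equiv.symm_apply_apply, Equiv.apply_symm_apply]
  have hey : e y = e x' := DFunLike.ext _ _ fun a => by
    obtain ⟨N, c, hc⟩ := he.sub a
    have h1 : θ c = c := Subtype.ext (by
      rw [hθ, hc, map_mul, il_actL_pL, map_pow, il_dlt_inv (f3_grp hg (f3_zero hπ)) (f3_zero hπ),
        cou_inv a.2 hπW])
    have h2 := he.val t ht y hyF a c N hc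
    rw [hy, h1, he.val _ ht' x' hx' a c N hc, ← MvPolynomial.eval_rename,
      il_dlt_inv (f3_grp hg h0) h0] at h2
    exact (mul_left_cancel₀ (pow_ne_zero N (il_dlt_ne ht)) h2).symm
  rw [(he.bij t ht).injOn hx hyF (h.trans hey.symm), hy]
  exact congrArg x' (Subtype.ext (by rw [hθ, hb, f3_mono hg hπ hl hf]))

end C73
end
end

section
/-! Block A3, free part: assembly. -/

open Set Filter Topology TopologicalSpace

noncomputable section
namespace C73

variable {I ι : Type} [Fintype I] [DecidableEq I] {nd : I → ι} {ar : ι → ι → ℕ} {fr : ι → ℕ}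

/-- translation of a polynomial -/
abbrev h67_tr (ζ : I → ℂ) (p : PP I) : PP I :=
  MvPolynomial.aeval (fun a => MvPolynomial.X a + MvPolynomial.C (ζ a)) p

/-- the properties of the translations and scalings -/
structure h67_Tr (T : (I → ℂ) → (I → ℂˣ) → LL I ≃ₐ[ℂ] LL I) (φ : (I → ℂ) → KK I →ₐ[ℂ] KK I) :
    Prop where
  single : ∀ ζ u l c, T ζ u (AddMonoidAlgebra.single l c) =
    AddMonoidAlgebra.single l (((∏ a, u a ^ l a : ℂˣ) : ℂ) • φ ζ c)
  poly : ∀ ζ p, φ ζ (algebraMap (PP I) (KK I) p) = algebraMap (PP I) (KK I) (h67_tr ζ p)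
  mul : ∀ ζ u ζ' u' x, T ζ u (T ζ' u' x) = T (ζ + ζ') (u * u') x
  one : ∀ x, T 0 1 x = x
  supp : ∀ ζ u x l, (T ζ u x).coeff l ≠ 0 ↔ x.coeff l ≠ 0
  br : ∀ ζ u x y, T ζ u (br x y) = br (T ζ u x) (T ζ u y)

open Classical in
/-- extension by a constant outside the support of `g` -/
def h67_ex {M : Type} (g : I → ℂ) (c : M) (ζ : {a // g a ≠ 0} → M) (a : I) : M :=
  if h : g a ≠ 0 then ζ ⟨a, h⟩ else c

section
omit [Fintype I] [DecidableEq I]
variable {M : Type} {g : I → ℂ}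

theorem h67_ex_pos (c : M) (ζ : {a // g a ≠ 0} → M) {a : I} (h : g a ≠ 0) :
    h67_ex g c ζ a = ζ ⟨a, h⟩ := dif_pos h

theorem h67_ex_neg (c : M) (ζ : {a // g a ≠ 0} → M) {a : I} (h : g a = 0) :
    h67_ex g c ζ a = c := dif_neg (not_not.2 h)

theorem h67_fix (hg : InjOn g {a | g a ≠ 0}) {σ : Equiv.Perm I} (hσ : InW (ndL nd g) σ) {a : I}
    (h : g a ≠ 0) : σ a = a := by
  have h1 : g (σ a) = g a := (inW_ndL.1 hσ).2 a
  exact hg (show g (σ a) ≠ 0 from h1 ▸ h) h h1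

theorem h67_ex_inv (hg : InjOn g {a | g a ≠ 0}) {σ : Equiv.Perm I} (hσ : InW (ndL nd g) σ) (c : M)
    (ζ : {a // g a ≠ 0} → M) (a : I) : h67_ex g c ζ (σ a) = h67_ex g c ζ a := by
  by_cases h : g a = 0
  · rw [h67_ex_neg _ _ h, h67_ex_neg _ _ (((inW_ndL.1 hσ).2 a).trans h)]
  · rw [h67_fix hg hσ h]

theorem h67_ex_add (ζ ζ' : {a // g a ≠ 0} → ℂ) :
    h67_ex g 0 ζ + h67_ex g 0 ζ' = h67_ex g 0 (ζ + ζ') := by
  funext a
  by_cases h : g a = 0
  · simp only [Pi.add_apply, h67_ex_neg _ _ h, add_zero]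
  · simp only [Pi.add_apply, h67_ex_pos _ _ h]

theorem h67_ex_mul (u u' : {a // g a ≠ 0} → ℂˣ) :
    h67_ex g 1 u * h67_ex g 1 u' = h67_ex g 1 (u * u') := by
  funext a
  by_cases h : g a = 0
  · simp only [Pi.mul_apply, h67_ex_neg _ _ h, mul_one]
  · simp only [Pi.mul_apply, h67_ex_pos _ _ h]

theorem h67_ex_const (c : M) : h67_ex g c (fun _ => c) = fun _ => c := by
  funext a
  by_cases h : g a = 0
  · rw [h67_ex_neg _ _ h]
  · rw [h67_ex_pos _ _ h]

theorem h67_tr_rename {ζ : I → ℂ} {σ : Equiv.Perm I} (h : ∀ a, ζ (σ a) = ζ a) (f : PP I) :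
    h67_tr ζ (MvPolynomial.rename σ f) = MvPolynomial.rename σ (h67_tr ζ f) := by
  induction f using MvPolynomial.induction_on with
  | C c => simp
  | add p q hp hq => simp only [h67_tr, map_add] at hp hq ⊢; rw [hp, hq]
  | mul_X p a hp => simp only [h67_tr, map_mul] at hp ⊢; rw [hp]; simp [h]

theorem h67_tr_eval (ζ t : I → ℂ) (f : PP I) :
    MvPolynomial.eval t (h67_tr ζ f) = MvPolynomial.eval (t + ζ) f := by
  induction f using MvPolynomial.induction_on with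
  | C c => simp
  | add p q hp hq => simp only [h67_tr, map_add] at hp hq ⊢; rw [hp, hq]
  | mul_X p a hp => simp only [h67_tr, map_mul] at hp ⊢; rw [hp]; simp
end

omit [Fintype I] in
theorem h67_tr_fix {ζ : I → ℂ} {f : PP I} (h : ∀ a ∈ f.vars, ζ a = 0) : h67_tr ζ f = f := by
  have h1 := MvPolynomial.hom_congr_vars
    (f₁ := ((MvPolynomial.aeval (fun a => MvPolynomial.X a + MvPolynomial.C (ζ a)) :
      PP I →ₐ[ℂ] PP I) : PP I →+* PP I)) (f₂ := RingHom.id _) (p₁ := f) (p₂ := f)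
    (by ext; simp) (fun a ha _ => by simp [h a ha]) rfl
  exact h1

variable {T : (I → ℂ) → (I → ℂˣ) → LL I ≃ₐ[ℂ] LL I} {φ : (I → ℂ) → KK I →ₐ[ℂ] KK I} {g : I → ℂ}

omit [DecidableEq I] in
theorem h67_Tr.pL (H : h67_Tr T φ) (ζ : I → ℂ) (u : I → ℂˣ) (p : PP I) :
    T ζ u (pL p) = pL (h67_tr ζ p) := by
  simp only [C73.pL, H.single, H.poly, Pi.zero_apply, zpow_zero, Finset.prod_const_one,
    Units.val_one, one_smul]

omit [DecidableEq I] in
theorem h67_Tr.uL (H : h67_Tr T φ) (ζ : I → ℂ) (u : I → ℂˣ) (l : I → ℤ) :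
    T ζ u (uL' l) = ((∏ a, u a ^ l a : ℂˣ) : ℂ) • uL' l := by
  rw [uL', H.single, map_one, AddMonoidAlgebra.smul_single]

theorem h67_Tr.mono (H : h67_Tr T φ) (hg : InjOn g {a | g a ≠ 0}) (ζ : {a // g a ≠ 0} → ℂ)
    (u : {a // g a ≠ 0} → ℂˣ) (l : I → ℤ) (f : PP I) :
    T (h67_ex g 0 ζ) (h67_ex g 1 u) (mono (ndL nd g) (arL ar) (frL fr) l f) =
      ((∏ a, h67_ex g 1 u a ^ l a : ℂˣ) : ℂ) •
        mono (ndL nd g) (arL ar) (frL fr) l (h67_tr (h67_ex g 0 ζ) f) := by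
  simp only [C73.mono, map_sum, Finset.smul_sum]
  refine Finset.sum_congr rfl fun σ hσ => ?_
  simp only [Finset.mem_filter] at hσ
  have hσ' : InW (ndL nd g) σ := hσ.2
  have h1 : ∏ a, h67_ex g 1 u a ^ (l ∘ σ.symm) a = ∏ a, h67_ex g 1 u a ^ l a :=
    (Finset.prod_equiv σ (by simp only [Finset.mem_univ, implies_true]) fun a _ => by simp [h67_ex_inv hg hσ']).symm
  rw [H.single, map_mul, H.poly, h67_tr_rename (h67_ex_inv hg hσ' 0 ζ), h1,
    ilf_EE_fix hg _ fun a ha => ?_, AddMonoidAlgebra.smul_single]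
  rw [ww, H.poly]
  simp only [MvPolynomial.aeval_X, h67_ex_neg _ _ ha, MvPolynomial.C_0, add_zero]

theorem h67_Tr.mem (H : h67_Tr T φ) (hg : InjOn g {a | g a ≠ 0}) (ζ : {a // g a ≠ 0} → ℂ)
    (u : {a // g a ≠ 0} → ℂˣ) {x : LL I} (hx : x ∈ Lev nd ar fr g) :
    T (h67_ex g 0 ζ) (h67_ex g 1 u) x ∈ Lev nd ar fr g := by
  have h : Lev nd ar fr g ≤ (Lev nd ar fr g).comap
      (T (h67_ex g 0 ζ) (h67_ex g 1 u) : LL I →ₐ[ℂ] LL I) := by
    refine Algebra.adjoin_le ?_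
    rintro _ ⟨l, f, hl, rfl⟩
    change T (h67_ex g 0 ζ) (h67_ex g 1 u) (C73.mono (ndL nd g) (arL ar) (frL fr) l f) ∈
      Lev nd ar fr g
    rw [H.mono hg]
    exact Subalgebra.smul_mem _ (mono_mem hl _) _
  exact h hx

/-- the restriction to the Levi algebra -/
def h67_Tr.th (H : h67_Tr T φ) (hg : InjOn g {a | g a ≠ 0}) (ζ : {a // g a ≠ 0} → ℂ)
    (u : {a // g a ≠ 0} → ℂˣ) : Lev nd ar fr g →ₐ[ℂ] Lev nd ar fr g :=
  ((T (h67_ex g 0 ζ) (h67_ex g 1 u) : LL I →ₐ[ℂ] LL I).comp (Lev nd ar fr g).val).codRestrict _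
    fun b => H.mem hg ζ u b.2

theorem h67_Tr.th_coe (H : h67_Tr T φ) (hg : InjOn g {a | g a ≠ 0}) (ζ : {a // g a ≠ 0} → ℂ)
    (u : {a // g a ≠ 0} → ℂˣ) (b : Lev nd ar fr g) :
    (H.th hg ζ u b : LL I) = T (h67_ex g 0 ζ) (h67_ex g 1 u) b := rfl

theorem h67_Tr.th_mul (H : h67_Tr T φ) (hg : InjOn g {a | g a ≠ 0}) (ζ ζ' : {a // g a ≠ 0} → ℂ)
    (u u' : {a // g a ≠ 0} → ℂˣ) (b : Lev nd ar fr g) :
    H.th hg ζ u (H.th hg ζ' u' b) = H.th hg (ζ + ζ') (u * u') b :=
  Subtype.ext (by rw [H.th_coe, H.th_coe, H.th_coe, H.mul, h67_ex_add, h67_ex_mul])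

theorem h67_Tr.th_one (H : h67_Tr T φ) (hg : InjOn g {a | g a ≠ 0}) (b : Lev nd ar fr g) :
    H.th hg 0 1 b = b :=
  Subtype.ext (by
    rw [H.th_coe]
    have h0 : h67_ex g (0 : ℂ) 0 = 0 := h67_ex_const 0
    have h1 : h67_ex g (1 : ℂˣ) 1 = 1 := h67_ex_const 1
    rw [h0, h1, H.one])

/-- the action on points -/
def h67_Tr.act (H : h67_Tr T φ) (hg : InjOn g {a | g a ≠ 0}) (x : Pt (Lev nd ar fr g))
    (ζ : {a // g a ≠ 0} → ℂ) (u : {a // g a ≠ 0} → ℂˣ) : Pt (Lev nd ar fr g) :=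
  AlgHom.comp (x : Lev nd ar fr g →ₐ[ℂ] ℂ) (H.th hg ζ u)

theorem h67_Tr.act_apply (H : h67_Tr T φ) (hg : InjOn g {a | g a ≠ 0}) (x : Pt (Lev nd ar fr g))
    (ζ : {a // g a ≠ 0} → ℂ) (u : {a // g a ≠ 0} → ℂˣ) (b : Lev nd ar fr g) :
    H.act hg x ζ u b = x (H.th hg ζ u b) := rfl

theorem h67_Tr.act_act (H : h67_Tr T φ) (hg : InjOn g {a | g a ≠ 0}) (x : Pt (Lev nd ar fr g))
    (ζ ζ' : {a // g a ≠ 0} → ℂ) (u u' : {a // g a ≠ 0} → ℂˣ) :
    H.act hg (H.act hg x ζ u) ζ' u' = H.act hg x (ζ + ζ') (u * u') :=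
  DFunLike.ext _ _ fun b => by rw [H.act_apply, H.act_apply, H.th_mul, H.act_apply]

theorem h67_Tr.act_one (H : h67_Tr T φ) (hg : InjOn g {a | g a ≠ 0}) (x : Pt (Lev nd ar fr g)) :
    H.act hg x 0 1 = x :=
  DFunLike.ext _ _ fun b => by rw [H.act_apply, H.th_one]

theorem h67_Tr.act_X (H : h67_Tr T φ) (hg : InjOn g {a | g a ≠ 0}) (x : Pt (Lev nd ar fr g))
    (ζ : {a // g a ≠ 0} → ℂ) (u : {a // g a ≠ 0} → ℂˣ) {a : I} (ha : g a ≠ 0) {b : Lev nd ar fr g}
    (hb : (b : LL I) = C73.pL (MvPolynomial.X a)) : H.act hg x ζ u b = x b + ζ ⟨a, ha⟩ := by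
  have h : H.th hg ζ u b = b + algebraMap ℂ _ (ζ ⟨a, ha⟩) := Subtype.ext (by
    rw [H.th_coe, hb, H.pL, h67_tr, MvPolynomial.aeval_X, il_pL_add, il_pL_C, h67_ex_pos _ _ ha,
      Subalgebra.coe_add, hb]
    rfl)
  rw [H.act_apply, h, map_add, AlgHomClass.commutes]
  rfl

theorem h67_Tr.act_u (H : h67_Tr T φ) (hg : InjOn g {a | g a ≠ 0}) (x : Pt (Lev nd ar fr g))
    (ζ : {a // g a ≠ 0} → ℂ) (u : {a // g a ≠ 0} → ℂˣ) {a : I} (ha : g a ≠ 0) {n : ℤ}
    {b : Lev nd ar fr g} (hb : (b : LL I) = uL' (Pi.single a n)) :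
    H.act hg x ζ u b = ((u ⟨a, ha⟩ ^ n : ℂˣ) : ℂ) * x b := by
  have h1 : ∏ c, h67_ex g 1 u c ^ (Pi.single a n : I → ℤ) c = u ⟨a, ha⟩ ^ n := by
    rw [Finset.prod_eq_single a (fun c _ hc => by simp [hc]) (by simp only [Finset.mem_univ, not_true_eq_false, Pi.single_eq_same, IsEmpty.forall_iff]), h67_ex_pos _ _ ha,
      Pi.single_eq_same]
  have h : H.th hg ζ u b = ((u ⟨a, ha⟩ ^ n : ℂˣ) : ℂ) • b := Subtype.ext (by
    rw [H.th_coe, hb, H.uL, h1, Subalgebra.coe_smul, hb])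
  rw [H.act_apply, h, map_smul, smul_eq_mul]

theorem h67_Tr.act_mono (H : h67_Tr T φ) (hg : InjOn g {a | g a ≠ 0}) (x : Pt (Lev nd ar fr g))
    (ζ : {a // g a ≠ 0} → ℂ) (u : {a // g a ≠ 0} → ℂˣ) {l : I → ℤ} {f : PP I}
    (hl : ∀ a, g a ≠ 0 → l a = 0) (hf : ∀ a ∈ f.vars, g a = 0) {b : Lev nd ar fr g}
    (hb : (b : LL I) = C73.mono (ndL nd g) (arL ar) (frL fr) l f) : H.act hg x ζ u b = x b := by
  have h1 : ∏ c, h67_ex g 1 u c ^ l c = 1 := Finset.prod_eq_one fun c _ => by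
    by_cases hc : g c = 0
    · rw [h67_ex_neg _ _ hc, one_zpow]
    · rw [hl c hc, zpow_zero]
  have h : H.th hg ζ u b = b := Subtype.ext (by
    rw [H.th_coe, hb, H.mono hg, h1, h67_tr_fix fun a ha => h67_ex_neg _ _ (hf a ha),
      Units.val_one, one_smul])
  rw [H.act_apply, h]

theorem h67_Tr.act_cont (H : h67_Tr T φ) (hg : InjOn g {a | g a ≠ 0}) :
    Continuous fun p : Pt (Lev nd ar fr g) × (({a // g a ≠ 0} → ℂ) × ({a // g a ≠ 0} → ℂˣ)) =>
      H.act hg p.1 p.2.1 p.2.2 := by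
  rw [← continuousOn_univ]
  refine cont_pt (ilf_gen hg) fun b hb => Continuous.continuousOn ?_
  have hc : Continuous fun p : Pt (Lev nd ar fr g) ×
      (({a // g a ≠ 0} → ℂ) × ({a // g a ≠ 0} → ℂˣ)) => p.1 b := (pt_cont b).comp continuous_fst
  have hu : ∀ (a : I) (ha : g a ≠ 0) (n : ℤ), (b : LL I) = uL' (Pi.single a n) →
      Continuous fun p : Pt (Lev nd ar fr g) × (({a // g a ≠ 0} → ℂ) × ({a // g a ≠ 0} → ℂˣ)) =>
        H.act hg p.1 p.2.1 p.2.2 b := fun a ha n hb => by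
    simp only [H.act_u hg _ _ _ ha hb]
    have h1 : Continuous fun p : Pt (Lev nd ar fr g) ×
        (({a // g a ≠ 0} → ℂ) × ({a // g a ≠ 0} → ℂˣ)) => p.2.2 ⟨a, ha⟩ ^ n :=
      ((continuous_apply _).comp (continuous_snd.comp continuous_snd)).zpow n
    exact (Units.continuous_val.comp h1).mul hc
  rcases hb with ⟨a, ha, hb | hb | hb⟩ | ⟨l, f, -, hl, hf, hb⟩
  · simp only [H.act_X hg _ _ _ ha hb]
    exact hc.add ((continuous_apply _).comp (continuous_fst.comp continuous_snd))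
  · exact hu a ha _ hb
  · exact hu a ha _ hb
  · simp only [H.act_mono hg _ _ _ hl hf hb]
    exact hc

theorem h67_Tr.act_VV (H : h67_Tr T φ) (hg : InjOn g {a | g a ≠ 0}) (m : I → ℤ) (P : ℤ → Prop)
    {x : Pt (Lev nd ar fr g)} (hx : x ∈ VV {a | ∃ n, P n ∧ a ∈ grC (Lev nd ar fr g) m n})
    (ζ : {a // g a ≠ 0} → ℂ) (u : {a // g a ≠ 0} → ℂˣ) :
    H.act hg x ζ u ∈ VV {a | ∃ n, P n ∧ a ∈ grC (Lev nd ar fr g) m n} := by
  rintro b ⟨n, hn, hb⟩
  exact hx _ ⟨n, hn, fun l hl => hb l ((H.supp _ _ _ l).1 hl)⟩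

theorem h67_Tr.act_VV_iff (H : h67_Tr T φ) (hg : InjOn g {a | g a ≠ 0}) (m : I → ℤ) (P : ℤ → Prop)
    (x : Pt (Lev nd ar fr g)) (ζ : {a // g a ≠ 0} → ℂ) (u : {a // g a ≠ 0} → ℂˣ) :
    H.act hg x ζ u ∈ VV {a | ∃ n, P n ∧ a ∈ grC (Lev nd ar fr g) m n} ↔
      x ∈ VV {a | ∃ n, P n ∧ a ∈ grC (Lev nd ar fr g) m n} := by
  refine ⟨fun h => ?_, fun h => H.act_VV hg m P h ζ u⟩
  have h1 := H.act_VV hg m P h (-ζ) u⁻¹
  rwa [H.act_act, add_neg_cancel, mul_inv_cancel, H.act_one] at h1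

theorem h67_Tr.act_rk (H : h67_Tr T φ) (har : ∀ j, ar j j = 0) (hg : InjOn g {a | g a ≠ 0})
    (x : Pt (Lev nd ar fr g)) (ζ : {a // g a ≠ 0} → ℂ) (u : {a // g a ≠ 0} → ℂˣ) :
    rk (brA (Lev nd ar fr g)) (H.act hg x ζ u) = rk (brA (Lev nd ar fr g)) x := by
  let θ : Lev nd ar fr g ≃ₐ[ℂ] Lev nd ar fr g := AlgEquiv.ofAlgHom (H.th hg ζ u) (H.th hg (-ζ) u⁻¹)
    (AlgHom.ext fun b => by
      rw [AlgHom.comp_apply, H.th_mul, add_neg_cancel, mul_inv_cancel, H.th_one]; rfl)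
    (AlgHom.ext fun b => by
      rw [AlgHom.comp_apply, H.th_mul, neg_add_cancel, inv_mul_cancel, H.th_one]; rfl)
  refine rk_aut θ (fun f f' => Subtype.ext ?_) fun a => rfl
  have hc : ∀ y y' : Lev nd ar fr g, (brA (Lev nd ar fr g) y y' : LL I) = C73.br y y' :=
    brA_coe (nd := ndL nd g) (ar := arL ar) (fr := frL fr) (arL_loop har)
  change (H.th hg ζ u _ : LL I) = brA (Lev nd ar fr g) (H.th hg ζ u f) (H.th hg ζ u f')
  rw [hc, H.th_coe, H.th_coe, H.th_coe, hc, H.br]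

theorem h67_X_mem (hg : InjOn g {a | g a ≠ 0}) {a : I} (ha : g a ≠ 0) :
    pL (MvPolynomial.X a) ∈ Lev nd ar fr g :=
  pL_mem (nd := ndL nd g) fun σ hσ => by rw [MvPolynomial.rename_X, h67_fix hg hσ ha]

theorem h67_u_mem (hg : InjOn g {a | g a ≠ 0}) {a : I} (ha : g a ≠ 0) {n : ℤ} (hn : n = 1 ∨ n = -1) :
    uL' (Pi.single a n) ∈ Lev nd ar fr g := by
  refine il_uL_mem ?_ (fun b c h => ?_) fun b h => ?_
  · rcases hn with rfl | rfl
    · exact Or.inl fun b => by by_cases h : b = a <;> simp [h]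
    · exact Or.inr fun b => by by_cases h : b = a <;> simp [h]
  · by_cases hb : b = a
    · rw [hb, hg ha (show g c ≠ 0 from h ▸ hb ▸ ha) (hb ▸ h)]
    · have hc : c ≠ a := fun hc => hb (hg (show g b ≠ 0 from h ▸ hc ▸ ha) ha (hc ▸ h))
      simp [hb, hc]
  · have hb : b ≠ a := fun hb => ha (hb ▸ h)
    simp [hb]

theorem h67_u_mul {x : Pt (Lev nd ar fr g)} {a : I} {b b' : Lev nd ar fr g}
    (hb : (b : LL I) = uL' (Pi.single a 1)) (hb' : (b' : LL I) = uL' (Pi.single a (-1))) :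
    x b * x b' = 1 := by
  have h : b * b' = 1 := Subtype.ext (by
    rw [Subalgebra.coe_mul, hb, hb', ← il_uL_mul, ← Pi.single_add, add_neg_cancel, Pi.single_zero]
    rfl)
  rw [← map_mul, h, map_one]

/-- the free `w` coordinates -/
def h67_wv (hg : InjOn g {a | g a ≠ 0}) (x : Pt (Lev nd ar fr g)) (a : {a // g a ≠ 0}) : ℂ :=
  x ⟨_, h67_X_mem hg a.2⟩

/-- the free `u` coordinates -/
def h67_uv (hg : InjOn g {a | g a ≠ 0}) (x : Pt (Lev nd ar fr g)) (a : {a // g a ≠ 0}) : ℂˣ :=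
  ⟨x ⟨_, h67_u_mem hg a.2 (Or.inl rfl)⟩, x ⟨_, h67_u_mem hg a.2 (Or.inr rfl)⟩, h67_u_mul rfl rfl,
    (mul_comm _ _).trans (h67_u_mul rfl rfl)⟩

theorem h67_Tr.wv_act (H : h67_Tr T φ) (hg : InjOn g {a | g a ≠ 0}) (y : LevY nd ar fr g)
    (ζ : {a // g a ≠ 0} → ℂ) (u : {a // g a ≠ 0} → ℂˣ) : h67_wv hg (H.act hg y.1 ζ u) = ζ :=
  funext fun a => by rw [h67_wv, H.act_X hg _ _ _ a.2 rfl, (y.2 a a.2 _).1 rfl, zero_add]

theorem h67_Tr.uv_act (H : h67_Tr T φ) (hg : InjOn g {a | g a ≠ 0}) (y : LevY nd ar fr g)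
    (ζ : {a // g a ≠ 0} → ℂ) (u : {a // g a ≠ 0} → ℂˣ) : h67_uv hg (H.act hg y.1 ζ u) = u :=
  funext fun a => Units.ext (by
    change H.act hg y.1 ζ u ⟨_, h67_u_mem hg a.2 (Or.inl rfl)⟩ = _
    rw [H.act_u hg _ _ _ a.2 rfl, (y.2 a a.2 _).2 rfl, mul_one, zpow_one])

theorem h67_Tr.act_Y (H : h67_Tr T φ) (hg : InjOn g {a | g a ≠ 0}) (x : Pt (Lev nd ar fr g)) :
    H.act hg x (-h67_wv hg x) (h67_uv hg x)⁻¹ ∈ LevY nd ar fr g := by
  refine fun a ha b => ⟨fun hb => ?_, fun hb => ?_⟩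
  · rw [H.act_X hg _ _ _ ha hb, show b = ⟨_, h67_X_mem hg ha⟩ from Subtype.ext hb]
    exact add_neg_cancel _
  · rw [H.act_u hg _ _ _ ha hb, zpow_one, mul_comm]
    exact h67_u_mul hb rfl

/-- the product decomposition -/
def h67_Tr.Th (H : h67_Tr T φ) (hg : InjOn g {a | g a ≠ 0}) :
    LevY nd ar fr g × (({a // g a ≠ 0} → ℂ) × ({a // g a ≠ 0} → ℂˣ)) ≃ₜ Pt (Lev nd ar fr g) where
  toFun p := H.act hg p.1.1 p.2.1 p.2.2
  invFun x := (⟨_, H.act_Y hg x⟩, h67_wv hg x, h67_uv hg x)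
  left_inv := by
    rintro ⟨y, ζ, u⟩
    refine Prod.ext (Subtype.ext ?_) (Prod.ext (H.wv_act hg y ζ u) (H.uv_act hg y ζ u))
    change H.act hg (H.act hg y.1 ζ u) (-h67_wv hg (H.act hg y.1 ζ u))
      (h67_uv hg (H.act hg y.1 ζ u))⁻¹ = y.1
    rw [H.wv_act, H.uv_act, H.act_act, add_neg_cancel, mul_inv_cancel, H.act_one]
  right_inv x := by
    change H.act hg (H.act hg x (-h67_wv hg x) (h67_uv hg x)⁻¹) (h67_wv hg x) (h67_uv hg x) = x
    rw [H.act_act, neg_add_cancel, inv_mul_cancel, H.act_one]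
  continuous_toFun :=
    (H.act_cont hg).comp ((continuous_subtype_val.comp continuous_fst).prodMk continuous_snd)
  continuous_invFun := by
    have hw : Continuous (h67_wv (nd := nd) (ar := ar) (fr := fr) hg) :=
      continuous_pi fun a => pt_cont _
    have hu : Continuous (h67_uv (nd := nd) (ar := ar) (fr := fr) hg) :=
      continuous_pi fun a => Units.continuous_iff.2 ⟨pt_cont _, pt_cont _⟩
    exact (((H.act_cont hg).comp (continuous_id.prodMk (hw.neg.prodMk hu.inv))).subtype_mk _).prodMk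
      (hw.prodMk hu)

/-- F4: assembly -/
theorem il_free (har : ∀ j, ar j j = 0) {g : I → ℂ} (hg : InjOn g {a | g a ≠ 0}) :
    ∃ Θ, IsFree nd ar fr g Θ := by
  obtain ⟨T, φ, h1, h2, h3, h4, h5, h6⟩ := ilf_exists_tr (I := I)
  have H : h67_Tr T φ := ⟨h1, h2, h3, h4, h5, h6⟩
  refine ⟨H.Th hg, fun a ha => ⟨h67_X_mem hg ha, h67_u_mem hg ha (Or.inl rfl),
    h67_u_mem hg ha (Or.inr rfl)⟩, fun y ζ u t ht p b hb => ?_, fun y ζ u a b hb => ?_,
    fun y ζ u l _ f b hl hf hb => H.act_mono hg _ _ _ hl hf hb, ilf_gen hg,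
    fun y q => H.act_rk har hg _ _ _,
    fun m _ y q => ⟨H.act_VV_iff hg m _ _ _ _, H.act_VV_iff hg m _ _ _ _⟩,
    fun e he y y' q q' t σ hσ h0 ht ht' hx hx' h => ?_⟩
  · change y.1 (H.th hg ζ u b) = _
    rw [ht _ _ (by rw [H.th_coe, hb, H.pL]), h67_tr_eval]
    congr 2
    funext a
    by_cases ha : g a = 0
    · simp [h67_ex_neg _ _ ha, ha]
    · have h7 := ht _ ⟨_, h67_X_mem hg ha⟩ rfl
      rw [(y.2 a ha _).1 rfl, MvPolynomial.eval_X] at h7
      simp [h67_ex_pos _ _ ha, ha, ← h7]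
  · change H.act hg y.1 ζ u b = _
    rw [H.act_u hg _ _ _ a.2 hb, (y.2 a a.2 _).2 hb, mul_one, zpow_one]
  · refine Subtype.ext (AlgHom.ext_of_adjoin_eq_top (ilf_gen hg) ?_)
    rintro b (⟨a, ha, hb | hb | hb⟩ | ⟨l, f, -, hl, hf, hb⟩)
    · exact ((y.2 a ha b).1 hb).trans ((y'.2 a ha b).1 hb).symm
    · exact ((y.2 a ha b).2 hb).trans ((y'.2 a ha b).2 hb).symm
    · have h7 : ∀ z : LevY nd ar fr g, z.1 b = 1 := fun z => by
        have h8 := h67_u_mul (x := z.1) (b := ⟨_, h67_u_mem hg ha (Or.inl rfl)⟩) rfl hb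
        rwa [(z.2 a ha _).2 rfl, one_mul] at h8
      exact (h7 y).trans (h7 y').symm
    · exact (H.act_mono hg y.1 q.1 q.2 hl hf hb).symm.trans
        ((ilf_eqv hg he hσ h0 ht ht' hx hx' h hl hf hb).trans (H.act_mono hg y'.1 q'.1 q'.2 hl hf hb))

end C73
end
end

section
/-! Block A3, part of helper99: the Levi map. -/

open Set

namespace C73

variable {I ι : Type} [Fintype I] [DecidableEq I] {nd : I → ι} {ar : ι → ι → ℕ} {fr : ι → ℕ}

theorem h99_levi (har : ∀ j, ar j j = 0) (g : I → ℂ) : ∃ e, IsLevi nd ar fr g e := by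
  have hsub := h99_levi_sub (nd := nd) (ar := ar) (fr := fr) (g := g)
  have hgen := h99_levi_gen (nd := nd) (ar := ar) (fr := fr) (g := g)
  obtain ⟨e, hval⟩ := h99_levi_ex hsub
  have hs : ∀ t, Ok g t → SurjOn e (Fib (Lev nd ar fr g) t) (Fib (Cou nd ar fr) t) :=
    fun t ht y hy =>
    let ⟨x, hx, h⟩ := h99_levi_sur hgen t ht y hy
    ⟨x, hx, DFunLike.ext _ _ fun a => let ⟨N, b, hb⟩ := hsub a
      mul_left_cancel₀ (pow_ne_zero N (h99_dlt_ne ht))
        ((hval t ht x hx a b N hb).symm.trans (h a b N hb))⟩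
  exact ⟨e, h99_levi_cont hsub hval, hsub, hval,
    fun t ht => ⟨h99_levi_maps hval ht, h99_levi_inj hsub hval hgen ht, hs t ht⟩,
    h99_levi_emb hsub hval hgen hs, h99_levi_rk har hsub hval hgen,
    h99_levi_pos har hsub hval hgen, h99_levi_same har hsub hval hgen⟩

end C73
end

section
/-! Block A3: Levi theories. -/

open Set Filter Topology TopologicalSpace

noncomputable section
namespace C73

variable {I ι : Type} [Fintype I] [DecidableEq I] {nd : I → ι} {ar : ι → ι → ℕ} {fr : ι → ℕ}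

theorem levi (har : ∀ j, ar j j = 0) (g : I → ℂ) : ∃ e, IsLevi nd ar fr g e := h99_levi har g
theorem ok_self (t : I → ℂ) : Ok t t := il_ok_self t
theorem exists_omega {g t : I → ℂ} (h : Ok g t) {U : Set (I → ℂ)} (hU : U ∈ 𝓝 t) :
    ∃ Ω, IsOpen Ω ∧ t ∈ Ω ∧ Ω ⊆ U ∧ (∀ t' ∈ Ω, Ok g t') ∧
      ∀ σ, InW nd σ → ∀ t' ∈ Ω, t' ∘ σ ∈ Ω → InW g σ := il_exists_omega h hU
open Classical in
/-- the invertible monopoles of a nonzero group -/
theorem lev_unit (g : I → ℂ) {ζ : ℂ} (hζ : ζ ≠ 0) :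
    uL' (fun a => if g a = ζ then 1 else 0) ∈ Lev nd ar fr g ∧
    uL' (fun a => if g a = ζ then -1 else 0) ∈ Lev nd ar fr g := il_lev_unit g hζ
/-- at least twice the number of distinct nonzero eigenvalues -/
theorem rk_ge (har : ∀ j, ar j j = 0) {x : Pt (Cou nd ar fr)} {t : I → ℂ}
    (h : x ∈ Fib (Cou nd ar fr) t) : 2 * (range t \ {0}).ncard ≤ rk (brA (Cou nd ar fr)) x :=
  h79_rk_ge har (levi har) h
theorem free (har : ∀ j, ar j j = 0) {g : I → ℂ} (hg : InjOn g {a | g a ≠ 0}) :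
    ∃ Θ, IsFree nd ar fr g Θ := il_free har hg

end C73
end
end
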