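import Pool.Agent.MP_94fa45_ag.Mg.C73_AK
import Pool.Agent.MP_94fa45_ag.Mg.C73_LV
import Pool.Agent.MP_94fa45_ag.C73.SB

attribute [-instance] SubringClass.toCommRing AlgHom.instContinuousLinearMapClassOfAlgHomClass
  instSMulZeroClass Complex.instModule SemilinearIsometryClass.toContinuousSemilinearMapClass
  RKHS.instFunLike CoalgHomClass.toSemilinearMapClass LieAdmissibleAlgebra.toModule
  Algebra.Generators.instRing RightPreLieAlgebra.toModule LeftPreLieAlgebra.toModule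
  LieAlgebra.toModule
  PositiveLinearMap.instContinuousLinearMapClassComplexOfLinearMapClassOfOrderHomClass
  RingHomClass.toLinearMapClassRat SemilinearIsometryClass.toSemilinearMapClass
  CommMonTypeEquivalenceCommMon.commMonCommMonoid
  NonUnitalAlgHomClass.instSemilinearMapClassOfNonUnitalAlgSemiHomClassToMonoidHomRingHom
  IsAffineAddMonoid.toIsCancelAdd instNonUnitalAlgHomClassOfNonUnitalAlgEquivClass
  MonTypeEquivalenceMon.monMonoid Complex.instDistribMulActionOfReal AlgHomClass.linearMapClass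
  BialgEquivClass.toBialgHomClass littleWedderburn invertibleTwo Valued.toUniformSpace
  ContDiffMapSupportedInClass.toDFunLike TestFunctionClass.toDFunLike instCharZeroOfIsSemireal
  bot_nonempty forall_prop_decidable IsPurelyInseparable.isIntegral Prod.instNonAssocSemiring
  SemilatticeInf.toPartialOrder NonUnitalNonAssocRing.toAddCommGroup BialgHomClass.toAlgHomClass
  SemilinearEquivClass.instSemilinearMapClass Nontrivial.to_nonempty BoundedOrder.toOrderTop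
  OreLocalization.instModuleOfIsScalarTower nonempty_equiv_of_countable AlgEquivClass.toAlgHomClass
  MulSemiringActionSemiHomClass.toDistribMulActionSemiHomClass SetLike.GradeZero.instCommRing
  GrpTypeEquivalenceGrp.grpGroup NonUnitalNormedRing.toNormedAddCommGroup instUniformSpaceProd
  instCoeTOfCoeDep coePNatNat CentroidHomClass.toAddMonoidHomClass
  ValuationClass.toMonoidWithZeroHomClass MulCharClass.toMonoidHomClass
  BialgHomClass.toMonoidHomClass MulSemiringAction.toDistribMulAction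
  MulEquivClass.toMonoidWithZeroHomClass Unique.fintype MulRingSeminormClass.toMonoidWithZeroHomClass
  TotallySeparatedSpace.t2Space MulDistribMulActionSemiHomClass.toMonoidHomClass
  IsometryClass.instCoeOutIsometryEquiv Zero.instNonempty
  ContinuousAddMonoidHom.instCoeOutOfAddMonoidHomClassOfContinuousMapClass One.instNonempty
  NonUnitalAlgHomClass.toNonUnitalRingHomClass instIsFractionRing Finset.decidableDforallFinset
  HomeomorphClass.instCoeOutHomeomorph AddTorsor.nonempty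
  OreLocalization.instDistribMulActionOfIsScalarTower Multiset.decidableDforallMultiset
  instCoeTCOfCoe_1 NonarchimedeanAddGroup.toIsTopologicalAddGroup NormedRing.toRing
  instFiniteSubtypeLtOfLocallyFiniteOrderBot GeneralizedHeytingAlgebra.toOrderTop
  Algebra.IsFiniteSplit.instFree RCLike.charZero_rclike IsTopologicalTorsor.toContinuousSMul
  instCoeHTCT Vector.instDecidableForallForallMemOfDecidablePred NormedCommRing.toCommRing instCoeTC
  instCoeHTC

/-! Geometry of the Coulomb branch and of the fixed locus. -/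

section
/-! Block G, part 1: eigenvalue loci. -/

open Set Filter Topology TopologicalSpace

noncomputable section
namespace C73

variable {I ι : Type} [Fintype I] [DecidableEq I] {nd : I → ι} {ar : ι → ι → ℕ} {fr : ι → ℕ}

omit [Fintype I] [DecidableEq I] in
theorem InW.mul {σ τ : Equiv.Perm I} (h : InW nd σ) (h' : InW nd τ) : InW nd (σ * τ) :=
  fun a => (h _).trans (h' a)

omit [Fintype I] [DecidableEq I] in
theorem InW.inv {σ : Equiv.Perm I} (h : InW nd σ) : InW nd σ⁻¹ := fun a => by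
  simpa using (h (σ⁻¹ a)).symm

omit [Fintype I] [DecidableEq I] in
theorem ig_mem_fibS {A : Subalgebra ℂ (LL I)} {T : Set (I → ℂ)} {x : Pt A} :
    x ∈ FibS A T ↔ ∃ t ∈ T, x ∈ Fib A t := by
  simp only [FibS, mem_iUnion, exists_prop]

/-- the preimage of a Zariski closed set of eigenvalues is Zariski closed -/
theorem fibS_zcl {T : Set (I → ℂ)} (hT : ∀ s ∉ T, ∃ q : PP I,
    (∀ t ∈ T, MvPolynomial.eval t q = 0) ∧ MvPolynomial.eval s q ≠ 0) :
    ZCl (FibS (Cou nd ar fr) T) := by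
  classical
  refine ⟨{a | ∃ p, (a : LL I) = pL p ∧ ∀ t ∈ T, MvPolynomial.eval t p = 0}, ?_⟩
  ext x
  refine ⟨fun hx a ⟨p, hp, h0⟩ => ?_, fun hx => ?_⟩
  · obtain ⟨t, ht, hx⟩ := ig_mem_fibS.1 hx
    rw [hx p a hp, h0 t ht]
  obtain ⟨s, hs⟩ := exists_fib x
  by_contra hn
  have h1 : ∀ σ : {σ : Equiv.Perm I // InW nd σ}, s ∘ σ.1 ∉ T := fun σ h =>
    hn (ig_mem_fibS.2 ⟨_, h, (fib_unique hs).2 ⟨σ.1, σ.2, rfl⟩⟩)
  let V : Submodule ℂ (PP I) :=
    { carrier := {q | ∀ t ∈ T, MvPolynomial.eval t q = 0}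
      zero_mem' := fun t _ => map_zero _
      add_mem' := fun ha hb t ht => by rw [map_add, ha t ht, hb t ht, add_zero]
      smul_mem' := fun c q hq t ht => by rw [MvPolynomial.smul_eval, hq t ht, mul_zero] }
  obtain ⟨q, hq, hq'⟩ := Module.Dual.exists_forall_mem_ne_zero_of_forall_exists V
    (fun σ : {σ : Equiv.Perm I // InW nd σ} => (MvPolynomial.aeval (s ∘ σ.1) : PP I →ₐ[ℂ] ℂ).toLinearMap)
    fun σ => let ⟨q, h, h'⟩ := hT _ (h1 σ); ⟨q, h, h'⟩
  let p : PP I := ∏ σ : Equiv.Perm I with InW nd σ, MvPolynomial.rename σ q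
  have hp : pL p ∈ Cou nd ar fr := pL_mem fun τ hτ => by
    simp only [p, map_prod, MvPolynomial.rename_rename]
    refine Finset.prod_bij' (fun σ _ => τ * σ) (fun σ _ => τ⁻¹ * σ) ?_ ?_ ?_ ?_ ?_
    · intro σ h; simpa using hτ.mul (by simpa using h)
    · intro σ h; simpa using hτ.inv.mul (by simpa using h)
    · intro σ _; simp
    · intro σ _; simp
    · intro σ _; rfl
  have h2 := hx ⟨_, hp⟩ ⟨p, rfl, fun t ht => by
    simp only [p, map_prod]
    exact Finset.prod_eq_zero (i := 1) (by simp only [InW, Finset.mem_filter, Finset.mem_univ, Equiv.Perm.coe_one, id_eq, implies_true, and_self]) (by simpa only [Equiv.Perm.coe_one, MvPolynomial.rename_id, AlgHom.coe_id, id_eq] using hq t ht)⟩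
  rw [hs p _ rfl] at h2
  simp only [p, map_prod, Finset.prod_eq_zero_iff, MvPolynomial.eval_rename] at h2
  obtain ⟨σ, hσ, h0⟩ := h2
  exact hq' ⟨σ, by simpa using hσ⟩ h0

theorem fibS_lin_zcl {c : ℕ} (γ : I → Option (Fin c)) :
    ZCl (FibS (Cou nd ar fr) {t | ∃ ζ : Fin c → ℂ, ∀ a, t a = (γ a).elim 0 ζ}) := by
  refine fibS_zcl fun s hs => ?_
  by_cases h0 : ∃ a, γ a = none ∧ s a ≠ 0
  · obtain ⟨a, ha, h⟩ := h0
    exact ⟨MvPolynomial.X a, fun t ⟨ζ, ht⟩ => by simp [ht, ha], by simpa using h⟩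
  by_cases h1 : ∃ a b, γ a = γ b ∧ s a ≠ s b
  · obtain ⟨a, b, hab, h⟩ := h1
    exact ⟨MvPolynomial.X a - MvPolynomial.X b, fun t ⟨ζ, ht⟩ => by simp [ht, hab],
      by simpa [sub_eq_zero] using h⟩
  push Not at h0 h1
  classical
  refine absurd ⟨fun j => if h : ∃ a, γ a = some j then s h.choose else 0, fun a => ?_⟩ hs
  rcases hγ : γ a with _ | j
  · exact h0 a hγ
  · have h : ∃ a, γ a = some j := ⟨a, hγ⟩
    simp only [Option.elim, dif_pos h]
    exact h1 _ _ (hγ.trans h.choose_spec.symm)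

theorem uL_grC {A : Subalgebra ℂ (LL I)} (m : I → ℤ) {l : I → ℤ} {a : A} (h : (a : LL I) = uL' l) :
    a ∈ grC A m (∑ c, m c * l c) := fun l' hl => by
  classical
  rw [h, uL', AddMonoidAlgebra.coeff_single, Finsupp.single_apply] at hl
  rw [show l = l' by by_contra h; exact hl (if_neg h)]

/-- polynomials in the `w` have weight zero -/
theorem pL_grC {A : Subalgebra ℂ (LL I)} (m : I → ℤ) {p : PP I} {a : A} (h : (a : LL I) = pL p) :
    a ∈ grC A m 0 := fun l' hl => by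
  classical
  rw [h, pL, AddMonoidAlgebra.coeff_single, Finsupp.single_apply] at hl
  rw [← show 0 = l' by by_contra h; exact hl (if_neg h)]
  simp only [Pi.zero_apply, mul_zero, Finset.sum_const_zero]

theorem fib_same {A : Subalgebra ℂ (LL I)} {m : I → ℤ} {x y : Pt A} (h : Same0 (grC A m) x y)
    {t : I → ℂ} (hx : x ∈ Fib A t) : y ∈ Fib A t :=
  fun p a ha => (h a (pL_grC m ha)).symm.trans (hx p a ha)

omit [Fintype I] [DecidableEq I] in
theorem uL_mul (l l' : I → ℤ) : uL' l * uL' l' = uL' (l + l') := by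
  simp [uL', AddMonoidAlgebra.single_mul_single]

theorem fixG_zero {A : Type} [CommRing A] [Algebra ℂ A] {𝒜 : ℤ → Submodule ℂ A} {x : Pt A}
    (hx : x ∈ FixG 𝒜) {n : ℤ} (hn : n ≠ 0) {a : A} (ha : a ∈ 𝒜 n) : x a = 0 :=
  hn.lt_or_gt.elim (fun h => hx.2 a ⟨n, h, ha⟩) fun h => hx.1 a ⟨n, h, ha⟩

theorem IsLevi.fix {g : I → ℂ} {e : Pt (Lev nd ar fr g) → Pt (Cou nd ar fr)}
    (he : IsLevi nd ar fr g e) {m : I → ℤ} (hm : ∀ a b, nd a = nd b → m a = m b) {t : I → ℂ}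
    (ht : Ok g t) {z : Pt (Lev nd ar fr g)} (hz : z ∈ Fib (Lev nd ar fr g) t) :
    e z ∈ FixG (grC (Cou nd ar fr) m) ↔ z ∈ FixG (grC (Lev nd ar fr g) m) :=
  have h := he.pos m hm z (ig_mem_fibS.2 ⟨t, ht, hz⟩)
  and_congr h.1 h.2

/-- at a fixed point the nonzero eigenvalues sit where the cocharacter vanishes -/
theorem fix_node (har : ∀ j, ar j j = 0) {i : ι} {m : I → ℤ} (hm : Coch nd i m)
    {x : Pt (Cou nd ar fr)} (hx : x ∈ FixG (grC (Cou nd ar fr) m)) {t : I → ℂ}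
    (ht : x ∈ Fib (Cou nd ar fr) t) {a : I} (ha : t a ≠ 0) : m a = 0 := by
  classical
  obtain ⟨e, he⟩ := levi (nd := nd) (fr := fr) har t
  obtain ⟨z, hz, rfl⟩ := (he.bij t (ok_self t)).surjOn ht
  have hf := (he.fix hm.1 (ok_self t) hz).1 hx
  obtain ⟨h1, h2⟩ := lev_unit (nd := nd) (ar := ar) (fr := fr) t ha
  have hu : (⟨_, h1⟩ * ⟨_, h2⟩ : Lev nd ar fr t) = 1 := Subtype.ext <| by
    show uL' _ * uL' _ = 1
    rw [uL_mul]
    exact congrArg (AddMonoidAlgebra.single · 1) (funext fun c => by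
      by_cases h : t c = t a <;> simp [h])
  have hw : ∑ c, m c * (if t c = t a then 1 else 0) = 0 := by
    by_contra h
    have := congrArg z hu
    rw [map_mul, fixG_zero hf h (uL_grC (a := ⟨_, h1⟩) m rfl), zero_mul, map_one] at this
    exact zero_ne_one this
  rcases hm.2.2 with h | h
  · simpa using (Finset.sum_eq_zero_iff_of_nonneg fun c _ =>
      mul_nonneg (h c) (by split_ifs <;> simp)).1 hw a (Finset.mem_univ a)
  · simpa using (Finset.sum_eq_zero_iff_of_nonpos fun c _ =>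
      mul_nonpos_of_nonpos_of_nonneg (h c) (by split_ifs <;> simp)).1 hw a (Finset.mem_univ a)

theorem kap_same {m : I → ℤ} {k : ℕ} {x y : Pt (Cou nd ar fr)} (h : Same0 (grC (Cou nd ar fr) m) x y)
    (hx : x ∈ KapLE (Cou nd ar fr) k) : y ∈ KapLE (Cou nd ar fr) k :=
  let ⟨t, ht, hx⟩ := ig_mem_fibS.1 hx
  ig_mem_fibS.2 ⟨t, ht, fib_same h hx⟩

theorem kap_closed (k : ℕ) : IsClosed (KapLE (Cou nd ar fr) k) := by
  classical
  refine ZCl.isClosed (A := Cou nd ar fr)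
    (fibS_zcl fun s hs => ⟨∏ a with s a ≠ 0, MvPolynomial.X a, fun t ht => ?_, ?_⟩)
  · by_contra h
    simp only [map_prod, MvPolynomial.eval_X, Finset.prod_eq_zero_iff, not_exists, not_and,
      Finset.mem_filter, Finset.mem_univ, true_and] at h
    exact hs ((ncard_le_ncard (s := {a | s a ≠ 0}) (fun a ha => h a ha)).trans ht)
  · simp only [ne_eq, map_prod, MvPolynomial.eval_X, Finset.prod_ne_zero_iff, Finset.mem_filter, Finset.mem_univ, true_and, imp_self, implies_true]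

omit [Fintype I] [DecidableEq I] in
theorem ig_ncard_perm (t : I → ℂ) (σ : Equiv.Perm I) :
    {a | (t ∘ σ) a ≠ 0}.ncard = {a | t a ≠ 0}.ncard :=
  ncard_preimage_of_injective_subset_range (s := {a | t a ≠ 0}) σ.injective
    (by simp [σ.surjective.range_eq])

theorem ig_kap_iff {k : ℕ} {x : Pt (Cou nd ar fr)} {t : I → ℂ} (h : x ∈ Fib (Cou nd ar fr) t) :
    x ∈ KapLE (Cou nd ar fr) k ↔ {a | t a ≠ 0}.ncard ≤ k := by
  refine ⟨fun hx => ?_, fun hk => ig_mem_fibS.2 ⟨t, hk, h⟩⟩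
  obtain ⟨t', ht', hx⟩ := ig_mem_fibS.1 hx
  obtain ⟨σ, -, rfl⟩ := (fib_unique h).1 hx
  exact (ig_ncard_perm t σ).ge.trans ht'

theorem ig_gen_iff {k : ℕ} {x : Pt (Cou nd ar fr)} {t : I → ℂ} (h : x ∈ Fib (Cou nd ar fr) t) :
    x ∈ Gen (Cou nd ar fr) k ↔ {a | t a ≠ 0}.ncard = k ∧ InjOn t {a | t a ≠ 0} := by
  refine ⟨fun hx => ?_, fun hk => ig_mem_fibS.2 ⟨t, hk, h⟩⟩
  obtain ⟨t', ht', hx⟩ := ig_mem_fibS.1 hx
  obtain ⟨σ, -, rfl⟩ := (fib_unique hx).1 h
  exact ⟨(ig_ncard_perm t' σ).trans ht'.1, fun a ha b hb hab => σ.injective (ht'.2 ha hb hab)⟩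

theorem gen_kap {k k' : ℕ} {x : Pt (Cou nd ar fr)} (h : x ∈ Gen (Cou nd ar fr) k) :
    x ∈ KapLE (Cou nd ar fr) k' ↔ k ≤ k' := by
  obtain ⟨t, ht, hx⟩ := ig_mem_fibS.1 h
  rw [ig_kap_iff hx, ht.1]

theorem exists_delta (k : ℕ) : ∃ δ : Cou nd ar fr, ∀ y ∈ KapLE (Cou nd ar fr) k,
    (y δ ≠ 0 ↔ y ∈ Gen (Cou nd ar fr) k) := by
  let q : Finset I → PP I := fun J => (∏ a ∈ J, MvPolynomial.X a) *
    ∏ a ∈ J, ∏ b ∈ J.erase a, (MvPolynomial.X a - MvPolynomial.X b)
  let p : PP I := ∑ J ∈ Finset.powersetCard k Finset.univ, q J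
  have hq : ∀ (σ : Equiv.Perm I) J, MvPolynomial.rename σ (q J) = q (J.map σ.toEmbedding) :=
    fun σ J => by
      simp only [q, map_mul, map_prod, map_sub, MvPolynomial.rename_X, Finset.prod_map,
        Equiv.coe_toEmbedding]
      congr 1
      refine Finset.prod_congr rfl fun a _ => ?_
      rw [show (J.map σ.toEmbedding).erase (σ a) = (J.erase a).map σ.toEmbedding from
        (Finset.map_erase σ.toEmbedding J a).symm, Finset.prod_map]
      rfl
  have hp : pL p ∈ Cou nd ar fr := pL_mem fun σ _ => by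
    simp only [p, map_sum, hq]
    exact Finset.sum_equiv σ.finsetCongr (by simp only [Finset.mem_powersetCard, Finset.subset_univ, true_and, Equiv.finsetCongr_apply, Finset.card_map, implies_true]) (by simp only [Finset.mem_powersetCard, Finset.subset_univ, true_and, Equiv.finsetCongr_apply, implies_true])
  refine ⟨⟨_, hp⟩, fun y hy => ?_⟩
  obtain ⟨t, ht, hy⟩ := ig_mem_fibS.1 hy
  have hq' : ∀ J, MvPolynomial.eval t (q J) ≠ 0 ↔ (∀ a ∈ J, t a ≠ 0) ∧ InjOn t J := fun J => by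
    simp only [q, map_mul, map_prod, map_sub, MvPolynomial.eval_X, mul_ne_zero_iff,
      Finset.prod_ne_zero_iff, Finset.mem_erase, sub_ne_zero]
    exact and_congr_right fun _ => ⟨fun h a ha b hb hab => by_contra fun hn =>
      h a ha b ⟨Ne.symm hn, hb⟩ hab, fun h a ha b hb hab => hb.1 (h ha hb.2 hab).symm⟩
  classical
  let S : Finset I := {a | t a ≠ 0}
  have hS : (S : Set I) = {a | t a ≠ 0} := by simp only [S, ne_eq, Finset.coe_filter, Finset.mem_univ, true_and]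
  have hc : {a | t a ≠ 0}.ncard = S.card := by rw [← hS, ncard_coe_finset]
  have hJ : ∀ J ∈ Finset.powersetCard k Finset.univ, MvPolynomial.eval t (q J) ≠ 0 → J = S :=
    fun J hJ h => Finset.eq_of_subset_of_card_le (fun a ha => by simpa only [S, ne_eq, Finset.mem_filter, Finset.mem_univ, true_and] using ((hq' J).1 h).1 a ha)
      (by rw [← hc, (Finset.mem_powersetCard.1 hJ).2]; exact ht)
  rw [hy p _ rfl, ig_gen_iff hy, hc, ← hS, map_sum]
  refine ⟨fun h => ?_, fun h => ?_⟩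
  · obtain ⟨J, h1, h2⟩ := Finset.exists_ne_zero_of_sum_ne_zero h
    obtain rfl := hJ J h1 h2
    exact ⟨(Finset.mem_powersetCard.1 h1).2, ((hq' _).1 h2).2⟩
  · rw [Finset.sum_eq_single_of_mem S (by simpa only [Finset.mem_powersetCard, Finset.subset_univ, true_and] using h.1) fun J h1 h2 =>
      by_contra fun h3 => h2 (hJ J h1 h3)]
    exact (hq' S).2 ⟨fun a ha => by simpa only [ne_eq, S, Finset.mem_filter, Finset.mem_univ, true_and] using ha, h.2⟩

end C73
end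
end

section
/-! Block G, part 2: holonomicity. -/

open Set Filter Topology TopologicalSpace

noncomputable section
namespace C73

variable {I ι : Type} [Fintype I] [DecidableEq I] {nd : I → ι} {ar : ι → ι → ℕ} {fr : ι → ℕ}

/-- the values of the characteristic polynomial at `0, …, n` -/
def ig2E (t : I → ℂ) : Pt (MvPolynomial (Fin (Fintype.card I + 1)) ℂ) :=
  MvPolynomial.aeval fun j => ∏ a, (((j : ℕ) : ℂ) - t a)

omit [DecidableEq I] in
theorem ig2_fin (y : Pt (MvPolynomial (Fin (Fintype.card I + 1)) ℂ)) :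
    ((ig2E : (I → ℂ) → _) ⁻¹' {y}).Finite := by
  rcases ((ig2E : (I → ℂ) → _) ⁻¹' {y}).eq_empty_or_nonempty with h | ⟨t0, h0⟩
  · rw [h]; exact finite_empty
  refine (Finite.pi' fun _ : I => finite_range t0).subset fun t ht a => ?_
  have hd : ∀ s : I → ℂ, (∏ a, (Polynomial.X - Polynomial.C (s a))).natDegree =
      Fintype.card I := fun s => by
    rw [Polynomial.natDegree_prod_of_monic _ _ fun _ _ => Polynomial.monic_X_sub_C _]; simp only [Polynomial.natDegree_sub_C, Polynomial.natDegree_X, Finset.sum_const, Finset.card_univ, smul_eq_mul, mul_one]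
  have e : ∏ a, (Polynomial.X - Polynomial.C (t0 a)) = ∏ a, (Polynomial.X - Polynomial.C (t a)) := by
    refine Polynomial.eq_of_natDegree_lt_card_of_eval_eq _ _
      (f := fun j : Fin (Fintype.card I + 1) => ((j : ℕ) : ℂ))
      (fun i j h => Fin.ext (Nat.cast_injective h)) (fun j => ?_) (by simp only [hd, max_self, Fintype.card_fin, lt_add_iff_pos_right, Order.lt_one_iff])
    have h1 : ∀ s : I → ℂ, ig2E s (MvPolynomial.X j) = ∏ a, (((j : ℕ) : ℂ) - s a) :=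
      fun s => MvPolynomial.aeval_X _ j
    have : ig2E t0 (MvPolynomial.X j) = ig2E t (MvPolynomial.X j) := by
      rw [show ig2E t0 = y from h0, show ig2E t = y from ht]
    rw [h1, h1] at this
    simpa only [Polynomial.eval_prod, Polynomial.eval_sub, Polynomial.eval_X, Polynomial.eval_C] using this
  have := congrArg (Polynomial.eval (t a)) e
  simp only [Polynomial.eval_prod, Polynomial.eval_sub, Polynomial.eval_X,
    Polynomial.eval_C] at this
  rw [Finset.prod_eq_zero (f := fun b => t a - t b) (Finset.mem_univ a) (sub_self _),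
    Finset.prod_eq_zero_iff] at this
  obtain ⟨b, -, hb⟩ := this
  exact ⟨b, (sub_eq_zero.1 hb).symm⟩

/-- base change -/
theorem ig2_base {c : ℕ} (γ : I → Option (Fin c)) {Y : Set (Pt (Cou nd ar fr))} (hY : ZCl Y)
    (hT : Y ⊆ FibS (Cou nd ar fr) {t | ∃ ζ : Fin c → ℂ, ∀ a, t a = (γ a).elim 0 ζ}) {s : ℤ}
    (h : ∀ t, TD (Y ∩ Fib (Cou nd ar fr) t) s) : TD Y (c + s) := by
  have := cou_fg (nd := nd) (ar := ar) (fr := fr)
  let ε : Fin (Fintype.card I + 1) → PP I := fun j =>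
    ∏ a, (MvPolynomial.C ((j : ℕ) : ℂ) - MvPolynomial.X a)
  have hε : ∀ j, pL (ε j) ∈ Cou nd ar fr := fun j => pL_mem fun σ _ => by
    simp only [ε, map_prod, map_sub, MvPolynomial.rename_C, MvPolynomial.rename_X]
    exact Equiv.prod_comp σ fun a => MvPolynomial.C ((j : ℕ) : ℂ) - MvPolynomial.X a
  let Φ : MvPolynomial (Fin (Fintype.card I + 1)) ℂ →ₐ[ℂ] Cou nd ar fr :=
    MvPolynomial.aeval fun j => ⟨_, hε j⟩
  have hΦ : ∀ t, ∀ y ∈ Fib (Cou nd ar fr) t, ∀ b, y (Φ b) = ig2E t b := fun t y hy b => by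
    have : AlgHom.comp y Φ = ig2E t := MvPolynomial.algHom_ext fun j => by
      have h1 : Φ (MvPolynomial.X j) = ⟨_, hε j⟩ := MvPolynomial.aeval_X _ j
      have h2 : ig2E t (MvPolynomial.X j) = ∏ a, (((j : ℕ) : ℂ) - t a) := MvPolynomial.aeval_X _ j
      refine (congrArg y h1).trans ((hy (ε j) _ rfl).trans (Eq.trans ?_ h2.symm))
      simp only [ε, map_natCast, map_prod, map_sub, MvPolynomial.eval_X]
    exact DFunLike.congr_fun this b
  have h0 : TD (ig2E '' {t : I → ℂ | ∃ ζ : Fin c → ℂ, ∀ a, t a = (γ a).elim 0 ζ}) c := by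
    refine td_param (MvPolynomial.aeval fun j : Fin (Fintype.card I + 1) =>
      ∏ a, (MvPolynomial.C ((j : ℕ) : ℂ) - (γ a).elim 0 MvPolynomial.X)) ?_
    rintro _ ⟨t, ⟨ζ, ht⟩, rfl⟩
    refine ⟨ζ, fun b => ?_⟩
    have : ig2E t = (MvPolynomial.aeval ζ).comp (MvPolynomial.aeval
        fun j : Fin (Fintype.card I + 1) =>
          ∏ a, (MvPolynomial.C ((j : ℕ) : ℂ) - (γ a).elim 0 MvPolynomial.X)) :=
      MvPolynomial.algHom_ext fun j => by
        have h2 : ig2E t (MvPolynomial.X j) = ∏ a, (((j : ℕ) : ℂ) - t a) :=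
          MvPolynomial.aeval_X _ j
        refine h2.trans ?_
        rw [AlgHom.comp_apply, MvPolynomial.aeval_X, map_prod]
        refine Finset.prod_congr rfl fun a _ => ?_
        rw [ht a]
        cases γ a <;> simp only [Option.elim_none, sub_zero, map_natCast, Option.elim_some, MvPolynomial.aeval_eq_eval, map_sub, MvPolynomial.eval_X]
    exact DFunLike.congr_fun this b
  obtain ⟨π, -, -, hπ, -⟩ := noether h0
  refine td_fib hY (fun j => Φ (π j)) fun ζ => ?_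
  have hf := (hπ ζ).preimage' fun y _ => ig2_fin y
  have := hf.to_subtype
  refine (TD.iUnion fun t : ig2E ⁻¹' {y ∈ ig2E '' {t : I → ℂ | ∃ ζ : Fin c → ℂ,
    ∀ a, t a = (γ a).elim 0 ζ} | ∀ j, y (π j) = ζ j} => h t).mono (fun y hy => ?_) le_rfl
  obtain ⟨t, ht, hyt⟩ := mem_iUnion₂.1 (hT hy.1)
  exact mem_iUnion.2 ⟨⟨t, ⟨t, ht, rfl⟩, fun j => (hΦ t y hyt _).symm.trans (hy.2 j)⟩, hy.1, hyt⟩

theorem ig2_few (har : ∀ j, ar j j = 0) {Y : Set (Pt (Cou nd ar fr))} (hY : ZCl Y)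
    (hP : ∀ f p, p ∈ II Y → brA (Cou nd ar fr) f p ∈ II Y) {D : ℕ} (hD : TD Y D) (c : ℕ) :
    TD (Y ∩ FibS (Cou nd ar fr) {t | (range t \ {0}).ncard ≤ c}) ((c + D / 2 : ℕ) : ℤ) := by
  classical
  refine (TD.iUnion fun γ : I → Option (Fin c) => ig2_base γ (hY.inter (fibS_lin_zcl γ))
    inter_subset_right fun t => (kb har hP hD t).mono
      (inter_subset_inter_left _ inter_subset_left) le_rfl).mono (fun y hy => ?_) (by omega)
  obtain ⟨t, ht, hyt⟩ := mem_iUnion₂.1 hy.2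
  have hf : (range t \ {0}).Finite := (finite_range t).sdiff
  have := hf.fintype
  obtain ⟨e⟩ : Nonempty (↥(range t \ {0}) ↪ Fin c) := Function.Embedding.nonempty_of_card_le (by
    rw [Fintype.card_fin, ← Nat.card_eq_fintype_card]; exact ht)
  refine mem_iUnion.2 ⟨fun a => if h : t a = 0 then none else some (e ⟨t a, ⟨a, rfl⟩, h⟩), hy.1,
    mem_iUnion₂.2 ⟨t, ⟨Function.extend e Subtype.val 0, fun a => ?_⟩, hyt⟩⟩
  by_cases h : t a = 0
  · simp [h]
  · simp only [h, ↓ reduceDIte, Option.elim_some, e.injective.extend_apply]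

theorem cou_hol (har : ∀ j, ar j j = 0) : Hol (brA (Cou nd ar fr)) := by
  classical
  have := cou_fg (nd := nd) (ar := ar) (fr := fr)
  have hp := cou_poi (nd := nd) (fr := fr) har
  intro r
  have hex : ∃ e : ℕ, TD {x | rk (brA (Cou nd ar fr)) x ≤ r} e :=
    td_univ.imp fun e h => h.mono (subset_univ _) le_rfl
  have h := (ig2_few har (rk_zcl hp r) (rk_poi hp r) (Nat.find_spec hex)
    (r / 2)).mono (Y' := {x | rk (brA (Cou nd ar fr)) x ≤ r}) (fun x hx => ⟨hx, by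
      obtain ⟨t, ht⟩ := exists_fib x
      have h1 := (rk_ge har ht).trans hx
      exact mem_iUnion₂.2 ⟨t, show (range t \ {0}).ncard ≤ r / 2 by omega, ht⟩⟩) le_rfl
  have := Nat.find_min' hex h
  exact (Nat.find_spec hex).mono subset_rfl (by omega)

theorem kap_fto (har : ∀ j, ar j j = 0) (k r : ℕ) :
    FTO (KapLE (Cou nd ar fr) k ∩ {x | rk (brA (Cou nd ar fr)) x ≤ r}) (r + 2 * k) := by
  have := cou_fg (nd := nd) (ar := ar) (fr := fr)
  have hp := cou_poi (nd := nd) (fr := fr) har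
  have h := td_fto (ig2_few har (rk_zcl hp r) (rk_poi hp r) (cou_hol (nd := nd) (fr := fr) har r) k)
  refine h.mono (fun x hx => ⟨hx.2, ?_⟩) (by omega)
  obtain ⟨t, ht, hxt⟩ := mem_iUnion₂.1 hx.1
  refine mem_iUnion₂.2 ⟨t, le_trans (le_trans (ncard_le_ncard ?_) (ncard_image_le (f := t))) ht, hxt⟩
  rintro _ ⟨⟨a, rfl⟩, h⟩
  exact ⟨a, h, rfl⟩

end C73
end
end

section
/-! Block G, part 4: a multiple nonzero eigenvalue can be split by a Hamiltonian flow. -/

open Set Filter Topology TopologicalSpace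

noncomputable section
namespace C73

variable {I ι : Type} [Fintype I] [DecidableEq I] {nd : I → ι} {ar : ι → ι → ℕ} {fr : ι → ℕ}

theorem ig4_det {R : Type} [CommRing R] [Algebra ℂ R] (A : Subalgebra ℂ R) (z : Pt A) {n : ℕ}
    (hn : 1 < n) (x y : Fin n → R) (N : ℕ → A) (hN : ∀ k, (N k : R) = ∑ i, y i * x i ^ k)
    (hz : ∀ k, z (N (k + 1)) = 0) :
    ∃ d : A, (d : R) = (∏ i, ∏ j ∈ Finset.Ioi i, (x j - x i)) ^ 2 * ∏ i, y i ∧ z d = 0 := by
  let H : Matrix (Fin n) (Fin n) A := Matrix.of fun a b => N (a + b)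
  refine ⟨H.det, ?_, ?_⟩
  · have h1 : A.val.mapMatrix H =
        (Matrix.vandermonde x).transpose * Matrix.diagonal y * Matrix.vandermonde x := by
      ext a b
      rw [Matrix.mul_apply]
      simp only [Matrix.mul_diagonal, Matrix.transpose_apply, Matrix.vandermonde_apply]
      refine (hN (a + b)).trans (Finset.sum_congr rfl fun i _ => ?_)
      ring
    refine (A.val.map_det H).trans ?_
    rw [h1, Matrix.det_mul, Matrix.det_mul, Matrix.det_transpose, Matrix.det_vandermonde,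
      Matrix.det_diagonal]
    ring
  · refine (AlgHom.map_det (z : A →ₐ[ℂ] ℂ) H).trans
      (Matrix.det_eq_zero_of_row_eq_zero ⟨1, hn⟩ fun b => ?_)
    have := hz b
    rw [add_comm] at this
    exact this

theorem ig4_sq {F : Type} [Field F] {n : ℕ} {w : Fin n → F} (hw : Function.Injective w) :
    ∃ m : ℕ, (∏ i, ∏ j ∈ Finset.Ioi i, (w j - w i)) ^ 2 * ∏ i, (∏ j ∈ {i}ᶜ, (w i - w j))⁻¹ =
      (-1) ^ m := by
  have h0 : ∏ i, ∏ j ∈ Finset.Ioi i, (w j - w i) ≠ 0 := by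
    rw [← Matrix.det_vandermonde]
    exact Matrix.det_vandermonde_ne_zero_iff.2 hw
  refine ⟨∑ i : Fin n, (Finset.Ioi i).card, ?_⟩
  have h1 : ∏ i, ∏ j ∈ {i}ᶜ, (w i - w j) = (-1) ^ (∑ i : Fin n, (Finset.Ioi i).card) *
      (∏ i, ∏ j ∈ Finset.Ioi i, (w j - w i)) ^ 2 := by
    rw [← Finset.prod_prod_Ioi_mul_eq_prod_prod_off_diag (fun j i => w i - w j),
      ← Finset.prod_pow_eq_pow_sum, ← Finset.prod_pow, ← Finset.prod_mul_distrib]
    refine Finset.prod_congr rfl fun i _ => ?_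
    rw [← Finset.prod_const, ← Finset.prod_pow, ← Finset.prod_mul_distrib]
    exact Finset.prod_congr rfl fun j _ => by ring
  rw [Finset.prod_inv_distrib, h1, mul_inv, ← inv_pow, inv_neg_one]
  field_simp

theorem ig4_EE {b : I} (hb : ∀ c, ar (nd b) (nd c) = 0) {S : Finset I}
    (hS : ∀ c, c ∈ S ↔ nd b = nd c ∧ c ≠ b) :
    EE nd ar fr (Pi.single b 1) = (∏ c ∈ S, (ww b - ww c))⁻¹ := by
  classical
  have h0 : ∀ a c, a ≠ b → ((Pi.single b 1 : I → ℤ) a - (Pi.single b 1 : I → ℤ) c).toNat = 0 := by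
    intro a c ha
    by_cases hc : c = b <;> simp [ha, hc]
  rw [EE, Finset.prod_eq_one, Finset.prod_eq_one, one_mul, one_div, Finset.prod_eq_single b]
  · congr 1
    symm
    refine Finset.prod_subset_one_on_sdiff (fun c hc => by simp only [((hS c).1 hc).1, Finset.mem_filter, Finset.mem_univ, and_self]) ?_ ?_
    · intro c hc
      have : c = b := by
        by_contra h
        simp only [Finset.mem_sdiff, Finset.mem_filter, Finset.mem_univ, true_and, hS, ne_eq, h, not_false_eq_true, and_true, and_not_self] at hc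
      simp [this]
    · intro c hc
      simp [((hS c).1 hc).2]
  · intro a _ ha
    exact Finset.prod_eq_one fun c _ => by rw [h0 a c ha, pow_zero]
  · simp only [Finset.mem_univ, not_true_eq_false, Pi.single_eq_same, IsEmpty.forall_iff]
  · intro a _
    by_cases ha : a = b <;> simp [ha]
  · intro a _
    refine Finset.prod_eq_one fun c _ => ?_
    by_cases ha : a = b
    · rw [ha, hb, zero_mul, pow_zero]
    · rw [h0 a c ha, mul_zero, pow_zero]

omit [Fintype I] in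
theorem ig4_pderiv {J : Finset I} {b : I} (hb : b ∈ J) (ζ : ℂ) :
    MvPolynomial.pderiv b (∑ a ∈ J, ∑ c ∈ J, (MvPolynomial.X a - MvPolynomial.X c) ^ 2 : PP I) =
      4 * (J.card : PP I) * (MvPolynomial.X b - MvPolynomial.C ζ) -
        4 * ∑ a ∈ J, (MvPolynomial.X a - MvPolynomial.C ζ) := by
  have h : ∀ a c, MvPolynomial.pderiv b ((MvPolynomial.X a - MvPolynomial.X c) ^ 2 : PP I) =
      (if a = b then 2 * (MvPolynomial.X a - MvPolynomial.X c) else 0) -
        (if c = b then 2 * (MvPolynomial.X a - MvPolynomial.X c) else 0) := by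
    intro a c
    rw [Derivation.leibniz_pow, map_sub, MvPolynomial.pderiv_X, MvPolynomial.pderiv_X]
    by_cases ha : a = b <;> by_cases hc : c = b <;> simp only [ha, hc, sub_self, Nat.add_one_sub_one, pow_one, Pi.single_eq_same, smul_eq_mul, mul_zero, nsmul_zero, ↓ reduceIte, ne_eq, not_false_eq_true, Pi.single_eq_of_ne, sub_zero, mul_one, nsmul_eq_mul, Nat.cast_ofNat, zero_sub, mul_neg, neg_sub]
    ring
  simp only [map_sum, h, Finset.sum_sub_distrib]
  rw [Finset.sum_comm]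
  simp only [Finset.sum_ite_eq', hb, if_true, ← Finset.mul_sum, Finset.sum_sub_distrib,
    Finset.sum_const, nsmul_eq_mul]
  ring

theorem ig4_main (har : ∀ j, ar j j = 0) {a0 a1 : I} {J : Finset I}
    (hJ : ∀ a, a ∈ J ↔ nd a = nd a0) (h01 : a0 ≠ a1) (h1 : a1 ∈ J)
    (hb : ∀ c, ar (nd a0) (nd c) = 0) {t : I → ℂ} {ζ : ℂ} (ht : ∀ a ∈ J, t a = ζ) {l : I → ℤ}
    (hl : uL' l ∈ Cou nd ar fr) (hl1 : ∀ a ∈ J, l a = -1) (hl0 : ∀ a ∉ J, l a = 0)
    {z : Pt (Cou nd ar fr)} (hz : z ∈ Fib (Cou nd ar fr) t) (D : Cou nd ar fr)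
    (hD : (D : LL I) = pL (∑ a ∈ J, ∑ b ∈ J, (MvPolynomial.X a - MvPolynomial.X b) ^ 2)) :
    ∃ f, z (brA (Cou nd ar fr) f D) ≠ 0 := by
  classical
  by_contra! hc
  have h0 : a0 ∈ J := (hJ a0).2 rfl
  let α := algebraMap (PP I) (KK I)
  let q : I → PP I := fun b => MvPolynomial.X b - MvPolynomial.C ζ
  let T : ℕ → I → LL I := fun k b =>
    AddMonoidAlgebra.single (Pi.single b 1) (α (q b) ^ k * EE nd ar fr (Pi.single b 1))
  have hm : Minu (Pi.single a0 1 : I → ℤ) := Or.inl fun a => by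
    by_cases h : a = a0 <;> simp [h]
  let N : ℕ → Cou nd ar fr := fun k => ⟨_, mono_mem hm (q a0 ^ k)⟩
  let W : Finset (Equiv.Perm I) := {σ | ∀ a, nd (σ a) = nd a}
  have hW : ∀ σ ∈ W, σ a0 ∈ J := fun σ hσ => (hJ _).2 ((Finset.mem_filter.1 hσ).2 a0)
  have hN : ∀ k, (N k : LL I) = ∑ σ ∈ W, T k (σ a0) := fun k => by
    refine Finset.sum_congr (by ext; simp only [Finset.mem_filter, Finset.mem_univ, true_and, W]) fun σ _ => ?_
    have : (Pi.single a0 1 : I → ℤ) ∘ σ.symm = Pi.single (σ a0) 1 := by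
      ext a
      simp [Pi.single_apply, Equiv.symm_apply_eq]
    simp only [this, q, map_pow, map_sub, MvPolynomial.rename_X, MvPolynomial.algHom_C, MvPolynomial.algebraMap_eq, T, α]
  have hS : pL (∑ a ∈ J, q a) ∈ Cou nd ar fr := pL_mem fun σ hσ => by
    rw [map_sum]
    refine Finset.sum_equiv σ (fun a => by rw [hJ, hJ, hσ a]) fun a _ => by simp [q]
  have hzS : z ⟨_, hS⟩ = 0 := by
    rw [hz _ _ rfl, map_sum]
    exact Finset.sum_eq_zero fun a ha => by simp [q, ht a ha]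
  have hT : ∀ k, ∀ b ∈ J, br (T k b) D =
      (4 * J.card : ℂ) • T (k + 1) b - (4 : ℂ) • (pL (∑ a ∈ J, q a) * T k b) := fun k b hb => by
    rw [hD, pL, pL, br_single, Finset.sum_eq_single b (fun a _ ha => by simp [ha]) (by simp only [Finset.mem_univ, not_true_eq_false, Pi.single_eq_same, Int.cast_one, one_mul, map_sum, map_pow, map_sub, Pi.zero_apply, Int.cast_zero, zero_mul, sub_zero, mul_eq_zero, pow_eq_zero_iff', ne_eq, IsEmpty.forall_iff]),
      pd_poly, ig4_pderiv hb ζ]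
    simp only [T, AddMonoidAlgebra.single_mul_single, AddMonoidAlgebra.smul_single, add_zero,
      zero_add, ← AddMonoidAlgebra.single_sub]
    congr 1
    simp only [Algebra.smul_def, map_mul, map_sub, map_natCast, map_ofNat, Pi.single_eq_same,
      Pi.zero_apply, Int.cast_one, Int.cast_zero, q, α]
    ring
  have hz1 : ∀ k, z (N (k + 1)) = 0 := fun k => by
    have e : brA (Cou nd ar fr) (N k) D =
        (4 * J.card : ℂ) • N (k + 1) + (-4 : ℂ) • (⟨_, hS⟩ * N k) := by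
      refine Subtype.ext ?_
      have h := map_sum (AddMonoidHom.mk' (fun x => br x (D : LL I)) fun x y => br_poi.add x y D)
        (fun σ => T k (σ a0)) W
      simp only [AddMonoidHom.mk'_apply] at h
      rw [brA_coe har, hN, h, Finset.sum_congr rfl fun σ hσ => hT k _ (hW σ hσ)]
      simp only [Subalgebra.coe_add, Subalgebra.coe_smul, Subalgebra.coe_mul, hN, Finset.smul_sum,
        Finset.mul_sum, sub_eq_add_neg, ← neg_smul, Finset.sum_add_distrib]
    have h := hc (N k)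
    rw [e, map_add, map_smul, map_smul, map_mul, hzS] at h
    have hJ0 : J.card ≠ 0 := Finset.card_ne_zero_of_mem h0
    simpa only [smul_eq_mul, zero_mul, mul_zero, add_zero, mul_eq_zero, OfNat.ofNat_ne_zero, Nat.cast_eq_zero, hJ0, or_self, false_or] using h
  let e : Fin J.card ↪ I := J.equivFin.symm.toEmbedding.trans (Function.Embedding.subtype _)
  have he : ∀ i, e i ∈ J := fun i => (J.equivFin.symm i).2
  have he' : ∀ b ∈ J, ∃ i, e i = b := fun b hb => ⟨J.equivFin ⟨b, hb⟩, by simp [e]⟩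
  have hmap : Finset.univ.map e = J := by
    ext b
    simp only [Finset.mem_map, Finset.mem_univ, true_and]
    exact ⟨fun ⟨i, hi⟩ => hi ▸ he i, he' b⟩
  let c : I → ℕ := fun b => (W.filter fun σ => σ a0 = b).card
  have hcp : ∀ b ∈ J, c b ≠ 0 := fun b hb => Finset.card_ne_zero_of_mem (a := Equiv.swap a0 b) (by
    simp only [W, Finset.mem_filter, Finset.mem_univ, true_and, Equiv.swap_apply_left, and_true]
    intro a
    rw [Equiv.swap_apply_def]
    split_ifs with h h'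
    · rw [h, (hJ b).1 hb]
    · rw [h', (hJ b).1 hb]
    · rfl)
  obtain ⟨d, hd, hd0⟩ := ig4_det (Cou nd ar fr) z
    (Finset.one_lt_card.2 ⟨a0, h0, a1, h1, h01⟩) (fun i => algebraMap (KK I) (LL I) (α (q (e i))))
    (fun i => AddMonoidAlgebra.single (Pi.single (e i) 1)
      (c (e i) * EE nd ar fr (Pi.single (e i) 1))) N (fun k => by
      rw [hN, ← Finset.sum_fiberwise_of_maps_to' hW (T k)]
      conv_lhs => rw [← hmap]
      rw [Finset.sum_map]
      refine Finset.sum_congr rfl fun i _ => ?_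
      rw [Finset.sum_const, ← map_pow, AddMonoidAlgebra.coe_algebraMap]
      simp only [T, c, Function.comp, AddMonoidAlgebra.single_mul_single,
        AddMonoidAlgebra.smul_single, add_zero, nsmul_eq_mul, Algebra.algebraMap_self,
        RingHom.id_apply]
      congr 1
      ring) hz1
  have hE : ∀ i, EE nd ar fr (Pi.single (e i) 1) =
      (∏ j ∈ {i}ᶜ, (α (q (e i)) - α (q (e j))))⁻¹ := fun i => by
    rw [ig4_EE (S := ({i}ᶜ : Finset _).map e) (fun c => by rw [(hJ _).1 (he i), hb]) fun b => ?_,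
      Finset.prod_map]
    · simp only [ww, α, q, map_sub, sub_sub_sub_cancel_right]
    · rw [(hJ _).1 (he i), eq_comm, ← hJ]
      simp only [Finset.mem_map, Finset.mem_compl, Finset.mem_singleton]
      refine ⟨fun ⟨j, hj, hb⟩ => hb ▸ ⟨he j, fun h => hj (e.injective h)⟩, fun ⟨hb, hb'⟩ => ?_⟩
      obtain ⟨j, rfl⟩ := he' b hb
      exact ⟨j, fun h => hb' (h ▸ rfl), rfl⟩
  obtain ⟨m, hm⟩ := ig4_sq (w := fun i => α (q (e i))) fun i j h =>
    e.injective (MvPolynomial.X_injective (sub_left_injective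
      (IsFractionRing.injective (PP I) (KK I) h)))
  have hsum : ∑ i, (Pi.single (e i) 1 : I → ℤ) + l = 0 := by
    rw [← Finset.sum_map Finset.univ e fun b => (Pi.single b 1 : I → ℤ), hmap]
    ext a
    by_cases ha : a ∈ J <;> simp [Finset.sum_apply, Pi.single_apply, ha, hl1, hl0]
  have key : d * ⟨_, hl⟩ = algebraMap ℂ _ ((-1) ^ m * ((∏ i, c (e i) : ℕ) : ℂ)) := by
    refine Subtype.ext ?_
    rw [Subalgebra.coe_mul, hd, AddMonoidAlgebra.prod_single, mul_assoc]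
    simp only [uL', ← map_sub, ← map_prod, ← map_pow]
    rw [AddMonoidAlgebra.single_mul_single, hsum, mul_one]
    change _ * algebraMap (KK I) (LL I) (∏ i, (c (e i) : KK I) * EE nd ar fr (Pi.single (e i) 1)) =
      algebraMap (KK I) (LL I) (algebraMap ℂ (KK I) ((-1) ^ m * ((∏ i, c (e i) : ℕ) : ℂ)))
    rw [← map_mul]
    refine congrArg _ ?_
    rw [Finset.prod_mul_distrib, map_mul, map_pow (algebraMap ℂ (KK I)), map_neg, map_one,
      map_natCast, ← hm]
    simp only [hE, map_sub, map_prod, map_pow, Nat.cast_prod]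
    ring
  have := congrArg z key
  rw [map_mul, hd0, zero_mul, AlgHomClass.commutes] at this
  exact mul_ne_zero (pow_ne_zero m (neg_ne_zero.2 one_ne_zero))
    (Nat.cast_ne_zero.2 (Finset.prod_ne_zero_iff.2 fun i _ => hcp _ (he i))) this.symm

open Classical in
theorem ig_hankel (har : ∀ j, ar j j = 0) {g : I → ℂ} {ζ : ℂ} (hζ : ζ ≠ 0) {i : ι}
    (hi : ∀ a, g a = ζ → nd a = i) {a0 a1 : I} (h01 : a0 ≠ a1) (h0 : g a0 = ζ) (h1 : g a1 = ζ)
    {z : Pt (Lev nd ar fr g)} (hz : z ∈ Fib (Lev nd ar fr g) g) (D : Lev nd ar fr g)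
    (hD : (D : LL I) = pL (∑ a with g a = ζ, ∑ b with g b = ζ,
      (MvPolynomial.X a - MvPolynomial.X b) ^ 2)) :
    ∃ f, z (brA (Lev nd ar fr g) f D) ≠ 0 := by
  refine ig4_main (nd := fun a => (nd a, g a)) (lev_loop har) (a0 := a0) (a1 := a1) (ζ := ζ)
    (fun a => ?_) h01 (by simpa only [Finset.mem_filter, Finset.mem_univ, true_and] using h1) (fun c => ?_) (fun a ha => by simpa only [Finset.mem_filter, Finset.mem_univ, true_and] using ha)
    (lev_unit g hζ).2 (fun a ha => if_pos (by simpa only [Finset.mem_filter, Finset.mem_univ, true_and] using ha))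
    (fun a ha => if_neg (by simpa only [Finset.mem_filter, Finset.mem_univ, true_and] using ha)) hz D hD
  · simp only [Finset.mem_filter, Finset.mem_univ, true_and, Prod.mk.injEq, h0, hi a0 h0]
    exact ⟨fun h => ⟨hi a h, h⟩, fun h => h.2⟩
  · by_cases h : g a0 = g c
    · simp only [h, if_true]
      rw [hi a0 h0, hi c (h ▸ h0), har]
    · simp only [h, if_false]

end C73
end
end

section
/-! Block G, part 3: vacuum points and density of generic points. -/

open Set Filter Topology TopologicalSpace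

noncomputable section
namespace C73

variable {I ι : Type} [Fintype I] [DecidableEq I] {nd : I → ι} {ar : ι → ι → ℕ} {fr : ι → ℕ}

/-- intersection of the leaf of `x` with the fixed locus -/
def SF (A : Subalgebra ℂ (LL I)) (m : I → ℤ) (x : Pt A) : Set (Pt A) :=
  {y | y ∈ FixG (grC A m) ∧ Leaf (brA A) x y}

omit [Fintype I] [DecidableEq I] in
theorem ig_ok_open [Finite I] (g : I → ℂ) : IsOpen {t | Ok g t} := by
  simp only [Ok, ofPred_and, ofPred_forall]
  refine (isOpen_iInter_of_finite fun a => isOpen_iInter_of_finite fun b =>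
    isOpen_iInter_of_finite fun _ => ?_).inter
    (isOpen_iInter_of_finite fun a => isOpen_iInter_of_finite fun _ => ?_)
  · exact isOpen_ne_fun (continuous_apply a) (continuous_apply b)
  · exact isOpen_ne_fun (continuous_apply a) continuous_const

theorem ig_lev_poi (har : ∀ j, ar j j = 0) (g : I → ℂ) : IsPoi (brA (Lev nd ar fr g)) :=
  cou_poi (lev_loop har)

theorem ig_lev_fg (g : I → ℂ) : Algebra.FiniteType ℂ (Lev nd ar fr g) := cou_fg

variable (har : ∀ j, ar j j = 0) {i : ι} {m : I → ℤ} (hm : Coch nd i m)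
include har hm

/-- a polynomial in the eigenvalues that is locally constant on `SF` is killed by all brackets -/
theorem ig_der {x y : Pt (Cou nd ar fr)} (hy : y ∈ SF (Cou nd ar fr) m x) {g t : I → ℂ}
    (ht : Ok g t) {e : Pt (Lev nd ar fr g) → Pt (Cou nd ar fr)} (he : IsLevi nd ar fr g e)
    {z : Pt (Lev nd ar fr g)} (hz : z ∈ Fib (Lev nd ar fr g) t) (hzy : e z = y) {p : PP I}
    {P : Lev nd ar fr g} (hP : (P : LL I) = pL p)
    (h : ∀ᶠ y' in 𝓝[SF (Cou nd ar fr) m x] y, ∀ t', Ok g t' → y' ∈ Fib (Cou nd ar fr) t' →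
      MvPolynomial.eval t' p = MvPolynomial.eval t p) (f : Lev nd ar fr g) :
    z (brA (Lev nd ar fr g) f P) = 0 := by
  have := ig_lev_fg (nd := nd) (ar := ar) (fr := fr) g
  have := cou_fg (nd := nd) (ar := ar) (fr := fr)
  subst hzy
  refine der0 (ig_lev_poi har g)
    (cou_gr (lev_loop har) fun a b h => hm.1 a b (congrArg Prod.fst h))
    ((he.fix hm.1 ht hz).1 hy.1) ?_ f (pL_grC m hP)
  have hd : LevDom nd ar fr g ∈ 𝓝 z := fib_near hz ((ig_ok_open g).mem_nhds ht)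
  have h1 := (he.cont.continuousAt hd).eventually ((leaf_loc (cou_poi (nd := nd) (fr := fr) har) (cou_hol (nd := nd) (fr := fr) har) (e z)).and
    (eventually_nhdsWithin_iff.1 h))
  filter_upwards [hd, h1] with z' hz' h2 hf hr
  obtain ⟨t', ht', h3⟩ := ig_mem_fibS.1 hz'
  rw [h3 p P hP, hz p P hP]
  refine h2.2 ⟨(he.fix hm.1 ht' h3).2 hf, hy.2.trans _ _ _ (h2.1 ?_)⟩ t' ht'
    ((he.bij t' ht').mapsTo h3)
  rwa [he.rk _ hz', he.rk _ (mem_of_mem_nhds hd)]

omit har hm in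
theorem ig_supp {g t : I → ℂ} (ht : Ok g t) {y : Pt (Cou nd ar fr)}
    (hy : y ∈ Fib (Cou nd ar fr) t) (hk : y ∈ KapLE (Cou nd ar fr) {a | g a ≠ 0}.ncard) {a : I}
    (ha : g a = 0) : t a = 0 := by
  by_contra h
  have : {a | g a ≠ 0} = {a | t a ≠ 0} := eq_of_subset_of_ncard_le ht.2 ((ig_kap_iff hy).1 hk)
  exact (this.ge h) ha

open Classical in
/-- vacuum property, used in block U: the Levi point over `g = t` kills all monopoles meeting the
zero group -/
theorem gen_vac {x y : Pt (Cou nd ar fr)} (hy : y ∈ SF (Cou nd ar fr) m x) {k : ℕ}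
    (hl : KapLE (Cou nd ar fr) k ∈ 𝓝[SF (Cou nd ar fr) m x] y) {g t : I → ℂ} (ht : Ok g t)
    (hk : {a | g a ≠ 0}.ncard = k) {e : Pt (Lev nd ar fr g) → Pt (Cou nd ar fr)}
    (he : IsLevi nd ar fr g e) {z : Pt (Lev nd ar fr g)} (hz : z ∈ Fib (Lev nd ar fr g) t)
    (hzy : e z = y) : (∀ a, g a = 0 → t a = 0) ∧ ∀ (n : I → ℤ), (∀ a b, nd a = nd b → n a = n b) →
      ∀ w, w ≠ 0 → ∀ b ∈ grC (Lev nd ar fr g) (fun a => if g a = 0 then n a else 0) w, z b = 0 := by
  subst hk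
  have h0 : ∀ a, g a = 0 → t a = 0 := fun a =>
    ig_supp ht (hzy ▸ (he.bij t ht).mapsTo hz) (mem_of_mem_nhdsWithin hy hl)
  refine ⟨h0, fun n hn w hw b hb => ?_⟩
  let c : I → ℤ := fun a => if g a = 0 then n a else 0
  let p : PP I := ∑ a, (c a : ℂ) • MvPolynomial.X a
  have hp : pL p ∈ Lev nd ar fr g := pL_mem fun σ hσ => by
    simp only [p, map_sum, map_smul, MvPolynomial.rename_X]
    refine Fintype.sum_equiv σ _ _ fun a => ?_
    simp only [c, hn _ _ (congrArg Prod.fst (hσ a)), show g (σ a) = g a from congrArg Prod.snd (hσ a)]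
  have hv : ∀ s : I → ℂ, (∀ a, g a = 0 → s a = 0) → MvPolynomial.eval s p = 0 := fun s hs => by
    simp only [p, map_sum, MvPolynomial.smul_eval, MvPolynomial.eval_X]
    exact Finset.sum_eq_zero fun a _ => by by_cases h : g a = 0 <;> simp [c, h, hs]
  have h1 := ig_der har hm hy ht he hz hzy (P := ⟨_, hp⟩) rfl
    (mem_of_superset hl fun y' hy' t' ht' h => by
      rw [hv t h0, hv t' fun a => ig_supp ht' h hy']) b
  have h2 : brA (Lev nd ar fr g) b ⟨_, hp⟩ = (w : ℂ) • b := Subtype.ext <| by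
    rw [show ((brA (Lev nd ar fr g) b ⟨_, hp⟩ : Lev nd ar fr g) : LL I) = br b (pL p) from
      brA_coe (lev_loop har) _ _]
    ext l
    rw [br_lin]
    by_cases h : (b : LL I).coeff l = 0
    · simp [h]
    · rw [hb l h]
      show _ = (w : ℂ) • (b : LL I).coeff l
      simp [Algebra.smul_def]
  rw [h2, map_smul, smul_eq_zero] at h1
  exact h1.resolve_left (by exact_mod_cast hw)

theorem gen_dense {x : Pt (Cou nd ar fr)} (hx : x ∈ FixG (grC (Cou nd ar fr) m))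
    {U : Set (Pt (Cou nd ar fr))} (hU : U ∈ 𝓝 x) :
    ∃ y ∈ U ∩ SF (Cou nd ar fr) m x, ∃ k, y ∈ Gen (Cou nd ar fr) k ∧
      KapLE (Cou nd ar fr) k ∈ 𝓝[SF (Cou nd ar fr) m x] y := by
  classical
  let co : (I → ℂ) → Set (I × I) × Set I := fun t => ({p | t p.1 = t p.2}, {a | t a = 0})
  obtain ⟨t0, h0⟩ := exists_fib x
  obtain ⟨_, ⟨y, t, hyU, hy, ht, rfl⟩, hmin⟩ := exists_minimal_of_wellFoundedLT
    (fun c => ∃ y t, y ∈ interior U ∧ y ∈ SF (Cou nd ar fr) m x ∧ y ∈ Fib (Cou nd ar fr) t ∧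
      co t = c) ⟨_, x, t0, mem_interior_iff_mem_nhds.2 hU, ⟨hx, .refl _⟩, h0, rfl⟩
  have hr : ∀ᶠ y' in 𝓝[SF (Cou nd ar fr) m x] y, ∀ t', Ok t t' → y' ∈ Fib (Cou nd ar fr) t' →
      co t ≤ co t' := by
    filter_upwards [self_mem_nhdsWithin, mem_nhdsWithin_of_mem_nhds (isOpen_interior.mem_nhds hyU)]
      with y' h1 h2 t' h3 h4
    exact hmin ⟨y', t', h2, h1, h4, rfl⟩ ⟨fun p hp => by_contra fun h => h3.1 _ _ h hp,
      fun a ha => by_contra fun h => h3.2 a h ha⟩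
  refine ⟨y, ⟨interior_subset hyU, hy⟩, _, (ig_gen_iff ht).2 ⟨rfl, fun a0 ha a1 _ h01 => ?_⟩, ?_⟩
  · by_contra hne
    obtain ⟨e, he⟩ := levi (nd := nd) (fr := fr) har t
    obtain ⟨z, hz, hzy⟩ := (he.bij t (ok_self t)).surjOn ht
    let p : PP I := ∑ a with t a = t a0, ∑ b with t b = t a0,
      (MvPolynomial.X a - MvPolynomial.X b) ^ 2
    have hp : pL p ∈ Lev nd ar fr t := pL_mem fun σ hσ => by
      have h : ∀ a, t (σ a) = t a := fun a => congrArg Prod.snd (hσ a)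
      simp only [p, map_sum, map_pow, map_sub, MvPolynomial.rename_X]
      exact Finset.sum_equiv σ (by simp only [Finset.mem_filter, Finset.mem_univ, true_and, h, implies_true]) fun a _ => Finset.sum_equiv σ (by simp only [Finset.mem_filter, Finset.mem_univ, true_and, h, implies_true]) (by simp only [Finset.mem_filter, Finset.mem_univ, true_and, implies_true])
    have hv : ∀ s, co t ≤ co s → MvPolynomial.eval s p = 0 := fun s hs => by
      simp only [p, map_sum, map_pow, map_sub, MvPolynomial.eval_X]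
      refine Finset.sum_eq_zero fun a ha => Finset.sum_eq_zero fun b hb => ?_
      rw [show s a = s b from hs.1 (show (a, b) ∈ (co t).1 from
        (Finset.mem_filter.1 ha).2.trans (Finset.mem_filter.1 hb).2.symm), sub_self, sq, mul_zero]
    obtain ⟨f, hf⟩ := ig_hankel har ha (fun a h => hm.2.1 a
      (fix_node har hm hy.1 ht (h.trans_ne ha))) hne rfl h01.symm hz ⟨_, hp⟩ rfl
    exact hf (ig_der har hm hy (ok_self t) he hz hzy rfl
      (hr.mono fun y' h t' h1 h2 => by rw [hv t le_rfl, hv t' (h t' h1 h2)]) f)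
  · filter_upwards [hr, mem_nhdsWithin_of_mem_nhds
      (fib_near ht ((ig_ok_open t).mem_nhds (ok_self t)))] with y' h1 h2
    obtain ⟨t', ht', h3⟩ := ig_mem_fibS.1 h2
    exact (ig_kap_iff h3).2 (ncard_le_ncard fun a ha h => ha ((h1 t' ht' h3).2 h))

end C73
end
end

section
/-! Block G, part 5: the repelling fibre at a generic fixed point. -/

open Set Filter Topology TopologicalSpace

noncomputable section
namespace C73

/-- free invertible coordinates lower the dimension -/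
theorem ig5_td {A : Type} [CommRing A] [Algebra ℂ A] {J : Type} [Fintype J] {R Y : Set (Pt A)}
    {d : ℤ} (hR : TD R d) (u : J → A) (M : Pt A → (J → ℂˣ) → Pt A)
    (h1 : ∀ z ∈ Y, ∀ υ, M z υ ∈ R ∧ ∀ j, M z υ (u j) = υ j)
    (h2 : ∀ b, ∃ b', ∀ z ∈ Y, ∀ υ, M z υ b' = z b) : TD Y (d - Fintype.card J) := by
  intro s a hs
  choose L hL using h2
  have hc : Fintype.card (Fin s ⊕ J) = s + Fintype.card J := by simp only [Fintype.card_sum, Fintype.card_fin, Nat.add_left_cancel_iff]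
  let φ := (Fintype.equivFinOfCardEq hc).symm
  let c : Fin s ⊕ J → A := Sum.elim (fun i => L (a i)) u
  obtain ⟨P, hP, hP0⟩ := hR _ (c ∘ φ) (by push_cast; linarith only [hs])
  have hQ : MvPolynomial.rename φ P * ∏ j, MvPolynomial.X (Sum.inr j) ≠ 0 :=
    mul_ne_zero (fun h => hP (MvPolynomial.rename_injective _ φ.injective (by rw [h, map_zero])))
      (Finset.prod_ne_zero_iff.2 fun j _ => MvPolynomial.X_ne_zero _)
  obtain ⟨w, hw⟩ : ∃ w, MvPolynomial.eval w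
      (MvPolynomial.rename φ P * ∏ j, MvPolynomial.X (Sum.inr j)) ≠ 0 :=
    by_contra fun h => hQ (MvPolynomial.funext fun w => by
      rw [map_zero]; exact by_contra fun h' => h ⟨w, h'⟩)
  rw [map_mul, map_prod, mul_ne_zero_iff, Finset.prod_ne_zero_iff] at hw
  have hw2 : ∀ j, w (Sum.inr j) ≠ 0 := fun j => by simpa using hw.2 j (Finset.mem_univ _)
  have key : ∀ v : Fin s → ℂ, MvPolynomial.aeval v (MvPolynomial.aeval
      (Sum.elim MvPolynomial.X fun j => MvPolynomial.C (w (Sum.inr j)))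
        (MvPolynomial.rename φ P) : MvPolynomial (Fin s) ℂ) =
      MvPolynomial.aeval (Sum.elim v fun j => w (Sum.inr j)) (MvPolynomial.rename φ P) := fun v => by
    rw [MvPolynomial.comp_aeval_apply]
    congr 2
    ext (i | j) <;> simp
  refine ⟨MvPolynomial.aeval (Sum.elim MvPolynomial.X fun j => MvPolynomial.C (w (Sum.inr j)))
    (MvPolynomial.rename φ P), fun h => hw.1 ?_, fun z hz => ?_⟩
  · have := key fun i => w (Sum.inl i)
    rw [h, map_zero, show (Sum.elim (fun i => w (Sum.inl i)) fun j => w (Sum.inr j)) = w from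
      funext fun x => by cases x <;> rfl] at this
    exact this.symm
  · obtain ⟨h3, h4⟩ := h1 z hz fun j => Units.mk0 _ (hw2 j)
    have h5 := hP0 _ h3
    rw [← MvPolynomial.aeval_rename] at h5
    refine ((MvPolynomial.comp_aeval_apply a (show A →ₐ[ℂ] ℂ from z) _).trans (key _)).trans
      (Eq.trans ?_ ((MvPolynomial.comp_aeval_apply c
        (show A →ₐ[ℂ] ℂ from M z fun j => Units.mk0 _ (hw2 j)) _).symm.trans h5))
    congr 2
    ext (i | j)
    exacts [(hL _ z hz _).symm, (h4 j).symm]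

theorem ig5_inv {X Y : Type} [TopologicalSpace X] [TopologicalSpace Y] [Nonempty X] {e : X → Y}
    {S : Set X} {T : Set Y} (hE : IsEmbedding fun x : S => e x) (hb : BijOn e S T) :
    ContinuousOn (Function.invFunOn e S) T := by
  rw [continuousOn_iff_continuous_domRestrict]
  have h : Continuous fun y : T => (⟨_, hb.surjOn.mapsTo_invFunOn y.2⟩ : S) :=
    hE.continuous_iff.2 (continuous_subtype_val.congr fun y =>
      (hb.surjOn.rightInvOn_invFunOn y.2).symm)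
  exact continuous_subtype_val.comp h

theorem ig5_zcl {A : Type} [CommRing A] [Algebra ℂ A] (𝒜 : ℤ → Submodule ℂ A) (z : Pt A) :
    ZCl {z' | z' ∈ NegG 𝒜 ∧ Same0 𝒜 z' z} := by
  refine ZCl.inter (Y := NegG 𝒜) (Y' := {z' | Same0 𝒜 z' z}) ⟨_, rfl⟩
    ⟨{b | ∃ a ∈ 𝒜 0, b = a - algebraMap ℂ A (z a)}, ?_⟩
  ext x
  constructor
  · rintro h _ ⟨a, ha, rfl⟩
    rw [map_sub, AlgHomClass.commutes, h a ha]; simp
  · intro h a ha
    have := h _ ⟨a, ha, rfl⟩
    rw [map_sub, AlgHomClass.commutes] at this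
    exact sub_eq_zero.1 this

variable {I ι : Type} [Fintype I] [DecidableEq I] {nd : I → ι} {ar : ι → ι → ℕ} {fr : ι → ℕ}

theorem ig5_lift {g : I → ℂ} {Θ} (hΘ : IsFree nd ar fr g Θ) (υ : {a // g a ≠ 0} → ℂˣ)
    (b : Lev nd ar fr g) : ∃ b', ∀ y ζ u, Θ (y, ζ, u) b' = Θ (y, ζ, υ) b := by
  have hb := (hΘ.gen ▸ Algebra.mem_top : b ∈ Algebra.adjoin ℂ _)
  induction hb using Algebra.adjoin_induction with
  | mem b hb =>
    rcases hb with ⟨a, ha, h | h | h⟩ | ⟨l, f, h1, h2, h3, h4⟩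
    · refine ⟨b, fun y ζ u => ?_⟩
      obtain ⟨t, ht⟩ := exists_fib y.1
      exact (hΘ.fib y ζ u t ht _ b h).trans (hΘ.fib y ζ υ t ht _ b h).symm
    · exact ⟨algebraMap ℂ _ (υ ⟨a, ha⟩), fun y ζ u =>
        (AlgHomClass.commutes _ _).trans (hΘ.uval y ζ υ ⟨a, ha⟩ b h).symm⟩
    · refine ⟨algebraMap ℂ _ (υ ⟨a, ha⟩ : ℂ)⁻¹, fun y ζ u => (AlgHomClass.commutes _ _).trans ?_⟩
      have h1 : b * ⟨_, (hΘ.mem a ha).2.1⟩ = 1 := Subtype.ext (by
        simp only [uL', MulMemClass.coe_mul, h, Int.reduceNeg, AddMonoidAlgebra.single_mul_single, ← Pi.single_add, neg_add_cancel, Pi.single_zero, mul_one, OneMemClass.coe_one, AddMonoidAlgebra.one_def])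
      have h2 := congrArg (Θ (y, ζ, υ)) h1
      rw [map_mul, map_one, hΘ.uval y ζ υ ⟨a, ha⟩ ⟨_, (hΘ.mem a ha).2.1⟩ rfl] at h2
      exact (eq_inv_of_mul_eq_one_left h2).symm
    · exact ⟨b, fun y ζ u => (hΘ.mono y ζ u l h1 f b h2 h3 h4).trans
        (hΘ.mono y ζ υ l h1 f b h2 h3 h4).symm⟩
  | algebraMap c =>
    exact ⟨algebraMap ℂ _ c, fun y ζ u =>
      (AlgHomClass.commutes _ _).trans (AlgHomClass.commutes _ _).symm⟩
  | add b c _ _ hb hc =>
    obtain ⟨b', hb⟩ := hb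
    obtain ⟨c', hc⟩ := hc
    exact ⟨b' + c', fun y ζ u => by rw [map_add, map_add, hb, hc]⟩
  | mul b c _ _ hb hc =>
    obtain ⟨b', hb⟩ := hb
    obtain ⟨c', hc⟩ := hc
    exact ⟨b' * c', fun y ζ u => by rw [map_mul, map_mul, hb, hc]⟩

theorem ig5_key (har : ∀ j, ar j j = 0) {g : I → ℂ} {Θ} (hΘ : IsFree nd ar fr g Θ) {m : I → ℤ}
    (hm : ∀ a, g a ≠ 0 → m a = 0) {z : Pt (Lev nd ar fr g)} (hz : z ∈ Fib (Lev nd ar fr g) g) (r : ℕ) :
    TD ({z' | Same0 (grC (Lev nd ar fr g) m) z' z} ∩ {z' | rk (brA (Lev nd ar fr g)) z' ≤ r})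
      (((r / 2 : ℕ) : ℤ) - ({a | g a ≠ 0}.ncard : ℕ)) := by
  classical
  have : Algebra.FiniteType ℂ (Lev nd ar fr g) := cou_fg
  have hP : IsPoi (brA (Lev nd ar fr g)) := cou_poi (lev_loop har)
  have hH : Hol (brA (Lev nd ar fr g)) := cou_hol (lev_loop har)
  have hR : TD ({x | rk (brA (Lev nd ar fr g)) x ≤ r} ∩ Fib (Lev nd ar fr g) g) ((r / 2 : ℕ) : ℤ) :=
    kb (lev_loop har) (rk_poi hP r) (hH r) g
  have hc : {a | g a ≠ 0}.ncard = Fintype.card {a // g a ≠ 0} := by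
    rw [← Nat.card_coe_set_eq, Nat.card_eq_fintype_card]; rfl
  rw [hc]
  refine ig5_td hR (fun j => ⟨_, (hΘ.mem j.1 j.2).2.1⟩)
    (fun x υ => Θ ((Θ.symm x).1, (Θ.symm x).2.1, υ)) (fun x hx υ => ?_) fun b => ?_
  · obtain ⟨⟨y, ζ, u⟩, rfl⟩ := Θ.surjective x
    simp only [Homeomorph.symm_apply_apply]
    obtain ⟨t, ht⟩ := exists_fib y.1
    refine ⟨⟨(hΘ.rk y _).trans_le ((hΘ.rk y _).symm.trans_le hx.2), ?_⟩,
      fun j => hΘ.uval y ζ υ j _ rfl⟩
    exact (fib_unique (hΘ.fib y ζ υ t ht)).2 ((fib_unique (hΘ.fib y ζ u t ht)).1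
      (fib_same (fun a ha => (hx.1 a ha).symm) hz))
  · obtain ⟨⟨y0, ζ0, u0⟩, rfl⟩ := Θ.surjective z
    obtain ⟨b', hb⟩ := ig5_lift hΘ u0 b
    refine ⟨b', fun x hx υ => ?_⟩
    obtain ⟨⟨y, ζ, u⟩, rfl⟩ := Θ.surjective x
    simp only [Homeomorph.symm_apply_apply]
    have hu : u = u0 := funext fun j => Units.ext <| by
      have h0 := uL_grC m (a := ⟨_, (hΘ.mem j.1 j.2).2.1⟩) rfl
      have h1 : ∑ c, m c * (Pi.single j.1 1 : I → ℤ) c = 0 := by
        simp only [ne_eq, Pi.single_apply, mul_ite, mul_one, mul_zero, Finset.sum_ite_eq', Finset.mem_univ, ↓ reduceIte, hm j.1 j.2]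
      rw [h1] at h0
      exact (hΘ.uval y ζ u j _ rfl).symm.trans ((hx.1 _ h0).trans (hΘ.uval y0 ζ0 u0 j _ rfl))
    rw [hb, hu]

variable (har : ∀ j, ar j j = 0) {i : ι} {m : I → ℤ} (hm : Coch nd i m)
include har hm
theorem gen_good {y : Pt (Cou nd ar fr)} (hy : y ∈ FixG (grC (Cou nd ar fr) m)) {k : ℕ}
    (hk : y ∈ Gen (Cou nd ar fr) k) {n : ℕ} (hn : Even n)
    (hb : ∀ x, rk (brA (Cou nd ar fr)) x ≤ n) :
    let Yy := {y' | y' ∈ NegG (grC (Cou nd ar fr) m) ∧ Same0 (grC (Cou nd ar fr) m) y' y}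
    (∀ r : ℕ, FTO (Yy ∩ {y' | rk (brA (Cou nd ar fr)) y' ≤ r}) ((r : ℤ) - (2 * k : ℕ))) ∧
      ∃ D, IsClosed D ∧ Yy ∩ {y' | rk (brA (Cou nd ar fr)) y' < n} ⊆ D ∧
        FTO (D ∩ Yy) ((n : ℤ) - (2 * k : ℕ) - 2) ∧ Cov (Yy \ D) (n - 2 * k) := by
  intro Yy
  obtain ⟨t, ⟨hc, hi⟩, ht⟩ := mem_iUnion₂.1 hk
  obtain ⟨e, he⟩ := levi (nd := nd) (fr := fr) har t
  obtain ⟨Θ, hΘ⟩ := free (nd := nd) (fr := fr) har hi
  have hbij := he.bij t (ok_self t)
  obtain ⟨z, hz, rfl⟩ := hbij.surjOn ht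
  have : Algebra.FiniteType ℂ (Lev nd ar fr t) := cou_fg
  have : Nonempty (Pt (Lev nd ar fr t)) := ⟨z⟩
  set Yg := {z' | z' ∈ NegG (grC (Lev nd ar fr t) m) ∧ Same0 (grC (Lev nd ar fr t) m) z' z}
  have hF : Yg ⊆ Fib (Lev nd ar fr t) t := fun x hx => fib_same (fun a ha => (hx.2 a ha).symm) hz
  have hD : ∀ x ∈ Fib (Lev nd ar fr t) t, x ∈ LevDom nd ar fr t := fun x hx =>
    mem_biUnion (ok_self t) hx
  have hY : ∀ x ∈ Fib (Lev nd ar fr t) t, e x ∈ Yy ↔ x ∈ Yg := fun x hx =>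
    and_congr (he.pos m hm.1 x (hD x hx)).2 (he.same m hm.1 t (ok_self t) x hx z hz)
  have hB : BijOn e Yg Yy := ⟨fun x hx => (hY x (hF hx)).2 hx, hbij.injOn.mono hF, fun y' hy' => by
    obtain ⟨x, hx, rfl⟩ := hbij.surjOn (fib_same (fun a ha => (hy'.2 a ha).symm) ht)
    exact ⟨x, (hY x hx).1 hy', rfl⟩⟩
  obtain ⟨Ω, h1, h2, -, h3, h4⟩ := exists_omega (nd := nd) (ok_self t) univ_mem
  have hE : IsEmbedding fun x : Yg => e x := (he.emb Ω h1 h3 h4).isEmbedding.comp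
    (IsEmbedding.inclusion fun x hx => mem_biUnion h2 (hF hx))
  have hv := ig5_inv hE hB
  have hm1 := hB.surjOn.mapsTo_invFunOn
  have hr1 := hB.surjOn.rightInvOn_invFunOn
  have hl1 := hB.injOn.leftInvOn_invFunOn
  set v := Function.invFunOn e Yg
  have hrk : ∀ y' ∈ Yy, rk (brA (Lev nd ar fr t)) (v y') = rk (brA (Cou nd ar fr)) y' :=
    fun y' h => by rw [← he.rk _ (hD _ (hF (hm1 h))), hr1 h]
  have key : ∀ r : ℕ, TD (Yg ∩ {x | rk (brA (Lev nd ar fr t)) x ≤ r}) (((r / 2 : ℕ) : ℤ) - k) :=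
    fun r => (ig5_key har hΘ (fun a ha => fix_node har hm hy ht ha) hz r).mono
      (fun x hx => ⟨hx.1.2, hx.2⟩) (by rw [hc])
  refine ⟨fun r => ((td_fto (key r)).of_injOn v (hv.mono inter_subset_left)
    (hr1.injOn.mono inter_subset_left) fun y' h => ⟨hm1 h.1, (hrk _ h.1).trans_le h.2⟩).mono
      subset_rfl (by omega), ?_⟩
  obtain ⟨n', rfl⟩ := hn
  have hall : Yg ⊆ Yg ∩ {x | rk (brA (Lev nd ar fr t)) x ≤ n' + n'} := fun x hx =>
    ⟨hx, (he.rk x (hD x (hF hx))).symm.trans_le (hb _)⟩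
  have hkn : k ≤ n' := by
    by_contra h
    have h5 := (td_neg (by omega)).1 (key (n' + n'))
    exact (h5 ▸ hall ((hY z hz).1 ⟨hy.2, fun _ _ => rfl⟩) : z ∈ (∅ : Set _))
  have h6 : TD (Yg ∩ {x | rk (brA (Lev nd ar fr t)) x < n' + n'}) (((n' - k : ℕ) : ℤ) - 1) := by
    rcases n'.eq_zero_or_pos with h | h
    · exact fun s a _ => ⟨1, one_ne_zero, fun x hx => absurd hx.2 (by simp [h])⟩
    · exact (key (n' + n' - 1)).mono (fun x hx => ⟨hx.1, Nat.le_sub_one_of_lt hx.2⟩) (by omega)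
  obtain ⟨D, hZ, h7, h8, h9⟩ := td_cov (ig5_zcl _ z) (e := n' - k)
    ((key (n' + n')).mono hall (by omega)) h6
  refine ⟨Yy ∩ v ⁻¹' D, hv.preimage_isClosed_of_isClosed (ig5_zcl _ _).isClosed hZ.isClosed,
    fun y' h => ⟨h.1, h7 ⟨hm1 h.1, (hrk _ h.1).trans_lt h.2⟩⟩,
    ((td_fto h8).of_injOn v (hv.mono inter_subset_right) (hr1.injOn.mono inter_subset_right)
      fun y' h => ⟨h.1.2, hm1 h.2⟩).mono subset_rfl (by omega), ?_⟩
  rw [show n' + n' - 2 * k = 2 * (n' - k) by omega]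
  exact h9.of_homeo
    { toFun := fun y' => ⟨v y', hm1 y'.2.1, fun h => y'.2.2 ⟨y'.2.1, h⟩⟩
      invFun := fun x => ⟨e x, hB.mapsTo x.2.1, fun h => x.2.2 (hl1 x.2.1 ▸ h.2 : x.1 ∈ D)⟩
      left_inv := fun y' => Subtype.ext (hr1 y'.2.1)
      right_inv := fun x => Subtype.ext (hl1 x.2.1)
      continuous_toFun := (hv.mono sdiff_subset).domRestrict.subtype_mk _
      continuous_invFun := (hE.continuous.comp (continuous_inclusion sdiff_subset)).subtype_mk _ }

end C73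
end
end

section
/-! Block G, part 6: local and global structure of the generic part of `SF`. -/

open Set Filter Topology TopologicalSpace

noncomputable section
namespace C73

theorem ig_chart {J : Type} [Fintype J] {k : ℕ} (hk : Fintype.card J = k)
    (q : (J → ℂ) × (J → ℂˣ)) {W : Set ((J → ℂ) × (J → ℂˣ))} (hW : W ∈ 𝓝 q) :
    ∃ η : (Fin (4 * k) → ℝ) → (J → ℂ) × (J → ℂˣ), IsOpenEmbedding η ∧ η 0 = q ∧ ∀ s, η s ∈ W := by
  let j : (J → ℂ) × (J → ℂˣ) → (J → ℂ) × (J → ℂ) := Prod.map id (Pi.map fun _ => Units.val)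
  have hj : IsOpenEmbedding j :=
    IsOpenEmbedding.id.prodMap (IsOpenEmbedding.piMap fun _ => Units.isOpenEmbedding_val)
  let L : (Fin (4 * k) → ℝ) ≃L[ℝ] (J → ℂ) × (J → ℂ) := ContinuousLinearEquiv.ofFinrankEq (by
    simp only [Module.finrank_fintype_fun_eq_card, Fintype.card_fin, Module.finrank_prod, Module.finrank_pi_fintype, Complex.finrank_real_complex, Finset.sum_const, Finset.card_univ, hk, smul_eq_mul]; ring)
  obtain ⟨r, hr, h⟩ := Metric.mem_nhds_iff.1 (hj.isOpenMap.image_mem_nhds hW)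
  let B := OpenPartialHomeomorph.univBall (E := (J → ℂ) × (J → ℂ)) (j q) r
  have hB : B.source = univ := OpenPartialHomeomorph.univBall_source _ _
  choose η h1 h2 using fun s => h (show B (L s) ∈ _ from
    OpenPartialHomeomorph.univBall_target (E := (J → ℂ) × (J → ℂ)) (j q) hr ▸
      B.map_source (hB ▸ mem_univ _))
  refine ⟨η, .of_comp η hj ?_, hj.injective ?_, h1⟩
  · rw [show j ∘ η = B ∘ L from funext h2]
    exact (B.isOpenEmbedding hB).comp L.toHomeomorph.isOpenEmbedding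
  · rw [h2, map_zero, OpenPartialHomeomorph.univBall_apply_zero]

theorem ig_oe {X Y Z : Type} [TopologicalSpace X] [TopologicalSpace Y] [TopologicalSpace Z]
    {e : Y → Z} {W : Set Y} (hW : IsOpen W) (he : IsOpenEmbedding (W.domRestrict e)) {c : X → Y}
    (hc : IsOpenEmbedding c) (h : ∀ x, c x ∈ W) {O : Set Z} (hO : IsOpen O)
    (h' : ∀ x, e (c x) ∈ O) : IsOpenEmbedding fun x => (⟨e (c x), h' x⟩ : O) :=
  .of_comp _ hO.isOpenEmbedding_subtypeVal
    (he.comp (.of_comp (fun x => (⟨c x, h x⟩ : W)) hW.isOpenEmbedding_subtypeVal hc))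

variable {I ι : Type} [Fintype I] [DecidableEq I] {nd : I → ι} {ar : ι → ι → ℕ} {fr : ι → ℕ}

omit [Fintype I] [DecidableEq I] in
theorem ig_card (g : I → ℂ) [Fintype {a // g a ≠ 0}] :
    Fintype.card {a // g a ≠ 0} = {a | g a ≠ 0}.ncard := by
  rw [← Nat.card_eq_fintype_card]; rfl

theorem ig_fibS_open {Ω : Set (I → ℂ)} (h : IsOpen Ω) : IsOpen (FibS (Cou nd ar fr) Ω) :=
  isOpen_iff_mem_nhds.2 fun _ hx =>
    let ⟨_, ht, hx⟩ := ig_mem_fibS.1 hx
    fib_near hx (h.mem_nhds ht)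

open Classical in
theorem ig_mono_zero (f : PP I) :
    mono nd ar fr 0 f = pL (∑ σ : Equiv.Perm I with InW nd σ, MvPolynomial.rename σ f) := by
  rw [mono_eq, pL_eq, map_sum, map_sum]
  refine Finset.sum_congr rfl fun σ _ => ?_
  rw [actL_single, EE_zero, mul_one, actK_poly, ← pL_eq]
  rfl

omit [DecidableEq I] in
theorem ig_ok_iff {g t : I → ℂ} : Ok g t ↔ MvPolynomial.eval t (dlt g) ≠ 0 := by
  simp only [Ok, ne_eq, not_imp_not, dlt, map_mul, map_prod, map_sub, MvPolynomial.eval_X, mul_eq_zero, Finset.prod_eq_zero_iff, Finset.mem_univ, Finset.mem_filter, true_and, sub_eq_zero, not_or, not_exists, not_and]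

omit [Fintype I] [DecidableEq I] in
theorem ig_ok_perm {g t : I → ℂ} (h : Ok g t) {σ : Equiv.Perm I}
    (hσ : InW (fun a => (nd a, g a)) σ) : Ok g (t ∘ σ) :=
  have h1 : ∀ a, g (σ a) = g a := fun a => congrArg Prod.snd (hσ a)
  ⟨fun a b hab => h.1 _ _ (by rwa [h1, h1]), fun a ha => h.2 _ (by rwa [h1])⟩

omit [DecidableEq I] in
theorem ig_exists_perm {i : ι} {s s' : Set I} (h : s.ncard = s'.ncard) (hs : ∀ a ∈ s, nd a = i)
    (hs' : ∀ a ∈ s', nd a = i) : ∃ σ : Equiv.Perm I, InW nd σ ∧ ∀ a, σ a ∈ s' ↔ a ∈ s := by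
  classical
  have hc : ∀ {u : Set I}, (∀ a ∈ u, nd a = i) →
      Nat.card {a : {a // nd a = i} // a.1 ∈ u} = u.ncard := fun {u} hu =>
    ncard_preimage_of_injective_subset_range (s := u) Subtype.val_injective
      fun a ha => ⟨⟨a, hu a ha⟩, rfl⟩
  obtain ⟨ε⟩ := Finite.card_eq.1 ((hc hs).trans (h.trans (hc hs').symm))
  refine ⟨Equiv.Perm.ofSubtype ε.extendSubtype, fun a => ?_, fun a => ?_⟩
  · by_cases ha : nd a = i
    · rw [Equiv.Perm.ofSubtype_apply_of_mem ε.extendSubtype ha, ha]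
      exact (ε.extendSubtype ⟨a, ha⟩).2
    · rw [Equiv.Perm.ofSubtype_apply_of_not_mem ε.extendSubtype ha]
  · by_cases ha : nd a = i
    · rw [Equiv.Perm.ofSubtype_apply_of_mem ε.extendSubtype ha]
      exact ⟨fun h => by_contra fun h' => ε.extendSubtype_not_mem ⟨a, ha⟩ h' h,
        ε.extendSubtype_mem ⟨a, ha⟩⟩
    · rw [Equiv.Perm.ofSubtype_apply_of_not_mem ε.extendSubtype ha]
      exact iff_of_false (fun h => ha (hs' a h)) fun h => ha (hs a h)

omit [DecidableEq I] in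
theorem ig_perm_norm {g t : I → ℂ} {σ : Equiv.Perm I}
    (h : ∀ a b, g a = 0 → g b ≠ 0 → ‖t a‖ < ‖t b‖)
    (h' : ∀ a b, g a = 0 → g b ≠ 0 → ‖t (σ a)‖ < ‖t (σ b)‖) (a : I) : g (σ a) = 0 ↔ g a = 0 := by
  have key : ∀ s : Set I, MapsTo σ s s → (σ a ∈ s ↔ a ∈ s) := fun s hs =>
    ⟨fun ha => by simpa using Equiv.Perm.perm_symm_mapsTo_of_mapsTo σ hs ha, fun ha => hs ha⟩
  by_cases h0 : MapsTo σ {a | g a = 0} {a | g a = 0}
  · exact key _ h0
  · refine not_iff_not.1 (key {a | g a ≠ 0} fun b hb hb' => h0 fun c hc => by_contra fun hc' => ?_)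
    exact (h _ _ hb' hc').not_gt (h' _ _ hc hb)

theorem ig_levY_closed (g : I → ℂ) : IsClosed (LevY nd ar fr g) := by
  simp only [LevY, ofPred_forall, ofPred_and]
  exact isClosed_iInter fun a => isClosed_iInter fun _ => isClosed_iInter fun b =>
    (isClosed_iInter fun _ => isClosed_eq (pt_cont b) continuous_const).inter
      (isClosed_iInter fun _ => isClosed_eq (pt_cont b) continuous_const)

section
variable {g : I → ℂ} {Θ : LevY nd ar fr g × (({a // g a ≠ 0} → ℂ) × ({a // g a ≠ 0} → ℂˣ)) ≃ₜ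
  Pt (Lev nd ar fr g)} (hΘ : IsFree nd ar fr g Θ)
  {e : Pt (Lev nd ar fr g) → Pt (Cou nd ar fr)} (he : IsLevi nd ar fr g e)

open Classical in
include hΘ in
/-- the vacuum is unique -/
theorem ig_vac_unique {y y' : LevY nd ar fr g} {q q'} {t t' : I → ℂ}
    (ht : Θ (y, q) ∈ Fib (Lev nd ar fr g) t) (ht' : Θ (y', q') ∈ Fib (Lev nd ar fr g) t')
    (h0 : ∀ a, g a = 0 → t a = 0) (h0' : ∀ a, g a = 0 → t' a = 0)
    (h : ∀ w, w ≠ 0 → ∀ b ∈ grC (Lev nd ar fr g) (fun a => if g a = 0 then 1 else 0) w,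
      Θ (y, q) b = 0)
    (h' : ∀ w, w ≠ 0 → ∀ b ∈ grC (Lev nd ar fr g) (fun a => if g a = 0 then 1 else 0) w,
      Θ (y', q') b = 0) : y = y' := by
  refine Subtype.ext (AlgHom.ext_of_adjoin_eq_top hΘ.gen ?_)
  have hinv : ∀ (y : LevY nd ar fr g) a, g a ≠ 0 → ∀ b : Lev nd ar fr g,
      (b : LL I) = uL' (Pi.single a (-1)) → y.1 b = 1 := fun y a ha b hb => by
    have h1 : b * ⟨_, (hΘ.mem a ha).2.1⟩ = 1 := Subtype.ext <| by
      show (b : LL I) * uL' _ = 1
      rw [hb, uL_mul, ← Pi.single_add, neg_add_cancel, Pi.single_zero]; rfl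
    have := congrArg y.1 h1
    rwa [map_mul, (y.2 a ha ⟨_, (hΘ.mem a ha).2.1⟩).2 rfl, mul_one, map_one] at this
  rintro b (⟨a, ha, hb | hb | hb⟩ | ⟨l, f, hl, h1, h2, hb⟩)
  · exact ((y.2 a ha b).1 hb).trans ((y'.2 a ha b).1 hb).symm
  · exact ((y.2 a ha b).2 hb).trans ((y'.2 a ha b).2 hb).symm
  · exact (hinv y a ha b hb).trans (hinv y' a ha b hb).symm
  refine (hΘ.mono y q.1 q.2 l hl f b h1 h2 hb).symm.trans
    (Eq.trans ?_ (hΘ.mono y' q'.1 q'.2 l hl f b h1 h2 hb))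
  show Θ (y, q) b = Θ (y', q') b
  by_cases hl0 : l = 0
  · rw [hl0, ig_mono_zero] at hb
    rw [ht _ b hb, ht' _ b hb, map_sum, map_sum]
    refine Finset.sum_congr rfl fun σ hσ => ?_
    rw [MvPolynomial.eval_rename, MvPolynomial.eval_rename]
    refine MvPolynomial.eval₂Hom_congr' rfl (fun a ha _ => ?_) rfl
    have : g (σ a) = 0 := (congrArg Prod.snd ((Finset.mem_filter.1 hσ).2 a)).trans (h2 a ha)
    exact (h0 _ this).trans (h0' _ this).symm
  · have hb' : b ∈ grC (Lev nd ar fr g) (fun a => if g a = 0 then 1 else 0) (∑ a, l a) := by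
      have := mono_grC (nd := fun a => (nd a, g a))
        (ar := fun x y => if x.2 = y.2 then ar x.1 y.1 else 0)
        (fr := fun x => if x.2 = 0 then fr x.1 else 0) (m := fun a => if g a = 0 then 1 else 0)
        (fun a b h => by rw [show g a = g b from congrArg Prod.snd h]) hl f
      rw [Finset.sum_congr rfl (g := l) fun a _ => by by_cases h : g a = 0 <;> simp [h, h1]] at this
      exact (show b = ⟨_, _⟩ from Subtype.ext hb) ▸ this
    have hw : ∑ a, l a ≠ 0 := fun hw => hl0 (funext fun a => by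
      rcases hl with hl | hl
      · exact (Finset.sum_eq_zero_iff_of_nonneg fun c _ => by
          have := hl c; omega).1 hw a (Finset.mem_univ a)
      · exact (Finset.sum_eq_zero_iff_of_nonpos fun c _ => by
          have := hl c; omega).1 hw a (Finset.mem_univ a))
    rw [h _ hw b hb', h' _ hw b hb']

open Classical in
include hΘ in
theorem ig_fib0 {y : LevY nd ar fr g} {q} {t : I → ℂ} (ht : Θ (y, q) ∈ Fib (Lev nd ar fr g) t)
    (h0 : ∀ a, g a = 0 → t a = 0) (q') :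
    Θ (y, q') ∈ Fib (Lev nd ar fr g) fun a => if h : g a ≠ 0 then q'.1 ⟨a, h⟩ else 0 := by
  obtain ⟨s, hs⟩ := exists_fib y.1
  obtain ⟨σ, hσ, h⟩ := (fib_unique ht).1 (hΘ.fib y q.1 q.2 s hs)
  convert hΘ.fib y q'.1 q'.2 s hs using 3 with a
  refine dite_congr rfl (fun _ => rfl) fun ha => ?_
  have := congrFun h a
  rw [dif_neg ha] at this
  exact (this.trans (h0 _ ((congrArg Prod.snd (hσ a)).trans (not_not.1 ha)))).symm

include hΘ he in
theorem ig_pres {m : I → ℤ} (hm : ∀ a b, nd a = nd b → m a = m b) {y : LevY nd ar fr g} {q}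
    (h : Θ (y, q) ∈ LevDom nd ar fr g) :
    rk (brA (Cou nd ar fr)) (e (Θ (y, q))) = rk (brA (Lev nd ar fr g)) y.1 ∧
    (e (Θ (y, q)) ∈ PosG (grC (Cou nd ar fr) m) ↔ y.1 ∈ PosG (grC (Lev nd ar fr g) m)) ∧
    (e (Θ (y, q)) ∈ NegG (grC (Cou nd ar fr) m) ↔ y.1 ∈ NegG (grC (Lev nd ar fr g) m)) :=
  ⟨(he.rk _ h).trans (hΘ.rk y q), (he.pos m hm _ h).1.trans (hΘ.pos m hm y q).1,
    (he.pos m hm _ h).2.trans (hΘ.pos m hm y q).2⟩

variable (har : ∀ j, ar j j = 0) {i : ι} {m : I → ℤ} (hm : Coch nd i m)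
include hΘ he har hm

theorem ig_uniq {x : Pt (Cou nd ar fr)} {y y' : LevY nd ar fr g} {q q'} {t t' : I → ℂ}
    (ho : Ok g t) (ho' : Ok g t')
    (ht : Θ (y, q) ∈ Fib (Lev nd ar fr g) t) (ht' : Θ (y', q') ∈ Fib (Lev nd ar fr g) t')
    (h : e (Θ (y, q)) ∈ SF (Cou nd ar fr) m x) (h' : e (Θ (y', q')) ∈ SF (Cou nd ar fr) m x)
    (hl : KapLE (Cou nd ar fr) {a | g a ≠ 0}.ncard ∈ 𝓝[SF (Cou nd ar fr) m x] e (Θ (y, q)))
    (hl' : KapLE (Cou nd ar fr) {a | g a ≠ 0}.ncard ∈ 𝓝[SF (Cou nd ar fr) m x] e (Θ (y', q'))) :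
    y = y' :=
  have h1 := gen_vac har hm h hl ho rfl he ht rfl
  have h2 := gen_vac har hm h' hl' ho' rfl he ht' rfl
  ig_vac_unique hΘ ht ht' h1.1 h2.1 (h1.2 (fun _ => 1) fun _ _ _ => rfl)
    (h2.2 (fun _ => 1) fun _ _ _ => rfl)

/-- a connected family with the same first component stays in `SF` -/
theorem ig_conn {x : Pt (Cou nd ar fr)} {y : LevY nd ar fr g} {W} (hW : IsPreconnected W)
    (hd : ∀ q ∈ W, Θ (y, q) ∈ LevDom nd ar fr g) {q q'} (hq : q ∈ W) (hq' : q' ∈ W)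
    (h : e (Θ (y, q)) ∈ SF (Cou nd ar fr) m x) : e (Θ (y, q')) ∈ SF (Cou nd ar fr) m x := by
  have := cou_fg (nd := nd) (ar := ar) (fr := fr)
  have h1 := ig_pres hΘ he hm.1 (hd q hq)
  have h2 := ig_pres hΘ he hm.1 (hd q' hq')
  have hc : ContinuousOn (fun q => e (Θ (y, q))) W :=
    he.cont.comp (f := fun q => Θ (y, q)) (by fun_prop) hd
  refine ⟨⟨h2.2.1.2 (h1.2.1.1 h.1.1), h2.2.2.2 (h1.2.2.1 h.1.2)⟩, h.2.trans _ _ _
    (leaf_of_conn (cou_poi (nd := nd) (fr := fr) har) (cou_hol (nd := nd) (fr := fr) har) (hW.image _ hc) (r := rk (brA (Lev nd ar fr g)) y.1)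
      ?_ (mem_image_of_mem _ hq) (mem_image_of_mem _ hq'))⟩
  rintro _ ⟨q, hq, rfl⟩
  exact (ig_pres hΘ he hm.1 (hd q hq)).1
end

variable (har : ∀ j, ar j j = 0) {i : ι} {m : I → ℤ} (hm : Coch nd i m)
include har hm

theorem gen_loc {x y : Pt (Cou nd ar fr)} (hy : y ∈ SF (Cou nd ar fr) m x) {k : ℕ}
    (hk : y ∈ Gen (Cou nd ar fr) k) (hl : KapLE (Cou nd ar fr) k ∈ 𝓝[SF (Cou nd ar fr) m x] y) :
    ∃ γ : (Fin (4 * k) → ℝ) → Pt (Cou nd ar fr), IsEmbedding γ ∧ γ 0 = y ∧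
      range γ ⊆ SF (Cou nd ar fr) m x ∧ range γ ∈ 𝓝[SF (Cou nd ar fr) m x] y := by
  classical
  obtain ⟨g, ⟨rfl, hi⟩, hg⟩ := ig_mem_fibS.1 hk
  obtain ⟨e, he⟩ := levi (nd := nd) (fr := fr) har g
  obtain ⟨Θ, hΘ⟩ := free (nd := nd) (fr := fr) har hi
  obtain ⟨z, hz, rfl⟩ := (he.bij g (ok_self g)).surjOn hg
  obtain ⟨⟨v, q⟩, rfl⟩ := Θ.surjective z
  obtain ⟨Ω, h1, h2, -, h3, h4⟩ := exists_omega (nd := nd) (ok_self g) univ_mem
  have hE := he.emb Ω h1 h3 h4
  have hq : Θ (v, q) ∈ FibS (Lev nd ar fr g) Ω := ig_mem_fibS.2 ⟨g, h2, hz⟩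
  obtain ⟨η, hη, rfl, hW⟩ := ig_chart (ig_card g) q (W := {q | Θ (v, q) ∈ FibS (Lev nd ar fr g) Ω})
    (((ig_fibS_open h1).preimage (by fun_prop)).mem_nhds hq)
  have hd : ∀ z ∈ FibS (Lev nd ar fr g) Ω, z ∈ LevDom nd ar fr g := fun z hz =>
    let ⟨t, ht, hz⟩ := ig_mem_fibS.1 hz
    ig_mem_fibS.2 ⟨t, h3 t ht, hz⟩
  refine ⟨fun s => e (Θ (v, η s)), hE.isEmbedding.comp ((Θ.isEmbedding.comp
    ((isEmbedding_prodMkRight v).comp hη.isEmbedding)).codRestrict _ hW), rfl, ?_, ?_⟩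
  · rintro _ ⟨s, rfl⟩
    exact ig_conn hΘ he har hm (isPreconnected_range hη.continuous)
      (by rintro _ ⟨s, rfl⟩; exact hd _ (hW s)) ⟨0, rfl⟩ ⟨s, rfl⟩ hy
  · have h5 : IsOpen {z : FibS (Lev nd ar fr g) Ω | (Θ.symm z).2 ∈ range η} :=
      hη.isOpen_range.preimage (by fun_prop)
    filter_upwards [self_mem_nhdsWithin, eventually_eventually_nhdsWithin.2 hl,
      mem_nhdsWithin_of_mem_nhds (hE.isOpenMap.image_mem_nhds
        (h5.mem_nhds (x := ⟨_, hq⟩) ⟨0, by simp⟩))]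
    rintro _ h6 h7 ⟨⟨z, hz'⟩, ⟨s, hs⟩, rfl⟩
    obtain ⟨⟨v', q'⟩, rfl⟩ := Θ.surjective z
    obtain rfl : η s = q' := by simpa using hs
    obtain ⟨t, ht, h8⟩ := ig_mem_fibS.1 hz'
    obtain rfl := ig_uniq hΘ he har hm (ok_self g) (h3 t ht) hz h8 hy h6 hl h7
    exact ⟨s, rfl⟩

theorem gen_glob {x : Pt (Cou nd ar fr)} {k : ℕ} (hS : SF (Cou nd ar fr) m x ⊆ KapLE (Cou nd ar fr) k)
    (hne : (SF (Cou nd ar fr) m x ∩ Gen (Cou nd ar fr) k).Nonempty) :
    ∃ (O' : Set (Pt (Cou nd ar fr))) (O Y : Type) (_ : TopologicalSpace O) (_ : TopologicalSpace Y)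
      (_ : Nice Y) (e : O → Pt (Cou nd ar fr)) (p : O → Y) (z : Y), IsOpen O' ∧ IsOpenEmbedding e ∧
      LocProj p ∧ O' ⊆ range e ∧
      (∀ a b, p a = p b → rk (brA (Cou nd ar fr)) (e a) = rk (brA (Cou nd ar fr)) (e b) ∧
        (e a ∈ PosG (grC (Cou nd ar fr) m) ↔ e b ∈ PosG (grC (Cou nd ar fr) m)) ∧
        (e a ∈ NegG (grC (Cou nd ar fr) m) ↔ e b ∈ NegG (grC (Cou nd ar fr) m))) ∧
      (∀ a, e a ∈ O' → (e a ∈ SF (Cou nd ar fr) m x ↔ p a = z)) ∧
      SF (Cou nd ar fr) m x ∩ O' = SF (Cou nd ar fr) m x ∩ Gen (Cou nd ar fr) k := by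
  classical
  obtain ⟨y, hy, hk⟩ := hne
  obtain ⟨g, ⟨rfl, hi⟩, hg⟩ := ig_mem_fibS.1 hk
  obtain ⟨e, he⟩ := levi (nd := nd) (fr := fr) har g
  obtain ⟨Θ, hΘ⟩ := free (nd := nd) (fr := fr) har hi
  obtain ⟨z, hz, rfl⟩ := (he.bij g (ok_self g)).surjOn hg
  obtain ⟨⟨v, q⟩, rfl⟩ := Θ.surjective z
  have hl : ∀ {y}, KapLE (Cou nd ar fr) {a | g a ≠ 0}.ncard ∈ 𝓝[SF (Cou nd ar fr) m x] y :=
    mem_of_superset self_mem_nhdsWithin hS
  let Ω : Set (I → ℂ) := {t | Ok g t} ∩ {t | ∀ a b, g a = 0 → g b ≠ 0 → ‖t a‖ < ‖t b‖}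
  have hΩ : IsOpen Ω := (ig_ok_open g).inter (by
    simp only [ofPred_forall]
    exact isOpen_iInter_of_finite fun a => isOpen_iInter_of_finite fun b =>
      isOpen_iInter_of_finite fun _ => isOpen_iInter_of_finite fun _ =>
        isOpen_lt (by fun_prop) (by fun_prop))
  have hO := ig_fibS_open (nd := nd) (ar := ar) (fr := fr) hΩ
  have ex : ∀ a : FibS (Cou nd ar fr) Ω, ∃ y q, ∃ t ∈ Ω, Θ (y, q) ∈ Fib (Lev nd ar fr g) t ∧
      e (Θ (y, q)) = a := fun a => by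
    obtain ⟨t, ht, h⟩ := ig_mem_fibS.1 a.2
    obtain ⟨z, hz, h⟩ := (he.bij t ht.1).surjOn h
    obtain ⟨⟨y, q⟩, rfl⟩ := Θ.surjective z
    exact ⟨y, q, t, ht, hz, h⟩
  choose p hp using ex
  have un : ∀ (a : FibS (Cou nd ar fr) Ω) y q, ∀ t ∈ Ω, Θ (y, q) ∈ Fib (Lev nd ar fr g) t →
      e (Θ (y, q)) = a → p a = y := fun a y q t ht h1 h2 => by
    obtain ⟨q', t', ht', h3, h4⟩ := hp a
    obtain ⟨σ, hσ, rfl⟩ := (fib_unique ((he.bij _ ht'.1).mapsTo h3)).1
      ((h2.trans h4.symm) ▸ (he.bij _ ht.1).mapsTo h1)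
    exact hΘ.eqv e he _ _ _ _ t' σ hσ (ig_perm_norm ht'.2 ht.2) ht'.1 ht.1 h3 h1 (h4.trans h2.symm)
  have ch : ∀ a : FibS (Cou nd ar fr) Ω, ∃ (n : ℕ) (U : Set (LevY nd ar fr g))
      (c : U × (Fin n → ℝ) → FibS (Cou nd ar fr) Ω), IsOpen U ∧ IsOpenEmbedding c ∧ a ∈ range c ∧
      ∀ u s, p (c (u, s)) = u := fun a => by
    obtain ⟨q', t, ht, h1, h2⟩ := hp a
    obtain ⟨Ω', k1, k2, k3, k4, k5⟩ := exists_omega (nd := nd) ht.1 (hΩ.mem_nhds ht)
    obtain ⟨U, V, hU, hU', hV, hV', hUV⟩ := mem_nhds_prod_iff'.1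
      (Θ.continuous.continuousAt.preimage_mem_nhds (fib_near h1 (k1.mem_nhds k2)))
    obtain ⟨η, hη, rfl, hW⟩ := ig_chart (ig_card g) q' (hV.mem_nhds hV')
    have h3 : ∀ w : U × (Fin (4 * {a | g a ≠ 0}.ncard) → ℝ),
        Θ (w.1, η w.2) ∈ FibS (Lev nd ar fr g) Ω' := fun w => hUV ⟨w.1.2, hW w.2⟩
    have h4 : ∀ w : U × (Fin (4 * {a | g a ≠ 0}.ncard) → ℝ),
        e (Θ (w.1, η w.2)) ∈ FibS (Cou nd ar fr) Ω := fun w =>
      let ⟨t, ht, h⟩ := ig_mem_fibS.1 (h3 w)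
      ig_mem_fibS.2 ⟨t, k3 ht, (he.bij t (k4 t ht)).mapsTo h⟩
    refine ⟨_, U, fun w => ⟨_, h4 w⟩, hU, ig_oe (ig_fibS_open k1) (he.emb Ω' k1 k4 k5)
      (Θ.isOpenEmbedding.comp (hU.isOpenEmbedding_subtypeVal.prodMap hη)) h3 hO h4,
      ⟨(⟨_, hU'⟩, 0), Subtype.ext h2⟩, fun u s => ?_⟩
    obtain ⟨t, ht, h⟩ := ig_mem_fibS.1 (h3 (u, s))
    exact un _ _ _ t (k3 ht) h rfl
  have := ig_lev_fg (nd := nd) (ar := ar) (fr := fr) g
  have := pt_nice (A := Lev nd ar fr g)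
  refine ⟨_, FibS (Cou nd ar fr) Ω, LevY nd ar fr g, _, _,
    nice_of_closedEmb (ig_levY_closed g).isClosedEmbedding_subtypeVal, Subtype.val, p, v, hO,
    hO.isOpenEmbedding_subtypeVal, ⟨continuous_iff_continuousAt.2 fun a => ?_, ch⟩, by simp,
    fun a b hab => ?_, fun a _ => ?_, ?_⟩
  · obtain ⟨n, U, c, -, hc, ⟨w, rfl⟩, h⟩ := ch a
    rw [← hc.continuousAt_iff, show p ∘ c = fun w => w.1.1 from funext fun w => h w.1 w.2]
    fun_prop
  · obtain ⟨q1, t1, ht1, h1, h2⟩ := hp a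
    obtain ⟨q2, t2, ht2, h3, h4⟩ := hp b
    have k1 := ig_pres hΘ he hm.1 (ig_mem_fibS.2 ⟨t1, ht1.1, h1⟩)
    have k2 := ig_pres hΘ he hm.1 (ig_mem_fibS.2 ⟨t2, ht2.1, h3⟩)
    rw [h2, hab] at k1
    rw [h4] at k2
    exact ⟨k1.1.trans k2.1.symm, k1.2.1.trans k2.2.1.symm, k1.2.2.trans k2.2.2.symm⟩
  · obtain ⟨q', t, ht, h1, h2⟩ := hp a
    refine ⟨fun h => ig_uniq hΘ he har hm ht.1 (ok_self g) h1 hz (h2 ▸ h) hy hl hl, fun h => ?_⟩
    rw [h] at h1 h2
    have h3 := ig_fib0 hΘ hz fun _ h => h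
    let δ : MvPolynomial {a // g a ≠ 0} ℂ :=
      MvPolynomial.aeval (fun a => if h : g a ≠ 0 then MvPolynomial.X ⟨a, h⟩ else 0) (dlt g)
    have hδ : ∀ ζ, MvPolynomial.eval ζ δ ≠ 0 ↔
        Ok g fun a => if h : g a ≠ 0 then ζ ⟨a, h⟩ else 0 := fun ζ => by
      rw [ig_ok_iff, ← MvPolynomial.coe_aeval_eq_eval, ← MvPolynomial.coe_aeval_eq_eval,
        RingHom.coe_coe, RingHom.coe_coe, MvPolynomial.comp_aeval_apply]
      congr! 4 with a
      split_ifs <;> simp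
    have h4 : ∀ q t, Ok g t → Θ (v, q) ∈ Fib (Lev nd ar fr g) t →
        q ∈ {ζ | MvPolynomial.eval ζ δ ≠ 0} ×ˢ univ := fun q t ht h => by
      obtain ⟨σ, hσ, h5⟩ := (fib_unique h).1 (h3 q)
      exact ⟨(hδ _).2 (h5 ▸ ig_ok_perm ht hσ), trivial⟩
    have h5 := h4 _ _ (ok_self g) hz
    exact h2 ▸ ig_conn hΘ he har hm
      ((conn_ne fun h => h5.1 (by rw [h, map_zero])).isPreconnected.prod isPreconnected_univ)
      (fun q hq => ig_mem_fibS.2 ⟨_, (hδ _).1 hq.1, h3 q⟩) h5 (h4 _ _ ht.1 h1) hy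
  · ext y
    refine and_congr_right fun hy' => ⟨fun h => ?_, fun h => ?_⟩
    · obtain ⟨t, ht, h⟩ := ig_mem_fibS.1 h
      have h1 : {a | t a ≠ 0} = {a | g a ≠ 0} :=
        Subset.antisymm (fun a ha h0 => ha (ig_supp ht.1 h (hS hy') h0)) ht.1.2
      rw [ig_gen_iff h, h1]
      exact ⟨rfl, fun a ha b hb hab => hi ha hb (by_contra fun h => ht.1.1 a b h hab)⟩
    · obtain ⟨t, ht, h⟩ := ig_mem_fibS.1 h
      obtain ⟨σ, hσ, h1⟩ := ig_exists_perm (nd := nd) ht.1.symm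
        (fun a ha => hm.2.1 a (fix_node har hm hy.1 hg ha))
        (fun a ha => hm.2.1 a (fix_node har hm hy'.1 h ha))
      have h2 : ∀ a, g a = 0 ↔ t (σ a) = 0 := fun a => (not_iff_not.1 (h1 a)).symm
      refine ig_mem_fibS.2 ⟨t ∘ σ, ⟨⟨fun a b hab h3 => ?_, fun a => (h1 a).2⟩, fun a b ha hb => ?_⟩,
        (fib_unique h).2 ⟨σ, hσ, rfl⟩⟩
      · by_cases h0 : t (σ a) = 0
        · exact hab (((h2 a).2 h0).trans ((h2 b).2 (h3.symm.trans h0)).symm)
        · exact hab (congrArg g (σ.injective (ht.2 h0 (fun h => h0 (h3.trans h)) h3)))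
      · simpa [(h2 a).1 ha] using (h1 b).2 hb

end C73
end
end

section
/-! Block G: geometry of the Coulomb branch and of the fixed locus (parts `IG_1` to `IG_6`). -/
end
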