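import Pool.Agent.MP_94fa45_ag.Mg.C73_PA

attribute [-instance] OreLocalization.instAddCommMonoidOreLocalization
  MonTypeEquivalenceMon.monMonoid instCharZeroOfIsSemireal Algebra.Generators.instRing
  littleWedderburn Complex.instModule NormedAlgebra.toAlgebra
  Action.FintypeCat.instMulActionObjFiniteOf LieAdmissibleAlgebra.toModule
  ContinuousSemilinearMapClass.toSemilinearMapClass RightPreLieAlgebra.toModule
  LeftPreLieAlgebra.toModule FloorSemiring.instCharZero LieAlgebra.toModule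
  IsFormallyReal.instIsReduced RKHS.instFunLike IsAffineAddMonoid.toIsCancelAdd
  IdemSemiring.toSemiring CoalgHomClass.toSemilinearMapClass RCLike.charZero_rclike
  DivisionRing.toRing NumberField.to_charZero Algebra.Generators.instIsScalarTowerRing
  instNonUnitalAlgHomClassOfNonUnitalAlgEquivClass Complex.instDistribMulActionOfReal
  ProperSMul.toContinuousSMul SemilatticeInf.toPartialOrder BialgEquivClass.toBialgHomClass
  CommMonTypeEquivalenceCommMon.commMonCommMonoid SemilinearIsometryClass.toSemilinearMapClass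
  RingHomClass.toLinearMapClassNNRat Group.IsPerfect.subsingleton_of_isMulCommutative
  IdemCommSemiring.toCommSemiring IsTopologicalTorsor.toContinuousSMul
  instIsRightCancelAddOfAddRightReflectLE instCoeTCOfCoe bot_nonempty instIsFractionRing
  NonarchimedeanRing.toIsTopologicalRing DiscreteUniformity.instDiscreteTopology
  RingHomClass.toLinearMapClassRat NonUnitalNormedRing.toNormedAddCommGroup instSMulZeroClass
  BialgHomClass.toAlgHomClass
  NonUnitalAlgHomClass.instSemilinearMapClassOfNonUnitalAlgSemiHomClassToMonoidHomRingHom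
  instDiscreteTopologyOfAlexandrovDiscreteOfT1Space ValuationClass.toMonoidWithZeroHomClass
  IsStrictOrderedRing.toCharZero TestFunctionClass.toDFunLike DivisionRing.toDivisionSemiring
  ContDiffMapSupportedInClass.toDFunLike IsLocalRing.toNontrivial AlgEquivClass.toAlgHomClass
  Fintype.decidableForallFintype MulSemiringAction.toDistribMulAction
  MulRingSeminormClass.toMonoidWithZeroHomClass AddGroupConeClass.toAddSubmonoidClass
  MulSemiringActionSemiHomClass.toDistribMulActionSemiHomClass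
  NonUnitalAlgHomClass.toNonUnitalRingHomClass BialgHomClass.toMonoidHomClass
  MulCharClass.toMonoidHomClass NonarchimedeanAddGroup.toIsTopologicalAddGroup Valued.toUniformSpace
  LieRing.toAddCommGroup MulDistribMulActionSemiHomClass.toMonoidHomClass AlgHomClass.linearMapClass
  BooleanRing.toRing Valued.isTopologicalDivisionRing Nontrivial.to_nonempty RingHomInvPair.triples₂
  IsModuleTopology.toContinuousSMul CentroidHomClass.toAddMonoidHomClass instCoeTOfCoeDep
  AddQuantale.instAddLeftMono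

/-! The matrix model, part 1. -/

section
/-! Block U, part 1: polynomial matrices, the unipotent action, density of generic points. -/

open Set Filter Topology Polynomial

noncomputable section
namespace C73

section
variable {R S : Type} [CommRing R] [CommRing S]

/-- coefficientwise application of an additive map -/
def cM (δ : R →+ S) (p : R[X]) : S[X] := p.sum fun n a => monomial n (δ a)

theorem coeff_cM (δ : R →+ S) (p : R[X]) (n : ℕ) : (cM δ p).coeff n = δ (p.coeff n) := by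
  rw [cM, coeff_sum, Polynomial.sum, Finset.sum_eq_single n]
  · simp
  · intro m _ h; simp [coeff_monomial, h]
  · intro h; simp [notMem_support_iff.1 h]

theorem cM_add (δ : R →+ S) (p q : R[X]) : cM δ (p + q) = cM δ p + cM δ q := by
  ext; simp [coeff_cM]

theorem cM_sub (δ : R →+ S) (p q : R[X]) : cM δ (p - q) = cM δ p - cM δ q := by
  ext; simp [coeff_cM]

theorem cM_C (δ : R →+ S) (r : R) : cM δ (C r) = C (δ r) := by
  ext n; rw [coeff_cM, coeff_C, coeff_C]; split_ifs <;> simp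

theorem cM_mul (δ : R →+ S) (φ : R →+* S) (h : ∀ a b, δ (a * b) = δ a * φ b + φ a * δ b)
    (p q : R[X]) : cM δ (p * q) = cM δ p * q.map φ + p.map φ * cM δ q := by
  ext n; simp only [coeff_cM, coeff_mul, map_sum, h, Finset.sum_add_distrib, coeff_add, coeff_map]

theorem cM_X_pow (δ : R →+ S) (h1 : δ 1 = 0) (n : ℕ) : cM δ (X ^ n) = 0 := by
  ext m; rw [coeff_cM, coeff_X_pow]; split_ifs <;> simp [h1]

theorem cM_deg (δ : R →+ S) {p : R[X]} {k : ℕ} (h : p.degree < k) : (cM δ p).degree < k := by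
  rw [degree_lt_iff_coeff_zero] at h ⊢
  intro m hm; rw [coeff_cM, h m hm, map_zero]

theorem cM_deg_monic (δ : R →+ S) (h1 : δ 1 = 0) {p : R[X]} {k : ℕ} (hm : p.Monic)
    (h : p.natDegree = k) : (cM δ p).degree < k := by
  rw [degree_lt_iff_coeff_zero]
  intro m hm'
  rw [coeff_cM]
  rcases hm'.eq_or_lt with rfl | hlt
  · rw [← h, hm.coeff_natDegree, h1]
  · rw [coeff_eq_zero_of_natDegree_lt (h ▸ hlt), map_zero]

theorem eval_cM (δ : R →+ R) (h : ∀ a b, δ (a * b) = δ a * b + a * δ b) (h1 : δ 1 = 0)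
    (p : R[X]) (w : R) : δ (p.eval w) = (cM δ p).eval w + p.derivative.eval w * δ w := by
  induction p using Polynomial.induction_on with
  | C a => simp [cM_C]
  | add p q hp hq => simp only [eval_add, map_add, cM_add, hp, hq]; ring
  | monomial n a ih =>
    have e := cM_mul δ (RingHom.id R) h (C a * X ^ n) (X ^ 1)
    rw [cM_X_pow δ h1, Polynomial.map_id, pow_one] at e
    rw [pow_succ, ← mul_assoc, e, derivative_mul (f := C a * X ^ n), eval_mul (q := X), h, ih]
    simp only [eval_add, eval_mul, eval_X, derivative_X, eval_one, mul_zero, eval_zero]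
    ring

theorem eq_of_dvd {a p q : R[X]} {k : ℕ} (hm : a.Monic) (h : a.natDegree = k)
    (hp : p.degree < k) (hq : q.degree < k) (hd : a ∣ p - q) : p = q := by
  nontriviality R
  by_contra hne
  refine hm.not_dvd_of_degree_lt (sub_ne_zero.2 hne) ?_ hd
  rw [degree_eq_natDegree hm.ne_zero, h]
  exact (degree_sub_le _ _).trans_lt (max_lt hp hq)

/-- the conditions defining `FM`, over any ring -/
structure Q (N k : ℕ) (a b c d : R[X]) : Prop where
  mon : a.Monic
  deg : a.natDegree = k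
  db : b.degree < k
  dc : c.degree < k
  det : a * d - b * c = X ^ N

variable {N k : ℕ} {a b c d : R[X]}

theorem Q.swap (h : Q N k a b c d) : Q N k a c b d :=
  ⟨h.mon, h.deg, h.dc, h.db, by rw [← h.det]; ring⟩

theorem Q.map [Nontrivial S] (h : Q N k a b c d) (φ : R →+* S) :
    Q N k (a.map φ) (b.map φ) (c.map φ) (d.map φ) :=
  ⟨h.mon.map φ, (h.mon.natDegree_map φ).trans h.deg, degree_map_le.trans_lt h.db,
    degree_map_le.trans_lt h.dc, by simpa using congrArg (Polynomial.map φ) h.det⟩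

theorem Q.dega [Nontrivial R] (h : Q N k a b c d) : a.degree = k := by
  rw [degree_eq_natDegree h.mon.ne_zero, h.deg]

theorem Q.top (h : Q N k a b c d) : a.coeff k = 1 := by
  rw [← h.deg, h.mon.coeff_natDegree]

theorem Q.d_eq {d' : R[X]} (h : Q N k a b c d) (h' : Q N k a b c d') : d = d' := by
  have : a * (d - d') = 0 := by linear_combination h.det - h'.det
  exact sub_eq_zero.1 (h.mon.mul_right_eq_zero_iff.1 this)

theorem Q.sub_lt [Nontrivial R] (h : Q N k a b c d) (s : R) : (C s * b).degree < a.degree := by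
  rw [h.dega, ← smul_eq_C_mul]; exact (degree_smul_le _ _).trans_lt h.db

theorem Q.act [Nontrivial R] (h : Q N k a b c d) (s : R) :
    Q N k (a - C s * b) b ((c - C s * d) %ₘ (a - C s * b))
      (d - (c - C s * d) /ₘ (a - C s * b) * b) := by
  have hm := h.mon.sub_of_left (h.sub_lt s)
  have hd : (a - C s * b).degree = k := (degree_sub_eq_left_of_degree_lt (h.sub_lt s)).trans h.dega
  refine ⟨hm, natDegree_eq_of_degree_eq_some hd, h.db, hd ▸ degree_modByMonic_lt _ hm, ?_⟩
  rw [modByMonic_eq_sub_mul_div, ← h.det]; ring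

theorem Q.mul_X_pow [Nontrivial R] (h : Q N k a b c d) (e : ℕ) :
    Q (N + 2 * e) (k + e) (X ^ e * a) (X ^ e * b) (X ^ e * c) (X ^ e * d) := by
  have key : ∀ p : R[X], p.degree < k → (X ^ e * p).degree < ((k + e : ℕ) : WithBot ℕ) := fun p hp => by
    rw [degree_lt_iff_coeff_zero] at hp ⊢
    intro m hm
    rw [coeff_X_pow_mul', if_pos (by omega), hp _ (by omega)]
  refine ⟨(monic_X_pow e).mul h.mon, ?_, key b h.db, key c h.dc, ?_⟩
  · rw [(monic_X_pow e).natDegree_mul h.mon, natDegree_X_pow, h.deg, add_comm]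
  · rw [pow_add, ← h.det]; ring
end

variable {N k : ℕ}

theorem FM.q (M : FM N k) : Q N k (M.1 0 0) (M.1 0 1) (M.1 1 0) (M.1 1 1) :=
  ⟨M.2.1, M.2.2.1, M.2.2.2.1, M.2.2.2.2.1, (Matrix.det_fin_two M.1).symm.trans M.2.2.2.2.2⟩

/-- a point of `FM` -/
def Q.fm {a b c d : ℂ[X]} (h : Q N k a b c d) : FM N k :=
  ⟨!![a, b; c, d], h.mon, h.deg, h.db, h.dc, by rw [Matrix.det_fin_two_of, h.det]⟩

theorem FM.ext' {M M' : FM N k} (ha : M.1 0 0 = M'.1 0 0) (hb : M.1 0 1 = M'.1 0 1)
    (hc : M.1 1 0 = M'.1 1 0) : M = M' := by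
  have hd : M.1 1 1 = M'.1 1 1 := M.q.d_eq (ha ▸ hb ▸ hc ▸ M'.q)
  refine Subtype.ext (Matrix.ext fun i j => ?_)
  fin_cases i <;> fin_cases j <;> assumption

theorem FM.cont (i j : Fin 2) (n : ℕ) : Continuous fun M : FM N k => (M.1 i j).coeff n :=
  (continuous_apply n).comp ((continuous_apply j).comp ((continuous_apply i).comp
    (continuous_induced_dom (f := fun (M : FM N k) i j n => (M.1 i j).coeff n))))

theorem Q.cont {T : Type} [TopologicalSpace T] {a b c d : T → ℂ[X]}
    (h : ∀ s, Q N k (a s) (b s) (c s) (d s)) (ha : ∀ n, Continuous fun s => (a s).coeff n)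
    (hb : ∀ n, Continuous fun s => (b s).coeff n) (hc : ∀ n, Continuous fun s => (c s).coeff n)
    (hd : ∀ n, Continuous fun s => (d s).coeff n) : Continuous fun s => (h s).fm := by
  refine continuous_induced_rng.2 (continuous_pi fun i => continuous_pi fun j =>
    continuous_pi fun n => ?_)
  fin_cases i <;> fin_cases j
  exacts [ha n, hb n, hc n, hd n]

/-- simple nonzero roots -/
def Gn (a : ℂ[X]) : Prop := ∀ z, a.eval z = 0 → z ≠ 0 ∧ a.derivative.eval z ≠ 0

theorem cop_iff {p q : ℂ[X]} : IsCoprime p q ↔ ∀ z, p.eval z = 0 → q.eval z ≠ 0 := by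
  rw [isCoprime_iff_aeval_ne_zero_of_isAlgClosed (k := ℂ) ℂ]
  simp only [coe_aeval_eq_eval, ← imp_iff_not_or, ne_eq]

theorem Gn.nodal {a : ℂ[X]} (h : Gn a) (hm : a.Monic) (hk : a.natDegree = k) :
    ∃ t : Fin k → ℂ, Function.Injective t ∧ (∀ i, t i ≠ 0) ∧ a = Lagrange.nodal Finset.univ t := by
  obtain ⟨s, hs⟩ := exists_finset_of_splits (RingHom.id ℂ) (f := a)
    (cop_iff.2 fun z hz => (h z hz).2) (IsAlgClosed.splits _)
  rw [Polynomial.map_id, hm.leadingCoeff, map_one, C_1, one_mul] at hs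
  have hc : s.card = k := by
    rw [← hk, hs]; exact (Lagrange.natDegree_nodal (s := s) (v := id)).symm
  let e := s.equivFinOfCardEq hc
  have ha : a = Lagrange.nodal Finset.univ fun i => (e.symm i : ℂ) := by
    rw [hs, Lagrange.nodal, ← Finset.prod_coe_sort]
    exact (e.symm.prod_comp fun x : s => X - C (x : ℂ)).symm
  refine ⟨_, Subtype.val_injective.comp e.symm.injective, fun i => (h _ ?_).1, ha⟩
  rw [ha]; exact Lagrange.eval_nodal_at_node (Finset.mem_univ i)

theorem bertini {a b E : ℂ[X]} (hm : a.Monic) (hb : b.degree < a.degree) (hE : E ≠ 0)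
    (hc : ∀ z, a.eval z = 0 → b.eval z ≠ 0) :
    ∀ᶠ s in cofinite, Gn (a - C s * b) ∧ ∀ z, (a - C s * b).eval z = 0 → E.eval z ≠ 0 := by
  by_cases h0 : b = 0
  · subst h0
    refine Eventually.of_forall fun s => ⟨fun z hz => ?_, fun z hz => ?_⟩ <;>
      exact absurd (eval_zero) (hc z (by simpa using hz))
  have hW : a.derivative * b - a * b.derivative ≠ 0 := fun h => by
    have h1 : a ∣ a.derivative * b := ⟨_, sub_eq_zero.1 h⟩
    have ha : a.degree ≠ 0 := fun h => h0 (by
      rw [h] at hb; exact degree_eq_bot.1 (Nat.WithBot.lt_zero_iff.1 hb))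
    have h2 := eq_zero_of_dvd_of_degree_lt ((cop_iff.2 hc).dvd_of_dvd_mul_right h1)
      (degree_derivative_lt hm.ne_zero)
    exact ha (by rw [eq_C_of_derivative_eq_zero h2, degree_C]; intro h3
                 exact hm.ne_zero (by rw [eq_C_of_derivative_eq_zero h2, h3, C_0]))
  have hP := mul_ne_zero (mul_ne_zero hW hE) (X_ne_zero (R := ℂ))
  have hf := ((finite_setOfPred_isRoot hP).image fun z => a.eval z / b.eval z).compl_mem_cofinite
  filter_upwards [hf] with s hs
  have key : ∀ z, (a - C s * b).eval z = 0 →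
      ((a.derivative * b - a * b.derivative) * E * X).eval z ≠ 0 := fun z hz h => by
    simp only [eval_sub, eval_mul, eval_C] at hz
    have hb0 : b.eval z ≠ 0 := fun h => hc z (by simpa [h] using hz) h
    exact hs ⟨z, h, by field_simp; linear_combination hz⟩
  refine ⟨fun z hz => ⟨fun h => key z hz (by simp [h]), fun h => key z hz ?_⟩,
    fun z hz h => key z hz (by simp [h])⟩
  simp only [eval_sub, eval_mul, eval_C, derivative_sub, derivative_mul, derivative_C, zero_mul,
    zero_add, eval_X] at hz h ⊢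
  linear_combination (eval z b * eval z E * z) * h - (eval z b.derivative * eval z E * z) * hz

theorem exists_Q (N : ℕ) {a b : ℂ[X]} (hm : a.Monic) (hk : a.natDegree = k) (hb : b.degree < k)
    (hc : ∀ z, a.eval z = 0 → b.eval z ≠ 0) : ∃ c d, Q N k a b c d := by
  obtain ⟨u, v, h⟩ := cop_iff.2 hc
  refine ⟨(-(X ^ N * v)) %ₘ a, X ^ N * u - b * ((-(X ^ N * v)) /ₘ a), hm, hk, hb, ?_, ?_⟩
  · rw [← hk, ← degree_eq_natDegree hm.ne_zero]; exact degree_modByMonic_lt _ hm
  · rw [modByMonic_eq_sub_mul_div]; linear_combination X ^ N * h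

theorem Q.cop {a b c d : ℂ[X]} (h : Q N k a b c d) (h0 : a.eval 0 = 0 → b.eval 0 ≠ 0) (z : ℂ)
    (ha : a.eval z = 0) : b.eval z ≠ 0 := fun hb => by
  have := congrArg (eval z) h.det
  simp only [eval_sub, eval_mul, ha, hb, zero_mul, sub_zero, eval_pow, eval_X] at this
  obtain rfl : z = 0 := pow_eq_zero_iff (fun h => by simp [h] at this) |>.1 this.symm
  exact h0 ha hb

/-- the universal orbit of the unipotent action, over `ℂ[s]` -/
theorem act_map {a b c d : ℂ[X]} (h : Q N k a b c d) (s0 τ : ℂ) :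
    let σ : ℂ[X] := C s0 * X
    let e := evalRingHom τ
    (a.map C - C σ * b.map C).map e = a - C (s0 * τ) * b ∧
    ((c.map C - C σ * d.map C) %ₘ (a.map C - C σ * b.map C)).map e =
      (c - C (s0 * τ) * d) %ₘ (a - C (s0 * τ) * b) ∧
    (d.map C - (c.map C - C σ * d.map C) /ₘ (a.map C - C σ * b.map C) * b.map C).map e =
      d - (c - C (s0 * τ) * d) /ₘ (a - C (s0 * τ) * b) * b := by
  intro σ e
  have hm := ((h.map C).act σ).mon
  have h1 : ∀ p : ℂ[X], (p.map C).map e = p := fun p => by ext; simp [e]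
  have h2 : e σ = s0 * τ := by simp [e, σ]
  simp only [map_modByMonic e hm, map_divByMonic e hm, Polynomial.map_sub, Polynomial.map_mul, h1,
    map_C, h2, and_self]

theorem act_cont (M : FM N k) : Continuous fun s : ℂ => (M.q.act s).fm := by
  have key : ∀ (P : ℂ[X][X]) (p : ℂ → ℂ[X]), (∀ s, P.map (evalRingHom s) = p s) →
      ∀ n, Continuous fun s => (p s).coeff n := fun P p h n => by
    simp only [← h, coeff_map]; exact (P.coeff n).continuous
  have h := fun s => act_map M.q 1 s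
  simp only [one_mul] at h
  exact Q.cont _ (key _ _ fun s => (h s).1) (fun _ => continuous_const)
    (key _ _ fun s => (h s).2.1) (key _ _ fun s => (h s).2.2)

theorem act_zero (M : FM N k) : (M.q.act 0).fm = M := by
  refine FM.ext' ?_ rfl ?_ <;> simp only [Q.fm, C_0, zero_mul, sub_zero]
  · rfl
  · exact (modByMonic_eq_self_iff M.q.mon).2 (M.q.dc.trans_eq M.q.dega.symm)

theorem mem_closure_act {G : Set (FM N k)} (M : FM N k)
    (h : ∀ᶠ s in cofinite, (M.q.act s).fm ∈ closure G) : M ∈ closure G := by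
  have h1 : Tendsto (fun s : ℂ => (M.q.act s).fm) (𝓝[≠] 0) (𝓝 M) := by
    have := (act_cont M).tendsto 0
    rw [act_zero] at this
    exact this.mono_left nhdsWithin_le_nhds
  exact isClosed_closure.mem_of_tendsto h1 (h.filter_mono (nhdsNE_le_cofinite 0))

theorem Q.ch {a b c d : ℂ[X]} (h : Q N (k + 1) a b c d) :
    Q (N + 1) (k + 1) a (X * b - C (b.coeff k) * a) c (X * d - C (b.coeff k) * c) := by
  refine ⟨h.mon, h.deg, (degree_lt_iff_coeff_zero _ _).2 fun m hm => ?_, h.dc, ?_⟩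
  · obtain ⟨m, rfl⟩ := Nat.exists_eq_add_of_le' hm
    rw [coeff_sub, coeff_C_mul, ← add_assoc, coeff_X_mul]
    rcases m with _ | m
    · rw [zero_add, h.top]; simp
    · rw [(degree_lt_iff_coeff_zero _ _).1 h.db _ (by omega),
        coeff_eq_zero_of_natDegree_lt (p := a) (by rw [h.deg]; omega)]; simp
  · rw [pow_succ, ← h.det]; ring

theorem FM.dense_gen (N k : ℕ) : Dense {M : FM N k | Gn (M.1 0 0)} := by
  rcases k with _ | k
  · refine fun M => subset_closure fun z hz => ?_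
    rw [M.q.mon.natDegree_eq_zero.1 M.q.deg] at hz
    simp at hz
  induction N with
  | zero =>
    refine fun M => mem_closure_act M ?_
    filter_upwards [bertini M.q.mon (M.q.db.trans_eq M.q.dega.symm) one_ne_zero (M.q.cop fun ha hb => by
      simpa [ha, hb] using congrArg (eval 0) M.q.det)] with s hs
    exact subset_closure hs.1
  | succ N ih =>
    have hc : Continuous fun M : FM N (k + 1) => M.q.ch.fm := by
      have hX : ∀ i j n, Continuous fun M : FM N (k + 1) => (X * M.1 i j).coeff n := by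
        rintro i j (_ | n)
        · simpa using continuous_const
        · simpa only [coeff_X_mul] using FM.cont i j n
      refine Q.cont _ (FM.cont 0 0) (fun n => ?_) (FM.cont 1 0) fun n => ?_ <;>
        simp only [coeff_sub, coeff_C_mul]
      exacts [(hX 0 1 n).sub ((FM.cont 0 1 k).mul (FM.cont 0 0 n)),
        (hX 1 1 n).sub ((FM.cont 0 1 k).mul (FM.cont 1 0 n))]
    have key : ∀ (M : FM (N + 1) (k + 1)) (s : ℂ), (M.1 0 1 + C s * M.1 0 0).eval 0 = 0 →
        (M.1 1 1 + C s * M.1 1 0).eval 0 = 0 →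
        M ∈ closure {M : FM (N + 1) (k + 1) | Gn (M.1 0 0)} := fun M s h1 h2 => by
      obtain ⟨b, hb⟩ := X_dvd_iff.2 ((coeff_zero_eq_eval_zero _).trans h1)
      obtain ⟨d, hd⟩ := X_dvd_iff.2 ((coeff_zero_eq_eval_zero _).trans h2)
      have hco : ∀ m, k ≤ m → b.coeff m = s * (M.1 0 0).coeff (m + 1) := fun m hm => by
        rw [← coeff_X_mul, ← hb, coeff_add, coeff_C_mul,
          (degree_lt_iff_coeff_zero _ _).1 M.q.db _ (by omega), zero_add]
      have hq : Q N (k + 1) (M.1 0 0) b (M.1 1 0) d := by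
        refine ⟨M.q.mon, M.q.deg, (degree_lt_iff_coeff_zero _ _).2 fun m hm => ?_, M.q.dc, ?_⟩
        · rw [hco m (by omega), coeff_eq_zero_of_natDegree_lt (by rw [M.q.deg]; omega), mul_zero]
        · refine mul_left_cancel₀ (X_ne_zero (R := ℂ)) ?_
          linear_combination M.q.det + M.1 1 0 * hb - M.1 0 0 * hd
      have hs : b.coeff k = s := by
        rw [hco k le_rfl, M.q.top, mul_one]
      have e : hq.fm.q.ch.fm = M := FM.ext' rfl (by
        show X * b - C (b.coeff k) * M.1 0 0 = _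
        rw [hs, ← hb]; ring) rfl
      rw [← e]
      exact map_mem_closure hc (ih hq.fm) fun _ h => h
    intro M
    have hdet := congrArg (eval 0) M.q.det
    simp only [eval_sub, eval_mul, eval_pow, eval_X, ne_eq, Nat.add_eq_zero_iff, one_ne_zero,
      and_false, not_false_eq_true, zero_pow] at hdet
    by_cases ha : (M.1 0 0).eval 0 = 0
    · by_cases hc : (M.1 1 0).eval 0 = 0
      · refine mem_closure_act M ?_
        filter_upwards [(finite_singleton (0 : ℂ)).compl_mem_cofinite] with s hs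
        have hs : s ≠ 0 := hs
        refine key _ s⁻¹ ?_ ?_
        · show (M.1 0 1 + C s⁻¹ * (M.1 0 0 - C s * M.1 0 1)).eval 0 = 0
          simp only [eval_add, eval_mul, eval_C, eval_sub, ha]; field_simp; ring
        · show (M.1 1 1 - _ * M.1 0 1 + C s⁻¹ * (_ %ₘ _)).eval 0 = 0
          rw [modByMonic_eq_sub_mul_div]
          simp only [eval_add, eval_mul, eval_C, eval_sub, ha, hc]; field_simp; ring
      · refine key M (-(M.1 1 1).eval 0 / (M.1 1 0).eval 0) ?_ ?_ <;>
          simp only [eval_add, eval_mul, eval_C] <;> field_simp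
        · linear_combination -hdet
        · ring
    · refine key M (-(M.1 0 1).eval 0 / (M.1 0 0).eval 0) ?_ ?_ <;>
        simp only [eval_add, eval_mul, eval_C] <;> field_simp
      · ring
      · linear_combination hdet

end C73
end
end

section
/-! Block U, part 2: valuation strata of `FM`, points of a Poisson algebra generated by the
coefficients of a matrix, explicit Hamiltonian flows. -/

open Set Filter Topology Polynomial

noncomputable section
namespace C73

variable {N k : ℕ}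

theorem u2_le_val {c : ℕ} (M : FM N k) : c ≤ M.val ↔ ∀ i j, X ^ c ∣ M.1 i j := by
  have hb : BddAbove {c | ∀ i j, (X : ℂ[X]) ^ c ∣ M.1 i j} := ⟨k, fun c h => by
    simpa [M.q.deg] using natDegree_le_of_dvd (h 0 0) M.q.mon.ne_zero⟩
  exact ⟨fun h i j => (pow_dvd_pow _ h).trans (Nat.sSup_mem ⟨0, by simp only [Fin.isValue, Fin.forall_fin_two, mem_ofPred_eq, pow_zero, isUnit_one, IsUnit.dvd, and_self]⟩ hb i j),
    fun h => le_csSup hb h⟩

theorem FM.decomp {e : ℕ} (M : FM N k) (h : e ≤ M.val) : ∃ (N' κ : ℕ) (a b c d : ℂ[X]),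
    N = N' + 2 * e ∧ k = κ + e ∧ Q N' κ a b c d ∧ M.1 0 0 = X ^ e * a ∧ M.1 0 1 = X ^ e * b ∧
      M.1 1 0 = X ^ e * c ∧ M.1 1 1 = X ^ e * d := by
  have h' := (u2_le_val M).1 h
  obtain ⟨a, ha⟩ := h' 0 0
  obtain ⟨b, hb⟩ := h' 0 1
  obtain ⟨c, hc⟩ := h' 1 0
  obtain ⟨d, hd⟩ := h' 1 1
  have hq := M.q
  rw [ha, hb, hc, hd] at hq
  have hm : a.Monic := (monic_X_pow e).of_mul_monic_left hq.mon
  have hk : a.natDegree + e = k := by
    rw [← hq.deg, (monic_X_pow e).natDegree_mul hm, natDegree_X_pow, add_comm]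
  have hdet : X ^ (2 * e) * (a * d - b * c) = X ^ N := by rw [← hq.det]; ring
  have hN : 2 * e ≤ N := by
    simpa using natDegree_le_of_dvd ⟨_, hdet.symm⟩ (pow_ne_zero N (X_ne_zero (R := ℂ)))
  have key : ∀ p : ℂ[X], (X ^ e * p).degree < (k : WithBot ℕ) → p.degree < a.natDegree := fun p hp => by
    rw [degree_lt_iff_coeff_zero] at hp ⊢
    intro m hm
    rw [← coeff_X_pow_mul p e m, hp _ (by omega)]
  refine ⟨N - 2 * e, a.natDegree, a, b, c, d, by omega, hk.symm,
    ⟨hm, rfl, key b hq.db, key c hq.dc, ?_⟩, ha, hb, hc, hd⟩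
  refine mul_left_cancel₀ (pow_ne_zero (2 * e) (X_ne_zero (R := ℂ))) ?_
  rw [hdet, ← pow_add, Nat.add_sub_cancel' hN]

theorem u2_val_le (M : FM N k) : M.val ≤ k ∧ 2 * M.val ≤ N := by
  obtain ⟨N', κ, -, -, -, -, h1, h2, -⟩ := M.decomp le_rfl
  omega

theorem le_val_mul {N' κ e : ℕ} {a b c d : ℂ[X]} (h : Q N' κ a b c d) :
    e ≤ (h.mul_X_pow e).fm.val := (u2_le_val _).2 fun i j => by
  fin_cases i <;> fin_cases j <;> exact dvd_mul_right _ _

theorem u2_closure {e : ℕ} (M : FM N k) (h : e ≤ M.val) :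
    M ∈ closure {M' : FM N k | e ≤ M'.val ∧ ∃ a, Gn a ∧ M'.1 0 0 = X ^ e * a} := by
  obtain ⟨N', κ, a, b, c, d, rfl, rfl, hq, ha, hb, hc, -⟩ := M.decomp h
  have hX : ∀ i j n, Continuous fun M : FM N' κ => (X ^ e * M.1 i j).coeff n := fun i j n => by
    simp only [coeff_X_pow_mul']
    split_ifs
    exacts [FM.cont i j _, continuous_const]
  have hc' : Continuous fun M : FM N' κ => (M.q.mul_X_pow e).fm :=
    Q.cont _ (hX 0 0) (hX 0 1) (hX 1 0) (hX 1 1)
  rw [FM.ext' (M' := (hq.fm.q.mul_X_pow e).fm) ha hb hc]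
  exact map_mem_closure hc' (FM.dense_gen N' κ hq.fm) fun M' h => ⟨le_val_mul M'.q, _, h, rfl⟩

theorem u2_dense {c : ℕ} (M : FM N k) (h : c ≤ M.val) :
    M ∈ closure {M' : FM N k | c ≤ M'.val ∧ ∃ r : Fin (k - c) → ℂ, Function.Injective r ∧
      (∀ a, r a ≠ 0) ∧ M'.1 0 0 = X ^ c * ∏ a, (X - C (r a))} := by
  refine closure_mono ?_ (u2_closure M h)
  rintro M' ⟨h1, a, hg, ha⟩
  have hq := M'.q
  rw [ha] at hq
  have hm : a.Monic := (monic_X_pow c).of_mul_monic_left hq.mon
  obtain ⟨r, hr, h0, e⟩ := hg.nodal (k := k - c) hm (by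
    rw [← hq.deg, (monic_X_pow c).natDegree_mul hm, natDegree_X_pow]; omega)
  exact ⟨h1, r, hr, h0, by rw [ha, e, Lagrange.nodal]⟩

theorem val_eq_of_gn {e : ℕ} {M : FM N k} (h : e ≤ M.val) {a : ℂ[X]} (hg : Gn a)
    (ha : M.1 0 0 = X ^ e * a) : M.val = e := by
  refine le_antisymm (not_lt.1 fun hlt => ?_) h
  have := (u2_le_val M).1 hlt 0 0
  rw [ha, pow_succ, mul_dvd_mul_iff_left (pow_ne_zero e X_ne_zero), X_dvd_iff,
    coeff_zero_eq_eval_zero] at this
  exact (hg 0 this).1 rfl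

theorem isClosed_le_val (e : ℕ) : IsClosed {M : FM N k | e ≤ M.val} := by
  simp only [u2_le_val, X_pow_dvd_iff, ofPred_forall]
  exact isClosed_iInter fun i => isClosed_iInter fun j => isClosed_iInter fun n =>
    isClosed_iInter fun _ => isClosed_eq (FM.cont i j n) continuous_const

section
variable {R : Type} [CommRing R] [IsDomain R] {t : Fin k → R}

theorem eq_of_vals (ht : Function.Injective t) {p q : R[X]} (hp : p.degree < k)
    (hq : q.degree < k) (h : ∀ i, p.eval (t i) = q.eval (t i)) : p = q :=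
  eq_of_degrees_lt_of_eval_index_eq Finset.univ ht.injOn (by simpa only [Finset.card_univ, Fintype.card_fin] using hp) (by simpa only [Finset.card_univ, Fintype.card_fin] using hq)
    fun i _ => h i

theorem nodal_dvd (ht : Function.Injective t) {p : R[X]} (h : ∀ i, p.eval (t i) = 0) :
    Lagrange.nodal Finset.univ t ∣ p := by
  rw [← modByMonic_eq_zero_iff_dvd Lagrange.nodal_monic]
  refine eq_of_vals ht ?_ (by simp only [degree_zero, WithBot.bot_lt_natCast]) fun i => ?_
  · simpa only [Lagrange.degree_nodal, Finset.card_univ, Fintype.card_fin] using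
      degree_modByMonic_lt p (Lagrange.nodal_monic (s := Finset.univ) (v := t))
  · rw [modByMonic_eq_sub_mul_div]
    simp only [eval_sub, h, eval_mul, Finset.mem_univ, Lagrange.eval_nodal_at_node, zero_mul, sub_self, eval_zero]

theorem Q_of_vals (ht : Function.Injective t) {b c : R[X]} (hb : b.degree < k) (hc : c.degree < k)
    (h : ∀ i, b.eval (t i) * c.eval (t i) = -t i ^ N) :
    ∃ d, Q N k (Lagrange.nodal Finset.univ t) b c d := by
  obtain ⟨d, hd⟩ := nodal_dvd ht (p := X ^ N + b * c) fun i => by simp [h]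
  exact ⟨d, Lagrange.nodal_monic, by simp only [Lagrange.natDegree_nodal, Finset.card_univ, Fintype.card_fin], hb, hc,
    by rw [← hd]; ring⟩
end

theorem Q.c_eq {a b c d c' d' : ℂ[X]} (h : Q N k a b c d) (h' : Q N k a b c' d')
    (hc : ∀ z, a.eval z = 0 → b.eval z ≠ 0) : c = c' :=
  eq_of_dvd h.mon h.deg h.dc h'.dc ((cop_iff.2 hc).dvd_of_dvd_mul_left
    ⟨d - d', by linear_combination h'.det - h.det⟩)

variable {R : Type} [CommRing R] [Algebra ℂ R] {β : R → R → R}

/-- the adjoint action as an additive map -/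
def IsPoi.ad (hβ : IsPoi β) (f : R) : R →+ R := AddMonoidHom.mk' (β f) (hβ.add_right f)

theorem IsPoi.ad_apply (hβ : IsPoi β) (f g : R) : hβ.ad f g = β f g := rfl

theorem IsPoi.cM_mul (hβ : IsPoi β) (f : R) (p q : R[X]) :
    cM (hβ.ad f) (p * q) = cM (hβ.ad f) p * q + p * cM (hβ.ad f) q := by
  simpa using C73.cM_mul (hβ.ad f) (RingHom.id R) (hβ.mul f) p q

theorem IsPoi.cM_smul (hβ : IsPoi β) (s : ℂ) (f : R) (p : R[X]) :
    cM (hβ.ad (s • f)) p = C (algebraMap ℂ R s) * cM (hβ.ad f) p := by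
  ext n; rw [coeff_C_mul, coeff_cM, coeff_cM, hβ.ad_apply, hβ.smul, Algebra.smul_def]; rfl

theorem IsPoi.cM_add' (hβ : IsPoi β) (f g : R) (p : R[X]) :
    cM (hβ.ad (f + g)) p = cM (hβ.ad f) p + cM (hβ.ad g) p := by
  ext n; simp [coeff_cM, hβ.ad_apply, hβ.add]

theorem IsPoi.cM_det (hβ : IsPoi β) (f : R) {a b c d : R[X]} (h : Q N k a b c d) :
    cM (hβ.ad f) a * d + a * cM (hβ.ad f) d = cM (hβ.ad f) b * c + b * cM (hβ.ad f) c := by
  have := congrArg (cM (hβ.ad f)) h.det
  rwa [cM_sub, hβ.cM_mul, hβ.cM_mul, cM_X_pow _ (hβ.one_right f), sub_eq_zero] at this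

theorem IsPoi.algebraMap_right (hβ : IsPoi β) (f : R) (s : ℂ) : β f (algebraMap ℂ R s) = 0 := by
  rw [Algebra.algebraMap_eq_smul_one, hβ.smul_right, hβ.one_right, smul_zero]

/-- a point as a ring homomorphism -/
def Pt.rh (x : Pt R) : R →+* ℂ := (x : R →+* ℂ)

@[simp] theorem Pt.rh_apply (x : Pt R) (g : R) : x.rh g = x g := rfl

@[simp] theorem Pt.alg (x : Pt R) (s : ℂ) : x (algebraMap ℂ R s) = s := AlgHomClass.commutes x s

/-- the matrix entries take the given values at `x` -/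
def At (a b c : R[X]) (x : Pt R) (a0 b0 c0 : ℂ[X]) : Prop :=
  a.map x.rh = a0 ∧ b.map x.rh = b0 ∧ c.map x.rh = c0

/-- generation by the coefficients -/
def Gens (a b c : R[X]) : Prop :=
  Algebra.adjoin ℂ (range a.coeff ∪ range b.coeff ∪ range c.coeff) = ⊤

variable {a b c d : R[X]}

theorem Gens.swap (h : Gens a b c) : Gens a c b := by
  rw [Gens, union_right_comm]; exact h

theorem Gens.ind (h : Gens a b c) {P : R → Prop} (ha : ∀ n, P (a.coeff n)) (hb : ∀ n, P (b.coeff n))
    (hc : ∀ n, P (c.coeff n)) (h0 : ∀ s, P (algebraMap ℂ R s))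
    (h1 : ∀ f g, P f → P g → P (f + g)) (h2 : ∀ f g, P f → P g → P (f * g)) (g : R) : P g := by
  have hg : g ∈ Algebra.adjoin ℂ (range a.coeff ∪ range b.coeff ∪ range c.coeff) :=
    h.symm ▸ Algebra.mem_top
  induction hg using Algebra.adjoin_induction with
  | mem x hx => rcases hx with (⟨n, rfl⟩ | ⟨n, rfl⟩) | ⟨n, rfl⟩; exacts [ha n, hb n, hc n]
  | algebraMap s => exact h0 s
  | add f g _ _ hf hg => exact h1 f g hf hg
  | mul f g _ _ hf hg => exact h2 f g hf hg

theorem Gens.inj (h : Gens a b c) {x y : Pt R} {a0 b0 c0 : ℂ[X]} (hx : At a b c x a0 b0 c0)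
    (hy : At a b c y a0 b0 c0) : x = y := by
  refine DFunLike.ext _ _ (h.ind (fun n => ?_) (fun n => ?_) (fun n => ?_) (fun s => by simp)
    (fun f g hf hg => by simp only [map_add, hf, hg]) fun f g hf hg => by simp [hf, hg])
  exacts [by simpa using congrArg (coeff · n) (hx.1.trans hy.1.symm),
    by simpa using congrArg (coeff · n) (hx.2.1.trans hy.2.1.symm),
    by simpa using congrArg (coeff · n) (hx.2.2.trans hy.2.2.symm)]

theorem Gens.fg (h : Gens a b c) : Algebra.FiniteType ℂ R := by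
  have key : ∀ p : R[X], (range p.coeff).Finite := fun p =>
    ((p.coeffs.finite_toSet).insert 0).subset (by
      rintro _ ⟨n, rfl⟩
      by_cases h : p.coeff n = 0
      exacts [Or.inl h, Or.inr (coeff_mem_coeffs h)])
  exact ⟨⟨(((key a).union (key b)).union (key c)).toFinset, by rw [Finite.coe_toFinset]; exact h⟩⟩

theorem Gens.lim (h : Gens a b c) (hq : Q N k a b c d) {F : Filter (Pt R)} [F.NeBot] {M : FM N k}
    (hF : Tendsto (fun x : Pt R => (hq.map x.rh).fm) F (𝓝 M)) :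
    ∃ x : Pt R, (hq.map x.rh).fm = M ∧ F ≤ 𝓝 x := by
  have h1 : ∀ g : R, ∃ v, Tendsto (fun x : Pt R => x g) F (𝓝 v) := h.ind
    (fun n => ⟨_, by simpa [Q.fm, Function.comp_def] using ((FM.cont 0 0 n).tendsto M).comp hF⟩)
    (fun n => ⟨_, by simpa only [Fin.isValue, Q.fm, Function.comp_def, Matrix.of_apply, Matrix.cons_val', Matrix.cons_val_one, Matrix.cons_val_fin_one, Matrix.cons_val_zero, coeff_map, Pt.rh_apply] using ((FM.cont 0 1 n).tendsto M).comp hF⟩)
    (fun n => ⟨_, by simpa [Q.fm, Function.comp_def] using ((FM.cont 1 0 n).tendsto M).comp hF⟩)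
    (fun s => ⟨s, by simp⟩) (fun f g ⟨_, hf⟩ ⟨_, hg⟩ => ⟨_, by simpa only [map_add] using hf.add hg⟩)
    fun f g ⟨_, hf⟩ ⟨_, hg⟩ => ⟨_, by simpa using hf.mul hg⟩
  choose v hv using h1
  let x : R →ₐ[ℂ] ℂ :=
    { toFun := v
      map_one' := tendsto_nhds_unique (hv 1) (by simp)
      map_mul' := fun f g => tendsto_nhds_unique (hv _) (by simpa using (hv f).mul (hv g))
      map_zero' := tendsto_nhds_unique (hv 0) (by simp)
      map_add' := fun f g => tendsto_nhds_unique (hv _) (by simpa only [map_add] using (hv f).add (hv g))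
      commutes' := fun s => tendsto_nhds_unique (hv _) (by simp) }
  have hx : F ≤ @nhds (Pt R) _ x := by
    rw [nhds_induced, ← tendsto_iff_comap]
    exact tendsto_pi_nhds.2 hv
  refine ⟨x, FM.ext' ?_ ?_ ?_, hx⟩ <;> ext n <;> refine (coeff_map _ _).trans ?_
  exacts [tendsto_nhds_unique (hv _) (by simpa only [Fin.isValue, Q.fm, Function.comp_def, Matrix.of_apply, Matrix.cons_val', Matrix.cons_val_zero, Matrix.cons_val_fin_one, coeff_map, Pt.rh_apply] using ((FM.cont 0 0 n).tendsto M).comp hF),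
    tendsto_nhds_unique (hv _) (by simpa [Q.fm, Function.comp_def] using ((FM.cont 0 1 n).tendsto M).comp hF),
    tendsto_nhds_unique (hv _) (by simpa [Q.fm, Function.comp_def] using ((FM.cont 1 0 n).tendsto M).comp hF)]

theorem Gens.homeo (h : Gens a b c) (hq : Q N k a b c d)
    (hp : ∀ a0 b0 c0 d0 : ℂ[X], Q N k a0 b0 c0 d0 → Gn a0 → ∃ x : Pt R, At a b c x a0 b0 c0) :
    ∃ Ψ : Pt R ≃ₜ FM N k, ∀ x, Ψ x = (hq.map x.rh).fm := by
  let ψ := fun x : Pt R => (hq.map x.rh).fm
  have hi : Function.Injective ψ := fun x y hxy => h.inj ⟨rfl, rfl, rfl⟩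
    ⟨congrArg (·.1 0 0) hxy.symm, congrArg (·.1 0 1) hxy.symm, congrArg (·.1 1 0) hxy.symm⟩
  have hc : Continuous ψ := by
    refine Q.cont _ ?_ ?_ ?_ ?_ <;> intro n <;> simpa using Pt.cont _
  have hs : Function.Surjective ψ := fun M => by
    have : M ∈ closure (range ψ) := closure_mono (fun M' hM' => by
      obtain ⟨x, hx⟩ := hp _ _ _ _ M'.q hM'
      exact ⟨x, FM.ext' hx.1 hx.2.1 hx.2.2⟩) (FM.dense_gen N k M)
    have : (comap ψ (𝓝 M)).NeBot := comap_neBot_iff_frequently.2 (mem_closure_iff_frequently.1 this)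
    obtain ⟨x, hx, -⟩ := h.lim hq (F := comap ψ (𝓝 M)) tendsto_comap
    exact ⟨x, hx⟩
  have he : IsEmbedding ψ := ⟨isInducing_iff_nhds.2 fun x => le_antisymm
    (hc.tendsto x).le_comap (by
      have : (comap ψ (𝓝 (ψ x))).NeBot := (inferInstance : (𝓝 x).NeBot).mono (hc.tendsto x).le_comap
      obtain ⟨y, hy, h'⟩ := h.lim hq (F := comap ψ (𝓝 (ψ x))) tendsto_comap
      rwa [hi hy] at h'), hi⟩
  exact ⟨he.toHomeomorphOfSurjective hs, fun _ => rfl⟩

theorem Gens.traj (h : Gens a b c) (hβ : IsPoi β) {f : R} {γ : ℝ → Pt R} {A B C : ℝ → ℂ[X]}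
    (hγ : ∀ s, At a b c (γ s) (A s) (B s) (C s))
    (hA : ∀ n t, HasDerivAt (fun s => (A s).coeff n) (((cM (hβ.ad f) a).map (γ t).rh).coeff n) t)
    (hB : ∀ n t, HasDerivAt (fun s => (B s).coeff n) (((cM (hβ.ad f) b).map (γ t).rh).coeff n) t)
    (hC : ∀ n t, HasDerivAt (fun s => (C s).coeff n) (((cM (hβ.ad f) c).map (γ t).rh).coeff n) t) :
    Leaf β (γ 0) (γ 1) := by
  refine Relation.EqvGen.rel _ _ ⟨f, γ, fun g t _ => HasDerivAt.hasDerivWithinAt ?_, rfl, rfl⟩
  refine h.ind (P := fun g => HasDerivAt (fun s => γ s g) (γ t (β f g)) t) (fun n => ?_)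
    (fun n => ?_) (fun n => ?_) (fun s => ?_) (fun g g' hg hg' => ?_) (fun g g' hg hg' => ?_) g
  · simpa [← (hγ _).1, coeff_cM, hβ.ad_apply] using hA n t
  · simpa [← (hγ _).2.1, coeff_cM, hβ.ad_apply] using hB n t
  · simpa [← (hγ _).2.2, coeff_cM, hβ.ad_apply] using hC n t
  · simpa [hβ.algebraMap_right] using hasDerivAt_const t s
  · simpa only [map_add, hβ.add_right] using hg.fun_add hg'
  · simpa only [map_mul, hβ.mul, map_add] using hg.fun_mul hg'

end C73
end
end

section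
/-! Block U, part 3: leaves and rank for a Poisson algebra with the bracket formulas of `A₁`. -/

open Set Filter Topology Polynomial

noncomputable section
namespace C73

variable {N k : ℕ} {R : Type} [CommRing R] [Algebra ℂ R] {β : R → R → R} {a b c d : R[X]}

/-- `h` acts on `b` by `F` and on `c` by `-F` modulo `a` -/
def GoodH (hβ : IsPoi β) (a b c : R[X]) (h : R) (F : R[X]) : Prop :=
  cM (hβ.ad h) a = 0 ∧ a ∣ cM (hβ.ad h) b - F * b ∧ a ∣ cM (hβ.ad h) c + F * c

/-- `h` generates the unipotent action -/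
def Uni (hβ : IsPoi β) (a b c d : R[X]) (h : R) : Prop :=
  cM (hβ.ad h) a = -b ∧ cM (hβ.ad h) b = 0 ∧ a ∣ cM (hβ.ad h) c + d

/-- all matrices come from points -/
def Sur' (N k : ℕ) (a b c : R[X]) : Prop :=
  ∀ a0 b0 c0 d0 : ℂ[X], Q N k a0 b0 c0 d0 → ∃ x : Pt R, At a b c x a0 b0 c0

theorem At.swap {x : Pt R} {a0 b0 c0 : ℂ[X]} (h : At a b c x a0 b0 c0) : At a c b x a0 c0 b0 :=
  ⟨h.1, h.2.2, h.2.1⟩

theorem Sur'.swap (h : Sur' N k a b c) : Sur' N k a c b := fun _ _ _ _ hq =>
  let ⟨x, hx⟩ := h _ _ _ _ hq.swap; ⟨x, hx.swap⟩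

theorem At.d_eq (hq : Q N k a b c d) {x : Pt R} {a0 b0 c0 d0 : ℂ[X]} (h : At a b c x a0 b0 c0)
    (h0 : Q N k a0 b0 c0 d0) : d.map x.rh = d0 := by
  have := hq.map x.rh
  rw [h.1, h.2.1, h.2.2] at this
  exact this.d_eq h0

theorem deg_X_pow_mul {p : ℂ[X]} (hp : p.degree < k) (e : ℕ) :
    (X ^ e * p).degree < ((k + e : ℕ) : WithBot ℕ) := by
  rw [degree_lt_iff_coeff_zero] at hp ⊢
  intro m hm
  rw [coeff_X_pow_mul', if_pos (by omega), hp _ (by omega)]

theorem hasDerivAt_map (P : ℂ[X][X]) (n : ℕ) (t : ℝ) :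
    HasDerivAt (fun s : ℝ => (P.map (evalRingHom (s : ℂ))).coeff n)
      (((cM derivative.toAddMonoidHom P).map (evalRingHom (t : ℂ))).coeff n) t := by
  simp only [coeff_map, coeff_cM]
  exact ((P.coeff n).hasDerivAt (t : ℂ)).comp_ofReal

theorem flowB (hβ : IsPoi β) (hq : Q N k a b c d) (hg : Gens a b c) (hs : Sur' N k a b c) {h : R}
    (hu : Uni hβ a b c d h) {a0 b0 c0 d0 : ℂ[X]} (h0 : Q N k a0 b0 c0 d0) (s : ℂ) {x y : Pt R}
    (hx : At a b c x a0 b0 c0)
    (hy : At a b c y (a0 - C s * b0) b0 ((c0 - C s * d0) %ₘ (a0 - C s * b0))) : Leaf β x y := by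
  choose γ hγ using fun τ : ℝ => hs _ _ _ _ (h0.act (s * τ))
  have e0 : γ 0 = x := hg.inj (hγ 0) (by
    simpa [(modByMonic_eq_self_iff h0.mon).2 (h0.dc.trans_eq h0.dega.symm)] using hx)
  have e1 : γ 1 = y := hg.inj (hγ 1) (by simpa using hy)
  rw [← e0, ← e1]
  let D : ℂ[X] →+ ℂ[X] := derivative.toAddMonoidHom
  have hD := cM_mul D (RingHom.id _) fun p q => derivative_mul
  simp only [Polynomial.map_id] at hD
  have hC : ∀ p : ℂ[X], cM D (p.map C) = 0 := fun p => by ext1 n; simp [coeff_cM, D]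
  have hσ : cM D (C (C s * X)) = C (C s) := by rw [cM_C]; simp [D]
  have hm : ∀ (p : ℂ[X]) (τ : ℂ), (p.map C).map (evalRingHom τ) = p := fun p τ => by ext; simp
  have hA : cM D (a0.map C - C (C s * X) * b0.map C) = -(C (C s) * b0.map C) := by
    rw [cM_sub, hD, hC, hC, hσ]; ring
  refine hg.traj hβ (f := s • h) hγ (fun n t => ?_) (fun n t => ?_) fun n t => ?_
  · have := hasDerivAt_map (a0.map C - C (C s * X) * b0.map C) n t
    simp only [(act_map h0 s _).1] at this
    rw [hA] at this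
    refine this.congr_deriv ?_
    simp only [Polynomial.map_neg, Polynomial.map_mul, map_C, coe_evalRingHom, eval_C, hm, coeff_neg, coeff_C_mul, hβ.cM_smul, hu.1, mul_neg, Pt.rh_apply, Pt.alg, (hγ t).2.1]
  · simpa [hβ.cM_smul, hu.2.1] using hasDerivAt_const t (b0.coeff n)
  · have hU := (h0.map C).act (C s * X)
    have := hasDerivAt_map ((c0.map C - C (C s * X) * d0.map C) %ₘ
      (a0.map C - C (C s * X) * b0.map C)) n t
    simp only [(act_map h0 s _).2.1] at this
    refine this.congr_deriv (congrArg (coeff · n) (Eq.symm ?_))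
    have ht := h0.act (s * t)
    refine eq_of_dvd ht.mon ht.deg (degree_map_le.trans_lt (cM_deg _ hq.dc))
      (degree_map_le.trans_lt (cM_deg _ hU.dc)) ?_
    obtain ⟨q, hq'⟩ := hu.2.2
    have e2 := congrArg (cM D) (modByMonic_add_div (c0.map C - C (C s * X) * d0.map C)
      (a0.map C - C (C s * X) * b0.map C))
    rw [cM_add, hD, hA, cM_sub, hD, hC, hC, hσ] at e2
    have e3 := congrArg (Polynomial.map (evalRingHom (t : ℂ))) e2
    have e4 := congrArg (Polynomial.map (γ t).rh) hq'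
    have e5 := (act_map h0 s t).2.2
    rw [Polynomial.map_add, Polynomial.map_mul, (hγ t).1, (hγ t).d_eq hq ht, ← e5] at e4
    rw [Polynomial.map_add, Polynomial.map_add, Polynomial.map_mul, Polynomial.map_mul,
      (act_map h0 s t).1] at e3
    simp only [Polynomial.map_sub, Polynomial.map_mul, Polynomial.map_neg, hm, map_C,
      coe_evalRingHom, eval_C, mul_zero, add_zero, zero_sub] at e3 e4
    refine ⟨C s * q.map (γ t).rh + (cM D ((c0.map C - C (C s * X) * d0.map C) /ₘ
      (a0.map C - C (C s * X) * b0.map C))).map (evalRingHom (t : ℂ)), ?_⟩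
    rw [hβ.cM_smul, Polynomial.map_mul, map_C, Pt.rh_apply, Pt.alg]
    linear_combination C s * e4 - e3

/-- the Hamiltonians `a(y)` -/
def GoodAll (hβ : IsPoi β) (a b c : R[X]) : Prop :=
  ∀ y : ℂ, GoodH hβ a b c (a.eval (algebraMap ℂ R y)) (a /ₘ (X - C (algebraMap ℂ R y)))

theorem eval_alg (p : R[X]) (y : ℂ) (φ : R →ₗ[ℂ] ℂ) :
    φ (p.eval (algebraMap ℂ R y)) = (cM φ.toAddMonoidHom p).eval y := by
  induction p using Polynomial.induction_on' with
  | add p q hp hq => simp only [eval_add, map_add, cM_add, hp, hq]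
  | monomial n r =>
    have : cM φ.toAddMonoidHom (monomial n r) = monomial n (φ r) := by
      ext m; rw [coeff_cM, coeff_monomial, coeff_monomial]; split_ifs <;> simp
    rw [this, eval_monomial, eval_monomial, ← map_pow, mul_comm, ← Algebra.smul_def, map_smul,
      smul_eq_mul, mul_comm]

theorem IsPoi.eval_alg (hβ : IsPoi β) (f : R) (p : R[X]) (y : ℂ) :
    β f (p.eval (algebraMap ℂ R y)) = (cM (hβ.ad f) p).eval (algebraMap ℂ R y) := by
  have := eval_cM (hβ.ad f) (hβ.mul f) (hβ.one_right f) p (algebraMap ℂ R y)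
  rwa [hβ.ad_apply, hβ.ad_apply, hβ.algebraMap_right, mul_zero, add_zero] at this

theorem Pt.eval_alg (x : Pt R) (p : R[X]) (y : ℂ) :
    x (p.eval (algebraMap ℂ R y)) = (p.map x.rh).eval y := by
  rw [eval_map, ← x.rh_apply, ← eval₂_at_apply, ← eval_map, eval_map]; simp

theorem exists_ham (hβ : IsPoi β) (hG : GoodAll hβ a b c) {κ : ℕ} {t : Fin κ → ℂ}
    (ht : Function.Injective t) (h0 : ∀ i, t i ≠ 0) (e : ℕ) (l : Fin κ → ℂ) :
    ∃ h F, GoodH hβ a b c h F ∧ (∀ g, cM (hβ.ad g) a = 0 → β g h = 0) ∧ ∀ x : Pt R,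
      a.map x.rh = X ^ e * Lagrange.nodal Finset.univ t → ∀ j, (F.map x.rh).eval (t j) = l j := by
  let ν : Fin κ → ℂ := fun i => (X ^ e * Lagrange.nodal (Finset.univ.erase i) t).eval (t i)
  have hν : ∀ i, ν i ≠ 0 := fun i => by
    simp only [ν, eval_mul, eval_pow, eval_X]
    exact mul_ne_zero (pow_ne_zero _ (h0 i)) (Lagrange.eval_nodal_not_at_node fun j hj h =>
      (Finset.mem_erase.1 hj).1 (ht h).symm)
  have key : ∀ s : Finset (Fin κ), GoodH hβ a b c
      (∑ i ∈ s, (l i / ν i) • a.eval (algebraMap ℂ R (t i)))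
      (∑ i ∈ s, C (algebraMap ℂ R (l i / ν i)) * (a /ₘ (X - C (algebraMap ℂ R (t i))))) := by
    intro s
    induction s using Finset.induction_on with
    | empty =>
      have : ∀ p, cM (hβ.ad 0) p = 0 := fun p => by
        ext n; simp [coeff_cM, hβ.ad_apply, hβ.zero_left]
      simp only [GoodH, Finset.sum_empty, this, zero_mul, sub_self, dvd_zero, add_zero, and_self]
    | insert i s hi ih =>
      obtain ⟨h1, h2, h3⟩ := hG (t i)
      simp only [GoodH, Finset.sum_insert hi, hβ.cM_add', hβ.cM_smul, h1, ih.1, mul_zero, add_zero,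
        true_and]
      exact ⟨by convert (h2.mul_left (C (algebraMap ℂ R (l i / ν i)))).add ih.2.1 using 1; ring,
        by convert (h3.mul_left (C (algebraMap ℂ R (l i / ν i)))).add ih.2.2 using 1; ring⟩
  refine ⟨_, _, key Finset.univ, fun g hg => ?_, fun x hx j => ?_⟩
  · rw [← hβ.ad_apply, map_sum]
    exact Finset.sum_eq_zero fun i _ => by
      rw [hβ.ad_apply, hβ.smul_right, hβ.eval_alg, hg, eval_zero, smul_zero]
  · have hd : ∀ i, (a /ₘ (X - C (algebraMap ℂ R (t i)))).map x.rh =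
        X ^ e * Lagrange.nodal (Finset.univ.erase i) t := fun i => by
      rw [map_divByMonic _ (monic_X_sub_C _), hx,
        Lagrange.nodal_eq_mul_nodal_erase (Finset.mem_univ i), mul_left_comm]
      simpa only [Polynomial.map_sub, map_X, map_C, Pt.rh_apply, Pt.alg] using mul_divByMonic_cancel_left _ (monic_X_sub_C (t i))
    simp only [Polynomial.map_sum, Polynomial.map_mul, hd, map_C, Pt.rh_apply, Pt.alg,
      eval_finsetSum]
    rw [Finset.sum_eq_single j (fun i _ hi => by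
      simp only [eval_mul, eval_C, eval_pow, eval_X, Lagrange.eval_nodal_at_node (Finset.mem_erase.2 ⟨hi.symm, Finset.mem_univ j⟩), mul_zero])
      (by simp only [Finset.mem_univ, not_true_eq_false, eval_mul, eval_C, eval_pow, eval_X, mul_eq_zero, div_eq_zero_iff, pow_eq_zero_iff', ne_eq, IsEmpty.forall_iff]), eval_mul, eval_C]
    exact div_mul_cancel₀ _ (hν j)

theorem hasDerivAt_interp {κ : ℕ} (t : Fin κ → ℂ) (E : ℂ[X]) {r : ℝ → Fin κ → ℂ} {r' : Fin κ → ℂ}
    {τ : ℝ} (h : ∀ i, HasDerivAt (fun s => r s i) (r' i) τ) (n : ℕ) :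
    HasDerivAt (fun s => (E * Lagrange.interpolate Finset.univ t (r s)).coeff n)
      ((E * Lagrange.interpolate Finset.univ t r').coeff n) τ := by
  simp only [Lagrange.interpolate_apply, Finset.mul_sum, finsetSum_coeff, mul_left_comm E,
    coeff_C_mul]
  exact HasDerivAt.fun_sum fun i _ => (h i).mul_const _

theorem Gn.cop {a b c d : ℂ[X]} (hg : Gn a) (h : Q N k a b c d) :
    ∀ z, a.eval z = 0 → b.eval z ≠ 0 := h.cop fun h => absurd rfl (hg 0 h).1

theorem flowH (hβ : IsPoi β) {N κ e : ℕ} (hq : Q (N + 2 * e) (κ + e) a b c d) (hg : Gens a b c)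
    (hs : Sur' (N + 2 * e) (κ + e) a b c) (hG : GoodAll hβ a b c) {a1 b1 c1 d1 b2 c2 d2 : ℂ[X]}
    (h1 : Q N κ a1 b1 c1 d1) (h2 : Q N κ a1 b2 c2 d2) (hn : Gn a1) {x y : Pt R}
    (hx : At a b c x (X ^ e * a1) (X ^ e * b1) (X ^ e * c1))
    (hy : At a b c y (X ^ e * a1) (X ^ e * b2) (X ^ e * c2)) : Leaf β x y := by
  obtain ⟨t, ht, h0, rfl⟩ := hn.nodal h1.mon h1.deg
  have hz : ∀ i, (Lagrange.nodal Finset.univ t).eval (t i) = 0 := fun i =>
    Lagrange.eval_nodal_at_node (Finset.mem_univ i)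
  let l : Fin κ → ℂ := fun i => Complex.log (b2.eval (t i) / b1.eval (t i))
  let I := Lagrange.interpolate Finset.univ t
  have hI : ∀ r, (I r).degree < κ := fun r => by
    have := Lagrange.degree_interpolate_lt (r := r) (s := Finset.univ) ht.injOn
    rwa [Finset.card_univ, Fintype.card_fin] at this
  have hv : ∀ r i, (I r).eval (t i) = r i := fun r i =>
    Lagrange.eval_interpolate_at_node r ht.injOn (Finset.mem_univ i)
  let B := fun s : ℝ => I fun i => Complex.exp (s * l i) * b1.eval (t i)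
  let C' := fun s : ℝ => I fun i => Complex.exp (s * -l i) * c1.eval (t i)
  have hQ : ∀ s, ∃ D, Q N κ (Lagrange.nodal Finset.univ t) (B s) (C' s) D := fun s =>
    Q_of_vals ht (hI _) (hI _) fun i => by
      have := congrArg (eval (t i)) h1.det
      simp only [eval_sub, eval_mul, hz, eval_pow, eval_X] at this
      rw [hv, hv, mul_neg, Complex.exp_neg]
      field_simp
      linear_combination -this
  choose D hD using hQ
  choose γ hγ using fun s => hs _ _ _ _ ((hD s).mul_X_pow e)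
  have b0 : B 0 = b1 := eq_of_vals ht (hI _) h1.db fun i => by simp [B, hv]
  have b1' : B 1 = b2 := eq_of_vals ht (hI _) h2.db fun i => by
    have h3 := hn.cop h1 _ (hz i)
    simp only [B, hv, l, Complex.ofReal_one, one_mul]
    rw [Complex.exp_log (div_ne_zero (hn.cop h2 _ (hz i)) h3), div_mul_cancel₀ _ h3]
  have e0 : γ 0 = x := hg.inj (hγ 0) (by
    rwa [Q.c_eq (c := C' 0) (b0 ▸ hD 0) h1 (hn.cop h1), b0])
  have e1 : γ 1 = y := hg.inj (hγ 1) (by
    rwa [Q.c_eq (c := C' 1) (b1' ▸ hD 1) h2 (hn.cop h2), b1'])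
  obtain ⟨h, F, hF, -, hl⟩ := exists_ham hβ hG ht h0 e l
  rw [← e0, ← e1]
  have key : ∀ (s : ℝ) (p : R[X]) (ε : ℂ) (r : Fin κ → ℂ), p.degree < (κ + e : ℕ) →
      p.map (γ s).rh = X ^ e * I r → a ∣ cM (hβ.ad h) p - C (algebraMap ℂ R ε) * F * p →
      (cM (hβ.ad h) p).map (γ s).rh = X ^ e * I fun i => ε * l i * r i := by
    intro s p ε r hp hr ⟨q, hq'⟩
    have h3 := (hD s).mul_X_pow e
    refine eq_of_dvd h3.mon h3.deg (degree_map_le.trans_lt (cM_deg _ hp))
      (deg_X_pow_mul (hI _) e) ?_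
    obtain ⟨q', hq2⟩ := nodal_dvd ht (p := C ε * F.map (γ s).rh * I r - I fun i => ε * l i * r i)
      fun i => by simp only [eval_sub, eval_mul, eval_C, hv, hl _ (hγ s).1, sub_self]
    have h4 := congrArg (Polynomial.map (γ s).rh) hq'
    simp only [Polynomial.map_sub, Polynomial.map_mul, map_C, Pt.rh_apply, Pt.alg, hr,
      (hγ s).1] at h4
    exact ⟨q.map (γ s).rh + q', by linear_combination h4 + X ^ e * hq2⟩
  refine hg.traj hβ (f := h) hγ (fun n s => ?_) (fun n s => ?_) fun n s => ?_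
  · simpa only [hF.1, Polynomial.map_zero, coeff_zero] using hasDerivAt_const s ((X ^ e * Lagrange.nodal Finset.univ t).coeff n)
  · rw [key s b 1 _ hq.db (hγ s).2.1 (by simpa only [map_one, one_mul] using hF.2.1)]
    refine hasDerivAt_interp t _ (fun i => ?_) n
    convert ((((hasDerivAt_id' (s : ℂ)).mul_const (l i)).cexp).mul_const
      (b1.eval (t i))).comp_ofReal using 1
    simp; ring
  · rw [key s c (-1) _ hq.dc (hγ s).2.2 (by simpa only [map_neg, map_one, neg_mul, one_mul, sub_neg_eq_add] using hF.2.2)]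
    refine hasDerivAt_interp t _ (fun i => ?_) n
    convert ((((hasDerivAt_id' (s : ℂ)).mul_const (-l i)).cexp).mul_const
      (c1.eval (t i))).comp_ofReal using 1
    simp; ring

end C73
end
end

section
/-! Block U, part 4: strata are leaves, rank on strata. -/

open Set Filter Topology Polynomial

noncomputable section
namespace C73

variable {N k : ℕ} {R : Type} [CommRing R] [Algebra ℂ R] {β : R → R → R} {a b c d : R[X]}

/-- the bracket formulas of the `A₁` Coulomb branch -/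
structure UA (hβ : IsPoi β) (N k : ℕ) (a b c d : R[X]) : Prop where
  q : Q N k a b c d
  gen : Gens a b c
  sur : Sur' N k a b c
  good : GoodAll hβ a b c
  ub : ∃ h, Uni hβ a b c d h
  uc : ∃ h, Uni hβ a c b d h

section
variable {hβ : IsPoi β} {κ e : ℕ} {a1 b1 c1 d1 : ℂ[X]} {x : Pt R}

theorem flowB' (hq : Q (N + 2 * e) (κ + e) a b c d) (hg : Gens a b c)
    (hs : Sur' (N + 2 * e) (κ + e) a b c) (hu : ∃ h, Uni hβ a b c d h) (h1 : Q N κ a1 b1 c1 d1)
    (hx : At a b c x (X ^ e * a1) (X ^ e * b1) (X ^ e * c1)) (s : ℂ) :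
    ∃ y, Leaf β x y ∧ At a b c y (X ^ e * (a1 - C s * b1)) (X ^ e * b1)
      (X ^ e * ((c1 - C s * d1) %ₘ (a1 - C s * b1))) := by
  obtain ⟨h, hu⟩ := hu
  have h2 := (h1.act s).mul_X_pow e
  obtain ⟨y, hy⟩ := hs _ _ _ _ h2
  refine ⟨y, flowB hβ hq hg hs hu (h1.mul_X_pow e) s hx ?_, hy⟩
  have e1 : X ^ e * a1 - C s * (X ^ e * b1) = X ^ e * (a1 - C s * b1) := by ring
  rwa [e1, (div_modByMonic_unique ((c1 - C s * d1) /ₘ (a1 - C s * b1)) _ h2.mon
    ⟨by rw [modByMonic_eq_sub_mul_div]; ring, h2.dc.trans_eq h2.dega.symm⟩).2]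

theorem toGen1 (hq : Q (N + 2 * e) (κ + e) a b c d) (hg : Gens a b c)
    (hs : Sur' (N + 2 * e) (κ + e) a b c) (hu : ∃ h, Uni hβ a b c d h) (h1 : Q N κ a1 b1 c1 d1)
    (hx : At a b c x (X ^ e * a1) (X ^ e * b1) (X ^ e * c1)) (h0 : a1.eval 0 = 0 → b1.eval 0 ≠ 0)
    {E : ℂ[X]} (hE : E ≠ 0) :
    ∃ y a2 b2 c2 d2, Q N κ a2 b2 c2 d2 ∧ Gn a2 ∧ (∀ z, a2.eval z = 0 → E.eval z ≠ 0) ∧
      At a b c y (X ^ e * a2) (X ^ e * b2) (X ^ e * c2) ∧ Leaf β x y := by
  obtain ⟨s, h2, h3⟩ := (bertini h1.mon (h1.db.trans_eq h1.dega.symm) hE (h1.cop h0)).exists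
  obtain ⟨y, hl, hy⟩ := flowB' hq hg hs hu h1 hx s
  exact ⟨y, _, _, _, _, h1.act s, h2, h3, hy, hl⟩

theorem UA.toGen (U : UA hβ (N + 2 * e) (κ + e) a b c d) (h1 : Q N κ a1 b1 c1 d1)
    (hx : At a b c x (X ^ e * a1) (X ^ e * b1) (X ^ e * c1))
    (h0 : ¬(X ∣ a1 ∧ X ∣ b1 ∧ X ∣ c1 ∧ X ∣ d1)) {E : ℂ[X]} (hE : E ≠ 0) :
    ∃ y a2 b2 c2 d2, Q N κ a2 b2 c2 d2 ∧ Gn a2 ∧ (∀ z, a2.eval z = 0 → E.eval z ≠ 0) ∧
      At a b c y (X ^ e * a2) (X ^ e * b2) (X ^ e * c2) ∧ Leaf β x y := by
  simp only [X_dvd_iff, coeff_zero_eq_eval_zero] at h0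
  have key : ∀ {a1 b1 c1 d1 : ℂ[X]} {x : Pt R}, Q N κ a1 b1 c1 d1 →
      At a b c x (X ^ e * a1) (X ^ e * b1) (X ^ e * c1) → c1.eval 0 ≠ 0 →
      ∃ y a2 b2 c2 d2, Q N κ a2 b2 c2 d2 ∧ Gn a2 ∧ (∀ z, a2.eval z = 0 → E.eval z ≠ 0) ∧
        At a b c y (X ^ e * a2) (X ^ e * b2) (X ^ e * c2) ∧ Leaf β x y := fun h1 hx hc =>
    let ⟨y, a2, b2, c2, d2, h2, h3, h4, h5, h6⟩ :=
      toGen1 U.q.swap U.gen.swap U.sur.swap U.uc h1.swap hx.swap (fun _ => hc) hE
    ⟨y, a2, c2, b2, d2, h2.swap, h3, h4, h5.swap, h6⟩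
  by_cases hb : a1.eval 0 = 0 → b1.eval 0 ≠ 0
  · exact toGen1 U.q U.gen U.sur U.ub h1 hx hb hE
  push Not at hb
  by_cases hc : c1.eval 0 = 0
  · obtain ⟨y, hl, hy⟩ := flowB' U.q U.gen U.sur U.ub h1 hx 1
    obtain ⟨z, a2, b2, c2, d2, h2, h3, h4, h5, h6⟩ := key (h1.act 1) hy (by
      rw [modByMonic_eq_sub_mul_div]
      simpa [hb.1, hb.2, hc] using h0)
    exact ⟨z, a2, b2, c2, d2, h2, h3, h4, h5, hl.trans _ _ _ h6⟩
  · exact key h1 hx hc

theorem UA.leaf_gen (U : UA hβ (N + 2 * e) (κ + e) a b c d) (h1 : Q N κ a1 b1 c1 d1)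
    (hx : At a b c x (X ^ e * a1) (X ^ e * b1) (X ^ e * c1))
    (h0 : ¬(X ∣ a1 ∧ X ∣ b1 ∧ X ∣ c1 ∧ X ∣ d1)) {a2 b2 c2 d2 : ℂ[X]} {y : Pt R}
    (h2 : Q N κ a2 b2 c2 d2) (hy : At a b c y (X ^ e * a2) (X ^ e * b2) (X ^ e * c2))
    (hn : Gn a2) : Leaf β x y := by
  obtain ⟨x', a3, b3, c3, d3, h3, g3, hc, hx', l1⟩ := U.toGen h1 hx h0 h2.mon.ne_zero
  obtain ⟨c4, d4, h4⟩ := exists_Q N (b := a3 - a2) h3.mon h3.deg
    (h3.dega ▸ degree_sub_lt_left (h3.dega.trans h2.dega.symm) h3.mon.ne_zero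
      (h3.mon.leadingCoeff.trans h2.mon.leadingCoeff.symm))
    fun z hz => by simpa [hz] using hc z hz
  obtain ⟨z, hz⟩ := U.sur _ _ _ _ (h4.mul_X_pow e)
  obtain ⟨w, l3, hw⟩ := flowB' U.q U.gen U.sur U.ub h4 hz 1
  have h5 := h4.act 1
  have e1 : a3 - C 1 * (a3 - a2) = a2 := by simp
  rw [e1] at hw h5
  exact (l1.trans _ _ _ (flowH hβ U.q U.gen U.sur U.good h3 h4 g3 hx' hz)).trans _ _ _
    (l3.trans _ _ _ (flowH hβ U.q U.gen U.sur U.good h5 h2 hn hw hy))

theorem UA.le_rk (U : UA hβ (N + 2 * e) (κ + e) a b c d) (h1 : Q N κ a1 b1 c1 d1)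
    (hx : At a b c x (X ^ e * a1) (X ^ e * b1) (X ^ e * c1)) (hn : Gn a1) : κ + κ ∈ rkS β x := by
  obtain ⟨t, ht, h0, rfl⟩ := hn.nodal h1.mon h1.deg
  have hz : ∀ i, (Lagrange.nodal Finset.univ t).eval (t i) = 0 := fun i =>
    Lagrange.eval_nodal_at_node (Finset.mem_univ i)
  choose h F hF h00 hl using fun i : Fin κ => exists_ham hβ U.good ht h0 e (Pi.single i 1)
  let B := fun j => b.eval (algebraMap ℂ R (t j))
  let u := fun j => (X ^ e * b1).eval (t j)
  have hu : ∀ j, u j ≠ 0 := fun j => by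
    simpa [u, h0 j] using hn.cop h1 _ (hz j)
  have hB : ∀ i j, x (β (h i) (B j)) = Matrix.diagonal u i j := fun i j => by
    obtain ⟨q, hq⟩ := (hF i).2.1
    rw [hβ.eval_alg, x.eval_alg, eq_add_of_sub_eq hq]
    simp only [Polynomial.map_add, Polynomial.map_mul, hx.1, hx.2.1, eval_add, eval_mul (p := _ * _),
      eval_mul (p := map _ _), eval_mul (q := Lagrange.nodal _ _), hz, hl i x hx.1]
    by_cases hij : i = j
    · simp [hij, u]
    · simp [hij, Ne.symm hij]
  let ε : Fin (κ + κ) ≃ Fin κ ⊕ Fin κ := finSumFinEquiv.symm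
  refine ⟨Sum.elim h B ∘ ε, Sum.elim B h ∘ ε, ?_⟩
  have : (Matrix.of fun i j => x (β ((Sum.elim h B ∘ ε) i) ((Sum.elim B h ∘ ε) j))) =
      (Matrix.fromBlocks (Matrix.diagonal u) 0 (Matrix.of fun i j => x (β (B i) (B j)))
        (Matrix.diagonal (-u))).submatrix ε ε := by
    ext i j
    simp only [Matrix.of_apply, Function.comp, Matrix.submatrix_apply]
    rcases ε i with i | i <;> rcases ε j with j | j
    · exact hB i j
    · simp [h00 j _ (hF i).1]
    · rfl
    · rw [Sum.elim_inr, Sum.elim_inr, hβ.anti, map_neg, hB]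
      by_cases hij : i = j
      · simp [hij]
      · simp [hij, Ne.symm hij]
  rw [this, Matrix.det_submatrix_equiv_self, Matrix.det_fromBlocks_zero₁₂]
  simp only [Matrix.det_diagonal, Pi.neg_apply, ne_eq, mul_eq_zero, not_or, Finset.prod_ne_zero_iff, Finset.mem_univ, hu, not_false_eq_true, imp_self, implies_true, neg_eq_zero, and_self]

theorem coeff_mem_of_eval (S : Submodule ℂ R) (p : R[X])
    (h : ∀ y : ℂ, p.eval (algebraMap ℂ R y) ∈ S) (n : ℕ) : p.coeff n ∈ S := by
  by_contra hn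
  obtain ⟨φ, h1, h2⟩ := S.exists_le_ker_of_notMem hn
  have := zero_of_eval_zero (cM φ.toAddMonoidHom p) fun y => (eval_alg p y φ).symm.trans (h2 (h y))
  exact h1 (by simpa only [coeff_cM, LinearMap.toAddMonoidHom_coe, coeff_zero] using congrArg (coeff · n) this)

/-- the ideal of `{e ≤ val}` -/
def lowI (a b c d : R[X]) (e : ℕ) : Ideal R :=
  Ideal.span {g | ∃ n < e, g = a.coeff n ∨ g = b.coeff n ∨ g = c.coeff n ∨ g = d.coeff n}

theorem UA.poi (U : UA hβ N k a b c d) (e : ℕ) (h : R) :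
    ∀ g ∈ lowI a b c d e, β h g ∈ lowI a b c d e := by
  let J := lowI a b c d e
  let Lo := fun p : R[X] => ∀ n < e, p.coeff n ∈ J
  have la : Lo a := fun n hn => Ideal.subset_span ⟨n, hn, by simp⟩
  have lb : Lo b := fun n hn => Ideal.subset_span ⟨n, hn, by simp⟩
  have lc : Lo c := fun n hn => Ideal.subset_span ⟨n, hn, by simp⟩
  have ld : Lo d := fun n hn => Ideal.subset_span ⟨n, hn, by simp⟩
  have lin : ∀ p q r s : R[X], Lo (a * p + b * q + c * r + d * s) := fun p q r s n hn => by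
    have : ∀ u v : R[X], Lo u → (u * v).coeff n ∈ J := fun u v hu => by
      rw [coeff_mul]
      exact J.sum_mem fun i hi => J.mul_mem_right _ (hu _ (by
        have := Finset.HasAntidiagonal.mem_antidiagonal.1 hi; omega))
    simp only [coeff_add]
    exact J.add_mem (J.add_mem (J.add_mem (this _ _ la) (this _ _ lb)) (this _ _ lc)) (this _ _ ld)
  let S : Submodule ℂ R :=
    { carrier := {h | ∀ g ∈ J, β h g ∈ J}
      zero_mem' := fun g _ => by rw [hβ.zero_left]; exact J.zero_mem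
      add_mem' := fun h1 h2 g hg => by rw [hβ.add]; exact J.add_mem (h1 g hg) (h2 g hg)
      smul_mem' := fun s f h1 g hg => by
        rw [hβ.smul, Algebra.smul_def]; exact J.mul_mem_left _ (h1 g hg) }
  have nm : ∀ h, Lo (cM (hβ.ad h) a) → Lo (cM (hβ.ad h) b) → Lo (cM (hβ.ad h) c) →
      Lo (cM (hβ.ad h) d) → h ∈ S := fun h h1 h2 h3 h4 g hg => by
    induction hg using Submodule.span_induction with
    | mem g hg =>
      obtain ⟨n, hn, rfl | rfl | rfl | rfl⟩ := hg
      exacts [by simpa [coeff_cM, hβ.ad_apply] using h1 n hn,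
        by simpa [coeff_cM, hβ.ad_apply] using h2 n hn,
        by simpa [coeff_cM, hβ.ad_apply] using h3 n hn,
        by simpa [coeff_cM, hβ.ad_apply] using h4 n hn]
    | zero => rw [hβ.zero_right]; exact J.zero_mem
    | add g g' _ _ h5 h6 => rw [hβ.add_right]; exact J.add_mem h5 h6
    | smul r g hg h5 =>
      rw [smul_eq_mul, hβ.mul]; exact J.add_mem (J.mul_mem_left _ hg) (J.mul_mem_left _ h5)
  have lie : ∀ f g, f ∈ S → g ∈ S → β f g ∈ S := fun f g hf hg j hj => by
    rw [eq_sub_of_add_eq (hβ.jac f g j).symm]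
    exact J.sub_mem (hf _ (hg j hj)) (hg _ (hf j hj))
  have can : ∀ p q : R[X], a * p = a * q → p = q := fun p q h => U.q.mon.isRegular.left h
  have sa : ∀ n, a.coeff n ∈ S := coeff_mem_of_eval S a fun y => by
    obtain ⟨h1, ⟨q, h2⟩, ⟨q', h3⟩⟩ := U.good y
    have h4 := hβ.cM_det (a.eval (algebraMap ℂ R y)) U.q
    refine nm _ (by simp [h1, Lo]) ?_ ?_ ?_
    · convert lin q (a /ₘ (X - C (algebraMap ℂ R y))) 0 0 using 1; linear_combination h2
    · convert lin q' 0 (-(a /ₘ (X - C (algebraMap ℂ R y)))) 0 using 1; linear_combination h3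
    · convert lin 0 q' q 0 using 1
      exact can _ _ (by rw [h1] at h4; linear_combination h4 + c * h2 + b * h3)
  refine U.gen.ind (P := (· ∈ S)) sa (fun n => ?_) (fun n => ?_) (fun s g _ => ?_)
    (fun f g => S.add_mem) (fun f g hf hg j hj => ?_) h
  · obtain ⟨f, h1, h2, q, h3⟩ := U.ub
    have h4 := hβ.cM_det f U.q
    have hf : f ∈ S := by
      refine nm _ ?_ (by simp [h2, Lo]) ?_ ?_
      · convert lin 0 (-1) 0 0 using 1; linear_combination h1
      · convert lin q 0 0 (-1) using 1; linear_combination h3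
      · convert lin 0 q 0 0 using 1
        exact can _ _ (by rw [h1, h2] at h4; linear_combination h4 + b * h3)
    have := S.neg_mem (lie _ _ hf (sa n))
    rwa [← hβ.ad_apply, ← coeff_cM, h1, coeff_neg, neg_neg] at this
  · obtain ⟨f, h1, h2, q, h3⟩ := U.uc
    have h4 := hβ.cM_det f U.q
    have hf : f ∈ S := by
      refine nm _ ?_ ?_ (by simp [h2, Lo]) ?_
      · convert lin 0 0 (-1) 0 using 1; linear_combination h1
      · convert lin q 0 0 (-1) using 1; linear_combination h3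
      · convert lin 0 0 q 0 using 1
        exact can _ _ (by rw [h1, h2] at h4; linear_combination h4 + c * h3)
    have := S.neg_mem (lie _ _ hf (sa n))
    rwa [← hβ.ad_apply, ← coeff_cM, h1, coeff_neg, neg_neg] at this
  · rw [hβ.anti, hβ.algebraMap_right, neg_zero]; exact J.zero_mem
  · rw [hβ.mul_left]; exact J.add_mem (J.mul_mem_right _ (hf j hj)) (J.mul_mem_left _ (hg j hj))

theorem UA.rk_le (U : UA hβ (N + 2 * e) (κ + e) a b c d) (h1 : Q N κ a1 b1 c1 d1)
    (hx : At a b c x (X ^ e * a1) (X ^ e * b1) (X ^ e * c1)) (hn : Gn a1) {r : ℕ}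
    (hr : r ∈ rkS β x) : r ≤ κ + κ := by
  obtain ⟨f, g, hd⟩ := hr
  have hd1 := hx.d_eq U.q (h1.mul_X_pow e)
  have hJ : ∀ j ∈ lowI a b c d e, x j = 0 := fun j hj => by
    refine (Ideal.span_le (I := RingHom.ker x.rh)).2 ?_ hj
    have : ∀ (p : R[X]) (p1 : ℂ[X]), p.map x.rh = X ^ e * p1 → ∀ n < e, x.rh (p.coeff n) = 0 :=
      fun p p1 h n hn => by rw [← coeff_map, h]; exact X_pow_dvd_iff.1 (dvd_mul_right _ _) n hn
    rintro _ ⟨n, hn, rfl | rfl | rfl | rfl⟩
    exacts [this _ _ hx.1 n hn, this _ _ hx.2.1 n hn, this _ _ hx.2.2 n hn, this _ _ hd1 n hn]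
  let T : (Fin r → ℂ) →ₗ[ℂ] (Fin κ ⊕ Fin κ → ℂ) := (Matrix.of fun i => Sum.elim
    (fun j : Fin κ => x (β (f i) (a.coeff (j + e)))) fun j : Fin κ =>
      x (β (f i) (b.coeff (j + e)))).vecMulLinear
  have hT : Function.Injective T := by
    refine (injective_iff_map_eq_zero T).2 fun l hl => Matrix.eq_zero_of_vecMul_eq_zero hd ?_
    let h := ∑ i, l i • f i
    have hh : ∀ j, x (β h j) = ∑ i, l i * x (β (f i) j) := fun j => by
      simp only [h, hβ.sum_left, hβ.smul, map_sum, map_smul, smul_eq_mul]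
    have z : ∀ p : R[X], (∀ n < e, p.coeff n ∈ lowI a b c d e) → X ^ e ∣ (cM (hβ.ad h) p).map x.rh :=
      fun p hp => X_pow_dvd_iff.2 fun n hn => by
        rw [coeff_map, coeff_cM]; exact hJ _ (U.poi e h _ (hp n hn))
    have z' : ∀ p : R[X], (∀ n < e, p.coeff n ∈ lowI a b c d e) →
        (cM (hβ.ad h) p).degree < (κ + e : ℕ) → (∀ j : Fin κ, x (β h (p.coeff (j + e))) = 0) →
        (cM (hβ.ad h) p).map x.rh = 0 := fun p hp h2 h3 => by
      ext n
      by_cases hn : n < e
      · exact X_pow_dvd_iff.1 (z p hp) n hn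
      rw [coeff_map, coeff_zero]
      by_cases hn' : n < κ + e
      · have := h3 ⟨n - e, by omega⟩
        rwa [Nat.sub_add_cancel (not_lt.1 hn), ← hβ.ad_apply, ← coeff_cM] at this
      · rw [(degree_lt_iff_coeff_zero _ _).1 h2 n (not_lt.1 hn'), map_zero]
    have za := z' a (fun n hn => Ideal.subset_span ⟨n, hn, by simp⟩)
      (cM_deg_monic _ (hβ.one_right h) U.q.mon U.q.deg) fun j => by
        rw [hh]; exact congrFun hl (.inl j)
    have zb := z' b (fun n hn => Ideal.subset_span ⟨n, hn, by simp⟩) (cM_deg _ U.q.db) fun j => by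
      rw [hh]; exact congrFun hl (.inr j)
    have zc : (cM (hβ.ad h) c).map x.rh = 0 := by
      obtain ⟨p, hp⟩ := z c fun n hn => Ideal.subset_span ⟨n, hn, by simp⟩
      obtain ⟨p', hp'⟩ := z d fun n hn => Ideal.subset_span ⟨n, hn, by simp⟩
      have h4 := congrArg (Polynomial.map x.rh) (hβ.cM_det h U.q)
      simp only [Polynomial.map_add, Polynomial.map_mul, za, zb, hp, hp', hx.1, hx.2.1, zero_mul,
        zero_add] at h4
      have h5 : a1 * p' = b1 * p := mul_left_cancel₀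
        (pow_ne_zero (e + e) (X_ne_zero (R := ℂ))) (by rw [pow_add]; linear_combination h4)
      have h6 := (h1.mul_X_pow e)
      refine eq_of_dvd h6.mon h6.deg (degree_map_le.trans_lt (cM_deg _ U.q.dc)) (by simp only [degree_zero, Nat.cast_add, WithBot.bot_lt_add, WithBot.bot_lt_natCast, and_self]) ?_
      rw [sub_zero, hp]
      exact mul_dvd_mul_left _ ((cop_iff.2 (hn.cop h1)).dvd_of_dvd_mul_left ⟨_, h5.symm⟩)
    have all : ∀ j, x (β h j) = 0 := U.gen.ind
      (fun n => by simpa [coeff_cM, hβ.ad_apply] using congrArg (coeff · n) za)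
      (fun n => by simpa [coeff_cM, hβ.ad_apply] using congrArg (coeff · n) zb)
      (fun n => by simpa [coeff_cM, hβ.ad_apply] using congrArg (coeff · n) zc)
      (fun s => by simp [hβ.algebraMap_right]) (fun _ _ h1 h2 => by simp only [hβ.add_right, map_add, h1, h2, add_zero])
      fun _ _ h1 h2 => by simp [hβ.mul, h1, h2]
    funext j
    exact (hh (g j)).symm.trans (all _)
  simpa only [ge_iff_le, Module.finrank_fintype_fun_eq_card, Fintype.card_fin, Fintype.card_sum] using LinearMap.finrank_le_finrank_of_injective hT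
end

theorem UA.main {hβ : IsPoi β} (U : UA hβ N k a b c d) {Ψ : Pt R ≃ₜ FM N k}
    (hΨ : ∀ x, Ψ x = (U.q.map x.rh).fm) :
    (∀ x, rk β x = (Ψ x).st) ∧ (∀ x y, Leaf β x y ↔ rk β x = rk β y) ∧
      ∀ z, closure {y | Leaf β z y} = {y | rk β y ≤ rk β z} := by
  have := U.gen.fg
  have hat : ∀ x, At a b c x ((Ψ x).1 0 0) ((Ψ x).1 0 1) ((Ψ x).1 1 0) := fun x => by
    rw [hΨ]; exact ⟨rfl, rfl, rfl⟩
  have key : ∀ (x : Pt R) (e : ℕ), (Ψ x).val = e → rk β x = 2 * (k - e) ∧
      ∀ y a2, e ≤ (Ψ y).val → Gn a2 → (Ψ y).1 0 0 = X ^ e * a2 → Leaf β x y := by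
    intro x e he
    obtain ⟨N', κ, a1, b1, c1, d1, rfl, rfl, h1, ha, hb, hc, hd⟩ := (Ψ x).decomp he.ge
    have h0 : ¬(X ∣ a1 ∧ X ∣ b1 ∧ X ∣ c1 ∧ X ∣ d1) := fun h => by
      have : e + 1 ≤ (Ψ x).val := (u2_le_val _).2 fun i j => by
        have k : ∀ p q : ℂ[X], p = X ^ e * q → X ∣ q → X ^ (e + 1) ∣ p := fun p q h1 h2 => by
          rw [h1, pow_succ]; exact mul_dvd_mul_left _ h2
        fin_cases i <;> fin_cases j
        exacts [k _ _ ha h.1, k _ _ hb h.2.1, k _ _ hc h.2.2.1, k _ _ hd h.2.2.2]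
      omega
    have hx := hat x
    rw [ha, hb, hc] at hx
    refine ⟨?_, fun y a2 hy hn h2 => ?_⟩
    · obtain ⟨y, a2, b2, c2, d2, h2, hn, -, hy, hl⟩ := U.toGen h1 hx h0 one_ne_zero
      rw [hβ.rk_leaf hl, Nat.add_sub_cancel, two_mul]
      exact le_antisymm (U.rk_le h2 hy hn (hβ.le_rk.1 le_rfl)) (hβ.le_rk.2 (U.le_rk h2 hy hn))
    · obtain ⟨N2, κ2, a3, b3, c3, d3, e1, e2, h3, ha', hb', hc', -⟩ := (Ψ y).decomp hy
      obtain rfl : N' = N2 := by omega
      obtain rfl : κ = κ2 := by omega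
      obtain rfl : a2 = a3 := mul_left_cancel₀ (pow_ne_zero e (X_ne_zero (R := ℂ))) (h2.symm.trans ha')
      have hy' := hat y
      rw [ha', hb', hc'] at hy'
      exact U.leaf_gen h1 hx h0 h3 hy' hn
  have h1 : ∀ x, rk β x = 2 * (k - (Ψ x).val) := fun x => (key x _ rfl).1
  have hle : ∀ y z, rk β y ≤ rk β z ↔ (Ψ z).val ≤ (Ψ y).val := fun y z => by
    have := (u2_val_le (Ψ y)).1
    have := (u2_val_le (Ψ z)).1
    rw [h1, h1]; omega
  refine ⟨h1, fun x y => ⟨hβ.rk_leaf, fun h => ?_⟩, fun z => ?_⟩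
  · have hv : (Ψ y).val = (Ψ x).val := le_antisymm ((hle _ _).1 h.le) ((hle _ _).1 h.ge)
    obtain ⟨M, h2, a2, hn, ha⟩ := closure_nonempty_iff.1 ⟨_, u2_closure (Ψ x) le_rfl⟩
    obtain ⟨w, rfl⟩ := Ψ.surjective M
    exact ((key x _ rfl).2 w a2 h2 hn ha).trans _ _ _ ((key y _ hv).2 w a2 h2 hn ha).symm
  · refine subset_antisymm (closure_minimal (fun y hy => (hβ.rk_leaf hy).ge) ?_) fun y hy => ?_
    · simp only [hle]
      exact (isClosed_le_val _).preimage Ψ.continuous
    · have := u2_closure (Ψ y) ((hle _ _).1 hy)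
      rw [← mem_preimage, Ψ.preimage_closure] at this
      refine closure_mono ?_ this
      rintro w ⟨h2, a2, hn, ha⟩
      exact (key z _ rfl).2 w a2 h2 hn ha

end C73
end
end

section
/-! Block U, part 5: brackets of interpolation polynomials in separated variables. -/

open Set Polynomial Lagrange

noncomputable section
namespace C73

variable {N k : ℕ} {L : Type} [CommRing L] [IsDomain L] {w : Fin k → L}

/-- `∏_{b ≠ a} (z - w_b)` -/
abbrev nA (w : Fin k → L) (a : Fin k) : L[X] := nodal (Finset.univ.erase a) w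

theorem nA_natDegree (a : Fin k) : (nA w a).natDegree = k - 1 := by simp only [natDegree_nodal, Finset.mem_univ, Finset.card_erase_of_mem, Finset.card_univ, Fintype.card_fin]

theorem nA_deg (r : L) (a : Fin k) : (C r * nA w a).degree < k := by
  rw [← smul_eq_C_mul]
  refine (degree_smul_le _ _).trans_lt (degree_le_natDegree.trans_lt ?_)
  have := a.pos
  rw [nA_natDegree]; exact_mod_cast (by omega)

theorem nA_top (a : Fin k) : (nA w a).coeff (k - 1) = 1 := by
  rw [← nA_natDegree (w := w) a, nodal_monic.coeff_natDegree]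

theorem nA_ne {a c : Fin k} (h : c ≠ a) : (nA w a).eval (w c) = 0 :=
  eval_nodal_at_node (Finset.mem_erase.2 ⟨h, Finset.mem_univ c⟩)

theorem sum_deg (m : Fin k → L) : (∑ a, C (m a) * nA w a).degree < k :=
  (degree_sum_le _ _).trans_lt ((Finset.sup_lt_iff (WithBot.bot_lt_coe k)).2 fun a _ => nA_deg _ a)

theorem sum_eval (m : Fin k → L) (c : Fin k) :
    (∑ a, C (m a) * nA w a).eval (w c) = m c * (nA w c).eval (w c) := by
  rw [eval_finsetSum, Finset.sum_eq_single c (fun a _ h => by simp [nA_ne h.symm]) (by simp only [Finset.mem_univ, not_true_eq_false, eval_mul, eval_C, mul_eq_zero, IsEmpty.forall_iff])]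
  simp

theorem nodal_zero (c : Fin k) : (nodal Finset.univ w).eval (w c) = 0 :=
  eval_nodal_at_node (Finset.mem_univ c)

variable [Algebra ℂ L] {β : L → L → L}

theorem exists_lift (S : Subalgebra ℂ L) {p : L[X]} (h : ∀ n, p.coeff n ∈ S) :
    ∃ q : S[X], q.map S.val.toRingHom = p :=
  (mem_lifts _).1 ((lifts_iff_coeff_lifts _).2 fun n => ⟨⟨_, h n⟩, rfl⟩)

theorem pow_sum_mem (hw : Function.Injective w) (S : Subalgebra ℂ L)
    (hA : ∀ n, (nodal Finset.univ w).coeff n ∈ S) {m : Fin k → L}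
    (hG : ∀ n, (∑ a, C (m a) * nA w a).coeff n ∈ S) (n : ℕ) : ∑ a, w a ^ n * m a ∈ S := by
  obtain ⟨A, hA⟩ := exists_lift S hA
  obtain ⟨G, hG⟩ := exists_lift S hG
  have hm : A.Monic := monic_of_injective Subtype.val_injective (hA ▸ nodal_monic)
  have : ((X ^ n * G) %ₘ A).map S.val.toRingHom = ∑ a, C (w a ^ n * m a) * nA w a := by
    rw [map_modByMonic _ hm, hA, Polynomial.map_mul, hG]
    refine eq_of_vals hw ?_ (sum_deg _) fun c => ?_
    · simpa only [AlgHom.toRingHom_eq_coe, Polynomial.map_pow, map_X, degree_nodal, Finset.card_univ, Fintype.card_fin] using degree_modByMonic_lt _ (nodal_monic (s := Finset.univ) (v := w))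
    · rw [modByMonic_eq_sub_mul_div, eval_sub, eval_mul, eval_mul, sum_eval, sum_eval, nodal_zero]
      simp only [AlgHom.toRingHom_eq_coe, Polynomial.map_pow, map_X, eval_pow, eval_X, zero_mul, sub_zero, mul_assoc]
  have h2 := congrArg (coeff · (k - 1)) this
  simp only [coeff_map, finsetSum_coeff, coeff_C_mul, nA_top, mul_one] at h2
  rw [← h2]; exact Subtype.property _

section
variable (hβ : IsPoi β) (hw : Function.Injective w) (hww : ∀ a b, β (w a) (w b) = 0)
include hβ hw hww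

omit [IsDomain L] hw hww in
theorem ev_ad (f : L) (p : L[X]) (z : L) :
    (cM (hβ.ad f) p).eval z = β f (p.eval z) - p.derivative.eval z * β f z :=
  eq_sub_of_add_eq (eval_cM (hβ.ad f) (hβ.mul f) (hβ.one_right f) p z).symm

omit hw hww in
theorem cM_nodal_deg (f : L) : (cM (hβ.ad f) (nodal Finset.univ w)).degree < k :=
  cM_deg_monic _ (hβ.one_right f) nodal_monic (by simp only [natDegree_nodal, Finset.card_univ, Fintype.card_fin])

omit hww in
theorem cM_nodal_zero {f : L} (h : ∀ c, β f (w c) = 0) : cM (hβ.ad f) (nodal Finset.univ w) = 0 :=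
  eq_of_vals hw (cM_nodal_deg hβ f) (by simp only [degree_zero, WithBot.bot_lt_natCast]) fun c => by
    simp only [ev_ad, nodal_zero, hβ.zero_right, h, mul_zero, sub_self, eval_zero]

theorem br_eval_w (y : ℂ) (c : Fin k) :
    β ((nodal Finset.univ w).eval (algebraMap ℂ L y)) (w c) = 0 := by
  rw [hβ.anti, hβ.eval_alg, cM_nodal_zero hβ hw (hww c), eval_zero, neg_zero]

variable {v : Fin k → L} {ε : L} (hε : ε ≠ 0) (hv : ∀ a, v a ≠ 0)
  (hvw : ∀ a b, β (v a) (w b) = if a = b then ε * v a else 0) (hvv : ∀ a b, β (v a) (v b) = 0)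
  {B : L[X]} (dB : B.degree < k) (hB : ∀ a, B.eval (w a) = v a)
include hvw hB

include hvv dB in
theorem lag_BB (n : ℕ) : cM (hβ.ad (B.coeff n)) B = 0 := by
  refine eq_of_vals hw (cM_deg _ dB) (by simp only [degree_zero, WithBot.bot_lt_natCast]) fun c => ?_
  have : cM (hβ.ad (v c)) B = C (B.derivative.eval (w c)) * cM (hβ.ad (w c)) B := by
    refine eq_of_vals hw (cM_deg _ dB) ?_ fun a => ?_
    · rw [← smul_eq_C_mul]; exact (degree_smul_le _ _).trans_lt (cM_deg _ dB)
    · rw [eval_mul, ev_ad, ev_ad, hB, hvv, hww, hβ.anti (w c), hvw, hvw]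
      by_cases h : a = c
      · simp [h]
      · simp [h, Ne.symm h]
  have h2 := congrArg (coeff · n) this
  simp only [coeff_C_mul, coeff_cM, hβ.ad_apply] at h2
  rw [ev_ad, hB, hβ.anti, h2, hβ.anti _ (w c)]; simp

include dB in
theorem lag_BA : cM (hβ.ad (B.coeff (k - 1))) (nodal Finset.univ w) = -(C ε * B) := by
  refine eq_of_vals hw (cM_nodal_deg hβ _) ?_ fun c => ?_
  · rw [degree_neg, ← smul_eq_C_mul]; exact (degree_smul_le _ _).trans_lt dB
  have : C ((nA w c).eval (w c)) * cM (hβ.ad (w c)) B = C (-(ε * v c)) * nA w c := by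
    refine eq_of_vals hw ?_ (nA_deg _ c) fun a => ?_
    · rw [← smul_eq_C_mul]; exact (degree_smul_le _ _).trans_lt (cM_deg _ dB)
    · rw [eval_mul, ev_ad, hB, hww, hβ.anti (w c), hvw]
      by_cases h : a = c
      · simp [h, mul_comm]
      · simp only [eval_C, h, ↓ reduceIte, neg_zero, mul_zero, sub_self, map_neg, map_mul, neg_mul, eval_neg, eval_mul, nA_ne h]
  have h2 := congrArg (coeff · (k - 1)) this
  simp only [coeff_C_mul, coeff_cM, hβ.ad_apply, nA_top, mul_one] at h2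
  rw [ev_ad, nodal_zero, hβ.zero_right, eval_nodal_derivative_eval_node_eq (Finset.mem_univ c),
    hβ.anti, mul_neg, h2]
  simp [hB]

include hε hv in
theorem lag_hB (y : ℂ) : nodal Finset.univ w ∣
    cM (hβ.ad ((nodal Finset.univ w).eval (algebraMap ℂ L y))) B -
      C ε * (nodal Finset.univ w /ₘ (X - C (algebraMap ℂ L y))) * B := by
  refine nodal_dvd hw fun c => ?_
  have h1 : cM (hβ.ad (v c)) (nodal Finset.univ w) = C (-(ε * v c)) * nA w c := by
    refine eq_of_vals hw (cM_nodal_deg hβ _) (nA_deg _ c) fun a => ?_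
    rw [ev_ad, nodal_zero, hβ.zero_right, hvw,
      eval_nodal_derivative_eval_node_eq (Finset.mem_univ a)]
    by_cases h : a = c
    · simp only [h, ↓ reduceIte, mul_comm, zero_sub, map_neg, map_mul, mul_neg, eval_neg, eval_mul, eval_C]
    · simp only [Ne.symm h, ↓ reduceIte, mul_zero, sub_self, map_neg, map_mul, neg_mul, eval_neg, eval_mul, eval_C, nA_ne h, neg_zero]
  have h2 : w c - algebraMap ℂ L y ≠ 0 := fun h => by
    have := hvw c c
    rw [sub_eq_zero.1 h, hβ.algebraMap_right, if_pos rfl] at this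
    exact mul_ne_zero hε (hv c) this.symm
  have h3 : (nodal Finset.univ w /ₘ (X - C (algebraMap ℂ L y))).eval (w c) =
      (nA w c).eval (algebraMap ℂ L y) := by
    have h4 := congrArg (eval (w c))
      (modByMonic_add_div (nodal Finset.univ w) (X - C (algebraMap ℂ L y)))
    rw [modByMonic_X_sub_C_eq_C_eval, nodal_zero] at h4
    have h5 := congrArg (eval (algebraMap ℂ L y))
      (nodal_eq_mul_nodal_erase (v := w) (Finset.mem_univ c))
    simp only [eval_add, eval_mul, eval_sub, eval_X, eval_C] at h4 h5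
    exact mul_left_cancel₀ h2 (by linear_combination h4 - h5)
  rw [eval_sub, ev_ad, br_eval_w hβ hw hww, hB, hβ.anti, hβ.eval_alg, h1]
  simp only [eval_mul, eval_C, h3, hB]
  ring

omit hww hvw in
include hv in
theorem uni_of {C' D : L[X]} (hq : Q N k (nodal Finset.univ w) B C' D) {h : L}
    (h1 : cM (hβ.ad h) (nodal Finset.univ w) = -B) (h2 : cM (hβ.ad h) B = 0) :
    Uni hβ (nodal Finset.univ w) B C' D h := by
  refine ⟨h1, h2, nodal_dvd hw fun c => mul_left_cancel₀ (hv c) ?_⟩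
  have := congrArg (eval (w c)) (hβ.cM_det h hq)
  simp only [h1, h2, eval_add, eval_mul, eval_neg, nodal_zero, hB, eval_zero] at this ⊢
  linear_combination -this
end

section
variable {R : Type} [CommRing R] [Algebra ℂ R] {β' : R → R → R} (hβ : IsPoi β) (hβ' : IsPoi β')
  (ι : R →ₐ[ℂ] L) (hι : Function.Injective ι) (hc : ∀ f g, ι (β' f g) = β (ι f) (ι g))
  {a b c d : R[X]}
include hι

omit [IsDomain L] in
theorem Q.of_map (h : Q N k (a.map ι.toRingHom) (b.map ι.toRingHom) (c.map ι.toRingHom)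
    (d.map ι.toRingHom)) : Q N k a b c d :=
  ⟨monic_of_injective hι h.mon, (natDegree_map_eq_of_injective hι a).symm.trans h.deg,
    (degree_map_eq_of_injective hι b).symm.trans_lt h.db,
    (degree_map_eq_of_injective hι c).symm.trans_lt h.dc,
    map_injective ι.toRingHom hι (by simpa using h.det)⟩

include hc
omit [IsDomain L] hι in
theorem map_cM (f : R) (p : R[X]) :
    (cM (hβ'.ad f) p).map ι.toRingHom = cM (hβ.ad (ι f)) (p.map ι.toRingHom) := by
  ext n; simp [coeff_cM, IsPoi.ad_apply, hc]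

omit [IsDomain L] in
theorem Uni.of_map (hm : a.Monic) {h : R} (H : Uni hβ (a.map ι.toRingHom) (b.map ι.toRingHom)
    (c.map ι.toRingHom) (d.map ι.toRingHom) (ι h)) : Uni hβ' a b c d h :=
  ⟨map_injective ι.toRingHom hι (by rw [map_cM hβ hβ' ι hc, H.1, Polynomial.map_neg]),
    map_injective ι.toRingHom hι (by rw [map_cM hβ hβ' ι hc, H.2.1, Polynomial.map_zero]),
    (map_dvd_map ι.toRingHom hι hm).1 (by rw [Polynomial.map_add, map_cM hβ hβ' ι hc]; exact H.2.2)⟩

omit [IsDomain L] in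
theorem GoodAll.of_map (hm : a.Monic)
    (H : GoodAll hβ (a.map ι.toRingHom) (b.map ι.toRingHom) (c.map ι.toRingHom)) :
    GoodAll hβ' a b c := fun y => by
  have e1 : ι (a.eval (algebraMap ℂ R y)) = (a.map ι.toRingHom).eval (algebraMap ℂ L y) := by
    rw [← ι.commutes y]; exact (eval_map_apply ι.toRingHom _).symm
  have e2 : (a /ₘ (X - C (algebraMap ℂ R y))).map ι.toRingHom =
      a.map ι.toRingHom /ₘ (X - C (algebraMap ℂ L y)) := by
    rw [map_divByMonic _ (monic_X_sub_C _)]; simp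
  obtain ⟨h1, h2, h3⟩ := H y
  refine ⟨map_injective ι.toRingHom hι ?_, (map_dvd_map ι.toRingHom hι hm).1 ?_,
    (map_dvd_map ι.toRingHom hι hm).1 ?_⟩
  · rw [map_cM hβ hβ' ι hc, e1, h1, Polynomial.map_zero]
  · rwa [Polynomial.map_sub, map_cM hβ hβ' ι hc, e1, Polynomial.map_mul, e2]
  · rwa [Polynomial.map_add, map_cM hβ hβ' ι hc, e1, Polynomial.map_mul, e2]
end

end C73
end
end

section
/-! Block U: the `A₁` Coulomb branch is generated by power sums and rank one monopoles. -/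

noncomputable section
namespace C73

/-- rank one monopole term `E_{ε e_a} u_a^ε` of the `A₁` theory -/
def mA (N : ℕ) {k : ℕ} (ε : ℤ) (a : Fin k) : LL (Fin k) :=
  AddMonoidAlgebra.single (Pi.single a ε)
    (EE (fun _ => ()) (fun _ _ => 0) (fun _ => N) (Pi.single a ε))

namespace Ugen
open MvPolynomial

variable {k : ℕ}

/-- `pL` as an algebra map -/
def pA : PP (Fin k) →ₐ[ℂ] LL (Fin k) :=
  (IsScalarTower.toAlgHom ℂ (KK (Fin k)) (LL (Fin k))).comp
    (IsScalarTower.toAlgHom ℂ (PP (Fin k)) (KK (Fin k)))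

theorem pA_apply (p : PP (Fin k)) : pA p = pL p := rfl

/-- the coweight `ε 1_S` -/
def lS (ε : ℤ) (S : Finset (Fin k)) : Fin k → ℤ := fun a => if a ∈ S then ε else 0

/-- one term of a monopole operator -/
def TT (N : ℕ) (ε : ℤ) (S : Finset (Fin k)) : LL (Fin k) :=
  AddMonoidAlgebra.single (lS ε S) (EE (fun _ => ()) (fun _ _ => 0) (fun _ => N) (lS ε S))

theorem mA_eq (N : ℕ) (ε : ℤ) (a : Fin k) : mA N ε a = TT N ε {a} := by
  have : (Pi.single a ε : Fin k → ℤ) = lS ε {a} := by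
    funext b; simp [lS, Pi.single_apply]
  simp only [mA, TT, this]

/-- the monopole operator as a linear map -/
def mL (N : ℕ) (ε : ℤ) (S : Finset (Fin k)) : PP (Fin k) →ₗ[ℂ] LL (Fin k) :=
  ∑ σ : Equiv.Perm (Fin k), (LinearMap.mulRight ℂ (TT N ε (S.map σ.toEmbedding))) ∘ₗ
    (pA.comp (rename σ)).toLinearMap

theorem mL_apply (N : ℕ) (ε : ℤ) (S : Finset (Fin k)) (f : PP (Fin k)) :
    mL N ε S f = ∑ σ : Equiv.Perm (Fin k), pA (rename σ f) * TT N ε (S.map σ.toEmbedding) := by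
  simp only [mL, AlgHom.comp_toLinearMap, LinearMap.sum_apply, LinearMap.coe_comp, AlgHom.coe_toLinearMap, Function.comp_apply, LinearMap.mulRight_apply]

theorem mono_eq (N : ℕ) (ε : ℤ) (S : Finset (Fin k)) (f : PP (Fin k)) :
    mono (fun _ => ()) (fun _ _ => 0) (fun _ => N) (lS ε S) f = mL N ε S f := by
  rw [mL_apply, mono]
  refine Finset.sum_congr (by ext; simp only [implies_true, Finset.filter_true, Finset.mem_univ]) fun σ _ => ?_
  have : lS ε S ∘ σ.symm = lS ε (S.map σ.toEmbedding) := by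
    funext a; simp [lS, Finset.mem_map_equiv]
  rw [this, pA_apply, pL, TT, AddMonoidAlgebra.single_mul_single, zero_add]

theorem ww_ne {a b : Fin k} (h : a ≠ b) : ww a - ww b ≠ 0 := by
  rw [sub_ne_zero]
  exact fun h' => h (X_injective (IsFractionRing.injective (PP (Fin k)) (KK (Fin k)) h'))

theorem EE_eq (N : ℕ) (l : Fin k → ℤ) : EE (fun _ => ()) (fun _ _ => 0) (fun _ => N) l =
    (∏ a, ww a ^ (N * (-l a).toNat)) / ∏ a, ∏ b, (ww a - ww b) ^ (l a - l b).toNat := by
  simp only [EE, zero_mul, pow_zero, Finset.prod_const_one, one_mul, Finset.filter_true]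

theorem den_ne (l : Fin k → ℤ) : ∏ a, ∏ b, (ww a - ww b) ^ (l a - l b).toNat ≠ 0 := by
  refine Finset.prod_ne_zero_iff.2 fun a _ => Finset.prod_ne_zero_iff.2 fun b _ => ?_
  by_cases h : a = b
  · simp [h]
  · exact pow_ne_zero _ (ww_ne h)

theorem TT_insert (N : ℕ) {ε : ℤ} (hε : ε = 1 ∨ ε = -1) (S : Finset (Fin k)) {c : Fin k}
    (hc : c ∉ S) :
    pA (∏ x ∈ S, (X x - X c) * (X c - X x)) * (TT N ε S * TT N ε {c}) = TT N ε (insert c S) := by
  have hl : lS ε S + lS ε {c} = lS ε (insert c S) := by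
    funext a
    by_cases h : a = c
    · simp [lS, h, hc]
    · simp [lS, h]
  rw [pA_apply, pL, TT, TT, TT, AddMonoidAlgebra.single_mul_single,
    AddMonoidAlgebra.single_mul_single, zero_add, hl]
  congr 1
  rw [EE_eq, EE_eq, EE_eq, div_mul_div_comm, ← mul_div_assoc,
    div_eq_div_iff (mul_ne_zero (den_ne _) (den_ne _)) (den_ne _)]
  have h1 : (∏ a, ww a ^ (N * (-lS ε S a).toNat)) * ∏ a, ww a ^ (N * (-lS ε {c} a).toNat) =
      ∏ a, ww a ^ (N * (-lS ε (insert c S) a).toNat) := by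
    rw [← Finset.prod_mul_distrib]
    refine Finset.prod_congr rfl fun a _ => ?_
    rw [← pow_add, ← mul_add]
    congr 2
    by_cases h : a = c
    · simp [lS, h, hc]
    · simp [lS, h]
  have h2 : algebraMap (PP (Fin k)) (KK (Fin k)) (∏ x ∈ S, (X x - X c) * (X c - X x)) =
      ∏ a, ∏ b, (ww a - ww b) ^
        ((if b = c ∧ a ∈ S then 1 else 0) + (if a = c ∧ b ∈ S then 1 else 0)) := by
    simp only [pow_add, Finset.prod_mul_distrib, map_prod, map_mul, map_sub]
    congr 1
    · simp only [ww, ite_and, pow_ite, pow_one, pow_zero, Finset.prod_ite_eq', Finset.mem_univ, ↓ reduceIte, Finset.prod_ite_mem, Finset.univ_inter]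
    · rw [Finset.prod_comm]
      simp only [ww, ite_and, pow_ite, pow_one, pow_zero, Finset.prod_ite_eq', Finset.mem_univ, ↓ reduceIte, Finset.prod_ite_mem, Finset.univ_inter]
  rw [h1, h2, mul_right_comm, mul_comm]
  congr 1
  simp only [← Finset.prod_mul_distrib, ← pow_add]
  refine Finset.prod_congr rfl fun a _ => Finset.prod_congr rfl fun b _ => ?_
  congr 1
  by_cases ha : a = c <;> by_cases hb : b = c <;> by_cases ha' : a ∈ S <;> by_cases hb' : b ∈ S <;>
    rcases hε with rfl | rfl <;> simp_all [lS]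

theorem supp_insert (M : Submodule ℂ (PP (Fin k))) (T : Finset (Fin k)) (j : Fin k)
    (h : ∀ f ∈ supported ℂ (T : Set (Fin k)), ∀ b : ℕ, f * X j ^ b ∈ M) :
    ∀ f ∈ supported ℂ ((insert j T : Finset (Fin k)) : Set (Fin k)), f ∈ M := by
  intro f hf
  rw [f.as_sum]
  refine Submodule.sum_mem _ fun d hd => ?_
  have : monomial d (coeff d f) = monomial (d.erase j) (coeff d f) * X j ^ d j := by
    rw [X_pow_eq_monomial, monomial_mul, mul_one, Finsupp.erase_add_single]
  rw [this]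
  refine h _ (mem_supported.2 fun i hi => ?_) _
  obtain ⟨d', hd', hi'⟩ := (mem_vars_iff_mem_support i).1 hi
  have hd2 : d' = d.erase j := Finset.mem_singleton.1 (support_monomial_subset hd')
  rw [hd2, Finsupp.support_erase, Finset.mem_erase] at hi'
  have := mem_supported.1 hf ((mem_vars_iff_mem_support i).2 ⟨d, hd, hi'.2⟩)
  simpa [hi'.1] using this

theorem rename_congr {T : Set (Fin k)} {f : PP (Fin k)} (hf : f ∈ supported ℂ T)
    {g g' : Fin k → Fin k} (h : ∀ i ∈ T, g i = g' i) : rename g f = rename g' f :=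
  hom_congr_vars (f₁ := (rename g).toRingHom) (f₂ := (rename g').toRingHom)
    (by ext; simp) (fun i hi _ => by simp [h i (mem_supported.1 hf hi)]) rfl

theorem mL_rename (N : ℕ) (ε : ℤ) (S : Finset (Fin k)) (τ : Equiv.Perm (Fin k))
    (f : PP (Fin k)) : mL N ε (S.map τ.toEmbedding) (rename τ f) = mL N ε S f := by
  rw [mL_apply, mL_apply]
  refine Fintype.sum_equiv (Equiv.mulRight τ) _ _ fun σ => ?_
  rw [rename_rename, Finset.map_map]
  rfl

theorem map_swap {S : Finset (Fin k)} {a b : Fin k} (ha : a ∉ S) (hb : b ∉ S) :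
    S.map (Equiv.swap a b).toEmbedding = S := by
  ext x
  rw [Finset.mem_map_equiv, Equiv.symm_swap, Equiv.swap_apply_def]
  split_ifs with h1 h2 <;> simp_all

theorem of_card {𝓑 : Subalgebra ℂ (LL (Fin k))} {S : Finset (Fin k)} {a : Fin k} (ha : a ∉ S)
    {x : LL (Fin k)} (h : ∑ _b ∈ Sᶜ, x ∈ 𝓑) : x ∈ 𝓑 := by
  have hc : ((Sᶜ.card : ℕ) : ℂ) ≠ 0 := by
    exact_mod_cast (Finset.card_pos.2 ⟨a, Finset.mem_compl.2 ha⟩).ne'
  have := 𝓑.smul_mem h ((Sᶜ.card : ℕ) : ℂ)⁻¹
  rwa [Finset.sum_const, ← Nat.cast_smul_eq_nsmul ℂ, inv_smul_smul₀ hc] at this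

theorem step1 (N : ℕ) {ε : ℤ} (hε : ε = 1 ∨ ε = -1) (𝓑 : Subalgebra ℂ (LL (Fin k)))
    (h1 : ∀ n : ℕ, ∑ a, pL (X a) ^ n * mA N ε a ∈ 𝓑) (S : Finset (Fin k)) :
    ∀ f ∈ supported ℂ (S : Set (Fin k)), mL N ε S f ∈ 𝓑 := by
  induction S using Finset.induction_on with
  | empty =>
    intro f hf
    rw [Finset.coe_empty, supported_empty, Algebra.mem_bot] at hf
    obtain ⟨c, rfl⟩ := hf
    rw [mL_apply]
    refine Subalgebra.sum_mem _ fun σ _ => ?_
    have h0 : lS ε (∅ : Finset (Fin k)) = 0 := by funext a; simp [lS]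
    have : TT N ε (∅ : Finset (Fin k)) = 1 := by
      rw [TT, h0, EE_eq]; simp only [Pi.zero_apply, neg_zero, Int.toNat_zero, mul_zero, pow_zero, Finset.prod_const_one, sub_self, ne_eq, one_ne_zero, not_false_eq_true, div_self, AddMonoidAlgebra.one_def]
    rw [Finset.map_empty, this, mul_one, AlgHom.commutes, AlgHom.commutes]
    exact 𝓑.algebraMap_mem c
  | insert a S ha ih =>
    let Φ : PP (Fin k) →ₗ[ℂ] LL (Fin k) := ∑ σ : Equiv.Perm (Fin k), ∑ c,
      (LinearMap.mulRight ℂ (TT N ε (S.map σ.toEmbedding) * TT N ε {c})) ∘ₗ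
        (pA.comp (rename (Function.update σ a c))).toLinearMap
    have hΦ : ∀ f, Φ f = ∑ σ : Equiv.Perm (Fin k), ∑ c, pA (rename (Function.update σ a c) f) *
        (TT N ε (S.map σ.toEmbedding) * TT N ε {c}) := fun f => by
      simp only [Φ, LinearMap.mulRight_mul, AlgHom.comp_toLinearMap, LinearMap.sum_apply, LinearMap.coe_comp, AlgHom.coe_toLinearMap, Function.comp_apply, LinearMap.mulRight_apply, mul_assoc]
    have h2 := supp_insert (𝓑.toSubmodule.comap Φ) S a fun f hf b => by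
      have := 𝓑.mul_mem (ih f hf) (h1 b)
      rw [mL_apply, Finset.sum_mul_sum] at this
      show Φ _ ∈ 𝓑
      rw [hΦ]
      convert this using 3 with σ _ c _
      rw [map_mul, map_pow, rename_X, Function.update_self, map_mul, map_pow, pA_apply (X c), mA_eq,
        rename_congr hf (g' := σ) fun i hi =>
          Function.update_of_ne (fun h : i = a => ha (h ▸ hi)) _ _]
      ring
    intro f hf
    have hX : ∀ x ∈ insert a S, (X x : PP (Fin k)) ∈
        supported ℂ ((insert a S : Finset (Fin k)) : Set (Fin k)) := fun x hx => X_mem_supported.2 hx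
    have h3 : Φ (f * ∏ x ∈ S, (X x - X a) * (X a - X x)) ∈ 𝓑 :=
      h2 _ (mul_mem hf (prod_mem fun x hx =>
        have e1 := hX x (Finset.mem_insert_of_mem hx)
        have e2 := hX a (Finset.mem_insert_self a S)
        mul_mem (sub_mem e1 e2) (sub_mem e2 e1)))
    refine of_card ha ?_
    convert h3 using 1
    rw [hΦ]
    have h4 : ∀ (σ : Equiv.Perm (Fin k)) (c : Fin k),
        rename (Function.update σ a c) (∏ x ∈ S, (X x - X a) * (X a - X x) : PP (Fin k)) =
          ∏ x ∈ S.map σ.toEmbedding, (X x - X c) * (X c - X x) := fun σ c => by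
      rw [map_prod, Finset.prod_map]
      refine Finset.prod_congr rfl fun x hx => ?_
      simp [Function.update_of_ne (fun h : x = a => ha (h ▸ hx))]
    have h5 : ∀ σ : Equiv.Perm (Fin k),
        ∑ c, pA (rename (Function.update σ a c) (f * ∏ x ∈ S, (X x - X a) * (X a - X x))) *
          (TT N ε (S.map σ.toEmbedding) * TT N ε {c}) =
        ∑ b ∈ Sᶜ, pA (rename (σ * Equiv.swap a b : Equiv.Perm (Fin k)) f) *
          TT N ε ((insert a S).map (σ * Equiv.swap a b : Equiv.Perm (Fin k)).toEmbedding) := by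
      intro σ
      rw [← Equiv.sum_comp σ, ← Finset.sum_add_sum_compl S, Finset.sum_eq_zero, zero_add]
      · refine Finset.sum_congr rfl fun b hb => ?_
        have hb' : b ∉ S := Finset.mem_compl.1 hb
        have e : (insert a S).map (σ * Equiv.swap a b : Equiv.Perm (Fin k)).toEmbedding =
            insert (σ b) (S.map σ.toEmbedding) := by
          rw [show (σ * Equiv.swap a b : Equiv.Perm (Fin k)).toEmbedding =
            (Equiv.swap a b).toEmbedding.trans σ.toEmbedding from rfl, ← Finset.map_map,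
            Finset.map_insert, map_swap ha hb', Finset.map_insert]
          simp
        rw [map_mul, h4, map_mul, mul_assoc, TT_insert N hε _ (by simpa using hb'), e,
          rename_congr hf (g' := (σ * Equiv.swap a b : Equiv.Perm (Fin k))) fun i hi => ?_]
        rcases Finset.mem_insert.1 hi with rfl | hi
        · simp
        · have h6 : i ≠ a := fun h => ha (h ▸ hi)
          have h7 : i ≠ b := fun h => hb' (h ▸ hi)
          simp [Function.update_of_ne h6, Equiv.swap_apply_of_ne_of_ne h6 h7]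
      · intro b hb
        rw [map_mul, h4, Finset.prod_eq_zero (Finset.mem_map_of_mem σ.toEmbedding hb) (by simp)]
        simp
    simp only [h5]
    rw [Finset.sum_comm]
    refine Finset.sum_congr rfl fun b _ => ?_
    rw [mL_apply]
    exact (Equiv.sum_comp (Equiv.mulRight (Equiv.swap a b)) _).symm

theorem step2 (N : ℕ) (ε : ℤ) (𝓑 : Subalgebra ℂ (LL (Fin k)))
    (h0 : ∀ n : ℕ, ∑ a, pL (X a) ^ n ∈ 𝓑) (S : Finset (Fin k))
    (hS : ∀ f ∈ supported ℂ (S : Set (Fin k)), mL N ε S f ∈ 𝓑) (f : PP (Fin k)) :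
    mL N ε S f ∈ 𝓑 := by
  have key : ∀ U : Finset (Fin k), ∀ f ∈ supported ℂ ((U ∪ S : Finset (Fin k)) : Set (Fin k)),
      mL N ε S f ∈ 𝓑 := by
    intro U
    induction U using Finset.induction_on with
    | empty => simpa only [Finset.empty_union] using hS
    | insert j U _ ih =>
      by_cases hj : j ∈ U ∪ S
      · rwa [Finset.insert_union, Finset.insert_eq_of_mem hj]
      rw [Finset.insert_union]
      refine supp_insert (𝓑.toSubmodule.comap (mL N ε S)) _ j fun f hf b => ?_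
      show mL N ε S _ ∈ 𝓑
      refine of_card hj ?_
      have e1 : ∑ _i ∈ (U ∪ S)ᶜ, mL N ε S (f * X j ^ b) =
          ∑ i ∈ (U ∪ S)ᶜ, mL N ε S (f * X i ^ b) := by
        refine Finset.sum_congr rfl fun i hi => ?_
        have hi' := Finset.mem_compl.1 hi
        rw [← mL_rename N ε S (Equiv.swap j i),
          map_swap (fun h => hj (Finset.mem_union_right _ h))
            (fun h => hi' (Finset.mem_union_right _ h)), map_mul, map_pow, rename_X,
          Equiv.swap_apply_left, rename_congr hf (g := Equiv.swap j i) (g' := id) fun x hx =>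
            Equiv.swap_apply_of_ne_of_ne (fun h : x = j => hj (h ▸ hx))
              (fun h : x = i => hi' (h ▸ hx)), rename_id]
        rfl
      have e2 : ∑ i, mL N ε S (f * X i ^ b) = (∑ a, pL (X a) ^ b) * mL N ε S f := by
        rw [← map_sum, ← Finset.mul_sum, mL_apply, mL_apply,
          Finset.mul_sum _ _ (∑ a, pL (X a) ^ b)]
        refine Finset.sum_congr rfl fun σ _ => ?_
        have : rename σ (∑ i, X i ^ b : PP (Fin k)) = ∑ i, X i ^ b := by
          simp only [map_sum, map_pow, rename_X]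
          exact Equiv.sum_comp σ fun i => (X i ^ b : PP (Fin k))
        rw [map_mul, this, map_mul, map_sum]
        simp only [map_pow, pA_apply]
        ring
      rw [e1, ← add_sub_cancel_left (∑ i ∈ U ∪ S, mL N ε S (f * X i ^ b)) (∑ i ∈ (U ∪ S)ᶜ, _),
        Finset.sum_add_sum_compl, e2]
      exact sub_mem (mul_mem (h0 b) (ih f hf)) (Subalgebra.sum_mem _ fun i hi =>
        ih _ (mul_mem hf (pow_mem (X_mem_supported.2 hi) b)))
  exact key Finset.univ f (by simp only [Finset.coe_union, Finset.coe_univ, Set.univ_union, supported_univ, Algebra.mem_top])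

end Ugen

theorem couA1_le (N k : ℕ) (𝓑 : Subalgebra ℂ (LL (Fin k)))
    (h0 : ∀ n : ℕ, ∑ a, pL (MvPolynomial.X a) ^ n ∈ 𝓑)
    (h1 : ∀ n : ℕ, ∑ a, pL (MvPolynomial.X a) ^ n * mA N 1 a ∈ 𝓑)
    (h2 : ∀ n : ℕ, ∑ a, pL (MvPolynomial.X a) ^ n * mA N (-1) a ∈ 𝓑) :
    CouA1 N k ≤ 𝓑 := by
  refine Algebra.adjoin_le ?_
  rintro _ ⟨l, f, hl | hl, rfl⟩
  · have : l = Ugen.lS 1 (Finset.univ.filter fun a => l a = 1) := by
      funext a; rcases hl a with h | h <;> simp only [h, Ugen.lS, Finset.mem_filter, Finset.mem_univ, zero_ne_one, and_false, ↓ reduceIte, and_self]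
    rw [this, Ugen.mono_eq]
    exact Ugen.step2 N 1 𝓑 h0 _ (Ugen.step1 N (Or.inl rfl) 𝓑 h1 _) f
  · have : l = Ugen.lS (-1) (Finset.univ.filter fun a => l a = -1) := by
      funext a; rcases hl a with h | h <;> simp only [h, Ugen.lS, Int.reduceNeg, Finset.mem_filter, Finset.mem_univ, zero_eq_neg, one_ne_zero, and_false, ↓ reduceIte, and_self]
    rw [this, Ugen.mono_eq]
    exact Ugen.step2 N (-1) 𝓑 h0 _ (Ugen.step1 N (Or.inr rfl) 𝓑 h2 _) f

end C73
end
end

section
/-! Block U: points of the Coulomb branch over a regular `t`. -/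

noncomputable section
namespace C73

theorem upt_loc {I : Type} (t : I → ℂ) :
    ∃ (O : Subalgebra ℂ (KK I)) (ev : O →ₐ[ℂ] ℂ),
      (∀ p : PP I, ∃ h : algebraMap (PP I) (KK I) p ∈ O, ev ⟨_, h⟩ = MvPolynomial.eval t p) ∧
      ∀ p : PP I, MvPolynomial.eval t p ≠ 0 → (algebraMap (PP I) (KK I) p)⁻¹ ∈ O := by
  let S : Submonoid (PP I) := (nonZeroDivisors ℂ).comap (MvPolynomial.eval t)
  have hS : S ≤ nonZeroDivisors (PP I) := fun p hp => mem_nonZeroDivisors_of_ne_zero (by
    rintro rfl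
    exact nonZeroDivisors.ne_zero hp (map_zero _))
  let O := Localization.subalgebra.ofField (KK I) S hS
  have hu : ∀ y : S, IsUnit ((MvPolynomial.aeval t : PP I →ₐ[ℂ] ℂ) y) := fun y =>
    (nonZeroDivisors.ne_zero y.2).isUnit
  let ev : O →ₐ[ℂ] ℂ := IsLocalization.liftAlgHom (M := S) hu
  refine ⟨O.restrictScalars ℂ, ev, fun p => ⟨O.algebraMap_mem p, ?_⟩, fun p hp => ?_⟩
  · exact IsLocalization.lift_eq (M := S) (S := O) hu p
  · exact ⟨1, p, mem_nonZeroDivisors_of_ne_zero hp, by simp only [map_one, one_mul]⟩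

theorem exists_pt {I ι : Type} [Fintype I] [DecidableEq I] (nd : I → ι) (ar : ι → ι → ℕ)
    (fr : ι → ℕ) (t : I → ℂ) (ht : Function.Injective t) (u : I → ℂ) (hu : ∀ a, u a ≠ 0) :
    ∃ (R : Subalgebra ℂ (LL I)) (χ : R →ₐ[ℂ] ℂ), Cou nd ar fr ≤ R ∧
      (∀ a, ∃ h : pL (MvPolynomial.X a) ∈ R, χ ⟨_, h⟩ = t a) ∧
      (∀ a, ∃ h : uL' (Pi.single a 1) ∈ R, χ ⟨_, h⟩ = u a) ∧
      ∀ a, uL' (Pi.single a (-1)) ∈ R := by
  classical
  obtain ⟨O, ev, h1, h2⟩ := upt_loc t
  let j : AddMonoidAlgebra O (I → ℤ) →ₐ[ℂ] LL I := AddMonoidAlgebra.mapAlgHom (I → ℤ) O.val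
  have hj : Function.Injective j := fun x y h => by
    ext l
    have := congrArg (fun z : LL I => z.coeff l) h
    simpa only [SetLike.coe_eq_coe, j, AddMonoidAlgebra.coeff_mapAlgHom, Subalgebra.coe_val] using this
  have js : ∀ l (c : O), j (AddMonoidAlgebra.single l c) = AddMonoidAlgebra.single l (c : KK I) :=
    fun l c => by simp [j]
  let g : Multiplicative (I → ℤ) →* ℂ :=
    { toFun := fun l => ∏ a, u a ^ (l.toAdd a)
      map_one' := by simp only [toAdd_one, Pi.zero_apply, zpow_ofNat, pow_zero, Finset.prod_const_one]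
      map_mul' := fun x y => by
        rw [← Finset.prod_mul_distrib]
        exact Finset.prod_congr rfl fun a _ => zpow_add₀ (hu a) _ _ }
  let χ0 : AddMonoidAlgebra O (I → ℤ) →ₐ[ℂ] ℂ :=
    AddMonoidAlgebra.liftNCAlgHom ev g fun _ _ => Commute.all _ _
  have χs : ∀ l (c : O), χ0 (AddMonoidAlgebra.single l c) = ev c * ∏ a, u a ^ l a :=
    fun l c => by simp only [χ0, g, AddMonoidAlgebra.coe_liftNCAlgHom, MonoidHom.coe_mk, OneHom.coe_mk, AddMonoidAlgebra.liftNC_single, AddMonoidHom.coe_coe, toAdd_ofAdd]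
  have key : ∀ l (c : KK I) (hc : c ∈ O), ∃ h : AddMonoidAlgebra.single l c ∈ j.range,
      (χ0.comp (AlgEquiv.ofInjective j hj).symm.toAlgHom) ⟨_, h⟩ = ev ⟨c, hc⟩ * ∏ a, u a ^ l a := by
    intro l c hc
    refine ⟨⟨_, js l ⟨c, hc⟩⟩, ?_⟩
    rw [← χs]
    refine congrArg χ0 ?_
    exact (AlgEquiv.ofInjective j hj).symm_apply_eq.2 (Subtype.ext (js l ⟨c, hc⟩).symm)
  have hw : ∀ a, ww a ∈ O := fun a => (h1 _).1
  have hE : ∀ l, EE nd ar fr l ∈ O := fun l => by
    rw [EE, div_eq_mul_inv]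
    refine O.mul_mem (O.mul_mem (O.prod_mem fun a _ => O.prod_mem fun b _ =>
      O.pow_mem (O.sub_mem (hw b) (hw a)) _) (O.prod_mem fun a _ => O.pow_mem (hw a) _)) ?_
    rw [← Finset.prod_inv_distrib]
    refine O.prod_mem fun a _ => ?_
    rw [← Finset.prod_inv_distrib]
    refine O.prod_mem fun b _ => ?_
    by_cases hab : a = b
    · subst hab
      simp
    · rw [← inv_pow]
      refine O.pow_mem ?_ _
      have := h2 (MvPolynomial.X a - MvPolynomial.X b) (by
        simpa [sub_eq_zero] using fun h => hab (ht h))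
      rwa [map_sub] at this
  refine ⟨j.range, χ0.comp (AlgEquiv.ofInjective j hj).symm.toAlgHom, ?_, fun a => ?_,
    fun a => ?_, fun a => (key _ 1 O.one_mem).1⟩
  · refine Algebra.adjoin_le ?_
    rintro x ⟨l, f, -, rfl⟩
    exact j.range.sum_mem fun σ _ => (key _ _ (O.mul_mem (h1 _).1 (hE _))).1
  · obtain ⟨h, e⟩ := h1 (MvPolynomial.X a)
    obtain ⟨h', e'⟩ := key 0 _ h
    exact ⟨h', e'.trans (by simp only [e, MvPolynomial.eval_X, Pi.zero_apply, zpow_ofNat, pow_zero, Finset.prod_const_one, mul_one])⟩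
  · obtain ⟨h', e'⟩ := key (Pi.single a 1) 1 O.one_mem
    refine ⟨h', e'.trans ?_⟩
    have : (⟨1, O.one_mem⟩ : O) = 1 := rfl
    rw [this, map_one, one_mul, Finset.prod_eq_single a]
    · simp
    · intro b _ hb
      simp [hb]
    · simp only [Finset.mem_univ, not_true_eq_false, Pi.single_eq_same, zpow_ofNat, pow_one, IsEmpty.forall_iff]

end C73
end
end
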