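import Pool.Agent.MP_94fa45_ag.Mg.C73_PA
import Pool.Agent.MP_94fa45_ag.C73.SB
import Pool.Agent.MP_94fa45_ag.C73.SC
import Pool.Agent.MP_94fa45_ag.Mg.C73_UA
import Pool.Agent.MP_94fa45_ag.Mg.C73_AK

attribute [-instance] IsAffineAddMonoid.toIsCancelAdd
  ContinuousSemilinearMapClass.toSemilinearMapClass Complex.instModule SubringClass.toCommRing
  MonTypeEquivalenceMon.monMonoid RCLike.charZero_rclike LieAdmissibleAlgebra.toModule
  instCharZeroOfIsSemireal RightPreLieAlgebra.toModule LeftPreLieAlgebra.toModule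
  Algebra.Generators.instRing LieAlgebra.toModule NumberField.to_charZero
  TopologicalSpace.DiscreteTopology.metrizableSpace
  NonUnitalAlgSemiHomClass.toDistribMulActionSemiHomClass Unique.fintype Valued.toUniformSpace
  bot_nonempty MulSemiringAction.toDistribMulAction Fintype.decidableForallFintype
  CoalgHomClass.toSemilinearMapClass RKHS.instFunLike RingHomClass.toLinearMapClassRat
  AddQuantale.instAddLeftMono littleWedderburn GrpTypeEquivalenceGrp.grpGroup
  NonarchimedeanRing.toIsTopologicalRing SemilinearIsometryClass.toSemilinearMapClass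
  SemilatticeInf.toPartialOrder NonarchimedeanAddGroup.toIsTopologicalAddGroup
  NonUnitalAlgHomClass.instSemilinearMapClassOfNonUnitalAlgSemiHomClassToMonoidHomRingHom
  Nontrivial.to_nonempty Complex.instDistribMulActionOfReal NonUnitalAlgSemiHomClass.toMulHomClass
  IsPurelyInseparable.isIntegral instCoeTCOfCoe invertibleTwo
  CommMonTypeEquivalenceCommMon.commMonCommMonoid BialgHomClass.toMonoidHomClass
  AlgHomClass.linearMapClass Valued.isTopologicalDivisionRing Zero.instNonempty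
  TotallySeparatedSpace.t2Space TopologicalSpace.NoetherianSpace.compactSpace
  IsTopologicalTorsor.toContinuousSMul NonUnitalRing.toNonUnitalNonAssocRing
  NonUnitalAlgHomClass.toNonUnitalRingHomClass AddGroupConeClass.toAddSubmonoidClass
  continuousSub_of_discreteTopology LinearOrderedAddCommGroupWithTop.toOrderTop
  IsStrictOrderedRing.toCharZero ProperSMul.toContinuousSMul NeZero.of_gt' instSMulZeroClass
  MulSemiringActionSemiHomClass.toDistribMulActionSemiHomClass One.instNonempty Torsor.toMulAction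
  NormedRing.toRing AddQuantale.instAddRightMono top_nonempty TestFunctionClass.toDFunLike
  instCoeTOfCoeDep IsFormallyReal.instIsReduced IdemSemiring.toCanonicallyOrderedAdd
  LieAdmissibleRing.toNonUnitalNonAssocRing ContDiffMapSupportedInClass.toDFunLike AddTorsor.nonempty
  Finset.decidableDforallFinset Algebra.WeaklyEtale.flat
  instNonUnitalAlgHomClassOfNonUnitalAlgEquivClass Rat.instDistribSMul
  SemilinearEquivClass.instSemilinearMapClass UpgradedStandardBorel.toTopologicalSpace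
  NormedCommRing.toCommRing Group.IsPerfect.subsingleton_of_isMulCommutative
  Multiset.decidableDforallMultiset Localization.partialOrder ValuationClass.toMonoidWithZeroHomClass
  NonUnitalNormedCommRing.toNonUnitalCommRing MulCharClass.toMonoidHomClass IdemSemiring.toSemiring
  DenselyNormedField.toNormedField Vector.instDecidableForallForallMemOfDecidablePred
  AddGroupSeminormClass.toNonnegHomClass Quantale.instMulRightMono
  instIsPrincipalIdealRingOfIsSemisimpleRing EuclideanDomain.toCommRing instCoeHTCTOfCoeTailOfCoeHTC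
  NonUnitalSemiring.toNonUnitalNonAssocSemiring Invertible.toNeZero MvPolynomial.instFaithfulSMul
  OreLocalization.instAddMonoid ConnectedSpace.toNonempty
  Array.instDecidableForallForallMemOfDecidablePred Algebra.Smooth.flat
  AlexandrovDiscrete.toLocallyCompactSpace CentroidHomClass.toAddMonoidHomClass
  Option.decidableForallMem Int.decidableLTLE SeminormedCommRing.toCommRing
  MulDistribMulActionSemiHomClass.toMonoidHomClass
  TopologicalSpace.UpgradedIsCompletelyPseudoMetrizableSpace.toPseudoMetricSpace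
  SeminormedRing.toRing CommRing.Pic.instFreeOfSubsingleton AddCommMonoidWithOne.toAddCommMonoid
  instCoeHTCT ContinuousMonoidHom.instCoeOutOfMonoidHomClassOfContinuousMapClass
  Order.Coframe.toCompleteLattice SetLike.GradeZero.instCommRing
  CategoryTheory.Limits.Concrete.instUniqueToTypeTerminal CompletelyDistribLattice.toCompleteLattice
  NonUnitalSeminormedCommRing.toNonUnitalCommRing

/-! The matrix model, part 2. -/

section
/-! Block V, definitions: polynomial families, explicit maps between the matrix models, the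
semi-purity predicates, the spaces `Sg`, `HS`, `P1`, `FT`. -/

open Set Filter Topology TopologicalSpace Polynomial

noncomputable section
namespace C73

instance nice_real : Nice ℝ := {}
instance nice_complex : Nice ℂ := {}

/-- a family of polynomials of bounded degree with continuous coefficients -/
def CP {Y : Type} [TopologicalSpace Y] (f : Y → ℂ[X]) : Prop :=
  (∃ n, ∀ y, (f y).natDegree ≤ n) ∧ ∀ n, Continuous fun y => (f y).coeff n

namespace FM
variable {N k : ℕ}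

abbrev a (M : FM N k) : ℂ[X] := M.1 0 0
abbrev b (M : FM N k) : ℂ[X] := M.1 0 1
abbrev c (M : FM N k) : ℂ[X] := M.1 1 0
abbrev d (M : FM N k) : ℂ[X] := M.1 1 1

theorem a_monic (M : FM N k) : M.a.Monic := M.2.1
theorem a_natDegree (M : FM N k) : M.a.natDegree = k := M.2.2.1
theorem a_degree (M : FM N k) : M.a.degree = k := by
  rw [degree_eq_natDegree M.a_monic.ne_zero, M.a_natDegree]
theorem b_degree (M : FM N k) : M.b.degree < k := M.2.2.2.1
theorem c_degree (M : FM N k) : M.c.degree < k := M.2.2.2.2.1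
theorem det_eq (M : FM N k) : M.a * M.d - M.b * M.c = X ^ N := by
  rw [← M.2.2.2.2.2, Matrix.det_fin_two]
theorem a_coeff (M : FM N k) : M.a.coeff k = 1 := by
  have := M.a_monic.coeff_natDegree
  rwa [M.a_natDegree] at this

/-- a point of the matrix model from its entries -/
def mk (a b c d : ℂ[X]) (ha : a.Monic) (hk : a.natDegree = k) (hb : b.degree < k)
    (hc : c.degree < k) (hd : a * d - b * c = X ^ N) : FM N k :=
  ⟨!![a, b; c, d], ha, hk, hb, hc, by rw [Matrix.det_fin_two_of, hd]⟩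

section
variable {a b c d : ℂ[X]} {ha : a.Monic} {hk : a.natDegree = k} {hb : b.degree < k}
  {hc : c.degree < k} {hd : a * d - b * c = X ^ N}
@[simp] theorem mk_a : (mk a b c d ha hk hb hc hd).a = a := rfl
@[simp] theorem mk_b : (mk a b c d ha hk hb hc hd).b = b := rfl
@[simp] theorem mk_c : (mk a b c d ha hk hb hc hd).c = c := rfl
@[simp] theorem mk_d : (mk a b c d ha hk hb hc hd).d = d := rfl
end

theorem ext3 {M M' : FM N k} (h1 : M.a = M'.a) (h2 : M.b = M'.b) (h3 : M.c = M'.c) : M = M' := by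
  have h4 : M.d = M'.d := by
    have e := M.det_eq.trans M'.det_eq.symm
    rw [h1, h2, h3, sub_left_inj] at e
    exact mul_left_cancel₀ M'.a_monic.ne_zero e
  refine Subtype.ext (Matrix.ext fun i j => ?_)
  fin_cases i <;> fin_cases j
  exacts [h1, h2, h3, h4]

theorem forall_entry {M : FM N k} {p : ℂ[X] → Prop} :
    (∀ i j, p (M.1 i j)) ↔ p M.a ∧ p M.b ∧ p M.c ∧ p M.d := by
  simp only [Fin.forall_fin_two, and_assoc]

/-- transpose -/
def tr (M : FM N k) : FM N k :=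
  mk M.a M.c M.b M.d M.a_monic M.a_natDegree M.c_degree M.b_degree
    (by rw [mul_comm M.c, M.det_eq])

theorem sh_degree (s : ℂ) (M : FM N k) : (C s * M.c).degree < M.a.degree := by
  rw [M.a_degree, ← smul_eq_C_mul]
  exact (degree_smul_le _ _).trans_lt M.c_degree

theorem sh_monic (s : ℂ) (M : FM N k) : (M.a + C s * M.c).Monic :=
  M.a_monic.add_of_left (sh_degree s M)

theorem sh_natDegree (s : ℂ) (M : FM N k) : (M.a + C s * M.c).natDegree = k := by
  rw [natDegree_add_eq_left_of_degree_lt (sh_degree s M), M.a_natDegree]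

/-- the shear `M ↦ (1 s; 0 1) M (1 -q; 0 1)` -/
def sh (s : ℂ) (M : FM N k) : FM N k :=
  mk (M.a + C s * M.c) ((M.b + C s * M.d) %ₘ (M.a + C s * M.c)) M.c
    (M.d - (M.b + C s * M.d) /ₘ (M.a + C s * M.c) * M.c) (sh_monic s M) (sh_natDegree s M)
    (by
      have := degree_modByMonic_lt (M.b + C s * M.d) (sh_monic s M)
      rwa [degree_eq_natDegree (sh_monic s M).ne_zero, sh_natDegree] at this)
    M.c_degree
    (by rw [modByMonic_eq_sub_mul_div, ← M.det_eq]; ring)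

/-- the slope of the line attached to a point of the blow-up chart -/
def sl (M : FM N k) : ℂ := (X * M.c).coeff k

theorem up_degree (M : FM N k) : (X * M.c - C M.sl * M.a : ℂ[X]).degree < (k : WithBot ℕ) := by
  rw [degree_lt_iff_coeff_zero]
  intro m hm
  rcases hm.eq_or_lt with rfl | hm
  · rw [coeff_sub, coeff_C_mul, M.a_coeff, mul_one, sl, sub_self]
  · obtain ⟨m, rfl⟩ := Nat.exists_eq_add_of_lt hm
    rw [coeff_sub, coeff_C_mul, coeff_X_mul, coeff_eq_zero_of_natDegree_lt (p := M.a)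
      (by rw [M.a_natDegree]; omega), mul_zero, sub_zero]
    exact coeff_eq_zero_of_degree_lt (M.c_degree.trans_le (by exact_mod_cast Nat.le_add_right _ _))

/-- the blow-up chart followed by the blow-down -/
def up (M : FM N k) : FM (N + 1) k :=
  mk M.a M.b (X * M.c - C M.sl * M.a) (X * M.d - C M.sl * M.b) M.a_monic M.a_natDegree M.b_degree
    M.up_degree (by rw [pow_succ, ← M.det_eq]; ring)

theorem sc_degree (l : ℕ) {p : ℂ[X]} (hp : p.degree < k) :
    (X ^ l * p : ℂ[X]).degree < ((k + l : ℕ) : WithBot ℕ) := by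
  rw [degree_mul, degree_X_pow, add_comm]
  push_cast
  exact WithBot.add_lt_add_right (by simp) hp

/-- multiplication by `X ^ l` -/
def sc (l : ℕ) (M : FM N k) : FM (N + 2 * l) (k + l) :=
  mk (X ^ l * M.a) (X ^ l * M.b) (X ^ l * M.c) (X ^ l * M.d) ((monic_X_pow l).mul M.a_monic)
    (by rw [(monic_X_pow l).natDegree_mul M.a_monic, natDegree_X_pow, M.a_natDegree, add_comm])
    (sc_degree l M.b_degree) (sc_degree l M.c_degree)
    (by rw [pow_add, ← M.det_eq]; ring)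

end FM

/-- semi-purity with bound `β` for supports inside `S` -/
def SP0 (X : Type) [TopologicalSpace X] (S : Set X) (β : ℤ) : Prop :=
  ∀ (V Z : Set X) (e : ℤ), IsOpen V → IsOpen (V \ Z) → Z ⊆ S → FTO (Z ∩ V) e →
    ∀ i ≤ β - e, (resC X ℚ 0).Van i V (V \ Z)

/-- the same with real parameters -/
def SPb (X : Type) [TopologicalSpace X] (S : Set X) (β : ℤ) : Prop :=
  ∀ j : ℕ, SP0 (X × (Fin j → ℝ)) (S ×ˢ univ) (β + j)

/-- `q` is the quotient map of an action of a finite group -/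
def FinQuo {W' W : Type} [TopologicalSpace W'] [TopologicalSpace W] (q : W' → W) : Prop :=
  IsProperMap q ∧ Function.Surjective q ∧
    ∃ (Γ : Type) (_ : Group Γ) (_ : Fintype Γ) (ρ : Γ → W' → W'), (∀ g, Continuous (ρ g)) ∧
      (∀ x, ρ 1 x = x) ∧ (∀ g h x, ρ (g * h) x = ρ g (ρ h x)) ∧
        ∀ x y, q x = q y ↔ ∃ g, ρ g x = y

/-- the surface `x y = - w ^ N` -/
abbrev Sg (N : ℕ) : Type := {p : ℂ × ℂ × ℂ // p.2.1 * p.2.2 = -p.1 ^ N}

/-- matrices with a marked simple root of `A`; the other roots are nonzero -/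
abbrev HS (N k : ℕ) : Type :=
  {x : FM N (k + 1) × ℂ // x.1.a.eval x.2 = 0 ∧ (x.1.a /ₘ (X - C x.2)).eval x.2 ≠ 0 ∧
    (x.1.a /ₘ (X - C x.2)).eval 0 ≠ 0}

/-- the projective line as the rank one orthogonal projections `(a, w; conj w, 1 - a)` -/
abbrev P1 : Type := {p : ℝ × ℂ // Complex.normSq p.2 = p.1 * (1 - p.1)}

/-- the rows of `p M` are divisible by `X ^ n` -/
def Kil {N k : ℕ} (p : P1) (M : FM N k) (n : ℕ) : Prop :=
  ∀ j, X ^ n ∣ C (p.1.1 : ℂ) * M.1 0 j + C p.1.2 * M.1 1 j ∧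
    X ^ n ∣ C ((starRingEnd ℂ) p.1.2) * M.1 0 j + C (1 - (p.1.1 : ℂ)) * M.1 1 j

/-- the blow-up -/
abbrev FT (N k : ℕ) : Type := {x : FM N k × P1 // Kil x.2 x.1 1}

end C73
end
end

section
/-! Block V, part 1: continuous families of polynomials, basic facts on `FM`. -/

open Set Filter Topology TopologicalSpace Polynomial

noncomputable section
namespace C73

section
variable {Y Y' : Type} [TopologicalSpace Y] [TopologicalSpace Y'] {f g : Y → ℂ[X]}
theorem CP.const (p : ℂ[X]) : CP fun _ : Y => p :=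
  ⟨⟨p.natDegree, fun _ => le_rfl⟩, fun _ => continuous_const⟩
theorem CP.C {u : Y → ℂ} (hu : Continuous u) : CP fun y => C (u y) :=
  ⟨⟨0, fun y => (natDegree_C _).le⟩, fun n => by
    simp only [coeff_C]
    split_ifs
    exacts [hu, continuous_const]⟩
theorem CP.add (hf : CP f) (hg : CP g) : CP fun y => f y + g y := by
  obtain ⟨⟨n, hn⟩, h1⟩ := hf
  obtain ⟨⟨m, hm⟩, h2⟩ := hg
  exact ⟨⟨max n m, fun y => (natDegree_add_le _ _).trans (max_le_max (hn y) (hm y))⟩, fun i => by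
    simp only [coeff_add]; exact (h1 i).add (h2 i)⟩
theorem CP.neg (hf : CP f) : CP fun y => -f y := by
  obtain ⟨⟨n, hn⟩, h1⟩ := hf
  exact ⟨⟨n, fun y => by rw [natDegree_neg]; exact hn y⟩, fun i => by
    simp only [coeff_neg]; exact (h1 i).neg⟩
theorem CP.sub (hf : CP f) (hg : CP g) : CP fun y => f y - g y := by
  simpa only [sub_eq_add_neg] using hf.add hg.neg
theorem CP.mul (hf : CP f) (hg : CP g) : CP fun y => f y * g y := by
  obtain ⟨⟨n, hn⟩, h1⟩ := hf
  obtain ⟨⟨m, hm⟩, h2⟩ := hg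
  exact ⟨⟨n + m, fun y => natDegree_mul_le.trans (add_le_add (hn y) (hm y))⟩, fun i => by
    simp only [coeff_mul]
    exact continuous_finsetSum _ fun a _ => (h1 _).mul (h2 _)⟩
theorem CP.comp (hf : CP f) {u : Y' → Y} (hu : Continuous u) : CP fun y => f (u y) :=
  ⟨hf.1.imp fun _ h y => h (u y), fun n => (hf.2 n).comp hu⟩
theorem CP.coeff (hf : CP f) (n : ℕ) : Continuous fun y => (f y).coeff n := hf.2 n
theorem CP.eval (hf : CP f) {u : Y → ℂ} (hu : Continuous u) :
    Continuous fun y => (f y).eval (u y) := by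
  obtain ⟨⟨n, hn⟩, h1⟩ := hf
  have : (fun y => (f y).eval (u y)) =
      fun y => ∑ i ∈ Finset.range (n + 1), (f y).coeff i * u y ^ i :=
    funext fun y => eval_eq_sum_range' (Nat.lt_succ_of_le (hn y)) _
  rw [this]
  exact continuous_finsetSum _ fun i _ => (h1 i).mul (hu.pow i)

theorem iv1_div (hg : CP g) {k : ℕ} (hm : ∀ y, (g y).Monic) (hk : ∀ y, (g y).natDegree = k)
    (n : ℕ) : ∀ {f : Y → ℂ[X]}, CP f → (∀ y, (f y).degree < (k + n : ℕ)) →
      CP fun y => f y /ₘ g y := by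
  have hd : ∀ y, (g y).degree = k := fun y => by rw [degree_eq_natDegree (hm y).ne_zero, hk]
  induction n with
  | zero =>
    intro f _ h
    have : (fun y => f y /ₘ g y) = fun _ => 0 := funext fun y =>
      (divByMonic_eq_zero_iff (hm y)).2 (by rw [hd]; exact h y)
    rw [this]; exact CP.const 0
  | succ n ih =>
    intro f hf h
    have h1 : CP fun y => Polynomial.C ((f y).coeff (k + n)) * X ^ n :=
      (CP.C (hf.coeff _)).mul (CP.const _)
    have h2 := ih (hf.sub (hg.mul h1)) fun y => by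
      rw [degree_lt_iff_coeff_zero]
      intro m hm'
      rw [coeff_sub, ← mul_assoc, coeff_mul_X_pow', if_pos (by omega), coeff_mul_C]
      rcases hm'.eq_or_lt with rfl | hm'
      · have := (hm y).coeff_natDegree
        rw [hk] at this
        rw [Nat.add_sub_cancel, this, one_mul, sub_self]
      · rw [coeff_eq_zero_of_natDegree_lt (p := g y) (by rw [hk]; omega), zero_mul, sub_zero]
        exact coeff_eq_zero_of_degree_lt ((h y).trans_le (by exact_mod_cast hm'))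
    have : (fun y => f y /ₘ g y) = fun y =>
        (f y - g y * (Polynomial.C ((f y).coeff (k + n)) * X ^ n)) /ₘ g y +
          Polynomial.C ((f y).coeff (k + n)) * X ^ n := funext fun y => by
      refine (div_modByMonic_unique _ _ (hm y) ⟨?_, degree_modByMonic_lt
        (f y - g y * (Polynomial.C ((f y).coeff (k + n)) * X ^ n)) (hm y)⟩).1
      rw [mul_add, ← add_assoc, modByMonic_add_div, sub_add_cancel]
    rw [this]; exact h2.add h1

theorem CP.divByMonic (hf : CP f) (hg : CP g) {k : ℕ} (hm : ∀ y, (g y).Monic)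
    (hk : ∀ y, (g y).natDegree = k) : CP fun y => f y /ₘ g y := by
  obtain ⟨n, hn⟩ := hf.1
  refine iv1_div hg hm hk (n + 1) hf fun y => (degree_le_of_natDegree_le (hn y)).trans_lt ?_
  exact_mod_cast (by omega : n < k + (n + 1))
theorem CP.modByMonic (hf : CP f) (hg : CP g) {k : ℕ} (hm : ∀ y, (g y).Monic)
    (hk : ∀ y, (g y).natDegree = k) : CP fun y => f y %ₘ g y := by
  simp only [modByMonic_eq_sub_mul_div]
  exact hf.sub (hg.mul (hf.divByMonic hg hm hk))
theorem CP.div_X_sub_C (hf : CP f) {u : Y → ℂ} (hu : Continuous u) :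
    CP fun y => f y /ₘ (X - Polynomial.C (u y)) :=
  hf.divByMonic ((CP.const _).sub (CP.C hu)) (fun _ => monic_X_sub_C _)
    fun _ => natDegree_X_sub_C _
theorem CP.divX (hf : CP f) : CP fun y => (f y).divX :=
  ⟨hf.1.imp fun _ h y => natDegree_divX_le.trans (h y), fun n => by
    simpa only [coeff_divX] using hf.2 (n + 1)⟩
theorem CP.isClosed_dvd (hf : CP f) (n : ℕ) : IsClosed {y | X ^ n ∣ f y} := by
  simp only [X_pow_dvd_iff, ofPred_forall]
  exact isClosed_iInter fun d => isClosed_iInter fun _ => isClosed_eq (hf.2 d) continuous_const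

theorem iv1_emb {f : Y' → Y} (hf : Continuous f) {U : Set Y}
    (hfU : ∀ y, f y ∈ U) {g : U → Y'} (hg : Continuous g) (h1 : ∀ y, g ⟨f y, hfU y⟩ = y)
    (h2 : ∀ x, f (g x) = x) : IsEmbedding f ∧ range f = U := by
  refine ⟨?_, Subset.antisymm (range_subset_iff.2 hfU) fun x hx => ⟨g ⟨x, hx⟩, h2 _⟩⟩
  have : IsEmbedding (U.codRestrict f hfU) :=
    Function.LeftInverse.isEmbedding (f := g) h1 hg (hf.codRestrict hfU)
  exact IsEmbedding.subtypeVal.comp this

/-- a continuous map with a continuous inverse on an open set -/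
theorem openEmb_of_inv {f : Y' → Y} (hf : Continuous f) {U : Set Y} (hU : IsOpen U)
    (hfU : ∀ y, f y ∈ U) {g : U → Y'} (hg : Continuous g) (h1 : ∀ y, g ⟨f y, hfU y⟩ = y)
    (h2 : ∀ x, f (g x) = x) : IsOpenEmbedding f ∧ range f = U :=
  have h := iv1_emb hf hfU hg h1 h2
  ⟨⟨h.1, h.2 ▸ hU⟩, h.2⟩
/-- a continuous map with a continuous inverse on a closed set -/
theorem closedEmb_of_inv {f : Y' → Y} (hf : Continuous f) {U : Set Y} (hU : IsClosed U)
    (hfU : ∀ y, f y ∈ U) {g : U → Y'} (hg : Continuous g) (h1 : ∀ y, g ⟨f y, hfU y⟩ = y)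
    (h2 : ∀ x, f (g x) = x) : IsClosedEmbedding f ∧ range f = U :=
  have h := iv1_emb hf hfU hg h1 h2
  ⟨⟨h.1, h.2 ▸ hU⟩, h.2⟩

variable {N k : ℕ}

theorem iv1_deg (M : FM N k) (i j : Fin 2) : (M.1 i j).natDegree ≤ N + k := by
  have hb : M.b.natDegree ≤ k := natDegree_le_of_degree_le M.b_degree.le
  have hc : M.c.natDegree ≤ k := natDegree_le_of_degree_le M.c_degree.le
  revert i j
  rw [FM.forall_entry (p := fun p => p.natDegree ≤ N + k), M.a_natDegree]
  refine ⟨by omega, by omega, by omega, ?_⟩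
  by_cases hd : M.d = 0
  · simp [hd]
  have h1 := M.a_monic.natDegree_mul' hd
  rw [M.a_natDegree, sub_eq_iff_eq_add.1 M.det_eq] at h1
  have h2 := natDegree_add_le (X ^ N : ℂ[X]) (M.b * M.c)
  have h3 := natDegree_mul_le (p := M.b) (q := M.c)
  rw [natDegree_X_pow] at h2
  omega

theorem iv1_cont_iff {F : Y → FM N k} :
    Continuous F ↔ ∀ i j n, Continuous fun y => ((F y).1 i j).coeff n := by
  rw [continuous_induced_rng]
  simp only [continuous_pi_iff]
  rfl

theorem FM.cp (i j : Fin 2) : CP fun M : FM N k => M.1 i j :=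
  ⟨⟨N + k, fun M => iv1_deg M i j⟩, iv1_cont_iff.1 continuous_id i j⟩
theorem FM.cp_comp {F : Y → FM N k} (hF : Continuous F) (i j : Fin 2) :
    CP fun y => (F y).1 i j := (FM.cp i j).comp hF
theorem FM.cont_of_cp {F : Y → FM N k} (ha : CP fun y => (F y).a) (hb : CP fun y => (F y).b)
    (hc : CP fun y => (F y).c) (hd : CP fun y => (F y).d) : Continuous F := by
  rw [iv1_cont_iff]
  simp only [Fin.forall_fin_two]
  exact ⟨⟨ha.2, hb.2⟩, hc.2, hd.2⟩
end

variable {N k : ℕ}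

/-- polynomial with given coefficients -/
def iv1_poly {n : ℕ} (u : Fin n → ℂ) : ℂ[X] := ∑ i, C (u i) * X ^ (i : ℕ)

theorem iv1_poly_coeff {n : ℕ} (u : Fin n → ℂ) (i : Fin n) : (iv1_poly u).coeff i = u i := by
  simp only [iv1_poly, finsetSum_coeff, coeff_C_mul_X_pow, Fin.val_inj]
  simp only [Finset.sum_ite_eq, Finset.mem_univ, ↓ reduceIte]

theorem iv1_poly_eq {n : ℕ} {p : ℂ[X]} (h : p.natDegree < n) :
    iv1_poly (fun i : Fin n => p.coeff i) = p := by
  rw [iv1_poly, Fin.sum_univ_eq_sum_range (fun i => C (p.coeff i) * X ^ i), eq_comm]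
  exact as_sum_range_C_mul_X_pow' p h

theorem iv1_poly_cp {Y : Type} [TopologicalSpace Y] {n : ℕ} {u : Y → Fin n → ℂ}
    (hu : Continuous u) : CP fun y => iv1_poly (u y) := by
  unfold iv1_poly
  induction (Finset.univ : Finset (Fin n)) using Finset.induction_on with
  | empty => simpa using CP.const (Y := Y) 0
  | insert a s ha ih =>
    simp only [Finset.sum_insert ha]
    exact ((CP.C ((continuous_apply a).comp hu)).mul (CP.const _)).add ih

theorem iv1_cp_closed_eq {Y : Type} [TopologicalSpace Y] {f g : Y → ℂ[X]} (hf : CP f) (hg : CP g) :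
    IsClosed {y | f y = g y} := by
  simp only [Polynomial.ext_iff, ofPred_forall]
  exact isClosed_iInter fun n => isClosed_eq (hf.2 n) (hg.2 n)

theorem iv1_cp_closed_deg {Y : Type} [TopologicalSpace Y] {f : Y → ℂ[X]} (hf : CP f) (n : ℕ) :
    IsClosed {y | (f y).degree < n} := by
  simp only [degree_lt_iff_coeff_zero, ofPred_forall]
  exact isClosed_iInter fun d => isClosed_iInter fun _ => isClosed_eq (hf.2 d) continuous_const

theorem iv1_monic {p : ℂ[X]} : p.Monic ∧ p.natDegree = k ↔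
    (p - X ^ k : ℂ[X]).degree < (k : WithBot ℕ) := by
  constructor
  · rintro ⟨h1, h2⟩
    have h3 : p.degree = k := by rw [degree_eq_natDegree h1.ne_zero, h2]
    have := degree_sub_lt_left (q := X ^ k) (by rw [h3, degree_X_pow]) h1.ne_zero
      (by rw [h1, leadingCoeff_X_pow])
    rwa [h3] at this
  · intro h
    have e : p = X ^ k + (p - X ^ k) := by ring
    have h' : (p - X ^ k).degree < (X ^ k : ℂ[X]).degree := by rwa [degree_X_pow]
    rw [e]
    exact ⟨(monic_X_pow k).add_of_left h', by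
      rw [natDegree_add_eq_left_of_degree_lt h', natDegree_X_pow]⟩

instance v_fm_nice (N k : ℕ) : Nice (FM N k) := by
  let E := Fin 2 → Fin 2 → Fin (N + k + 1) → ℂ
  have : Nice E := {}
  have hp : ∀ i j, CP fun u : E => iv1_poly (u i j) := fun i j => iv1_poly_cp (by fun_prop)
  let U : Set E := {u | (iv1_poly (u 0 0) - X ^ k : ℂ[X]).degree < (k : WithBot ℕ) ∧
    (iv1_poly (u 0 1)).degree < k ∧
    (iv1_poly (u 1 0)).degree < k ∧
    iv1_poly (u 0 0) * iv1_poly (u 1 1) - iv1_poly (u 0 1) * iv1_poly (u 1 0) = X ^ N}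
  have hU : IsClosed U := (iv1_cp_closed_deg ((hp 0 0).sub (CP.const _)) k).inter
    ((iv1_cp_closed_deg (hp 0 1) k).inter ((iv1_cp_closed_deg (hp 1 0) k).inter
      (iv1_cp_closed_eq (((hp 0 0).mul (hp 1 1)).sub ((hp 0 1).mul (hp 1 0))) (CP.const _))))
  let f : FM N k → E := fun M i j n => (M.1 i j).coeff n
  have hf : ∀ M i j, iv1_poly (f M i j) = M.1 i j := fun M i j =>
    iv1_poly_eq (Nat.lt_succ_of_le (iv1_deg M i j))
  let g : U → FM N k := fun u => FM.mk _ _ _ _ (iv1_monic.2 u.2.1).1 (iv1_monic.2 u.2.1).2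
    u.2.2.1 u.2.2.2.1 u.2.2.2.2
  refine nice_of_closedEmb (closedEmb_of_inv (f := f) ?_ hU (fun M => ?_) (g := g) ?_
    (fun M => FM.ext3 (hf M 0 0) (hf M 0 1) (hf M 1 0)) fun u => ?_).1
  · exact continuous_pi fun i => continuous_pi fun j => continuous_pi fun n => (FM.cp i j).coeff n
  · simp only [U, mem_ofPred_eq, hf]
    exact ⟨iv1_monic.1 ⟨M.a_monic, M.a_natDegree⟩, M.b_degree, M.c_degree, M.det_eq⟩
  · exact FM.cont_of_cp ((hp 0 0).comp continuous_subtype_val) ((hp 0 1).comp continuous_subtype_val)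
      ((hp 1 0).comp continuous_subtype_val) ((hp 1 1).comp continuous_subtype_val)
  · funext i j n
    fin_cases i <;> fin_cases j <;> exact iv1_poly_coeff _ _

theorem iv1_le {c : ℕ} (M : FM N k) (h : ∀ i j, X ^ c ∣ M.1 i j) : c ≤ k ∧ 2 * c ≤ N := by
  constructor
  · have := natDegree_le_of_dvd (h 0 0) M.a_monic.ne_zero
    rwa [natDegree_X_pow, M.a_natDegree] at this
  · have h1 : (X ^ (2 * c) : ℂ[X]) ∣ X ^ N := by
      rw [← M.det_eq, two_mul, pow_add]
      exact dvd_sub (mul_dvd_mul (h 0 0) (h 1 1)) (mul_dvd_mul (h 0 1) (h 1 0))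
    have := natDegree_le_of_dvd h1 (monic_X_pow N).ne_zero
    rwa [natDegree_X_pow, natDegree_X_pow] at this

theorem v_le_val {c : ℕ} (M : FM N k) : c ≤ M.val ↔ ∀ i j, X ^ c ∣ M.1 i j := by
  have hb : BddAbove {c | ∀ i j, X ^ c ∣ M.1 i j} := ⟨k, fun c hc => (iv1_le M hc).1⟩
  refine ⟨fun h i j => (pow_dvd_pow _ h).trans ?_, fun h => le_csSup hb h⟩
  exact Nat.sSup_mem (s := {c | ∀ i j, X ^ c ∣ M.1 i j}) ⟨0, fun _ _ => by simp⟩ hb i j
theorem v_val_le (M : FM N k) : M.val ≤ k ∧ 2 * M.val ≤ N := iv1_le M ((v_le_val M).1 le_rfl)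
theorem FM.isClosed_le_val (c : ℕ) : IsClosed {M : FM N k | c ≤ M.val} := by
  simp only [v_le_val, ofPred_forall]
  exact isClosed_iInter fun i => isClosed_iInter fun j => (FM.cp i j).isClosed_dvd c
theorem FM.val_eq_zero (M : FM N k) (h : M.a.eval 0 ≠ 0) : M.val = 0 := by
  by_contra h0
  have := (v_le_val M).1 (Nat.one_le_iff_ne_zero.2 h0) 0 0
  rw [pow_one, X_dvd_iff, coeff_zero_eq_eval_zero] at this
  exact h this
theorem FM.subsingleton_zero (M M' : FM N 0) : M = M' := by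
  have h : ∀ p : ℂ[X], p.degree < (0 : ℕ) → p = 0 := fun p hp => by
    rwa [Nat.cast_zero, Nat.WithBot.lt_zero_iff, degree_eq_bot] at hp
  refine FM.ext3 ?_ ?_ ?_
  · rw [M.a_monic.natDegree_eq_zero.1 M.a_natDegree, M'.a_monic.natDegree_eq_zero.1 M'.a_natDegree]
  · rw [h _ M.b_degree, h _ M'.b_degree]
  · rw [h _ M.c_degree, h _ M'.c_degree]

end C73
end
end

section
/-! Block V, part 2: the maps `tr`, `sh`, `up`, `sc`; moves. -/

open Set Filter Topology TopologicalSpace Polynomial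

noncomputable section
namespace C73
namespace FM
variable {N k : ℕ}

theorem continuous_tr : Continuous (tr : FM N k → FM N k) :=
  cont_of_cp (cp 0 0) (cp 1 0) (cp 0 1) (cp 1 1)
theorem tr_tr (M : FM N k) : M.tr.tr = M := ext3 rfl rfl rfl
theorem iv2_le_val {c : ℕ} (M : FM N k) :
    c ≤ M.val ↔ X ^ c ∣ M.a ∧ X ^ c ∣ M.b ∧ X ^ c ∣ M.c ∧ X ^ c ∣ M.d :=
  (v_le_val M).trans (forall_entry (p := fun q => X ^ c ∣ q))
theorem val_tr (M : FM N k) : M.tr.val = M.val :=
  eq_of_forall_le_iff fun c => by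
    rw [iv2_le_val, iv2_le_val]
    exact ⟨fun h => ⟨h.1, h.2.2.1, h.2.1, h.2.2.2⟩, fun h => ⟨h.1, h.2.2.1, h.2.1, h.2.2.2⟩⟩
theorem continuous_sh : Continuous fun p : ℂ × FM N k => sh p.1 p.2 := by
  have h := cp_comp (continuous_snd : Continuous fun p : ℂ × FM N k => p.2)
  have hs := CP.C (continuous_fst : Continuous fun p : ℂ × FM N k => p.1)
  have hA := (h 0 0).add (hs.mul (h 1 0))
  have hB := (h 0 1).add (hs.mul (h 1 1))
  exact cont_of_cp hA (hB.modByMonic hA (fun p => sh_monic p.1 p.2) fun p => sh_natDegree p.1 p.2)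
    (h 1 0) ((h 1 1).sub ((hB.divByMonic hA (fun p => sh_monic p.1 p.2)
      fun p => sh_natDegree p.1 p.2).mul (h 1 0)))
theorem sh_zero (M : FM N k) : sh 0 M = M := by
  refine ext3 (by simp [sh]) ?_ rfl
  simp only [sh, mk_b, C_0, zero_mul, add_zero]
  exact (modByMonic_eq_self_iff M.a_monic).2 (M.a_degree ▸ M.b_degree)
/-- `ext3`; `b`: `(B - q A) %ₘ A = B` -/
theorem sh_sh (s t : ℂ) (M : FM N k) : sh s (sh t M) = sh (s + t) M := by
  have e : M.a + C t * M.c + C s * M.c = M.a + C (s + t) * M.c := by rw [C_add]; ring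
  refine ext3 ?_ ?_ ?_ <;> simp only [sh, mk_a, mk_b, mk_c, mk_d]
  · exact e
  rw [e]
  refine modByMonic_eq_of_dvd_sub (sh_monic _ M)
    ⟨-((M.b + C t * M.d) /ₘ (M.a + C t * M.c)), ?_⟩
  rw [modByMonic_eq_sub_mul_div, C_add]; ring
theorem iv2_val_sh (s : ℂ) (M : FM N k) : M.val ≤ (sh s M).val := by
  obtain ⟨ha, hb, hc, hd⟩ := (iv2_le_val M).1 le_rfl
  have hA := ha.add (hc.mul_left (C s))
  refine (iv2_le_val _).2 ⟨hA, ?_, hc, hd.sub (hc.mul_left _)⟩
  simp only [sh, mk_b]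
  rw [modByMonic_eq_sub_mul_div]
  exact (hb.add (hd.mul_left _)).sub (hA.mul_right _)
theorem val_sh (s : ℂ) (M : FM N k) : (sh s M).val = M.val :=
  le_antisymm (by simpa [sh_sh, sh_zero] using iv2_val_sh (-s) (sh s M)) (iv2_val_sh s M)
theorem continuous_sl : Continuous (sl : FM N k → ℂ) := ((CP.const X).mul (cp 1 0)).coeff k
theorem continuous_up : Continuous (up : FM N k → FM (N + 1) k) :=
  cont_of_cp (cp 0 0) (cp 0 1)
    (((CP.const X).mul (cp 1 0)).sub ((CP.C continuous_sl).mul (cp 0 0)))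
    (((CP.const X).mul (cp 1 1)).sub ((CP.C continuous_sl).mul (cp 0 1)))
theorem iv2_le_sc (l c : ℕ) (M : FM N k) : c + l ≤ (sc l M).val ↔ c ≤ M.val := by
  simp only [iv2_le_val, sc, mk_a, mk_b, mk_c, mk_d, pow_add, mul_comm (X ^ c : ℂ[X]),
    mul_dvd_mul_iff_left (monic_X_pow (R := ℂ) l).ne_zero]
theorem iv2_div {l : ℕ} {p : ℂ[X]} (h : X ^ l ∣ p) : X ^ l * (p /ₘ X ^ l) = p := by
  obtain ⟨q, rfl⟩ := h
  rw [mul_divByMonic_cancel_left _ (monic_X_pow l)]
theorem iv2_deg {l : ℕ} {p : ℂ[X]} (h : X ^ l ∣ p) (hp : p.degree < ((k + l : ℕ) : WithBot ℕ)) :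
    (p /ₘ X ^ l).degree < k := by
  rw [← iv2_div h, degree_mul, degree_X_pow, add_comm, Nat.cast_add] at hp
  exact (WithBot.add_lt_add_iff_right (by simp)).1 hp
/-- `closedEmb_of_inv` with `/ₘ X ^ l` -/
theorem sc_emb (l : ℕ) : IsClosedEmbedding (sc l : FM N k → FM (N + 2 * l) (k + l)) ∧
    range (sc l : FM N k → FM (N + 2 * l) (k + l)) = {M | l ≤ M.val} := by
  have hc : Continuous (sc l : FM N k → FM (N + 2 * l) (k + l)) :=
    cont_of_cp ((CP.const _).mul (cp 0 0)) ((CP.const _).mul (cp 0 1)) ((CP.const _).mul (cp 1 0))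
      ((CP.const _).mul (cp 1 1))
  have hd := fun M : {M : FM (N + 2 * l) (k + l) | l ≤ M.val} => (iv2_le_val M.1).1 M.2
  have hq := fun i j => (cp_comp (continuous_subtype_val :
    Continuous fun M : {M : FM (N + 2 * l) (k + l) | l ≤ M.val} => M.1) i j).divByMonic
      (CP.const (X ^ l)) (fun _ => monic_X_pow l) fun _ => natDegree_X_pow l
  refine closedEmb_of_inv hc (isClosed_le_val l)
    (fun M => by simpa using (iv2_le_sc l 0 M).2 (Nat.zero_le _))
    (g := fun M => mk (M.1.a /ₘ X ^ l) (M.1.b /ₘ X ^ l) (M.1.c /ₘ X ^ l) (M.1.d /ₘ X ^ l)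
      ((monic_X_pow l).of_mul_monic_left (by rw [iv2_div (hd M).1]; exact M.1.a_monic))
      (by rw [natDegree_divByMonic _ (monic_X_pow l), M.1.a_natDegree, natDegree_X_pow]; omega)
      (iv2_deg (hd M).2.1 M.1.b_degree) (iv2_deg (hd M).2.2.1 M.1.c_degree) ?_)
    (cont_of_cp (hq 0 0) (hq 0 1) (hq 1 0) (hq 1 1)) (fun M => ?_)
    fun M => ext3 (iv2_div (hd M).1) (iv2_div (hd M).2.1) (iv2_div (hd M).2.2.1)
  · have h := M.1.det_eq
    rw [← iv2_div (hd M).1, ← iv2_div (hd M).2.1, ← iv2_div (hd M).2.2.1,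
      ← iv2_div (hd M).2.2.2] at h
    refine mul_left_cancel₀ (monic_X_pow (R := ℂ) (2 * l)).ne_zero ?_
    rw [← pow_add, add_comm (2 * l), ← h]; ring
  · exact ext3 (mul_divByMonic_cancel_left _ (monic_X_pow l))
      (mul_divByMonic_cancel_left _ (monic_X_pow l)) (mul_divByMonic_cancel_left _ (monic_X_pow l))
theorem val_sc (l : ℕ) (M : FM N k) : (sc l M).val = M.val + l := by
  have h1 := (iv2_le_sc l M.val M).2 le_rfl
  have h2 := (iv2_le_sc l (M.val + 1) M).1
  omega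

theorem iv2_cont (s : ℂ) : Continuous (sh s : FM N k → FM N k) := by
  simpa only [Function.comp_def] using continuous_sh.comp (Continuous.prodMk_right (Y := FM N k) s)

/-- the shear as a homeomorphism -/
def iv2_sh (s : ℂ) : FM N k ≃ₜ FM N k where
  toFun := sh s
  invFun := sh (-s)
  left_inv M := by rw [sh_sh, neg_add_cancel, sh_zero]
  right_inv M := by rw [sh_sh, add_neg_cancel, sh_zero]
  continuous_toFun := iv2_cont s
  continuous_invFun := iv2_cont (-s)

/-- the transpose as a homeomorphism -/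
def iv2_tr : FM N k ≃ₜ FM N k := ⟨⟨tr, tr, tr_tr, tr_tr⟩, continuous_tr, continuous_tr⟩

/-- the coefficient matrix of `X ^ val` is nonzero; use `id`, `sh 1`, `sh 1 ∘ tr` or
`sh 1 ∘ tr ∘ sh 1` -/
theorem move (M : FM N k) : ∃ g : FM N k ≃ₜ FM N k, (∀ M', (g M').val = M'.val) ∧
    (g M).a.coeff M.val ≠ 0 := by
  by_cases ha : M.a.coeff M.val = 0
  swap
  · exact ⟨.refl _, fun _ => rfl, ha⟩
  by_cases hc : M.c.coeff M.val = 0
  swap
  · refine ⟨iv2_sh 1, val_sh 1, ?_⟩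
    show (M.a + C 1 * M.c).coeff M.val ≠ 0
    simpa [ha] using hc
  by_cases hb : M.b.coeff M.val = 0
  swap
  · refine ⟨iv2_tr.trans (iv2_sh 1), fun M' => (val_sh 1 _).trans (val_tr M'), ?_⟩
    show (M.a + C 1 * M.b).coeff M.val ≠ 0
    simpa [ha] using hb
  have key : ∀ p : ℂ[X], X ^ M.val ∣ p → p.coeff M.val = 0 → X ^ (M.val + 1) ∣ p := fun p h h' =>
    X_pow_dvd_iff.2 fun d hd => (Nat.lt_succ_iff_lt_or_eq.1 hd).elim (X_pow_dvd_iff.1 h d) (· ▸ h')
  obtain ⟨h1, h2, h3, h4⟩ := (iv2_le_val M).1 le_rfl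
  have hd : M.d.coeff M.val ≠ 0 := fun hd => Nat.not_succ_le_self _
    ((iv2_le_val M).2 ⟨key _ h1 ha, key _ h2 hb, key _ h3 hc, key _ h4 hd⟩)
  refine ⟨(iv2_sh 1).trans (iv2_tr.trans (iv2_sh 1)),
    fun M' => (val_sh 1 _).trans ((val_tr _).trans (val_sh 1 M')), ?_⟩
  show (M.a + C 1 * M.c + C 1 * ((M.b + C 1 * M.d) %ₘ (M.a + C 1 * M.c))).coeff M.val ≠ 0
  have h5 := X_pow_dvd_iff.1 (((key _ h1 ha).add ((key _ h3 hc).mul_left (C 1))).mul_right
    ((M.b + C 1 * M.d) /ₘ (M.a + C 1 * M.c))) M.val (Nat.lt_succ_self _)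
  rw [modByMonic_eq_sub_mul_div, coeff_add, coeff_C_mul, coeff_sub, h5]
  simpa [ha, hb, hc] using hd
end FM

end C73
end
end

section
/-! Block V, part 9: generic points, dimension of the strata. -/

open Set Filter Topology TopologicalSpace Polynomial

noncomputable section
namespace C73
namespace FM
variable {N k : ℕ}

theorem iv9_cop {a b c d : ℂ[X]} {n : ℕ} (h : a * d - b * c = X ^ n) (h0 : a.eval 0 ≠ 0) :
    IsCoprime a c := by
  have h1 : IsCoprime a (X ^ n) := by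
    refine IsCoprime.pow_right (IsCoprime.symm ?_)
    rw [irreducible_X.coprime_iff_not_dvd, X_dvd_iff, coeff_zero_eq_eval_zero]
    exact h0
  rw [← h, sub_eq_neg_add, IsCoprime.add_mul_left_right_iff, IsCoprime.neg_right_iff] at h1
  exact h1.of_mul_right_right

theorem finite_bad (M : FM N k) (h : M.a.eval 0 ≠ 0) :
    {s : ℂ | ¬ ((sh s M).a.Separable ∧ (sh s M).a.eval 0 ≠ 0)}.Finite := by
  have hc := iv9_cop M.det_eq h
  rcases Nat.eq_zero_or_pos k with rfl | hk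
  · refine finite_empty.subset fun s hs => hs ?_
    rw [(sh s M).a_monic.natDegree_eq_zero.1 (sh s M).a_natDegree]
    exact ⟨separable_one, by simp⟩
  have hW : derivative M.a * M.c - M.a * derivative M.c ≠ 0 := fun h0 => by
    have h1 : M.a ∣ derivative M.a := hc.dvd_of_dvd_mul_right ⟨_, sub_eq_zero.1 h0⟩
    have h2 := eq_zero_of_dvd_of_natDegree_lt h1
      (natDegree_derivative_lt (by rw [M.a_natDegree]; omega))
    have := derivative_eq_zero.1 h2
    rw [M.a_natDegree] at this; omega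
  refine (((finite_setOfPred_isRoot hW).insert 0).image
    fun w => -M.a.eval w / M.c.eval w).subset fun s hs => ?_
  have key : ∀ w, (M.a + C s * M.c).eval w = 0 → -M.a.eval w / M.c.eval w = s := fun w hw => by
    rw [eval_add, eval_mul, eval_C] at hw
    have : M.c.eval w ≠ 0 := fun h0 => by
      obtain ⟨u, v, huv⟩ := hc
      have := congrArg (eval w) huv
      rw [h0, mul_zero, add_zero] at hw
      simp only [eval_add, eval_mul, hw, mul_zero, h0, add_zero, eval_one, zero_ne_one] at this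
    field_simp
    linear_combination -hw
  by_cases h0 : (sh s M).a.eval 0 = 0
  · exact ⟨0, mem_insert _ _, key 0 h0⟩
  have h1 : ¬ IsCoprime (M.a + C s * M.c) (derivative (M.a + C s * M.c)) := fun h1 => hs ⟨h1, h0⟩
  rw [Polynomial.isCoprime_iff_aeval_ne_zero_of_isAlgClosed ℂ ℂ] at h1
  push Not at h1
  obtain ⟨w, h2, h3⟩ := h1
  rw [coe_aeval_eq_eval] at h2 h3
  refine ⟨w, mem_insert_of_mem _ ?_, key w h2⟩
  simp only [derivative_add, derivative_C_mul, eval_add, eval_mul, eval_C] at h2 h3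
  simp only [mem_ofPred_eq, IsRoot, eval_sub, eval_mul]
  linear_combination eval w M.c * h3 - eval w (derivative M.c) * h2

theorem inj_ab {c : ℕ} {M M' : FM N k} (h : c ≤ M.val) (h' : c ≤ M'.val) (h0 : M.a.coeff c ≠ 0)
    (ha : M.a = M'.a) (hb : M.b = M'.b) : M = M' := by
  obtain ⟨hsc, hr⟩ := v_val_le M
  obtain ⟨k, rfl⟩ : ∃ k', k = k' + c := ⟨k - c, by omega⟩
  obtain ⟨N, rfl⟩ : ∃ N', N = N' + 2 * c := ⟨N - 2 * c, by omega⟩
  obtain ⟨M, rfl⟩ := (sc_emb c).2.symm.subset h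
  obtain ⟨M', rfl⟩ := (sc_emb c).2.symm.subset h'
  have hX : (X ^ c : ℂ[X]) ≠ 0 := pow_ne_zero _ X_ne_zero
  have ha' : M.a = M'.a := mul_left_cancel₀ hX ha
  have hb' : M.b = M'.b := mul_left_cancel₀ hX hb
  have h1 : M.a.eval 0 ≠ 0 := by
    have : (X ^ c * M.a).coeff (0 + c) ≠ 0 := by rwa [zero_add]
    rwa [coeff_X_pow_mul, coeff_zero_eq_eval_zero] at this
  have hc : IsCoprime M.a M.b := iv9_cop (b := M.c) (by rw [mul_comm M.c, M.det_eq]) h1
  have h2 : M.a ∣ M.c - M'.c := hc.dvd_of_dvd_mul_left ⟨M.d - M'.d, by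
    have e := M.det_eq.trans M'.det_eq.symm
    rw [← ha', ← hb'] at e
    linear_combination -e⟩
  have h3 := eq_zero_of_dvd_of_degree_lt h2
    ((degree_sub_le _ _).trans_lt (by rw [M.a_degree]; exact max_lt M.c_degree M'.c_degree))
  rw [ext3 ha' hb' (sub_eq_zero.1 h3)]

theorem fto_stratum (M : FM N k) :
    ∃ U ∈ 𝓝 M, FTO (U ∩ {M' | M'.val = M.val}) (4 * ((k : ℤ) - M.val)) := by
  obtain ⟨g, hg, h0⟩ := move M
  have hk := (v_val_le M).1
  generalize M.val = c at *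
  have hcont : ∀ i j n, Continuous fun M' => ((g M').1 i j).coeff n := fun i j n =>
    (cp_comp g.continuous i j).coeff n
  refine ⟨{M' | (g M').a.coeff c ≠ 0}, (isOpen_ne_fun (hcont 0 0 c) continuous_const).mem_nhds h0, ?_⟩
  let E := (Fin (k - c) → ℂ) × (Fin (k - c) → ℂ)
  let L : E ≃L[ℝ] (Fin (4 * (k - c)) → ℝ) := ContinuousLinearEquiv.ofFinrankEq (by
    simp [E, Module.finrank_pi_fintype]; omega)
  refine ((fto_univ_pi (4 * (k - c))).mono subset_rfl (by push_cast [hk]; omega)).of_injOn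
    (fun M' => L (fun n => (g M').a.coeff (c + n), fun n => (g M').b.coeff (c + n)))
    (L.continuous.comp (Continuous.prodMk (continuous_pi fun n => hcont 0 0 _)
      (continuous_pi fun n => hcont 0 1 _))).continuousOn ?_ fun _ _ => trivial
  intro M1 h1 M2 h2 h
  have h3 := L.injective h
  have v1 : c ≤ (g M1).val := by rw [hg]; exact h1.2.ge
  have v2 : c ≤ (g M2).val := by rw [hg]; exact h2.2.ge
  have key : ∀ p q : ℂ[X], X ^ c ∣ p → X ^ c ∣ q → (∀ n : Fin (k - c), p.coeff (c + n) = q.coeff (c + n)) →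
      (∀ n, k ≤ n → p.coeff n = q.coeff n) → p = q := fun p q hp hq h4 h5 => by
    ext n
    by_cases hn : n < c
    · rw [X_pow_dvd_iff.1 hp n hn, X_pow_dvd_iff.1 hq n hn]
    by_cases hn' : k ≤ n
    · exact h5 n hn'
    have := h4 ⟨n - c, by omega⟩
    rwa [show c + (n - c) = n by omega] at this
  refine g.injective (inj_ab v1 v2 h1.1 ?_ ?_)
  · refine key _ _ ((v_le_val _).1 v1 0 0) ((v_le_val _).1 v2 0 0) (congrFun (congrArg Prod.fst h3))
      fun n hn => ?_
    rcases hn.eq_or_lt with rfl | hn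
    · rw [a_coeff, a_coeff]
    · rw [coeff_eq_zero_of_natDegree_lt (by rwa [a_natDegree]),
        coeff_eq_zero_of_natDegree_lt (by rwa [a_natDegree])]
  · refine key _ _ ((v_le_val _).1 v1 0 1) ((v_le_val _).1 v2 0 1) (congrFun (congrArg Prod.snd h3))
      fun n hn => ?_
    rw [coeff_eq_zero_of_degree_lt ((b_degree _).trans_le (by exact_mod_cast hn)),
      coeff_eq_zero_of_degree_lt ((b_degree _).trans_le (by exact_mod_cast hn))]
end FM

end C73
end
end

section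
/-! Block V, part 3: formal properties of the semi-purity predicates. -/

open Set Filter Topology TopologicalSpace

noncomputable section
namespace C73

variable {X Y : Type} [TopologicalSpace X] [TopologicalSpace Y] {S S' : Set X} {β β' : ℤ}

theorem FTO.image_emb {e : Y → X} (he : IsEmbedding e) {B : Set Y} {m : ℤ} (h : FTO B m) :
    FTO (e '' B) m := by
  rcases B.eq_empty_or_nonempty with rfl | ⟨y0, -⟩
  · exact Or.inl (image_empty _)
  have : Nonempty Y := ⟨y0⟩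
  have hl := Function.leftInverse_invFun he.injective
  refine h.of_injOn (Function.invFun e) ?_ ?_ ?_
  · refine ContinuousOn.mono (s := range e) ?_ (image_subset_range _ _)
    rw [continuousOn_iff_continuous_domRestrict, he.continuous_iff]
    have : e ∘ (range e).domRestrict (Function.invFun e) = Subtype.val :=
      funext fun x => Function.invFun_eq x.2
    rw [this]; exact continuous_subtype_val
  · rintro _ ⟨x, -, rfl⟩ _ ⟨y, -, rfl⟩ hxy
    rw [hl, hl] at hxy; rw [hxy]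
  · rintro _ ⟨x, hx, rfl⟩
    rwa [hl]
theorem SP0.mono (h : SP0 X S β) (hS : S' ⊆ S) (hβ : β' ≤ β) : SP0 X S' β' :=
  fun V Z e hV hZ hZS hF i hi => h V Z e hV hZ (hZS.trans hS) hF i (by omega)
theorem SP0.comap [Nice X] (h : SP0 X S β) {e : Y → X} (he : IsOpenEmbedding e) :
    SP0 Y (e ⁻¹' S) β := by
  intro V Z m hV hZ hZS hF i hi
  rw [resC_van_emb he.isEmbedding ℚ 0 sdiff_subset, image_sdiff he.injective]
  refine h _ _ m (he.isOpenMap _ hV) ?_ (image_subset_iff.2 hZS) ?_ i hi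
  · rw [← image_sdiff he.injective]; exact he.isOpenMap _ hZ
  · rw [← image_inter he.injective]; exact hF.image_emb he.isEmbedding
/-- only local finite-to-one maps are needed (`van_of_local`) -/
theorem SP0.van_loc (h : SP0 X S β) {V Z : Set X} {e : ℤ} (hV : IsOpen V) (hZ : IsOpen (V \ Z))
    (hS : Z ∩ V ⊆ S) (hF : ∀ x ∈ Z ∩ V, ∃ U ∈ 𝓝 x, FTO (U ∩ Z) e) :
    ∀ i ≤ β - e, (resC X ℚ 0).Van i V (V \ Z) := by
  refine van_of_local (fl_resC ℚ 0) hV hZ sdiff_subset _ fun x hx U hU => ?_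
  have hxZ : x ∈ Z := by_contra fun h => hx.2 ⟨hx.1, h⟩
  obtain ⟨W, hW, hF⟩ := hF x ⟨hxZ, hx.1⟩
  have hO : IsOpen (interior (U ∩ W) ∩ V) := isOpen_interior.inter hV
  have e1 : (interior (U ∩ W) ∩ V) ∩ (V \ Z) = (interior (U ∩ W) ∩ V) \ (Z ∩ V) := by
    ext y; simp only [mem_inter_iff, Set.mem_sdiff]; tauto
  refine ⟨_, hO, ⟨mem_interior_iff_mem_nhds.2 (inter_mem hU hW), hx.1⟩,
    fun y hy => (interior_subset hy.1).1, ?_⟩
  rw [e1]
  exact h _ _ e hO (e1 ▸ hO.inter hZ) hS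
    (hF.mono (fun y hy => ⟨(interior_subset hy.2.1).2, hy.1.1⟩) le_rfl)
theorem SP0.of_local [Nice X] (h : ∀ x ∈ S, ∃ (Y : Type) (_ : TopologicalSpace Y) (e : Y → X),
    IsOpenEmbedding e ∧ x ∈ range e ∧ SP0 Y (e ⁻¹' S) β) : SP0 X S β := by
  intro V Z m hV hZ hZS hF
  refine van_of_local (fl_resC ℚ 0) hV hZ sdiff_subset _ fun x hx U hU => ?_
  have hxZ : x ∈ Z := by_contra fun h => hx.2 ⟨hx.1, h⟩
  obtain ⟨Y, _, e, he, hxe, hY⟩ := h x (hZS hxZ)
  have hO : IsOpen (interior U ∩ V ∩ range e) := (isOpen_interior.inter hV).inter he.isOpen_range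
  refine ⟨_, hO, ⟨⟨mem_interior_iff_mem_nhds.2 hU, hx.1⟩, hxe⟩,
    fun y hy => interior_subset hy.1.1, fun i hi => ?_⟩
  have hO' : IsOpen (e ⁻¹' (interior U ∩ V)) := (isOpen_interior.inter hV).preimage he.continuous
  have := hY (e ⁻¹' (interior U ∩ V)) (e ⁻¹' Z) m hO' ?_ (preimage_mono hZS) ?_ i hi
  · rw [resC_van_emb he.isEmbedding ℚ 0 sdiff_subset, ← preimage_sdiff, image_preimage_eq_inter_range,
      image_preimage_eq_inter_range] at this
    convert this using 1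
    ext y; simp only [mem_inter_iff, Set.mem_sdiff]; tauto
  · have : e ⁻¹' (interior U ∩ V) \ e ⁻¹' Z = e ⁻¹' (interior U ∩ (V \ Z)) := by
      ext y; simp only [mem_preimage, mem_inter_iff, Set.mem_sdiff]; tauto
    rw [this]; exact (isOpen_interior.inter hZ).preimage he.continuous
  · exact hF.of_injOn e he.continuous.continuousOn he.injective.injOn fun y hy => ⟨hy.1, hy.2.2⟩
theorem SPb.mono (h : SPb X S β) (hS : S' ⊆ S) (hβ : β' ≤ β) : SPb X S' β' :=
  fun j => (h j).mono (prod_mono hS subset_rfl) (by omega)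
theorem SPb.comap [Nice X] (h : SPb X S β) {e : Y → X} (he : IsOpenEmbedding e) :
    SPb Y (e ⁻¹' S) β := fun j =>
  ((h j).comap (he.prodMap IsOpenEmbedding.id)).mono (fun y hy => ⟨hy.1, trivial⟩) le_rfl
theorem SPb.of_local [Nice X] (h : ∀ x ∈ S, ∃ (Y : Type) (_ : TopologicalSpace Y) (e : Y → X),
    IsOpenEmbedding e ∧ x ∈ range e ∧ SPb Y (e ⁻¹' S) β) : SPb X S β := by
  refine fun j => SP0.of_local fun x hx => ?_
  obtain ⟨Y, _, e, he, ⟨y, hy⟩, hY⟩ := h x.1 hx.1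
  exact ⟨Y × (Fin j → ℝ), inferInstance, Prod.map e id, he.prodMap IsOpenEmbedding.id,
    ⟨(y, x.2), Prod.ext hy rfl⟩, (hY j).mono (fun y hy => ⟨hy.1, trivial⟩) le_rfl⟩
theorem SPb.of_nhds [Nice X] (h : ∀ x ∈ S, ∃ U, IsOpen U ∧ x ∈ U ∧ SPb X U β) : SPb X S β := by
  refine SPb.of_local fun x hx => ?_
  obtain ⟨U, hU, hxU, h⟩ := h x hx
  exact ⟨U, inferInstance, Subtype.val, hU.isOpenEmbedding_subtypeVal, ⟨⟨x, hxU⟩, rfl⟩,
    (h.comap hU.isOpenEmbedding_subtypeVal).mono (fun y _ => y.2) le_rfl⟩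
theorem SPb.of_locInj [Nice X] [Nice Y] {f : Y → X} (hf : Continuous f) (ho : IsOpenMap f)
    (hi : ∀ y, ∃ U ∈ 𝓝 y, InjOn f U) (h : SPb Y univ β) : SPb X (range f) β := by
  refine SPb.of_local ?_
  rintro _ ⟨y, rfl⟩
  obtain ⟨U, hU, hi⟩ := hi y
  have hv := (isOpen_interior (s := U)).isOpenEmbedding_subtypeVal
  refine ⟨interior U, inferInstance, f ∘ Subtype.val, ?_,
    ⟨⟨y, mem_interior_iff_mem_nhds.2 hU⟩, rfl⟩, (h.comap hv).mono (fun _ _ => trivial) le_rfl⟩
  exact .of_continuous_injective_isOpenMap (hf.comp hv.continuous)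
    (fun a b hab => Subtype.ext (hi (interior_subset a.2) (interior_subset b.2) hab))
    (ho.comp hv.isOpenMap)
theorem SPb.sp0 [Nice X] (h : SPb X S β) : SP0 X S β :=
  ((h 0).comap (Homeomorph.prodUnique X (Fin 0 → ℝ)).symm.isOpenEmbedding).mono
    (fun y hy => ⟨hy, trivial⟩) (by simp)
theorem SPb.prod [Nice X] (h : SPb X S β) (E : Type) [NormedAddCommGroup E] [NormedSpace ℝ E]
    [FiniteDimensional ℝ E] : SPb (X × E) (S ×ˢ univ) (β + Module.finrank ℝ E) := by
  intro j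
  let g : (E × (Fin j → ℝ)) ≃L[ℝ] (Fin (Module.finrank ℝ E + j) → ℝ) :=
    ContinuousLinearEquiv.ofFinrankEq (by simp only [Module.finrank_prod, Module.finrank_fintype_fun_eq_card, Fintype.card_fin, Nat.add_left_cancel_iff])
  let e := (Homeomorph.prodAssoc X E (Fin j → ℝ)).trans ((Homeomorph.refl X).prodCongr g.toHomeomorph)
  exact ((h _).comap e.isOpenEmbedding).mono (fun y hy => ⟨hy.1.1, trivial⟩) (by push_cast; omega)
theorem spb_point [Nice X] [Subsingleton X] : SPb X univ (-1) := by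
  intro j
  have h : SP0 (Fin j → ℝ) univ (-1 + j) := fun V Z e hV hZ _ hF i hi =>
    sp_res j ℚ 0 hV hZ hF i (by omega)
  exact (h.comap (e := Prod.snd) (.of_continuous_injective_isOpenMap continuous_snd
    (fun a b hab => Prod.ext (Subsingleton.elim _ _) hab) isOpenMap_snd)).mono
    (fun _ _ => trivial) le_rfl

end C73
end
end

section
/-! Block V, part 4: averaging over a finite group.
Plan for `van_finQuo`: `I' := resC X' ℚ 0`; `g` acts on `I'.A` by `(resMap (hρ g) ℚ 0).f = mapL (ρ g) id`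
(commutes exactly with `d`: `dl_mapL`; `resMap_comp`, `resMap_id`). `J : PC X := I'.push q` with
`gr k` cut down to the invariant elements; `avg := |Γ|⁻¹ • ∑ g`. `N (q ⁻¹' B)` is stable under the
action (`Hom.map_N`), so `J.Fl` (`fl_push` and average the glued section) and `Van` for `I'` on
`(q ⁻¹' V, q ⁻¹' V')` gives `Van` for `J` on `(V, V')`. `s0 := (resMap q).f s0X` is invariant;
`J.ResAt 0 s0 x`: `N_push_closed`, the fibre is a finite orbit, `van_finite` (E11) in degrees `≠ 0`;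
in degree `0` elements of degree `-1` are `0` (`god_gr`) and invariance moves vanishing at one point
of the orbit to all points. `eqv_resC`, `Eqv.van_open`. -/

open Set Filter Topology TopologicalSpace

noncomputable section
namespace C73

variable {X X' Y : Type} [TopologicalSpace X] [TopologicalSpace X'] [TopologicalSpace Y]

/-- the fixed part of an exact idempotent endomorphism -/
def iv4_fix (I : PC X) (π : I.A →ₗ[ℚ] I.A) (hd : ∀ s, π (I.d s) = I.d (π s)) : PC X :=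
  { I with
    gr := fun k => I.gr k ⊓ LinearMap.eqLocus π LinearMap.id
    d_gr := fun {_ s} h => ⟨I.d_gr h.1, (hd s).trans (congrArg I.d h.2)⟩
    supp_d := fun h => I.supp_d h.1
    supp_dd := fun h => I.supp_dd h.1
    bdd := let ⟨k0, h⟩ := I.bdd; ⟨k0, fun k hk s hs => h k hk s hs.1⟩ }

section
variable {I : PC X} {π : I.A →ₗ[ℚ] I.A} {hd : ∀ s, π (I.d s) = I.d (π s)}
  (hg : ∀ k s, s ∈ I.gr k → π s ∈ I.gr k) (hi : ∀ s, π (π s) = π s)
  (hN : ∀ k s B, s ∈ I.gr k → s ∈ I.N B → π s ∈ I.N B)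
include hg hi hN

theorem iv4_fl (hI : I.Fl) : (iv4_fix I π hd).Fl := fun k κ U s hU hs h => by
  obtain ⟨t, ht, h'⟩ := hI k κ U s hU (fun i => (hs i).1) h
  refine ⟨π t, ⟨hg k t ht, hi t⟩, fun i => ?_⟩
  have := hN k _ _ (sub_mem ht (hs i).1) (h' i)
  rwa [map_sub, show π (s i) = s i from (hs i).2] at this

theorem iv4_van {k : ℤ} {C C' : Set X} (h : I.Van k C C') : (iv4_fix I π hd).Van k C C' :=
  fun s hs => by
  obtain ⟨t, ht, h1, h2⟩ := h s ⟨hs.1.1, hs.2⟩
  refine ⟨π t, ⟨hg _ t ht, hi t⟩, hN _ _ _ ht h1, ?_⟩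
  have h3 : I.d t ∈ I.gr k := by simpa using I.d_gr ht
  have := hN k _ _ (sub_mem hs.1.1 h3) h2
  rwa [map_sub, show π s = s from hs.1.2, hd] at this
end

theorem iv4_neg {t : (resC X ℚ 0).A} (ht : t ∈ (resC X ℚ 0).gr (-0 - 1)) : t = 0 := by
  obtain ⟨h0, h1⟩ := god_gr.1 ht
  funext l
  rcases l with _ | ⟨z, l⟩
  · exact h0
  · have : t (z :: l) ∈ (if (-0 - 1 - l.length : ℤ) = -0 then ⊤ else ⊥ : Submodule ℚ ℚ) := h1 z l
    rw [if_neg (by omega)] at this
    exact (Submodule.mem_bot ℚ).1 this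

theorem van_finQuo [Nice X'] {q : X' → X} (hq : FinQuo q) {V V' : Set X} (hV : IsOpen V)
    (hV' : IsOpen V') (h' : V' ⊆ V) {i : ℤ} (h : (resC X' ℚ 0).Van i (q ⁻¹' V) (q ⁻¹' V')) :
    (resC X ℚ 0).Van i V V' := by
  obtain ⟨hp, hsur, Γ, _, _, ρ, hc, h1, hm, hρ⟩ := hq
  have hcl := hp.isClosedMap
  let I := resC X' ℚ 0
  let φ := fun g => resMap (hc g) ℚ 0
  let π : I.A →ₗ[ℚ] I.A := (Fintype.card Γ : ℚ)⁻¹ • ∑ g, (φ g).f
  have hπ : ∀ s, π s = (Fintype.card Γ : ℚ)⁻¹ • ∑ g, (φ g).f s := fun s => by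
    simp only [π, LinearMap.smul_apply, LinearMap.sum_apply]
  have hφd : ∀ g s, (φ g).f (I.d s) = I.d ((φ g).f s) := fun g s => by
    show mapL (ρ g) LinearMap.id (gD (0 : ℚ →ₗ[ℚ] ℚ) s) = gD 0 (mapL (ρ g) LinearMap.id s)
    rw [gD_apply, gD_apply, dl_mapL, map_add]
    congr 1
    funext l
    simp only [mapL_apply, sgnD_apply, List.length_map, LinearMap.zero_apply, smul_eq_mul, mul_zero, LinearMap.id_coe, id_eq, smul_zero]
    rfl
  have hφm : ∀ g g' s, (φ g').f ((φ g).f s) = (φ (g * g')).f s := fun g g' s => by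
    funext l
    show s ((l.map (ρ g')).map (ρ g)) = s (l.map (ρ (g * g')))
    rw [List.map_map, show ρ (g * g') = ρ g ∘ ρ g' from funext (hm g g')]
  have hinv : ∀ g s, (φ g).f (π s) = π s := fun g s => by
    rw [hπ, map_smul, map_sum]
    simp only [hφm]
    rw [← Equiv.sum_comp (Equiv.mulRight g) fun g => (φ g).f s]
    rfl
  have hfix : ∀ s, (∀ g, (φ g).f s = s) → π s = s := fun s hs => by
    rw [hπ]
    simp only [hs]
    rw [Finset.sum_const, Finset.card_univ, ← Nat.cast_smul_eq_nsmul ℚ, smul_smul,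
      inv_mul_cancel₀ (Nat.cast_ne_zero.2 Fintype.card_ne_zero), one_smul]
  have hd : ∀ s, π ((I.push q).d s) = (I.push q).d (π s) := fun s => by
    show π (I.d s) = I.d (π s)
    rw [hπ, hπ, map_smul, map_sum]
    simp only [hφd]
  have hg : ∀ k s, s ∈ (I.push q).gr k → π s ∈ (I.push q).gr k := fun k s hs => by
    show π s ∈ I.gr k
    rw [hπ]
    exact Submodule.smul_mem _ _ (Submodule.sum_mem _ fun g _ => (φ g).gr hs)
  have hi : ∀ s, π (π s) = π s := fun s => hfix _ fun g => hinv g s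
  have hN : ∀ k s B, s ∈ (I.push q).gr k → s ∈ (I.push q).N B → π s ∈ (I.push q).N B :=
    fun k s B hs h => by
    replace h := (PC.N_push_closed (I := I) hcl).1 h
    refine (PC.N_push_closed (I := I) hcl).2 ?_
    rw [hπ]
    refine Submodule.smul_mem _ _ (Submodule.sum_mem _ fun g _ => (φ g).map_N hs (fun x hx => ?_) h)
    show q (ρ g x) ∈ B
    rw [← (hρ x _).2 ⟨g, rfl⟩]
    exact hx
  let s0 : I.A := (godU id continuous_id (cstPC X' ℚ 0)).f (1 : ℚ)
  have h0 : ∀ y, I.ResAt 0 s0 y := fun y =>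
    ResAt.of_cart _ (godU_cart id continuous_id _ y) (cst_resAt 0 y)
  have h0π : π s0 = s0 := hfix _ fun g => by
    funext l
    show uL X' (1 : ℚ) (l.map (ρ g)) = uL X' (1 : ℚ) l
    rw [uL_apply, uL_apply, List.length_map]
  have hJ : ∀ x, (iv4_fix (I.push q) π hd).ResAt 0 s0 x := fun x => by
    obtain ⟨y, rfl⟩ := hsur x
    have hy : {y} ⊆ q ⁻¹' {q y} := singleton_subset_iff.2 rfl
    refine ⟨⟨⟨(h0 y).1.1, h0π⟩, PC.N_empty _ _, (PC.N_push_closed (I := I) hcl).2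
      (I.N_iff_forall.2 fun z _ => (h0 z).1.2.2)⟩, fun ⟨t, ht, _, h2⟩ => (h0 y).2.1
      ⟨t, ht.1, PC.N_empty _ _, I.N_anti hy ((PC.N_push_closed (I := I) hcl).1 h2)⟩,
      fun (s : I.A) hs => ?_, fun k hk => iv4_van hg hi hN ((PC.van_push_closed hcl).2 ?_)⟩
    · obtain ⟨c, t, ht, -, h2⟩ := (h0 y).2.2.1 s
        ⟨hs.1.1, PC.N_empty _ _, I.N_anti hy ((PC.N_push_closed (I := I) hcl).1 hs.2.2)⟩
      rw [iv4_neg ht, map_zero, sub_zero] at h2
      refine ⟨c, PC.Bd.of_N ((PC.N_push_closed (I := I) hcl).2 (I.N_iff_forall.2 fun z hz => ?_))⟩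
      obtain ⟨g, hz⟩ := (hρ z y).1 hz
      have e : π (s - c • s0) = s - c • s0 := by
        rw [map_sub, map_smul, h0π, show π s = s from hs.1.2]
      have := (φ g).map_N (D := {z}) (sub_mem hs.1.1 (Submodule.smul_mem _ c (h0 y).1.1))
        (mapsTo_singleton.2 hz) h2
      rwa [← e, hinv, e] at this
    · have hf : (q ⁻¹' {q y}).Finite := (finite_range fun g => ρ g y).subset fun z hz =>
        (hρ y z).1 (Eq.symm hz)
      have := van_finite (I := I) (fl_resC _ _) hf.isClosed isClosed_empty (hf.subset sdiff_subset)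
        fun z _ => (h0 z).2.2.2 k hk
      rwa [empty_inter] at this
  exact ((eqv_resC (iv4_fl hg hi hN (fl_push (fl_resC _ _) hp.continuous)) hJ).van_open hV hV'
    h').1 (iv4_van hg hi hN ((PC.van_push_open hV hV').2 h))

theorem FinQuo.prod_id {q : X' → X} (hq : FinQuo q) : FinQuo (Prod.map q (id : Y → Y)) := by
  obtain ⟨hp, hs, Γ, _, _, ρ, hc, h1, hm, hρ⟩ := hq
  refine ⟨hp.prodMap isProperMap_id, hs.prodMap Function.surjective_id, Γ, inferInstance,
    inferInstance, fun g => Prod.map (ρ g) id, fun g => (hc g).prodMap continuous_id,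
    fun x => Prod.ext (h1 _) rfl, fun g h x => Prod.ext (hm _ _ _) rfl, fun x y => ⟨fun h => ?_,
    fun ⟨g, h⟩ => Prod.ext ((hρ _ _).2 ⟨g, congrArg Prod.fst h⟩) (congrArg Prod.snd h :)⟩⟩
  exact ((hρ _ _).1 (congrArg Prod.fst h)).imp fun g hg => Prod.ext hg (congrArg Prod.snd h :)

theorem FinQuo.id_prod {q : X' → X} (hq : FinQuo q) : FinQuo (Prod.map (id : Y → Y) q) := by
  obtain ⟨hp, hs, Γ, _, _, ρ, hc, h1, hm, hρ⟩ := hq
  refine ⟨isProperMap_id.prodMap hp, Function.surjective_id.prodMap hs, Γ, inferInstance,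
    inferInstance, fun g => Prod.map id (ρ g), fun g => continuous_id.prodMap (hc g),
    fun x => Prod.ext rfl (h1 _), fun g h x => Prod.ext rfl (hm _ _ _), fun x y => ⟨fun h => ?_,
    fun ⟨g, h⟩ => Prod.ext (congrArg Prod.fst h :) ((hρ _ _).2 ⟨g, congrArg Prod.snd h⟩)⟩⟩
  exact ((hρ _ _).1 (congrArg Prod.snd h)).imp fun g hg => Prod.ext (congrArg Prod.fst h :) hg

/-- `FTO.of_finite_fib` -/
theorem SP0.of_finQuo [Nice X'] {q : X' → X} (hq : FinQuo q) {S : Set X} {β : ℤ}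
    (h : SP0 X' (q ⁻¹' S) β) : SP0 X S β := fun V Z e hV hZ hS hF i hi => by
  have hc := hq.1.continuous
  refine van_finQuo hq hV hZ sdiff_subset (h (q ⁻¹' V) (q ⁻¹' Z) e (hV.preimage hc)
    (hZ.preimage hc) (preimage_mono hS) (hF.of_finite_fib q hc.continuousOn (fun x => ?_)
      fun _ hx => hx) i hi)
  obtain ⟨-, hs, Γ, _, _, ρ, -, -, -, hρ⟩ := hq
  obtain ⟨y, rfl⟩ := hs x
  exact (finite_range fun g => ρ g y).subset fun z hz => (hρ y z).1 (Eq.symm hz.2)

theorem SPb.of_finQuo [Nice X'] {q : X' → X} (hq : FinQuo q) {S : Set X} {β : ℤ}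
    (h : SPb X' (q ⁻¹' S) β) : SPb X S β := fun j => SP0.of_finQuo hq.prod_id (h j)

/-- `(u, v) ↦ (u v, u ^ N, - v ^ N)`, `Γ = rootsOfUnity N ℂ` acting by `(ζ u, ζ⁻¹ v)` -/
theorem sg_finQuo {N : ℕ} (hN : N ≠ 0) : ∃ q : ℂ × ℂ → Sg N, FinQuo q := by
  have : NeZero N := ⟨hN⟩
  have hpow : IsProperMap fun u : ℂ => u ^ N := by
    have := Polynomial.isProperMap_eval (Polynomial.X ^ N : Polynomial ℂ)
      (by rw [Polynomial.degree_X_pow]; exact_mod_cast Nat.pos_of_ne_zero hN)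
    convert this using 2
    simp
  let q : ℂ × ℂ → Sg N := fun p => ⟨(p.1 * p.2, p.1 ^ N, -p.2 ^ N), by simp [mul_pow]⟩
  have hq : ∀ x y, q x = q y ↔ x.1 * x.2 = y.1 * y.2 ∧ x.1 ^ N = y.1 ^ N ∧ x.2 ^ N = y.2 ^ N :=
    fun x y => by simp only [q, Subtype.mk.injEq, Prod.mk.injEq, neg_inj]
  refine ⟨q, isProperMap_of_comp_of_t2 (g := fun p : Sg N => (p.1.2.1, -p.1.2.2))
    (Continuous.subtype_mk (by fun_prop) _) (by fun_prop) ?_, ?_, rootsOfUnity N ℂ, inferInstance,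
    Fintype.ofFinite _, fun ζ p => (((ζ : ℂˣ) : ℂ) * p.1, ((ζ : ℂˣ) : ℂ)⁻¹ * p.2),
    fun ζ => by fun_prop, fun x => by simp only [OneMemClass.coe_one, Units.val_one, one_mul, inv_one, Prod.mk.eta], fun g h x => by simp only [Subgroup.coe_mul, Units.val_mul, mul_assoc, mul_inv_rev, mul_left_comm],
    fun ⟨u, v⟩ ⟨u', v'⟩ => (hq _ _).trans ⟨fun ⟨h1, h2, h3⟩ => ?_, fun ⟨ζ, h⟩ => ?_⟩⟩
  · convert hpow.prodMap hpow using 1
    funext p
    exact Prod.ext rfl (neg_neg _)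
  · rintro ⟨⟨w, x, y⟩, h⟩
    by_cases hx : x = 0
    · obtain ⟨v, hv⟩ := IsAlgClosed.exists_pow_nat_eq (-y) (Nat.pos_of_ne_zero hN)
      have hw : w = 0 := by simpa [hx, hN] using h
      exact ⟨(0, v), Subtype.ext (by simp [q, hv, hw, hx, hN])⟩
    · obtain ⟨u, rfl⟩ := IsAlgClosed.exists_pow_nat_eq x (Nat.pos_of_ne_zero hN)
      have hu : u ≠ 0 := fun h => hx (by rw [h, zero_pow hN])
      refine ⟨(u, w / u), Subtype.ext (Prod.ext (mul_div_cancel₀ w hu) (Prod.ext rfl ?_))⟩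
      show -(w / u) ^ N = y
      rw [div_pow, ← neg_div, div_eq_iff hx, mul_comm]
      exact h.symm
  · simp only at h1 h2 h3
    by_cases hu : u = 0
    · have hu' : u' = 0 := by simpa [hu, hN] using h2.symm
      by_cases hv : v = 0
      · have hv' : v' = 0 := by simpa [hv, hN] using h3.symm
        exact ⟨1, by simp only [OneMemClass.coe_one, Units.val_one, hu, mul_zero, inv_one, hv, hu', hv']⟩
      · have hv' : v' ≠ 0 := fun h => hv (by simpa [h, hN] using h3)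
        refine ⟨rootsOfUnity.mkOfPowEq (v / v') (by rw [div_pow, h3, div_self (pow_ne_zero _ hv')]),
          Prod.ext (by simp [hu, hu']) ?_⟩
        show (v / v')⁻¹ * v = v'
        field_simp
    · have hu' : u' ≠ 0 := fun h => hu (by simpa [h, hN] using h2)
      refine ⟨rootsOfUnity.mkOfPowEq (u' / u) (by rw [div_pow, h2, div_self (pow_ne_zero _ hu')]),
        Prod.ext (div_mul_cancel₀ _ hu) ?_⟩
      show (u' / u)⁻¹ * v = v'
      field_simp
      linear_combination h1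
  · have h0 : ((ζ : ℂˣ) : ℂ) ^ N = 1 := by
      rw [← Units.val_pow_eq_pow_val, (mem_rootsOfUnity N _).1 ζ.2, Units.val_one]
    obtain ⟨rfl, rfl⟩ := Prod.mk.inj h
    refine ⟨?_, by simp only [mul_pow, h0, one_mul],
      by simp only [mul_pow, inv_pow, h0, inv_one, one_mul]⟩
    have := (ζ : ℂˣ).ne_zero
    field_simp

instance sg_nice (N : ℕ) : Nice (Sg N) :=
  nice_of_closedEmb (IsClosed.isClosedEmbedding_subtypeVal
    (s := {p : ℂ × ℂ × ℂ | p.2.1 * p.2.2 = -p.1 ^ N}) (isClosed_eq (by fun_prop) (by fun_prop)))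

end C73
end
end

section
/-! Block V, part 5: the blow-up lemma. -/

open Set Filter Topology TopologicalSpace

noncomputable section
namespace C73

variable {X X' Y P : Type} [TopologicalSpace X] [TopologicalSpace X'] [TopologicalSpace Y]
  [TopologicalSpace P]

theorem iv5_bij_comap {I : PC X} {J : PC X'} {e : Y → X} (he : Continuous e)
    {f : I.A →ₗ[ℚ] J.A} {B B' : Set Y} {D D' : Set X'} :
    Bij (I.comap e he) J f B B' D D' ↔ Bij I J f (e '' B) (e '' B') D D' :=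
  forall_congr' fun _ => and_congr (forall_congr' fun _ => imp_congr_right fun _ =>
    exists_congr fun _ => and_congr_left' PC.zc_comap_iff)
    (forall_congr' fun _ => imp_congr PC.zc_comap_iff (imp_congr_right fun _ => PC.bd_comap_iff))

section
variable {I : PC Y} {J : PC X'} {π : X' → X} (hc : IsClosedMap π) {f : I.A →ₗ[ℚ] J.A} {k : ℤ}
  {C C' : Set Y} {B B' : Set X}
include hc
theorem iv5_bd_push {s : J.A} : (J.push π).Bd k B B' s ↔ J.Bd k (π ⁻¹' B) (π ⁻¹' B') s :=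
  exists_congr fun _ => and_congr_right' (and_congr (PC.N_push_closed hc) (PC.N_push_closed hc))
theorem iv5_sur_push : Sur I (J.push π) f k C C' B B' ↔ Sur I J f k C C' (π ⁻¹' B) (π ⁻¹' B') :=
  forall_congr' fun _ => imp_congr
    (and_congr_right' (and_congr (PC.N_push_closed hc) (PC.N_push_closed hc)))
    (exists_congr fun _ => and_congr_right' (iv5_bd_push hc))
theorem iv5_inj_push : Inj I (J.push π) f k C C' B B' ↔ Inj I J f k C C' (π ⁻¹' B) (π ⁻¹' B') :=
  forall_congr' fun _ => imp_congr_right fun _ => imp_congr_left (iv5_bd_push hc)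
end

theorem iv5_sq {W : Type} [TopologicalSpace W] {p : X' → X} {q : W → X'} {p' : Y → X} {q' : W → Y}
    (hp : Continuous p) (hq : Continuous q) (hp' : Continuous p') (hq' : Continuous q')
    (h : ∀ w, p (q w) = p' (q' w)) : ((resMap hq ℚ 0).comp (resMap hp ℚ 0)).f =
      ((resMap hq' ℚ 0).comp (resMap hp' ℚ 0)).f := by
  have key : ∀ {u v : W → X} (hu : Continuous u) (hv : Continuous v), u = v →
      (resMap hu ℚ 0).f = (resMap hv ℚ 0).f := fun hu hv h => by subst h; rfl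
  rw [resMap_comp, resMap_comp]
  exact key _ _ (funext h)

/-- real coordinates on the complex line -/
def iv5_h : (Fin 2 → ℝ) ≃ₜ ℂ :=
  (ContinuousLinearEquiv.ofFinrankEq (𝕜 := ℝ) (by simp)).toHomeomorph

theorem iv5_fto : FTO (univ : Set ℂ) 2 :=
  (fto_univ_pi 2).of_injOn iv5_h.symm iv5_h.symm.continuous.continuousOn
    iv5_h.symm.injective.injOn (mapsTo_univ _ _)

/-- `qis_set` for the morphism `(resC X).comap e → resC Y` with the same linear map -/
theorem resMap_bij_emb [Nice X] {e : Y → X} (he : IsEmbedding e) {B B' : Set Y} (h : B' ⊆ B) :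
    Bij _ _ (resMap he.continuous ℚ 0).f (e '' B) (e '' B') B B' := by
  have := he.metrizableSpace
  let φ := resMap he.continuous ℚ 0
  refine (iv5_bij_comap he.continuous).1 (qis_set (I := (resC X ℚ 0).comap e he.continuous)
    ⟨φ.f, φ.gr, φ.supp, φ.comm⟩ (fl_comap (fl_resC ℚ 0) he) (fl_resC ℚ 0) h fun y _ =>
      (iv5_bij_comap he.continuous).2 ?_)
  rw [image_empty, show e '' {id y} = {e y} from image_singleton]
  exact resMap_cart he.continuous ℚ 0 y
/-- `D := (resMap π).toPush.cone` has zero stalks off `T` (`van_cone_iff`, `N_push_closed`,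
`resMap_cart`), so `van_rel_closed` gives `Van U (U ∩ T)`; `tri1` for `(V, V ∩ T, V' ∩ T)`, `tri2` for
`(V, V', V' ∩ T)`; `van_cone_iff`, `Inj.van`. -/
theorem bl_van [Nice X] {π : X' → X} (hπ : Continuous π) (hc : IsClosedMap π) {T : Set X}
    (hT : IsClosed T) (h1 : ∀ x ∉ T, ∃ x', π ⁻¹' {x} = {x'}) {V V' : Set X} (hV : IsOpen V)
    (hV' : IsOpen V') (h : V' ⊆ V) {i : ℤ} (hv : (resC X' ℚ 0).Van i (π ⁻¹' V) (π ⁻¹' V'))
    (hs : Sur _ _ (resMap hπ ℚ 0).f (i - 1) (V ∩ T) (V' ∩ T) (π ⁻¹' (V ∩ T)) (π ⁻¹' (V' ∩ T)))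
    (hi : Inj _ _ (resMap hπ ℚ 0).f i (V ∩ T) (V' ∩ T) (π ⁻¹' (V ∩ T)) (π ⁻¹' (V' ∩ T))) :
    (resC X ℚ 0).Van i V V' := by
  let φ := (resMap hπ ℚ 0).toPush
  have hD : ∀ U, IsOpen U → ∀ k, φ.cone.Van k U (U ∩ T) := fun U hU =>
    van_rel_closed (fl_cone φ (fl_resC ℚ 0) (fl_push (fl_resC ℚ 0) hπ)) hU hT fun x hx k => by
      obtain ⟨x', h'⟩ := h1 x hx.2
      obtain rfl : π x' = x := (h'.symm ▸ rfl : x' ∈ π ⁻¹' {x})
      refine (van_cone_iff φ (empty_subset _)).2 ⟨(iv5_sur_push hc).2 ?_, (iv5_inj_push hc).2 ?_⟩ <;>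
        rw [h', preimage_empty]
      exacts [(resMap_cart hπ ℚ 0 x' k).1, (resMap_cart hπ ℚ 0 x' (k + 1)).2]
  have h2 : φ.cone.Van (i - 1) (V ∩ T) (V' ∩ T) :=
    (van_cone_iff φ (inter_subset_inter_left _ h)).2 ⟨(iv5_sur_push hc).2 hs,
      (iv5_inj_push hc).2 (by rw [sub_add_cancel]; exact hi)⟩
  have h3 := ((van_cone_iff φ h).1 (PC.tri2 inter_subset_left h (PC.tri1
    (inter_subset_inter_left _ h) inter_subset_left (hD V hV _) h2) (hD V' hV' _))).2
  rw [sub_add_cancel] at h3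
  exact Inj.van (resMap hπ ℚ 0) (mapsTo_preimage _ _) (mapsTo_preimage _ _)
    ((iv5_inj_push hc).1 h3) hv
/-- the section `y ↦ (y, p0)`, `Inj.of_comp` -/
theorem p1_inj (p0 : P) {B B' : Set Y} (i : ℤ) :
    Inj _ _ (resMap (continuous_fst : Continuous (Prod.fst : Y × P → Y)) ℚ 0).f i B B'
      (B ×ˢ univ) (B' ×ˢ univ) := by
  have hσ : Continuous fun y : Y => (y, p0) := continuous_id.prodMk continuous_const
  refine Inj.of_comp _ (resMap hσ ℚ 0) (fun _ h => h.1) (fun _ h => h.1) (B := B) (B' := B')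
    (fun _ h => ⟨h, trivial⟩) (fun _ h => ⟨h, trivial⟩) ?_
  rw [(resMap_comp continuous_fst hσ ℚ 0).trans (resMap_id ℚ 0)]
  exact fun s _ h => h
/-- restriction to `U := B ×ˢ range ι` is injective (`inj_res`, `bij_exc`), and `prod_bij` -/
theorem p1_sur [Nice Y] [Nice P] {ι : ℂ → P} (hι : IsOpenEmbedding ι) {B B' : Set Y}
    (hB : IsOpen B) (hB' : IsOpen B') (h : B' ⊆ B) {i : ℤ}
    (hv : (resC (Y × P) ℚ 0).Van i (B ×ˢ univ) (B' ×ˢ univ ∪ B ×ˢ range ι)) :
    Sur _ _ (resMap (continuous_fst : Continuous (Prod.fst : Y × P → Y)) ℚ 0).f i B B'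
      (B ×ˢ univ) (B' ×ˢ univ) := by
  have hc : IsOpenEmbedding (Prod.map id (ι ∘ iv5_h) : Y × (Fin 2 → ℝ) → Y × P) :=
    IsOpenEmbedding.id.prodMap (hι.comp iv5_h.isOpenEmbedding)
  have him : ∀ A : Set Y, Prod.map id (ι ∘ iv5_h) '' (A ×ˢ univ) = A ×ˢ range ι := fun A => by
    rw [prodMap_image_prod, image_id, image_univ, iv5_h.surjective.range_comp]
  have b1 := prod_bij (resMap (continuous_fst : Continuous (Prod.fst : Y × (Fin 2 → ℝ) → Y)) ℚ 0)
    (fl_resC ℚ 0) (fl_resC ℚ 0) (resMap_cart _ ℚ 0) hB hB' h (B := fun _ => univ)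
    (fun _ => isOpen_univ) (fun _ => ordConnected_univ) fun _ => univ_nonempty
  rw [pi_univ] at b1
  have b2 := resMap_bij_emb hc.isEmbedding (prod_mono h (subset_univ (univ : Set (Fin 2 → ℝ))))
  rw [him, him] at b2
  refine Sur.of_comp_inj _ (resMap hc.continuous ℚ 0) (fun _ h => h.1) (fun _ h => h.1)
    (B := B ×ˢ univ) (B' := B' ×ˢ univ) (fun _ h => ⟨h.1, trivial⟩) (fun _ h => ⟨h.1, trivial⟩)
    (by rw [resMap_comp]; exact (b1 i).1) fun s hs hb => ?_
  have hO : IsOpen (B' ×ˢ (univ : Set P)) := hB'.prod isOpen_univ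
  have h1 : B' ×ˢ univ ∪ B ×ˢ range ι ⊆ B ×ˢ (univ : Set P) :=
    union_subset (prod_mono h subset_rfl) (prod_mono subset_rfl (subset_univ _))
  refine inj_res subset_union_left h1 hv s hs ?_
  rw [union_comm] at h1 ⊢
  refine (bij_exc (exc_of_open (fl_resC ℚ 0) (hB.prod hι.isOpen_range) hO) i).2 s
    (hs.mono h1 subset_rfl) ?_
  exact ((b2 i).2 s (hs.mono (prod_mono subset_rfl (subset_univ _))
    (prod_mono subset_rfl (subset_univ _))) hb).mono subset_rfl fun _ h => ⟨h.2.1, h.1.2⟩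
/-- version without parameters -/
theorem sp0_blow [Nice X] [Nice X'] [Nice Y] [Nice P] {π : X' → X} (hπ : Continuous π)
    (hc : IsClosedMap π) {a : Y → X} (ha : IsClosedEmbedding a) {b : Y × P → X'}
    (hb : IsEmbedding b) (hab : ∀ y, π (b y) = a y.1) (hbr : π ⁻¹' range a ⊆ range b)
    (h1 : ∀ x ∉ range a, ∃ x', π ⁻¹' {x} = {x'}) {ι : ℂ → P} (hι : IsOpenEmbedding ι) {p0 : P}
    (hp : ∀ p, p ∈ range ι ∨ p = p0) {r : X' → ℂ} (hr : Continuous r)
    (hf : ∀ x w, {x' | π x' = x ∧ r x' = w}.Finite) {S : Set X} {β : ℤ}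
    (h0 : SP0 (Y × P) ((a ⁻¹' S) ×ˢ {p0}) (β - 1)) {T : Set X'} (hT : IsClosed T)
    (hi : InjOn π (T ∩ π ⁻¹' S)) (hT1 : SP0 X' (T ∩ π ⁻¹' S) β)
    (hT2 : SP0 X' (π ⁻¹' S \ T) (β + 2)) : SP0 X S β := by
  intro V Z e hV hZ hS hF i hi'
  have hB := hV.preimage ha.continuous
  have hB' := hZ.preimage ha.continuous
  have hBB : a ⁻¹' (V \ Z) ⊆ a ⁻¹' V := preimage_mono sdiff_subset
  have him : ∀ A : Set X, b '' ((a ⁻¹' A) ×ˢ univ) = π ⁻¹' (A ∩ range a) := fun A => by
    ext x'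
    constructor
    · rintro ⟨y, hy, rfl⟩
      rw [mem_preimage, hab]
      exact ⟨hy.1, mem_range_self _⟩
    · intro hx
      obtain ⟨y, rfl⟩ := hbr hx.2
      rw [mem_preimage, hab] at hx
      exact ⟨y, ⟨hx.1, trivial⟩, rfl⟩
  have ba := resMap_bij_emb ha.isEmbedding hBB
  have bb := resMap_bij_emb hb (prod_mono hBB (subset_univ (univ : Set P)))
  rw [image_preimage_eq_inter_range, image_preimage_eq_inter_range] at ba
  rw [him, him] at bb
  have sq := iv5_sq hπ hb.continuous ha.continuous continuous_fst hab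
  have ma : ∀ A : Set X, MapsTo a (a ⁻¹' A) (A ∩ range a) := fun A y hy => ⟨hy, mem_range_self _⟩
  have mb : ∀ A : Set X, MapsTo b ((a ⁻¹' A) ×ˢ univ) (π ⁻¹' (A ∩ range a)) := fun A =>
    him A ▸ mapsTo_image _ _
  have o1 : IsOpen (π ⁻¹' V \ (π ⁻¹' Z ∩ T)) := by
    rw [sdiff_inter]
    exact (hZ.preimage hπ).union ((hV.preimage hπ).sdiff hT)
  have e2 : (π ⁻¹' V \ (π ⁻¹' Z ∩ T)) \ (π ⁻¹' Z \ T) = π ⁻¹' (V \ Z) := by
    ext x
    simp only [Set.mem_sdiff, mem_inter_iff, mem_preimage]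
    tauto
  refine bl_van hπ hc ha.isClosed_range h1 hV hZ sdiff_subset (PC.tri1
    (C' := π ⁻¹' V \ (π ⁻¹' Z ∩ T)) (fun _ h => ⟨h.1, fun h' => h.2 h'.1⟩) sdiff_subset
    (hT1 _ _ e (hV.preimage hπ) o1 (fun _ h => ⟨h.2, hS h.1⟩) (hF.of_injOn π hπ.continuousOn
      (hi.mono fun _ h => by exact ⟨h.1.2, hS h.1.1⟩) fun _ h => ⟨h.1.1, h.2⟩) i hi') ?_) ?_ ?_
  · rw [← e2]
    refine hT2 _ _ (e + 2) o1 (e2 ▸ hZ.preimage hπ) (fun _ h => ⟨hS h.1, h.2⟩)
      ((hF.prod iv5_fto).of_finite_fib (fun x' => (π x', r x')) (hπ.prodMk hr).continuousOn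
        (fun y => (hf y.1 y.2).subset fun _ h => Prod.ext_iff.1 h.2)
        fun _ h => ⟨⟨h.1.1, h.2.1⟩, trivial⟩) i (by omega)
  · refine Sur.of_comp_inj _ (resMap hb.continuous ℚ 0) (mapsTo_preimage _ _) (mapsTo_preimage _ _)
      (mb _) (mb _) ?_ (bb _).2
    rw [sq]
    refine Sur.comp _ _ (ma _) (ma _) (fun _ h => h.1) (fun _ h => h.1) (ba _).1
      (p1_sur hι hB hB' hBB ?_)
    have e3 : (a ⁻¹' V) ×ˢ univ \ (a ⁻¹' Z) ×ˢ (range ι)ᶜ =
        (a ⁻¹' (V \ Z)) ×ˢ univ ∪ (a ⁻¹' V) ×ˢ range ι := by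
      ext x
      simp only [Set.mem_sdiff, mem_prod, mem_union, mem_preimage, mem_univ, mem_compl_iff]
      tauto
    rw [← e3]
    refine h0 _ _ e (hB.prod isOpen_univ)
      (e3 ▸ (hB'.prod isOpen_univ).union (hB.prod hι.isOpen_range))
      (fun y h => ⟨hS h.1, (hp y.2).resolve_left h.2⟩)
      (hF.of_injOn (fun y => a y.1) (ha.continuous.comp continuous_fst).continuousOn
        (fun y h y' h' g => Prod.ext (ha.injective g) (((hp y.2).resolve_left h.1.2).trans
          ((hp y'.2).resolve_left h'.1.2).symm)) fun _ h => ⟨h.1.1, h.2.1⟩) _ (by omega)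
  · refine Inj.of_comp _ (resMap hb.continuous ℚ 0) (mapsTo_preimage _ _) (mapsTo_preimage _ _)
      (mb _) (mb _) ?_
    rw [sq]
    exact Inj.comp _ _ (ma _) (ma _) (fun _ h => h.1) (fun _ h => h.1) (ba _).2 (p1_inj p0 i)
/-- apply `sp0_blow` to the products with `Fin j → ℝ` -/
theorem spb_blow [Nice X] [Nice X'] [Nice Y] [Nice P] {π : X' → X} (hπ : IsProperMap π)
    {a : Y → X} (ha : IsClosedEmbedding a) {b : Y × P → X'}
    (hb : IsEmbedding b) (hab : ∀ y, π (b y) = a y.1) (hbr : π ⁻¹' range a ⊆ range b)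
    (h1 : ∀ x ∉ range a, ∃ x', π ⁻¹' {x} = {x'}) {ι ι' : ℂ → P} (hι : IsOpenEmbedding ι)
    (hι' : IsOpenEmbedding ι') {w0 : ℂ} (hp : ∀ p, p ∈ range ι ∨ p = ι' w0) {r : X' → ℂ}
    (hr : Continuous r) (hf : ∀ x w, {x' | π x' = x ∧ r x' = w}.Finite) {S : Set X} {β : ℤ}
    (h0 : SPb Y (a ⁻¹' S) (β - 3)) {T : Set X'} (hT : IsClosed T)
    (hi : InjOn π (T ∩ π ⁻¹' S)) (hT1 : SPb X' (T ∩ π ⁻¹' S) β)
    (hT2 : SPb X' (π ⁻¹' S \ T) (β + 2)) : SPb X S β := by
  intro j
  have hπ' := hπ.prodMap (isProperMap_id (X := Fin j → ℝ))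
  let h : (Y × (Fin j → ℝ)) × P ≃ₜ (Y × P) × (Fin j → ℝ) :=
    ((Homeomorph.prodAssoc _ _ _).trans ((Homeomorph.refl Y).prodCongr
      (Homeomorph.prodComm _ _))).trans (Homeomorph.prodAssoc _ _ _).symm
  refine sp0_blow (Y := Y × (Fin j → ℝ)) hπ'.continuous hπ'.isClosedMap (a := Prod.map a id)
    (ha.prodMap IsClosedEmbedding.id) (b := Prod.map b id ∘ h)
    ((hb.prodMap IsEmbedding.id).comp h.isEmbedding) (fun y => Prod.ext (hab _) rfl) ?_ ?_ hι hp
    (r := r ∘ Prod.fst) (hr.comp continuous_fst)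
    (fun x w => ((hf x.1 w).prod (finite_singleton x.2)).subset fun y g =>
      ⟨⟨congrArg Prod.fst g.1, g.2⟩, congrArg Prod.snd g.1⟩) ?_ (T := T ×ˢ univ)
    (hT.prod isClosed_univ) (fun x g x' g' e => Prod.ext
      (hi ⟨g.1.1, g.2.1⟩ ⟨g'.1.1, g'.2.1⟩ (congrArg Prod.fst e)) (Prod.ext_iff.1 e).2)
    ((hT1 j).mono (fun _ g => ⟨⟨g.1.1, g.2.1⟩, trivial⟩) le_rfl)
    ((hT2 j).mono (fun _ g => ⟨⟨g.1.1, fun g' => g.2 ⟨g', trivial⟩⟩, trivial⟩) (by omega))
  · rintro ⟨x', t⟩ ⟨y, hy⟩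
    obtain ⟨z, rfl⟩ := hbr (show x' ∈ π ⁻¹' range a from ⟨y.1, congrArg Prod.fst hy⟩)
    exact ⟨((z.1, t), z.2), rfl⟩
  · rintro ⟨x, t⟩ hx
    obtain ⟨x', h'⟩ := h1 x fun ⟨y, hy⟩ => hx ⟨(y, t), Prod.ext hy rfl⟩
    exact ⟨(x', t), by rw [← singleton_prod_singleton, preimage_prod_map_prod, h', preimage_id,
      singleton_prod_singleton]⟩
  · refine SP0.of_local fun x hx => ⟨(Y × (Fin j → ℝ)) × ℂ, inferInstance, Prod.map id ι',
      IsOpenEmbedding.id.prodMap hι', ⟨(x.1, w0), Prod.ext rfl hx.2.symm⟩,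
      ((h0.prod (Fin j → ℝ)).prod ℂ).sp0.mono (fun _ g => ⟨⟨g.1.1, trivial⟩, trivial⟩) ?_⟩
    rw [Module.finrank_fin_fun, Complex.finrank_real_complex]
    omega

end C73
end
end

section
/-! Block V, part 6: splitting off a simple root. -/

open Set Filter Topology TopologicalSpace Polynomial

noncomputable section
namespace C73
variable {N k : ℕ}

theorem iv6_cp (i j : Fin 2) : CP fun x : FM N k × ℂ => x.1.1 i j := FM.cp_comp continuous_fst i j

theorem iv6_open : IsOpen {x : FM N k × ℂ | (x.1.a /ₘ (X - C x.2)).eval x.2 ≠ 0 ∧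
    (x.1.a /ₘ (X - C x.2)).eval 0 ≠ 0} :=
  have := (iv6_cp (N := N) (k := k) 0 0).div_X_sub_C continuous_snd
  (isOpen_ne_fun (this.eval continuous_snd) continuous_const).inter
    (isOpen_ne_fun (this.eval continuous_const) continuous_const)

/-- an open subset of a closed subset of `FM N (k + 1) × ℂ` (`nice_of_locClosed`) -/
instance hs_nice (N k : ℕ) : Nice (HS N k) :=
  nice_of_locClosed (((isClosed_eq ((iv6_cp (N := N) (k := k + 1) 0 0).eval continuous_snd)
    continuous_const).isLocallyClosed).inter iv6_open.isLocallyClosed)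

/-- the cofactor of the marked root -/
def iv6_q (x : HS N k) : ℂ[X] := x.1.1.a /ₘ (X - C x.1.2)

theorem iv6_mul (x : HS N k) : (X - C x.1.2) * iv6_q x = x.1.1.a :=
  mul_divByMonic_eq_iff_isRoot.2 x.2.1

theorem iv6_monic (x : HS N k) : (iv6_q x).Monic :=
  (monic_X_sub_C x.1.2).of_mul_monic_left ((iv6_mul x).symm ▸ x.1.1.a_monic)

theorem iv6_deg (x : HS N k) : (iv6_q x).natDegree = k := by
  rw [iv6_q, natDegree_divByMonic _ (monic_X_sub_C _), FM.a_natDegree, natDegree_X_sub_C]; rfl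

theorem iv6_cpH (i j : Fin 2) : CP fun x : HS N k => x.1.1.1 i j :=
  (iv6_cp i j).comp continuous_subtype_val

theorem iv6_w : Continuous fun x : HS N k => x.1.2 := continuous_snd.comp continuous_subtype_val

theorem iv6_cpq : CP (iv6_q : HS N k → ℂ[X]) := (iv6_cpH 0 0).div_X_sub_C iv6_w

theorem iv6_red {p q : ℂ[X]} (hp : p.degree < (k + 1 : ℕ)) (hq : q.Monic) (hk : q.natDegree = k) :
    (p - C (p.coeff k) * q).degree < k := by
  rw [degree_lt_iff_coeff_zero] at hp ⊢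
  intro m hm
  rw [coeff_sub, coeff_C_mul]
  rcases hm.eq_or_lt with rfl | hm
  · rw [← hk, hq.coeff_natDegree, mul_one, sub_self]
  · rw [hp m hm, coeff_eq_zero_of_natDegree_lt (hk.trans_lt hm), mul_zero, sub_zero]

theorem iv6_add {p q : ℂ[X]} (c : ℂ) (hp : p.degree < k) (hk : q.natDegree = k) :
    (p + C c * q).degree < (k + 1 : ℕ) := by
  rw [degree_lt_iff_coeff_zero] at hp ⊢
  intro m hm
  rw [coeff_add, coeff_C_mul, hp m (by omega), coeff_eq_zero_of_natDegree_lt (by omega), mul_zero,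
    add_zero]

/-- splitting off the root -/
def iv6_Φ (x : HS N k) : FM N k × Sg N :=
  (FM.mk (iv6_q x) (x.1.1.b - C (x.1.1.b.coeff k) * iv6_q x)
      (x.1.1.c - C (x.1.1.c.coeff k) * iv6_q x)
      ((X - C x.1.2) * x.1.1.d - C (x.1.1.b.coeff k) * x.1.1.c - C (x.1.1.c.coeff k) * x.1.1.b +
        C (x.1.1.b.coeff k) * C (x.1.1.c.coeff k) * iv6_q x)
      (iv6_monic x) (iv6_deg x) (iv6_red x.1.1.b_degree (iv6_monic x) (iv6_deg x))
      (iv6_red x.1.1.c_degree (iv6_monic x) (iv6_deg x))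
      (by rw [← x.1.1.det_eq, ← iv6_mul x]; ring),
    ⟨(x.1.2, x.1.1.b.eval x.1.2, x.1.1.c.eval x.1.2), by
      have := congrArg (eval x.1.2) x.1.1.det_eq
      rw [eval_sub, eval_mul, eval_mul, x.2.1, eval_pow, eval_X] at this
      linear_combination -this⟩)

/-- the range of the chart -/
def iv6_U (N k : ℕ) : Set (FM N k × Sg N) := {u | u.1.a.eval u.2.1.1 ≠ 0 ∧ u.1.a.eval 0 ≠ 0}

def iv6_β (u : iv6_U N k) : ℂ := (u.1.2.1.2.1 - u.1.1.b.eval u.1.2.1.1) / u.1.1.a.eval u.1.2.1.1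

def iv6_γ (u : iv6_U N k) : ℂ := (u.1.2.1.2.2 - u.1.1.c.eval u.1.2.1.1) / u.1.1.a.eval u.1.2.1.1

theorem iv6_eβ (u : iv6_U N k) :
    (u.1.1.b + C (iv6_β u) * u.1.1.a).eval u.1.2.1.1 = u.1.2.1.2.1 := by
  rw [eval_add, eval_mul, eval_C, iv6_β, div_mul_cancel₀ _ u.2.1, add_sub_cancel]

theorem iv6_eγ (u : iv6_U N k) :
    (u.1.1.c + C (iv6_γ u) * u.1.1.a).eval u.1.2.1.1 = u.1.2.1.2.2 := by
  rw [eval_add, eval_mul, eval_C, iv6_γ, div_mul_cancel₀ _ u.2.1, add_sub_cancel]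

def iv6_E (u : iv6_U N k) : ℂ[X] :=
  u.1.1.d + C (iv6_β u) * u.1.1.c + C (iv6_γ u) * u.1.1.b + C (iv6_β u) * C (iv6_γ u) * u.1.1.a

theorem iv6_det (u : iv6_U N k) : u.1.1.a * iv6_E u -
    (u.1.1.b + C (iv6_β u) * u.1.1.a) * (u.1.1.c + C (iv6_γ u) * u.1.1.a) = X ^ N := by
  rw [← u.1.1.det_eq, iv6_E]; ring

theorem iv6_root (u : iv6_U N k) : (iv6_E u).IsRoot u.1.2.1.1 := by
  have := congrArg (eval u.1.2.1.1) (iv6_det u)
  rw [eval_sub, eval_mul, eval_mul, iv6_eβ, iv6_eγ, u.1.2.2, eval_pow, eval_X, sub_neg_eq_add,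
    add_eq_right] at this
  exact (mul_eq_zero.1 this).resolve_left u.2.1

/-- the inverse of the chart -/
def iv6_g (u : iv6_U N k) : HS N k :=
  ⟨(FM.mk ((X - C u.1.2.1.1) * u.1.1.a) (u.1.1.b + C (iv6_β u) * u.1.1.a)
      (u.1.1.c + C (iv6_γ u) * u.1.1.a) (iv6_E u /ₘ (X - C u.1.2.1.1))
      ((monic_X_sub_C _).mul u.1.1.a_monic)
      (by rw [(monic_X_sub_C _).natDegree_mul u.1.1.a_monic, natDegree_X_sub_C, FM.a_natDegree,
        add_comm])
      (iv6_add _ u.1.1.b_degree u.1.1.a_natDegree) (iv6_add _ u.1.1.c_degree u.1.1.a_natDegree)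
      (by rw [mul_right_comm, mul_divByMonic_eq_iff_isRoot.2 (iv6_root u), mul_comm, iv6_det]),
    u.1.2.1.1), by
    simp only [FM.mk_a, mul_divByMonic_cancel_left _ (monic_X_sub_C _)]
    exact ⟨by simp, u.2⟩⟩

theorem iv6_coeff {p q : ℂ[X]} (c : ℂ) (hp : p.degree < k) (hq : q.coeff k = 1) :
    (p + C c * q).coeff k = c := by
  rw [coeff_add, coeff_C_mul, coeff_eq_zero_of_degree_lt hp, hq, zero_add, mul_one]

theorem iv6_cΦ : Continuous (iv6_Φ : HS N k → _) := by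
  have hb := CP.C ((iv6_cpH (N := N) (k := k) 0 1).coeff k)
  have hc := CP.C ((iv6_cpH (N := N) (k := k) 1 0).coeff k)
  have h1 : Continuous fun x : HS N k => (iv6_Φ x).1 :=
    FM.cont_of_cp iv6_cpq ((iv6_cpH 0 1).sub (hb.mul iv6_cpq))
      ((iv6_cpH 1 0).sub (hc.mul iv6_cpq))
      ((((((CP.const X).sub (.C iv6_w)).mul (iv6_cpH 1 1)).sub (hb.mul (iv6_cpH 1 0))).sub
        (hc.mul (iv6_cpH 0 1))).add ((hb.mul hc).mul iv6_cpq))
  have h2 : Continuous fun x : HS N k => (iv6_Φ x).2.1 :=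
    iv6_w.prodMk (((iv6_cpH 0 1).eval iv6_w).prodMk ((iv6_cpH 1 0).eval iv6_w))
  exact h1.prodMk (continuous_induced_rng.2 h2)

theorem iv6_cg : Continuous (iv6_g : iv6_U N k → _) := by
  have cp := FM.cp_comp (F := fun u : iv6_U N k => u.1.1) (by fun_prop)
  have hw : Continuous fun u : iv6_U N k => u.1.2.1.1 := by fun_prop
  have hβ : CP fun u : iv6_U N k => C (iv6_β u) :=
    .C ((Continuous.sub (by fun_prop) ((cp 0 1).eval hw)).div ((cp 0 0).eval hw) fun u => u.2.1)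
  have hγ : CP fun u : iv6_U N k => C (iv6_γ u) :=
    .C ((Continuous.sub (by fun_prop) ((cp 1 0).eval hw)).div ((cp 0 0).eval hw) fun u => u.2.1)
  have h1 : Continuous fun u : iv6_U N k => (iv6_g u).1.1 :=
    FM.cont_of_cp (((CP.const X).sub (.C hw)).mul (cp 0 0)) ((cp 0 1).add (hβ.mul (cp 0 0)))
      ((cp 1 0).add (hγ.mul (cp 0 0))) (((((cp 1 1).add (hβ.mul (cp 1 0))).add
        (hγ.mul (cp 0 1))).add ((hβ.mul hγ).mul (cp 0 0))).div_X_sub_C hw)
  exact continuous_induced_rng.2 (h1.prodMk hw)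

theorem iv6_oU : IsOpen (iv6_U N k) :=
  have := FM.cp_comp (continuous_fst (X := FM N k) (Y := Sg N)) 0 0
  (isOpen_ne_fun (this.eval (by fun_prop)) continuous_const).inter
    (isOpen_ne_fun (this.eval continuous_const) continuous_const)

theorem iv6_mem (x : HS N k) : iv6_Φ x ∈ iv6_U N k := x.2.2

theorem iv6_left (x : HS N k) : iv6_g ⟨iv6_Φ x, iv6_mem x⟩ = x := by
  have key : ∀ p : ℂ[X], p - C (p.coeff k) * iv6_q x + C ((p.eval x.1.2 -
      (p - C (p.coeff k) * iv6_q x).eval x.1.2) / (iv6_q x).eval x.1.2) * iv6_q x = p :=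
    fun p => by
      rw [eval_sub, sub_sub_cancel, eval_mul, eval_C,
        mul_div_cancel_right₀ _ (show (iv6_q x).eval x.1.2 ≠ 0 from x.2.2.1), sub_add_cancel]
  exact Subtype.ext (Prod.ext (FM.ext3 (iv6_mul x) (key x.1.1.b) (key x.1.1.c)) rfl)

theorem iv6_right (u : iv6_U N k) : iv6_Φ (iv6_g u) = u := by
  have h1 : iv6_q (iv6_g u) = u.1.1.a := mul_divByMonic_cancel_left _ (monic_X_sub_C _)
  have key : ∀ (p : ℂ[X]) (c : ℂ), p.degree < k → p + C c * u.1.1.a -
      C ((p + C c * u.1.1.a).coeff k) * iv6_q (iv6_g u) = p := fun p c hp => by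
    rw [h1, iv6_coeff c hp u.1.1.a_coeff, add_sub_cancel_right]
  exact Prod.ext (FM.ext3 h1 (key _ (iv6_β u) u.1.1.b_degree) (key _ (iv6_γ u) u.1.1.c_degree))
    (Subtype.ext (Prod.ext rfl (Prod.ext (iv6_eβ u) (iv6_eγ u))))

/-- `Φ (M, w) = (M₁, (w, B(w), C(w)))` with `A₁ = A /ₘ (X - w)`, `β = B.coeff k`, `γ = C.coeff k`,
`B₁ = B - β A₁`, `C₁ = C - γ A₁`, `D₁ = (X - w) D - β C₁ - γ B₁ - β γ A₁`. Inverse on the open set
`{A₁(w) ≠ 0, A₁(0) ≠ 0}`: `β = (x - B₁(w)) / A₁(w)`, `γ = (y - C₁(w)) / A₁(w)`, `A = (X - w) A₁`,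
`B = B₁ + β A₁`, `C = C₁ + γ A₁`, `D = E /ₘ (X - w)` with `E = D₁ + β C₁ + γ B₁ + β γ A₁`
(`A₁ E = B C + X ^ N`, so `E(w) = 0`). Use `openEmb_of_inv`, `FM.ext3`, `FM.cont_of_cp`. -/
theorem hs_emb : ∃ Φ : HS N k → FM N k × Sg N, IsOpenEmbedding Φ ∧
    ∀ x, (Φ x).1.a.eval 0 ≠ 0 :=
  ⟨iv6_Φ, (openEmb_of_inv iv6_cΦ iv6_oU iv6_mem iv6_cg iv6_left iv6_right).1,
    fun x => (iv6_mem x).2⟩

theorem iv6_near {p : ℂ[X]} (hp : p.Monic) {ε : ℝ} (hε : 0 ≤ ε) {w : ℂ}
    (h : ‖p.eval w‖ < ε ^ p.natDegree) : ∃ r, p.eval r = 0 ∧ dist r w < ε := by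
  by_contra! hc
  have : ∀ s : Multiset ℂ, (∀ r ∈ s, ε ≤ dist r w) → ε ^ s.card ≤ ‖(s.map (w - ·)).prod‖ := by
    intro s
    induction s using Multiset.induction_on with
    | empty => simp
    | cons a s ih =>
      intro h
      rw [Multiset.card_cons, Multiset.map_cons, Multiset.prod_cons, norm_mul, pow_succ',
        ← dist_eq_norm, dist_comm]
      exact mul_le_mul (h a (Multiset.mem_cons_self _ _))
        (ih fun r hr => h r (Multiset.mem_cons_of_mem hr)) (by positivity) dist_nonneg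
  rw [(IsAlgClosed.splits p).eval_eq_prod_roots_of_monic hp,
    ← IsAlgClosed.card_roots_eq_natDegree] at h
  exact h.not_ge (this _ fun r hr => hc r (isRoot_of_mem_roots hr))

/-- `|A(w₀)| = ∏ |w₀ - r|` small forces a root near `w₀` -/
theorem hs_open : IsOpenMap fun x : HS N k => x.1.1 := by
  refine isOpenMap_iff_nhds_le.2 fun x W hW => ?_
  obtain ⟨O, hO, h1⟩ := (mem_nhds_subtype _ _ _).1 (mem_map.1 hW)
  obtain ⟨U, hU, B, hB, h2⟩ := mem_nhds_prod_iff.1 (inter_mem hO (iv6_open.mem_nhds x.2.2))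
  obtain ⟨ε, hε, h3⟩ := Metric.mem_nhds_iff.1 hB
  have h4 : {M : FM N (k + 1) | ‖M.a.eval x.1.2‖ < ε ^ (k + 1)} ∈ 𝓝 x.1.1 :=
    (isOpen_lt ((FM.cp 0 0).eval continuous_const).norm continuous_const).mem_nhds (by
      show ‖x.1.1.a.eval x.1.2‖ < _
      rw [x.2.1, norm_zero]; positivity)
  filter_upwards [hU, h4] with M hM hM'
  obtain ⟨r, h5, h6⟩ := iv6_near M.a_monic hε.le (by rwa [M.a_natDegree])
  have h7 := h2 (mk_mem_prod hM (h3 h6))
  exact h1 (a := ⟨(M, r), h5, h7.2⟩) h7.1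
/-- `(M, w, w') ↦ (A /ₘ (X - w))(w')` is continuous and nonzero at `(M₀, w₀, w₀)` -/
theorem hs_inj (x : HS N k) : ∃ U ∈ 𝓝 x, InjOn (fun x : HS N k => x.1.1) U := by
  have h1 : {z : HS N k × HS N k | (iv6_q z.1).eval z.2.1.2 ≠ 0} ∈ 𝓝 (x, x) :=
    (isOpen_ne_fun ((iv6_cpq.comp continuous_fst).eval (iv6_w.comp continuous_snd))
      continuous_const).mem_nhds x.2.2.1
  obtain ⟨U, hU, V, hV, h2⟩ := mem_nhds_prod_iff.1 h1
  refine ⟨U ∩ V, inter_mem hU hV, fun y hy y' hy' h => Subtype.ext (Prod.ext h ?_)⟩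
  have h3 := y'.2.1
  rw [← show y.1.1 = y'.1.1 from h, ← iv6_mul y, eval_mul, eval_sub, eval_X, eval_C] at h3
  exact (sub_eq_zero.1 ((mul_eq_zero.1 h3).resolve_right (h2 (mk_mem_prod hy.1 hy'.2)))).symm
theorem iv6_sh (s : ℂ) : ∃ g : FM N k ≃ₜ FM N k, ∀ M, g M = FM.sh s M :=
  have h : ∀ t, Continuous (FM.sh t : FM N k → FM N k) := fun t =>
    FM.continuous_sh.comp (f := fun M => (t, M)) (by fun_prop)
  ⟨⟨⟨FM.sh s, FM.sh (-s), fun M => by rw [FM.sh_sh, neg_add_cancel, FM.sh_zero],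
    fun M => by rw [FM.sh_sh, add_neg_cancel, FM.sh_zero]⟩, h s, h (-s)⟩, fun _ => rfl⟩

theorem iv6_sep {p : ℂ[X]} {w : ℂ} (h : p.Separable) (h0 : p.eval 0 ≠ 0) (hw : p.IsRoot w) :
    (p /ₘ (X - C w)).eval w ≠ 0 ∧ (p /ₘ (X - C w)).eval 0 ≠ 0 := by
  obtain ⟨q, rfl⟩ := dvd_iff_isRoot.2 hw
  rw [mul_divByMonic_cancel_left _ (monic_X_sub_C _)]
  exact ⟨fun h6 => not_isUnit_X_sub_C w (h.squarefree _
    (mul_dvd_mul_left _ (dvd_iff_isRoot.2 h6))), fun h6 => h0 (by rw [eval_mul, h6, mul_zero])⟩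

/-- `FM.move`; `val = 1`: `w = 0`; `val = 0`: `FM.finite_bad` and any root -/
theorem hs_move (M : FM N (k + 1)) (h : M.val ≤ 1) :
    ∃ (g : FM N (k + 1) ≃ₜ FM N (k + 1)) (x : HS N k), x.1.1 = g M := by
  obtain ⟨g, h1, h2⟩ := M.move
  rcases Nat.le_one_iff_eq_zero_or_eq_one.1 h with h | h <;> rw [h] at h2
  · rw [coeff_zero_eq_eval_zero] at h2
    obtain ⟨s, hs⟩ := ((g M).finite_bad h2).exists_notMem
    obtain ⟨h3, h4⟩ := not_not.1 hs
    obtain ⟨w, hw⟩ := IsAlgClosed.exists_root (FM.sh s (g M)).a (by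
      rw [FM.a_degree]; exact Nat.cast_ne_zero.2 k.succ_ne_zero)
    obtain ⟨g', hg'⟩ := iv6_sh (N := N) (k := k + 1) s
    exact ⟨g.trans g', ⟨(FM.sh s (g M), w), hw, iv6_sep h3 h4 hw⟩, (hg' _).symm⟩
  · obtain ⟨q, hq⟩ := (v_le_val (g M)).1 ((h1 M).trans h).ge 0 0
    have h3 : (g M).a = (X - C 0) * q := by simpa using hq
    have h4 : ((g M).a /ₘ (X - C 0)).eval 0 ≠ 0 := by
      rw [h3, mul_divByMonic_cancel_left _ (monic_X_sub_C _), ← coeff_zero_eq_eval_zero]
      rwa [h3, C_0, sub_zero, coeff_X_mul] at h2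
    exact ⟨g, ⟨(g M, 0), by simp [h3], h4, h4⟩, rfl⟩

end C73
end
end

section
/-! Block V, part 7: the projective line and the blow-up.
For `ℓ = (ℓ₀, ℓ₁) ≠ 0` put `pr ℓ := (|ℓ₀|² / n, conj ℓ₀ * ℓ₁ / n)`, `n = |ℓ₀|² + |ℓ₁|²`; the rows of the
projection are `conj ℓ₀ / n • ℓ` and `conj ℓ₁ / n • ℓ`. Every `p` is `pr` of one of its rows.
Charts `ι t s := pr (s, 1 + t s)` (`t = 0, 1`), with inverse
`s = (conj w - t a) / ((1 - a - t w) - t (conj w - t a))` (the denominator is `|ℓ₁ - t ℓ₀|² / n`). -/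

open Set Filter Topology TopologicalSpace Polynomial

noncomputable section
namespace C73
variable {N k : ℕ}

theorem iv7_closed : IsClosed {p : ℝ × ℂ | Complex.normSq p.2 = p.1 * (1 - p.1)} :=
  isClosed_eq (Complex.continuous_normSq.comp continuous_snd) (by fun_prop)

instance p1_compact : CompactSpace P1 := by
  refine isCompact_iff_compactSpace.1 (((isCompact_Icc (a := (0 : ℝ)) (b := 1)).prod
    (isCompact_closedBall (0 : ℂ) 1)).of_isClosed_subset iv7_closed fun p hp => ?_)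
  have h : Complex.normSq p.2 = p.1 * (1 - p.1) := hp
  have h0 := Complex.normSq_nonneg p.2
  refine ⟨⟨by nlinarith only [h, h0], by nlinarith only [h, h0]⟩, mem_closedBall_zero_iff.2
    ((sq_le_one_iff₀ (norm_nonneg _)).1 ?_)⟩
  rw [← Complex.normSq_eq_norm_sq]
  nlinarith [sq_nonneg p.1]

instance p1_nice : Nice P1 := nice_of_closedEmb iv7_closed.isClosedEmbedding_subtypeVal

theorem iv7_eq (p : P1) : (starRingEnd ℂ) p.1.2 * p.1.2 = p.1.1 * (1 - p.1.1) := by
  rw [← Complex.normSq_eq_conj_mul_self, p.2]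
  push_cast
  rfl

/-- the projection onto the line through `(x, y)` -/
def iv7_pr (x y : ℂ) (h : Complex.normSq x + Complex.normSq y ≠ 0) : P1 :=
  ⟨(Complex.normSq x / (Complex.normSq x + Complex.normSq y),
    (starRingEnd ℂ) x * y / (Complex.normSq x + Complex.normSq y : ℝ)), by
      rw [map_div₀, map_mul, Complex.normSq_conj, Complex.normSq_ofReal]
      field_simp
      ring⟩

theorem iv7_pr_spec {x y : ℂ} (h : Complex.normSq x + Complex.normSq y ≠ 0) :
    ∃ u : ℂ, u * ((starRingEnd ℂ) x * x + (starRingEnd ℂ) y * y) = 1 ∧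
      ((iv7_pr x y h).1.1 : ℂ) = u * (starRingEnd ℂ) x * x ∧
      (iv7_pr x y h).1.2 = u * (starRingEnd ℂ) x * y ∧
      (starRingEnd ℂ) (iv7_pr x y h).1.2 = u * (starRingEnd ℂ) y * x ∧
      1 - ((iv7_pr x y h).1.1 : ℂ) = u * (starRingEnd ℂ) y * y := by
  have h' : ((Complex.normSq x + Complex.normSq y : ℝ) : ℂ) ≠ 0 := Complex.ofReal_ne_zero.2 h
  have e : (starRingEnd ℂ) x * x + (starRingEnd ℂ) y * y =
      (Complex.normSq x + Complex.normSq y : ℝ) := by
    rw [Complex.ofReal_add, Complex.normSq_eq_conj_mul_self, Complex.normSq_eq_conj_mul_self]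
  have e1 : ((iv7_pr x y h).1.1 : ℂ) =
      ((Complex.normSq x + Complex.normSq y : ℝ) : ℂ)⁻¹ * (starRingEnd ℂ) x * x := by
    rw [mul_assoc, ← Complex.normSq_eq_conj_mul_self, inv_mul_eq_div]
    exact Complex.ofReal_div _ _
  have e0 := inv_mul_cancel₀ h'
  refine ⟨_, e ▸ e0, e1, by rw [mul_assoc, inv_mul_eq_div]; rfl, ?_, ?_⟩
  · show (starRingEnd ℂ) (_ / _) = _
    rw [map_div₀, map_mul, Complex.conj_conj, Complex.conj_ofReal]
    ring
  · rw [e1]
    linear_combination (-1 : ℂ) * e0 - ((Complex.normSq x + Complex.normSq y : ℝ) : ℂ)⁻¹ * e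

theorem iv7_pr_eq {x y : ℂ} (h : Complex.normSq x + Complex.normSq y ≠ 0) (p : P1)
    (h1 : y * (starRingEnd ℂ) p.1.2 = x * (1 - p.1.1)) (h2 : x * p.1.2 = y * p.1.1) :
    iv7_pr x y h = p := by
  obtain ⟨u, e0, e1, e2, -⟩ := iv7_pr_spec h
  have h3 := congrArg (starRingEnd ℂ) h1
  rw [map_mul, map_mul, Complex.conj_conj, map_sub, map_one, Complex.conj_ofReal] at h3
  refine Subtype.ext (Prod.ext (Complex.ofReal_injective ?_) ?_)
  · rw [e1]
    linear_combination (p.1.1 : ℂ) * e0 + u * (starRingEnd ℂ) y * h2 - u * x * h3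
  · rw [e2]
    linear_combination p.1.2 * e0 - u * (starRingEnd ℂ) x * h2 - u * y * h3

theorem iv7_kil_pr {x y : ℂ} (h : Complex.normSq x + Complex.normSq y ≠ 0) (M : FM N k) (n : ℕ) :
    Kil (iv7_pr x y h) M n ↔ ∀ j, X ^ n ∣ C x * M.1 0 j + C y * M.1 1 j := by
  obtain ⟨u, e0, e1, e2, e3, e4⟩ := iv7_pr_spec h
  unfold Kil
  rw [e4, e1, e3, e2]
  simp only [map_mul, mul_assoc, ← mul_add]
  refine forall_congr' fun j => ⟨fun ⟨h1, h2⟩ => ?_, fun h => ⟨(h.mul_left _).mul_left _,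
    (h.mul_left _).mul_left _⟩⟩
  have e := congrArg C e0
  simp only [map_mul, map_add, map_one] at e
  convert (h1.mul_left (C x)).add (h2.mul_left (C y)) using 1
  linear_combination -(C x * M.1 0 j + C y * M.1 1 j) * e

theorem iv7_ne (t : ℝ) (s : ℂ) : Complex.normSq s + Complex.normSq (1 + t * s) ≠ 0 := fun h => by
  obtain ⟨h1, h2⟩ := (add_eq_zero_iff_of_nonneg (Complex.normSq_nonneg _)
    (Complex.normSq_nonneg _)).1 h
  rw [Complex.normSq_eq_zero] at h1 h2
  rw [h1, mul_zero, add_zero] at h2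
  exact one_ne_zero h2

/-- the charts -/
def iv7_ch (t : ℝ) (s : ℂ) : P1 := iv7_pr s (1 + t * s) (iv7_ne t s)

def iv7_num (t : ℝ) (p : P1) : ℂ := (starRingEnd ℂ) p.1.2 - t * p.1.1

def iv7_den (t : ℝ) (p : P1) : ℂ := 1 - p.1.1 - t * p.1.2 - t * iv7_num t p

theorem iv7_ch_cont (t : ℝ) : Continuous (iv7_ch t) := by
  have h0 := Complex.continuous_normSq
  have h1 : Continuous fun s : ℂ => Complex.normSq s + Complex.normSq (1 + t * s) :=
    h0.add (h0.comp (by fun_prop))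
  exact ((h0.div h1 (iv7_ne t)).prodMk ((Complex.continuous_conj.mul (by fun_prop)).div
    (Complex.continuous_ofReal.comp h1) fun s => Complex.ofReal_ne_zero.2 (iv7_ne t s))).subtype_mk _

theorem iv7_num_cont (t : ℝ) : Continuous (iv7_num t) :=
  (Complex.continuous_conj.comp (by fun_prop)).sub (by fun_prop)

theorem iv7_den_cont (t : ℝ) : Continuous (iv7_den t) :=
  Continuous.sub (by fun_prop) (continuous_const.mul (iv7_num_cont t))

theorem iv7_left (t : ℝ) (s : ℂ) :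
    iv7_den t (iv7_ch t s) ≠ 0 ∧ iv7_num t (iv7_ch t s) / iv7_den t (iv7_ch t s) = s := by
  obtain ⟨u, e0, e1, e2, e3, e4⟩ := iv7_pr_spec (iv7_ne t s)
  have hu : u ≠ 0 := left_ne_zero_of_mul_eq_one e0
  rw [map_add, map_one, map_mul, Complex.conj_ofReal] at e3 e4
  have h1 : iv7_num t (iv7_ch t s) = u * s := by
    rw [iv7_num, iv7_ch, e3, e1]; ring
  have h2 : iv7_den t (iv7_ch t s) = u := by
    rw [iv7_den, h1, iv7_ch, e4, e2]; ring
  rw [h1, h2]
  exact ⟨hu, mul_div_cancel_left₀ s hu⟩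

theorem iv7_right (t : ℝ) {p : P1} (h : iv7_den t p ≠ 0) :
    iv7_ch t (iv7_num t p / iv7_den t p) = p := by
  have e := iv7_eq p
  have e1 : 1 + t * (iv7_num t p / iv7_den t p) = (1 - p.1.1 - t * p.1.2) / iv7_den t p := by
    rw [eq_div_iff h, add_mul, mul_assoc, div_mul_cancel₀ _ h, iv7_den]; ring
  refine iv7_pr_eq _ p ?_ ?_ <;> rw [e1, div_mul_eq_mul_div, div_mul_eq_mul_div, iv7_num] <;>
    congr 1
  · linear_combination (-t : ℂ) * e
  · linear_combination e

theorem iv7_emb (t : ℝ) : IsOpenEmbedding (iv7_ch t) ∧ range (iv7_ch t) = {p | iv7_den t p ≠ 0} :=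
  openEmb_of_inv (iv7_ch_cont t) (isOpen_ne_fun (iv7_den_cont t) continuous_const)
    (fun s => (iv7_left t s).1) (g := fun p => iv7_num t p / iv7_den t p)
    (((iv7_num_cont t).comp continuous_subtype_val).div
      ((iv7_den_cont t).comp continuous_subtype_val) fun p => p.2)
    (fun s => (iv7_left t s).2) fun p => iv7_right t p.2

theorem iv7_pole {p : P1} (h : iv7_den 0 p = 0) : p.1 = (1, 0) := by
  have h1 : p.1.1 = 1 := by
    rw [iv7_den, Complex.ofReal_zero, zero_mul, zero_mul, sub_zero, sub_zero, sub_eq_zero] at h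
    exact_mod_cast h.symm
  have h2 := p.2
  rw [h1, sub_self, mul_zero, Complex.normSq_eq_zero] at h2
  exact Prod.ext h1 h2

theorem iv7_pole' {p : P1} (h : p.1 = (1, 0)) : iv7_den 1 p ≠ 0 := by
  simp [iv7_den, iv7_num, h]

theorem p1_charts : ∃ (ι ι' : ℂ → P1) (w0 : ℂ), IsOpenEmbedding ι ∧ IsOpenEmbedding ι' ∧
    ∀ p, p ∈ range ι ∨ p = ι' w0 := by
  refine ⟨iv7_ch 0, iv7_ch 1, _, (iv7_emb 0).1, (iv7_emb 1).1, fun p =>
    (ne_or_eq (iv7_den 0 p) 0).imp (fun h => ⟨_, iv7_right 0 h⟩) fun h =>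
      Eq.trans (Subtype.ext (iv7_pole h)) (iv7_right 1 (p := ⟨(1, 0), by simp⟩)
        (iv7_pole' rfl)).symm⟩

theorem p1_finite (w : ℂ) : {p : P1 | p.1.2 = w}.Finite := by
  rcases eq_empty_or_nonempty {p : P1 | p.1.2 = w} with h | ⟨q, hq⟩
  · rw [h]; exact finite_empty
  refine Finite.of_finite_image (f := fun p => p.1.1) ((toFinite {q.1.1, 1 - q.1.1}).subset ?_)
    fun p hp p' hp' e => Subtype.ext (Prod.ext e (hp.trans hp'.symm))
  rintro _ ⟨p, hp, rfl⟩
  have h1 := p.2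
  rw [hp.trans hq.symm, q.2] at h1
  have : (p.1.1 - q.1.1) * (p.1.1 - (1 - q.1.1)) = 0 := by linear_combination h1
  exact (mul_eq_zero.1 this).imp sub_eq_zero.1 sub_eq_zero.1

theorem kil_closed (n : ℕ) : IsClosed {x : FM N k × P1 | Kil x.2 x.1 n} := by
  unfold Kil
  rw [ofPred_forall]
  have h := fun i j => FM.cp_comp (continuous_fst : Continuous fun x : FM N k × P1 => x.1) i j
  refine isClosed_iInter fun j => IsClosed.inter
    ((((CP.C (by fun_prop)).mul (h 0 j)).add ((CP.C (by fun_prop)).mul (h 1 j))).isClosed_dvd n)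
    ((((CP.C (Complex.continuous_conj.comp (by fun_prop))).mul (h 0 j)).add
      ((CP.C (by fun_prop)).mul (h 1 j))).isClosed_dvd n)

theorem kil_of_val {M : FM N k} {n : ℕ} (h : n ≤ M.val) (p : P1) : Kil p M n := fun j =>
  have h0 := (v_le_val M).1 h 0 j
  have h1 := (v_le_val M).1 h 1 j
  ⟨(h0.mul_left _).add (h1.mul_left _), (h0.mul_left _).add (h1.mul_left _)⟩

theorem kil_unique {M : FM N k} {n : ℕ} {p p' : P1} (h : Kil p M n) (h' : Kil p' M n)
    (hp : p ≠ p') : n ≤ M.val := by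
  have hD : ((p.1.1 : ℂ) - p'.1.1) * (p.1.1 - p'.1.1) +
      ((starRingEnd ℂ) p.1.2 - (starRingEnd ℂ) p'.1.2) * (p.1.2 - p'.1.2) ≠ 0 := fun e => by
    rw [← map_sub, ← Complex.normSq_eq_conj_mul_self] at e
    obtain ⟨h1, h2⟩ := (add_eq_zero_iff_of_nonneg (mul_self_nonneg (p.1.1 - p'.1.1))
      (Complex.normSq_nonneg (p.1.2 - p'.1.2))).1 (by exact_mod_cast e)
    exact hp (Subtype.ext (Prod.ext (sub_eq_zero.1 (mul_self_eq_zero.1 h1))
      (sub_eq_zero.1 (Complex.normSq_eq_zero.1 h2))))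
  have hu := isUnit_C.2 hD.isUnit
  simp only [map_add, map_mul, map_sub] at hu
  refine (v_le_val M).2 fun i j => hu.dvd_mul_left.1 ?_
  have h1 := (h j).1.sub (h' j).1
  have h2 := (h j).2.sub (h' j).2
  simp only [map_sub, map_one] at h2
  revert i
  rw [Fin.forall_fin_two]
  constructor
  · convert (h1.mul_left (C (p.1.1 : ℂ) - C (p'.1.1 : ℂ))).add
      (h2.mul_left (C p.1.2 - C p'.1.2)) using 1
    ring
  · convert (h1.mul_left (C ((starRingEnd ℂ) p.1.2) - C ((starRingEnd ℂ) p'.1.2))).sub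
      (h2.mul_left (C (p.1.1 : ℂ) - C (p'.1.1 : ℂ))) using 1
    ring

/-- `det M(0) = 0` -/
theorem kil_exists (M : FM (N + 1) k) : ∃ p, Kil p M 1 := by
  have hd := congrArg (coeff · 0) M.det_eq
  simp only [coeff_sub, mul_coeff_zero, coeff_X_pow, if_neg (Nat.succ_ne_zero N).symm] at hd
  have key : ∀ x y : ℂ, ¬ (x = 0 ∧ y = 0) → x * M.a.coeff 0 + y * M.c.coeff 0 = 0 →
      x * M.b.coeff 0 + y * M.d.coeff 0 = 0 → ∃ p, Kil p M 1 := fun x y h h1 h2 => by
    refine ⟨_, (iv7_kil_pr (x := x) (y := y) (fun e => h ?_) M 1).2 ?_⟩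
    · simpa only [Complex.normSq_eq_zero] using (add_eq_zero_iff_of_nonneg (Complex.normSq_nonneg _)
        (Complex.normSq_nonneg _)).1 e
    · simp only [Fin.forall_fin_two, pow_one, X_dvd_iff, coeff_add, coeff_C_mul]
      exact ⟨h1, h2⟩
  by_cases h1 : M.c.coeff 0 = 0 ∧ -M.a.coeff 0 = 0
  · by_cases h2 : M.d.coeff 0 = 0 ∧ -M.b.coeff 0 = 0
    · exact key 1 0 (fun h => one_ne_zero h.1) (by linear_combination -h1.2)
        (by linear_combination -h2.2)
    · exact key _ _ h2 (by linear_combination hd) (by ring)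
  · exact key _ _ h1 (by ring) (by linear_combination -hd)

instance ft_nice (N k : ℕ) : Nice (FT N k) :=
  nice_of_closedEmb (kil_closed 1).isClosedEmbedding_subtypeVal

theorem ft_proper : IsProperMap fun x : FT N k => x.1.1 :=
  isProperMap_fst_of_compactSpace.comp (kil_closed 1).isClosedEmbedding_subtypeVal.isProperMap

theorem iv7_kil_sh (t : ℝ) (s : ℂ) (M : FM N k) (n : ℕ) :
    Kil (iv7_ch t s) (FM.sh (-t) M) n ↔ X ^ n ∣ C s * M.a + M.c ∧ X ^ n ∣ C s * M.b + M.d := by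
  rw [iv7_ch, iv7_kil_pr, Fin.forall_fin_two]
  have e1 : C s * (FM.sh (-t) M).a + C (1 + t * s) * (FM.sh (-t) M).c = C s * M.a + M.c := by
    simp only [FM.sh, FM.mk_a, FM.mk_c, map_add, map_one, map_mul, map_neg]
    ring
  have e2 : C s * (FM.sh (-t) M).b + C (1 + t * s) * (FM.sh (-t) M).d = C s * M.b + M.d -
      (M.b + C (-t : ℂ) * M.d) /ₘ (M.a + C (-t : ℂ) * M.c) * (C s * M.a + M.c) := by
    simp only [FM.sh, FM.mk_b, FM.mk_d, modByMonic_eq_sub_mul_div]
    generalize (M.b + C (-t : ℂ) * M.d) /ₘ (M.a + C (-t : ℂ) * M.c) = q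
    simp only [map_add, map_one, map_mul, map_neg]
    ring
  rw [e1, e2]
  exact and_congr_right fun h => dvd_sub_left (h.mul_left _)

theorem iv7_divX {q : ℂ[X]} (h : X ^ 1 ∣ q) : X * q.divX = q := by
  have := X_mul_divX_add q
  rwa [X_dvd_iff.1 (pow_one (X : ℂ[X]) ▸ h), map_zero, add_zero] at this

/-- the inverse of `up` -/
def iv7_dn (M : FM (N + 1) k) (s : ℂ)
    (h : X ^ 1 ∣ C s * M.a + M.c ∧ X ^ 1 ∣ C s * M.b + M.d) : FM N k :=
  FM.mk M.a M.b (C s * M.a + M.c).divX (C s * M.b + M.d).divX M.a_monic M.a_natDegree M.b_degree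
    (by
      rw [degree_lt_iff_coeff_zero]
      intro m hm
      rw [coeff_divX, coeff_add, coeff_C_mul, coeff_eq_zero_of_natDegree_lt (p := M.a)
        (by rw [M.a_natDegree]; omega), mul_zero, zero_add]
      exact coeff_eq_zero_of_degree_lt (M.c_degree.trans_le (by exact_mod_cast hm.trans m.le_succ)))
    (mul_left_cancel₀ X_ne_zero (by
      rw [← pow_succ', ← M.det_eq]
      linear_combination M.a * iv7_divX h.2 - M.b * iv7_divX h.1))

theorem iv7_sl_dn (M : FM (N + 1) k) (s : ℂ) (h) : (iv7_dn M s h).sl = s := by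
  rw [FM.sl, iv7_dn, FM.mk_c, iv7_divX h.1, coeff_add, coeff_C_mul, M.a_coeff, mul_one,
    coeff_eq_zero_of_degree_lt M.c_degree, add_zero]

theorem iv7_up_dn (M : FM (N + 1) k) (s : ℂ) (h) : (iv7_dn M s h).up = M := by
  refine FM.ext3 rfl rfl ?_
  rw [FM.up, FM.mk_c, iv7_sl_dn, iv7_dn, FM.mk_c, FM.mk_a, iv7_divX h.1, add_sub_cancel_left]

theorem iv7_up (M : FM N k) :
    C M.sl * M.up.a + M.up.c = X * M.c ∧ C M.sl * M.up.b + M.up.d = X * M.d :=
  ⟨add_sub_cancel _ _, add_sub_cancel _ _⟩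

theorem iv7_dn_up {M₁ : FM (N + 1) k} {s : ℂ} (h) {M : FM N k} (e1 : M₁ = M.up) (e2 : s = M.sl) :
    iv7_dn M₁ s h = M := by
  subst e1 e2
  refine FM.ext3 rfl rfl (mul_left_cancel₀ X_ne_zero ?_)
  rw [iv7_dn, FM.mk_c, iv7_divX h.1, (iv7_up M).1]

theorem iv7_kil_up (t : ℝ) (M : FM N k) (c : ℕ) :
    Kil (iv7_ch t M.sl) (FM.sh (-t) M.up) (c + 1) ↔ X ^ c ∣ M.c ∧ X ^ c ∣ M.d := by
  rw [iv7_kil_sh, (iv7_up M).1, (iv7_up M).2, pow_succ', mul_dvd_mul_iff_left X_ne_zero,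
    mul_dvd_mul_iff_left X_ne_zero]

theorem iv7_s1 (t : ℝ) (M : FM N k) : FM.sh (-t) (FM.sh t M) = M := by
  rw [FM.sh_sh, neg_add_cancel, FM.sh_zero]

theorem iv7_s2 (t : ℝ) (M : FM N k) : FM.sh t (FM.sh (-t) M) = M := by
  rw [FM.sh_sh, add_neg_cancel, FM.sh_zero]

/-- the charts of the blow-up -/
def iv7_chi (t : ℝ) (M : FM N k) : FT (N + 1) k :=
  ⟨(FM.sh (-t) M.up, iv7_ch t M.sl), (iv7_kil_up t M 0).2 (by simp only [pow_zero, one_dvd, and_self])⟩

/-- their inverses -/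
def iv7_inv (t : ℝ) (y : {y : FT (N + 1) k | iv7_den t y.1.2 ≠ 0}) : FM N k :=
  iv7_dn (FM.sh t y.1.1.1) (iv7_num t y.1.1.2 / iv7_den t y.1.1.2)
    ((iv7_kil_sh t _ _ 1).1 (by rw [iv7_right t y.2, iv7_s1]; exact y.1.2))

theorem iv7_sh_cont {Y : Type} [TopologicalSpace Y] {F : Y → FM N k} (hF : Continuous F) (s : ℂ) :
    Continuous fun y => FM.sh s (F y) :=
  Continuous.comp (g := fun p : ℂ × FM N k => FM.sh p.1 p.2) (f := fun y => (s, F y))
    FM.continuous_sh (continuous_const.prodMk hF)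

theorem iv7_chi_cont (t : ℝ) : Continuous (iv7_chi t : FM N k → FT (N + 1) k) := by
  exact ((iv7_sh_cont FM.continuous_up _).prodMk ((iv7_ch_cont t).comp FM.continuous_sl)).subtype_mk _

theorem iv7_dn_cont {Y : Type} [TopologicalSpace Y] {F : Y → FM (N + 1) k} {s : Y → ℂ}
    (hF : Continuous F) (hs : Continuous s)
    (h : ∀ y, X ^ 1 ∣ C (s y) * (F y).a + (F y).c ∧ X ^ 1 ∣ C (s y) * (F y).b + (F y).d) :
    Continuous fun y => iv7_dn (F y) (s y) (h y) :=
  FM.cont_of_cp (FM.cp_comp hF 0 0) (FM.cp_comp hF 0 1)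
    (((CP.C hs).mul (FM.cp_comp hF 0 0)).add (FM.cp_comp hF 1 0)).divX
    (((CP.C hs).mul (FM.cp_comp hF 0 1)).add (FM.cp_comp hF 1 1)).divX

theorem iv7_inv_cont (t : ℝ) : Continuous (iv7_inv t : _ → FM N k) := by
  have hv : Continuous fun y : {y : FT (N + 1) k | iv7_den t y.1.2 ≠ 0} => y.1.1 :=
    continuous_subtype_val.comp continuous_subtype_val
  have h2 : Continuous fun y : {y : FT (N + 1) k | iv7_den t y.1.2 ≠ 0} =>
      iv7_num t y.1.1.2 / iv7_den t y.1.1.2 :=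
    ((iv7_num_cont t).comp hv.snd).div ((iv7_den_cont t).comp hv.snd) fun y => y.2
  exact iv7_dn_cont (iv7_sh_cont hv.fst t) h2 _

theorem iv7_chi_inv (t : ℝ) (y : {y : FT (N + 1) k | iv7_den t y.1.2 ≠ 0}) :
    iv7_chi t (iv7_inv t y) = y := by
  refine Subtype.ext (Prod.ext ?_ ?_)
  · show FM.sh (-t) (iv7_inv t y).up = _
    rw [iv7_inv, iv7_up_dn, iv7_s1]
  · show iv7_ch t (iv7_inv t y).sl = _
    rw [iv7_inv, iv7_sl_dn, iv7_right t y.2]

/-- `χ t M := (sh (-t) (up M), ι t (sl M))`; inverse on `{p ∈ range (ι t)}`: `s = (ι t)⁻¹ p`,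
`M₁ = sh t M`, `(A₁, B₁; (C₁ + s A₁) / X, (D₁ + s B₁) / X)`. `Kil (pr ℓ) M n` iff the entries of
`ℓ M` are divisible by `X ^ n`; `sh t M = (1 t; 0 1) M (1 -q; 0 1)`. -/
theorem ft_chart (x : FT (N + 1) k) : ∃ χ : FM N k → FT (N + 1) k, IsOpenEmbedding χ ∧
    x ∈ range χ ∧ ∀ M c, c ≤ M.val ↔ c ≤ (χ M).1.1.val ∧ Kil (χ M).1.2 (χ M).1.1 (c + 1) := by
  obtain ⟨t, ht⟩ : ∃ t, iv7_den t x.1.2 ≠ 0 :=
    (ne_or_eq (iv7_den 0 x.1.2) 0).elim (fun h => ⟨0, h⟩) fun h => ⟨1, iv7_pole' (iv7_pole h)⟩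
  obtain ⟨h1, h2⟩ := openEmb_of_inv (iv7_chi_cont (N := N) (k := k) t)
    (isOpen_ne_fun ((iv7_den_cont t).comp continuous_subtype_val.snd) continuous_const)
    (fun M => (iv7_left t M.sl).1) (iv7_inv_cont t)
    (fun M => iv7_dn_up _ (iv7_s2 t M.up) (iv7_left t M.sl).2) (iv7_chi_inv t)
  refine ⟨_, h1, h2 ▸ ht, fun M c => ?_⟩
  show _ ↔ c ≤ (FM.sh (-t) M.up).val ∧ Kil (iv7_ch t M.sl) (FM.sh (-t) M.up) (c + 1)
  rw [iv7_kil_up, FM.val_sh, v_le_val, v_le_val, FM.forall_entry, FM.forall_entry]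
  exact ⟨fun ⟨ha, hb, hc, hd⟩ => ⟨⟨ha, hb, (hc.mul_left _).sub (ha.mul_left _),
    (hd.mul_left _).sub (hb.mul_left _)⟩, hc, hd⟩, fun h => ⟨h.1.1, h.1.2.1, h.2⟩⟩

end C73
end
end

section
/-! Block V, part 8: the two inductions and the link condition. -/

open Set Filter Topology TopologicalSpace Polynomial

noncomputable section
namespace C73

theorem spb_one {N : ℕ} (hN : N ≠ 0) (k : ℕ) :
    SPb (FM N k) {M | M.val ≤ 1} (4 * k - 1) := by
  induction k with
  | zero =>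
    have : Subsingleton (FM N 0) := ⟨FM.subsingleton_zero⟩
    exact spb_point.mono (subset_univ _) (by simp)
  | succ k ih =>
    obtain ⟨q, hq⟩ := sg_finQuo hN
    obtain ⟨Φ, hΦ, h0⟩ := hs_emb (N := N) (k := k)
    have h2 : SPb (FM N k × Sg N) ({M | M.val ≤ 1} ×ˢ univ) (4 * (k + 1 : ℕ) - 1) :=
      SPb.of_finQuo hq.id_prod ((ih.prod (ℂ × ℂ)).mono (fun y hy => ⟨hy.1, trivial⟩)
        (by simp; omega))
    have h3 : SPb (HS N k) univ (4 * (k + 1 : ℕ) - 1) := (h2.comap hΦ).mono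
      (fun x _ => ⟨(FM.val_eq_zero _ (h0 x)).trans_le zero_le_one, trivial⟩) le_rfl
    have h4 := SPb.of_locInj (f := fun x : HS N k => x.1.1) (by fun_prop) hs_open hs_inj h3
    refine SPb.of_nhds fun M hM => ?_
    obtain ⟨g, x, hx⟩ := hs_move M hM
    exact ⟨_, hs_open.isOpen_range.preimage g.continuous, ⟨x, hx⟩, h4.comap g.isOpenEmbedding⟩

theorem iv8_step {N k c : ℕ} {β : ℤ} (h1 : SPb (FM (N + 1) (k + 1)) {M | M.val ≤ c + 1} β)
    (h2 : SPb (FM (N + 1) (k + 1)) {M | M.val ≤ c} (β + 2))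
    (h0 : SPb (FM N k) {M | M.val ≤ c} (β - 3)) :
    SPb (FM (N + 1 + 1) (k + 1)) {M | M.val ≤ c + 1} β := by
  obtain ⟨ι, ι', w0, hι, hι', hp⟩ := p1_charts
  obtain ⟨ha, har⟩ := FM.sc_emb (N := N) (k := k) 1
  let a : FM N k → FM (N + 1 + 1) (k + 1) := FM.sc 1
  have hv : ∀ M, (a M).val = M.val + 1 := FM.val_sc 1
  let b : FM N k × P1 → FT (N + 1 + 1) (k + 1) := fun y =>
    ⟨(a y.1, y.2), kil_of_val (by rw [hv]; omega) _⟩
  have hb : IsEmbedding b :=
    IsEmbedding.subtypeVal.of_comp_iff.1 (ha.isEmbedding.prodMap IsEmbedding.id)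
  let T : Set (FT (N + 1 + 1) (k + 1)) := {x | c + 1 ≤ x.1.1.val ∧ Kil x.1.2 x.1.1 (c + 1 + 1)}
  refine spb_blow (π := fun x : FT (N + 1 + 1) (k + 1) => x.1.1) (a := a) (b := b) ft_proper ha hb
    (fun _ => rfl) ?_ ?_ hι hι' hp (r := fun x => x.1.2.1.2) (by fun_prop) ?_
    (h0.mono (fun M hM => ?_) le_rfl) (T := T) ?_ ?_ ?_ ?_
  · rintro x ⟨M, hM⟩
    exact ⟨(M, x.1.2), Subtype.ext (Prod.ext hM rfl)⟩
  · intro M hM
    obtain ⟨p, hp⟩ := kil_exists M
    refine ⟨⟨(M, p), hp⟩, eq_singleton_iff_unique_mem.2 ⟨rfl, fun x hx => ?_⟩⟩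
    refine Subtype.ext (Prod.ext hx (by_contra fun hne => hM ?_))
    have h3 : Kil x.1.2 M 1 := (show x.1.1 = M from hx) ▸ x.2
    exact har.symm.subset (kil_unique h3 hp hne)
  · intro M w
    refine Finite.of_finite_image (f := fun x => x.1.2) ((p1_finite w).subset ?_) ?_
    · rintro _ ⟨x, hx, rfl⟩; exact hx.2
    · exact fun x hx y hy hxy => Subtype.ext (Prod.ext (hx.1.trans hy.1.symm) hxy)
  · have : (a M).val ≤ c + 1 := hM
    rw [hv] at this
    exact Nat.le_of_succ_le_succ this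
  · exact ((FM.isClosed_le_val _).preimage (by fun_prop)).inter
      ((kil_closed _).preimage continuous_subtype_val)
  · intro x hx y hy hxy
    refine Subtype.ext (Prod.ext hxy (by_contra fun hne => ?_))
    have h3 : Kil y.1.2 x.1.1 (c + 1 + 1) := (show y.1.1 = x.1.1 from hxy.symm) ▸ hy.1.2
    have h4 := kil_unique hx.1.2 h3 hne
    have h5 : x.1.1.val ≤ c + 1 := hx.2
    omega
  · refine SPb.of_local fun x _ => ?_
    obtain ⟨χ, hχ, hx, h⟩ := ft_chart x
    exact ⟨_, inferInstance, χ, hχ, hx,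
      h1.mono (fun M hM => ((h M _).1 le_rfl).1.trans hM.2) le_rfl⟩
  · refine SPb.of_local fun x _ => ?_
    obtain ⟨χ, hχ, hx, h⟩ := ft_chart x
    exact ⟨_, inferInstance, χ, hχ, hx,
      h2.mono (fun M hM => Nat.le_of_lt_succ (not_le.1 fun h3 => hM.2 ((h M _).1 h3))) le_rfl⟩

theorem spb_all (N : ℕ) (hN : N ≠ 0) (k c : ℕ) (hc : 1 ≤ c) :
    SPb (FM N k) {M | M.val ≤ c} (4 * k - 2 * c + 1) := by
  induction N using Nat.strong_induction_on generalizing k c with
  | _ N ih =>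
  induction c, hc using Nat.le_induction with
  | base => exact (spb_one hN k).mono subset_rfl (by omega)
  | succ c hc ihc =>
    by_cases h : c + 1 ≤ k ∧ 2 * (c + 1) ≤ N
    · obtain ⟨k, rfl⟩ : ∃ k', k = k' + 1 := ⟨k - 1, by omega⟩
      obtain ⟨N, rfl⟩ : ∃ N', N = N' + 1 + 1 := ⟨N - 2, by omega⟩
      exact iv8_step (ih _ (by omega) (by omega) _ _ (by omega))
        ((ih _ (by omega) (by omega) _ _ hc).mono subset_rfl (by push_cast; omega))
        ((ih _ (by omega) (by omega) _ _ hc).mono subset_rfl (by push_cast; omega))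
    · refine ihc.mono (fun M hM => ?_) (by push_cast; omega)
      have h1 := v_val_le M
      have h2 : M.val ≤ c + 1 := hM
      show M.val ≤ c
      omega

theorem iv8_link (N k l d : ℕ) (hd : d < 2 * k) {T : Set (FM (N + 2 * l) (k + l))}
    (hT : T = {M | l ≤ M.val}) (V : Set T) (hV : IsOpen V) (hdV : ∀ y ∈ V, d ≤ FM.st y.1)
    (i : ℤ) (hi : i ≤ -(d : ℤ) + 1) :
    (resC T ℚ (2 * k : ℕ)).Van i V {y ∈ V | d < FM.st y.1} := by
  subst hT
  obtain ⟨ha, har⟩ := FM.sc_emb (N := N) (k := k) l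
  let e : FM N k → {M : FM (N + 2 * l) (k + l) | l ≤ M.val} := fun M =>
    ⟨FM.sc l M, har.subset ⟨M, rfl⟩⟩
  have he : IsEmbedding e := IsEmbedding.subtypeVal.of_comp_iff.1 ha.isEmbedding
  have hs : Function.Surjective e := fun y =>
    let ⟨M, hM⟩ := har.symm.subset y.2; ⟨M, Subtype.ext hM⟩
  have hst : ∀ M, FM.st (e M).1 = 2 * (k - M.val) := fun M => by
    show 2 * (k + l - (FM.sc l M).val) = _
    rw [FM.val_sc]; omega
  have h6 := resC_van_emb (k := i + (2 * k : ℕ)) he ℚ 0 (B := e ⁻¹' V)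
    (B' := e ⁻¹' {y ∈ V | d < FM.st y.1}) (fun y hy => hy.1)
  rw [image_preimage_eq _ hs, image_preimage_eq _ hs] at h6
  rw [resC_shift, ← h6]
  by_cases hZ : ∀ M ∈ e ⁻¹' V, d < 2 * (k - M.val)
  · exact PC.van_self _ fun M hM => ⟨hM, by rw [hst]; exact hZ M hM⟩
  push Not at hZ
  obtain ⟨M0, hM0, h0⟩ := hZ
  have h1 := hdV _ hM0
  rw [hst] at h1
  have h2 := v_val_le M0
  have hV' := hV.preimage he.continuous
  have e1 : e ⁻¹' {y ∈ V | d < FM.st y.1} = e ⁻¹' V \ {M | M0.val ≤ M.val} := by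
    ext M
    have := v_val_le M
    simp only [mem_preimage, mem_ofPred_eq, Set.mem_sdiff, hst, and_congr_right_iff]
    omega
  rw [e1]
  have h3 : ∀ M ∈ {M : FM N k | M0.val ≤ M.val} ∩ e ⁻¹' V, M.val = M0.val := fun M hM => by
    have h4 := hdV _ hM.2
    have h5 : M0.val ≤ M.val := hM.1
    have := v_val_le M
    rw [hst] at h4
    omega
  refine (spb_all N (by omega) k M0.val (by omega)).sp0.van_loc (e := 4 * ((k : ℤ) - M0.val)) hV'
    (hV'.sdiff (FM.isClosed_le_val _)) (fun M hM => (h3 M hM).le) (fun M hM => ?_) _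
    (by push_cast; omega)
  obtain ⟨U, hU, hF⟩ := FM.fto_stratum M
  rw [h3 M hM] at hF
  exact ⟨U ∩ e ⁻¹' V, inter_mem hU (hV'.mem_nhds hM.2),
    hF.mono (fun y hy => ⟨hy.1.1, h3 y ⟨hy.2, hy.1.2⟩⟩) le_rfl⟩

theorem v_link (N k : ℕ) : Link (FM.st : FM N k → ℕ) := by
  intro z d hd V hV hdV i hi
  have h := v_val_le z
  generalize hl : z.val = l at h
  obtain ⟨k, rfl⟩ : ∃ k', k = k' + l := ⟨k - l, by omega⟩
  obtain ⟨N, rfl⟩ : ∃ N', N = N' + 2 * l := ⟨N - 2 * l, by omega⟩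
  have hz : z.st = 2 * k := by rw [FM.st, hl, Nat.add_sub_cancel]
  have := iv8_link N k l d (hz ▸ hd) (T := {y | y.st ≤ z.st}) ?_ V hV hdV i hi
  · rwa [← hz] at this
  · ext M
    have := v_val_le M
    simp only [mem_ofPred_eq, hz, FM.st]
    omega

end C73
end
end

section
/-! Block V (owner helper38): the matrix model. -/

open Set Filter Topology TopologicalSpace

noncomputable section
namespace C73



theorem fm_nice (N k : ℕ) : Nice (FM N k) := v_fm_nice N k
theorem fm_val_le {N k : ℕ} (M : FM N k) : M.val ≤ k ∧ 2 * M.val ≤ N := v_val_le M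
theorem fm_le_val {N k c : ℕ} (M : FM N k) : c ≤ M.val ↔ ∀ i j, Polynomial.X ^ c ∣ M.1 i j :=
  v_le_val M
theorem fm_link (N k : ℕ) : Link (FM.st : FM N k → ℕ) := v_link N k
/-- generic points (distinct nonzero roots of `A / X^c`) are dense in `{c ≤ val}` -/
theorem fm_dense {N k c : ℕ} (M : FM N k) (h : c ≤ M.val) :
    M ∈ closure {M' : FM N k | c ≤ M'.val ∧ ∃ r : Fin (k - c) → ℂ, Function.Injective r ∧
      (∀ a, r a ≠ 0) ∧ M'.1 0 0 = Polynomial.X ^ c * ∏ a, (Polynomial.X - Polynomial.C (r a))} :=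
  u2_dense M h

end C73
end
end

section
/-! Block U (owner helper41): the `A₁` Coulomb branch is the matrix model. -/

open Set Filter Topology TopologicalSpace

noncomputable section
namespace C73

namespace U6
open Polynomial Lagrange
open AddMonoidAlgebra hiding coeff_map
variable {N k : ℕ}

/-- `w_a` in `LL` -/
abbrev wL (a : Fin k) : LL (Fin k) := pL (MvPolynomial.X a)

theorem wL_inj : Function.Injective (wL : Fin k → LL (Fin k)) := fun _ _ h =>
  MvPolynomial.X_injective (pL_inj h)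

theorem map_nodal (s : Finset (Fin k)) :
    (nodal s MvPolynomial.X).map (Ugen.pA (k := k)).toRingHom = nodal s wL := by
  simp only [AlgHom.toRingHom_eq_coe, nodal, Polynomial.map_prod, Polynomial.map_sub, map_X, map_C, RingHom.coe_coe, Ugen.pA_apply]

theorem rename_nodal (σ : Equiv.Perm (Fin k)) (s : Finset (Fin k)) (n : ℕ) :
    MvPolynomial.rename σ ((nodal s (MvPolynomial.X : Fin k → PP (Fin k))).coeff n) =
      (nodal (s.map σ.toEmbedding) MvPolynomial.X).coeff n := by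
  have := coeff_map (p := nodal s (MvPolynomial.X : Fin k → PP (Fin k)))
    (MvPolynomial.rename (R := ℂ) σ).toRingHom n
  rw [← show _ = MvPolynomial.rename σ _ from this]
  simp only [AlgHom.toRingHom_eq_coe, nodal, Polynomial.map_prod, Polynomial.map_sub, map_X, map_C, RingHom.coe_coe, MvPolynomial.rename_X, Finset.prod_map, Function.Embedding.coeFn_mk]

theorem coeff_nodal (s : Finset (Fin k)) (n : ℕ) :
    (nodal s wL).coeff n = pL ((nodal s MvPolynomial.X).coeff n) := by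
  rw [← map_nodal, coeff_map]; rfl

theorem a_mem (n : ℕ) : (nodal Finset.univ wL).coeff n ∈ CouA1 N k := by
  rw [coeff_nodal]
  exact pL_mem fun σ _ => by rw [rename_nodal, Finset.map_univ_equiv]

theorem b_mem {ε : ℤ} (hε : ε = 1 ∨ ε = -1) (s : ℂ) (n : ℕ) :
    (∑ a, C (s • mA N ε a) * nA wL a).coeff n ∈ CouA1 N k := by
  let f := fun a : Fin k => (nodal (Finset.univ.erase a) (MvPolynomial.X : _ → PP _)).coeff n
  have h1 : ∀ a, mono (fun _ => ()) (fun _ _ => 0) (fun _ => N) (Pi.single a ε) (f a) =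
      ∑ σ : Equiv.Perm (Fin k), mA N ε (σ a) * pL (f (σ a)) := fun a => by
    refine Finset.sum_congr (by ext; simp only [implies_true, Finset.filter_true, Finset.mem_univ]) fun σ _ => ?_
    have : (Pi.single a ε : Fin k → ℤ) ∘ σ.symm = Pi.single (σ a) ε := by
      funext b; simp [Pi.single_apply, Equiv.symm_apply_eq]
    rw [this, rename_nodal, Finset.map_erase, Finset.map_univ_equiv, mA, pL, single_mul_single,
      add_zero, mul_comm]
    rfl
  have h2 : ∑ a, mono (fun _ => ()) (fun _ _ => 0) (fun _ => N) (Pi.single a ε) (f a) ∈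
      CouA1 N k := Subalgebra.sum_mem _ fun a _ => mono_mem (by
    rcases hε with rfl | rfl
    exacts [Or.inl fun b => by by_cases h : b = a <;> simp [h],
      Or.inr fun b => by by_cases h : b = a <;> simp [h]]) _
  have h3 : ∀ σ : Equiv.Perm (Fin k), ∑ a, mA N ε (σ a) * pL (f (σ a)) =
      ∑ a, mA N ε a * pL (f a) := fun σ => Equiv.sum_comp σ fun a => mA N ε a * pL (f a)
  simp only [h1] at h2
  rw [Finset.sum_comm] at h2
  simp only [h3, Finset.sum_const, ← Nat.cast_smul_eq_nsmul ℂ] at h2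
  have h4 := Subalgebra.smul_mem _ h2 (s / (Finset.univ : Finset (Equiv.Perm (Fin k))).card)
  rw [smul_smul, div_mul_cancel₀ _ (Nat.cast_ne_zero.2 (Finset.card_ne_zero_of_mem
    (Finset.mem_univ 1)))] at h4
  simpa only [finsetSum_coeff, coeff_C_mul, coeff_nodal, smul_mul_assoc, Finset.smul_sum] using h4

theorem nA_eval (c : Fin k) :
    (nA wL c).eval (wL c) = single 0 (∏ b ∈ Finset.univ.erase c, (ww c - ww b)) := by
  have : ∀ x : KK (Fin k), single 0 x = algebraMap (KK (Fin k)) (LL (Fin k)) x := fun _ => rfl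
  rw [eval_nodal, this, map_prod]
  exact Finset.prod_congr rfl fun b _ => by rw [map_sub]; rfl

theorem prod_ne (c : Fin k) : ∏ b ∈ Finset.univ.erase c, (ww c - ww b) ≠ 0 :=
  Finset.prod_ne_zero_iff.2 fun _ h => Ugen.ww_ne (Finset.mem_erase.1 h).1.symm

theorem u_val (c : Fin k) : mA N 1 c * (nA wL c).eval (wL c) = single (Pi.single c 1) 1 := by
  rw [nA_eval, mA, single_mul_single, add_zero, Ugen.EE_eq, Finset.prod_eq_one,
    Finset.prod_eq_single c, ← Finset.mul_prod_erase _ _ (Finset.mem_univ c),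
    Finset.prod_congr rfl (g := fun b => ww c - ww b)]
  · simp only [sub_self, Pi.single_eq_same, Int.toNat_zero, pow_zero, one_mul, one_div, ne_eq, prod_ne, not_false_eq_true, inv_mul_cancel₀]
  · intro b hb; simp [(Finset.mem_erase.1 hb).1]
  · intro a _ ha
    refine Finset.prod_eq_one fun b _ => ?_
    by_cases h : b = c <;> simp [ha, h]
  · simp only [Finset.mem_univ, not_true_eq_false, Pi.single_eq_same, IsEmpty.forall_iff]
  · intro a _; by_cases h : a = c <;> simp [h]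

theorem v_val (c : Fin k) : ((-1 : ℂ) ^ (k - 1 + 1) • mA N (-1) c) * (nA wL c).eval (wL c) =
    single (Pi.single c (-1)) (-ww c ^ N) := by
  have h := Finset.prod_neg (s := Finset.univ.erase c) fun b => ww c - ww b
  rw [nA_eval, mA, smul_single, single_mul_single, add_zero, Ugen.EE_eq, Finset.prod_eq_single c,
    Finset.prod_comm, Finset.prod_eq_single c, ← Finset.mul_prod_erase _ _ (Finset.mem_univ c),
    Finset.prod_congr rfl (g := fun b => -(ww c - ww b)), h]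
  · have := prod_ne c
    congr 1
    simp only [Pi.single_eq_same, neg_neg, Int.toNat_one, mul_one, sub_self, Int.toNat_zero,
      pow_zero, one_mul, Algebra.smul_def, map_pow, map_neg, map_one, Finset.card_erase_of_mem,
      Finset.mem_univ, Finset.card_univ, Fintype.card_fin]
    field_simp
    ring
  · intro b hb; simp [(Finset.mem_erase.1 hb).1]
  · intro a _ ha
    refine Finset.prod_eq_one fun b _ => ?_
    by_cases h : b = c <;> simp [ha, h]
  · simp only [Finset.mem_univ, not_true_eq_false, Int.reduceNeg, Pi.single_eq_same, sub_neg_eq_add, IsEmpty.forall_iff]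
  · intro a _ h; simp [h]
  · simp only [Finset.mem_univ, not_true_eq_false, Int.reduceNeg, Pi.single_eq_same, neg_neg, Int.toNat_one, mul_one, IsEmpty.forall_iff]

theorem hww (a b : Fin k) : br (wL a) (wL b) = 0 := by simp only [pL, br_single, add_zero, Pi.zero_apply, Int.cast_zero, zero_mul, sub_self, Finset.sum_const_zero, single_zero]

theorem hvw (ε : ℤ) (g : KK (Fin k)) (a b : Fin k) : br (single (Pi.single a ε) g) (wL b) =
    if a = b then (ε : LL (Fin k)) * single (Pi.single a ε) g else 0 := by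
  rw [wL, pL, br_single, Finset.sum_eq_single b]
  · by_cases h : a = b
    · simp only [h, add_zero, Pi.single_eq_same, ← zsmul_eq_mul, pd_poly, MvPolynomial.pderiv_X, map_one, mul_one, Pi.zero_apply, Int.cast_zero, zero_mul, sub_zero, ↓ reduceIte, smul_single]
    · simp only [add_zero, ne_eq, Ne.symm h, not_false_eq_true, Pi.single_eq_of_ne, Int.cast_zero, zero_mul, Pi.zero_apply, sub_self, single_zero, h, ↓ reduceIte]
  · intro c _ hc; simp only [pd_poly, MvPolynomial.pderiv_X, ne_eq, hc.symm, not_false_eq_true, Pi.single_eq_of_ne, map_zero, mul_zero, Pi.zero_apply, Int.cast_zero, zero_mul, sub_self]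
  · simp only [Finset.mem_univ, not_true_eq_false, Pi.zero_apply, Int.cast_zero, zero_mul, sub_zero, mul_eq_zero, Int.cast_eq_zero, IsEmpty.forall_iff]

theorem hvv (ε : ℤ) (p : Fin k → PP (Fin k)) (hp : ∀ a b, a ≠ b → MvPolynomial.pderiv a (p b) = 0)
    (a b : Fin k) : br (single (Pi.single a ε) (algebraMap _ (KK (Fin k)) (p a)))
      (single (Pi.single b ε) (algebraMap _ (KK (Fin k)) (p b))) = 0 := by
  rw [br_single, Finset.sum_eq_zero, single_zero]
  intro c _
  by_cases h : a = b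
  · subst h; ring
  · by_cases h1 : c = a
    · simp only [h1, Pi.single_eq_same, pd_poly, hp a b h, map_zero, mul_zero, ne_eq, h, not_false_eq_true, Pi.single_eq_of_ne, Int.cast_zero, zero_mul, sub_self]
    · by_cases h2 : c = b
      · simp only [h2, ne_eq, Ne.symm h, not_false_eq_true, Pi.single_eq_of_ne, Int.cast_zero, zero_mul, pd_poly, Pi.single_eq_same, hp b a (Ne.symm h), map_zero, mul_zero, sub_self]
      · simp only [ne_eq, h1, not_false_eq_true, Pi.single_eq_of_ne, Int.cast_zero, zero_mul, h2, sub_self]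

theorem exists_d {R L : Type} [CommRing R] [CommRing L] (ι : R →+* L) {a b c : R[X]} (hm : a.Monic)
    {D : L[X]} (hD : Q N k (a.map ι) (b.map ι) (c.map ι) D) : ∃ d : R[X], d.map ι = D :=
  ⟨(X ^ N + b * c) /ₘ a, by
    rw [map_divByMonic _ hm, Polynomial.map_add, Polynomial.map_mul, Polynomial.map_pow, map_X,
      ← hD.det, sub_add_cancel, mul_divByMonic_cancel_left _ hD.mon]⟩

theorem lift' {L : Type} [CommRing L] [Algebra ℂ L] (S : Subalgebra ℂ L) {p : L[X]}
    (h : ∀ n, p.coeff n ∈ S) :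
    ∃ q : @Polynomial S CommRing.toCommSemiring.toSemiring, q.map S.val.toRingHom = p :=
  (mem_lifts _).1 ((lifts_iff_coeff_lifts _).2 fun n => ⟨⟨_, h n⟩, rfl⟩)

theorem ua (N k : ℕ) : ∃ a b c d, UA (cou_poi (nd := fun _ : Fin k => ()) (ar := fun _ _ => 0)
    (fr := fun _ => N) fun _ => rfl) N k a b c d ∧ ∀ a0 b0 c0 d0 : ℂ[X], Q N k a0 b0 c0 d0 →
      Gn a0 → ∃ x : Pt (CouA1 N k), At a b c x a0 b0 c0 := by
  let B : (LL (Fin k))[X] := ∑ a, C ((1 : ℂ) • mA N 1 a) * nA wL a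
  let C' : (LL (Fin k))[X] := ∑ a, C ((-1 : ℂ) ^ (k - 1 + 1) • mA N (-1) a) * nA wL a
  have hB : ∀ a, B.eval (wL a) = single (Pi.single a 1) 1 := fun a => by
    rw [sum_eval, one_smul, u_val]
  have hC : ∀ a, C'.eval (wL a) = single (Pi.single a (-1)) (-ww a ^ N) := fun a => by
    rw [sum_eval, v_val]
  obtain ⟨D, hD⟩ := Q_of_vals (N := N) (b := B) (c := C') wL_inj (sum_deg _) (sum_deg _)
    fun a => by
      rw [hB, hC, single_mul_single, ← Pi.single_add, wL, pL, single_pow]; simp only [Int.reduceNeg, add_neg_cancel, Pi.single_zero, ww, mul_neg, one_mul, single_neg, nsmul_zero]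
  let ι := (CouA1 N k).val
  have hι : Function.Injective ι := Subtype.val_injective
  obtain ⟨a, ha⟩ := lift' (CouA1 N k) a_mem
  obtain ⟨b, hb⟩ := lift' (CouA1 N k) (p := B) (b_mem (Or.inl rfl) _)
  obtain ⟨c, hc⟩ := lift' (CouA1 N k) (p := C') (b_mem (Or.inr rfl) _)
  have hm : a.Monic := monic_of_injective hι (ha ▸ nodal_monic)
  obtain ⟨d, hd⟩ := exists_d (N := N) (k := k) (R := CouA1 N k) (a := a) (b := b) (c := c)
    ι.toRingHom hm (D := D) (by rwa [ha, hb, hc])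
  have hq : Q N k a b c d := Q.of_map ι hι (by rwa [ha, hb, hc, hd])
  have hg : Gens a b c := by
    let S := (Algebra.adjoin ℂ (range a.coeff ∪ range b.coeff ∪ range c.coeff)).map ι
    have key : ∀ p : (CouA1 N k)[X], range p.coeff ⊆ range a.coeff ∪ range b.coeff ∪ range c.coeff →
        ∀ n, (p.map ι.toRingHom).coeff n ∈ S := fun p h n =>
      ⟨_, Algebra.subset_adjoin (h ⟨n, rfl⟩), (coeff_map _ _).symm⟩
    have sa := key a (subset_union_left.trans subset_union_left)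
    have sb := key b (subset_union_right.trans subset_union_left)
    have sc := key c subset_union_right
    rw [ha] at sa; rw [hb] at sb; rw [hc] at sc
    have := couA1_le N k S (fun n => ?_) (fun n => ?_) fun n => ?_
    · refine top_unique fun g _ => ?_
      obtain ⟨g', h1, h2⟩ := this g.2
      rwa [← hι h2]
    · simpa using pow_sum_mem wL_inj S sa (m := 1) (fun n => by
        simp only [Pi.one_apply, C_1, one_mul, ← derivative_nodal, coeff_derivative]
        exact S.mul_mem (sa _) (S.add_mem (natCast_mem S n) S.one_mem)) n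
    · simpa using pow_sum_mem wL_inj S sa sb n
    · have := S.smul_mem (pow_sum_mem wL_inj S sa sc n) ((-1 : ℂ) ^ (k - 1 + 1))
      simpa only [Int.reduceNeg, Algebra.mul_smul_comm, Finset.smul_sum, smul_smul, ← mul_pow, mul_neg, mul_one, neg_neg, one_pow, one_smul] using this
  clear_value B C'
  have hp : ∀ a0 b0 c0 d0 : ℂ[X], Q N k a0 b0 c0 d0 → Gn a0 →
      ∃ x : Pt (CouA1 N k), At a b c x a0 b0 c0 := by
    intro a0 b0 c0 d0 h0 hn
    obtain ⟨t, ht, -, rfl⟩ := hn.nodal h0.mon h0.deg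
    obtain ⟨R, χ, hR, h1, h2, -⟩ := exists_pt (fun _ : Fin k => ()) (fun _ _ => 0) (fun _ => N) t ht
      (fun i => b0.eval (t i)) fun i => hn.cop h0 _ (nodal_zero i)
    let x : Pt (CouA1 N k) := χ.comp (Subalgebra.inclusion hR)
    have ev : ∀ (p : (CouA1 N k)[X]) (i : Fin k) (z : R),
        (p.map ι.toRingHom).eval (wL i) = z → (p.map x.rh).eval (t i) = χ z := fun p i z hz => by
      obtain ⟨hw, e⟩ := h1 i
      have e1 : (p.map (Subalgebra.inclusion hR).toRingHom).eval ⟨_, hw⟩ = z := Subtype.ext (by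
        rw [← hz]
        refine (eval_map_apply R.val.toRingHom _).symm.trans ?_
        rw [Polynomial.map_map]; rfl)
      rw [← e1, ← e]
      refine Eq.trans ?_ (eval_map_apply χ.toRingHom _)
      rw [Polynomial.map_map]; rfl
    have hx := hq.map x.rh
    have xa : a.map x.rh = nodal Finset.univ t := eq_of_monic_of_dvd_of_natDegree_le h0.mon hx.mon
      (nodal_dvd ht fun i => (ev a i 0 (by rw [ha, nodal_zero]; rfl)).trans (map_zero _))
      (hx.deg.trans h0.deg.symm).le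
    have xb : b.map x.rh = b0 := eq_of_vals ht hx.db h0.db fun i =>
      let ⟨_, e⟩ := h2 i; (ev b i _ (by rw [hb, hB]; rfl)).trans e
    rw [xa, xb] at hx
    exact ⟨x, xa, xb, hx.c_eq h0 (hn.cop h0)⟩
  have hbr : ∀ f g, ι (brA (CouA1 N k) f g) = br (ι f) (ι g) := brA_coe fun _ => rfl
  have u0 : ∀ a : Fin k, (single (Pi.single a 1) 1 : LL (Fin k)) ≠ 0 := fun a => by simp
  have v0 : ∀ a : Fin k, (single (Pi.single a (-1)) (-ww a ^ N) : LL (Fin k)) ≠ 0 := fun a => by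
    simp only [Int.reduceNeg, ww, single_neg, ne_eq, neg_eq_zero, single_eq_zero, pow_eq_zero_iff', FaithfulSMul.algebraMap_eq_zero_iff, MvPolynomial.X_ne_zero, false_and, not_false_eq_true]
  have uu : ∀ a b : Fin k, br (single (Pi.single a 1) 1) (single (Pi.single b 1) 1) = 0 :=
    fun a b => by simpa only [Pi.one_apply, map_one] using hvv 1 1 (by simp) a b
  have vv : ∀ a b : Fin k, br (single (Pi.single a (-1)) (-ww a ^ N))
      (single (Pi.single b (-1)) (-ww b ^ N)) = 0 := fun a b => by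
    simpa only [Int.reduceNeg, ww, single_neg, map_neg, map_pow] using hvv (-1) (fun a => -MvPolynomial.X a ^ N) (fun a b h => by
      simp only [map_neg, Derivation.leibniz_pow, MvPolynomial.pderiv_X, ne_eq, h.symm, not_false_eq_true, Pi.single_eq_of_ne, smul_eq_mul, mul_zero, nsmul_zero, neg_zero]) a b
  refine ⟨a, b, c, _, ⟨hq, hg, fun a0 b0 c0 d0 h0 => ?_, GoodAll.of_map br_poi _ ι hι hbr hm ?_,
    ⟨b.coeff (k - 1), Uni.of_map br_poi _ ι hι hbr hm ?_⟩,
    ⟨(-1 : ℂ) • c.coeff (k - 1), Uni.of_map br_poi _ ι hι hbr hm ?_⟩⟩, hp⟩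
  · obtain ⟨Ψ, hΨ⟩ := hg.homeo hq hp
    obtain ⟨x, hx⟩ := Ψ.surjective h0.fm
    rw [hΨ] at hx
    exact ⟨x, congrArg (·.1 0 0) hx, congrArg (·.1 0 1) hx, congrArg (·.1 1 0) hx⟩
  · rw [ha, hb, hc]
    exact fun y => ⟨cM_nodal_zero br_poi wL_inj (br_eval_w br_poi wL_inj hww y),
      by simpa only [coe_algebraMap, Function.comp_apply, Int.cast_one, map_one, one_mul] using lag_hB br_poi wL_inj hww (by simp) u0 (fun a b => hvw 1 1 a b) hB y,
      by simpa only [coe_algebraMap, Function.comp_apply, Int.reduceNeg, Int.cast_neg, Int.cast_one, map_neg, map_one, neg_mul, one_mul, sub_neg_eq_add] using lag_hB br_poi wL_inj hww (by simp) v0 (fun a b => hvw (-1) _ a b) hC y⟩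
  · have e : ι (b.coeff (k - 1)) = B.coeff (k - 1) := by rw [← hb, coeff_map]; rfl
    rw [ha, hb, hc, hd, e]
    exact uni_of br_poi wL_inj u0 hB hD
      (by rw [lag_BA br_poi wL_inj hww (fun a b => hvw 1 1 a b) hD.db hB, Int.cast_one, C_1,
        one_mul])
      (lag_BB br_poi wL_inj hww (fun a b => hvw 1 1 a b) uu hD.db hB _)
  · have e : ι (c.coeff (k - 1)) = C'.coeff (k - 1) := by rw [← hc, coeff_map]; rfl
    rw [ha, hb, hc, hd, map_smul, e]
    refine uni_of br_poi wL_inj v0 hC hD.swap ?_ ?_ <;> rw [br_poi.cM_smul]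
    · rw [lag_BA br_poi wL_inj hww (fun a b => hvw (-1) _ a b) hD.dc hC, map_neg, map_one,
        Int.cast_neg, Int.cast_one, C_neg, C_1]
      ring
    · rw [lag_BB br_poi wL_inj hww (fun a b => hvw (-1) _ a b) vv hD.dc hC, mul_zero]
end U6

theorem a1_main (N k : ℕ) : ∃ Ψ : Pt (CouA1 N k) ≃ₜ FM N k,
    (∀ x, rk (brA (CouA1 N k)) x = (Ψ x).st) ∧
    (∀ x y, Leaf (brA (CouA1 N k)) x y ↔ rk (brA (CouA1 N k)) x = rk (brA (CouA1 N k)) y) ∧
    ∀ z, closure {y | Leaf (brA (CouA1 N k)) z y} =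
      {y | rk (brA (CouA1 N k)) y ≤ rk (brA (CouA1 N k)) z} := by
  obtain ⟨a, b, c, d, U, hp⟩ := U6.ua N k
  obtain ⟨Ψ, hΨ⟩ := U.gen.homeo U.q hp
  exact ⟨Ψ, U.main hΨ⟩

end C73
end
end
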