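import Pool.Agent.MP_94fa45_ag.Mg.C73_ZZ
import Pool.Agent.MP_94fa45_ag.C73.St

/-! Translation of the main theorem to the definitions of `St`. -/

open CategoryTheory Limits TopologicalSpace Topology Filter

noncomputable section
namespace C73

theorem ic_eq (X : TopCat.{0}) (dm : X → ℕ) : CB.IC X dm = IC X dm := by
  have h : ∀ n t : ℕ, (Nat.rec (CB.cst X n) (fun t P => (CB.step
      ⟨interior {x | n ≤ dm x + t}, isOpen_interior⟩ ((t : ℤ) - n)).obj P) t : CB.DP X) =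
      del dm n t := fun n t => by
    induction t with
    | zero => rfl
    | succ t ih => exact congrArg (CB.step (opn dm n t) ((t : ℤ) - n)).obj ih
  exact h _ _

/-- the two definitions of `j^!` agree -/
def shriekIso {X : TopCat.{0}} (Z : Closeds X) : CB.Rshriek Z ≅ Rshriek Z :=
  @rdIso X _ _ _ (CB.shAdd Z) (shriekAdd Z) (Adjunction.rightAdjointUniq
    (Adjunction.ofIsLeftAdjoint (CB.push (CB.inc (Z : Set X)))) (shAdj Z))

/-- translation of the isomorphism -/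
def z_iso {X F : TopCat.{0}} (Z : Closeds X) (dm : X → ℕ) (p : C(CB.sub (Z : Set X), F)) {J : Type}
    [Finite J] (T : J → TopCat.{0}) (g : ∀ j, C(T j, F)) (d : ∀ j, T j → ℕ)
    (f : (Rpush (TopCat.ofHom p)).obj ((Rshriek Z).obj (IC X dm)) ≅
      ⨁ fun j => (Rpush (TopCat.ofHom (g j))).obj (IC (T j) (d j))) :
    (CB.Rpush p).obj ((CB.Rshriek Z).obj (CB.IC X dm)) ≅
      ∐ fun j => (CB.Rpush (g j)).obj (CB.IC (T j) (d j)) := by
  simp only [ic_eq]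
  exact (CB.Rpush p).mapIso ((shriekIso Z).app _) ≪≫ f ≪≫
    biproduct.isoCoproduct fun j => (Rpush (TopCat.ofHom (g j))).obj (IC (T j) (d j))

section
variable (A : Type) [CommRing A] [Algebra ℂ A] (b : A → A → A) (sc : ℂˣ → A → A)
  (B : ℕ → ℕ → Type) [∀ N k, CommRing (B N k)] [∀ N k, Algebra ℂ (B N k)]
  (b1 : ∀ N k, B N k → B N k → B N k)

variable {A} in
/-- fixed points -/
def Fix0 : Set (Pt A) := {x | ∀ s a, x (sc s a) = x a}

variable {A} in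
/-- limits -/
def Lim0 (x y : Pt A) : Prop :=
  ∀ a, Tendsto (fun s : ℂˣ => x (sc s a)) (comap Units.val (𝓝 0)) (𝓝 (y a))

/-- the conclusion in the first set of definitions -/
def ConclA : Prop :=
  ∃ (Z : Closeds (TopCat.of (Pt A))) (p : C(Z, Fix0 sc)),
    (∀ x, x ∈ Z ↔ ∃ y, Lim0 sc x y) ∧ (∀ x : Z, Lim0 sc x (p x)) ∧
    ∀ (N k : ℕ) (φ : Pt (B N k) ≃ₜ Fix0 sc),
      (∀ x y, Leaf (b1 N k) x y ↔ Leaf b (φ x) (φ y)) →
      ∃ e : ∀ c : Fin (min k (N / 2) + 1), C(Pt (B (N - 2 * c) (k - c)), Pt (B N k)),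
        (∀ c, IsClosedEmbedding (e c) ∧
          (∀ x y, Leaf (b1 (N - 2 * c) (k - c)) x y ↔ Leaf (b1 N k) (e c x) (e c y)) ∧
          ∃ z, Set.range (e c) = closure {y | Leaf (b1 N k) z y}) ∧
        ∃ mult : Fin (min k (N / 2) + 1) → ℕ, Nonempty
          ((Rpush (TopCat.ofHom p)).obj ((Rshriek Z).obj (IC (TopCat.of (Pt A)) (rk b))) ≅
            ⨁ fun j : Σ c, Fin (mult c) =>
              (Rpush (TopCat.ofHom ((φ : C(Pt (B N k), Fix0 sc)).comp (e j.1)))).obj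
                (IC (TopCat.of (Pt (B (N - 2 * j.1) (k - j.1)))) (rk (b1 (N - 2 * j.1) (k - j.1)))))

open CB in
/-- the conclusion in the definitions of `St` -/
def ConclB : Prop :=
  let M : TopCat := CB.Pt A
  let leaf : M → M → Prop := CB.Leaf b
  let ic : CB.DP M := CB.IC M (CB.rk b)
  let F : Set M := CB.Fix sc
  let lim : M → M → Prop := CB.Lim sc
  let M₁ : ℕ → ℕ → TopCat := fun N k => CB.Pt (B N k)
  let leaf₁ : ∀ N k, M₁ N k → M₁ N k → Prop := fun N k => CB.Leaf (b1 N k)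
  let ic₁ : ∀ N k, CB.DP (M₁ N k) := fun N k => CB.IC (M₁ N k) (CB.rk (b1 N k))
  ∃ (Z : Closeds M) (p : C(sub (Z : Set M), sub F)),
    (∀ x, x ∈ Z ↔ ∃ y, lim x y) ∧
    (∀ x, lim ((CB.inc (Z : Set M)).toFun x) ((CB.inc F).toFun (p.toFun x))) ∧
    ∀ (N k : ℕ) (φ : C(M₁ N k, sub F)), IsHomeomorph φ.toFun →
      (∀ x y, leaf₁ N k x y ↔ leaf ((CB.inc F).toFun (φ.toFun x)) ((CB.inc F).toFun (φ.toFun y))) →
      ∃ e : ∀ c : Fin (min k (N / 2) + 1), C(M₁ (N - 2 * c) (k - c), M₁ N k),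
        (∀ c, IsClosedEmbedding (e c).toFun ∧
          (∀ x y, leaf₁ _ _ x y ↔ leaf₁ N k ((e c).toFun x) ((e c).toFun y)) ∧
          ∃ z, Set.range (e c).toFun = closure {y | leaf₁ N k z y}) ∧
        ∃ mult : Fin (min k (N / 2) + 1) → ℕ, Nonempty ((CB.Rpush p).obj ((CB.Rshriek Z).obj ic) ≅
          ∐ fun j : Σ c, Fin (mult c) => (CB.Rpush (φ.comp (e j.1))).obj (ic₁ _ _))

theorem conclB_of (h : ConclA A b sc B b1) : ConclB A b sc B b1 := by
  obtain ⟨Z, p, h1, h2, h3⟩ := h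
  refine ⟨Z, p, h1, h2, fun N k φ hφ hl => ?_⟩
  obtain ⟨ψ, hψ⟩ : ∃ ψ : Pt (B N k) ≃ₜ Fix0 sc, (ψ : C(Pt (B N k), Fix0 sc)) = φ :=
    ⟨IsHomeomorph.homeomorph _ hφ, ContinuousMap.ext fun _ => rfl⟩
  subst hψ
  obtain ⟨e, e1, mult, ⟨f⟩⟩ := h3 N k ψ hl
  have g := z_iso (X := TopCat.of (Pt A)) (F := TopCat.of (Fix0 sc)) Z (rk b) p
    (fun j : Σ c, Fin (mult c) => TopCat.of (Pt (B (N - 2 * j.1) (k - j.1))))
    (fun j => ContinuousMap.comp (ψ : C(Pt (B N k), Fix0 sc)) (e j.1))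
    (fun j => rk (b1 (N - 2 * j.1) (k - j.1))) f
  exact ⟨e, e1, mult, ⟨g⟩⟩
end

theorem mainB (ι : Type) [Fintype ι] [DecidableEq ι] (ar : ι → ι → ℕ) (har : ∀ j, ar j j = 0)
    (v fr : ι → ℕ) (i : ι) (m : ι → ℤ) (hi : m i = 0) (hm : ∀ j, j ≠ i → m j < 0) (ε : ℤˣ) :
    ConclB (CB.Cb (Sigma.fst : (Σ j, Fin (v j)) → ι) ar fr) CB.brC (CB.act fun a => ε * m a.1)
      CB.A1 fun _ _ => CB.brC := by
  have h : ConclA (Cou (Sigma.fst : (Σ j, Fin (v j)) → ι) ar fr) (brA _)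
      (fun s a => toSub _ (scale (fun a => ε * m a.1) s a)) (fun N k => CouA1 N k)
      fun _ _ => brA _ := main ι ar har v fr i m hi hm ε
  exact conclB_of _ _ _ _ _ h

end C73
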