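import Pool.Agent.MP_94fa45_ag.Mg.C73_GG
import Pool.Agent.MP_94fa45_ag.C73.SD
import Pool.Agent.MP_94fa45_ag.Mg.C73_VV
import Pool.Agent.MP_94fa45_ag.C73.BR

attribute [-instance] SubringClass.toCommRing
  CategoryTheory.preservesColimitOfShape_of_createsColimitsOfShape_and_hasColimitsOfShape
  RKHS.instFunLike TopologicalSpace.DiscreteTopology.metrizableSpace instCoeTCOfCoe
  Fintype.decidableForallFintype ContinuousMonoidHom.instCoeOutOfMonoidHomClassOfContinuousMapClass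
  Field.toCommRing SetLike.GradeZero.instCommRing
  CategoryTheory.Limits.PreservesFiniteColimits.preservesFiniteColimits
  IsometryClass.instCoeOutIsometryEquiv instCoeTOfCoeDep Function.locallyCompactSpace
  CategoryTheory.Functor.instPreservesColimitsOfShapeOfIsLeftAdjoint TestFunctionClass.toDFunLike
  HomeomorphClass.instCoeOutHomeomorph
  ContinuousAddMonoidHom.instCoeOutOfAddMonoidHomClassOfContinuousMapClass
  CategoryTheory.Limits.hasBiproduct_unique ContDiffMapSupportedInClass.toDFunLike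

/-! Assembly. -/

section
/-! Assembly, part 1: the hypotheses of `core` for a Coulomb branch. -/

open Set Filter Topology TopologicalSpace

noncomputable section
namespace C73

variable {I ι : Type} [Fintype I] [DecidableEq I] {nd : I → ι} {ar : ι → ι → ℕ} {fr : ι → ℕ}

omit [Fintype I] [DecidableEq I] in
theorem z_kap_mono {A : Subalgebra ℂ (LL I)} {k k' : ℕ} (h : k ≤ k') : KapLE A k ⊆ KapLE A k' :=
  biUnion_subset_biUnion_left fun _ ht => le_trans ht h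

/-- the attracting set -/
def PG (A : Subalgebra ℂ (LL I)) (m : I → ℤ) : Set (Pt A) := PosG (grC A m)

/-- a stratified space embedded as the fixed locus, the strata being the traces of the leaves -/
structure Strat (A : Subalgebra ℂ (LL I)) (m : I → ℤ) {F : Type} [TopologicalSpace F]
    (j : F → Pt A) (st : F → ℕ) : Prop where
  emb : IsEmbedding j
  rng : range j = FixG (grC A m)
  leaf : ∀ x y, st x = st y ↔ Leaf (brA A) (j x) (j y)
  cl : ∀ x, {y | st y ≤ st x} ⊆ closure {y | st y = st x}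
  mfd : ∀ x, ∃ γ : (Fin (2 * st x) → ℝ) → F, IsEmbedding γ ∧ γ 0 = x ∧
    range γ ⊆ {y | st y = st x} ∧ range γ ∈ 𝓝[{y | st y = st x}] x

variable {F : Type} [TopologicalSpace F] {m : I → ℤ}

namespace Strat
section
variable {A : Subalgebra ℂ (LL I)} {j : F → Pt A} {st : F → ℕ} (S : Strat A m j st)
include S

theorem fix (x : F) : j x ∈ FixG (grC A m) := S.rng ▸ mem_range_self x

theorem mem_sf {x y : F} : j y ∈ SF A m (j x) ↔ st y = st x :=
  ⟨fun h => ((S.leaf x y).2 h.2).symm, fun h => ⟨S.fix y, (S.leaf x y).1 h.symm⟩⟩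

theorem sf_eq (x : F) : SF A m (j x) = j '' {y | st y = st x} := by
  ext w
  refine ⟨fun h => ?_, ?_⟩
  · obtain ⟨y, rfl⟩ : w ∈ range j := S.rng ▸ h.1
    exact ⟨y, S.mem_sf.1 h, rfl⟩
  · rintro ⟨y, hy, rfl⟩
    exact S.mem_sf.2 hy

theorem dim_eq [MetrizableSpace (Pt A)] {x : F} {a : ℕ} {γ : (Fin a → ℝ) → Pt A}
    (h1 : IsEmbedding γ) (h0 : γ 0 = j x) (s1 : range γ ⊆ SF A m (j x))
    (n1 : range γ ∈ 𝓝[SF A m (j x)] (j x)) : a = 2 * st x := by
  obtain ⟨γ', g1, g0, g2, g3⟩ := S.mfd x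
  refine inv_dim h1 (S.emb.comp g1) (by simp [h0, g0]) s1 ?_ (h0 ▸ n1) ?_
  · rw [S.sf_eq, range_comp]; exact image_mono g2
  · rw [h0, S.sf_eq, ← S.emb.map_nhdsWithin_eq, range_comp]; exact image_mem_map g3
end

variable {j : F → Pt (Cou nd ar fr)} {st : F → ℕ} (S : Strat (Cou nd ar fr) m j st)
  (har : ∀ j, ar j j = 0) {i : ι} (hm : Coch nd i m)
include S har hm

theorem dense (x : F) :
    x ∈ closure {y ∈ {y | j y ∈ Gen (Cou nd ar fr) (st y / 2)} | st y = st x} := by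
  have : Algebra.FiniteType ℂ (Cou nd ar fr) := cou_fg
  have : Nice (Pt (Cou nd ar fr)) := pt_nice
  refine mem_closure_iff_nhds.2 fun U hU => ?_
  rw [S.emb.isInducing.nhds_eq_comap] at hU
  obtain ⟨U', hU', hs⟩ := hU
  obtain ⟨w, ⟨w1, w2⟩, k, hk, hl⟩ := gen_dense har hm (S.fix x) hU'
  obtain ⟨y, rfl⟩ : w ∈ range j := S.rng ▸ w2.1
  have e := S.mem_sf.1 w2
  obtain ⟨γ, g1, g0, g2, g3⟩ := gen_loc har hm w2 hk hl
  have e2 : SF (Cou nd ar fr) m (j x) = SF (Cou nd ar fr) m (j y) := by rw [S.sf_eq, S.sf_eq, e]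
  rw [e2] at g2 g3
  have := S.dim_eq g1 g0 g2 g3
  refine ⟨y, hs w1, ?_, e⟩
  show j y ∈ Gen _ (st y / 2)
  rwa [show st y / 2 = k by omega]

theorem kap (x : F) : j x ∈ KapLE (Cou nd ar fr) (st x / 2) := by
  refine closure_minimal (t := j ⁻¹' KapLE (Cou nd ar fr) (st x / 2)) (fun y hy => ?_)
    ((kap_closed _).preimage S.emb.continuous) (S.dense har hm x)
  exact (gen_kap hy.1).2 (by rw [hy.2])

omit hm in
theorem rk_le {x y : F} (h : st y ≤ st x) :
    rk (brA (Cou nd ar fr)) (j y) ≤ rk (brA (Cou nd ar fr)) (j x) := by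
  have : Algebra.FiniteType ℂ (Cou nd ar fr) := cou_fg
  have hb := cou_poi (nd := nd) (fr := fr) har
  refine closure_minimal (t := j ⁻¹' {w | rk (brA (Cou nd ar fr)) w ≤ rk (brA _) (j x)})
    (fun y hy => ?_) ((rk_zcl hb _).isClosed.preimage S.emb.continuous) (S.cl x h)
  exact (rk_leaf hb ((S.leaf y x).1 hy)).le

variable {V : Type} [TopologicalSpace V] (H : Hyp (Pt (Cou nd ar fr)) V)
  (hp : ∀ x, H.rp x = 0 ↔ x ∈ PosG (grC (Cou nd ar fr) m))
  (hn : ∀ x, H.rm x = 0 ↔ x ∈ NegG (grC (Cou nd ar fr) m))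
include hp hn

theorem loc (x : F) :
    WChart H (rk (brA (Cou nd ar fr))) j {y | st y ≤ st x} (2 * st x) x ∧ ∃ W ∈ 𝓝 x,
      FTO (W ∩ ({y | st y ≤ st x} \ {y | j y ∈ Gen (Cou nd ar fr) (st y / 2)}))
        (2 * (st x : ℤ) - 2) := by
  have : Algebra.FiniteType ℂ (Cou nd ar fr) := cou_fg
  have : Nice (Pt (Cou nd ar fr)) := pt_nice
  have hb := cou_poi (nd := nd) (fr := fr) har
  obtain ⟨d, N, _, _, n0, e, he, e0, hL, hP, hN, hF, -, hδ⟩ :=
    chart hb (cou_gr (fr := fr) har hm.1) (cou_hol (nd := nd) (fr := fr) har) (S.fix x)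
  have g1 : IsEmbedding fun t => e (n0, t) := he.isEmbedding.comp (isEmbedding_prodMkRight n0)
  have g2 : (range fun t => e (n0, t)) ⊆ SF (Cou nd ar fr) m (j x) := by
    rintro _ ⟨t, rfl⟩
    have h1 := S.fix x
    rw [← e0] at h1 ⊢
    exact ⟨⟨(hP n0 t).2 h1.1, (hN n0 t).2 h1.2⟩, hL n0 t⟩
  have hr : range e ∈ 𝓝 (j x) := he.isOpen_range.mem_nhds ⟨_, e0⟩
  have g3 : (range fun t => e (n0, t)) ∈ 𝓝[SF (Cou nd ar fr) m (j x)] (j x) := by
    filter_upwards [mem_nhdsWithin_of_mem_nhds hr, self_mem_nhdsWithin]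
    rintro _ ⟨⟨ν, t⟩, rfl⟩ h
    obtain rfl := hF ν t h.1 (rk_leaf hb h.2).ge
    exact ⟨t, rfl⟩
  obtain rfl : d = st x := by have := S.dim_eq g1 e0 g2 g3; omega
  have key : ∀ ν t y, e (ν, t) = j y → (st y ≤ st x ↔ ν = n0) := fun ν t y h =>
    ⟨fun h' => hF ν t (h ▸ S.fix y) (h ▸ S.rk_le har h'),
      fun h' => (S.mem_sf.1 (h ▸ h' ▸ g2 ⟨t, rfl⟩)).le⟩
  refine ⟨⟨N, _, ‹_›, n0, e, he, e0, fun ν t => ⟨(rk_leaf hb (hL ν t)).symm,
    by rw [hp, hp, hP], by rw [hn, hn, hN]⟩, key⟩, ?_⟩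
  obtain ⟨δ, hd⟩ := exists_delta (nd := nd) (ar := ar) (fr := fr) (st x / 2)
  have f1 : ∃ᶠ w in 𝓝[SF (Cou nd ar fr) m (j x)] (j x), w δ ≠ 0 := by
    rw [S.sf_eq, ← S.emb.map_nhdsWithin_eq, frequently_map, frequently_nhdsWithin_iff]
    refine (mem_closure_iff_frequently.1 (S.dense har hm x)).mono fun y hy => ⟨?_, hy.2⟩
    have h2 : st y = st x := hy.2
    exact (hd _ (h2 ▸ S.kap har hm y)).2 (h2 ▸ hy.1)
  have f2 : ∃ᶠ t in 𝓝 0, e (n0, t) δ ≠ 0 := by
    have := f1.filter_mono (nhdsWithin_le_of_mem g3)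
    rwa [← e0, ← g1.isInducing.map_nhds_eq 0, frequently_map] at this
  obtain ⟨W, hW, hf⟩ := hδ δ 0 f2
  rw [e0] at hW
  refine ⟨j ⁻¹' (W ∩ range e), S.emb.continuous.continuousAt (inter_mem hW hr),
    hf.of_injOn j S.emb.continuous.continuousOn S.emb.injective.injOn ?_⟩
  rintro y ⟨⟨y1, ⟨ν, t⟩, y2⟩, y3, y4⟩
  obtain rfl := (key ν t y y2).1 y3
  have h2 : st y = st x := S.mem_sf.1 (y2 ▸ g2 ⟨t, rfl⟩)
  refine ⟨⟨y1, (ν, t), ⟨rfl, trivial⟩, y2⟩, ?_⟩
  by_contra h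
  exact y4 (show j y ∈ Gen _ (st y / 2) from h2 ▸ (hd _ (h2 ▸ S.kap har hm y)).1 h)

theorem glob {n : ℕ} (hs : Lsc st n) (x : F) : ∃ U, IsOpen U ∧
    Proj H (rk (brA (Cou nd ar fr))) j {y | st y ≤ st x} U ∧ {y | st y ≤ st x} ∩ U =
      {y ∈ {y | j y ∈ Gen (Cou nd ar fr) (st y / 2)} | st y = st x} := by
  obtain ⟨y0, y1, y2⟩ := closure_nonempty_iff.1 ⟨x, S.dense har hm x⟩
  obtain ⟨O', O, Y, _, _, _, e, p, z, h1, h2, h3, h4, h5, h6, h7⟩ :=
    gen_glob har hm (x := j x) (k := st x / 2) (by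
      rw [S.sf_eq]; rintro _ ⟨y, hy, rfl⟩; exact (show st y = st x from hy) ▸ S.kap har hm y)
      ⟨j y0, S.mem_sf.2 y2, y2 ▸ y1⟩
  refine ⟨j ⁻¹' O' ∩ {y | st x ≤ st y}, (h1.preimage S.emb.continuous).inter (hs.1 _),
    ⟨O, Y, _, _, ‹_›, e, p, z, h2, h3, fun a b hab => ⟨(h5 a b hab).1,
      by rw [hp, hp, (h5 a b hab).2.1], by rw [hn, hn, (h5 a b hab).2.2]⟩, ?_, ?_⟩, ?_⟩
  · rintro _ ⟨y, hy, rfl⟩; exact h4 hy.1
  · intro a y hy ha
    rw [← h6 a (ha ▸ hy.1), ha, S.mem_sf]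
    exact ⟨fun h => le_antisymm h hy.2, fun h => h.le⟩
  · ext y
    refine ⟨fun ⟨h, h', h''⟩ => ?_, fun ⟨h, h'⟩ => ⟨h'.le, ?_, h'.ge⟩⟩
    · have e1 : st y = st x := le_antisymm h h''
      exact ⟨show j y ∈ Gen _ (st y / 2) from e1 ▸ (h7.subset ⟨S.mem_sf.2 e1, h'⟩).2, e1⟩
    · exact (h7.superset ⟨S.mem_sf.2 h', h' ▸ h⟩).2
end Strat

theorem geo_core (har : ∀ j, ar j j = 0) {i : ι} (hm : Coch nd i m) [Nice F]
    {j : F → Pt (Cou nd ar fr)} {st : F → ℕ} (S : Strat (Cou nd ar fr) m j st) {n' : ℕ}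
    (hs : Lsc st n') (hev : ∀ x, Even (st x)) (hlink : Link st)
    {q : PG (Cou nd ar fr) m → F} (hq : Continuous q)
    (hqv : ∀ z, Same0 (grC (Cou nd ar fr) m) (Subtype.val z) (j (q z))) (T : F → Set F)
    (hT : ∀ z, T z = {y | st y ≤ st z}) :
    ∃ (n : ℕ) (z : Fin n → F), Eqv ((((mIC (rk (brA (Cou nd ar fr)))).on
      (PG (Cou nd ar fr) m)).comap Subtype.val continuous_subtype_val).push q)
      (piPC fun a => (mIC fun y : T (z a) => st y).push (Subtype.val : T (z a) → F)) := by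
  obtain rfl : T = fun z => {y | st y ≤ st z} := funext hT
  have : Algebra.FiniteType ℂ (Cou nd ar fr) := cou_fg
  have : Nice (Pt (Cou nd ar fr)) := pt_nice
  have hb := cou_poi (nd := nd) (fr := fr) har
  obtain ⟨n, H, hp, hn, hρ, hv⟩ := hyp_exists hb (cou_gr (fr := fr) har hm.1)
  have : Nice (Fin n → ℂ) := {}
  have hl := rk_lsc hb
  have hI := ax_mdel hl
  have hjr : ∀ x, x ∈ range j ↔ H.rp x = 0 ∧ H.rm x = 0 := fun x => by
    rw [S.rng, hp, hn]; rfl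
  refine (core H hl hρ (chart_rk hb (cou_hol (nd := nd) (fr := fr) har)) hI S.emb hjr hs hev hlink
    {y | j y ∈ Gen (Cou nd ar fr) (st y / 2)} (S.dense har hm) ?_ ?_ (S.loc har hm H hp hn)
    (S.glob har hm H hp hn hs)).imp fun n1 => Exists.imp fun z h => ?_
  · intro x hx
    obtain ⟨k, hk⟩ := hev x
    have e1 : st x / 2 = k := by omega
    have e2 : st x = 2 * k := by omega
    have hY : H.Yx (j x) = {y' | y' ∈ NegG (grC (Cou nd ar fr) m) ∧
        Same0 (grC (Cou nd ar fr) m) y' (j x)} := Set.ext fun y => by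
      show _ ∧ _ ↔ _ ∧ _
      rw [hn]
      exact and_congr_right fun hy => hv _ _ (Or.inr hy) (Or.inr (S.fix x).2)
    obtain ⟨w, hw⟩ := Nat.sSup_mem (s := range (rk (brA (Cou nd ar fr)))) ⟨_, j x, rfl⟩
      ⟨_, forall_mem_range.2 hl.2⟩
    have := gen_good har hm (S.fix x) (e1 ▸ hx : j x ∈ Gen _ k) (hw ▸ rk_even hb w) hl.2
    rw [Good, hY, e2]
    exact this
  · intro d r
    refine (kap_fto (nd := nd) (fr := fr) har (d / 2) r).mono ?_ (by omega)
    rintro w ⟨w1, w2, x, w3, w4⟩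
    exact ⟨kap_same ((hv _ _ (Or.inl (S.fix x).1) (Or.inl ((hp w).1 w1))).1 w4.symm)
      (z_kap_mono (Nat.div_le_div_right w3) (S.kap har hm x)), w2⟩
  · rw [show {y | H.rp y = 0} = PG (Cou nd ar fr) m from Set.ext hp] at h
    exact (contraction H hI.fl (H.lcf_p hl hρ hI).2 S.emb hjr (fun x => (hp x).symm) hq
      fun z => ((hv _ _ (Or.inl z.2) (Or.inl (S.fix _).1)).2 (hqv z)).symm).trans h

end C73
end
end

section
/-! Assembly, part 2: the main theorem. -/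

open Set Filter Topology TopologicalSpace

noncomputable section
namespace C73

theorem z_closed {I : Type} [Fintype I] [DecidableEq I] (A : Subalgebra ℂ (LL I)) (m : I → ℤ) :
    IsClosed (PG A m) := ZCl.isClosed ⟨_, rfl⟩

/-- transport of the model of `IC` along an embedding -/
theorem z_homeo {X Y W : Type} [TopologicalSpace X] [TopologicalSpace Y] [TopologicalSpace W]
    {dm : X → ℕ} {n : ℕ} (hl : Lsc dm n) {T : Set X} {e : Y → X} (he : IsEmbedding e)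
    (hT : range e = T) {dY : Y → ℕ} (hd : ∀ y, dm (e y) = dY y) {g : X → W} (hg : Continuous g) :
    Eqv ((mIC fun y : T => dm y).push fun y => g y) ((mIC dY).push fun y => g (e y)) := by
  subst hT
  obtain rfl : (fun y : range e => dm y) ∘ he.toHomeomorph = dY := funext hd
  set h := he.toHomeomorph
  set d := fun y : range e => dm y
  have l1 : Lsc d (sSup (range d)) := ⟨(hl.comp continuous_subtype_val).1, fun x =>
    le_csSup ⟨n, forall_mem_range.2 fun y => hl.2 _⟩ (mem_range_self x)⟩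
  have e1 := (uniq (l1.comp h.continuous) (ax_comap (ax_mdel l1) h.isOpenEmbedding)).push
    h.continuous
  have e2 : Eqv (mIC d) (((mIC d).comap h h.continuous).push h) :=
    e09_eqv (LinearEquiv.refl ℚ _) (fun _ _ => Iff.rfl) (fun s => by
      show closure (h '' (h ⁻¹' (mIC d).supp s)) = _
      rw [h.surjective.image_preimage, ((mIC d).closed s).closure_eq]) (fun _ => rfl)
      (fl_mdel _ _ _) (fl_push (fl_comap_open (fl_mdel _ _ _) h.isOpenEmbedding) h.continuous)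
  have hg' : Continuous fun y : range e => g y := hg.comp continuous_subtype_val
  rw [mIC, mIC, h.surjective.range_comp]
  exact ((e2.trans e1).push hg').trans (eqv_push_push (fl_mdel _ _ _) h.continuous hg')

open Polynomial in
theorem z_val0 (N k : ℕ) : ∃ M : FM N k, M.val = 0 := by
  have hm : ((X - C 1 : ℂ[X]) ^ k).Monic := (monic_X_sub_C 1).pow k
  have hk : ((X - C 1 : ℂ[X]) ^ k).natDegree = k := by rw [natDegree_pow, natDegree_X_sub_C, mul_one]
  obtain ⟨c, d, h⟩ := exists_Q N hm hk (b := 1 %ₘ (X - C 1) ^ k)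
    (by rw [← hk, ← degree_eq_natDegree hm.ne_zero, hk]; exact degree_modByMonic_lt _ hm)
    fun z hz => by rw [modByMonic_eq_sub_mul_div, eval_sub, eval_mul, hz]; simp
  exact ⟨h.fm, FM.val_eq_zero _ (by show eval 0 ((X - C 1 : ℂ[X]) ^ k) ≠ 0; simp only [map_one, eval_pow, eval_sub, eval_X, eval_one, zero_sub, ne_eq, pow_eq_zero_iff', neg_eq_zero, one_ne_zero, false_and, not_false_eq_true])⟩

/-- the closed strata of an `A₁` Coulomb branch are `A₁` Coulomb branches -/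
theorem z_emb (N' k' c : ℕ) {N k : ℕ} (hN : N = N' + 2 * c) (hk : k = k' + c) :
    ∃ e : C(Pt (CouA1 N' k'), Pt (CouA1 N k)), IsClosedEmbedding e ∧
      (∀ x, rk (brA (CouA1 N k)) (e x) = rk (brA (CouA1 N' k')) x) ∧
      range e = {y | rk (brA (CouA1 N k)) y ≤ 2 * k'} ∧
      ∃ z, rk (brA (CouA1 N k)) z = 2 * k' := by
  subst hN hk
  obtain ⟨Ψ, a1, -⟩ := a1_main (N' + 2 * c) (k' + c)
  obtain ⟨Ψ', b1, -⟩ := a1_main N' k'
  obtain ⟨s1, s2⟩ := FM.sc_emb (N := N') (k := k') c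
  have he := (Ψ.symm.isClosedEmbedding.comp s1).comp Ψ'.isClosedEmbedding
  have hr : ∀ x, rk (brA (CouA1 (N' + 2 * c) (k' + c))) (Ψ.symm (FM.sc c (Ψ' x))) =
      rk (brA (CouA1 N' k')) x := fun x => by
    rw [a1, b1, Ψ.apply_symm_apply, FM.st, FM.st, FM.val_sc]; omega
  obtain ⟨M, hM⟩ := z_val0 N' k'
  refine ⟨⟨_, he.continuous⟩, he, hr, ?_, _, (hr (Ψ'.symm M)).trans ?_⟩
  · show range ((Ψ.symm ∘ FM.sc c) ∘ Ψ') = _
    rw [Ψ'.surjective.range_comp, range_comp, s2, Ψ.image_symm]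
    ext y
    have := (v_val_le (Ψ y)).1
    rw [mem_preimage, mem_ofPred_eq, mem_ofPred_eq, a1, FM.st]; omega
  · rw [b1, Ψ'.apply_symm_apply, FM.st, hM, Nat.sub_zero]

/-- the strata closures of an `A₁` Coulomb branch -/
def Clos (N k : ℕ)
    (e : ∀ c : Fin (min k (N / 2) + 1), C(Pt (CouA1 (N - 2 * c) (k - c)), Pt (CouA1 N k))) : Prop :=
  ∀ c, IsClosedEmbedding (e c) ∧
    (∀ x y, Leaf (brA (CouA1 (N - 2 * c) (k - c))) x y ↔ Leaf (brA (CouA1 N k)) (e c x) (e c y)) ∧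
    ∃ z, range (e c) = closure {y | Leaf (brA (CouA1 N k)) z y}

theorem z_clos (N k : ℕ) : ∃ e, Clos N k e ∧
    (∀ c x, rk (brA (CouA1 N k)) (e c x) = rk (brA (CouA1 (N - 2 * c) (k - c))) x) ∧
    ∀ z, ∃ c, range (e c) = {y | rk (brA (CouA1 N k)) y ≤ rk (brA (CouA1 N k)) z} := by
  choose e h1 h2 h3 h4 using fun c : Fin (min k (N / 2) + 1) =>
    z_emb (N - 2 * c) (k - c) c (N := N) (k := k) (by omega) (by omega)
  obtain ⟨Ψ, a1, a2, a3⟩ := a1_main N k
  refine ⟨e, fun c => ⟨h1 c, fun x y => ?_, (h4 c).imp fun z hz => by rw [a3, hz, h3]⟩, h2,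
    fun z => ⟨⟨(Ψ z).val, by have := v_val_le (Ψ z); omega⟩, by rw [h3, a1 z, FM.st]⟩⟩
  obtain ⟨-, -, b2, -⟩ := a1_main (N - 2 * c) (k - c)
  rw [a2, b2, h2, h2]

theorem z_a1 {I ι : Type} [Fintype I] [DecidableEq I] {nd : I → ι} {ar : ι → ι → ℕ} {fr : ι → ℕ}
    (har : ∀ j, ar j j = 0) {i : ι} {m : I → ℤ} (hm : Coch nd i m) {Fx : Set (Pt (Cou nd ar fr))}
    (hF : Fx = FixG (grC (Cou nd ar fr) m)) (p : PG (Cou nd ar fr) m → Fx)
    (hp : Continuous p) (hpv : ∀ z, Same0 (grC (Cou nd ar fr) m) (Subtype.val z) (p z).1)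
    {N k : ℕ} (φ : Pt (CouA1 N k) ≃ₜ Fx)
    (hφ : ∀ x y, Leaf (brA (CouA1 N k)) x y ↔ Leaf (brA (Cou nd ar fr)) (φ x) (φ y)) :
    ∃ e, Clos N k e ∧ ∃ (n : ℕ) (c : Fin n → Fin (min k (N / 2) + 1)),
      Eqv ((((mIC (rk (brA (Cou nd ar fr)))).on
        (PG (Cou nd ar fr) m)).comap Subtype.val continuous_subtype_val).push p)
      (piPC fun a => (mIC (rk (brA (CouA1 (N - 2 * c a) (k - c a))))).push
        fun y => φ (e (c a) y)) := by
  have : Algebra.FiniteType ℂ (CouA1 N k) := cou_fg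
  have : Nice (Pt (CouA1 N k)) := pt_nice
  have := fm_nice N k
  obtain ⟨Ψ, a1, a2, a3⟩ := a1_main N k
  have hb : IsPoi (brA (CouA1 N k)) := cou_poi fun _ => rfl
  have hH : Hol (brA (CouA1 N k)) := cou_hol fun _ => rfl
  have S : Strat (Cou nd ar fr) m (fun x => (φ x).1) (rk (brA (CouA1 N k))) :=
    ⟨IsEmbedding.subtypeVal.comp φ.isEmbedding, by
      rw [← hF]; exact (φ.surjective.range_comp Subtype.val).trans Subtype.range_coe,
    fun x y => (a2 x y).symm.trans (hφ x y), fun x => by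
      rw [← a3]; exact closure_mono fun y hy => ((a2 x y).1 hy).symm, fun x => by
      rw [show {y | rk (brA (CouA1 N k)) y = rk (brA (CouA1 N k)) x} =
        {y | Leaf (brA (CouA1 N k)) x y} from Set.ext fun y => eq_comm.trans (a2 x y).symm]
      exact leaf_mfd hb hH x⟩
  have hq : Continuous (φ.symm ∘ p) := φ.symm.continuous.comp hp
  obtain ⟨e, c1, c2, c3⟩ := z_clos N k
  choose c hc using c3
  refine ⟨e, c1, (geo_core har hm S (rk_lsc hb) (rk_even hb)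
    (by rw [show rk (brA (CouA1 N k)) = FM.st ∘ Ψ from funext a1]; exact link_homeo Ψ (fm_link N k))
    hq (fun z => by simpa using hpv z) _ fun _ => rfl).imp fun n ⟨z, h⟩ => ⟨c ∘ z, ?_⟩⟩
  have e1 := eqv_push_push (fl_shriek (I := mIC (rk (brA (Cou nd ar fr)))) (fl_mdel _ _ _)
    (z_closed _ _)) hq φ.continuous
  rw [show φ ∘ φ.symm ∘ p = p from funext fun z => φ.apply_symm_apply _] at e1
  exact e1.symm.trans ((h.push φ.continuous).trans ((eqv_push_pi (fun a =>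
    fl_push (fl_mdel _ _ _) continuous_subtype_val) φ.continuous).trans (Eqv.pi (fun a =>
    fl_push (fl_push (fl_mdel _ _ _) continuous_subtype_val) φ.continuous) fun a =>
    (eqv_push_push (fl_mdel _ _ _) continuous_subtype_val φ.continuous).trans
      (z_homeo (rk_lsc hb) (c1 (c (z a))).1.isEmbedding (hc (z a)) (c2 (c (z a))) φ.continuous))))

theorem z_attr {I : Type} [Fintype I] [DecidableEq I] {A : Subalgebra ℂ (LL I)} {b : A → A → A}
    {m χ : I → ℤ} (hg : IsGr b (grC A m))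
    (h1 : ∀ s (a a' : A), toSub A (scale χ s (a + a' : A)) =
      toSub A (scale χ s a) + toSub A (scale χ s a'))
    (h2 : ∀ s n, ∀ a ∈ grC A m n, toSub A (scale χ s a) = ((s ^ (-n) : ℂˣ) : ℂ) • a) :
    Fix A χ = FixG (grC A m) ∧ ∃ p : PG A m → Fix A χ, Continuous p ∧
      (∀ z, Same0 (grC A m) (Subtype.val z) (p z).1) ∧ (∀ z, Lim A χ (Subtype.val z) (p z).1) ∧
      ∀ x y, Lim A χ x y → x ∈ PG A m := by
  obtain ⟨a1, a2, q, hq, a3⟩ := attr hg (fun s a => toSub A (scale χ s a)) h1 h2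
  exact ⟨Set.ext a1, fun z => ⟨q z, (a1 _).2 (a3 z).1⟩, hq.subtype_mk _, fun z => (a3 z).2,
    fun z => (a2 z.1 (q z)).2 ⟨z.2, a3 z⟩, fun x y h => ((a2 x y).1 h).1⟩

theorem z_attr' {I ι : Type} [Fintype I] [DecidableEq I] {nd : I → ι} {ar : ι → ι → ℕ} {fr : ι → ℕ}
    (har : ∀ j, ar j j = 0) {i : ι} {m χ : I → ℤ} (hc : Coch nd i m) (hχ : ∀ a, χ a = -m a) :
    Fix (Cou nd ar fr) χ = FixG (grC (Cou nd ar fr) m) ∧
    ∃ p : PG (Cou nd ar fr) m → Fix (Cou nd ar fr) χ, Continuous p ∧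
      (∀ z, Same0 (grC (Cou nd ar fr) m) (Subtype.val z) (p z).1) ∧
      (∀ z, Lim (Cou nd ar fr) χ (Subtype.val z) (p z).1) ∧
      ∀ x y, Lim (Cou nd ar fr) χ x y → x ∈ PG (Cou nd ar fr) m :=
  z_attr (cou_gr har hc.1) (scale_add fun a b h => by rw [hχ, hχ, hc.1 a b h]) fun s n a ha =>
    scale_grC (n := -n) (fun l hl => by rw [← ha l hl]; simp only [hχ, neg_mul, Finset.sum_neg_distrib]) s

open CategoryTheory Limits in
theorem z_fin {X : Type} [TopologicalSpace X] {P Fx : Set X} (hP : IsClosed P) (dm : X → ℕ)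
    {p : P → Fx} (hp : Continuous p) {r n : ℕ} (T : Fin r → Type) [∀ c, TopologicalSpace (T c)]
    (g : ∀ c, C(T c, Fx)) (st : ∀ c, T c → ℕ) (c : Fin n → Fin r)
    (h : Eqv ((((mIC dm).on P).comap Subtype.val continuous_subtype_val).push p)
      (piPC fun a => (mIC (st (c a))).push fun y => g (c a) y)) :
    ∃ mult : Fin r → ℕ, Nonempty
      ((Rpush (TopCat.ofHom (⟨p, hp⟩ : C((⟨P, hP⟩ : Closeds (TopCat.of X)), Fx)))).obj
        ((Rshriek ⟨P, hP⟩).obj (IC (TopCat.of X) dm)) ≅ ⨁ fun j : Σ c, Fin (mult c) =>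
          (Rpush (TopCat.ofHom (g j.1))).obj (IC (TopCat.of (T j.1)) (st j.1))) := by
  obtain ⟨f⟩ := bridge (X := TopCat.of X) (F := TopCat.of Fx) dm ⟨P, hP⟩ (TopCat.ofHom ⟨p, hp⟩)
    (fun j => TopCat.of (T (c j))) (fun j => TopCat.ofHom (g (c j))) (fun j => st (c j)) h
  let E : (Σ c0, Fin (Fintype.card {j // c j = c0})) ≃ Fin n :=
    (Equiv.sigmaCongrRight fun c0 => (Fintype.equivFin {j // c j = c0}).symm).trans
      (Equiv.sigmaFiberEquiv c)
  exact ⟨fun c0 => Fintype.card {j // c j = c0}, ⟨f ≪≫ (biproduct.whiskerEquiv E fun j =>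
    eqToIso (congrArg (fun c0 => (Rpush (TopCat.ofHom (g c0))).obj (IC (TopCat.of (T c0)) (st c0)))
      ((Fintype.equivFin {i // c i = j.1}).symm j.2).2)).symm⟩⟩

open CategoryTheory Limits in
/-- the conclusion of the main theorem -/
def Concl {I : Type} [Fintype I] [DecidableEq I] (A : Subalgebra ℂ (LL I)) (χ : I → ℤ) : Prop :=
  ∃ (Z : Closeds (TopCat.of (Pt A))) (p : C(Z, Fix A χ)),
    (∀ x, x ∈ Z ↔ ∃ y, Lim A χ x y) ∧ (∀ x : Z, Lim A χ x (p x)) ∧
    ∀ (N k : ℕ) (φ : Pt (CouA1 N k) ≃ₜ Fix A χ),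
      (∀ x y, Leaf (brA (CouA1 N k)) x y ↔ Leaf (brA A) (φ x) (φ y)) →
      ∃ e : ∀ c : Fin (min k (N / 2) + 1), C(Pt (CouA1 (N - 2 * c) (k - c)), Pt (CouA1 N k)),
        (∀ c, IsClosedEmbedding (e c) ∧
          (∀ x y, Leaf (brA (CouA1 (N - 2 * c) (k - c))) x y ↔
            Leaf (brA (CouA1 N k)) (e c x) (e c y)) ∧
          ∃ z, Set.range (e c) = closure {y | Leaf (brA (CouA1 N k)) z y}) ∧
        ∃ mult : Fin (min k (N / 2) + 1) → ℕ, Nonempty
          ((Rpush (TopCat.ofHom p)).obj ((Rshriek Z).obj (IC (TopCat.of (Pt A)) (rk (brA A)))) ≅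
            ⨁ fun j : Σ c, Fin (mult c) =>
              (Rpush (TopCat.ofHom ((φ : C(Pt (CouA1 N k), Fix A χ)).comp (e j.1)))).obj
                (IC (TopCat.of (Pt (CouA1 (N - 2 * j.1) (k - j.1))))
                  (rk (brA (CouA1 (N - 2 * j.1) (k - j.1))))))

theorem z_gen {I : Type} [Fintype I] [DecidableEq I] {A : Subalgebra ℂ (LL I)} {m χ : I → ℤ}
    (p : PG A m → Fix A χ) (hp : Continuous p) (h2 : ∀ z, Lim A χ (Subtype.val z) (p z).1)
    (h3 : ∀ x y, Lim A χ x y → x ∈ PG A m)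
    (h4 : ∀ (N k : ℕ) (φ : Pt (CouA1 N k) ≃ₜ Fix A χ),
      (∀ x y, Leaf (brA (CouA1 N k)) x y ↔ Leaf (brA A) (φ x) (φ y)) →
      ∃ e, Clos N k e ∧ ∃ (n : ℕ) (c : Fin n → Fin (min k (N / 2) + 1)),
        Eqv ((((mIC (rk (brA A))).on (PG A m)).comap Subtype.val continuous_subtype_val).push p)
        (piPC fun a => (mIC (rk (brA (CouA1 (N - 2 * c a) (k - c a))))).push
          fun y => φ (e (c a) y))) : Concl A χ :=
  ⟨⟨_, z_closed A m⟩, ⟨p, hp⟩, fun x => ⟨fun hx => ⟨_, h2 ⟨x, hx⟩⟩, fun ⟨y, hy⟩ => h3 x y hy⟩, h2,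
    fun N k φ hφ => (h4 N k φ hφ).imp fun e h => ⟨h.1, h.2.elim fun _ h => h.elim fun c h =>
      z_fin (z_closed A m) _ hp (fun c : Fin (min k (N / 2) + 1) => Pt (CouA1 (N - 2 * c) (k - c)))
        (fun c => (φ : C(Pt (CouA1 N k), Fix A χ)).comp (e c))
        (fun c => rk (brA (CouA1 (N - 2 * c) (k - c)))) c h⟩⟩

theorem main (ι : Type) [Fintype ι] [DecidableEq ι] (ar : ι → ι → ℕ) (har : ∀ j, ar j j = 0)
    (v fr : ι → ℕ) (i : ι) (m : ι → ℤ) (hi : m i = 0) (hm : ∀ j, j ≠ i → m j < 0) (ε : ℤˣ) :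
    Concl (Cou (Sigma.fst : (Σ j, Fin (v j)) → ι) ar fr) fun a => ε * m a.1 := by
  have h0 : ∀ j, m j ≤ 0 := fun j => by
    by_cases h : j = i
    · rw [h, hi]
    · exact (hm j h).le
  have hc : Coch (Sigma.fst : (Σ j, Fin (v j)) → ι) i fun a => -(ε * m a.1) := by
    refine ⟨fun a b h => by simp only [h], fun a h => by_contra fun h' => ?_, ?_⟩
    · exact (hm _ h').ne ((mul_eq_zero.1 (neg_eq_zero.1 h)).resolve_left ε.ne_zero)
    · rcases Int.units_eq_one_or ε with rfl | rfl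
      · exact Or.inl fun a => by simpa only [Units.val_one, one_mul, Int.neg_nonneg] using h0 a.1
      · exact Or.inr fun a => by simpa only [Units.val_neg, Units.val_one, Int.reduceNeg, neg_mul, one_mul, neg_neg] using h0 a.1
  exact (z_attr' (fr := fr) har hc fun a => (neg_neg _).symm).elim fun hF h =>
    h.elim fun p h => z_gen p h.1 h.2.2.1 h.2.2.2 fun _ _ φ hφ => z_a1 har hc hF p h.1 h.2.1 φ hφ

end C73
end
end
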